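import Mathlib

open Complex Filter Topology Set MeasureTheory

namespace H345

/-- ordinates of zeros of zeta on the critical line -/
def Zo : Set ℝ := {t : ℝ | riemannZeta (1 / 2 + (t : ℂ) * I) = 0}

/-- the coefficients `1/ζ'(ρ)` -/
noncomputable def aa (t : ℝ) : ℂ := (deriv riemannZeta (1 / 2 + (t : ℂ) * I))⁻¹

/-- Mellin transform of the kernel -/
noncomputable def WW (A : ℕ) (w : ℂ) : ℂ :=
  (Real.exp A : ℂ) * (A : ℂ) ^ (w - A) * Gamma (A - w)

/-- the kernel `(x e^{1-x})^A` -/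
noncomputable def kap (A : ℕ) (x : ℝ) : ℝ := (x * Real.exp (1 - x)) ^ A

/-- the two versions of the Mellin transform -/
noncomputable def WE (e : Bool) (A : ℕ) (w : ℂ) : ℂ := WW A (if e then w else -w)

/-- the two versions of the kernel -/
noncomputable def ker (e : Bool) (A : ℕ) (x : ℝ) : ℝ := kap A (if e then x else x⁻¹)

/-- the factor in the functional equation `ζ(1-s) = XX s * ζ(s)` -/
noncomputable def XX (s : ℂ) : ℂ :=
  2 * (2 * (Real.pi : ℂ)) ^ (-s) * Gamma s * Complex.cos (Real.pi * s / 2)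

/-- zeros in the window of half-length `(log X)^2` around `T` -/
def Zw (X T : ℝ) : Set ℝ := Zo ∩ Set.Icc (T - (Real.log X) ^ 2) (T + (Real.log X) ^ 2)

/-- the sum over the zeros in the window -/
noncomputable def ZZ (e : Bool) (A : ℕ) (X y T : ℝ) : ℂ :=
  ∑ᶠ t ∈ Zw X T, WE e A (((t - T : ℝ) : ℂ) * I) * (y : ℂ) ^ (((t - T : ℝ) : ℂ) * I) * aa t

/-- the smoothed Dirichlet sums -/
noncomputable def DD (e : Bool) (A : ℕ) (y T : ℝ) : ℂ :=
  ∑' n : ℕ, (ArithmeticFunction.moebius n : ℂ) * (n : ℂ) ^ (-(1 / 2 : ℂ) - (T : ℂ) * I) *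
    (ker e A (y / n) : ℂ)

/-- zeros near `T` are simple and well spaced -/
def Spaced (X T : ℝ) : Prop :=
  (∀ t ∈ Zo, |t - T| ≤ (Real.log X) ^ 2 + 20 → deriv riemannZeta (1 / 2 + (t : ℂ) * I) ≠ 0) ∧
  (∀ t ∈ Zo, ∀ t' ∈ Zo, |t - T| ≤ (Real.log X) ^ 2 + 20 → |t' - T| ≤ (Real.log X) ^ 2 + 20 →
    t ≠ t' → 2 / Real.log X ≤ |t - t'|)

/-- differences of zeros near `T` are almost in the lattice `2π/P ℤ`, `P = 2 (log T + 1)` -/
def Latt (φ X T : ℝ) : Prop :=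
  ∀ t ∈ Zo, ∀ t' ∈ Zo, |t - T| ≤ (Real.log X) ^ 2 + 20 → |t' - T| ≤ (Real.log X) ^ 2 + 20 →
    ‖cexp (((2 * (Real.log T + 1) * (t - t') : ℝ) : ℂ) * I) - 1‖ ≤ φ * Real.log X * |t - t'|

/-- total weight of the coefficients in the window -/
noncomputable def N2 (A : ℕ) (X T : ℝ) : ℝ :=
  ∑ᶠ t ∈ Zw X T, ‖WW A (((t - T : ℝ) : ℂ) * I)‖ * (1 + |t - T|) ^ 4 * ‖aa t‖ ^ 2

/-- the weight attached to a set `B` of bad heights -/
noncomputable def GB (X : ℝ) (B : Set ℝ) (T : ℝ) : ℝ :=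
  if (Real.log X) ^ 3 ≤ Metric.infDist T B then
    Real.exp (-(max 0 (3 * (Real.log X) ^ 3 - Metric.infDist T B)) / (2 * Real.log X)) else 0

/-- `B` is an admissible bad set at scale `X` with lattice error `φ` -/
structure Adm (φ X : ℝ) (B : Set ℝ) : Prop where
  low : ∀ T : ℝ, T < Real.sqrt X → T ∈ B
  high : ∀ T : ℝ, X < T → T ∈ B
  sp : ∀ T : ℝ, (Real.log X) ^ 3 ≤ Metric.infDist T B → Spaced X T
  la : ∀ T : ℝ, (Real.log X) ^ 3 ≤ Metric.infDist T B → Latt φ X T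

/-- the quadratic mean along the curve `y = c T` -/
noncomputable def JJ (c : ℝ) (A : ℕ) (Y : ℝ) : ℝ :=
  ∫ y in Set.Ioi (0 : ℝ), ‖DD true A y (y / c)‖ ^ 2 * Real.exp (-y / Y)

/-- `γ` lists the positive ordinates of the nontrivial zeros (on the critical line), in
nondecreasing order and with multiplicity -/
structure IsZeroList (γ : ℕ → ℝ) : Prop where
  pos : ∀ j, 0 < γ j
  mono : Monotone γ
  mult : ∀ t : ℝ, 0 < t → {j : ℕ | γ j = t}.encard =
    (analyticOrderAt riemannZeta (1 / 2 + (t : ℂ) * I) : ℕ∞)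

/-- normalised ordinate -/
noncomputable def gt (x : ℝ) : ℝ := 1 / (2 * Real.pi) * x * Real.log x

/-- normalised gaps -/
noncomputable def gap (γ : ℕ → ℝ) (j : ℕ) : ℝ := gt (γ (j + 1)) - gt (γ j)

/-- the positive integers and half-integers -/
def Half : Set ℝ := {x : ℝ | ∃ k : ℕ, 1 ≤ k ∧ x = (k : ℝ) / 2}

end H345
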