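import Pool.Agent.H345R2.SMLoc

set_option autoImplicit false

/-! Sixth moment project, task T10. -/

namespace Pool.Agent.H345.SMLoc

open Finset Filter Topology
open Pool.Agent.H306R2 Pool.Agent.H306R2.SM

noncomputable section

lemma A0_self {p : ℕ} (hp : p.Prime) :
    A0 p (1 / (p:ℝ)) = (4 * (1 / (p:ℝ)) + (1 / (p:ℝ)) ^ 2) / (1 - 1 / (p:ℝ)) := by
  have hp' := inv_prime hp
  unfold A0 pl
  set x := 1 / (p:ℝ) with hx
  have hx1 : ‖x‖ < 1 := by rw [Real.norm_of_nonneg hp'.1.le]; linarith [hp'.2]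
  have h0 := hasSum_choose_mul_geometric_of_norm_lt_one 0 hx1
  have h1 := hasSum_choose_mul_geometric_of_norm_lt_one 1 hx1
  have h2 := hasSum_choose_mul_geometric_of_norm_lt_one 2 hx1
  have hc : (1 - x) ≠ 0 := by linarith [hp'.2]
  have h3 := (((h0.mul_left x).add (h1.mul_left (x * (2 * (1 - x) - (1 - x) ^ 2)))).add
    (h2.mul_left (x * (2 * (1 - x) ^ 2))))
  have h4 : HasSum (fun a : ℕ => (1 + ((a + 1 : ℕ) : ℝ) * (1 - x)) ^ 2 * x ^ (a + 1))
      (x * (1 / (1 - x) ^ (0 + 1)) + x * (2 * (1 - x) - (1 - x) ^ 2) * (1 / (1 - x) ^ (1 + 1)) +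
        x * (2 * (1 - x) ^ 2) * (1 / (1 - x) ^ (2 + 1))) := by
    refine h3.congr_fun fun a => ?_
    have c2 : (((a + 2).choose 2 : ℕ) : ℝ) = ((a:ℝ) + 2) * (a + 1) / 2 := by
      rw [Nat.cast_choose_two]
      push_cast
      ring
    rw [c2]
    simp only [add_zero, Nat.choose_zero_right, Nat.choose_one_right]
    push_cast
    ring
  rw [h4.tsum_eq]
  field_simp
  ring

lemma lc_three (m : ℕ) : lc 3 m = ((m:ℝ) + 1) * (m + 2) / 2 := by
  induction m with
  | zero => simp [lc_zero]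
  | succ m ih =>
    rw [lc_succ, ih]
    have : (m:ℝ) + 1 ≠ 0 := by positivity
    field_simp
    push_cast
    ring

lemma lc3_tsum {x : ℝ} (hx0 : 0 ≤ x) (hx1 : x < 1) :
    ∑' m : ℕ, lc 3 m ^ 2 * x ^ m = (1 + 4 * x + x ^ 2) / (1 - x) ^ 5 := by
  have hx : ‖x‖ < 1 := by rw [Real.norm_of_nonneg hx0]; exact hx1
  have h2 := hasSum_choose_mul_geometric_of_norm_lt_one 2 hx
  have h3 := hasSum_choose_mul_geometric_of_norm_lt_one 3 hx
  have h4 := hasSum_choose_mul_geometric_of_norm_lt_one 4 hx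
  have hc : (1 - x) ≠ 0 := by linarith
  have h5 := ((h4.mul_left 6).add (h3.mul_left (-6))).add h2
  have h6 : HasSum (fun m : ℕ => lc 3 m ^ 2 * x ^ m) (6 * (1 / (1 - x) ^ (4 + 1)) +
      -6 * (1 / (1 - x) ^ (3 + 1)) + 1 / (1 - x) ^ (2 + 1)) := by
    refine h5.congr_fun fun m => ?_
    have c2 : (((m + 2).choose 2 : ℕ) : ℝ) = ((m:ℝ) + 2) * (m + 1) / 2 := by
      rw [Nat.cast_choose_two]
      push_cast
      ring
    have c3 : (((m + 3).choose 3 : ℕ) : ℝ) = ((m:ℝ) + 3) * (m + 2) * (m + 1) / 6 := by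
      rw [Nat.cast_choose_eq_ascPochhammer_div]
      simp [ascPochhammer, Nat.factorial]
      ring
    have c4 : (((m + 4).choose 4 : ℕ) : ℝ) = ((m:ℝ) + 4) * (m + 3) * (m + 2) * (m + 1) / 24 := by
      rw [Nat.cast_choose_eq_ascPochhammer_div]
      simp [ascPochhammer, Nat.factorial]
      ring
    rw [lc_three, c2, c3, c4]
    ring
  rw [h6.tsum_eq]
  field_simp
  ring

lemma E_zero {p : ℕ} (hp : p.Prime) :
    E 0 0 p * (1 - (p:ℝ) ^ (-1 - (0:ℝ))) ^ 4 =
      (1 - 1 / (p : ℝ)) ^ ((3:ℝ) ^ 2) * ∑' m : ℕ, lc 3 m ^ 2 * (1 / (p : ℝ)) ^ m := by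
  have hp' := inv_prime hp
  unfold E
  rw [sub_zero, Real.rpow_neg_one, ← one_div, A0_self hp, lc3_tsum hp'.1.le (by linarith [hp'.2])]
  set x := 1 / (p:ℝ) with hx
  have hc : (1 - x) ≠ 0 := by linarith [hp'.2]
  have : (1 - x) ^ ((3:ℝ) ^ 2) = (1 - x) ^ 9 := by
    rw [show ((3:ℝ) ^ 2) = ((9:ℕ):ℝ) by norm_num, Real.rpow_natCast]
  rw [this]
  field_simp
  ring

lemma aF_three : aF 3 = Real.exp (∑' p : Nat.Primes, up4 0 0 p) := by
  have h := up4_hasProd (u := 0) (v := 0) le_rfl le_rfl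
  have h2 : HasProd (fun p : Nat.Primes => (1 - 1 / (p : ℝ)) ^ ((3:ℝ) ^ 2) *
      ∑' m : ℕ, lc 3 m ^ 2 * (1 / (p : ℝ)) ^ m) (Real.exp (∑' p : Nat.Primes, up4 0 0 p)) :=
    h.congr_fun fun p => (E_zero p.2).symm
  exact h2.tprod_eq

section limits

variable {β : Type*} {l : Filter β} {u v : β → ℝ}

lemma rp_tendsto (hu : Tendsto u l (𝓝 0)) {p : ℕ} (hp : p.Prime) :
    Tendsto (fun b => (p:ℝ) ^ (-1 - u b)) l (𝓝 ((p:ℝ) ^ (-1 - (0:ℝ)))) := by
  have hp0 : (p:ℝ) ≠ 0 := by exact_mod_cast hp.ne_zero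
  exact Tendsto.rpow tendsto_const_nhds (hu.const_sub _) (Or.inl hp0)

lemma term_le' {p : ℕ} {y : ℝ} (hy : 0 ≤ y) (hy2 : y ≤ 1 / 2) (a : ℕ) :
    pl p (a + 1) ^ 2 * y ^ (a + 1) ≤ ((a:ℝ) + 3) ^ 2 * (1 / 2 : ℝ) ^ a := by
  have h1 := pl_le p (a + 1)
  have h2 := pl_ge_one p (a + 1)
  have h3 : pl p (a + 1) ^ 2 ≤ ((a:ℝ) + 3) ^ 2 := by
    refine pow_le_pow_left₀ (by linarith) ?_ 2
    push_cast at h1
    linarith
  have h4 : y ^ (a + 1) ≤ (1 / 2) ^ a := by
    rw [pow_succ]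
    have h5 : y ^ a ≤ (1 / 2) ^ a := pow_le_pow_left₀ hy hy2 a
    calc y ^ a * y ≤ (1/2) ^ a * 1 := by gcongr; linarith
      _ = _ := by ring
  gcongr

lemma E_tendsto (hu : Tendsto u l (𝓝 0)) (hv : Tendsto v l (𝓝 0)) (hu0 : ∀ᶠ b in l, 0 ≤ u b)
    {p : ℕ} (hp : p.Prime) : Tendsto (fun b => E (u b) (v b) p) l (𝓝 (E 0 0 p)) := by
  unfold E
  refine ((((rp_tendsto hv hp).const_sub 1).mul ?_).const_add 1)
  unfold A0
  refine tendsto_tsum_of_dominated_convergence maj_summable (fun a => ?_) ?_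
  · exact ((rp_tendsto hu hp).pow _).const_mul _
  · filter_upwards [hu0] with b hb a
    have h := rp hp hb
    rw [Real.norm_of_nonneg (by positivity)]
    exact term_le' h.1.le h.2.2 a

lemma up4_tendsto (hu : Tendsto u l (𝓝 0)) (hv : Tendsto v l (𝓝 0)) (hu0 : ∀ᶠ b in l, 0 ≤ u b)
    {p : ℕ} (hp : p.Prime) : Tendsto (fun b => up4 (u b) (v b) p) l (𝓝 (up4 0 0 p)) := by
  unfold up4
  have h1 := (E_expand hp (le_refl (0:ℝ)) (le_refl (0:ℝ))).1
  have h2 := rp hp (le_refl (0:ℝ))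
  refine ((E_tendsto hu hv hu0 hp).log (by linarith)).add (Tendsto.const_mul _ ?_)
  have h3 : (p:ℝ) ^ (-1 - (0:ℝ)) < 1 := lt_of_le_of_lt h2.2.2 (by norm_num)
  exact Tendsto.log ((rp_tendsto hu hp).const_sub 1) (sub_pos.mpr h3).ne'

lemma up4_tsum_tendsto (hu : Tendsto u l (𝓝 0)) (hv : Tendsto v l (𝓝 0)) (hu0 : ∀ᶠ b in l, 0 ≤ u b)
    (hv0 : ∀ᶠ b in l, 0 ≤ v b) :
    Tendsto (fun b => ∑' p : Nat.Primes, up4 (u b) (v b) p) l
      (𝓝 (∑' p : Nat.Primes, up4 0 0 p)) := by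
  refine tendsto_tsum_of_dominated_convergence (primes_summable.mul_left C4)
    (fun p => up4_tendsto hu hv hu0 p.2) ?_
  filter_upwards [hu0, hv0] with b hb hb' p
  exact up4_bound p.2 hb hb'

end limits

/-- sum over integers coprime to `h` -/
lemma cop_hasSum {h : ℕ} (hh : h ≠ 0) {v : ℝ} (hv : 0 < v) :
    HasSum (fun l : ℕ => if Nat.Coprime h l then (l:ℝ) ^ (-1 - v) else 0) (Zr v * cop v h) := by
  classical
  let f : ℕ →*₀ ℝ :=
    { toFun := fun n => if Nat.Coprime h n then (n:ℝ) ^ (-1 - v) else 0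
      map_zero' := by
        simp only [Nat.cast_zero]
        rw [Real.zero_rpow (by linarith)]
        simp
      map_one' := by simp
      map_mul' := fun m n => by
        by_cases hm : Nat.Coprime h m
        · by_cases hn : Nat.Coprime h n
          · rw [if_pos (Nat.Coprime.mul_right hm hn), if_pos hm, if_pos hn]
            push_cast
            exact Real.mul_rpow (by positivity) (by positivity)
          · rw [if_neg (fun h' => hn (Nat.Coprime.coprime_mul_left_right h')), if_neg hn, mul_zero]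
        · rw [if_neg (fun h' => hm (Nat.Coprime.coprime_mul_right_right h')), if_neg hm, zero_mul] }
  have hf : ∀ n : ℕ, f n = if Nat.Coprime h n then (n:ℝ) ^ (-1 - v) else 0 := fun n => rfl
  have hsum : Summable (fun n => ‖f n‖) := by
    refine Summable.of_nonneg_of_le (fun n => norm_nonneg _) (fun n => ?_) (Zr_summable hv)
    rw [hf]
    split_ifs
    · rw [Real.norm_of_nonneg (by positivity)]
    · rw [norm_zero]; positivity
  have h1 := EulerProduct.eulerProduct_completely_multiplicative_hasProd hsum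
  have h2 := Zr_hasProd hv
  have h3 : HasProd (fun p : Nat.Primes => if (p:ℕ) ∣ h then (1 - ((p:ℕ):ℝ) ^ (-1 - v)) else 1)
      (cop v h) := by
    have h4 : HasProd (fun p : Nat.Primes => if (p:ℕ) ∣ h then (1 - ((p:ℕ):ℝ) ^ (-1 - v)) else 1)
        (∏ p ∈ (h.primeFactors.subtype Nat.Prime : Finset Nat.Primes),
          if (p:ℕ) ∣ h then (1 - ((p:ℕ):ℝ) ^ (-1 - v)) else 1) := by
      refine hasProd_prod_of_ne_finset_one fun p hp => ?_
      rw [if_neg]
      intro hd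
      exact hp ((Finset.mem_subtype (p := Nat.Prime) (s := h.primeFactors) (a := p)).mpr
        (Nat.mem_primeFactors.mpr ⟨p.2, hd, hh⟩))
    convert h4 using 1
    unfold cop
    rw [Finset.prod_subtype_eq_prod_filter (s := h.primeFactors) (p := Nat.Prime)
      (f := fun p : ℕ => if p ∣ h then (1 - (p:ℝ) ^ (-1 - v)) else 1)]
    rw [Finset.filter_true_of_mem (fun p hp => Nat.prime_of_mem_primeFactors hp)]
    refine prod_congr rfl fun p hp => ?_
    rw [if_pos (Nat.dvd_of_mem_primeFactors hp)]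
  have h5 := h2.mul h3
  have h6 : (∑' n, f n) = Zr v * cop v h := by
    refine HasProd.unique h1 (h5.congr_fun fun p => ?_)
    rw [hf]
    have hy := rp p.2 hv.le
    by_cases hd : (p:ℕ) ∣ h
    · rw [if_pos hd, if_neg]
      · have : (1 - ((p:ℕ):ℝ) ^ (-1 - v)) ≠ 0 := by linarith [hy.2.2]
        field_simp
        ring
      · rw [Nat.coprime_comm, Nat.Prime.coprime_iff_not_dvd p.2]
        exact fun h' => h' hd
    · rw [if_neg hd, if_pos, mul_one]
      rw [Nat.coprime_comm, Nat.Prime.coprime_iff_not_dvd p.2]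
      exact hd
  rw [← h6]
  exact hsum.of_norm.hasSum

lemma w1_mk (h l : ℕ) : w1 ![h, l] =
    if Nat.Coprime h l ∧ h ≠ 0 ∧ l ≠ 0 then psi h ^ 2 / ((h:ℝ) * (l:ℝ)) else 0 := rfl

/-- the general double sum -/
lemma double_hasSum (q : ℕ → ℝ) (hq : ∀ h, 0 ≤ q h) (s : Fin 2 → ℝ) (hs : ∀ i, 0 < s i)
    (hsum : Summable (fun h => q h * F (s 0) (s 1) h)) :
    HasSum (fun b : Fin 2 → ℕ => w1 b * q (b 0) * ∏ i, (b i : ℝ) ^ (-(s i)))
      (Zr (s 1) * ∑' h, q h * F (s 0) (s 1) h) := by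
  classical
  have hF : ∀ h, 0 ≤ F (s 0) (s 1) h := F_nonneg _ (hs 1).le
  let G : ℕ × ℕ → ℝ := fun x => w1 ![x.1, x.2] * q x.1 * ((x.1:ℝ) ^ (-(s 0)) * (x.2:ℝ) ^ (-(s 1)))
  have hG0 : 0 ≤ G := by
    intro x
    show 0 ≤ w1 ![x.1, x.2] * q x.1 * ((x.1:ℝ) ^ (-(s 0)) * (x.2:ℝ) ^ (-(s 1)))
    have h1 := hq x.1
    have h2 : 0 ≤ w1 ![x.1, x.2] := by
      unfold w1
      split_ifs
      · positivity
      · exact le_refl _
    positivity
  have hrow : ∀ h : ℕ, HasSum (fun l => G (h, l)) (Zr (s 1) * (q h * F (s 0) (s 1) h)) := by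
    intro h
    rcases Nat.eq_zero_or_pos h with h0 | h0
    · subst h0
      rw [F_zero (hs 0).le, mul_zero, mul_zero]
      have : (fun l => G (0, l)) = fun _ => 0 := by
        funext l
        show w1 ![0, l] * q 0 * _ = 0
        have : w1 ![0, l] = 0 := by
          rw [w1_mk, if_neg]
          simp
        rw [this]; ring
      rw [this]
      exact hasSum_zero
    · have h1 := (cop_hasSum h0.ne' (hs 1)).mul_left (q h * (psi h ^ 2 * (h:ℝ) ^ (-1 - s 0)))
      have e : q h * (psi h ^ 2 * (h:ℝ) ^ (-1 - s 0)) * (Zr (s 1) * cop (s 1) h) =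
          Zr (s 1) * (q h * F (s 0) (s 1) h) := by unfold F; ring
      rw [e] at h1
      refine h1.congr_fun fun l => ?_
      show w1 ![h, l] * q h * ((h:ℝ) ^ (-(s 0)) * (l:ℝ) ^ (-(s 1))) = _
      rw [w1_mk]
      rcases Nat.eq_zero_or_pos l with hl | hl
      · subst hl
        have h00 : (0:ℝ) ^ (-1 - s 1) = 0 := Real.zero_rpow (by linarith [hs 1])
        rw [if_neg (by simp), Nat.cast_zero, h00]
        simp
      · by_cases hc : Nat.Coprime h l
        · rw [if_pos ⟨hc, h0.ne', hl.ne'⟩, if_pos hc]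
          have hh : (0:ℝ) < h := by exact_mod_cast h0
          have hl' : (0:ℝ) < l := by exact_mod_cast hl
          rw [show (-1 - s 0 : ℝ) = -(s 0) - 1 by ring, show (-1 - s 1 : ℝ) = -(s 1) - 1 by ring,
            Real.rpow_sub hh, Real.rpow_sub hl', Real.rpow_one, Real.rpow_one]
          field_simp
        · rw [if_neg (fun h' => hc h'.1), if_neg hc]
          ring
  have hsG : Summable G := by
    rw [summable_prod_of_nonneg hG0]
    refine ⟨fun h => (hrow h).summable, ?_⟩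
    simp only [fun h => (hrow h).tsum_eq]
    exact hsum.mul_left _
  have h1 : HasSum G (Zr (s 1) * ∑' h, q h * F (s 0) (s 1) h) := by
    have h2 := hsG.hasSum
    have h3 : ∑' x, G x = Zr (s 1) * ∑' h, q h * F (s 0) (s 1) h := by
      rw [hsG.tsum_prod]
      simp only [fun h => (hrow h).tsum_eq]
      rw [tsum_mul_left]
    rw [← h3]
    exact h2
  have h4 := (finTwoArrowEquiv ℕ).hasSum_iff.mpr h1
  refine h4.congr_fun fun b => ?_
  show w1 b * q (b 0) * _ = w1 ![b 0, b 1] * q (b 0) * ((b 0 : ℝ) ^ (-(s 0)) * (b 1 : ℝ) ^ (-(s 1)))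
  rw [Fin.prod_univ_two]
  congr 2

end

end Pool.Agent.H345.SMLoc

namespace Pool.Agent.H345.SMT10

open Finset Filter Topology
open Pool.Agent.H306R2 Pool.Agent.H306R2.SM Pool.Agent.H345.SMLoc

/-- T10a -/
theorem w1_KH : KH 2 w1 := by
  refine ⟨fun b => ?_, fun b hb => ?_, fun s hs => ?_⟩
  · unfold w1
    split_ifs
    · positivity
    · exact le_refl _
  · obtain ⟨i, hi⟩ := hb
    unfold w1
    rw [if_neg]
    rintro ⟨-, h1, h2⟩
    fin_cases i
    · exact h1 hi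
    · exact h2 hi
  · have h := double_hasSum (fun _ => 1) (fun _ => zero_le_one) s hs (by
      simpa using F_summable (hs 0) (hs 1).le)
    simpa using h.summable

/-- T10b -/
theorem w1_lim (s : Fin 2 → ℝ) (hs : ∀ i, 0 < s i) :
    Tendsto (fun L : ℝ => (∑' b : Fin 2 → ℕ, w1 b * ∏ i, (b i : ℝ) ^ (-(s i / L))) / L ^ (5 : ℝ))
      atTop (𝓝 (aF 3 * ∏ i, (s i) ^ (-((![4, 1] : Fin 2 → ℝ) i)))) := by
  have hdiv : ∀ i, Tendsto (fun L : ℝ => s i / L) atTop (𝓝 0) := fun i =>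
    tendsto_const_nhds.div_atTop tendsto_id
  have hpos : ∀ i, ∀ᶠ L : ℝ in atTop, 0 ≤ s i / L := fun i => by
    filter_upwards [eventually_gt_atTop 0] with L hL
    have := hs i
    positivity
  have h1 := (up4_tsum_tendsto (hdiv 0) (hdiv 1) (hpos 0) (hpos 1)).rexp
  rw [← aF_three] at h1
  have h2 := (h1.mul ((Zr_tendsto (hs 0)).pow 4)).mul (Zr_tendsto (hs 1))
  have e : aF 3 * (s 0)⁻¹ ^ 4 * (s 1)⁻¹ = aF 3 * ∏ i, (s i) ^ (-((![4, 1] : Fin 2 → ℝ) i)) := by
    rw [Fin.prod_univ_two]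
    simp only [Matrix.cons_val_zero, Matrix.cons_val_one]
    rw [Real.rpow_neg_one, Real.rpow_neg (hs 0).le, show (4:ℝ) = ((4:ℕ):ℝ) by norm_num,
      Real.rpow_natCast, inv_pow]
    ring
  rw [e] at h2
  refine h2.congr' ?_
  filter_upwards [eventually_gt_atTop 0] with L hL
  have hs' : ∀ i, 0 < s i / L := fun i => div_pos (hs i) hL
  have h3 := double_hasSum (fun _ => 1) (fun _ => zero_le_one) (fun i => s i / L) hs' (by
    simpa using F_summable (hs' 0) (hs' 1).le)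
  simp only [mul_one, one_mul] at h3
  rw [h3.tsum_eq, F_tsum (hs' 0) (hs' 1).le]
  rw [show (5:ℝ) = ((5:ℕ):ℝ) by norm_num, Real.rpow_natCast]
  field_simp

end Pool.Agent.H345.SMT10
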