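import Pool.Agent.H345R2.SMT10

set_option autoImplicit false

/-! Sixth moment project, task T11. -/

namespace Pool.Agent.H345.SMLoc

open Finset Filter Topology
open Pool.Agent.H306R2 Pool.Agent.H306R2.SM

noncomputable section

/-- `Σ_p log^k p p^{-1-u}` -/
def Dk (k : ℕ) (u : ℝ) : ℝ := ∑' p : Nat.Primes, Real.log p ^ k * ((p:ℕ):ℝ) ^ (-1 - u)

lemma plog (p : Nat.Primes) : 0 ≤ Real.log p := Real.log_nonneg (by exact_mod_cast p.2.one_lt.le)

lemma p_ineq (p : Nat.Primes) {a b : ℝ} :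
    (b - a) * (Real.log p * ((p:ℕ):ℝ) ^ (-1 - b)) ≤ ((p:ℕ):ℝ) ^ (-1 - a) - ((p:ℕ):ℝ) ^ (-1 - b) ∧
    ((p:ℕ):ℝ) ^ (-1 - a) - ((p:ℕ):ℝ) ^ (-1 - b) ≤ (b - a) * (Real.log p * ((p:ℕ):ℝ) ^ (-1 - a)) := by
  have hp : (0:ℝ) < (p:ℕ) := by exact_mod_cast p.2.pos
  constructor
  · have h1 : ((p:ℕ):ℝ) ^ (-1 - a) = ((p:ℕ):ℝ) ^ (-1 - b) * Real.exp ((b - a) * Real.log p) := by
      rw [show (-1 - a : ℝ) = (-1 - b) + (b - a) by ring, Real.rpow_add hp,
        Real.rpow_def_of_pos hp (b - a), mul_comm (b - a)]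
    have h2 := Real.add_one_le_exp ((b - a) * Real.log p)
    have h3 : 0 ≤ ((p:ℕ):ℝ) ^ (-1 - b) := by positivity
    rw [h1]
    nlinarith [mul_le_mul_of_nonneg_left h2 h3]
  · have h1 : ((p:ℕ):ℝ) ^ (-1 - b) = ((p:ℕ):ℝ) ^ (-1 - a) * Real.exp (-((b - a) * Real.log p)) := by
      rw [show (-1 - b : ℝ) = (-1 - a) + (-(b - a)) by ring, Real.rpow_add hp,
        Real.rpow_def_of_pos hp (-(b - a))]
      congr 2
      ring
    have h2 := Real.add_one_le_exp (-((b - a) * Real.log p))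
    have h3 : 0 ≤ ((p:ℕ):ℝ) ^ (-1 - a) := by positivity
    rw [h1]
    nlinarith [mul_le_mul_of_nonneg_left h2 h3]

lemma Dk_summable (k : ℕ) : ∀ {u : ℝ}, 0 < u →
    Summable (fun p : Nat.Primes => Real.log p ^ k * ((p:ℕ):ℝ) ^ (-1 - u)) := by
  induction k with
  | zero =>
    intro u hu
    simp only [pow_zero, one_mul]
    exact Nat.Primes.summable_rpow.mpr (by linarith)
  | succ k ih =>
    intro u hu
    have h1 := ih (u := u / 2) (by positivity)
    refine Summable.of_nonneg_of_le (fun p => ?_) (fun p => ?_) (h1.mul_left (2 / u))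
    · have := plog p
      positivity
    · have h2 := (p_ineq p (a := u / 2) (b := u)).1
      have h3 := plog p
      have h4 : 0 ≤ ((p:ℕ):ℝ) ^ (-1 - u) := by positivity
      have h5 : Real.log p * ((p:ℕ):ℝ) ^ (-1 - u) ≤ 2 / u * ((p:ℕ):ℝ) ^ (-1 - u / 2) := by
        rw [div_mul_eq_mul_div, le_div_iff₀ hu]
        have e : u - u / 2 = u / 2 := by ring
        rw [e] at h2
        nlinarith
      calc Real.log p ^ (k + 1) * ((p:ℕ):ℝ) ^ (-1 - u)
          = Real.log p ^ k * (Real.log p * ((p:ℕ):ℝ) ^ (-1 - u)) := by ring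
        _ ≤ Real.log p ^ k * (2 / u * ((p:ℕ):ℝ) ^ (-1 - u / 2)) := by gcongr
        _ = _ := by ring

lemma Dk_ineq (k : ℕ) {a b : ℝ} (ha : 0 < a) (hb : 0 < b) :
    (b - a) * Dk (k + 1) b ≤ Dk k a - Dk k b ∧ Dk k a - Dk k b ≤ (b - a) * Dk (k + 1) a := by
  unfold Dk
  have ha' := Dk_summable k ha
  have hb' := Dk_summable k hb
  rw [← ha'.tsum_sub hb', ← tsum_mul_left, ← tsum_mul_left]
  constructor
  · refine Summable.tsum_le_tsum (fun p => ?_) ((Dk_summable (k + 1) hb).mul_left _) (ha'.sub hb')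
    have h := (p_ineq p (a := a) (b := b)).1
    have h3 : 0 ≤ Real.log p ^ k := pow_nonneg (plog p) k
    calc (b - a) * (Real.log p ^ (k + 1) * ((p:ℕ):ℝ) ^ (-1 - b))
        = Real.log p ^ k * ((b - a) * (Real.log p * ((p:ℕ):ℝ) ^ (-1 - b))) := by ring
      _ ≤ Real.log p ^ k * (((p:ℕ):ℝ) ^ (-1 - a) - ((p:ℕ):ℝ) ^ (-1 - b)) := by gcongr
      _ = _ := by ring
  · refine Summable.tsum_le_tsum (fun p => ?_) (ha'.sub hb') ((Dk_summable (k + 1) ha).mul_left _)
    have h := (p_ineq p (a := a) (b := b)).2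
    have h3 : 0 ≤ Real.log p ^ k := pow_nonneg (plog p) k
    calc Real.log p ^ k * ((p:ℕ):ℝ) ^ (-1 - a) - Real.log p ^ k * ((p:ℕ):ℝ) ^ (-1 - b)
        = Real.log p ^ k * (((p:ℕ):ℝ) ^ (-1 - a) - ((p:ℕ):ℝ) ^ (-1 - b)) := by ring
      _ ≤ Real.log p ^ k * ((b - a) * (Real.log p * ((p:ℕ):ℝ) ^ (-1 - a))) := by gcongr
      _ = _ := by ring

/-- the correction between `log Zr` and `Dk 0` -/
def Bc (u : ℝ) : ℝ := ∑' p : Nat.Primes, (Real.log (1 - ((p:ℕ):ℝ) ^ (-1 - u)) + ((p:ℕ):ℝ) ^ (-1 - u))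

lemma Bc_bound (p : Nat.Primes) {u : ℝ} (hu : 0 ≤ u) :
    ‖Real.log (1 - ((p:ℕ):ℝ) ^ (-1 - u)) + ((p:ℕ):ℝ) ^ (-1 - u)‖ ≤ 2 * (1 / ((p:ℕ):ℝ)) ^ 2 := by
  have h := rp p.2 hu
  refine (log_bd' h.1.le h.2.2).trans ?_
  have : (((p:ℕ):ℝ) ^ (-1 - u)) ^ 2 ≤ (1 / ((p:ℕ):ℝ)) ^ 2 := pow_le_pow_left₀ h.1.le h.2.1 2
  linarith

lemma Bc_tendsto {β : Type*} {l : Filter β} {u : β → ℝ} (hu : Tendsto u l (𝓝 0))
    (hu0 : ∀ᶠ b in l, 0 ≤ u b) : Tendsto (fun b => Bc (u b)) l (𝓝 (Bc 0)) := by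
  unfold Bc
  refine tendsto_tsum_of_dominated_convergence (primes_summable.mul_left 2) (fun p => ?_) ?_
  · have h2 := rp p.2 (le_refl (0:ℝ))
    have h3 : ((p:ℕ):ℝ) ^ (-1 - (0:ℝ)) < 1 := lt_of_le_of_lt h2.2.2 (by norm_num)
    exact (Tendsto.log ((rp_tendsto hu p.2).const_sub 1) (sub_pos.mpr h3).ne').add
      (rp_tendsto hu p.2)
  · filter_upwards [hu0] with b hb p
    exact Bc_bound p hb

lemma log_Zr {u : ℝ} (hu : 0 < u) : Real.log (Zr u) = Dk 0 u - Bc u := by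
  have hB : Summable (fun p : Nat.Primes =>
      Real.log (1 - ((p:ℕ):ℝ) ^ (-1 - u)) + ((p:ℕ):ℝ) ^ (-1 - u)) :=
    Summable.of_norm_bounded (primes_summable.mul_left 2) fun p => Bc_bound p hu.le
  have hD := Dk_summable 0 hu
  have h1 := hD.hasSum.sub hB.hasSum
  have h2 : HasSum (fun p : Nat.Primes => Real.log ((1 - ((p:ℕ):ℝ) ^ (-1 - u))⁻¹))
      (Dk 0 u - Bc u) := by
    refine h1.congr_fun fun p => ?_
    rw [Real.log_inv]
    ring
  have h3 : HasProd (fun p : Nat.Primes => (1 - ((p:ℕ):ℝ) ^ (-1 - u))⁻¹)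
      (Real.exp (Dk 0 u - Bc u)) := by
    refine Real.hasProd_of_hasSum_log (fun p => ?_) h2
    have h := rp p.2 hu.le
    have : 0 < 1 - ((p:ℕ):ℝ) ^ (-1 - u) := by linarith [h.2.2]
    positivity
  rw [HasProd.unique (Zr_hasProd hu) h3, Real.log_exp]

lemma squeeze_c {f : ℝ → ℝ} {A : ℝ} (lo hi : ℝ → ℝ → ℝ) (α β : ℝ → ℝ)
    (h1 : ∀ c, 1 < c → ∀ᶠ L : ℝ in atTop, lo c L ≤ f L)
    (h2 : ∀ c, 1 < c → ∀ᶠ L : ℝ in atTop, f L ≤ hi c L)
    (h3 : ∀ c, 1 < c → Tendsto (lo c) atTop (𝓝 (α c)))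
    (h4 : ∀ c, 1 < c → Tendsto (hi c) atTop (𝓝 (β c)))
    (h5 : Tendsto α (𝓝[>] 1) (𝓝 A)) (h6 : Tendsto β (𝓝[>] 1) (𝓝 A)) :
    Tendsto f atTop (𝓝 A) := by
  rw [tendsto_order]
  constructor
  · intro a ha
    have h7 := (h5.eventually_const_lt ha).and (self_mem_nhdsWithin : Set.Ioi (1:ℝ) ∈ 𝓝[>] 1)
    obtain ⟨c, hc1, hc2⟩ := h7.exists
    filter_upwards [h1 c hc2, (h3 c hc2).eventually_const_lt hc1] with L hL hL'
    linarith
  · intro a ha
    have h7 := (h6.eventually_lt_const ha).and (self_mem_nhdsWithin : Set.Ioi (1:ℝ) ∈ 𝓝[>] 1)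
    obtain ⟨c, hc1, hc2⟩ := h7.exists
    filter_upwards [h2 c hc2, (h4 c hc2).eventually_lt_const hc1] with L hL hL'
    linarith

lemma D0_diff {s t : ℝ} (hs : 0 < s) (ht : 0 < t) :
    Tendsto (fun L : ℝ => Dk 0 (s / L) - Dk 0 (t / L)) atTop (𝓝 (Real.log (t / s))) := by
  have hdiv : ∀ r : ℝ, Tendsto (fun L : ℝ => r / L) atTop (𝓝 0) := fun r =>
    tendsto_const_nhds.div_atTop tendsto_id
  have hpos : ∀ r : ℝ, 0 < r → ∀ᶠ L : ℝ in atTop, 0 ≤ r / L := fun r hr => by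
    filter_upwards [eventually_gt_atTop 0] with L hL
    positivity
  have h1 := (Zr_tendsto hs).log (inv_ne_zero hs.ne')
  have h2 := (Zr_tendsto ht).log (inv_ne_zero ht.ne')
  have h3 := (h1.sub h2).add ((Bc_tendsto (hdiv s) (hpos s hs)).sub (Bc_tendsto (hdiv t) (hpos t ht)))
  have e : Real.log s⁻¹ - Real.log t⁻¹ + (Bc 0 - Bc 0) = Real.log (t / s) := by
    rw [Real.log_inv, Real.log_inv, Real.log_div ht.ne' hs.ne']
    ring
  rw [e] at h3
  refine h3.congr' ?_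
  filter_upwards [eventually_gt_atTop 0] with L hL
  have hsL := div_pos hs hL
  have htL := div_pos ht hL
  rw [Real.log_div (Zr_pos hsL).ne' hL.ne', Real.log_div (Zr_pos htL).ne' hL.ne', log_Zr hsL,
    log_Zr htL]
  ring

lemma log_slope : Tendsto (fun c : ℝ => Real.log c / (c - 1)) (𝓝[>] 1) (𝓝 1) := by
  have h := Real.hasDerivAt_log (one_ne_zero)
  rw [hasDerivAt_iff_tendsto_slope] at h
  have h2 := h.mono_left (nhdsWithin_mono 1 (fun x (hx : x ∈ Set.Ioi (1:ℝ)) => ne_of_gt hx))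
  simp only [inv_one] at h2
  refine h2.congr fun c => ?_
  rw [slope_def_field, Real.log_one, sub_zero]

lemma D1_tendsto {s : ℝ} (hs : 0 < s) :
    Tendsto (fun L : ℝ => Dk 1 (s / L) / L) atTop (𝓝 (1 / s)) := by
  refine squeeze_c (fun c L => (Dk 0 (s / L) - Dk 0 ((c * s) / L)) * (1 / ((c - 1) * s)))
    (fun c L => (Dk 0 ((s / c) / L) - Dk 0 (s / L)) * (c / ((c - 1) * s)))
    (fun c => Real.log ((c * s) / s) * (1 / ((c - 1) * s)))
    (fun c => Real.log (s / (s / c)) * (c / ((c - 1) * s)))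
    (fun c hc => ?_) (fun c hc => ?_) (fun c hc => ?_) (fun c hc => ?_) ?_ ?_
  · filter_upwards [eventually_gt_atTop 0] with L hL
    have h := (Dk_ineq 0 (a := s / L) (b := (c * s) / L) (by positivity) (by positivity)).2
    have hc' : 0 < c - 1 := by linarith
    rw [mul_one_div, div_le_div_iff₀ (by positivity) hL]
    have e : (c * s / L - s / L) * Dk (0 + 1) (s / L) * L = Dk 1 (s / L) * ((c - 1) * s) := by
      field_simp
    calc _ ≤ (c * s / L - s / L) * Dk (0 + 1) (s / L) * L := by gcongr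
      _ = _ := e
  · filter_upwards [eventually_gt_atTop 0] with L hL
    have hc0 : 0 < c := by linarith
    have h := (Dk_ineq 0 (a := (s / c) / L) (b := s / L) (by positivity) (by positivity)).1
    have hc' : 0 < c - 1 := by linarith
    rw [← mul_div_assoc, div_le_div_iff₀ hL (by positivity)]
    have e : (s / L - s / c / L) * Dk (0 + 1) (s / L) * (c * L) = Dk 1 (s / L) * ((c - 1) * s) := by
      field_simp
    calc _ = (s / L - s / c / L) * Dk (0 + 1) (s / L) * (c * L) := e.symm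
      _ ≤ (Dk 0 (s / c / L) - Dk 0 (s / L)) * (c * L) := by gcongr
      _ = _ := by ring
  · have hc0 : 0 < c := by linarith
    exact (D0_diff hs (by positivity)).mul_const _
  · have hc0 : 0 < c := by linarith
    exact (D0_diff (by positivity) hs).mul_const _
  · have h := log_slope.mul_const (1 / s)
    rw [one_mul] at h
    refine h.congr' ?_
    filter_upwards [self_mem_nhdsWithin] with c hc
    have hc' : c - 1 ≠ 0 := by
      have : 1 < c := hc
      linarith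
    rw [mul_div_cancel_right₀ _ hs.ne']
    field_simp
  · have h := (log_slope.mul_const (1 / s)).mul (tendsto_id.mono_left nhdsWithin_le_nhds : Tendsto (fun c : ℝ => c) (𝓝[>] 1) (𝓝 1))
    rw [one_mul, mul_one] at h
    refine h.congr' ?_
    filter_upwards [self_mem_nhdsWithin] with c hc
    have hc1 : 1 < c := hc
    have hc' : c - 1 ≠ 0 := by linarith
    have hc0 : c ≠ 0 := by linarith
    have : s / (s / c) = c := by field_simp
    rw [this]
    simp only [id]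
    field_simp

lemma D2_tendsto {s : ℝ} (hs : 0 < s) :
    Tendsto (fun L : ℝ => Dk 2 (s / L) / L ^ 2) atTop (𝓝 (1 / s ^ 2)) := by
  refine squeeze_c
    (fun c L => (Dk 1 (s / L) / L - Dk 1 ((c * s) / L) / L) * (1 / ((c - 1) * s)))
    (fun c L => (Dk 1 ((s / c) / L) / L - Dk 1 (s / L) / L) * (c / ((c - 1) * s)))
    (fun c => (1 / s - 1 / (c * s)) * (1 / ((c - 1) * s)))
    (fun c => (1 / (s / c) - 1 / s) * (c / ((c - 1) * s)))
    (fun c hc => ?_) (fun c hc => ?_) (fun c hc => ?_) (fun c hc => ?_) ?_ ?_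
  · filter_upwards [eventually_gt_atTop 0] with L hL
    have h := (Dk_ineq 1 (a := s / L) (b := (c * s) / L) (by positivity) (by positivity)).2
    have hc' : 0 < c - 1 := by linarith
    rw [← sub_div, mul_one_div, div_div, div_le_div_iff₀ (by positivity) (by positivity)]
    have e : (c * s / L - s / L) * Dk (1 + 1) (s / L) * L ^ 2 =
        Dk 2 (s / L) * (L * ((c - 1) * s)) := by
      field_simp
    calc _ ≤ (c * s / L - s / L) * Dk (1 + 1) (s / L) * L ^ 2 := by gcongr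
      _ = _ := e
  · filter_upwards [eventually_gt_atTop 0] with L hL
    have hc0 : 0 < c := by linarith
    have h := (Dk_ineq 1 (a := (s / c) / L) (b := s / L) (by positivity) (by positivity)).1
    have hc' : 0 < c - 1 := by linarith
    rw [← sub_div, div_mul_div_comm, div_le_div_iff₀ (by positivity) (by positivity)]
    have e : (s / L - s / c / L) * Dk (1 + 1) (s / L) * (c * L ^ 2) =
        Dk 2 (s / L) * (L * ((c - 1) * s)) := by
      field_simp
    calc _ = (s / L - s / c / L) * Dk (1 + 1) (s / L) * (c * L ^ 2) := e.symm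
      _ ≤ (Dk 1 (s / c / L) - Dk 1 (s / L)) * (c * L ^ 2) := by gcongr
      _ = _ := by ring
  · have hc0 : 0 < c := by linarith
    exact ((D1_tendsto hs).sub (D1_tendsto (by positivity))).mul_const _
  · have hc0 : 0 < c := by linarith
    exact ((D1_tendsto (by positivity)).sub (D1_tendsto hs)).mul_const _
  · have h1 : Tendsto (fun c : ℝ => 1 / (c * s ^ 2)) (𝓝[>] 1) (𝓝 (1 / (1 * s ^ 2))) := by
      refine Tendsto.div tendsto_const_nhds ?_ (by positivity)
      exact (tendsto_id.mono_left nhdsWithin_le_nhds : Tendsto (fun c : ℝ => c) (𝓝[>] 1) (𝓝 1)).mul_const _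
    rw [one_mul] at h1
    refine h1.congr' ?_
    filter_upwards [self_mem_nhdsWithin] with c hc
    have hc1 : 1 < c := hc
    have hc' : c - 1 ≠ 0 := by linarith
    have hc0 : c ≠ 0 := by linarith
    field_simp
  · have h1 : Tendsto (fun c : ℝ => c * (1 / s ^ 2)) (𝓝[>] 1) (𝓝 (1 * (1 / s ^ 2))) :=
      (tendsto_id.mono_left nhdsWithin_le_nhds : Tendsto (fun c : ℝ => c) (𝓝[>] 1) (𝓝 1)).mul_const _
    rw [one_mul] at h1
    refine h1.congr' ?_
    filter_upwards [self_mem_nhdsWithin] with c hc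
    have hc1 : 1 < c := hc
    have hc' : c - 1 ≠ 0 := by linarith
    have hc0 : c ≠ 0 := by linarith
    field_simp

/-- part of `F` on integers prime to `p` -/
def Fp (u v : ℝ) (p h : ℕ) : ℝ := if p ∣ h then 0 else F u v h

lemma Fp_tsum {u v : ℝ} (hu : 0 < u) (hv : 0 ≤ v) (p : Nat.Primes) :
    Summable (Fp u v p) ∧ (∑' h, F u v h) = (∑' h, Fp u v p h) * E u v p := by
  classical
  have hs : Summable (Fp u v p) := by
    refine Summable.of_nonneg_of_le (fun h => ?_) (fun h => ?_) (F_summable hu hv)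
    · unfold Fp
      split_ifs
      · exact le_refl _
      · exact F_nonneg u hv h
    · unfold Fp
      split_ifs
      · exact F_nonneg u hv h
      · exact le_refl _
  refine ⟨hs, ?_⟩
  have h1 : HasProd (fun q : Nat.Primes => ∑' a : ℕ, Fp u v p ((q:ℕ) ^ a)) (∑' n, Fp u v p n) := by
    refine EulerProduct.eulerProduct_hasProd ?_ ?_ hs.norm ?_
    · unfold Fp
      rw [if_neg p.2.not_dvd_one, F_one]
    · intro m n h
      unfold Fp
      by_cases hm : (p:ℕ) ∣ m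
      · rw [if_pos (hm.mul_right n), if_pos hm, zero_mul]
      · by_cases hn : (p:ℕ) ∣ n
        · rw [if_pos (hn.mul_left m), if_pos hn, mul_zero]
        · rw [if_neg, if_neg hm, if_neg hn, F_mul u v h]
          rw [p.2.dvd_mul]
          tauto
    · unfold Fp
      rw [if_pos (dvd_zero _)]
  have h2 : ∀ q : Nat.Primes, (∑' a : ℕ, Fp u v p ((q:ℕ) ^ a)) = if q = p then 1 else E u v q := by
    intro q
    split_ifs with hq
    · subst hq
      rw [tsum_eq_single 0]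
      · unfold Fp
        rw [pow_zero, if_neg q.2.not_dvd_one, F_one]
      · intro a ha
        unfold Fp
        rw [if_pos (dvd_pow_self _ ha)]
    · rw [← (E_hasSum q.2 hu.le v).tsum_eq]
      refine tsum_congr fun a => ?_
      unfold Fp
      rw [if_neg]
      intro hd
      have h3 := (Nat.prime_dvd_prime_iff_eq p.2 q.2).mp (p.2.dvd_of_dvd_pow hd)
      exact hq (Nat.Primes.coe_nat_injective h3.symm)
  simp only [h2] at h1
  have h3 : HasProd (fun q : Nat.Primes => if q = p then E u v q else 1) (E u v p) := by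
    have h4 := hasProd_single (f := fun q : Nat.Primes => if q = p then E u v q else 1) p
      (fun q hq => if_neg hq)
    simpa using h4
  refine HasProd.unique (E_hasProd hu hv) ((h1.mul h3).congr_fun fun q => ?_)
  split_ifs <;> ring

lemma Qf_hasSum {h : ℕ} (hh : h ≠ 0) :
    HasSum (fun p : Nat.Primes => if (p:ℕ) ∣ h then Real.log p ^ 2 else 0) (Qf h) := by
  classical
  have h4 : HasSum (fun p : Nat.Primes => if (p:ℕ) ∣ h then Real.log ((p:ℕ):ℝ) ^ 2 else 0)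
      (∑ p ∈ (h.primeFactors.subtype Nat.Prime : Finset Nat.Primes),
        if (p:ℕ) ∣ h then Real.log ((p:ℕ):ℝ) ^ 2 else 0) := by
    refine hasSum_sum_of_ne_finset_zero fun p hp => ?_
    rw [if_neg]
    intro hd
    exact hp ((Finset.mem_subtype (p := Nat.Prime) (s := h.primeFactors) (a := p)).mpr
      (Nat.mem_primeFactors.mpr ⟨p.2, hd, hh⟩))
  convert h4 using 1
  unfold Qf
  rw [Finset.sum_subtype_eq_sum_filter (s := h.primeFactors) (p := Nat.Prime)
    (f := fun p : ℕ => if p ∣ h then Real.log (p:ℝ) ^ 2 else 0)]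
  rw [Finset.filter_true_of_mem (fun p hp => Nat.prime_of_mem_primeFactors hp)]
  refine sum_congr rfl fun p hp => ?_
  rw [if_pos (Nat.dvd_of_mem_primeFactors hp)]

lemma Qf_nonneg (h : ℕ) : 0 ≤ Qf h := sum_nonneg fun p _ => by positivity

def C5 : ℝ := (15 + 2 * Cm) ^ 2 + (11 + 2 * Cm)

lemma C5_nonneg : 0 ≤ C5 := by
  have := Cm_nonneg
  unfold C5
  positivity

lemma frac_bound (p : Nat.Primes) {u v : ℝ} (hu : 0 ≤ u) (hv : 0 ≤ v) :
    |1 - (E u v p)⁻¹ - 4 * ((p:ℕ):ℝ) ^ (-1 - u)| ≤ C5 * (1 / ((p:ℕ):ℝ)) ^ 2 := by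
  obtain ⟨h1, h2⟩ := E_expand p.2 hu hv
  have h3 := E_upper p.2 hu hv
  set t := E u v p - 1 with ht
  have hE : E u v p = 1 + t := by rw [ht]; ring
  have ht0 : 0 ≤ t := by rw [ht]; linarith
  rw [hE]
  have e : 1 - (1 + t)⁻¹ = t - t ^ 2 / (1 + t) := by
    field_simp
    ring
  rw [e]
  have h4 : t ^ 2 / (1 + t) ≤ t ^ 2 := div_le_self (by positivity) (by linarith)
  have h5 : 0 ≤ t ^ 2 / (1 + t) := by positivity
  have h6 : t ^ 2 ≤ (15 + 2 * Cm) ^ 2 * (1 / ((p:ℕ):ℝ)) ^ 2 := by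
    rw [← mul_pow]
    exact pow_le_pow_left₀ ht0 h3 2
  rw [abs_le] at h2 ⊢
  unfold C5
  constructor
  · nlinarith [h2.1]
  · nlinarith [h2.2, sq_nonneg ((15 + 2 * Cm) * (1 / ((p:ℕ):ℝ)))]

lemma lsq_summable : Summable (fun p : Nat.Primes => Real.log p ^ 2 * (1 / ((p:ℕ):ℝ)) ^ 2) := by
  refine (Dk_summable 2 one_pos).congr fun p => ?_
  congr 1
  rw [show (-1 - 1 : ℝ) = -((2:ℕ):ℝ) by norm_num, Real.rpow_neg (by positivity), Real.rpow_natCast,
    one_div, inv_pow]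

/-- the prime sum -/
def Sp (u v : ℝ) : ℝ := ∑' p : Nat.Primes, Real.log p ^ 2 * (1 - (E u v p)⁻¹)

lemma Sp_summable {u v : ℝ} (hu : 0 < u) (hv : 0 ≤ v) :
    Summable (fun p : Nat.Primes => Real.log p ^ 2 * (1 - (E u v p)⁻¹)) := by
  refine Summable.of_nonneg_of_le (fun p => ?_) (fun p => ?_)
    (((Dk_summable 2 hu).mul_left 4).add (lsq_summable.mul_left C5))
  · have h1 := (E_expand p.2 hu.le hv).1
    have : (E u v p)⁻¹ ≤ 1 := inv_le_one_of_one_le₀ h1
    have : 0 ≤ 1 - (E u v p)⁻¹ := by linarith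
    positivity
  · have h := frac_bound p hu.le hv
    rw [abs_le] at h
    have h3 : 0 ≤ Real.log p ^ 2 := by positivity
    calc _ ≤ Real.log p ^ 2 * (4 * ((p:ℕ):ℝ) ^ (-1 - u) + C5 * (1 / ((p:ℕ):ℝ)) ^ 2) := by
          gcongr
          linarith [h.2]
      _ = _ := by ring

lemma Sp_close {u v : ℝ} (hu : 0 < u) (hv : 0 ≤ v) :
    |Sp u v - 4 * Dk 2 u| ≤ C5 * ∑' p : Nat.Primes, Real.log p ^ 2 * (1 / ((p:ℕ):ℝ)) ^ 2 := by
  unfold Sp Dk
  have h1 := Sp_summable hu hv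
  have h2 := (Dk_summable 2 hu).mul_left 4
  rw [← tsum_mul_left, ← h1.tsum_sub h2, ← tsum_mul_left, ← Real.norm_eq_abs]
  refine tsum_of_norm_bounded (lsq_summable.mul_left C5).hasSum fun p => ?_
  have h := frac_bound p hu.le hv
  have h3 : 0 ≤ Real.log p ^ 2 := by positivity
  rw [show Real.log p ^ 2 * (1 - (E u v p)⁻¹) - 4 * (Real.log p ^ 2 * ((p:ℕ):ℝ) ^ (-1 - u)) =
    Real.log p ^ 2 * (1 - (E u v p)⁻¹ - 4 * ((p:ℕ):ℝ) ^ (-1 - u)) by ring, Real.norm_eq_abs, abs_mul,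
    abs_of_nonneg h3]
  calc _ ≤ Real.log p ^ 2 * (C5 * (1 / ((p:ℕ):ℝ)) ^ 2) := by gcongr
    _ = _ := by ring

lemma QF_hasSum {u v : ℝ} (hu : 0 < u) (hv : 0 ≤ v) :
    HasSum (fun h => Qf h * F u v h) ((∑' h, F u v h) * Sp u v) := by
  classical
  set S := ∑' h, F u v h with hS
  have hS0 : 0 ≤ S := tsum_nonneg fun h => F_nonneg u hv h
  let G : Nat.Primes × ℕ → ℝ := fun x => if (x.1:ℕ) ∣ x.2 then Real.log x.1 ^ 2 * F u v x.2 else 0
  have hG0 : 0 ≤ G := by
    intro x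
    show 0 ≤ if (x.1:ℕ) ∣ x.2 then Real.log x.1 ^ 2 * F u v x.2 else 0
    have := F_nonneg u hv x.2
    split_ifs
    · positivity
    · exact le_refl _
  have hrow : ∀ p : Nat.Primes, HasSum (fun h => G (p, h)) (Real.log p ^ 2 * (S * (1 - (E u v p)⁻¹))) := by
    intro p
    obtain ⟨h1, h2⟩ := Fp_tsum hu hv p
    have h3 := (F_summable hu hv).hasSum.sub h1.hasSum
    have h4 := h3.mul_left (Real.log p ^ 2)
    have hE := (E_expand p.2 hu.le hv).1
    have e : S * (1 - (E u v p)⁻¹) = ∑' h, F u v h - ∑' h, Fp u v p h := by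
      rw [← hS] at h2 ⊢
      have hE0 : E u v p ≠ 0 := by linarith
      rw [mul_sub, mul_one]
      congr 1
      rw [h2, mul_assoc, mul_inv_cancel₀ hE0, mul_one]
    rw [e]
    refine h4.congr_fun fun h => ?_
    show (if (p:ℕ) ∣ h then Real.log p ^ 2 * F u v h else 0) = _
    unfold Fp
    split_ifs <;> ring
  have hsG : Summable G := by
    rw [summable_prod_of_nonneg hG0]
    refine ⟨fun p => (hrow p).summable, ?_⟩
    simp only [fun p => (hrow p).tsum_eq]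
    refine ((Sp_summable hu hv).mul_left S).congr fun p => ?_
    ring
  have hsG' : Summable (fun x : ℕ × Nat.Primes => G (x.2, x.1)) :=
    hsG.comp_injective (Prod.swap_injective)
  have hcol : ∀ h : ℕ, HasSum (fun p : Nat.Primes => G (p, h)) (Qf h * F u v h) := by
    intro h
    rcases Nat.eq_zero_or_pos h with h0 | h0
    · subst h0
      rw [F_zero hu.le, mul_zero]
      have : (fun p : Nat.Primes => G (p, 0)) = fun _ => 0 := by
        funext p
        show (if (p:ℕ) ∣ 0 then Real.log p ^ 2 * F u v 0 else 0) = 0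
        rw [F_zero hu.le]
        simp
      rw [this]
      exact hasSum_zero
    · have h1 := (Qf_hasSum h0.ne').mul_right (F u v h)
      refine h1.congr_fun fun p => ?_
      show (if (p:ℕ) ∣ h then Real.log p ^ 2 * F u v h else 0) = _
      split_ifs <;> ring
  have h5 : Summable (fun h => Qf h * F u v h) := by
    have h6 := (summable_prod_of_nonneg (f := fun x : ℕ × Nat.Primes => G (x.2, x.1))
      (fun x => hG0 _)).mp hsG'
    refine h6.2.congr fun h => ?_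
    exact (hcol h).tsum_eq
  have h7 : ∑' h, Qf h * F u v h = S * Sp u v := by
    have h8 := hsG'.tsum_prod
    have h9 := hsG.tsum_prod
    have h10 : ∑' x : ℕ × Nat.Primes, G (x.2, x.1) = ∑' x, G x :=
      (Equiv.prodComm ℕ Nat.Primes).tsum_eq G
    rw [h10, h9] at h8
    simp only [fun h => (hcol h).tsum_eq, fun p => (hrow p).tsum_eq] at h8
    rw [← h8]
    unfold Sp
    rw [← tsum_mul_left]
    refine tsum_congr fun p => ?_
    ring
  rw [← h7]
  exact h5.hasSum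

end

end Pool.Agent.H345.SMLoc

namespace Pool.Agent.H345.SMT11

open Finset Filter Topology
open Pool.Agent.H306R2 Pool.Agent.H306R2.SM Pool.Agent.H345.SMLoc

/-- T11a -/
theorem w1Q_KH : KH 2 w1Q := by
  refine ⟨fun b => ?_, fun b hb => ?_, fun s hs => ?_⟩
  · exact mul_nonneg (Pool.Agent.H345.SMT10.w1_KH.hw b) (Qf_nonneg _)
  · unfold w1Q
    rw [Pool.Agent.H345.SMT10.w1_KH.hw0 b hb, zero_mul]
  · exact (double_hasSum Qf Qf_nonneg s hs (QF_hasSum (hs 0) (hs 1).le).summable).summable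

/-- T11b -/
theorem w1Q_lim (s : Fin 2 → ℝ) (hs : ∀ i, 0 < s i) :
    Tendsto (fun L : ℝ => (∑' b : Fin 2 → ℕ, w1Q b * ∏ i, (b i : ℝ) ^ (-(s i / L))) / L ^ (7 : ℝ))
      atTop (𝓝 (4 * aF 3 * ∏ i, (s i) ^ (-((![6, 1] : Fin 2 → ℝ) i)))) := by
  have hdiv : ∀ i, Tendsto (fun L : ℝ => s i / L) atTop (𝓝 0) := fun i =>
    tendsto_const_nhds.div_atTop tendsto_id
  have hpos : ∀ i, ∀ᶠ L : ℝ in atTop, 0 ≤ s i / L := fun i => by
    filter_upwards [eventually_gt_atTop 0] with L hL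
    have := hs i
    positivity
  have h1 := (up4_tsum_tendsto (hdiv 0) (hdiv 1) (hpos 0) (hpos 1)).rexp
  rw [← aF_three] at h1
  have h2 := (h1.mul ((Zr_tendsto (hs 0)).pow 4)).mul (Zr_tendsto (hs 1))
  have h3 : Tendsto (fun L : ℝ => (Sp (s 0 / L) (s 1 / L) - 4 * Dk 2 (s 0 / L)) / L ^ 2) atTop
      (𝓝 0) := by
    have hK : Tendsto (fun L : ℝ => (C5 * ∑' p : Nat.Primes,
        Real.log p ^ 2 * (1 / ((p:ℕ):ℝ)) ^ 2) / L ^ 2) atTop (𝓝 0) :=
      tendsto_const_nhds.div_atTop (tendsto_pow_atTop two_ne_zero)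
    refine squeeze_zero_norm' ?_ hK
    filter_upwards [eventually_gt_atTop 0] with L hL
    have hs' : ∀ i, 0 < s i / L := fun i => div_pos (hs i) hL
    rw [norm_div, Real.norm_eq_abs, Real.norm_of_nonneg (by positivity : 0 ≤ L ^ 2)]
    gcongr
    exact Sp_close (hs' 0) (hs' 1).le
  have h4 := h3.add ((D2_tendsto (hs 0)).const_mul 4)
  have h5 := h2.mul h4
  have e : aF 3 * (s 0)⁻¹ ^ 4 * (s 1)⁻¹ * (0 + 4 * (1 / s 0 ^ 2)) =
      4 * aF 3 * ∏ i, (s i) ^ (-((![6, 1] : Fin 2 → ℝ) i)) := by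
    rw [Fin.prod_univ_two]
    simp only [Matrix.cons_val_zero, Matrix.cons_val_one]
    have := hs 0
    rw [Real.rpow_neg_one, Real.rpow_neg (hs 0).le, show (6:ℝ) = ((6:ℕ):ℝ) by norm_num,
      Real.rpow_natCast]
    field_simp
    ring
  rw [e] at h5
  refine h5.congr' ?_
  filter_upwards [eventually_gt_atTop 0] with L hL
  have hs' : ∀ i, 0 < s i / L := fun i => div_pos (hs i) hL
  have h6 := double_hasSum Qf Qf_nonneg (fun i => s i / L) hs' (QF_hasSum (hs' 0) (hs' 1).le).summable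
  have h7 : (fun b : Fin 2 → ℕ => w1Q b * ∏ i, (b i : ℝ) ^ (-(s i / L))) =
      fun b : Fin 2 → ℕ => w1 b * Qf (b 0) * ∏ i, (b i : ℝ) ^ (-(s i / L)) := rfl
  rw [h7, h6.tsum_eq, (QF_hasSum (hs' 0) (hs' 1).le).tsum_eq, F_tsum (hs' 0) (hs' 1).le]
  rw [show (7:ℝ) = ((7:ℕ):ℝ) by norm_num, Real.rpow_natCast]
  field_simp
  ring

end Pool.Agent.H345.SMT11
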