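import Mathlib

set_option autoImplicit false

open Complex Filter Topology Set MeasureTheory

namespace H345

lemma exp_abs_int0 (b : ℝ) (hb : 0 < b) :
    Integrable (fun v : ℝ => Real.exp (-b * |v|)) ∧ ∫ v : ℝ, Real.exp (-b * |v|) = 2 / b := by
  have hval : ∫ v : ℝ, Real.exp (-b * |v|) = 2 / b := by
    rw [integral_comp_abs (f := fun x => Real.exp (-b * x)), integral_exp_mul_Ioi (by linarith) 0]
    simp
    field_simp
  refine ⟨?_, hval⟩
  by_contra h
  rw [integral_undef h] at hval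
  have : (0 : ℝ) < 2 / b := by positivity
  linarith

lemma exp_abs_int (b : ℝ) (hb : 0 < b) (t : ℝ) :
    Integrable (fun v : ℝ => Real.exp (-b * |v - t|)) ∧
      ∫ v : ℝ, Real.exp (-b * |v - t|) = 2 / b := by
  obtain ⟨h1, h2⟩ := exp_abs_int0 b hb
  refine ⟨h1.comp_sub_right t, ?_⟩
  rw [integral_sub_right_eq_self (fun v : ℝ => Real.exp (-b * |v|)) t, h2]

lemma half_eq (t : ℝ) : (fun v : ℝ => Real.exp (-|v - t| / 2)) = fun v => Real.exp (-(1 / 2) * |v - t|) := by
  funext v; congr 1; ring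

lemma exp_half_int (t : ℝ) : Integrable (fun v : ℝ => Real.exp (-|v - t| / 2)) ∧
    ∫ v : ℝ, Real.exp (-|v - t| / 2) = 4 := by
  rw [half_eq]
  obtain ⟨h1, h2⟩ := exp_abs_int (1 / 2) (by norm_num) t
  refine ⟨h1, ?_⟩
  rw [h2]; norm_num

lemma tail_exp {f : ℝ → ℂ} (hf : AEStronglyMeasurable f volume) {K t W U1 U2 : ℝ}
    (hK : 0 ≤ K) (hb : ∀ v, ‖f v‖ ≤ K * Real.exp (-|v - t| / 2)) (hW : 0 ≤ W)
    (h1 : U1 ≤ t - W) (h2 : t + W ≤ U2) :
    ‖(∫ v : ℝ, f v) - ∫ v in U1..U2, f v‖ ≤ 8 * K * Real.exp (-W / 4) := by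
  have hU : U1 ≤ U2 := by linarith
  have hg2 : Integrable (fun v : ℝ => K * Real.exp (-|v - t| / 2)) :=
    (exp_half_int t).1.const_mul K
  have hfi : Integrable f := hg2.mono' hf (Eventually.of_forall hb)
  rw [intervalIntegral.integral_of_le hU]
  have e1 : (∫ v : ℝ, f v) - ∫ v in Ioc U1 U2, f v = ∫ v in (Ioc U1 U2)ᶜ, f v := by
    rw [← integral_add_compl measurableSet_Ioc hfi]
    ring
  rw [e1]
  have hg4 : Integrable (fun v : ℝ => K * Real.exp (-W / 4) * Real.exp (-(1 / 4) * |v - t|)) :=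
    (exp_abs_int (1 / 4) (by norm_num) t).1.const_mul _
  calc ‖∫ v in (Ioc U1 U2)ᶜ, f v‖ ≤ ∫ v in (Ioc U1 U2)ᶜ, ‖f v‖ := norm_integral_le_integral_norm _
    _ ≤ ∫ v in (Ioc U1 U2)ᶜ, K * Real.exp (-W / 4) * Real.exp (-(1 / 4) * |v - t|) := by
        apply setIntegral_mono_on hfi.norm.integrableOn hg4.integrableOn measurableSet_Ioc.compl
        intro v hv
        refine (hb v).trans ?_
        rw [mul_assoc, ← Real.exp_add]
        apply mul_le_mul_of_nonneg_left _ hK
        apply Real.exp_le_exp.2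
        have hvw : W ≤ |v - t| := by
          rw [mem_compl_iff, mem_Ioc, not_and_or, not_lt, not_le] at hv
          rcases hv with hv | hv
          · rw [le_abs]; right; linarith
          · rw [le_abs]; left; linarith
        linarith
    _ ≤ ∫ v : ℝ, K * Real.exp (-W / 4) * Real.exp (-(1 / 4) * |v - t|) := by
        apply setIntegral_le_integral hg4
        exact Eventually.of_forall fun v => by positivity
    _ = 8 * K * Real.exp (-W / 4) := by
        rw [integral_const_mul, (exp_abs_int (1 / 4) (by norm_num) t).2]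
        ring

lemma int_exp {f : ℝ → ℂ} {K t U1 U2 : ℝ} (hU : U1 ≤ U2)
    (hK : 0 ≤ K) (hb : ∀ v ∈ Ioc U1 U2, ‖f v‖ ≤ K * Real.exp (-|v - t| / 2)) :
    ‖∫ v in U1..U2, f v‖ ≤ K * 4 := by
  have hg2 : Integrable (fun v : ℝ => K * Real.exp (-|v - t| / 2)) :=
    (exp_half_int t).1.const_mul K
  calc ‖∫ v in U1..U2, f v‖ ≤ ∫ v in U1..U2, K * Real.exp (-|v - t| / 2) := by
        apply intervalIntegral.norm_integral_le_of_norm_le hU
        · exact Eventually.of_forall fun v hv => hb v hv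
        · exact hg2.intervalIntegrable
    _ = ∫ v in Ioc U1 U2, K * Real.exp (-|v - t| / 2) := by
        rw [intervalIntegral.integral_of_le hU]
    _ ≤ ∫ v : ℝ, K * Real.exp (-|v - t| / 2) := by
        apply setIntegral_le_integral hg2
        exact Eventually.of_forall fun v => by positivity
    _ = K * 4 := by
        rw [integral_const_mul, (exp_half_int t).2]

end H345
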