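import Pool.Agent.H345R2.Defs
import Pool.Agent.Helper242.KK.Gam1

open Complex Filter Topology Set MeasureTheory

namespace H345

/-- exponential decay of Gamma in vertical strips, half-plane version -/
lemma Gamma_decay {z : ℂ} (hz : 0 < z.re) :
    ‖Gamma z‖ ≤ Real.exp (-|z.im| / 2) * (Real.Gamma z.re / (Real.cos (1 / 2)) ^ z.re) := by
  have h := Pool.Agent.Helper242.KK.norm_Gamma_le_of_angle (σ := z.re) (v := z.im) (θ := 1 / 2)
    hz (by norm_num) (by linarith [Real.pi_gt_three])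
  rw [Complex.re_add_im] at h
  refine h.trans (le_of_eq ?_)
  rw [mul_div_assoc]
  congr 2
  ring

lemma Gamma_strip (a b : ℝ) (ha : 0 < a) : ∃ C : ℝ, 0 < C ∧ ∀ z : ℂ, a ≤ z.re → z.re ≤ b →
    ‖Gamma z‖ ≤ C * Real.exp (-|z.im| / 2) := by
  have hc : 0 < Real.cos (1 / 2) := Real.cos_pos_of_mem_Ioo
    ⟨by linarith [Real.pi_gt_three], by linarith [Real.pi_gt_three]⟩
  have hcont : ContinuousOn (fun x : ℝ => Real.Gamma x / (Real.cos (1 / 2)) ^ x) (Set.Icc a b) := by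
    apply ContinuousOn.div
    · intro x hx
      have hx0 : 0 < x := lt_of_lt_of_le ha hx.1
      apply (Real.differentiableAt_Gamma _).continuousAt.continuousWithinAt
      intro m hm
      have : (0:ℝ) ≤ m := Nat.cast_nonneg m
      linarith
    · exact ContinuousOn.rpow continuousOn_const continuousOn_id (fun x hx => Or.inl hc.ne')
    · intro x hx
      exact (Real.rpow_pos_of_pos hc x).ne'
  obtain ⟨C, hC⟩ := isCompact_Icc.exists_bound_of_continuousOn hcont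
  refine ⟨max C 1, by positivity, fun z h1 h2 => ?_⟩
  have hz : 0 < z.re := lt_of_lt_of_le ha h1
  refine (Gamma_decay hz).trans ?_
  rw [mul_comm]
  apply mul_le_mul_of_nonneg_right _ (Real.exp_pos _).le
  exact (le_abs_self _).trans ((hC z.re ⟨h1, h2⟩).trans (le_max_left _ _))

theorem WW_bound (A : ℕ) (hA : 4 ≤ A) : ∃ C : ℝ, 0 < C ∧ ∀ w : ℂ, |w.re| ≤ 2 →
    ‖WW A w‖ ≤ C * Real.exp (-|w.im| / 2) := by
  have hA' : (4:ℝ) ≤ A := by exact_mod_cast hA
  obtain ⟨C, hC0, hC⟩ := Gamma_strip ((A:ℝ) - 2) (A + 2) (by linarith)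
  refine ⟨Real.exp A * (A:ℝ) ^ (2:ℝ) * C, by positivity, fun w hw => ?_⟩
  rw [abs_le] at hw
  have h1 := hC ((A:ℂ) - w) (by simp; linarith) (by simp; linarith)
  have him : |((A:ℂ) - w).im| = |w.im| := by simp
  rw [him] at h1
  have h2 : ‖((A:ℂ)) ^ (w - A)‖ ≤ (A:ℝ) ^ (2:ℝ) := by
    rw [Complex.norm_natCast_cpow_of_pos (by omega)]
    apply Real.rpow_le_rpow_of_exponent_le (by linarith)
    simp; linarith
  rw [WW, norm_mul, norm_mul, Complex.norm_real, Real.norm_eq_abs, Real.abs_exp]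
  calc Real.exp A * ‖((A:ℂ)) ^ (w - A)‖ * ‖Gamma ((A:ℂ) - w)‖
      ≤ Real.exp A * (A:ℝ) ^ (2:ℝ) * (C * Real.exp (-|w.im| / 2)) := by gcongr
    _ = _ := by ring

theorem WW_diff (A : ℕ) (w : ℂ) (hw : w.re < A) : DifferentiableAt ℂ (WW A) w := by
  unfold WW
  apply DifferentiableAt.mul
  · apply DifferentiableAt.const_mul
    apply DifferentiableAt.const_cpow
    · fun_prop
    · right
      intro h
      have := congrArg Complex.re h
      simp at this
      linarith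
  · have h1 : DifferentiableAt ℂ Gamma ((A:ℂ) - w) := by
      apply Complex.differentiableAt_Gamma
      intro m hm
      have := congrArg Complex.re hm
      simp at this
      have : (0:ℝ) ≤ m := Nat.cast_nonneg m
      linarith
    exact h1.comp w (by fun_prop)

theorem WW_conj (A : ℕ) (τ : ℝ) :
    (starRingEnd ℂ) (WW A ((τ : ℂ) * I)) = WW A (-((τ : ℂ) * I)) := by
  unfold WW
  rw [map_mul, map_mul, Complex.conj_ofReal, ← Complex.Gamma_conj]
  have e1 : (starRingEnd ℂ) ((A:ℂ) - (τ : ℂ) * I) = (A:ℂ) - -((τ : ℂ) * I) := by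
    simp [Complex.conj_ofReal]
  have e2 : (starRingEnd ℂ) ((A:ℂ) ^ ((τ : ℂ) * I - A)) = (A:ℂ) ^ (-((τ : ℂ) * I) - A) := by
    have h := Complex.cpow_conj (A:ℂ) ((τ : ℂ) * I - A) (by
      rw [Complex.natCast_arg]; exact Real.pi_pos.ne)
    rw [Complex.conj_natCast] at h
    rw [← h]
    congr 1
    simp [Complex.conj_ofReal]
  rw [e1, e2]

theorem WW_low (A : ℕ) (hA : 4 ≤ A) : ∃ c τ0 : ℝ, 0 < c ∧ 0 < τ0 ∧ τ0 ≤ 1 ∧
    ∀ τ : ℝ, |τ| ≤ τ0 → c ≤ ‖WW A ((τ : ℂ) * I)‖ := by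
  have hA' : (4:ℝ) ≤ A := by exact_mod_cast hA
  have hcont : ContinuousAt (fun τ : ℝ => ‖WW A ((τ : ℂ) * I)‖) 0 := by
    have h1 : ContinuousAt (WW A) (((0:ℝ):ℂ) * I) :=
      (WW_diff A _ (by simp; linarith)).continuousAt
    have h2 : ContinuousAt (fun τ : ℝ => (τ:ℂ) * I) 0 := by fun_prop
    exact (ContinuousAt.comp (f := fun τ : ℝ => (τ:ℂ) * I) h1 h2).norm
  have h0 : 0 < ‖WW A (((0:ℝ) : ℂ) * I)‖ := by
    rw [norm_pos_iff]
    simp only [Complex.ofReal_zero, zero_mul, WW]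
    apply mul_ne_zero
    · apply mul_ne_zero
      · exact_mod_cast (Real.exp_pos _).ne'
      · rw [Complex.cpow_ne_zero_iff]
        left
        have : A ≠ 0 := by omega
        exact_mod_cast this
    · apply Complex.Gamma_ne_zero
      intro m hm
      have := congrArg Complex.re hm
      simp at this
      have : (0:ℝ) ≤ m := Nat.cast_nonneg m
      linarith
  have h1 : ∀ᶠ τ : ℝ in 𝓝 0, ‖WW A (((0:ℝ) : ℂ) * I)‖ / 2 < ‖WW A ((τ : ℂ) * I)‖ :=
    hcont.eventually_const_lt (by simpa using h0)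
  obtain ⟨ε, hε, h⟩ := Metric.eventually_nhds_iff.1 h1
  refine ⟨‖WW A (((0:ℝ) : ℂ) * I)‖ / 2, min (ε / 2) 1, by positivity, by positivity,
    min_le_right _ _, fun τ hτ => ?_⟩
  apply (h _).le
  rw [Real.dist_eq, sub_zero]
  have := min_le_left (ε / 2) 1
  linarith

lemma mellin_exp (s : ℂ) (hs : 0 < s.re) :
    mellin (fun x : ℝ => ((Real.exp (-x) : ℝ) : ℂ)) s = Gamma s := by
  rw [Complex.Gamma_eq_integral hs, Complex.GammaIntegral_eq_mellin]

lemma integrable_exp_abs : Integrable (fun y : ℝ => Real.exp (-|y| / 2)) := by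
  have hpos : IntegrableOn (fun y : ℝ => Real.exp (-|y| / 2)) (Ioi 0) := by
    refine (exp_neg_integrableOn_Ioi 0 (show (0:ℝ) < 1/2 by norm_num)).congr_fun ?_
      measurableSet_Ioi
    intro y hy
    simp only
    rw [abs_of_pos hy]
    congr 1
    ring
  have hneg : IntegrableOn (fun y : ℝ => Real.exp (-|y| / 2)) (Iic 0) := by
    rw [← Measure.map_neg_eq_self (volume : Measure ℝ)]
    let m : MeasurableEmbedding fun x : ℝ => -x := (Homeomorph.neg ℝ).measurableEmbedding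
    rw [m.integrableOn_map_iff]
    simp_rw [Function.comp_def, abs_neg, neg_preimage, neg_Iic, neg_zero]
    exact Iff.mpr integrableOn_Ici_iff_integrableOn_Ioi hpos
  rw [← integrableOn_univ, ← Iic_union_Ioi]
  exact hneg.union hpos

lemma Gamma_vert_int (c : ℝ) (hc : 0 < c) :
    Integrable (fun y : ℝ => Gamma ((c : ℂ) + y * I)) := by
  obtain ⟨C, hC0, hC⟩ := Gamma_strip c c hc
  have hg : Integrable (fun y : ℝ => C * Real.exp (-|y| / 2)) := integrable_exp_abs.const_mul C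
  refine hg.mono' ?_ (Eventually.of_forall fun y => ?_)
  · apply Continuous.aestronglyMeasurable
    rw [continuous_iff_continuousAt]
    intro y
    have h1 : ContinuousAt Gamma ((c : ℂ) + y * I) := by
      apply (Complex.differentiableAt_Gamma _ _).continuousAt
      intro m hm
      have := congrArg Complex.re hm
      simp at this
      have : (0:ℝ) ≤ m := Nat.cast_nonneg m
      linarith
    exact ContinuousAt.comp (f := fun y : ℝ => (c : ℂ) + y * I) h1 (by fun_prop)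
  · have := hC ((c : ℂ) + y * I) (by simp) (by simp)
    simpa using this

lemma inv_mellin (c : ℝ) (hc : 0 < c) (u : ℝ) (hu : 0 < u) :
    Integrable (fun y : ℝ => (u : ℂ) ^ (-((c : ℂ) + y * I)) * Gamma ((c : ℂ) + y * I)) ∧
    ∫ y : ℝ, (u : ℂ) ^ (-((c : ℂ) + y * I)) * Gamma ((c : ℂ) + y * I) =
      2 * Real.pi * (Real.exp (-u) : ℝ) := by
  have hu' : (u : ℂ) ≠ 0 := by exact_mod_cast hu.ne'
  constructor
  · apply (Gamma_vert_int c hc).bdd_mul (c := u ^ (-c))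
    · apply Continuous.aestronglyMeasurable
      apply Continuous.const_cpow (by fun_prop)
      left; exact hu'
    · refine Eventually.of_forall fun y => ?_
      rw [Complex.norm_cpow_eq_rpow_re_of_pos hu]
      simp
  · have hre : ∀ y : ℝ, 0 < ((c : ℂ) + y * I).re := fun y => by simpa using hc
    have h := mellinInv_mellin_eq c (fun x : ℝ => ((Real.exp (-x) : ℝ) : ℂ)) hu
      (by
        have := Complex.GammaIntegral_convergent (s := (c:ℂ)) (by simpa using hc)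
        rw [MellinConvergent]
        refine this.congr_fun (fun x _ => ?_) measurableSet_Ioi
        simp only [smul_eq_mul]
        rw [mul_comm])
      (by
        rw [VerticalIntegrable]
        refine (Gamma_vert_int c hc).congr (Eventually.of_forall fun y => ?_)
        simp only
        rw [mellin_exp _ (hre y)])
      (by fun_prop)
    have e : ∀ y : ℝ, (u : ℂ) ^ (-((c : ℂ) + y * I)) •
        mellin (fun x : ℝ => ((Real.exp (-x) : ℝ) : ℂ)) ((c : ℂ) + y * I) =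
        (u : ℂ) ^ (-((c : ℂ) + y * I)) * Gamma ((c : ℂ) + y * I) := by
      intro y
      rw [mellin_exp _ (hre y), smul_eq_mul]
    simp only [mellinInv, e] at h
    rw [← h]
    generalize (∫ y : ℝ, (u : ℂ) ^ (-((c : ℂ) + y * I)) * Gamma ((c : ℂ) + y * I)) = J
    rw [Complex.real_smul]
    push_cast
    have hpi : (Real.pi : ℂ) ≠ 0 := by exact_mod_cast Real.pi_ne_zero
    field_simp

lemma WW_inv (A : ℕ) (hA : 4 ≤ A) (x : ℝ) (hx : 0 < x) (σ : ℝ) (hσ : |σ| ≤ 2) :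
    Integrable (fun τ : ℝ => WW A ((σ : ℂ) + (τ : ℂ) * I) * (x : ℂ) ^ ((σ : ℂ) + (τ : ℂ) * I)) ∧
    ∫ τ : ℝ, WW A ((σ : ℂ) + (τ : ℂ) * I) * (x : ℂ) ^ ((σ : ℂ) + (τ : ℂ) * I) =
      2 * Real.pi * (kap A x : ℂ) := by
  have hA' : (4:ℝ) ≤ A := by exact_mod_cast hA
  have hA0 : (0:ℝ) < A := by linarith
  rw [abs_le] at hσ
  have hc : 0 < (A:ℝ) - σ := by linarith
  obtain ⟨h1, h2⟩ := inv_mellin ((A:ℝ) - σ) hc (A * x) (by positivity)
  set G : ℝ → ℂ := fun y : ℝ => ((A * x : ℝ) : ℂ) ^ (-((((A:ℝ) - σ : ℝ) : ℂ) + y * I)) *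
    Gamma ((((A:ℝ) - σ : ℝ) : ℂ) + y * I) with hG
  have hx' : (x : ℂ) ≠ 0 := by exact_mod_cast hx.ne'
  have hAc : (A : ℂ) ≠ 0 := by exact_mod_cast hA0.ne'
  have e : ∀ τ : ℝ, WW A ((σ : ℂ) + (τ : ℂ) * I) * (x : ℂ) ^ ((σ : ℂ) + (τ : ℂ) * I) =
      ((Real.exp A * x ^ A : ℝ) : ℂ) * G (-τ) := by
    intro τ
    have e1 : (((A:ℝ) - σ : ℝ) : ℂ) + ((-τ : ℝ) : ℂ) * I = (A:ℂ) - ((σ : ℂ) + (τ : ℂ) * I) := by
      push_cast; ring
    simp only [hG, e1, WW]
    have e2 : ((A * x : ℝ) : ℂ) ^ (-((A:ℂ) - ((σ : ℂ) + (τ : ℂ) * I))) =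
        (A : ℂ) ^ (((σ : ℂ) + (τ : ℂ) * I) - A) * (x : ℂ) ^ (((σ : ℂ) + (τ : ℂ) * I) - A) := by
      rw [neg_sub, ofReal_mul, Complex.mul_cpow_ofReal_nonneg hA0.le hx.le]
      simp
    rw [e2, Complex.cpow_sub (x := (x:ℂ)) _ _ hx', Complex.cpow_natCast]
    push_cast
    field_simp
  simp only [e]
  refine ⟨(h1.comp_neg).const_mul _, ?_⟩
  rw [integral_const_mul, MeasureTheory.integral_neg_eq_self G, h2]
  rw [kap, mul_pow, ← Real.exp_nat_mul]
  push_cast
  have e3 : cexp ((A:ℂ) * (1 - x)) = cexp A * cexp (-(A * x)) := by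
    rw [← Complex.exp_add]; congr 1; ring
  rw [e3]
  ring

theorem WE_inv (e : Bool) (A : ℕ) (hA : 4 ≤ A) (x : ℝ) (hx : 0 < x) (σ : ℝ) (hσ : |σ| ≤ 2) :
    Integrable (fun τ : ℝ => WE e A ((σ : ℂ) + (τ : ℂ) * I) * (x : ℂ) ^ ((σ : ℂ) + (τ : ℂ) * I)) ∧
    ∫ τ : ℝ, WE e A ((σ : ℂ) + (τ : ℂ) * I) * (x : ℂ) ^ ((σ : ℂ) + (τ : ℂ) * I) =
      2 * Real.pi * (ker e A x : ℂ) := by
  cases e with
  | true => simpa [WE, ker] using WW_inv A hA x hx σ hσ
  | false =>
    obtain ⟨h1, h2⟩ := WW_inv A hA x⁻¹ (by positivity) (-σ) (by rwa [abs_neg])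
    set G : ℝ → ℂ := fun τ : ℝ => WW A (((-σ : ℝ) : ℂ) + (τ : ℂ) * I) *
      ((x⁻¹ : ℝ) : ℂ) ^ (((-σ : ℝ) : ℂ) + (τ : ℂ) * I) with hG
    have e : ∀ τ : ℝ, WE false A ((σ : ℂ) + (τ : ℂ) * I) * (x : ℂ) ^ ((σ : ℂ) + (τ : ℂ) * I) =
        G (-τ) := by
      intro τ
      have e1 : ((-σ : ℝ) : ℂ) + ((-τ : ℝ) : ℂ) * I = -((σ : ℂ) + (τ : ℂ) * I) := by
        push_cast; ring
      simp only [hG, e1, WE]
      congr 1
      rw [Complex.ofReal_inv, Complex.inv_cpow, Complex.cpow_neg, inv_inv]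
      rw [Complex.arg_ofReal_of_nonneg hx.le]
      exact Real.pi_pos.ne
    simp only [e]
    refine ⟨h1.comp_neg, ?_⟩
    rw [MeasureTheory.integral_neg_eq_self G, h2]
    simp [ker]

end H345
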