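import Mathlib
import Pool.Agent.H345R2.Defs
import Pool.Agent.H345R2.Chi
import Pool.Agent.H370R2.Local
import Pool.Agent.H370R2.DirGood

/-! TEAM AH, module 3 (Lower): lower bounds for zeta away from its zeros, under RH. -/

open Complex Filter Topology Set MeasureTheory Metric

namespace H345

namespace Low

open H370.Loc

/-- lower bound for a zero free function -/
lemma lower_zero_free {g : ℂ → ℂ} {c : ℂ} {r r1 B : ℝ} (h1 : 0 < r1)
    (h1r : r1 < r) (hB : 0 ≤ B)
    (hg : AnalyticOnNhd ℂ g (closedBall c r)) (hg0 : ∀ z ∈ closedBall c r, g z ≠ 0)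
    (hb : ∀ z ∈ closedBall c r, ‖g z‖ ≤ Real.exp B * ‖g c‖) {z : ℂ} (hz : z ∈ closedBall c r1) :
    Real.exp (-(2 * (B + 1) * r1 / (r - r1))) * ‖g c‖ ≤ ‖g z‖ := by
  have hr : 0 < r := h1.trans h1r
  have hcr : c ∈ ball c r := mem_ball_self hr
  have hd : DifferentiableOn ℂ (logDeriv g) (ball c r) := by
    intro w hw
    have hw' := ball_subset_closedBall hw
    have h1 : AnalyticAt ℂ (logDeriv g) w := (hg w hw').deriv.div (hg w hw') (hg0 w hw')
    exact h1.differentiableAt.differentiableWithinAt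
  obtain ⟨h, hhc, hh⟩ := hd.isExactOn_ball.with_val_at c 0
  -- g = g c * exp h
  have hconst : ∀ w ∈ ball c r, g w * cexp (-h w) = g c := by
    intro w hw
    have hderiv : ∀ x ∈ ball c r, HasDerivAt (fun y => g y * cexp (-h y)) 0 x := by
      intro x hx
      have hx' := ball_subset_closedBall hx
      have e1 : HasDerivAt g (deriv g x) x := (hg x hx').differentiableAt.hasDerivAt
      have e2 : HasDerivAt (fun y => cexp (-h y)) (cexp (-h x) * (-(logDeriv g x))) x :=
        ((hh x hx).neg).cexp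
      have e3 : HasDerivAt (fun y => g y * cexp (-h y))
          (deriv g x * cexp (-h x) + g x * (cexp (-h x) * (-(logDeriv g x)))) x := e1.mul e2
      have e4 : deriv g x * cexp (-h x) + g x * (cexp (-h x) * (-(logDeriv g x))) = 0 := by
        have := hg0 x hx'
        rw [logDeriv_apply]
        field_simp
        ring
      rwa [e4] at e3
    have hcv : Convex ℝ (ball c r) := convex_ball c r
    have := hcv.is_const_of_fderivWithin_eq_zero (𝕜 := ℂ) (f := fun y => g y * cexp (-h y))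
      (fun x hx => (hderiv x hx).differentiableAt.differentiableWithinAt)
      (fun x hx => by
        have h5 := (hderiv x hx).hasFDerivAt.hasFDerivWithinAt (s := ball c r)
        rw [h5.fderivWithin (isOpen_ball.uniqueDiffWithinAt hx)]
        ext; simp) hw hcr
    simp only [hhc, neg_zero, Complex.exp_zero, mul_one] at this
    exact this
  have hgc : 0 < ‖g c‖ := norm_pos_iff.2 (hg0 c (mem_closedBall_self hr.le))
  have hnorm : ∀ w ∈ ball c r, ‖g w‖ * Real.exp (-(h w).re) = ‖g c‖ := by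
    intro w hw
    rw [← hconst w hw, norm_mul, Complex.norm_exp]
    simp
  have hre : ∀ w ∈ ball c r, (h w).re ≤ B + 1 := by
    intro w hw
    have h2 := hnorm w hw
    have h3 := hb w (ball_subset_closedBall hw)
    have h4 : ‖g c‖ ≤ Real.exp B * ‖g c‖ * Real.exp (-(h w).re) := by
      calc ‖g c‖ = ‖g w‖ * Real.exp (-(h w).re) := h2.symm
        _ ≤ _ := mul_le_mul_of_nonneg_right h3 (Real.exp_pos _).le
    have h5 : 1 ≤ Real.exp B * Real.exp (-(h w).re) := by
      by_contra hcon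
      push Not at hcon
      nlinarith
    rw [← Real.exp_add, Real.one_le_exp_iff] at h5
    linarith
  -- bound on h
  have hw1 : ‖z - c‖ ≤ r1 := by rwa [mem_closedBall, dist_eq_norm] at hz
  have hzb : z ∈ ball c r := closedBall_subset_ball h1r hz
  have hbound : ‖h z‖ ≤ 2 * (B + 1) * r1 / (r - r1) := by
    have hw2 : z - c ∈ ball (0 : ℂ) r := by rw [mem_ball_zero_iff]; linarith
    have hmap : ∀ x : ℂ, x ∈ ball (0 : ℂ) r → c + x ∈ ball c r := by
      intro x hx
      rw [mem_ball_zero_iff] at hx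
      rw [mem_ball, dist_eq_norm, add_sub_cancel_left]
      exact hx
    have hbc := Complex.borelCaratheodory_zero (f := fun x => h (c + x)) (M := B + 1) (R := r)
      (z := z - c) (by linarith)
      (fun x hx => by
        have h1 := (hh (c + x) (hmap x hx)).differentiableAt
        have h2 : DifferentiableAt ℂ (fun y : ℂ => c + y) x := by fun_prop
        exact (DifferentiableAt.comp (g := h) (f := fun y : ℂ => c + y) x h1 h2).differentiableWithinAt)
      (fun x hx => hre (c + x) (hmap x hx)) hr hw2 (by simp [hhc])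
    simp only [add_sub_cancel] at hbc
    refine hbc.trans ?_
    have h6 : 0 < r - r1 := by linarith
    have h7 : r - r1 ≤ r - ‖z - c‖ := by linarith
    have hr1 : 0 < r1 := by linarith
    exact div_le_div₀ (by positivity) (by gcongr) h6 h7
  have h8 := hnorm z hzb
  have h9 : -(2 * (B + 1) * r1 / (r - r1)) ≤ (h z).re := by
    have := (abs_le.1 ((abs_re_le_norm (h z)).trans hbound)).1
    exact this
  have h10 : ‖g z‖ = ‖g c‖ * Real.exp ((h z).re) := by
    rw [← h8, mul_assoc, ← Real.exp_add]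
    simp
  rw [h10, mul_comm]
  exact mul_le_mul_of_nonneg_left (Real.exp_le_exp.2 h9) hgc.le

/-- lower bound away from the zeros -/
lemma lower_general {f : ℂ → ℂ} {c : ℂ} {r r1 R M : ℝ} (h1 : 0 < r1)
    (h1r : r1 < r) (hrR : r < R) (hRr : R ≤ 2 * r) (hr1 : 1 ≤ r) (hM : 1 ≤ M) (hMf : ‖f c‖ ≤ M)
    (hf : AnalyticOnNhd ℂ f (closedBall c R)) (hc : f c ≠ 0)
    (hb : ∀ z ∈ closedBall c R, ‖f z‖ ≤ M) {Λ : ℝ} (hΛ : Real.log (M / ‖f c‖) ≤ Λ) :
    ∀ z ∈ closedBall c r1, ∀ δ : ℝ, 0 < δ → δ ≤ 1 →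
      (∀ ρ ∈ closedBall c r, f ρ = 0 → δ ≤ ‖z - ρ‖) →
      ‖f c‖ * Real.exp (-(Λ / Real.log (R / r) * (Real.log r + Real.log δ⁻¹) +
        2 * (Λ + Λ / Real.log (R / r) * Real.log (r / (R - r)) + 1) * r1 / (r - r1))) ≤ ‖f z‖ := by
  have hr : 0 < r := by linarith
  have hR : 0 < R := by linarith
  obtain ⟨s, g, hs, hg, hfg, hg0, hcard⟩ := extract hr hrR hM hf hc hb
  intro z hz δ hδ hδ1 hdist
  have hzr : z ∈ closedBall c r := closedBall_subset_closedBall (by linarith) hz
  have hfc : 0 < ‖f c‖ := norm_pos_iff.2 hc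
  set n := Multiset.card s with hn
  have hlogM : 0 ≤ Real.log (M / ‖f c‖) := Real.log_nonneg (by rw [le_div_iff₀ hfc]; linarith)
  have hRr0 : 0 < R - r := by linarith
  have hq : 1 ≤ r / (R - r) := by rw [le_div_iff₀ hRr0]; linarith
  have hlogq : 0 ≤ Real.log (r / (R - r)) := Real.log_nonneg hq
  have hlogRr : 0 < Real.log (R / r) := Real.log_pos (by rw [lt_div_iff₀ hr]; linarith)
  -- bounds for g
  have hgsphere : ∀ w ∈ sphere c R, ‖g w‖ ≤ M / (R - r) ^ n := by
    intro w hw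
    have hwR := sphere_subset_closedBall hw
    have h1 : (R - r) ^ n ≤ ‖Pf s w‖ := Pf_norm_ge hRr0.le fun ρ hρ => by
      have h2 := (hs ρ hρ).1
      rw [mem_closedBall, dist_eq_norm] at h2
      rw [mem_sphere, dist_eq_norm] at hw
      have h3 : ‖w - c‖ ≤ ‖w - ρ‖ + ‖ρ - c‖ := by
        calc ‖w - c‖ = ‖(w - ρ) + (ρ - c)‖ := by congr 1; ring
          _ ≤ _ := norm_add_le _ _
      linarith
    rw [le_div_iff₀ (by positivity)]
    calc ‖g w‖ * (R - r) ^ n ≤ ‖g w‖ * ‖Pf s w‖ := mul_le_mul_of_nonneg_left h1 (norm_nonneg _)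
      _ = ‖f w‖ := by rw [hfg w, norm_mul, mul_comm]
      _ ≤ M := hb w hwR
  have hgball : ∀ w ∈ closedBall c R, ‖g w‖ ≤ M / (R - r) ^ n := by
    intro w hw
    refine Complex.norm_le_of_forall_mem_frontier_norm_le (U := ball c R) isBounded_ball ?_ ?_ ?_
    · apply DifferentiableOn.diffContOnCl
      rw [closure_ball c hR.ne']
      exact fun x hx => (hg x hx).differentiableAt.differentiableWithinAt
    · intro x hx
      rw [frontier_ball c hR.ne'] at hx
      exact hgsphere x hx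
    · rwa [closure_ball c hR.ne']
  have hgc : ‖f c‖ / r ^ n ≤ ‖g c‖ := by
    rw [div_le_iff₀ (by positivity)]
    have h1 : ‖Pf s c‖ ≤ r ^ n := Pf_norm_le fun ρ hρ => by
      have h2 := (hs ρ hρ).1
      rw [mem_closedBall, dist_eq_norm, norm_sub_rev] at h2
      exact h2
    calc ‖f c‖ = ‖g c‖ * ‖Pf s c‖ := by rw [hfg c, norm_mul, mul_comm]
      _ ≤ ‖g c‖ * r ^ n := mul_le_mul_of_nonneg_left h1 (norm_nonneg _)
  set B : ℝ := Real.log (M / ‖f c‖) + n * Real.log (r / (R - r)) with hB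
  have hB0 : 0 ≤ B := by positivity
  have hexpB : Real.exp B = M / ‖f c‖ * (r / (R - r)) ^ n := by
    rw [hB, Real.exp_add, Real.exp_log (by positivity), Real.exp_nat_mul,
      Real.exp_log (by positivity)]
  have hgb : ∀ w ∈ closedBall c r, ‖g w‖ ≤ Real.exp B * ‖g c‖ := by
    intro w hw
    refine (hgball w (closedBall_subset_closedBall hrR.le hw)).trans ?_
    rw [hexpB]
    calc M / (R - r) ^ n = M / ‖f c‖ * (r / (R - r)) ^ n * (‖f c‖ / r ^ n) := by
          rw [div_pow]; field_simp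
      _ ≤ _ := mul_le_mul_of_nonneg_left hgc (by positivity)
  have hgz := lower_zero_free h1 h1r hB0
    (hg.mono (closedBall_subset_closedBall hrR.le)) hg0 hgb hz
  have hPz : δ ^ n ≤ ‖Pf s z‖ := Pf_norm_ge hδ.le fun ρ hρ => hdist ρ (hs ρ hρ).1 (hs ρ hρ).2
  have hnΛ : (n : ℝ) ≤ Λ / Real.log (R / r) :=
    hcard.trans (div_le_div_of_nonneg_right hΛ hlogRr.le)
  have hBΛ : B ≤ Λ + Λ / Real.log (R / r) * Real.log (r / (R - r)) := by
    rw [hB]
    exact add_le_add hΛ (mul_le_mul_of_nonneg_right hnΛ hlogq)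
  have hlogr : 0 ≤ Real.log r := Real.log_nonneg hr1
  have hlogδ : 0 ≤ Real.log δ⁻¹ := Real.log_nonneg ((one_le_inv₀ hδ).2 hδ1)
  have e1 : δ ^ n = Real.exp (-(n * Real.log δ⁻¹)) := by
    rw [Real.exp_neg, Real.exp_nat_mul, Real.exp_log (by positivity), inv_pow, inv_inv]
  have e2 : (r ^ n)⁻¹ = Real.exp (-(n * Real.log r)) := by
    rw [Real.exp_neg, Real.exp_nat_mul, Real.exp_log hr]
  calc ‖f c‖ * Real.exp (-(Λ / Real.log (R / r) * (Real.log r + Real.log δ⁻¹) +
        2 * (Λ + Λ / Real.log (R / r) * Real.log (r / (R - r)) + 1) * r1 / (r - r1)))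
      ≤ ‖f c‖ * Real.exp (-(n * (Real.log r + Real.log δ⁻¹) + 2 * (B + 1) * r1 / (r - r1))) := by
        apply mul_le_mul_of_nonneg_left _ hfc.le
        apply Real.exp_le_exp.2
        have h9 : 0 < r - r1 := by linarith
        have h10 : 2 * (B + 1) * r1 / (r - r1) ≤
            2 * (Λ + Λ / Real.log (R / r) * Real.log (r / (R - r)) + 1) * r1 / (r - r1) := by
          gcongr
        have h11 : (n : ℝ) * (Real.log r + Real.log δ⁻¹) ≤
            Λ / Real.log (R / r) * (Real.log r + Real.log δ⁻¹) :=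
          mul_le_mul_of_nonneg_right hnΛ (by positivity)
        linarith
    _ = δ ^ n * (Real.exp (-(2 * (B + 1) * r1 / (r - r1))) * (‖f c‖ / r ^ n)) := by
        rw [div_eq_mul_inv (‖f c‖), e1, e2]
        rw [neg_add, mul_add, neg_add, Real.exp_add, Real.exp_add]
        ring
    _ ≤ ‖Pf s z‖ * ‖g z‖ := by
        apply mul_le_mul hPz _ (by positivity) (norm_nonneg _)
        refine le_trans ?_ hgz
        exact mul_le_mul_of_nonneg_left hgc (Real.exp_pos _).le
    _ = ‖f z‖ := by rw [hfg z, norm_mul]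

lemma zero_on_line (hRH : RiemannHypothesis) {ρ : ℂ} (h0 : 0 < ρ.re) (hz : riemannZeta ρ = 0) :
    ρ = 1 / 2 + (ρ.im : ℂ) * I ∧ ρ.im ∈ Zo := by
  have h1 : ρ.re = 1 / 2 := by
    apply hRH ρ hz
    · rintro ⟨n, hn⟩
      rw [hn] at h0
      simp at h0
      have : (0 : ℝ) ≤ n := Nat.cast_nonneg n
      linarith
    · intro h
      rw [h] at hz
      exact riemannZeta_one_ne_zero hz
  have h2 : ρ = 1 / 2 + (ρ.im : ℂ) * I := by
    apply Complex.ext
    · simp [h1]
    · simp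
  refine ⟨h2, ?_⟩
  show riemannZeta (1 / 2 + (ρ.im : ℂ) * I) = 0
  rw [← h2]
  exact hz

lemma log_four_le {L : ℝ} (hL : 1 ≤ L) : Real.log (4 * L) ≤ 4 * L ^ (1 / 2 : ℝ) := by
  have h0 : 0 < L := by linarith
  have h1 : 4 * L = (2 * L ^ (1 / 2 : ℝ)) ^ 2 := by
    rw [mul_pow, ← Real.rpow_natCast (L ^ (1 / 2 : ℝ)) 2, ← Real.rpow_mul h0.le]
    norm_num
  rw [h1, Real.log_pow]
  have h2 : 0 < 2 * L ^ (1 / 2 : ℝ) := by positivity
  have h3 := Real.log_le_sub_one_of_pos h2
  push_cast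
  linarith

lemma right_lower (hRH : RiemannHypothesis) : ∃ C X0 : ℝ, 0 < C ∧ 10 ≤ X0 ∧
    ∀ X : ℝ, X0 ≤ X → ∀ s : ℂ, 1 / 2 ≤ s.re → s.re ≤ 2 → Real.sqrt X / 4 ≤ s.im → s.im ≤ 3 * X →
    (∀ t ∈ Zo, |t - s.im| ≤ 10 → 1 / (4 * Real.log X) ≤ ‖s - (1 / 2 + (t : ℂ) * I)‖) →
    Real.exp (-C * (Real.log X) ^ (3 / 2 : ℝ)) ≤ ‖riemannZeta s‖ := by
  obtain ⟨K, hK, hdata⟩ := ball_data H370.good_zeta
  have ha : 0 < Real.log (1.9 / 1.7) := Real.log_pos (by norm_num)
  have hb : 0 < Real.log (1.7 / (1.9 - 1.7)) := Real.log_pos (by norm_num)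
  have hc : 0 < Real.log 1.7 := Real.log_pos (by norm_num)
  set a := Real.log (1.9 / 1.7) with hadef
  set b := Real.log (1.7 / (1.9 - 1.7)) with hbdef
  set c' := Real.log 1.7 with hcdef
  refine ⟨2 + 2 * K / a * c' + 4 * (2 * K / a) + 15 * (2 * K + 2 * K / a * b + 1), 400,
    by positivity, by norm_num, ?_⟩
  intro X hX s hs1 hs2 hs3 hs4 hdist
  have hX0 : 0 < X := by linarith
  have hsq : 20 ≤ Real.sqrt X := by
    rw [show (20 : ℝ) = Real.sqrt 400 by
      rw [show (400 : ℝ) = 20 ^ 2 by norm_num, Real.sqrt_sq (by norm_num)]]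
    exact Real.sqrt_le_sqrt hX
  set t0 := s.im with ht0
  have ht3 : 3 ≤ t0 := by linarith
  have hL : 1 ≤ Real.log X := one_le_log (by linarith)
  set L := Real.log X with hLdef
  have hlt : Real.log t0 ≤ 2 * L := by
    have h1 : Real.log t0 ≤ Real.log (X ^ 2) := Real.log_le_log (by linarith) (by nlinarith)
    rw [Real.log_pow] at h1
    exact_mod_cast h1
  obtain ⟨M, hM1, han, hF0, hbd, hMc, -, hlogM⟩ := hdata t0 ht3
  have hΛ : Real.log (M / ‖riemannZeta ⟨2, t0⟩‖) ≤ 2 * K * L := by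
    refine hlogM.trans ?_
    nlinarith
  have hball : s ∈ closedBall (⟨2, t0⟩ : ℂ) 1.5 := by
    rw [mem_closedBall, dist_eq_norm]
    have h1 : s - ⟨2, t0⟩ = ((s.re - 2 : ℝ) : ℂ) := by
      apply Complex.ext
      · simp
      · simp [ht0]
    rw [h1, Complex.norm_real, Real.norm_eq_abs, abs_le]
    constructor <;> norm_num <;> linarith
  have hmain := lower_general (f := riemannZeta) (c := ⟨2, t0⟩) (r := 1.7) (r1 := 1.5) (R := 1.9)
    (M := M) (by norm_num) (by norm_num) (by norm_num) (by norm_num) (by norm_num) hM1 hMc han hF0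
    hbd hΛ s hball (1 / (4 * L)) (by positivity) (by
      rw [div_le_iff₀ (by positivity)]; linarith) (by
      intro ρ hρ hz
      rw [mem_closedBall, dist_eq_norm] at hρ
      have h1 := (abs_re_le_norm (ρ - ⟨2, t0⟩)).trans hρ
      have h2 := (abs_im_le_norm (ρ - ⟨2, t0⟩)).trans hρ
      simp only [sub_re, sub_im] at h1 h2
      have h3 : 0 < ρ.re := by
        have := (abs_le.1 h1).1
        norm_num at this
        linarith
      obtain ⟨h4, h5⟩ := zero_on_line hRH h3 hz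
      have h6 := hdist ρ.im h5 (h2.trans (by norm_num))
      rwa [← h4] at h6)
  refine le_trans ?_ hmain
  have h2l : (⟨2, t0⟩ : ℂ) = 2 + (t0 : ℂ) * I := by
    apply Complex.ext <;> simp
  have hz2 : Real.exp (-2) ≤ ‖riemannZeta ⟨2, t0⟩‖ := by
    rw [h2l]
    refine le_trans ?_ (Chi.zeta_two_lower t0)
    rw [Real.exp_neg, inv_eq_one_div]
    apply one_div_le_one_div_of_le (by norm_num)
    have := Real.add_one_le_exp 2
    linarith
  have hLp : L ≤ L ^ (3 / 2 : ℝ) := by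
    calc L = L ^ (1 : ℝ) := (Real.rpow_one L).symm
      _ ≤ L ^ (3 / 2 : ℝ) := Real.rpow_le_rpow_of_exponent_le hL (by norm_num)
  have h1p : 1 ≤ L ^ (3 / 2 : ℝ) := hL.trans hLp
  have hLL : L * L ^ (1 / 2 : ℝ) = L ^ (3 / 2 : ℝ) := by
    rw [← Real.rpow_one_add' (by linarith) (by norm_num)]
    norm_num
  have hlog4 : Real.log (1 / (4 * L))⁻¹ ≤ 4 * L ^ (1 / 2 : ℝ) := by
    rw [one_div, inv_inv]
    exact log_four_le hL
  have hstep : 2 * K * L / a * (c' + Real.log (1 / (4 * L))⁻¹) ≤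
      (2 * K / a * c' + 4 * (2 * K / a)) * L ^ (3 / 2 : ℝ) := by
    calc 2 * K * L / a * (c' + Real.log (1 / (4 * L))⁻¹)
        ≤ 2 * K * L / a * (c' + 4 * L ^ (1 / 2 : ℝ)) := by gcongr
      _ = 2 * K / a * c' * L + 4 * (2 * K / a) * (L * L ^ (1 / 2 : ℝ)) := by ring
      _ ≤ 2 * K / a * c' * L ^ (3 / 2 : ℝ) + 4 * (2 * K / a) * L ^ (3 / 2 : ℝ) := by
          rw [hLL]
          gcongr
      _ = _ := by ring
  have hstep2 : 2 * (2 * K * L + 2 * K * L / a * b + 1) * 1.5 / (1.7 - 1.5) ≤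
      15 * (2 * K + 2 * K / a * b + 1) * L ^ (3 / 2 : ℝ) := by
    calc 2 * (2 * K * L + 2 * K * L / a * b + 1) * 1.5 / (1.7 - 1.5)
        = 15 * ((2 * K + 2 * K / a * b) * L + 1) := by ring
      _ ≤ 15 * ((2 * K + 2 * K / a * b) * L ^ (3 / 2 : ℝ) + L ^ (3 / 2 : ℝ)) := by
          gcongr
      _ = _ := by ring
  calc Real.exp (-(2 + 2 * K / a * c' + 4 * (2 * K / a) + 15 * (2 * K + 2 * K / a * b + 1)) *
        L ^ (3 / 2 : ℝ))
      ≤ Real.exp (-2 + -(2 * K * L / a * (c' + Real.log (1 / (4 * L))⁻¹) +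
          2 * (2 * K * L + 2 * K * L / a * b + 1) * 1.5 / (1.7 - 1.5))) := by
        apply Real.exp_le_exp.2
        nlinarith
    _ = Real.exp (-2) * Real.exp (-(2 * K * L / a * (c' + Real.log (1 / (4 * L))⁻¹) +
          2 * (2 * K * L + 2 * K * L / a * b + 1) * 1.5 / (1.7 - 1.5))) := by
        rw [Real.exp_add]
    _ ≤ _ := mul_le_mul_of_nonneg_right hz2 (Real.exp_pos _).le

lemma lower_aux (hRH : RiemannHypothesis) : ∃ C X0 : ℝ, 0 < C ∧ 10 ≤ X0 ∧
    ∀ X : ℝ, X0 ≤ X → ∀ s : ℂ, -1 ≤ s.re → s.re ≤ 2 → Real.sqrt X / 4 ≤ s.im → s.im ≤ 3 * X →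
    (∀ t ∈ Zo, |t - s.im| ≤ 10 → 1 / (4 * Real.log X) ≤ ‖s - (1 / 2 + (t : ℂ) * I)‖) →
    Real.exp (-C * (Real.log X) ^ (3 / 2 : ℝ)) ≤ ‖riemannZeta s‖ := by
  obtain ⟨C, X0, hC, hX0, h⟩ := right_lower hRH
  obtain ⟨K, hK, hXX⟩ := Chi.XX_size
  refine ⟨C + K, max X0 400, by positivity, hX0.trans (le_max_left _ _), ?_⟩
  intro X hX s hs1 hs2 hs3 hs4 hdist
  have hXX0 : X0 ≤ X := (le_max_left _ _).trans hX
  have hX400 : 400 ≤ X := (le_max_right _ _).trans hX
  have hL : 1 ≤ Real.log X := one_le_log (by linarith)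
  have h1p : 1 ≤ (Real.log X) ^ (3 / 2 : ℝ) := Real.one_le_rpow hL (by norm_num)
  have hsq : 20 ≤ Real.sqrt X := by
    rw [show (20 : ℝ) = Real.sqrt 400 by
      rw [show (400 : ℝ) = 20 ^ 2 by norm_num, Real.sqrt_sq (by norm_num)]]
    exact Real.sqrt_le_sqrt hX400
  have hexp : Real.exp (-(C + K) * (Real.log X) ^ (3 / 2 : ℝ)) ≤
      Real.exp (-K) * Real.exp (-C * (Real.log X) ^ (3 / 2 : ℝ)) := by
    rw [← Real.exp_add]
    apply Real.exp_le_exp.2
    nlinarith
  have hexpK : Real.exp (-K) ≤ 1 := Real.exp_le_one_iff.2 (by linarith)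
  rcases le_total (1 / 2) s.re with hre | hre
  · refine hexp.trans (le_trans ?_ (h X hXX0 s hre hs2 hs3 hs4 hdist))
    exact mul_le_of_le_one_left (Real.exp_pos _).le hexpK
  · set s' : ℂ := 1 - (starRingEnd ℂ) s with hs'
    have hre' : s'.re = 1 - s.re := by simp [hs']
    have him' : s'.im = s.im := by simp [hs']
    have h1 := h X hXX0 s' (by rw [hre']; linarith) (by rw [hre']; linarith)
      (by rw [him']; exact hs3) (by rw [him']; exact hs4) (by
        intro t ht ht2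
        rw [him'] at ht2
        have h2 := hdist t ht ht2
        have h3 : s' - (1 / 2 + (t : ℂ) * I) = -(starRingEnd ℂ) (s - (1 / 2 + (t : ℂ) * I)) := by
          rw [hs', map_sub, map_add, map_div₀, map_one, map_mul, Chi.conj_two, conj_ofReal, conj_I]
          ring
        rw [h3, norm_neg, Complex.norm_conj]
        exact h2)
    have h4 : riemannZeta s = XX (1 - s) * riemannZeta (1 - s) := by
      have h5 := zeta_fe (1 - s) (by
        intro n hn
        have := congrArg Complex.re hn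
        simp at this
        have h : (0 : ℝ) ≤ n := Nat.cast_nonneg n
        linarith) (by
        intro hn
        have := congrArg Complex.im hn
        simp at this
        linarith)
      rwa [sub_sub_cancel] at h5
    have h6 : 1 - s = (starRingEnd ℂ) s' := by
      rw [hs', map_sub, map_one, Complex.conj_conj]
    rw [h4, h6, Chi.XX_conj, riemannZeta_conj, norm_mul, Complex.norm_conj, Complex.norm_conj]
    have h7 := (hXX s' (by rw [hre']; linarith) (by rw [hre']; linarith)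
      (by rw [him']; linarith)).1
    have h8 : 1 ≤ s'.im ^ (s'.re - 1 / 2) := by
      apply Real.one_le_rpow
      · rw [him']; linarith
      · rw [hre']; linarith
    have h9 : Real.exp (-K) ≤ ‖XX s'‖ := by
      refine le_trans ?_ h7
      exact le_mul_of_one_le_right (Real.exp_pos _).le h8
    exact hexp.trans (mul_le_mul h9 h1 (Real.exp_pos _).le (norm_nonneg _))

end Low

open Low

theorem zeta_lower (hRH : RiemannHypothesis) : ∃ C X0 : ℝ, 0 < C ∧ 10 ≤ X0 ∧
    ∀ X : ℝ, X0 ≤ X → ∀ s : ℂ, -1 ≤ s.re → s.re ≤ 2 → Real.sqrt X / 2 ≤ s.im → s.im ≤ 2 * X →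
    (∀ t ∈ Zo, |t - s.im| ≤ 10 → 1 / (4 * Real.log X) ≤ ‖s - (1 / 2 + (t : ℂ) * I)‖) →
    Real.exp (-C * (Real.log X) ^ (3 / 2 : ℝ)) ≤ ‖riemannZeta s‖ := by
  obtain ⟨C, X0, hC, hX0, h⟩ := lower_aux hRH
  refine ⟨C, X0, hC, hX0, ?_⟩
  intro X hX s hs1 hs2 hs3 hs4 hdist
  have := Real.sqrt_nonneg X
  exact h X hX s hs1 hs2 (by linarith) (by linarith) hdist

open H370.Loc in
theorem aa_upper (hRH : RiemannHypothesis) : ∃ C X0 : ℝ, 0 < C ∧ 10 ≤ X0 ∧
    ∀ X : ℝ, X0 ≤ X → ∀ t ∈ Zo, Real.sqrt X / 2 ≤ t → t ≤ 2 * X →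
    deriv riemannZeta (1 / 2 + (t : ℂ) * I) ≠ 0 →
    (∀ t' ∈ Zo, |t' - t| ≤ 15 → t' ≠ t → 1 / Real.log X ≤ |t' - t|) →
    ‖aa t‖ ≤ Real.exp (C * (Real.log X) ^ (3 / 2 : ℝ)) := by
  obtain ⟨C, X0, hC, hX0, h⟩ := lower_aux hRH
  refine ⟨C, max X0 400, hC, hX0.trans (le_max_left _ _), ?_⟩
  intro X hX t ht ht1 ht2 hder hsp
  have hXX0 : X0 ≤ X := (le_max_left _ _).trans hX
  have hX400 : 400 ≤ X := (le_max_right _ _).trans hX
  have hL2 : 2 ≤ Real.log X := by
    rw [Real.le_log_iff_exp_le (by linarith)]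
    have h1 : Real.exp 2 = Real.exp 1 ^ 2 := by rw [← Real.exp_nat_mul]; norm_num
    have h2 := Real.exp_one_lt_d9
    have h3 := Real.exp_pos 1
    nlinarith
  have hsq : 20 ≤ Real.sqrt X := by
    rw [show (20 : ℝ) = Real.sqrt 400 by
      rw [show (400 : ℝ) = 20 ^ 2 by norm_num, Real.sqrt_sq (by norm_num)]]
    exact Real.sqrt_le_sqrt hX400
  set L := Real.log X with hLdef
  have hL0 : 0 < L := by linarith
  set δ : ℝ := 1 / (2 * L) with hδ
  have hδ0 : 0 < δ := by positivity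
  have hδ1 : δ ≤ 1 / 4 := by
    rw [hδ]
    apply one_div_le_one_div_of_le (by norm_num)
    linarith
  have hδL : 1 / L = δ + δ := by
    rw [hδ]; field_simp; norm_num
  set ρ : ℂ := 1 / 2 + (t : ℂ) * I with hρ
  have hρre : ρ.re = 1 / 2 := by simp [hρ]
  have hρim : ρ.im = t := by simp [hρ]
  have hz : riemannZeta ρ = 0 := ht
  let q : ℂ → ℂ := dslope riemannZeta ρ
  have hball : ∀ z ∈ closedBall ρ δ, 0 < z.re ∧ |z.im - t| ≤ 1 / 4 ∧ z.re ≤ 2 := by
    intro z hz
    rw [mem_closedBall, dist_eq_norm] at hz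
    have h1 := (abs_re_le_norm (z - ρ)).trans hz
    have h2 := (abs_im_le_norm (z - ρ)).trans hz
    rw [sub_re, hρre, abs_le] at h1
    rw [sub_im, hρim] at h2
    exact ⟨by linarith [h1.1], h2.trans hδ1, by linarith [h1.2]⟩
  have hne1 : ∀ z ∈ closedBall ρ δ, z ≠ 1 := by
    intro z hz h
    have h1 := (hball z hz).2.1
    rw [h, one_im, abs_le] at h1
    linarith [h1.1]
  have hζan : AnalyticOnNhd ℂ riemannZeta (closedBall ρ δ) := by
    intro z hz
    have h1 : DifferentiableOn ℂ riemannZeta {1}ᶜ := fun w hw =>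
      (differentiableAt_riemannZeta hw).differentiableWithinAt
    exact h1.analyticAt (isOpen_compl_singleton.mem_nhds (hne1 z hz))
  have hρmem : ρ ∈ closedBall ρ δ := mem_closedBall_self hδ0.le
  have hqan : AnalyticOnNhd ℂ q (closedBall ρ δ) := analytic_dslope hζan (hζan ρ hρmem)
  have hqval : ∀ z, z ≠ ρ → q z = riemannZeta z / (z - ρ) := by
    intro z hz1
    show dslope riemannZeta ρ z = _
    rw [dslope_of_ne _ hz1, slope_def_field, hz, sub_zero]
  have hqne : ∀ z ∈ closedBall ρ δ, q z ≠ 0 := by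
    intro z hz1
    by_cases hzρ : z = ρ
    · rw [hzρ]
      show dslope riemannZeta ρ ρ ≠ 0
      rw [dslope_same]
      exact hder
    · rw [hqval z hzρ]
      apply div_ne_zero _ (sub_ne_zero.2 hzρ)
      intro h0
      obtain ⟨h1, h2⟩ := zero_on_line hRH (hball z hz1).1 h0
      have h3 : z.im ≠ t := by
        intro h
        apply hzρ
        rw [h1, hρ, h]
      have h4 := hsp z.im h2 ((hball z hz1).2.1.trans (by norm_num)) h3
      have h5 : |z.im - t| ≤ δ := by
        have h6 := abs_im_le_norm (z - ρ)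
        rw [sub_im, hρim] at h6
        rw [mem_closedBall, dist_eq_norm] at hz1
        exact h6.trans hz1
      rw [hδL] at h4
      linarith
  have hsph : ∀ z ∈ sphere ρ δ, ‖(q z)⁻¹‖ ≤ Real.exp (C * L ^ (3 / 2 : ℝ)) := by
    intro z hz1
    have hzc := sphere_subset_closedBall hz1
    obtain ⟨b1, b2, b3⟩ := hball z hzc
    rw [mem_sphere, dist_eq_norm] at hz1
    have hzρ : z ≠ ρ := by
      intro h
      rw [h, sub_self, norm_zero] at hz1
      linarith
    rw [abs_le] at b2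
    have h1 := h X hXX0 z (by linarith) b3 (by linarith [b2.1]) (by linarith [b2.2]) (by
      intro t' ht' htt
      by_cases he : t' = t
      · rw [he, ← hρ, hz1, hδ]
        apply one_div_le_one_div_of_le (by positivity)
        linarith
      · rw [abs_le] at htt
        have h2 := hsp t' ht' (by
          rw [abs_le]
          constructor <;> linarith [b2.1, b2.2, htt.1, htt.2]) he
        have h3 : |t' - t| = ‖(1 / 2 + (t' : ℂ) * I) - ρ‖ := by
          have : (1 / 2 + (t' : ℂ) * I) - ρ = ((t' - t : ℝ) : ℂ) * I := by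
            rw [hρ]; push_cast; ring
          rw [this, norm_mul, norm_I, mul_one, Complex.norm_real, Real.norm_eq_abs]
        have h4 : ‖(1 / 2 + (t' : ℂ) * I) - ρ‖ ≤ ‖z - (1 / 2 + (t' : ℂ) * I)‖ + ‖z - ρ‖ := by
          have : (1 / 2 + (t' : ℂ) * I) - ρ = -(z - (1 / 2 + (t' : ℂ) * I)) + (z - ρ) := by ring
          rw [this]
          refine (norm_add_le _ _).trans ?_
          rw [norm_neg]
        rw [hz1, ← h3] at h4
        rw [hδL] at h2
        have h5 : 1 / (4 * L) ≤ δ := by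
          rw [hδ]
          apply one_div_le_one_div_of_le (by positivity)
          linarith
        linarith)
    rw [hqval z hzρ, norm_inv, norm_div, hz1, inv_div]
    have hpos : 0 < Real.exp (-C * L ^ (3 / 2 : ℝ)) := Real.exp_pos _
    calc δ / ‖riemannZeta z‖ ≤ 1 / Real.exp (-C * L ^ (3 / 2 : ℝ)) := by
          apply div_le_div₀ (by norm_num) (by linarith) hpos h1
      _ = Real.exp (C * L ^ (3 / 2 : ℝ)) := by
          rw [one_div, ← Real.exp_neg]
          congr 1
          ring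
  have hfin : ‖(q ρ)⁻¹‖ ≤ Real.exp (C * L ^ (3 / 2 : ℝ)) := by
    refine Complex.norm_le_of_forall_mem_frontier_norm_le (U := ball ρ δ)
      (f := fun z => (q z)⁻¹) isBounded_ball ?_ ?_ ?_
    · apply DifferentiableOn.diffContOnCl
      rw [closure_ball ρ hδ0.ne']
      intro z hz1
      exact ((hqan z hz1).inv (hqne z hz1)).differentiableAt.differentiableWithinAt
    · intro x hx
      rw [frontier_ball ρ hδ0.ne'] at hx
      exact hsph x hx
    · rw [closure_ball ρ hδ0.ne']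
      exact hρmem
  have hq : q ρ = deriv riemannZeta ρ := dslope_same _ _
  rw [hq] at hfin
  exact hfin

end H345
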