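import Pool.Agent.H345R2.Res
import Pool.Agent.H345R2.ExpInt
import Pool.Agent.H345R2.Kernel
import Pool.Agent.H345R2.Chi
import Pool.Agent.H345R2.Lower

set_option autoImplicit false

open Complex Filter Topology Set MeasureTheory

namespace H345


open H370 (RI Bd Bd_sub Bd_not_Ioo mk_eq)

lemma WE_bound (e : Bool) (A : ℕ) (hA : 4 ≤ A) : ∃ C : ℝ, 0 < C ∧ ∀ w : ℂ, |w.re| ≤ 2 →
    ‖WE e A w‖ ≤ C * Real.exp (-|w.im| / 2) := by
  obtain ⟨C, hC, h⟩ := WW_bound A hA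
  refine ⟨C, hC, fun w hw => ?_⟩
  cases e
  · have := h (-w) (by simpa using hw)
    simpa [WE] using this
  · have := h w hw
    simpa [WE] using this

lemma WE_diff (e : Bool) (A : ℕ) (w : ℂ) (hw : |w.re| < A) : DifferentiableAt ℂ (WE e A) w := by
  rw [abs_lt] at hw
  cases e
  · have h1 : DifferentiableAt ℂ (WW A) (-w) := WW_diff A (-w) (by simp; linarith)
    have h2 := h1.comp w (differentiable_neg w)
    exact h2.congr_of_eventuallyEq (Eventually.of_forall fun z => by simp [WE])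
  · have h1 : DifferentiableAt ℂ (WW A) w := WW_diff A w hw.2
    exact h1.congr_of_eventuallyEq (Eventually.of_forall fun z => by simp [WE])

lemma cpow_div (x : ℝ) (hx : 0 < x) (n : ℕ) (w : ℂ) :
    ((x / n : ℝ) : ℂ) ^ w = (x : ℂ) ^ w * (n : ℂ) ^ (-w) := by
  have h := Complex.div_cpow_ofReal_nonneg hx.le (Nat.cast_nonneg n) w
  rw [Complex.ofReal_div, h, Complex.cpow_neg, div_eq_mul_inv]
  simp

/-- the Dirichlet series of `1/ζ` -/
lemma inv_zeta_tsum {s : ℂ} (hs : 1 < s.re) :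
    (riemannZeta s)⁻¹ = ∑' n : ℕ, (ArithmeticFunction.moebius n : ℂ) * (n : ℂ) ^ (-s) := by
  have h1 := LSeries_one_mul_Lseries_moebius hs
  rw [LSeries_one_eq_riemannZeta hs] at h1
  have h2 : (riemannZeta s)⁻¹ = LSeries (fun n => (ArithmeticFunction.moebius n : ℂ)) s :=
    inv_eq_of_mul_eq_one_right h1
  rw [h2, LSeries]
  apply tsum_congr
  intro n
  rw [LSeries.term_def]
  split_ifs with h
  · subst h; simp
  · rw [Complex.cpow_neg, div_eq_mul_inv]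

/-- the integrand on the right line -/
noncomputable def gR (e : Bool) (A : ℕ) (y T : ℝ) (s : ℂ) : ℂ :=
  WE e A (s - 1 / 2 - T * I) * (y : ℂ) ^ (s - 1 / 2 - T * I)

lemma norm_gR {e : Bool} {A : ℕ} {C : ℝ}
    (hC : ∀ w : ℂ, |w.re| ≤ 2 → ‖WE e A w‖ ≤ C * Real.exp (-|w.im| / 2)) {y : ℝ} (hy : 0 < y)
    (T : ℝ) (s : ℂ) (h1 : -1 ≤ s.re) (h2 : s.re ≤ 2) :
    ‖gR e A y T s‖ ≤ C * Real.exp (-|s.im - T| / 2) * y ^ (s.re - 1 / 2) := by
  rw [gR, norm_mul, Complex.norm_cpow_eq_rpow_re_of_pos hy]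
  have hre : (s - 1 / 2 - T * I).re = s.re - 1 / 2 := by simp
  have him : (s - 1 / 2 - T * I).im = s.im - T := by simp
  have h := hC (s - 1 / 2 - T * I) (by rw [hre, abs_le]; constructor <;> linarith)
  rw [him] at h
  rw [hre]
  exact mul_le_mul_of_nonneg_right h (by positivity)

lemma gR_diff (e : Bool) (A : ℕ) (hA : 4 ≤ A) {y : ℝ} (hy : 0 < y) (T : ℝ) (s : ℂ) (h1 : -3 < s.re)
    (h2 : s.re < 4) : DifferentiableAt ℂ (gR e A y T) s := by
  have hA' : (4 : ℝ) ≤ A := by exact_mod_cast hA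
  have h3 : DifferentiableAt ℂ (fun s : ℂ => s - 1 / 2 - T * I) s := by fun_prop
  have h4 : DifferentiableAt ℂ (WE e A) (s - 1 / 2 - T * I) :=
    WE_diff e A _ (by
      have hre : (s - 1 / 2 - T * I).re = s.re - 1 / 2 := by simp
      rw [hre, abs_lt]; constructor <;> linarith)
  have h5 : DifferentiableAt ℂ (fun s : ℂ => (y : ℂ) ^ (s - 1 / 2 - T * I)) s :=
    h3.const_cpow (Or.inl (by exact_mod_cast hy.ne'))
  exact (h4.comp s h3).mul h5

lemma right_line (e : Bool) (A : ℕ) (hA : 4 ≤ A) : ∃ K : ℝ, 0 < K ∧ ∀ y : ℝ, 0 < y → ∀ T : ℝ,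
    (∀ v : ℝ, ‖gR e A y T ⟨2, v⟩ / riemannZeta ⟨2, v⟩‖ ≤
      K * y ^ (3 / 2 : ℝ) * Real.exp (-|v - T| / 2)) ∧
    AEStronglyMeasurable (fun v : ℝ => gR e A y T ⟨2, v⟩ / riemannZeta ⟨2, v⟩) volume ∧
    ∫ v : ℝ, gR e A y T ⟨2, v⟩ / riemannZeta ⟨2, v⟩ = 2 * Real.pi * DD e A y T := by
  obtain ⟨C, hC0, hC⟩ := WE_bound e A hA
  have hsum2 : Summable (fun n : ℕ => (n : ℝ) ^ (-(2 : ℝ))) := Real.summable_nat_rpow.2 (by norm_num)
  set Z2 : ℝ := ∑' n : ℕ, (n : ℝ) ^ (-(2 : ℝ)) with hZ2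
  have hZ2n : 0 ≤ Z2 := tsum_nonneg fun n => by positivity
  refine ⟨C * (Z2 + 1), by positivity, fun y hy T => ?_⟩
  have hnn : ∀ (n : ℕ) (v : ℝ), ‖(ArithmeticFunction.moebius n : ℂ) * (n : ℂ) ^ (-(⟨2, v⟩ : ℂ))‖ ≤
      (n : ℝ) ^ (-(2 : ℝ)) := by
    intro n v
    rcases Nat.eq_zero_or_pos n with h0 | hpos
    · subst h0; simp
    · rw [norm_mul, Complex.norm_natCast_cpow_of_pos hpos]
      have h1 : ‖(ArithmeticFunction.moebius n : ℂ)‖ ≤ 1 := by
        rw [Complex.norm_intCast]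
        exact_mod_cast ArithmeticFunction.abs_moebius_le_one (n := n)
      calc ‖(ArithmeticFunction.moebius n : ℂ)‖ * (n : ℝ) ^ (-(⟨2, v⟩ : ℂ)).re ≤
            1 * (n : ℝ) ^ (-(⟨2, v⟩ : ℂ)).re := by gcongr
        _ = (n : ℝ) ^ (-(2 : ℝ)) := by simp
  have hzinv : ∀ v : ℝ, ‖(riemannZeta (⟨2, v⟩ : ℂ))⁻¹‖ ≤ Z2 := by
    intro v
    rw [inv_zeta_tsum (by norm_num)]
    exact tsum_of_norm_bounded hsum2.hasSum (fun n => hnn n v)
  have hcont : Continuous (fun v : ℝ => gR e A y T ⟨2, v⟩ / riemannZeta ⟨2, v⟩) := by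
    rw [continuous_iff_continuousAt]
    intro v
    have hline : ContinuousAt (fun v : ℝ => (⟨2, v⟩ : ℂ)) v := by
      have : (fun v : ℝ => (⟨2, v⟩ : ℂ)) = fun v : ℝ => ((2 : ℝ) : ℂ) + v * I := by
        funext x; exact mk_eq 2 x
      rw [this]; fun_prop
    have h1 : ContinuousAt (gR e A y T) (⟨2, v⟩ : ℂ) :=
      (gR_diff e A hA hy T _ (by norm_num) (by norm_num)).continuousAt
    have h2 : ContinuousAt riemannZeta (⟨2, v⟩ : ℂ) :=
      (differentiableAt_riemannZeta (by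
        intro h; have := congrArg Complex.re h; norm_num at this)).continuousAt
    have h3 : riemannZeta (⟨2, v⟩ : ℂ) ≠ 0 := riemannZeta_ne_zero_of_one_le_re (by norm_num)
    exact (h1.comp_of_eq hline rfl).div (h2.comp_of_eq hline rfl) h3
  have hgn : ∀ v : ℝ, ‖gR e A y T ⟨2, v⟩‖ ≤ C * Real.exp (-|v - T| / 2) * y ^ (3 / 2 : ℝ) := by
    intro v
    have h1 := norm_gR hC hy T (⟨2, v⟩ : ℂ) (by norm_num) (by norm_num)
    simp only at h1
    norm_num at h1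
    norm_num
    exact h1
  refine ⟨?_, hcont.aestronglyMeasurable, ?_⟩
  · intro v
    rw [div_eq_mul_inv, norm_mul]
    calc ‖gR e A y T ⟨2, v⟩‖ * ‖(riemannZeta (⟨2, v⟩ : ℂ))⁻¹‖ ≤
          (C * Real.exp (-|v - T| / 2) * y ^ (3 / 2 : ℝ)) * Z2 := by
          apply mul_le_mul (hgn v) (hzinv v) (norm_nonneg _) (by positivity)
      _ ≤ C * (Z2 + 1) * y ^ (3 / 2 : ℝ) * Real.exp (-|v - T| / 2) := by
          have : 0 ≤ C * Real.exp (-|v - T| / 2) * y ^ (3 / 2 : ℝ) := by positivity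
          nlinarith
  · -- interchange
    have hterm : ∀ (n : ℕ) (v : ℝ), (ArithmeticFunction.moebius n : ℂ) * (n : ℂ) ^ (-(⟨2, v⟩ : ℂ)) *
        gR e A y T ⟨2, v⟩ = ((ArithmeticFunction.moebius n : ℂ) * (n : ℂ) ^ (-(1 / 2 : ℂ) - (T : ℂ) * I)) *
        (WE e A (((3 / 2 : ℝ) : ℂ) + ((v - T : ℝ) : ℂ) * I) *
          ((y / n : ℝ) : ℂ) ^ (((3 / 2 : ℝ) : ℂ) + ((v - T : ℝ) : ℂ) * I)) := by
      intro n v
      rcases Nat.eq_zero_or_pos n with h0 | hpos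
      · subst h0; simp
      · have hn : (n : ℂ) ≠ 0 := by exact_mod_cast hpos.ne'
        have e1 : (⟨2, v⟩ : ℂ) - 1 / 2 - T * I = ((3 / 2 : ℝ) : ℂ) + ((v - T : ℝ) : ℂ) * I := by
          apply Complex.ext <;> simp
          norm_num
        rw [gR, e1, cpow_div y hy n]
        have e2 : (n : ℂ) ^ (-(⟨2, v⟩ : ℂ)) = (n : ℂ) ^ (-(1 / 2 : ℂ) - (T : ℂ) * I) *
            (n : ℂ) ^ (-(((3 / 2 : ℝ) : ℂ) + ((v - T : ℝ) : ℂ) * I)) := by
          rw [← Complex.cpow_add _ _ hn, ← e1]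
          congr 1
          ring
        rw [e2]
        ring
    have hI : ∀ n : ℕ, Integrable (fun v : ℝ => (ArithmeticFunction.moebius n : ℂ) *
        (n : ℂ) ^ (-(⟨2, v⟩ : ℂ)) * gR e A y T ⟨2, v⟩) ∧
        ∫ v : ℝ, (ArithmeticFunction.moebius n : ℂ) *
        (n : ℂ) ^ (-(⟨2, v⟩ : ℂ)) * gR e A y T ⟨2, v⟩ =
        2 * Real.pi * ((ArithmeticFunction.moebius n : ℂ) * (n : ℂ) ^ (-(1 / 2 : ℂ) - (T : ℂ) * I) *
          (ker e A (y / n) : ℂ)) := by
      intro n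
      rcases Nat.eq_zero_or_pos n with h0 | hpos
      · subst h0; simp
      · have hx : 0 < y / n := by positivity
        obtain ⟨k1, k2⟩ := WE_inv e A hA (y / n) hx (3 / 2) (by rw [abs_le]; constructor <;> norm_num)
        have k1' := k1.comp_sub_right T
        have k2' := integral_sub_right_eq_self (fun τ : ℝ =>
          WE e A (((3 / 2 : ℝ) : ℂ) + (τ : ℂ) * I) *
            ((y / n : ℝ) : ℂ) ^ (((3 / 2 : ℝ) : ℂ) + (τ : ℂ) * I)) T (μ := volume)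
        simp only [hterm n]
        refine ⟨k1'.const_mul _, ?_⟩
        rw [integral_const_mul, k2', k2]
        ring
    have hsn : Summable (fun n : ℕ => ∫ v : ℝ, ‖(ArithmeticFunction.moebius n : ℂ) *
        (n : ℂ) ^ (-(⟨2, v⟩ : ℂ)) * gR e A y T ⟨2, v⟩‖) := by
      apply Summable.of_nonneg_of_le (fun n => integral_nonneg fun v => norm_nonneg _)
        (f := fun n : ℕ => (n : ℝ) ^ (-(2 : ℝ)) * (C * y ^ (3 / 2 : ℝ) * 4)) _ (hsum2.mul_right _)
      intro n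
      calc ∫ v : ℝ, ‖(ArithmeticFunction.moebius n : ℂ) *
            (n : ℂ) ^ (-(⟨2, v⟩ : ℂ)) * gR e A y T ⟨2, v⟩‖ ≤
            ∫ v : ℝ, ((n : ℝ) ^ (-(2 : ℝ)) * (C * y ^ (3 / 2 : ℝ))) * Real.exp (-|v - T| / 2) := by
            apply integral_mono (hI n).1.norm ((exp_half_int T).1.const_mul _)
            intro v
            simp only
            rw [norm_mul]
            calc _ ≤ (n : ℝ) ^ (-(2 : ℝ)) * (C * Real.exp (-|v - T| / 2) * y ^ (3 / 2 : ℝ)) := by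
                  apply mul_le_mul (hnn n v) (hgn v) (norm_nonneg _) (by positivity)
              _ = _ := by ring
        _ = (n : ℝ) ^ (-(2 : ℝ)) * (C * y ^ (3 / 2 : ℝ) * 4) := by
            rw [integral_const_mul, (exp_half_int T).2]; ring
    have h1 := integral_tsum_of_summable_integral_norm (fun n => (hI n).1) hsn
    have h2 : (fun v : ℝ => gR e A y T ⟨2, v⟩ / riemannZeta ⟨2, v⟩) = fun v : ℝ =>
        ∑' n : ℕ, (ArithmeticFunction.moebius n : ℂ) * (n : ℂ) ^ (-(⟨2, v⟩ : ℂ)) *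
          gR e A y T ⟨2, v⟩ := by
      funext v
      rw [tsum_mul_right, ← inv_zeta_tsum (by norm_num), div_eq_mul_inv, mul_comm]
    rw [h2, ← h1, DD, ← tsum_mul_left]
    apply tsum_congr
    intro n
    rw [(hI n).2]


lemma ypow_le {X y r : ℝ} (hX : 1 ≤ X) (h1 : X ^ (-(1 / 2) : ℝ) ≤ y) (h2 : y ≤ X ^ 2)
    (hr1 : -(3 / 2) ≤ r) (hr2 : r ≤ 3 / 2) : y ^ r ≤ X ^ 3 := by
  have hX0 : 0 < X := by linarith
  have hy : 0 < y := lt_of_lt_of_le (Real.rpow_pos_of_pos hX0 _) h1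
  have hX3 : X ^ 3 = X ^ (3 : ℝ) := by norm_cast
  rw [hX3]
  rcases le_or_gt 0 r with h | h
  · calc y ^ r ≤ (X ^ 2) ^ r := Real.rpow_le_rpow hy.le h2 h
      _ = X ^ (2 * r) := by
        rw [show X ^ 2 = X ^ (2 : ℝ) by norm_cast, ← Real.rpow_mul hX0.le]
      _ ≤ X ^ (3 : ℝ) := Real.rpow_le_rpow_of_exponent_le hX (by linarith)
  · calc y ^ r ≤ (X ^ (-(1 / 2) : ℝ)) ^ r :=
          Real.rpow_le_rpow_of_nonpos (Real.rpow_pos_of_pos hX0 _) h1 h.le
      _ = X ^ (-(1 / 2) * r) := by rw [← Real.rpow_mul hX0.le]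
      _ ≤ X ^ (3 : ℝ) := Real.rpow_le_rpow_of_exponent_le hX (by linarith)

lemma ev_EF (C3 : ℝ) : ∃ X0 : ℝ, 10 ≤ X0 ∧ ∀ X : ℝ, X0 ≤ X →
    10 ≤ Real.log X ∧ 2 * ((Real.log X) ^ 2 + 1) ≤ Real.sqrt X ∧
    Real.exp (-((Real.log X) ^ 2 - 1) / 4) * Real.exp (C3 * (Real.log X) ^ (3 / 2 : ℝ)) * X ^ 3 ≤
      X ^ (-(10 : ℝ)) := by
  have e1 : ∀ᶠ X : ℝ in atTop, 10 ≤ Real.log X := Real.tendsto_log_atTop.eventually_ge_atTop 10
  have e2 : ∀ᶠ X : ℝ in atTop, (Real.log X) ^ 2 ≤ (1 / 4) * Real.sqrt X := by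
    have h := (isLittleO_log_rpow_atTop (r := 1 / 4) (by norm_num)).def (c := 1 / 2) (by norm_num)
    filter_upwards [h, e1, eventually_ge_atTop 1] with X hX h1 h2
    rw [Real.norm_of_nonneg (by linarith), Real.norm_of_nonneg (by positivity)] at hX
    have h3 : (Real.log X) ^ 2 ≤ (1 / 2 * X ^ (1 / 4 : ℝ)) ^ 2 :=
      pow_le_pow_left₀ (by linarith) hX 2
    refine h3.trans (le_of_eq ?_)
    rw [mul_pow, ← Real.rpow_natCast (X ^ (1 / 4 : ℝ)) 2, ← Real.rpow_mul (by linarith),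
      Real.sqrt_eq_rpow]
    norm_num
  have e3 : ∀ᶠ X : ℝ in atTop, 4 ≤ Real.sqrt X :=
    Real.tendsto_sqrt_atTop.eventually_ge_atTop 4
  have e4 : ∀ᶠ L : ℝ in atTop, C3 * L ^ (3 / 2 : ℝ) ≤ (1 / 8) * L ^ 2 := by
    filter_upwards [eventually_ge_atTop 1, eventually_ge_atTop ((8 * |C3|) ^ 2)] with L h1 h2
    have hs : 8 * |C3| ≤ L ^ (1 / 2 : ℝ) := by
      rw [← Real.sqrt_eq_rpow]
      exact Real.le_sqrt_of_sq_le h2
    have h3 : L ^ 2 = L ^ (1 / 2 : ℝ) * L ^ (3 / 2 : ℝ) := by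
      rw [← Real.rpow_add (by linarith)]; norm_num
    rw [h3]
    have h4 : 0 ≤ L ^ (3 / 2 : ℝ) := by positivity
    nlinarith [mul_le_mul_of_nonneg_right hs h4, mul_le_mul_of_nonneg_right (le_abs_self C3) h4]
  have e5 : ∀ᶠ L : ℝ in atTop, 13 * L + 1 / 4 ≤ (1 / 8) * L ^ 2 := by
    filter_upwards [eventually_ge_atTop 200] with L hL
    nlinarith
  have e6 := (Real.tendsto_log_atTop.eventually (e4.and e5))
  obtain ⟨X0, hX0⟩ := eventually_atTop.1 (e1.and (e2.and (e3.and e6)))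
  refine ⟨max 10 X0, le_max_left _ _, fun X hX => ?_⟩
  have hX10 : 10 ≤ X := (le_max_left _ _).trans hX
  obtain ⟨h1, h2, h3, h4, h5⟩ := hX0 X ((le_max_right _ _).trans hX)
  refine ⟨h1, by linarith, ?_⟩
  have hX0' : 0 < X := by linarith
  have : X ^ 3 = Real.exp (3 * Real.log X) := by
    rw [show (3 : ℝ) * Real.log X = Real.log (X ^ 3) by rw [Real.log_pow]; norm_num,
      Real.exp_log (by positivity)]
  rw [this, ← Real.exp_add, ← Real.exp_add, Real.rpow_def_of_pos hX0']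
  apply Real.exp_le_exp.2
  linarith

theorem EF (hRH : RiemannHypothesis) (e : Bool) (A : ℕ) (hA : 4 ≤ A) : ∃ C X0 : ℝ, 0 < C ∧ 10 ≤ X0 ∧
    ∀ X : ℝ, X0 ≤ X → ∀ T : ℝ, Real.sqrt X ≤ T → T ≤ X → Spaced X T →
    ∀ y : ℝ, X ^ (-(1 / 2) : ℝ) ≤ y → y ≤ X ^ 2 →
    ‖ZZ e A X y T - DD e A y T‖ ≤ C * ((y * T) ^ (-(3 / 2) : ℝ) + X ^ (-(10 : ℝ))) := by
  obtain ⟨C1, hC1, hWE⟩ := WE_bound e A hA
  obtain ⟨K2, hK2, hR⟩ := right_line e A hA
  obtain ⟨C3, X3, hC3, hX3, hZL⟩ := zeta_lower hRH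
  obtain ⟨C4, hC4, hIL⟩ := inv_zeta_left
  obtain ⟨X5, hX5, hev⟩ := ev_EF C3
  refine ⟨6 * C1 + 8 * K2 + 16 * C1 * C4, max X3 X5, by positivity, le_max_of_le_left hX3, ?_⟩
  intro X hX T hT1 hT2 hSp y hy1 hy2
  obtain ⟨hL10, hLs, hE⟩ := hev X ((le_max_right _ _).trans hX)
  have hXX3 : X3 ≤ X := (le_max_left _ _).trans hX
  have hX10 : 10 ≤ X := hX3.trans hXX3
  have hX0 : 0 < X := by linarith
  set L := Real.log X with hL
  have hsX : Real.sqrt X ≤ X := by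
    rw [Real.sqrt_le_left hX0.le]; nlinarith
  have hy : 0 < y := lt_of_lt_of_le (Real.rpow_pos_of_pos hX0 _) hy1
  have hδ0 : 0 < 1 / (4 * L) := by positivity
  have hδ1 : 1 / (4 * L) ≤ 1 / 10 := by
    apply one_div_le_one_div_of_le (by norm_num); linarith
  obtain ⟨hsimp, hspc⟩ := hSp
  have h8 : 8 * (1 / (4 * L)) = 2 / L := by field_simp; norm_num
  -- cuts
  obtain ⟨d, hd1, hd2, hd3⟩ := cut_point Zo (1 / (4 * L)) (T + L ^ 2) hδ0 hδ1 (by
    intro t ht t' ht' h1 h2 hne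
    rw [h8]
    rw [abs_le] at h1 h2
    exact hspc t ht t' ht' (by rw [abs_le]; constructor <;> nlinarith)
      (by rw [abs_le]; constructor <;> nlinarith) hne)
  obtain ⟨c', hc1, hc2, hc3⟩ := cut_point {t | -t ∈ Zo} (1 / (4 * L)) (-(T - L ^ 2)) hδ0 hδ1 (by
    intro t ht t' ht' h1 h2 hne
    rw [h8]
    rw [abs_le] at h1 h2
    have := hspc (-t) ht (-t') ht' (by rw [abs_le]; constructor <;> nlinarith)
      (by rw [abs_le]; constructor <;> nlinarith) (by simpa using hne)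
    rw [show -t - -t' = -(t - t') by ring, abs_neg] at this
    exact this)
  obtain ⟨c, rfl⟩ : ∃ c, c' = -c := ⟨-c', by ring⟩
  have hc1' : |c - (T - L ^ 2)| ≤ 1 / (4 * L) := by
    rw [show -c - -(T - L ^ 2) = -(c - (T - L ^ 2)) by ring, abs_neg] at hc1; exact hc1
  have hc2' : ∀ t ∈ Zo, 1 / (4 * L) ≤ |t - c| := by
    intro t ht
    have := hc2 (-t) (by simpa using ht)
    rw [show -t - -c = -(t - c) by ring, abs_neg] at this; exact this
  have hc3' : ∀ t ∈ Zo, (T - L ^ 2 ≤ t ↔ c < t) := by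
    intro t ht
    have := hc3 (-t) (by simpa using ht)
    rw [neg_le_neg_iff, neg_lt_neg_iff] at this; exact this
  rw [abs_le] at hd1 hc1'
  have hcT : c ≤ T - (L ^ 2 - 1) := by linarith [hc1'.2]
  have hcT' : T - L ^ 2 - 1 ≤ c := by linarith [hc1'.1]
  have hdT : T + (L ^ 2 - 1) ≤ d := by linarith [hd1.1]
  have hdT' : d ≤ T + L ^ 2 + 1 := by linarith [hd1.2]
  have hW0 : 0 ≤ L ^ 2 - 1 := by nlinarith
  have hTbig : 2 * (L ^ 2 + 1) ≤ T := hLs.trans hT1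
  have hc0 : T / 2 ≤ c := by linarith
  have hcpos : 0 < c := by nlinarith
  have hcd : c < d := by nlinarith
  have hTpos : 0 < T := by nlinarith
  -- zero set
  have hZf : (Zw X T).Finite := Zo_finite _ _
  set Zf : Finset ℂ := hZf.toFinset.image (fun t : ℝ => (1 / 2 : ℂ) + (t : ℂ) * I) with hZfd
  have hinj : Function.Injective (fun t : ℝ => (1 / 2 : ℂ) + (t : ℂ) * I) := by
    intro a b hab
    have := congrArg Complex.im hab
    simpa using this
  have hmemZw : ∀ t ∈ Zo, (t ∈ Zw X T ↔ c < t ∧ t < d) := by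
    intro t ht
    rw [Zw, mem_inter_iff, mem_Icc]
    rw [hc3' t ht, hd3 t ht]
    simp [ht]
  have hzeros : ∀ s ∈ Set.Icc (-1 : ℝ) 2 ×ℂ Set.Icc c d, riemannZeta s = 0 ↔ s ∈ Zf := by
    intro s hs
    obtain ⟨⟨hs1, hs2⟩, hs3, hs4⟩ := hs
    rw [hZfd, Finset.mem_image]
    constructor
    · intro h0
      have hre : s.re = 1 / 2 := by
        apply hRH s h0
        · rintro ⟨n, hn⟩
          have := congrArg Complex.im hn
          simp at this
          linarith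
        · rintro rfl
          simp at hs3
          linarith
      have hs' : s = (1 / 2 : ℂ) + (s.im : ℂ) * I := by
        apply Complex.ext <;> simp [hre]
      have hZo : s.im ∈ Zo := by
        rw [Zo, mem_ofPred_eq, ← hs']; exact h0
      refine ⟨s.im, ?_, hs'.symm⟩
      rw [Set.Finite.mem_toFinset, hmemZw _ hZo]
      constructor
      · refine lt_of_le_of_ne hs3 ?_
        intro h; have := hc2' _ hZo; rw [← h, sub_self, abs_zero] at this; linarith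
      · refine lt_of_le_of_ne hs4 ?_
        intro h; have := hd2 _ hZo; rw [h, sub_self, abs_zero] at this; linarith
    · rintro ⟨t, ht, rfl⟩
      rw [Set.Finite.mem_toFinset] at ht
      exact ht.1
  have hzi : ∀ s ∈ Zf, s ∈ Set.Ioo (-1 : ℝ) 2 ×ℂ Set.Ioo c d ∧ deriv riemannZeta s ≠ 0 := by
    intro s hs
    rw [hZfd, Finset.mem_image] at hs
    obtain ⟨t, ht, rfl⟩ := hs
    rw [Set.Finite.mem_toFinset] at ht
    have ht2 := (hmemZw t ht.1).1 ht
    refine ⟨⟨?_, ?_⟩, ?_⟩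
    · simp; norm_num
    · simpa using ht2
    · apply hsimp t ht.1
      rw [abs_le]; constructor <;> nlinarith [ht2.1, ht2.2]
  set U : Set ℂ := {s : ℂ | -3 < s.re ∧ s.re < 4 ∧ 0 < s.im} with hU
  have hUo : IsOpen U := by
    apply (isOpen_lt continuous_const Complex.continuous_re).inter
    exact (isOpen_lt Complex.continuous_re continuous_const).inter
      (isOpen_lt continuous_const Complex.continuous_im)
  have hKU : Set.Icc (-1 : ℝ) 2 ×ℂ Set.Icc c d ⊆ U := by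
    rintro s ⟨⟨hs1, hs2⟩, hs3, hs4⟩
    exact ⟨by linarith, by linarith, by linarith⟩
  have hFd : DifferentiableOn ℂ riemannZeta U := by
    intro s hs
    refine (differentiableAt_riemannZeta ?_).differentiableWithinAt
    rintro rfl
    simpa using hs.2.2
  have hGd : DifferentiableOn ℂ (gR e A y T) U := fun s hs =>
    (gR_diff e A hA hy T s hs.1 hs.2.1).differentiableWithinAt
  have hres := residue_simple hUo (by norm_num : (-1 : ℝ) < 2) hcd hKU Zf.card riemannZeta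
    (gR e A y T) Zf rfl hFd hGd hzeros hzi
  have hsumZ : ∑ s ∈ Zf, gR e A y T s / deriv riemannZeta s = ZZ e A X y T := by
    rw [hZfd, Finset.sum_image (fun a _ b _ h => hinj h), ZZ, finsum_mem_eq_finite_toFinset_sum _ hZf]
    apply Finset.sum_congr rfl
    intro t ht
    rw [gR, aa, div_eq_mul_inv]
    have : (1 / 2 : ℂ) + (t : ℂ) * I - 1 / 2 - T * I = ((t - T : ℝ) : ℂ) * I := by
      push_cast; ring
    rw [this]
  rw [hsumZ] at hres
  -- horizontal bounds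
  set E := Real.exp (-(L ^ 2 - 1) / 4) * Real.exp (C3 * L ^ (3 / 2 : ℝ)) * X ^ 3 with hEdef
  have hEpos : 0 < E := by positivity
  have hhor : ∀ u : ℝ, (u = c ∨ u = d) →
      ‖∫ x in (-1 : ℝ)..2, gR e A y T ⟨x, u⟩ / riemannZeta ⟨x, u⟩‖ ≤ 3 * (C1 * E) := by
    intro u hu
    have hu1 : L ^ 2 - 1 ≤ |u - T| := by
      rcases hu with rfl | rfl
      · rw [le_abs]; right; linarith
      · rw [le_abs]; left; linarith
    have hu2 : Real.sqrt X / 2 ≤ u := by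
      rcases hu with rfl | rfl
      · linarith
      · linarith
    have hu3 : u ≤ 2 * X := by
      have : L ^ 2 + 1 ≤ X := by linarith
      rcases hu with rfl | rfl
      · linarith
      · linarith
    have hu4 : ∀ t ∈ Zo, 1 / (4 * L) ≤ |t - u| := by
      rcases hu with rfl | rfl
      · exact hc2'
      · exact hd2
    have := intervalIntegral.norm_integral_le_of_norm_le_const (a := (-1 : ℝ)) (b := 2)
      (f := fun x : ℝ => gR e A y T ⟨x, u⟩ / riemannZeta ⟨x, u⟩) (C := C1 * E) (by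
        intro x hx
        rw [uIoc_of_le (by norm_num)] at hx
        have h1 := norm_gR hWE hy T (⟨x, u⟩ : ℂ) hx.1.le hx.2
        simp only at h1
        have h2 := hZL X hXX3 (⟨x, u⟩ : ℂ) hx.1.le hx.2 hu2 hu3 (by
          intro t ht _
          have h3 := Complex.abs_im_le_norm ((⟨x, u⟩ : ℂ) - (1 / 2 + (t : ℂ) * I))
          have h4 : ((⟨x, u⟩ : ℂ) - (1 / 2 + (t : ℂ) * I)).im = u - t := by simp
          rw [h4, abs_sub_comm] at h3
          exact (hu4 t ht).trans h3)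
        rw [norm_div, div_le_iff₀ (lt_of_lt_of_le (Real.exp_pos _) h2)]
        have h5 : y ^ (x - 1 / 2) ≤ X ^ 3 := ypow_le (by linarith) hy1 hy2
          (by linarith [hx.1]) (by linarith [hx.2])
        have h6 : Real.exp (-|u - T| / 2) ≤ Real.exp (-(L ^ 2 - 1) / 4) := by
          apply Real.exp_le_exp.2; linarith
        calc ‖gR e A y T ⟨x, u⟩‖ ≤ C1 * Real.exp (-|u - T| / 2) * y ^ (x - 1 / 2) := h1
          _ ≤ C1 * Real.exp (-(L ^ 2 - 1) / 4) * X ^ 3 := by gcongr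
          _ = C1 * E * Real.exp (-C3 * L ^ (3 / 2 : ℝ)) := by
              rw [hEdef]
              have : Real.exp (C3 * L ^ (3 / 2 : ℝ)) * Real.exp (-C3 * L ^ (3 / 2 : ℝ)) = 1 := by
                rw [← Real.exp_add]; simp
              linear_combination (-(C1 * Real.exp (-(L ^ 2 - 1) / 4) * X ^ 3)) * this
          _ ≤ C1 * E * ‖riemannZeta ⟨x, u⟩‖ := by
              apply mul_le_mul_of_nonneg_left h2 (by positivity))
    refine this.trans (le_of_eq ?_)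
    norm_num
    ring
  -- left line
  have hleft : ‖∫ v in c..d, gR e A y T ⟨-1, v⟩ / riemannZeta ⟨-1, v⟩‖ ≤
      (C1 * C4 * 4 * (y * T) ^ (-(3 / 2) : ℝ)) * 4 := by
    apply int_exp (t := T) hcd.le (by positivity)
    intro v hv
    have h1 := norm_gR hWE hy T (⟨-1, v⟩ : ℂ) le_rfl (by norm_num)
    simp only at h1
    have hv1 : T / 2 ≤ v := hc0.trans hv.1.le
    have hv0 : 1 ≤ v := by nlinarith
    have h2 := hIL v hv0
    have e1 : (⟨-1, v⟩ : ℂ) = -1 + (v : ℂ) * I := by apply Complex.ext <;> simp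
    rw [div_eq_mul_inv, norm_mul]
    rw [← e1] at h2
    have h3 : v ^ (-(3 / 2 : ℝ)) ≤ 4 * T ^ (-(3 / 2 : ℝ)) := by
      calc v ^ (-(3 / 2 : ℝ)) ≤ (T / 2) ^ (-(3 / 2 : ℝ)) :=
            Real.rpow_le_rpow_of_nonpos (by positivity) hv1 (by norm_num)
        _ = (2 : ℝ) ^ (3 / 2 : ℝ) * T ^ (-(3 / 2 : ℝ)) := by
            rw [Real.div_rpow hTpos.le (by norm_num), Real.rpow_neg (by norm_num : (0:ℝ) ≤ 2)]
            field_simp
        _ ≤ 4 * T ^ (-(3 / 2 : ℝ)) := by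
            apply mul_le_mul_of_nonneg_right _ (by positivity)
            calc (2 : ℝ) ^ (3 / 2 : ℝ) ≤ 2 ^ (2 : ℝ) :=
                  Real.rpow_le_rpow_of_exponent_le (by norm_num) (by norm_num)
              _ = 4 := by norm_num
    have h4 : (-1 : ℝ) - 1 / 2 = -(3 / 2) := by norm_num
    rw [h4] at h1
    calc ‖gR e A y T ⟨-1, v⟩‖ * ‖(riemannZeta ⟨-1, v⟩)⁻¹‖ ≤
          (C1 * Real.exp (-|v - T| / 2) * y ^ (-(3 / 2) : ℝ)) * (C4 * (4 * T ^ (-(3 / 2 : ℝ)))) := by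
          apply mul_le_mul h1 (h2.trans (mul_le_mul_of_nonneg_left h3 hC4.le)) (norm_nonneg _)
            (by positivity)
      _ = C1 * C4 * 4 * (y * T) ^ (-(3 / 2) : ℝ) * Real.exp (-|v - T| / 2) := by
          rw [Real.mul_rpow hy.le hTpos.le]; ring
  -- right line
  obtain ⟨hr1, hr2, hr3⟩ := hR y hy T
  have htail := tail_exp hr2 (by positivity) hr1 hW0 hcT hdT (U1 := c) (U2 := d)
  rw [hr3] at htail
  have hy32 : y ^ (3 / 2 : ℝ) ≤ X ^ 3 := ypow_le (by linarith) hy1 hy2 (by norm_num) (by norm_num)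
  have htail2 : 8 * (K2 * y ^ (3 / 2 : ℝ)) * Real.exp (-(L ^ 2 - 1) / 4) ≤ 8 * K2 * E := by
    have h1 : (1 : ℝ) ≤ Real.exp (C3 * L ^ (3 / 2 : ℝ)) := Real.one_le_exp (by positivity)
    calc 8 * (K2 * y ^ (3 / 2 : ℝ)) * Real.exp (-(L ^ 2 - 1) / 4) ≤
          8 * (K2 * X ^ 3) * Real.exp (-(L ^ 2 - 1) / 4) * Real.exp (C3 * L ^ (3 / 2 : ℝ)) := by
          have : 8 * (K2 * y ^ (3 / 2 : ℝ)) * Real.exp (-(L ^ 2 - 1) / 4) ≤
            8 * (K2 * X ^ 3) * Real.exp (-(L ^ 2 - 1) / 4) := by gcongr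
          refine this.trans (le_mul_of_one_le_right (by positivity) h1)
      _ = 8 * K2 * E := by rw [hEdef]; ring
  -- combine
  have hRI : RI (-1) 2 c d (fun s => gR e A y T s / riemannZeta s) =
      (∫ x in (-1 : ℝ)..2, gR e A y T ⟨x, c⟩ / riemannZeta ⟨x, c⟩)
      - (∫ x in (-1 : ℝ)..2, gR e A y T ⟨x, d⟩ / riemannZeta ⟨x, d⟩)
      + I * (∫ v in c..d, gR e A y T ⟨2, v⟩ / riemannZeta ⟨2, v⟩)
      - I * (∫ v in c..d, gR e A y T ⟨-1, v⟩ / riemannZeta ⟨-1, v⟩) := rfl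
  rw [hRI] at hres
  have hc' := hhor c (Or.inl rfl)
  have hd' := hhor d (Or.inr rfl)
  set h1 := ∫ x in (-1 : ℝ)..2, gR e A y T ⟨x, c⟩ / riemannZeta ⟨x, c⟩
  set h2 := ∫ x in (-1 : ℝ)..2, gR e A y T ⟨x, d⟩ / riemannZeta ⟨x, d⟩
  set r := ∫ v in c..d, gR e A y T ⟨2, v⟩ / riemannZeta ⟨2, v⟩
  set l := ∫ v in c..d, gR e A y T ⟨-1, v⟩ / riemannZeta ⟨-1, v⟩
  have hkey : 2 * Real.pi * (ZZ e A X y T - DD e A y T) =
      -I * (h1 - h2) - (2 * Real.pi * DD e A y T - r) - l := by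
    have hI : I * I = -1 := Complex.I_mul_I
    linear_combination (I * hres) - (r - l - 2 * Real.pi * ZZ e A X y T) * hI
  have hnorm : ‖(2 * Real.pi : ℂ) * (ZZ e A X y T - DD e A y T)‖ ≤
      (‖h1‖ + ‖h2‖) + 8 * K2 * E + (C1 * C4 * 4 * (y * T) ^ (-(3 / 2) : ℝ)) * 4 := by
    rw [hkey]
    refine (norm_sub_le _ _).trans (add_le_add ((norm_sub_le _ _).trans (add_le_add ?_ ?_)) hleft)
    · rw [norm_mul, norm_neg, Complex.norm_I, one_mul]
      exact norm_sub_le _ _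
    · exact htail.trans htail2
  rw [norm_mul] at hnorm
  have h2pi : ‖(2 * Real.pi : ℂ)‖ = 2 * Real.pi := by
    rw [norm_mul, Complex.norm_real, Real.norm_of_nonneg Real.pi_pos.le]; simp
  rw [h2pi] at hnorm
  have h1le : ‖ZZ e A X y T - DD e A y T‖ ≤ 2 * Real.pi * ‖ZZ e A X y T - DD e A y T‖ := by
    have := Real.pi_gt_three
    nlinarith [norm_nonneg (ZZ e A X y T - DD e A y T)]
  have hp1 : 0 ≤ (y * T) ^ (-(3 / 2) : ℝ) := by positivity
  have hp2 : 0 ≤ X ^ (-(10 : ℝ)) := by positivity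
  calc ‖ZZ e A X y T - DD e A y T‖ ≤ (3 * (C1 * E) + 3 * (C1 * E)) + 8 * K2 * E +
        (C1 * C4 * 4 * (y * T) ^ (-(3 / 2) : ℝ)) * 4 := by linarith
    _ = (6 * C1 + 8 * K2) * E + 16 * C1 * C4 * (y * T) ^ (-(3 / 2) : ℝ) := by ring
    _ ≤ (6 * C1 + 8 * K2) * X ^ (-(10 : ℝ)) + 16 * C1 * C4 * (y * T) ^ (-(3 / 2) : ℝ) := by
        gcongr
    _ ≤ _ := by
        have : 0 ≤ C1 * C4 := by positivity
        nlinarith [mul_nonneg hC1.le hp1, mul_nonneg hK2.le hp1, mul_nonneg this hp2]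

end H345
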