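import Pool.Agent.H345R2.Defs

open Complex Filter Topology Set MeasureTheory

namespace H345

namespace MV

lemma base_le_one (x : ℝ) : x * Real.exp (1 - x) ≤ 1 := by
  have h := Real.add_one_le_exp (x - 1)
  have h1 : x ≤ Real.exp (x - 1) := by linarith
  calc x * Real.exp (1 - x) ≤ Real.exp (x-1) * Real.exp (1-x) := by gcongr
    _ = 1 := by rw [← Real.exp_add]; simp

lemma kap_nonneg (A : ℕ) {x : ℝ} (hx : 0 ≤ x) : 0 ≤ kap A x := by
  unfold kap; positivity

lemma kap_le_four {A : ℕ} (hA : 4 ≤ A) {x : ℝ} (hx : 0 ≤ x) : kap A x ≤ (x * Real.exp (1 - x)) ^ 4 := by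
  unfold kap
  exact pow_le_pow_of_le_one (by positivity) (base_le_one x) hA

lemma kap_le_one {A : ℕ} {x : ℝ} (hx : 0 ≤ x) : kap A x ≤ 1 := by
  unfold kap
  exact pow_le_one₀ (by positivity) (base_le_one x)

lemma kap_small {A : ℕ} (hA : 4 ≤ A) {x : ℝ} (hx : 0 ≤ x) : kap A x ≤ Real.exp 4 * x ^ 4 := by
  refine (kap_le_four hA hx).trans ?_
  rw [mul_pow, ← Real.exp_nat_mul, mul_comm]
  gcongr
  push_cast; linarith

lemma kap_large {A : ℕ} (hA : 4 ≤ A) {x : ℝ} (hx : 0 < x) : kap A x ≤ Real.exp 4 * (x⁻¹) ^ 4 := by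
  refine (kap_le_four hA hx.le).trans ?_
  rw [mul_pow, ← Real.exp_nat_mul]
  have h := Real.pow_div_factorial_le_exp (4 * x) (by positivity) 8
  have h8 : ((Nat.factorial 8 : ℕ) : ℝ) = 40320 := by norm_num [Nat.factorial]
  rw [h8] at h
  have e1 : Real.exp ((4:ℕ) * (1 - x)) = Real.exp 4 / Real.exp (4 * x) := by
    rw [← Real.exp_sub]; congr 1; push_cast; ring
  rw [e1, inv_pow, mul_div_assoc', div_le_iff₀ (Real.exp_pos _)]
  have h2 : x ^ 8 ≤ Real.exp (4 * x) := by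
    refine le_trans ?_ h
    rw [mul_pow]
    have : (0:ℝ) ≤ x ^ 8 := by positivity
    norm_num
    linarith
  have h3 : x ^ 4 * Real.exp 4 = Real.exp 4 * (x^4)⁻¹ * x ^ 8 := by
    field_simp
  rw [h3]
  gcongr

lemma ker_nonneg (e : Bool) (A : ℕ) {x : ℝ} (hx : 0 ≤ x) : 0 ≤ ker e A x := by
  unfold ker; cases e
  · simp; exact kap_nonneg A (by positivity)
  · simp; exact kap_nonneg A hx

lemma ker_le_one (e : Bool) (A : ℕ) {x : ℝ} (hx : 0 ≤ x) : ker e A x ≤ 1 := by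
  unfold ker; cases e
  · simp; exact kap_le_one (by positivity)
  · simp; exact kap_le_one hx

lemma ker_small (e : Bool) {A : ℕ} (hA : 4 ≤ A) {x : ℝ} (hx : 0 < x) : ker e A x ≤ Real.exp 4 * x ^ 4 := by
  unfold ker; cases e
  · simp only [Bool.false_eq_true, if_false]
    have := kap_large hA (x := x⁻¹) (by positivity)
    simpa using this
  · simp only [if_true]; exact kap_small hA hx.le

lemma ker_large (e : Bool) {A : ℕ} (hA : 4 ≤ A) {x : ℝ} (hx : 0 < x) : ker e A x ≤ Real.exp 4 * (x⁻¹) ^ 4 := by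
  unfold ker; cases e
  · simp only [Bool.false_eq_true, if_false]
    exact kap_small hA (by positivity)
  · simp only [if_true]; exact kap_large hA hx

/-- coefficients -/
noncomputable def co (e : Bool) (A : ℕ) (y : ℝ) (n : ℕ) : ℝ :=
  (ArithmeticFunction.moebius n : ℝ) * ((n : ℝ) ^ (-(1/2) : ℝ)) * ker e A (y / n)

/-- term -/
noncomputable def tm (l T : ℝ) : ℂ := cexp (((-(T * l) : ℝ) : ℂ) * I)

lemma norm_tm (l T : ℝ) : ‖tm l T‖ = 1 := by
  unfold tm; exact Complex.norm_exp_ofReal_mul_I _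

lemma term_eq (e : Bool) (A : ℕ) (y T : ℝ) (n : ℕ) :
    (ArithmeticFunction.moebius n : ℂ) * (n : ℂ) ^ (-(1 / 2 : ℂ) - (T : ℂ) * I) *
    (ker e A (y / n) : ℂ) = (co e A y n : ℂ) * tm (Real.log n) T := by
  rcases Nat.eq_zero_or_pos n with rfl | hn
  · simp [co]
  · have hn' : (n : ℂ) ≠ 0 := by exact_mod_cast hn.ne'
    unfold co tm
    rw [Complex.cpow_sub _ _ hn', div_eq_mul_inv, ← Complex.cpow_neg]
    have h1 : (n : ℂ) ^ (-(T * I)) = cexp (((-(T * Real.log n) : ℝ) : ℂ) * I) := by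
      rw [Complex.cpow_def_of_ne_zero hn']
      congr 1
      rw [← Complex.natCast_log]
      push_cast; ring
    have h2 : (n : ℂ) ^ (-(1/2) : ℂ) = (((n : ℝ) ^ (-(1/2) : ℝ) : ℝ) : ℂ) := by
      rw [Complex.ofReal_cpow (by positivity)]
      push_cast; rfl
    rw [h1, h2]
    push_cast
    ring

lemma DD_eq (e : Bool) (A : ℕ) (y T : ℝ) :
    DD e A y T = ∑' n : ℕ, (co e A y n : ℂ) * tm (Real.log n) T := by
  unfold DD
  exact tsum_congr (fun n => term_eq e A y T n)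

lemma tail_sum (N : ℕ) (hN : 1 ≤ N) (M : ℕ) :
    ∑ n ∈ Finset.range M, (if n ≤ N then (0:ℝ) else (N:ℝ)^2 / (n:ℝ)^2) ≤ N := by
  have key : ∀ M : ℕ, ∑ n ∈ Finset.range (N + 1 + M), (if n ≤ N then (0:ℝ) else (N:ℝ)^2 / (n:ℝ)^2)
      ≤ N - (N:ℝ)^2 / ((N:ℝ) + M) := by
    intro M
    induction M with
    | zero =>
      have : ∑ n ∈ Finset.range (N + 1 + 0), (if n ≤ N then (0:ℝ) else (N:ℝ)^2 / (n:ℝ)^2) = 0 := by
        apply Finset.sum_eq_zero
        intro n hn
        have : n ≤ N := by simp at hn; omega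
        simp [this]
      rw [this]
      have hN' : (N:ℝ) ≠ 0 := by positivity
      simp only [Nat.cast_zero, add_zero]
      have : (N:ℝ)^2 / N = N := by field_simp
      rw [this]; simp
    | succ M ih =>
      rw [← add_assoc, Finset.sum_range_succ]
      have h1 : ¬ (N + 1 + M ≤ N) := by omega
      rw [if_neg h1]
      have hN' : (1:ℝ) ≤ N := by exact_mod_cast hN
      have hM' : (0:ℝ) ≤ M := by positivity
      have h2 : (N:ℝ)^2 / ((N + 1 + M : ℕ):ℝ)^2 ≤ (N:ℝ)^2 / ((N:ℝ) + M) - (N:ℝ)^2 / ((N:ℝ) + (M+1 : ℕ)) := by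
        push_cast
        have e : (N:ℝ)^2 / ((N:ℝ) + M) - (N:ℝ)^2 / ((N:ℝ) + (M+1)) = (N:ℝ)^2 / (((N:ℝ) + M) * ((N:ℝ) + (M+1))) := by
          have a1 : (N:ℝ) + M ≠ 0 := by positivity
          have a2 : (N:ℝ) + (M+1) ≠ 0 := by positivity
          field_simp; ring
        rw [e]
        apply div_le_div_of_nonneg_left (by positivity) (by positivity)
        nlinarith
      linarith
  have h0 : ∀ n, 0 ≤ (if n ≤ N then (0:ℝ) else (N:ℝ)^2 / (n:ℝ)^2) := by
    intro n; split_ifs <;> positivity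
  calc ∑ n ∈ Finset.range M, (if n ≤ N then (0:ℝ) else (N:ℝ)^2 / (n:ℝ)^2)
      ≤ ∑ n ∈ Finset.range (N + 1 + M), (if n ≤ N then (0:ℝ) else (N:ℝ)^2 / (n:ℝ)^2) := by
        apply Finset.sum_le_sum_of_subset_of_nonneg
        · intro n; simp; omega
        · intro n _ _; exact h0 n
    _ ≤ N - (N:ℝ)^2 / ((N:ℝ) + M) := key M
    _ ≤ N := by
        have : 0 ≤ (N:ℝ)^2 / ((N:ℝ) + M) := by positivity
        linarith

lemma sum_bound (f : ℕ → ℝ) (N : ℕ) (hN : 1 ≤ N) (H c : ℝ) (hc : 0 ≤ c) (hf0 : ∀ n, 0 ≤ f n)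
    (hhead : ∑ n ∈ Finset.range (N+1), f n ≤ H)
    (htail : ∀ n, N < n → f n ≤ c * ((N:ℝ)^2 / (n:ℝ)^2)) :
    Summable f ∧ ∑' n, f n ≤ H + c * N := by
  have key : ∀ M : ℕ, ∑ n ∈ Finset.range M, f n ≤ H + c * N := by
    intro M
    have h1 : ∀ n, f n ≤ (if n ≤ N then f n else 0) + c * (if n ≤ N then (0:ℝ) else (N:ℝ)^2 / (n:ℝ)^2) := by
      intro n
      by_cases h : n ≤ N
      · simp [h]
      · simp [h]; exact htail n (by omega)
    calc ∑ n ∈ Finset.range M, f n ≤ ∑ n ∈ Finset.range M, ((if n ≤ N then f n else 0) +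
          c * (if n ≤ N then (0:ℝ) else (N:ℝ)^2 / (n:ℝ)^2)) := Finset.sum_le_sum (fun n _ => h1 n)
      _ = ∑ n ∈ Finset.range M, (if n ≤ N then f n else 0) +
          c * ∑ n ∈ Finset.range M, (if n ≤ N then (0:ℝ) else (N:ℝ)^2 / (n:ℝ)^2) := by
          rw [Finset.sum_add_distrib, Finset.mul_sum]
      _ ≤ H + c * N := by
          gcongr
          · rw [← Finset.sum_filter]
            refine le_trans (Finset.sum_le_sum_of_subset_of_nonneg ?_ (fun n _ _ => hf0 n)) hhead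
            intro n; simp
          · exact tail_sum N hN M
  exact ⟨summable_of_sum_range_le hf0 key, Real.tsum_le_of_sum_range_le hf0 key⟩

lemma head_sqrt (M : ℕ) : ∑ n ∈ Finset.range (M+1), (Real.sqrt n)⁻¹ ≤ 2 * Real.sqrt M := by
  induction M with
  | zero => simp
  | succ M ih =>
    rw [Finset.sum_range_succ]
    have h1 : (Real.sqrt ((M+1 : ℕ) : ℝ))⁻¹ ≤ 2 * (Real.sqrt ((M+1 : ℕ) : ℝ) - Real.sqrt M) := by
      have hs : 0 < Real.sqrt ((M+1 : ℕ) : ℝ) := Real.sqrt_pos.mpr (by positivity)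
      have hs2 : Real.sqrt (M : ℝ) ≤ Real.sqrt ((M+1 : ℕ) : ℝ) := Real.sqrt_le_sqrt (by push_cast; linarith)
      have e1 : Real.sqrt ((M+1 : ℕ) : ℝ) * Real.sqrt ((M+1 : ℕ) : ℝ) = M + 1 := by
        rw [Real.mul_self_sqrt (by positivity)]; push_cast; ring
      have e2 : Real.sqrt (M : ℝ) * Real.sqrt (M : ℝ) = M := Real.mul_self_sqrt (by positivity)
      rw [inv_le_iff_one_le_mul₀ hs]
      nlinarith [Real.sqrt_nonneg (M:ℝ)]
    linarith

/-- the key oscillatory integral -/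
lemma osc (l X : ℝ) (hl : l ≠ 0) : ‖∫ T in (0:ℝ)..X, tm l T‖ ≤ 2 / |l| := by
  have hc : (-(l:ℂ) * I) ≠ 0 := by
    simp [hl]
  have h : ∫ T in (0:ℝ)..X, tm l T = (cexp ((-(l:ℂ) * I) * X) - cexp ((-(l:ℂ) * I) * (0:ℝ))) / (-(l:ℂ) * I) := by
    rw [← integral_exp_mul_complex hc]
    apply intervalIntegral.integral_congr
    intro T _
    unfold tm
    simp only
    congr 1
    push_cast; ring
  rw [h, norm_div]
  have h2 : ‖-(l:ℂ) * I‖ = |l| := by simp
  rw [h2]
  have hp : 0 < |l| := abs_pos.mpr hl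
  gcongr
  refine (norm_sub_le _ _).trans ?_
  have e1 : ‖cexp ((-(l:ℂ) * I) * X)‖ = 1 := by
    have : (-(l:ℂ) * I) * X = ((-(l * X) : ℝ) : ℂ) * I := by push_cast; ring
    rw [this, Complex.norm_exp_ofReal_mul_I]
  have e2 : ‖cexp ((-(l:ℂ) * I) * (0:ℝ))‖ = 1 := by simp
  rw [e1, e2]; norm_num

lemma log_sub (m n : ℕ) (hm : 1 ≤ m) (hn : 1 ≤ n) (hmn : m ≠ n) :
    2 / |Real.log m - Real.log n| ≤ 2 * ((m:ℝ) + n) := by
  wlog h : m < n generalizing m n
  · have := this n m hn hm hmn.symm (by omega)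
    rw [abs_sub_comm, add_comm]; exact this
  have hm' : (0:ℝ) < m := by exact_mod_cast hm
  have hn' : (0:ℝ) < n := by exact_mod_cast hn
  have hmn' : (m:ℝ) + 1 ≤ n := by exact_mod_cast h
  have h1 : 1 / (n:ℝ) ≤ Real.log n - Real.log m := by
    rw [← Real.log_div hn'.ne' hm'.ne']
    have := Real.one_sub_inv_le_log_of_pos (x := (n:ℝ)/m) (by positivity)
    refine le_trans ?_ this
    rw [inv_div, ← div_self hn'.ne', ← sub_div, div_self hn'.ne']
    gcongr; linarith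
  have h2 : |Real.log m - Real.log n| = Real.log n - Real.log m := by
    rw [abs_sub_comm, abs_of_nonneg]
    refine le_trans ?_ h1
    positivity
  rw [h2]
  have h3 : 2 / (Real.log n - Real.log m) ≤ 2 / (1 / (n:ℝ)) := by gcongr
  refine h3.trans ?_
  rw [div_div_eq_mul_div, div_one]
  nlinarith


theorem mv (a : ℕ → ℝ) (ha0 : a 0 = 0) (h1 : Summable fun n : ℕ => (n:ℝ) * |a n|)
    (h0 : Summable fun n : ℕ => |a n|) (h2 : Summable fun n : ℕ => (a n)^2) (X : ℝ) (hX : 0 ≤ X) :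
    ∫ T in (0:ℝ)..X, ‖∑' n : ℕ, (a n : ℂ) * tm (Real.log n) T‖ ^ 2 ≤
      X * (∑' n : ℕ, (a n)^2) + 4 * ((∑' n : ℕ, (n:ℝ) * |a n|) * ∑' n : ℕ, |a n|) := by
  have hnorm : ∀ n T, ‖(a n : ℂ) * tm (Real.log n) T‖ = |a n| := by
    intro n T; rw [norm_mul, norm_tm]; simp
  -- the terms
  let F : ℕ × ℕ → C(ℝ, ℂ) := fun p => ⟨fun T => ((a p.1 * a p.2 : ℝ) : ℂ) * tm (Real.log p.1 - Real.log p.2) T, by
    unfold tm; fun_prop⟩
  have hF : ∀ p T, F p T = ((a p.1 * a p.2 : ℝ) : ℂ) * tm (Real.log p.1 - Real.log p.2) T := fun p T => rfl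
  have hFn : ∀ p T, ‖F p T‖ = |a p.1| * |a p.2| := by
    intro p T; rw [hF, norm_mul, norm_tm]; simp
  have hsum2 : Summable fun p : ℕ × ℕ => |a p.1| * |a p.2| :=
    h0.mul_of_nonneg h0 (fun n => abs_nonneg _) (fun n => abs_nonneg _)
  have hsq : ∀ T, ((‖∑' n : ℕ, (a n : ℂ) * tm (Real.log n) T‖ ^ 2 : ℝ) : ℂ) = ∑' p : ℕ × ℕ, F p T := by
    intro T
    have e1 : ((‖∑' n : ℕ, (a n : ℂ) * tm (Real.log n) T‖ ^ 2 : ℝ) : ℂ) =
        (∑' n : ℕ, (a n : ℂ) * tm (Real.log n) T) * (starRingEnd ℂ) (∑' n : ℕ, (a n : ℂ) * tm (Real.log n) T) := by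
      rw [Complex.mul_conj, Complex.normSq_eq_norm_sq]
    rw [e1, Complex.conj_tsum, tsum_mul_tsum_of_summable_norm]
    · apply tsum_congr
      intro p
      rw [hF]
      rw [map_mul, Complex.conj_ofReal]
      have : (starRingEnd ℂ) (tm (Real.log p.2) T) = cexp (((T * Real.log p.2 : ℝ) : ℂ) * I) := by
        unfold tm
        rw [← Complex.exp_conj]
        congr 1
        rw [map_mul, Complex.conj_I, Complex.conj_ofReal]
        push_cast; ring
      rw [this]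
      unfold tm
      rw [show (((-(T * (Real.log p.1 - Real.log p.2)) : ℝ) : ℂ) * I) = (((-(T * Real.log p.1) : ℝ) : ℂ) * I) + (((T * Real.log p.2 : ℝ) : ℂ) * I) by push_cast; ring, Complex.exp_add]
      push_cast; ring
    · simp only [hnorm]; exact h0
    · simp only [RCLike.norm_conj, hnorm]; exact h0
  have hint : ((∫ T in (0:ℝ)..X, ‖∑' n : ℕ, (a n : ℂ) * tm (Real.log n) T‖ ^ 2 : ℝ) : ℂ) =
      ∑' p : ℕ × ℕ, ∫ T in (0:ℝ)..X, F p T := by
    rw [intervalIntegral.tsum_intervalIntegral_eq_of_summable_norm]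
    · rw [← intervalIntegral.integral_ofReal]
      apply intervalIntegral.integral_congr
      intro T _
      exact hsq T
    · refine Summable.of_nonneg_of_le (fun p => norm_nonneg _) (fun p => ?_) hsum2
      rw [ContinuousMap.norm_le _ (by positivity)]
      intro x
      simp only [ContinuousMap.restrict_apply]
      rw [hFn]
  -- bound for each term
  let w1 : ℕ × ℕ → ℝ := fun p => if p.1 = p.2 then X * (a p.1)^2 else 0
  let w2 : ℕ × ℕ → ℝ := fun p => (p.1 * |a p.1|) * |a p.2|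
  let w3 : ℕ × ℕ → ℝ := fun p => |a p.1| * (p.2 * |a p.2|)
  have hb : ∀ p, ‖∫ T in (0:ℝ)..X, F p T‖ ≤ w1 p + 2 * (w2 p + w3 p) := by
    rintro ⟨m, n⟩
    by_cases hmn : m = n
    · subst hmn
      have hw2 : 0 ≤ w2 (m, m) := by simp only [w2]; positivity
      have hw3 : 0 ≤ w3 (m, m) := by simp only [w3]; positivity
      have : ‖∫ T in (0:ℝ)..X, F (m, m) T‖ ≤ X * (a m)^2 := by
        have := intervalIntegral.norm_integral_le_of_norm_le_const (a := 0) (b := X) (C := (a m)^2) (f := fun T => F (m,m) T)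
          (fun T _ => by rw [hFn]; simp only [abs_mul_abs_self]; rw [sq])
        refine this.trans ?_
        rw [sub_zero, abs_of_nonneg hX, mul_comm]
      have hw1 : w1 (m, m) = X * (a m)^2 := by simp [w1]
      rw [hw1]; linarith
    · have hw1 : w1 (m, n) = 0 := by simp [w1, hmn]
      rw [hw1, zero_add]
      rcases Nat.eq_zero_or_pos m with rfl | hm
      · have : ∀ T, F (0, n) T = 0 := by intro T; rw [hF]; simp [ha0]
        simp only [this]; simp; simp only [w2, w3]; positivity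
      rcases Nat.eq_zero_or_pos n with rfl | hn
      · have : ∀ T, F (m, 0) T = 0 := by intro T; rw [hF]; simp [ha0]
        simp only [this]; simp; simp only [w2, w3]; positivity
      have hl : Real.log m - Real.log n ≠ 0 := by
        intro h
        apply hmn
        have : Real.log m = Real.log n := by linarith
        have := Real.log_injOn_pos (by simp; exact_mod_cast hm) (by simp; exact_mod_cast hn) this
        exact_mod_cast this
      have e : ∫ T in (0:ℝ)..X, F (m, n) T = ((a m * a n : ℝ) : ℂ) * ∫ T in (0:ℝ)..X, tm (Real.log m - Real.log n) T := by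
        rw [← intervalIntegral.integral_const_mul]
        apply intervalIntegral.integral_congr
        intro T _
        simp only [hF]
      rw [e, norm_mul]
      have h3 := (osc (Real.log m - Real.log n) X hl).trans (log_sub m n hm hn hmn)
      have h4 : ‖((a m * a n : ℝ) : ℂ)‖ = |a m| * |a n| := by
        rw [Complex.norm_real, Real.norm_eq_abs, abs_mul]
      rw [h4]
      calc |a m| * |a n| * ‖∫ T in (0:ℝ)..X, tm (Real.log m - Real.log n) T‖ ≤ |a m| * |a n| * (2 * ((m:ℝ) + n)) := by gcongr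
        _ = 2 * (w2 (m, n) + w3 (m, n)) := by simp only [w2, w3]; ring
  have hs2 : Summable w2 := h1.mul_of_nonneg h0 (fun n => by positivity) (fun n => abs_nonneg _)
  have hs3 : Summable w3 := h0.mul_of_nonneg h1 (fun n => abs_nonneg _) (fun n => by positivity)
  have hinj : Function.Injective (fun n : ℕ => (n, n)) := fun a b h => by simpa using h
  have hsupp : Function.support w1 ⊆ Set.range (fun n : ℕ => (n, n)) := by
    rintro ⟨m, n⟩ h
    simp only [w1, Function.mem_support, ne_eq, ite_eq_right_iff, Classical.not_imp] at h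
    exact ⟨m, by simp [h.1]⟩
  have hs1 : Summable w1 := by
    rw [← hinj.summable_iff (f := w1)]
    · have : (w1 ∘ fun n : ℕ => (n, n)) = fun n => X * (a n)^2 := by ext n; simp [w1]
      rw [this]; exact h2.mul_left X
    · intro p hp
      by_contra h
      exact hp (hsupp h)
  have ht1 : ∑' p, w1 p = X * ∑' n, (a n)^2 := by
    rw [← hinj.tsum_eq hsupp, ← tsum_mul_left]
    apply tsum_congr; intro n; simp [w1]
  have ht2 : ∑' p, w2 p = (∑' n : ℕ, (n:ℝ) * |a n|) * ∑' n : ℕ, |a n| := by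
    rw [h1.tsum_mul_tsum h0 hs2]
  have ht3 : ∑' p, w3 p = (∑' n : ℕ, (n:ℝ) * |a n|) * ∑' n : ℕ, |a n| := by
    rw [mul_comm, h0.tsum_mul_tsum h1 hs3]
  have hnn : 0 ≤ ∫ T in (0:ℝ)..X, ‖∑' n : ℕ, (a n : ℂ) * tm (Real.log n) T‖ ^ 2 :=
    intervalIntegral.integral_nonneg hX (fun T _ => by positivity)
  have hS : Summable fun p => w1 p + 2 * (w2 p + w3 p) := hs1.add ((hs2.add hs3).mul_left 2)
  calc ∫ T in (0:ℝ)..X, ‖∑' n : ℕ, (a n : ℂ) * tm (Real.log n) T‖ ^ 2
      = ‖((∫ T in (0:ℝ)..X, ‖∑' n : ℕ, (a n : ℂ) * tm (Real.log n) T‖ ^ 2 : ℝ) : ℂ)‖ := by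
        rw [Complex.norm_real, Real.norm_eq_abs, abs_of_nonneg hnn]
    _ = ‖∑' p : ℕ × ℕ, ∫ T in (0:ℝ)..X, F p T‖ := by rw [hint]
    _ ≤ ∑' p : ℕ × ℕ, ‖∫ T in (0:ℝ)..X, F p T‖ :=
        norm_tsum_le_tsum_norm (Summable.of_nonneg_of_le (fun p => norm_nonneg _) hb hS)
    _ ≤ ∑' p, (w1 p + 2 * (w2 p + w3 p)) :=
        (Summable.of_nonneg_of_le (fun p => norm_nonneg _) hb hS).tsum_le_tsum hb hS
    _ = X * (∑' n : ℕ, (a n)^2) + 4 * ((∑' n : ℕ, (n:ℝ) * |a n|) * ∑' n : ℕ, |a n|) := by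
        rw [hs1.tsum_add ((hs2.add hs3).mul_left 2), tsum_mul_left, hs2.tsum_add hs3, ht1, ht2, ht3]
        ring


/-- basic bounds of the coefficients -/
lemma co_zero (e : Bool) (A : ℕ) (y : ℝ) : co e A y 0 = 0 := by simp [co]

lemma abs_co (e : Bool) (A : ℕ) {y : ℝ} (hy : 0 < y) (n : ℕ) :
    |co e A y n| ≤ (Real.sqrt n)⁻¹ * ker e A (y / n) := by
  unfold co
  have h1 : |((ArithmeticFunction.moebius n : ℤ) : ℝ)| ≤ 1 := by
    have := ArithmeticFunction.abs_moebius_le_one (n := n)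
    exact_mod_cast this
  have h2 : ((n : ℝ) ^ (-(1/2) : ℝ)) = (Real.sqrt n)⁻¹ := by
    rw [Real.rpow_neg (by positivity), Real.sqrt_eq_rpow]
  have h3 : 0 ≤ ker e A (y / n) := ker_nonneg e A (by positivity)
  rw [abs_mul, abs_mul, h2, abs_of_nonneg h3, abs_of_nonneg (by positivity : 0 ≤ (Real.sqrt n)⁻¹)]
  have h4 : 0 ≤ (Real.sqrt n)⁻¹ := by positivity
  calc |((ArithmeticFunction.moebius n : ℤ) : ℝ)| * (Real.sqrt n)⁻¹ * ker e A (y / n)
      ≤ 1 * (Real.sqrt n)⁻¹ * ker e A (y / n) := by gcongr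
    _ = _ := by ring

/-- tail bound of the kernel -/
lemma ker_tail (e : Bool) {A : ℕ} (hA : 4 ≤ A) {y : ℝ} (hy : 0 < y) {N : ℕ} (hyN : y ≤ N) {n : ℕ}
    (hn : N < n) : ker e A (y / n) ≤ Real.exp 4 * ((N:ℝ)^2 / (n:ℝ)^2) := by
  have hn0 : (0:ℝ) < n := by exact_mod_cast (by omega : 0 < n)
  refine (ker_small e hA (by positivity)).trans ?_
  have hNn : (N:ℝ)/n ≤ 1 := by
    rw [div_le_one hn0]; exact_mod_cast hn.le
  gcongr
  calc (y / n)^4 ≤ ((N:ℝ)/n)^4 := by gcongr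
    _ ≤ ((N:ℝ)/n)^2 := pow_le_pow_of_le_one (by positivity) hNn (by norm_num)
    _ = (N:ℝ)^2/(n:ℝ)^2 := by rw [div_pow]

/-- stronger tail bound -/
lemma ker_tail' (e : Bool) {A : ℕ} (hA : 4 ≤ A) {y : ℝ} (hy : 0 < y) {N : ℕ} (hyN : y ≤ N) {n : ℕ}
    (hn : N < n) : ker e A (y / n) ≤ Real.exp 4 * ((N:ℝ)/(n:ℝ)) * ((N:ℝ)^2 / (n:ℝ)^2) := by
  have hn0 : (0:ℝ) < n := by exact_mod_cast (by omega : 0 < n)
  refine (ker_small e hA (by positivity)).trans ?_
  have hNn : (N:ℝ)/n ≤ 1 := by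
    rw [div_le_one hn0]; exact_mod_cast hn.le
  rw [mul_assoc]
  gcongr
  calc (y / n)^4 ≤ ((N:ℝ)/n)^4 := by gcongr
    _ ≤ ((N:ℝ)/n)^3 := pow_le_pow_of_le_one (by positivity) hNn (by norm_num)
    _ = (N:ℝ)/n * ((N:ℝ)^2/(n:ℝ)^2) := by rw [div_pow]; field_simp

lemma S3_bound (e : Bool) {A : ℕ} (hA : 4 ≤ A) {y : ℝ} (hy : 0 < y) {N : ℕ} (hN : 1 ≤ N) (hyN : y ≤ N) :
    Summable (fun n : ℕ => |co e A y n|) ∧ ∑' n : ℕ, |co e A y n| ≤ 3 * Real.exp 4 * Real.sqrt N := by
  have hN' : (1:ℝ) ≤ N := by exact_mod_cast hN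
  have hs : 0 < Real.sqrt N := Real.sqrt_pos.mpr (by linarith)
  have hK : (1:ℝ) ≤ Real.exp 4 := Real.one_le_exp (by norm_num)
  have h := sum_bound (fun n : ℕ => |co e A y n|) N hN (2 * Real.exp 4 * Real.sqrt N)
    ((Real.sqrt N)⁻¹ * Real.exp 4) (by positivity) (fun n => abs_nonneg _) ?_ ?_
  · refine ⟨h.1, h.2.trans (le_of_eq ?_)⟩
    have : (N:ℝ) = Real.sqrt N * Real.sqrt N := (Real.mul_self_sqrt (by positivity)).symm
    nth_rewrite 3 [this]
    field_simp
    ring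
  · calc ∑ n ∈ Finset.range (N+1), |co e A y n| ≤ ∑ n ∈ Finset.range (N+1), (Real.sqrt n)⁻¹ := by
          apply Finset.sum_le_sum
          intro n _
          refine (abs_co e A hy n).trans ?_
          have : ker e A (y / n) ≤ 1 := ker_le_one e A (by positivity)
          have h4 : 0 ≤ (Real.sqrt n)⁻¹ := by positivity
          nlinarith
      _ ≤ 2 * Real.sqrt N := head_sqrt N
      _ ≤ 2 * Real.exp 4 * Real.sqrt N := by nlinarith
  · intro n hn
    refine (abs_co e A hy n).trans ?_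
    have h1 := ker_tail e hA hy hyN hn
    have h2 : (Real.sqrt n)⁻¹ ≤ (Real.sqrt N)⁻¹ := by
      gcongr
    have h3 : 0 ≤ ker e A (y / n) := ker_nonneg e A (by positivity)
    calc (Real.sqrt n)⁻¹ * ker e A (y / n) ≤ (Real.sqrt N)⁻¹ * (Real.exp 4 * ((N:ℝ)^2 / (n:ℝ)^2)) := by gcongr
      _ = _ := by ring

lemma S2_bound (e : Bool) {A : ℕ} (hA : 4 ≤ A) {y : ℝ} (hy : 0 < y) {N : ℕ} (hN : 1 ≤ N) (hyN : y ≤ N) :
    Summable (fun n : ℕ => (n:ℝ) * |co e A y n|) ∧
    ∑' n : ℕ, (n:ℝ) * |co e A y n| ≤ 3 * Real.exp 4 * (N * Real.sqrt N) := by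
  have hN' : (1:ℝ) ≤ N := by exact_mod_cast hN
  have hs : 0 < Real.sqrt N := Real.sqrt_pos.mpr (by linarith)
  have hK : (1:ℝ) ≤ Real.exp 4 := Real.one_le_exp (by norm_num)
  have hco : ∀ n : ℕ, (n:ℝ) * |co e A y n| ≤ Real.sqrt n * ker e A (y / n) := by
    intro n
    rcases Nat.eq_zero_or_pos n with rfl | hn
    · simp
    · have hn0 : (0:ℝ) < n := by exact_mod_cast hn
      have hsn : 0 < Real.sqrt n := Real.sqrt_pos.mpr hn0
      calc (n:ℝ) * |co e A y n| ≤ (n:ℝ) * ((Real.sqrt n)⁻¹ * ker e A (y / n)) := by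
            gcongr; exact abs_co e A hy n
        _ = Real.sqrt n * ker e A (y / n) := by
            have : (n:ℝ) = Real.sqrt n * Real.sqrt n := (Real.mul_self_sqrt hn0.le).symm
            nth_rewrite 1 [this]
            field_simp
  have h := sum_bound (fun n : ℕ => (n:ℝ) * |co e A y n|) N hN (2 * Real.exp 4 * (N * Real.sqrt N))
    (Real.sqrt N * Real.exp 4) (by positivity) (fun n => by positivity) ?_ ?_
  · refine ⟨h.1, h.2.trans (le_of_eq ?_)⟩
    ring
  · calc ∑ n ∈ Finset.range (N+1), (n:ℝ) * |co e A y n| ≤ ∑ n ∈ Finset.range (N+1), Real.sqrt N := by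
          apply Finset.sum_le_sum
          intro n hn
          refine (hco n).trans ?_
          have h1 : ker e A (y / n) ≤ 1 := ker_le_one e A (by positivity)
          have h3 : 0 ≤ ker e A (y / n) := ker_nonneg e A (by positivity)
          have hn' : n ≤ N := by simp at hn; omega
          have h4 : Real.sqrt n ≤ Real.sqrt N := Real.sqrt_le_sqrt (by exact_mod_cast hn')
          calc Real.sqrt n * ker e A (y / n) ≤ Real.sqrt N * 1 := by gcongr
            _ = _ := by ring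
      _ = ((N:ℝ) + 1) * Real.sqrt N := by simp
      _ ≤ 2 * Real.exp 4 * (N * Real.sqrt N) := by
          have : 0 ≤ (N:ℝ) * Real.sqrt N := by positivity
          nlinarith
  · intro n hn
    have hn0 : (0:ℝ) < n := by exact_mod_cast (by omega : 0 < n)
    refine (hco n).trans ?_
    have h1 := ker_tail' e hA hy hyN hn
    have h2 : Real.sqrt n * ((N:ℝ)/n) ≤ Real.sqrt N := by
      -- sqrt n * N / n = N / sqrt n <= sqrt N
      have hsn : 0 < Real.sqrt n := Real.sqrt_pos.mpr hn0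
      have e1 : (n:ℝ) = Real.sqrt n * Real.sqrt n := (Real.mul_self_sqrt hn0.le).symm
      have e2 : (N:ℝ) = Real.sqrt N * Real.sqrt N := (Real.mul_self_sqrt (by positivity)).symm
      have h5 : Real.sqrt N ≤ Real.sqrt n := Real.sqrt_le_sqrt (by exact_mod_cast hn.le)
      have e3 : Real.sqrt n * ((N:ℝ)/n) = Real.sqrt N * (Real.sqrt N / Real.sqrt n) := by
        rw [show (N:ℝ)/n = (Real.sqrt N * Real.sqrt N) / (Real.sqrt n * Real.sqrt n) by rw [← e1, ← e2]]
        field_simp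
      rw [e3]
      have : Real.sqrt N / Real.sqrt n ≤ 1 := by rw [div_le_one hsn]; exact h5
      nlinarith
    calc Real.sqrt n * ker e A (y / n) ≤ Real.sqrt n * (Real.exp 4 * ((N:ℝ)/(n:ℝ)) * ((N:ℝ)^2 / (n:ℝ)^2)) := by gcongr
      _ = (Real.sqrt n * ((N:ℝ)/(n:ℝ))) * Real.exp 4 * ((N:ℝ)^2 / (n:ℝ)^2) := by ring
      _ ≤ Real.sqrt N * Real.exp 4 * ((N:ℝ)^2 / (n:ℝ)^2) := by gcongr

lemma S1_bound (e : Bool) {A : ℕ} (hA : 4 ≤ A) {y : ℝ} (hy : 0 < y) {N : ℕ} (hN : 1 ≤ N) (hyN : y ≤ N)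
    (hNy : N = 1 ∨ (N:ℝ) ≤ 2 * y) :
    Summable (fun n : ℕ => (co e A y n)^2) ∧ ∑' n : ℕ, (co e A y n)^2 ≤ 33 * Real.exp 4 := by
  have hN' : (1:ℝ) ≤ N := by exact_mod_cast hN
  have hK : (1:ℝ) ≤ Real.exp 4 := Real.one_le_exp (by norm_num)
  have hsq : ∀ n : ℕ, (co e A y n)^2 ≤ (n:ℝ)⁻¹ * ker e A (y / n) := by
    intro n
    have h1 := abs_co e A hy n
    have h3 : 0 ≤ ker e A (y / n) := ker_nonneg e A (by positivity)
    have h4 : ker e A (y / n) ≤ 1 := ker_le_one e A (by positivity)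
    rw [← sq_abs]
    calc |co e A y n|^2 ≤ ((Real.sqrt n)⁻¹ * ker e A (y / n))^2 := by gcongr
      _ = (n:ℝ)⁻¹ * (ker e A (y / n))^2 := by
          rw [mul_pow, inv_pow, Real.sq_sqrt (by positivity)]
      _ ≤ (n:ℝ)⁻¹ * ker e A (y / n) := by
          gcongr
          nlinarith
  have h := sum_bound (fun n : ℕ => (co e A y n)^2) N hN (32 * Real.exp 4)
    ((N:ℝ)⁻¹ * Real.exp 4) (by positivity) (fun n => by positivity) ?_ ?_
  · refine ⟨h.1, h.2.trans (le_of_eq ?_)⟩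
    field_simp
    ring
  · calc ∑ n ∈ Finset.range (N+1), (co e A y n)^2 ≤ ∑ n ∈ Finset.range (N+1), (16 * Real.exp 4 / N) := by
          apply Finset.sum_le_sum
          intro n hn
          have hn' : n ≤ N := by simp at hn; omega
          rcases Nat.eq_zero_or_pos n with rfl | hn1
          · have : (0:ℝ) ≤ 16 * Real.exp 4 / N := by positivity
            rw [co_zero]; simpa using this
          have hn0 : (0:ℝ) < n := by exact_mod_cast hn1
          refine (hsq n).trans ?_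
          have h3 : 0 ≤ ker e A (y / n) := ker_nonneg e A (by positivity)
          have h4 : ker e A (y / n) ≤ 1 := ker_le_one e A (by positivity)
          rcases hNy with h | h
          · have : n = 1 := by omega
            subst h
            subst this
            simp
            have : ker e A y ≤ 1 := ker_le_one e A hy.le
            linarith
          · have h5 := ker_large e hA (x := y / n) (by positivity)
            rw [inv_div] at h5
            have h6 : (n:ℝ) / y ≤ 2 * (n / N) := by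
              rw [div_le_iff₀ hy]
              have : (N:ℝ) / N = 1 := div_self (by positivity)
              calc (n:ℝ) = n * (N / N) := by rw [this]; ring
                _ = (n / N) * N := by ring
                _ ≤ (n / N) * (2 * y) := by gcongr
                _ = _ := by ring
            have h7 : (n:ℝ)/N ≤ 1 := by rw [div_le_one (by positivity)]; exact_mod_cast hn'
            have h8 : ((n:ℝ) / y)^4 ≤ 16 * (n / N) := by
              calc ((n:ℝ) / y)^4 ≤ (2 * ((n:ℝ) / N))^4 := by gcongr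
                _ = 16 * ((n:ℝ)/N)^4 := by ring
                _ ≤ 16 * ((n:ℝ)/N)^1 := by
                    gcongr 16 * ?_
                    exact pow_le_pow_of_le_one (by positivity) h7 (by norm_num)
                _ = _ := by ring
            calc (n:ℝ)⁻¹ * ker e A (y / n) ≤ (n:ℝ)⁻¹ * (Real.exp 4 * (16 * (n / N))) := by
                  gcongr
                  exact h5.trans (by gcongr)
              _ = 16 * Real.exp 4 / N := by field_simp
      _ = ((N:ℝ) + 1) * (16 * Real.exp 4 / N) := by simp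
      _ ≤ (2 * (N:ℝ)) * (16 * Real.exp 4 / N) := by gcongr; linarith
      _ = 32 * Real.exp 4 := by field_simp; ring
  · intro n hn
    have hn0 : (0:ℝ) < n := by exact_mod_cast (by omega : 0 < n)
    refine (hsq n).trans ?_
    have h1 := ker_tail e hA hy hyN hn
    have h3 : 0 ≤ ker e A (y / n) := ker_nonneg e A (by positivity)
    have h2 : (n:ℝ)⁻¹ ≤ (N:ℝ)⁻¹ := by gcongr
    calc (n:ℝ)⁻¹ * ker e A (y / n) ≤ (N:ℝ)⁻¹ * (Real.exp 4 * ((N:ℝ)^2 / (n:ℝ)^2)) := by gcongr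
      _ = _ := by ring

lemma exists_N {y : ℝ} (hy : 0 < y) : ∃ N : ℕ, 1 ≤ N ∧ y ≤ N ∧ (N = 1 ∨ (N:ℝ) ≤ 2 * y) ∧ (N:ℝ)^2 ≤ 1 + 4 * y^2 := by
  refine ⟨⌈y⌉₊, Nat.one_le_ceil_iff.mpr hy, Nat.le_ceil y, ?_, ?_⟩
  · by_cases h : y ≤ 1
    · left
      apply le_antisymm
      · exact Nat.ceil_le.mpr (by simpa using h)
      · exact Nat.one_le_ceil_iff.mpr hy
    · right
      have := Nat.ceil_lt_add_one hy.le
      push Not at h
      linarith
  · by_cases h : y ≤ 1
    · have : ⌈y⌉₊ ≤ 1 := Nat.ceil_le.mpr (by simpa using h)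
      have h2 : (⌈y⌉₊ : ℝ) ≤ 1 := by exact_mod_cast this
      have h3 : (0:ℝ) ≤ (⌈y⌉₊ : ℝ) := by positivity
      nlinarith [sq_nonneg y]
    · have := Nat.ceil_lt_add_one hy.le
      push Not at h
      have h3 : (0:ℝ) ≤ (⌈y⌉₊ : ℝ) := by positivity
      nlinarith [sq_nonneg y]

end MV

open MV in
theorem DD_mean (e : Bool) (A : ℕ) (hA : 4 ≤ A) : ∃ C : ℝ, 0 < C ∧ ∀ X y : ℝ, 1 ≤ X → 0 < y →
    ∫ T in (0 : ℝ)..X, ‖DD e A y T‖ ^ 2 ≤ C * (X + y ^ 2) := by
  refine ⟨33 * Real.exp 4 + 144 * (Real.exp 4)^2, by positivity, ?_⟩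
  intro X y hX hy
  obtain ⟨N, hN, hyN, hNy, hN2⟩ := exists_N hy
  obtain ⟨s1, b1⟩ := S1_bound e hA hy hN hyN hNy
  obtain ⟨s2, b2⟩ := S2_bound e hA hy hN hyN
  obtain ⟨s3, b3⟩ := S3_bound e hA hy hN hyN
  have h := mv (co e A y) (co_zero e A y) s2 s3 s1 X (by linarith)
  simp only [DD_eq]
  refine h.trans ?_
  have hn2 : 0 ≤ ∑' n : ℕ, (n:ℝ) * |co e A y n| := tsum_nonneg (fun n => by positivity)
  have hn3 : 0 ≤ ∑' n : ℕ, |co e A y n| := tsum_nonneg (fun n => by positivity)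
  have hss : Real.sqrt N * Real.sqrt N = N := Real.mul_self_sqrt (by positivity)
  calc X * (∑' n : ℕ, (co e A y n)^2) + 4 * ((∑' n : ℕ, (n:ℝ) * |co e A y n|) * ∑' n : ℕ, |co e A y n|)
      ≤ X * (33 * Real.exp 4) + 4 * ((3 * Real.exp 4 * (N * Real.sqrt N)) * (3 * Real.exp 4 * Real.sqrt N)) := by
        gcongr
    _ = X * (33 * Real.exp 4) + 36 * (Real.exp 4)^2 * (N:ℝ) * (Real.sqrt N * Real.sqrt N) := by ring
    _ = X * (33 * Real.exp 4) + 36 * (Real.exp 4)^2 * (N:ℝ)^2 := by rw [hss]; ring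
    _ ≤ X * (33 * Real.exp 4) + 36 * (Real.exp 4)^2 * (1 + 4 * y^2) := by gcongr
    _ ≤ (33 * Real.exp 4 + 144 * (Real.exp 4)^2) * (X + y ^ 2) := by
        have : 0 < Real.exp 4 := Real.exp_pos _
        have h5 : 0 ≤ (Real.exp 4)^2 := by positivity
        nlinarith [mul_nonneg h5 (sq_nonneg y), mul_nonneg this.le (sq_nonneg y), mul_nonneg h5 (by linarith : 0 ≤ X - 1)]

open MV in
theorem DD_cont (e : Bool) (A : ℕ) (hA : 4 ≤ A) :
    ContinuousOn (fun p : ℝ × ℝ => DD e A p.1 p.2) (Set.Ioi 0 ×ˢ Set.univ) := by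
  have key : ∀ b : ℝ, 0 < b → ContinuousOn (fun p : ℝ × ℝ => DD e A p.1 p.2) (Set.Ioo 0 b ×ˢ Set.univ) := by
    intro b hb
    simp only [DD_eq]
    have hsum : Summable (fun n : ℕ => Real.exp 4 * b^4 * (1 / (n:ℝ)^4)) :=
      (Real.summable_one_div_nat_pow.mpr (by norm_num)).mul_left _
    apply continuousOn_tsum _ hsum
    · rintro n ⟨y, T⟩ ⟨hy, _⟩
      simp only [Set.mem_Ioo] at hy
      rw [norm_mul, norm_tm, mul_one, Complex.norm_real, Real.norm_eq_abs]
      rcases Nat.eq_zero_or_pos n with rfl | hn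
      · rw [co_zero]; simp
      have hn0 : (0:ℝ) < n := by exact_mod_cast hn
      have hn1 : (1:ℝ) ≤ n := by exact_mod_cast hn
      refine (abs_co e A hy.1 n).trans ?_
      have h1 := ker_small e hA (x := y / n) (by have := hy.1; positivity)
      have h2 : (Real.sqrt n)⁻¹ ≤ 1 := by
        rw [inv_le_one₀ (Real.sqrt_pos.mpr hn0)]
        exact Real.one_le_sqrt.mpr hn1
      have h3 : 0 ≤ ker e A (y / n) := ker_nonneg e A (by have := hy.1; positivity)
      have hy0 := hy.1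
      calc (Real.sqrt n)⁻¹ * ker e A (y / n) ≤ 1 * (Real.exp 4 * (y / n)^4) := by gcongr
        _ ≤ 1 * (Real.exp 4 * (b / n)^4) := by gcongr; exact hy.2.le
        _ = _ := by rw [div_pow]; ring
    · intro n
      apply ContinuousOn.mul
      · apply Complex.continuous_ofReal.comp_continuousOn
        unfold co ker kap
        apply ContinuousOn.mul continuousOn_const
        cases e
        · simp only [Bool.false_eq_true, if_false]
          rcases Nat.eq_zero_or_pos n with rfl | hn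
          · simp only [Nat.cast_zero, div_zero]; exact continuousOn_const
          have hn0 : (n:ℝ) ≠ 0 := by exact_mod_cast hn.ne'
          have : ∀ x ∈ Set.Ioo 0 b ×ˢ (Set.univ : Set ℝ), x.1 / (n:ℝ) ≠ 0 := by
            rintro ⟨y, T⟩ ⟨hy, _⟩
            simp only [Set.mem_Ioo] at hy
            exact div_ne_zero hy.1.ne' hn0
          fun_prop (disch := assumption)
        · simp only [if_true]
          fun_prop
      · unfold tm
        fun_prop
  rintro ⟨y, T⟩ ⟨hy, _⟩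
  simp only [Set.mem_Ioi] at hy
  have h := key (y + 1) (by linarith)
  have hmem : Set.Ioo 0 (y+1) ×ˢ (Set.univ : Set ℝ) ∈ 𝓝 (y, T) := by
    apply IsOpen.mem_nhds (isOpen_Ioo.prod isOpen_univ)
    exact ⟨⟨hy, by simp⟩, Set.mem_univ _⟩
  exact (h.continuousAt hmem).continuousWithinAt

end H345
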