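import Pool.Agent.H345R2.Window
import Pool.Agent.H345R2.MeanVal
import Pool.Agent.H345R2.EF

set_option autoImplicit false

open Complex Filter Topology Set MeasureTheory

namespace H345

lemma period_lower (S : Finset ℝ) (b : ℝ → ℂ) (P κ α T : ℝ) (hκ : 0 ≤ κ)
    (h : ∀ t ∈ S, ∀ t' ∈ S, ‖cexp (((P * (t - t') : ℝ) : ℂ) * I) - 1‖ ≤ κ * |t - t'|) :
    P * ∑ t ∈ S, ‖b t‖ ^ 2 ≤
      (∫ x in α..(α + P), ‖∑ t ∈ S, b t * cexp (((x * (t - T) : ℝ) : ℂ) * I)‖ ^ 2) +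
        κ * (∑ t ∈ S, ‖b t‖) ^ 2 := by
  have hexp : ∀ x : ℝ, ((‖∑ t ∈ S, b t * cexp (((x * (t - T) : ℝ) : ℂ) * I)‖ ^ 2 : ℝ) : ℂ) =
      ∑ m ∈ S, ∑ n ∈ S, b m * (starRingEnd ℂ) (b n) *
        cexp ((((m - n : ℝ) : ℂ) * I) * x) := by
    intro x
    have h1 : ∀ z : ℂ, ((‖z‖ ^ 2 : ℝ) : ℂ) = z * (starRingEnd ℂ) z := by
      intro z; rw [Complex.mul_conj']; push_cast; rfl
    rw [h1, map_sum, Finset.sum_mul_sum]
    refine Finset.sum_congr rfl fun m _ => Finset.sum_congr rfl fun n _ => ?_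
    rw [map_mul, ← Complex.exp_conj, mul_mul_mul_comm, ← Complex.exp_add]
    congr 2
    simp only [map_mul, Complex.conj_ofReal, Complex.conj_I]
    push_cast
    ring
  have hint : ((∫ x in α..(α + P), ‖∑ t ∈ S, b t * cexp (((x * (t - T) : ℝ) : ℂ) * I)‖ ^ 2 : ℝ) : ℂ)
      = ∑ m ∈ S, ∑ n ∈ S, b m * (starRingEnd ℂ) (b n) *
        ∫ x in α..(α + P), cexp ((((m - n : ℝ) : ℂ) * I) * x) := by
    rw [← intervalIntegral.integral_ofReal]
    simp_rw [hexp]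
    rw [intervalIntegral.integral_finsetSum]
    · refine Finset.sum_congr rfl fun m _ => ?_
      rw [intervalIntegral.integral_finsetSum]
      · refine Finset.sum_congr rfl fun n _ => ?_
        rw [intervalIntegral.integral_const_mul]
      · intro n _
        exact (by fun_prop : Continuous fun x : ℝ => b m * (starRingEnd ℂ) (b n) *
          cexp ((((m - n : ℝ) : ℂ) * I) * x)).intervalIntegrable _ _
    · intro m _
      exact (by fun_prop : Continuous fun x : ℝ => ∑ n ∈ S, b m *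
        (starRingEnd ℂ) (b n) * cexp ((((m - n : ℝ) : ℂ) * I) * x)).intervalIntegrable _ _
  have hJ0 : ∀ m : ℝ, ∫ x in α..(α + P), cexp ((((m - m : ℝ) : ℂ) * I) * x) = P := by
    intro m; simp
  have hJ : ∀ m ∈ S, ∀ n ∈ S, m ≠ n →
      ‖∫ x in α..(α + P), cexp ((((m - n : ℝ) : ℂ) * I) * x)‖ ≤ κ := by
    intro m hm n hn hmn
    have hc : ((m - n : ℝ) : ℂ) * I ≠ 0 := by
      refine mul_ne_zero ?_ I_ne_zero
      exact_mod_cast sub_ne_zero.2 hmn
    have hpos : 0 < |m - n| := abs_pos.2 (sub_ne_zero.2 hmn)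
    rw [integral_exp_mul_complex hc, norm_div, norm_mul, Complex.norm_I, mul_one,
      Complex.norm_real, Real.norm_eq_abs, div_le_iff₀ hpos]
    have e1 : cexp (((m - n : ℝ) : ℂ) * I * ((α + P : ℝ) : ℂ)) - cexp (((m - n : ℝ) : ℂ) * I * α) =
        cexp (((α * (m - n) : ℝ) : ℂ) * I) * (cexp (((P * (m - n) : ℝ) : ℂ) * I) - 1) := by
      rw [mul_sub, ← Complex.exp_add, mul_one]
      congr 1 <;> congr 1 <;> (push_cast; ring)
    rw [e1, norm_mul, Complex.norm_exp_ofReal_mul_I, one_mul]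
    exact h m hm n hn
  have hdiff : ((∫ x in α..(α + P), ‖∑ t ∈ S, b t * cexp (((x * (t - T) : ℝ) : ℂ) * I)‖ ^ 2 : ℝ) : ℂ)
      - ((P * ∑ t ∈ S, ‖b t‖ ^ 2 : ℝ) : ℂ) = ∑ m ∈ S, ∑ n ∈ S, if m = n then 0 else
        b m * (starRingEnd ℂ) (b n) * ∫ x in α..(α + P), cexp ((((m - n : ℝ) : ℂ) * I) * x) := by
    rw [hint]
    have : ((P * ∑ t ∈ S, ‖b t‖ ^ 2 : ℝ) : ℂ) = ∑ m ∈ S, ∑ n ∈ S, if m = n then
        b m * (starRingEnd ℂ) (b n) * (P : ℂ) else 0 := by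
      push_cast
      rw [Finset.mul_sum]
      refine Finset.sum_congr rfl fun m hm => ?_
      rw [Finset.sum_ite_eq]
      simp only [hm, if_true]
      rw [Complex.mul_conj']
      ring
    rw [this, ← Finset.sum_sub_distrib]
    refine Finset.sum_congr rfl fun m _ => ?_
    rw [← Finset.sum_sub_distrib]
    refine Finset.sum_congr rfl fun n _ => ?_
    split_ifs with hmn
    · subst hmn; rw [hJ0]; ring
    · ring
  have hb : ‖((∫ x in α..(α + P), ‖∑ t ∈ S, b t * cexp (((x * (t - T) : ℝ) : ℂ) * I)‖ ^ 2 : ℝ) : ℂ)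
      - ((P * ∑ t ∈ S, ‖b t‖ ^ 2 : ℝ) : ℂ)‖ ≤ κ * (∑ t ∈ S, ‖b t‖) ^ 2 := by
    rw [hdiff]
    refine (norm_sum_le _ _).trans ((Finset.sum_le_sum fun m hm => (norm_sum_le _ _).trans
      (Finset.sum_le_sum (g := fun n => κ * (‖b m‖ * ‖b n‖)) fun n hn => ?_)).trans (le_of_eq ?_))
    · split_ifs with hmn
      · rw [norm_zero]; positivity
      · rw [norm_mul, norm_mul, RCLike.norm_conj, mul_comm κ]
        exact mul_le_mul_of_nonneg_left (hJ m hm n hn hmn) (by positivity)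
    · rw [sq, Finset.sum_mul_sum, Finset.mul_sum]
      refine Finset.sum_congr rfl fun m _ => ?_
      rw [Finset.mul_sum]
  rw [← Complex.ofReal_sub, Complex.norm_real, Real.norm_eq_abs, abs_le] at hb
  linarith [hb.1]

lemma ZZ_exp (e : Bool) (A : ℕ) (X T x : ℝ) : ZZ e A X (Real.exp x) T =
    ∑ t ∈ (Zw_finite X T).toFinset, (WE e A (((t - T : ℝ) : ℂ) * I) * aa t) *
      cexp (((x * (t - T) : ℝ) : ℂ) * I) := by
  rw [ZZ, finsum_mem_eq_finite_toFinset_sum _ (Zw_finite X T)]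
  refine Finset.sum_congr rfl fun t _ => ?_
  rw [cpow_I_eq (Real.exp_pos x), Real.log_exp]
  ring

lemma ZZ_exp_cont (e : Bool) (A : ℕ) (X T : ℝ) :
    Continuous (fun x : ℝ => ZZ e A X (Real.exp x) T) := by
  have : (fun x : ℝ => ZZ e A X (Real.exp x) T) = fun x : ℝ =>
      ∑ t ∈ (Zw_finite X T).toFinset, (WE e A (((t - T : ℝ) : ℂ) * I) * aa t) *
      cexp (((x * (t - T) : ℝ) : ℂ) * I) := funext fun x => ZZ_exp e A X T x
  rw [this]
  fun_prop

lemma DD_exp_cont_pt (e : Bool) (A : ℕ) (hA : 4 ≤ A) (T : ℝ) :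
    Continuous (fun x : ℝ => DD e A (Real.exp x) T) := by
  have h := DD_cont e A hA
  have h2 : Continuous (fun x : ℝ => ((Real.exp x, T) : ℝ × ℝ)) := by fun_prop
  have h3 : ∀ x : ℝ, ((Real.exp x, T) : ℝ × ℝ) ∈ Set.Ioi (0:ℝ) ×ˢ (Set.univ : Set ℝ) :=
    fun x => Set.mk_mem_prod (Set.mem_Ioi.2 (Real.exp_pos x)) (mem_univ T)
  have h4 := h.comp_continuous h2 h3
  simpa [Function.comp_def] using h4

lemma int_affine {f : ℝ → ℝ} (hf : Continuous f) (k c β γ : ℝ) :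
    ∫ x in β..γ, (k * f x + c) = k * (∫ x in β..γ, f x) + (γ - β) * c := by
  rw [intervalIntegral.integral_add, intervalIntegral.integral_const_mul,
    intervalIntegral.integral_const, smul_eq_mul]
  · exact (continuous_const.mul hf).intervalIntegrable _ _
  · exact intervalIntegrable_const

lemma sq_two {a b c : ℝ} (ha : 0 ≤ a) (h : a ≤ b + c) : a ^ 2 ≤ 2 * b ^ 2 + 2 * c ^ 2 := by
  have := pow_le_pow_left₀ ha h 2
  nlinarith [sq_nonneg (b - c)]

lemma final_arith {C1 C2 C3 C4 φ L X N a1 a2 H D P : ℝ} (hC4 : 0 < C4)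
    (hφ : 0 ≤ φ) (hL : 0 ≤ L) (hX : 0 < X) (hN : 0 ≤ N) (hD : 0 ≤ D) (h1 : L ≤ P) (h2 : P ≤ 4 * L)
    (ha1 : 0 ≤ a1) (ha2 : 0 ≤ a2) (hH : a1 + a2 ≤ H)
    (h3 : P * D ≤ (2 * a1 + P / 2 * (8 * C1 ^ 2)) +
      (4 * a2 + P / 2 * (16 * C2 ^ 2 + 2 * C3 ^ 2 * C4 * (L / X) * N)) + φ * L * (C4 * L * N)) :
    L * D ≤ (C4 + 8 * C3 ^ 2 * C4 + 16 * C1 ^ 2 + 32 * C2 ^ 2 + 4) * (φ * L ^ 2 + L ^ 2 / X) * N +
      (C4 + 8 * C3 ^ 2 * C4 + 16 * C1 ^ 2 + 32 * C2 ^ 2 + 4) * L +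
      (C4 + 8 * C3 ^ 2 * C4 + 16 * C1 ^ 2 + 32 * C2 ^ 2 + 4) * H := by
  have e1 : L * D ≤ P * D := mul_le_mul_of_nonneg_right h1 hD
  have k1 : 0 ≤ C3 ^ 2 * C4 := by positivity
  have k2 : 0 ≤ L / X := by positivity
  have k3 : 0 ≤ 2 * C3 ^ 2 * C4 * (L / X) * N := by positivity
  have e2 : P / 2 * (8 * C1 ^ 2) ≤ 2 * L * (8 * C1 ^ 2) :=
    mul_le_mul_of_nonneg_right (by linarith) (by positivity)
  have e3 : P / 2 * (16 * C2 ^ 2 + 2 * C3 ^ 2 * C4 * (L / X) * N) ≤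
      2 * L * (16 * C2 ^ 2 + 2 * C3 ^ 2 * C4 * (L / X) * N) :=
    mul_le_mul_of_nonneg_right (by linarith) (by positivity)
  have hH0 : 0 ≤ H := by linarith
  have e4 : 2 * a1 + 4 * a2 ≤ 4 * H := by linarith
  have e5 : L * D ≤ C4 * (φ * L ^ 2 * N) + 4 * (C3 ^ 2 * C4) * (L ^ 2 / X * N) +
      (16 * C1 ^ 2 + 32 * C2 ^ 2) * L + 4 * H := by
    have : 2 * L * (16 * C2 ^ 2 + 2 * C3 ^ 2 * C4 * (L / X) * N) =
      32 * C2 ^ 2 * L + 4 * (C3 ^ 2 * C4) * (L ^ 2 / X * N) := by ring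
    have h5 : φ * L * (C4 * L * N) = C4 * (φ * L ^ 2 * N) := by ring
    linarith
  have p1 : 0 ≤ φ * L ^ 2 * N := by positivity
  have p2 : 0 ≤ L ^ 2 / X * N := by positivity
  have p4 : 0 ≤ C1 ^ 2 := by positivity
  have p5 : 0 ≤ C2 ^ 2 := by positivity
  have q1 : (C4 + 8 * C3 ^ 2 * C4 + 16 * C1 ^ 2 + 32 * C2 ^ 2 + 4) * (φ * L ^ 2 + L ^ 2 / X) * N +
      (C4 + 8 * C3 ^ 2 * C4 + 16 * C1 ^ 2 + 32 * C2 ^ 2 + 4) * L +
      (C4 + 8 * C3 ^ 2 * C4 + 16 * C1 ^ 2 + 32 * C2 ^ 2 + 4) * H -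
      (C4 * (φ * L ^ 2 * N) + 4 * (C3 ^ 2 * C4) * (L ^ 2 / X * N) +
      (16 * C1 ^ 2 + 32 * C2 ^ 2) * L + 4 * H) =
      (8 * (C3 ^ 2 * C4) + 16 * C1 ^ 2 + 32 * C2 ^ 2 + 4) * (φ * L ^ 2 * N) +
      (C4 + 4 * (C3 ^ 2 * C4) + 16 * C1 ^ 2 + 32 * C2 ^ 2 + 4) * (L ^ 2 / X * N) +
      (C4 + 8 * (C3 ^ 2 * C4) + 4) * L +
      (C4 + 8 * (C3 ^ 2 * C4) + 16 * C1 ^ 2 + 32 * C2 ^ 2) * H := by ring
  have q2 : 0 ≤ (8 * (C3 ^ 2 * C4) + 16 * C1 ^ 2 + 32 * C2 ^ 2 + 4) * (φ * L ^ 2 * N) +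
      (C4 + 4 * (C3 ^ 2 * C4) + 16 * C1 ^ 2 + 32 * C2 ^ 2 + 4) * (L ^ 2 / X * N) +
      (C4 + 8 * (C3 ^ 2 * C4) + 4) * L +
      (C4 + 8 * (C3 ^ 2 * C4) + 16 * C1 ^ 2 + 32 * C2 ^ 2) * H := by positivity
  linarith

theorem pw_energy (hRH : RiemannHypothesis) (A : ℕ) (hA : 4 ≤ A) : ∃ C X0 : ℝ, 0 < C ∧ 10 ≤ X0 ∧
    ∀ X : ℝ, X0 ≤ X → ∀ φ : ℝ, 0 ≤ φ → ∀ T : ℝ, Real.sqrt X ≤ T → T ≤ X →
    Spaced X T → Latt φ X T →
    Real.log X * D2 A X T ≤ C * (φ * (Real.log X) ^ 2 + (Real.log X) ^ 2 / X) * N2 A X T +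
      C * Real.log X +
      C * ∫ x in (-Real.log X)..(Real.log X / 2 + 2),
        (‖DD true A (Real.exp x) T‖ ^ 2 + ‖DD false A (Real.exp x) T‖ ^ 2) := by
  obtain ⟨C1, X1, hC1, hX1, hEt⟩ := EF hRH true A hA
  obtain ⟨C2, X2, hC2, hX2, hEf⟩ := EF hRH false A hA
  obtain ⟨C3, X3, hC3, hX3, hRf⟩ := reflect A hA
  obtain ⟨C4, X4, hC4, hX4, hS1⟩ := S1_sq A hA
  have ev1 : ∀ᶠ X : ℝ in atTop, 10 ≤ Real.log X := Real.tendsto_log_atTop.eventually_ge_atTop 10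
  obtain ⟨X5, hX5⟩ := eventually_atTop.1 ev1
  refine ⟨C4 + 8 * C3 ^ 2 * C4 + 16 * C1 ^ 2 + 32 * C2 ^ 2 + 4,
    max X1 (max X2 (max X3 (max X4 X5))), by positivity, le_max_of_le_left hX1, ?_⟩
  intro X hX φ hφ T hT1 hT2 hSp hLa
  have hXX1 : X1 ≤ X := (le_max_left _ _).trans hX
  have hXX2 : X2 ≤ X := (le_max_left _ _).trans ((le_max_right _ _).trans hX)
  have hXX3 : X3 ≤ X := (le_max_left _ _).trans ((le_max_right _ _).trans ((le_max_right _ _).trans hX))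
  have hXX4 : X4 ≤ X := (le_max_left _ _).trans ((le_max_right _ _).trans
    ((le_max_right _ _).trans ((le_max_right _ _).trans hX)))
  have hXX5 : X5 ≤ X := (le_max_right _ _).trans ((le_max_right _ _).trans
    ((le_max_right _ _).trans ((le_max_right _ _).trans hX)))
  have hX10 : 10 ≤ X := hX1.trans hXX1
  have hL10 := hX5 X hXX5
  have hX0 : 0 < X := by linarith
  set L := Real.log X with hL
  have hsX : 0 < Real.sqrt X := Real.sqrt_pos.2 hX0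
  have hT : 0 < T := by linarith
  have hT1' : 1 ≤ T := by
    have : (1 : ℝ) ≤ Real.sqrt X := by rw [Real.one_le_sqrt]; linarith
    linarith
  have hTX : X ≤ T ^ 2 := by
    have := Real.sq_sqrt hX0.le
    nlinarith
  have hlT1 : L / 2 ≤ Real.log T := by
    have : Real.log (Real.sqrt X) ≤ Real.log T := Real.log_le_log hsX hT1
    rw [Real.log_sqrt hX0.le] at this
    exact this
  have hlT2 : Real.log T ≤ L := Real.log_le_log hT hT2
  have hpi : 0 < Real.pi := Real.pi_pos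
  have hl2pi0 : 0 ≤ Real.log (2 * Real.pi) := Real.log_nonneg (by linarith [Real.pi_gt_three])
  have hl2pi : Real.log (2 * Real.pi) ≤ 2 := by
    rw [Real.log_le_iff_le_exp (by positivity)]
    have h1 := Real.exp_one_gt_d9
    have h2 : Real.exp 2 = Real.exp 1 * Real.exp 1 := by rw [← Real.exp_add]; norm_num
    rw [h2]
    nlinarith [Real.pi_lt_d2]
  set P := 2 * (Real.log T + 1) with hP
  have hPL : L ≤ P := by rw [hP]; linarith
  have hP4 : P ≤ 4 * L := by rw [hP]; linarith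
  set l := Real.log (T / (2 * Real.pi)) with hl
  have hl' : l = Real.log T - Real.log (2 * Real.pi) := Real.log_div hT.ne' (by positivity)
  have hf := Zw_finite X T
  -- lower bound
  have hlow := period_lower hf.toFinset (fun t => WE true A (((t - T : ℝ) : ℂ) * I) * aa t) P (φ * L)
    (-l / 2 - P / 2) T (by positivity) (by
      intro t ht t' ht'
      rw [Set.Finite.mem_toFinset, mem_Zw] at ht ht'
      exact hLa t ht.1 t' ht'.1 (by linarith [ht.2]) (by linarith [ht'.2]))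
  have hD2 : ∑ t ∈ hf.toFinset, ‖WE true A (((t - T : ℝ) : ℂ) * I) * aa t‖ ^ 2 = D2 A X T := by
    rw [D2, finsum_mem_eq_finite_toFinset_sum _ hf]
    refine Finset.sum_congr rfl fun t _ => ?_
    rw [norm_mul, norm_WE, mul_pow]
  have hS1le : ∑ t ∈ hf.toFinset, ‖WE true A (((t - T : ℝ) : ℂ) * I) * aa t‖ ≤ S1 A X T := by
    rw [S1, finsum_mem_eq_finite_toFinset_sum _ hf]
    refine Finset.sum_le_sum fun t _ => ?_
    rw [norm_mul, norm_WE]
    have h1 : (1 : ℝ) ≤ (1 + |t - T|) ^ 2 := by nlinarith [abs_nonneg (t - T)]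
    have h2 : ‖WW A (((t - T : ℝ) : ℂ) * I)‖ ≤ ‖WW A (((t - T : ℝ) : ℂ) * I)‖ * (1 + |t - T|) ^ 2 :=
      le_mul_of_one_le_right (norm_nonneg _) h1
    exact mul_le_mul_of_nonneg_right h2 (norm_nonneg _)
  have hS1n : 0 ≤ ∑ t ∈ hf.toFinset, ‖WE true A (((t - T : ℝ) : ℂ) * I) * aa t‖ :=
    Finset.sum_nonneg fun t _ => norm_nonneg _
  have hSN := hS1 X hXX4 T hSp
  rw [← hL] at hSN
  have hN2n : 0 ≤ N2 A X T := by
    rw [N2, finsum_mem_eq_finite_toFinset_sum _ hf]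
    exact Finset.sum_nonneg fun t _ => by positivity
  have hD2n : 0 ≤ D2 A X T := by rw [← hD2]; exact Finset.sum_nonneg fun t _ => by positivity
  rw [hD2] at hlow
  have hZe : ∀ x : ℝ, ∑ t ∈ hf.toFinset, (WE true A (((t - T : ℝ) : ℂ) * I) * aa t) *
      cexp (((x * (t - T) : ℝ) : ℂ) * I) = ZZ true A X (Real.exp x) T := fun x =>
    (ZZ_exp true A X T x).symm
  simp only [hZe] at hlow
  -- split the period integral
  set β := -l / 2 with hβ
  set γ := -l / 2 + P / 2 with hγ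
  have hend : -l / 2 - P / 2 + P = γ := by rw [hγ]; ring
  rw [hend] at hlow
  have hcZt := ZZ_exp_cont true A X T
  have hcZf := ZZ_exp_cont false A X T
  have hcDt := DD_exp_cont_pt true A hA T
  have hcDf := DD_exp_cont_pt false A hA T
  have hsplit : ∫ x in (-l / 2 - P / 2)..γ, ‖ZZ true A X (Real.exp x) T‖ ^ 2 =
      (∫ x in β..γ, ‖ZZ true A X (Real.exp (-l - x)) T‖ ^ 2) +
      ∫ x in β..γ, ‖ZZ true A X (Real.exp x) T‖ ^ 2 := by
    have h1 := intervalIntegral.integral_comp_sub_left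
      (fun x : ℝ => ‖ZZ true A X (Real.exp x) T‖ ^ 2) (-l) (a := β) (b := γ)
    rw [h1]
    have e1 : -l - γ = -l / 2 - P / 2 := by rw [hγ]; ring
    have e2 : -l - β = β := by rw [hβ]; ring
    rw [e1, e2]
    rw [intervalIntegral.integral_add_adjacent_intervals]
    · exact (by fun_prop : Continuous fun x : ℝ => ‖ZZ true A X (Real.exp x) T‖ ^ 2).intervalIntegrable _ _
    · exact (by fun_prop : Continuous fun x : ℝ => ‖ZZ true A X (Real.exp x) T‖ ^ 2).intervalIntegrable _ _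
  have hβγ : β ≤ γ := by rw [hβ, hγ]; linarith
  -- pointwise bounds on [β, γ]
  have hrange : ∀ x ∈ Icc β γ, X ^ (-(1 / 2) : ℝ) ≤ Real.exp x ∧ Real.exp x ≤ X ^ 2 ∧
      (Real.exp x * T) ^ (-(3 / 2) : ℝ) + X ^ (-(10 : ℝ)) ≤ 2 := by
    intro x hx
    have hx1 : -(1 / 2) * L ≤ x := by
      have := hx.1; rw [hβ, hl'] at this; linarith
    have hx2 : x ≤ L / 2 + 2 := by
      have := hx.2; rw [hγ, hl', hP] at this; linarith
    have hexT : 1 ≤ Real.exp x * T := by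
      have h1 : Real.exp (-(1 / 2) * L) ≤ Real.exp x := Real.exp_le_exp.2 hx1
      have h2 : Real.exp (-(1 / 2) * L) * Real.exp (L / 2) = 1 := by
        rw [← Real.exp_add]; ring_nf; exact Real.exp_zero
      have h3 : Real.exp (L / 2) ≤ T := by
        rw [← Real.exp_log hT]; exact Real.exp_le_exp.2 hlT1
      calc (1 : ℝ) = Real.exp (-(1 / 2) * L) * Real.exp (L / 2) := h2.symm
        _ ≤ Real.exp x * T := mul_le_mul h1 h3 (Real.exp_pos _).le (Real.exp_pos _).le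
    refine ⟨?_, ?_, ?_⟩
    · rw [Real.rpow_def_of_pos hX0]
      apply Real.exp_le_exp.2; rw [← hL]; linarith
    · have h3 : X ^ 2 = Real.exp (2 * L) := by
        rw [two_mul, Real.exp_add, hL, Real.exp_log hX0]; ring
      rw [h3]; apply Real.exp_le_exp.2; linarith
    · have h4 : (Real.exp x * T) ^ (-(3 / 2) : ℝ) ≤ 1 :=
        Real.rpow_le_one_of_one_le_of_nonpos hexT (by norm_num)
      have h5 : X ^ (-(10 : ℝ)) ≤ 1 :=
        Real.rpow_le_one_of_one_le_of_nonpos (by linarith) (by norm_num)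
      linarith
  have hb1 : ∀ x ∈ Icc β γ, ‖ZZ true A X (Real.exp x) T‖ ^ 2 ≤
      2 * ‖DD true A (Real.exp x) T‖ ^ 2 + 8 * C1 ^ 2 := by
    intro x hx
    obtain ⟨r1, r2, r3⟩ := hrange x hx
    have h1 := hEt X hXX1 T hT1 hT2 hSp (Real.exp x) r1 r2
    have h2 : ‖ZZ true A X (Real.exp x) T - DD true A (Real.exp x) T‖ ≤ C1 * 2 :=
      h1.trans (mul_le_mul_of_nonneg_left r3 hC1.le)
    have h3 : ‖ZZ true A X (Real.exp x) T‖ ≤ ‖DD true A (Real.exp x) T‖ + C1 * 2 := by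
      have := norm_sub_norm_le (ZZ true A X (Real.exp x) T) (DD true A (Real.exp x) T)
      linarith
    have h4 := sq_two (norm_nonneg _) h3
    linarith
  have hb2 : ∀ x ∈ Icc β γ, ‖ZZ true A X (Real.exp (-l - x)) T‖ ^ 2 ≤
      4 * ‖DD false A (Real.exp x) T‖ ^ 2 + 16 * C2 ^ 2 + 2 * C3 ^ 2 * C4 * (L / X) * N2 A X T := by
    intro x hx
    obtain ⟨r1, r2, r3⟩ := hrange x hx
    have h1 := hEf X hXX2 T hT1 hT2 hSp (Real.exp x) r1 r2
    have h2 : ‖ZZ false A X (Real.exp x) T - DD false A (Real.exp x) T‖ ≤ C2 * 2 :=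
      h1.trans (mul_le_mul_of_nonneg_left r3 hC2.le)
    have h3 : ‖ZZ false A X (Real.exp x) T‖ ≤ ‖DD false A (Real.exp x) T‖ + C2 * 2 := by
      have := norm_sub_norm_le (ZZ false A X (Real.exp x) T) (DD false A (Real.exp x) T)
      linarith
    have h4 := hRf X hXX3 T hT1 hT2 (Real.exp (-l - x)) (Real.exp_pos _)
    have e1 : 2 * Real.pi / (Real.exp (-l - x) * T) = Real.exp x := by
      have h5 : Real.exp l = T / (2 * Real.pi) := Real.exp_log (by positivity)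
      have h6 : Real.exp (-l - x) = (Real.exp l * Real.exp x)⁻¹ := by
        rw [← Real.exp_add, ← Real.exp_neg]; congr 1; ring
      rw [h6, h5]
      have := Real.exp_pos x
      field_simp
    rw [e1] at h4
    have h5 : ‖ZZ true A X (Real.exp (-l - x)) T‖ ≤ ‖ZZ false A X (Real.exp x) T‖ +
        C3 / T * S1 A X T := by
      have := (abs_le.1 h4).2
      linarith
    have h6 : (C3 / T * S1 A X T) ^ 2 ≤ C3 ^ 2 * C4 * (L / X) * N2 A X T := by
      rw [mul_pow, div_pow]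
      calc C3 ^ 2 / T ^ 2 * S1 A X T ^ 2 ≤ C3 ^ 2 / X * (C4 * L * N2 A X T) := by
            gcongr
        _ = _ := by ring
    have hz0 : 0 ≤ ‖ZZ false A X (Real.exp x) T‖ := norm_nonneg _
    have hS0 : 0 ≤ C3 / T * S1 A X T :=
      mul_nonneg (by positivity) (hS1n.trans hS1le)
    have h7 := sq_two (norm_nonneg _) h5
    have h8 := sq_two hz0 h3
    linarith
  -- integrate
  have hi1 : ∫ x in β..γ, ‖ZZ true A X (Real.exp x) T‖ ^ 2 ≤
      ∫ x in β..γ, (2 * ‖DD true A (Real.exp x) T‖ ^ 2 + 8 * C1 ^ 2) := by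
    apply intervalIntegral.integral_mono_on hβγ
    · exact (by fun_prop : Continuous fun x : ℝ => ‖ZZ true A X (Real.exp x) T‖ ^ 2).intervalIntegrable _ _
    · exact (by fun_prop : Continuous fun x : ℝ =>
        2 * ‖DD true A (Real.exp x) T‖ ^ 2 + 8 * C1 ^ 2).intervalIntegrable _ _
    · exact hb1
  have hi2 : ∫ x in β..γ, ‖ZZ true A X (Real.exp (-l - x)) T‖ ^ 2 ≤
      ∫ x in β..γ, (4 * ‖DD false A (Real.exp x) T‖ ^ 2 +
        (16 * C2 ^ 2 + 2 * C3 ^ 2 * C4 * (L / X) * N2 A X T)) := by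
    apply intervalIntegral.integral_mono_on hβγ
    · have : Continuous fun x : ℝ => ‖ZZ true A X (Real.exp (-l - x)) T‖ ^ 2 :=
        (hcZt.comp (by fun_prop : Continuous fun x : ℝ => -l - x)).norm.pow 2
      exact this.intervalIntegrable _ _
    · exact (by fun_prop : Continuous fun x : ℝ => 4 * ‖DD false A (Real.exp x) T‖ ^ 2 +
        (16 * C2 ^ 2 + 2 * C3 ^ 2 * C4 * (L / X) * N2 A X T)).intervalIntegrable _ _
    · intro x hx
      rw [← add_assoc]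
      exact hb2 x hx
  have hct : Continuous fun x : ℝ => ‖DD true A (Real.exp x) T‖ ^ 2 := hcDt.norm.pow 2
  have hcf : Continuous fun x : ℝ => ‖DD false A (Real.exp x) T‖ ^ 2 := hcDf.norm.pow 2
  rw [int_affine hct] at hi1
  rw [int_affine hcf] at hi2
  have hγβ : γ - β = P / 2 := by rw [hγ, hβ]; ring
  rw [hγβ] at hi1 hi2
  -- extension of the range
  have hβ1 : -L ≤ β := by rw [hβ, hl']; linarith
  have hγ1 : γ ≤ L / 2 + 2 := by rw [hγ, hl', hP]; linarith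
  set H := ∫ x in (-L)..(L / 2 + 2),
        (‖DD true A (Real.exp x) T‖ ^ 2 + ‖DD false A (Real.exp x) T‖ ^ 2) with hH
  have hext : (∫ x in β..γ, ‖DD true A (Real.exp x) T‖ ^ 2) +
      (∫ x in β..γ, ‖DD false A (Real.exp x) T‖ ^ 2) ≤ H := by
    rw [← intervalIntegral.integral_add (hct.intervalIntegrable _ _) (hcf.intervalIntegrable _ _), hH]
    apply intervalIntegral.integral_mono_interval hβ1 hβγ hγ1
    · exact Eventually.of_forall fun x => by positivity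
    · exact (hct.add hcf).intervalIntegrable _ _
  have hnt : 0 ≤ ∫ x in β..γ, ‖DD true A (Real.exp x) T‖ ^ 2 :=
    intervalIntegral.integral_nonneg hβγ fun x _ => by positivity
  have hnf : 0 ≤ ∫ x in β..γ, ‖DD false A (Real.exp x) T‖ ^ 2 :=
    intervalIntegral.integral_nonneg hβγ fun x _ => by positivity
  rw [hsplit] at hlow
  have hsq : (∑ t ∈ hf.toFinset, ‖WE true A (((t - T : ℝ) : ℂ) * I) * aa t‖) ^ 2 ≤
      C4 * L * N2 A X T := (pow_le_pow_left₀ hS1n hS1le 2).trans hSN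
  have hφL : 0 ≤ φ * L := by positivity
  have h2 : φ * L * (∑ t ∈ hf.toFinset, ‖WE true A (((t - T : ℝ) : ℂ) * I) * aa t‖) ^ 2 ≤
      φ * L * (C4 * L * N2 A X T) := mul_le_mul_of_nonneg_left hsq hφL
  exact final_arith hC4 hφ (by linarith) hX0 hN2n hD2n hPL hP4 hnt hnf hext (by linarith)

end H345
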