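import Pool.Agent.H345R2.BootA
import Pool.Agent.H345R2.EnergyPt
import Pool.Agent.H345R2.Lower

set_option autoImplicit false
set_option maxHeartbeats 1000000

open Complex Filter Topology Set MeasureTheory

namespace H345

theorem boot_shift (hRH : RiemannHypothesis) (A : ℕ) (hA : 4 ≤ A) : ∃ X0 : ℝ, 10 ≤ X0 ∧
    ∀ X : ℝ, X0 ≤ X → ∀ φ : ℝ, 0 ≤ φ → ∀ B : Set ℝ, Adm φ X B →
    Integrable (fun T => GB2 X B T * JZ A X T) ∧
    ∀ k : ℤ, |(k : ℝ)| ≤ (Real.log X) ^ 2 →
      Integrable (fun T => GB2 X B T * JZ A X (T + k)) ∧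
      ∫ T : ℝ, GB2 X B T * JZ A X (T + k) ≤
        Real.exp (|(k : ℝ)| / (2 * Real.log X)) * (∫ T : ℝ, GB2 X B T * JZ A X T) + 1 := by
  obtain ⟨C1, hC1, hsum⟩ := sum_WW A hA
  obtain ⟨Ca, Xa, hCa, hXa, haa⟩ := aa_upper hRH
  have hlogT : Tendsto Real.log atTop atTop := Real.tendsto_log_atTop
  have ev1 : ∀ᶠ X in atTop, (2 : ℝ) ≤ Real.log X := hlogT.eventually_ge_atTop 2
  have ev2 : ∀ᶠ X in atTop, (Real.log X) ^ 2 ≤ Real.sqrt X / 2 := by
    have h1 : (fun x : ℝ => Real.log x ^ 2) =o[atTop] fun x => x ^ (1 / 2 : ℝ) := by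
      have := isLittleO_log_rpow_rpow_atTop (s := 1 / 2) 2 (by norm_num)
      refine this.congr_left fun x => ?_
      norm_num
    have h2 := h1.def (show (0 : ℝ) < 1 / 2 by norm_num)
    filter_upwards [h2, eventually_ge_atTop 1] with x hx hx1
    rw [Real.norm_eq_abs, Real.norm_eq_abs, abs_of_nonneg (by positivity),
      abs_of_nonneg (by positivity), ← Real.sqrt_eq_rpow] at hx
    linarith
  have ev4 : ∀ᶠ X in atTop, 2 * Ca + 4 + Real.pi * C1 ^ 2 ≤ Real.sqrt (Real.log X) :=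
    (Real.tendsto_sqrt_atTop.comp hlogT).eventually_ge_atTop _
  obtain ⟨Y, hY⟩ := eventually_atTop.1 (ev1.and (ev2.and ev4))
  refine ⟨max Y Xa, hXa.trans (le_max_right _ _), ?_⟩
  intro X hX φ _ B hB
  obtain ⟨hL2, hsq, hs4⟩ := hY X ((le_max_left _ _).trans hX)
  have hXXa : Xa ≤ X := (le_max_right _ _).trans hX
  have hX1 : 1 ≤ X := by linarith
  have hX0 : 0 < X := by linarith
  have hL0 : 0 < Real.log X := by linarith
  have hsX : 0 < Real.sqrt X := Real.sqrt_pos.2 hX0
  have hsq' : (Real.log X) ^ 2 ≤ Real.sqrt X := by linarith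
  have hLU : (Real.log X) ^ 2 ≤ (Real.log X) ^ 3 := by nlinarith [sq_nonneg (Real.log X)]
  set L := Real.log X with hLd
  set M := Real.exp (Ca * L ^ (3 / 2 : ℝ)) with hM
  set MX := Real.pi * ((C1 * L) * M) ^ 2 with hMX
  have hMX0 : 0 ≤ MX := by positivity
  -- a priori bound
  have hpri : ∀ s : ℝ, L ^ 3 ≤ Metric.infDist s B → JZ A X s ≤ MX := by
    intro s hs
    obtain ⟨k1, k2⟩ := adm_supp hB hL0 hs
    have hsp := hB.sp s hs
    refine JZ_le (by linarith) (Real.exp_pos _).le (hsum X s hL2 hsp) ?_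
    intro t ht
    obtain ⟨htZ, htd⟩ := mem_Zw.1 ht
    have htd' := abs_le.1 htd
    apply haa X hXXa t htZ (by linarith) (by linarith [Real.sqrt_le_self_iff (x := X)])
      (hsp.1 t htZ (by linarith))
    intro t' ht' hd hne
    have h5 : |t' - s| ≤ L ^ 2 + 20 := by
      have : t' - s = (t' - t) + (t - s) := by ring
      rw [this]
      refine (abs_add_le _ _).trans ?_
      linarith
    refine le_trans ?_ (hsp.2 t' ht' t htZ h5 (by linarith) hne)
    exact div_le_div_of_nonneg_right (by norm_num) hL0.le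
  -- shifted points
  have hsh : ∀ k : ℝ, |k| ≤ L ^ 2 → ∀ T : ℝ, 2 * L ^ 3 ≤ Metric.infDist T B →
      L ^ 3 ≤ Metric.infDist (T + k) B := by
    intro k hk T hT
    have h1 : Metric.infDist T B ≤ Metric.infDist (T + k) B + |k| := by
      have := Metric.infDist_le_infDist_add_dist (s := B) (x := T) (y := T + k)
      rw [Real.dist_eq] at this
      have e : T - (T + k) = -k := by ring
      rwa [e, abs_neg] at this
    linarith
  have heq : ∀ k : ℝ, |k| ≤ L ^ 2 → ∀ T : ℝ,
      GB2 X B T * JZ A X (T + k) = GB2 X B T * JF A X (T + k) := by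
    intro k hk T
    by_cases hd : 2 * L ^ 3 ≤ Metric.infDist T B
    · obtain ⟨k1, k2⟩ := adm_supp hB hL0 (hsh k hk T hd)
      rw [JZ_eq (by linarith) k1 k2 hsq']
    · rw [GB2_zero (not_le.1 hd), zero_mul, zero_mul]
  have hint : ∀ k : ℝ, |k| ≤ L ^ 2 → Integrable (fun T => GB2 X B T * JZ A X (T + k)) := by
    intro k hk
    refine int_aux (K := MX) (a := Real.sqrt X) (b := X) ?_ ?_ ?_
    · have e : (fun T => GB2 X B T * JZ A X (T + k)) = fun T => GB2 X B T * JF A X (T + k) :=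
        funext (heq k hk)
      rw [e]
      exact (GB2_meas X B).mul ((JF_meas A hA X).comp (measurable_id.add_const k))
    · intro T
      rw [abs_of_nonneg (mul_nonneg (GB2_nonneg X B T) (JZ_nonneg A X _))]
      by_cases hd : 2 * L ^ 3 ≤ Metric.infDist T B
      · calc _ ≤ 1 * MX := mul_le_mul (GB2_le_one hL0.le B T) (hpri _ (hsh k hk T hd))
              (JZ_nonneg A X _) zero_le_one
          _ = MX := one_mul _
      · rw [GB2_zero (not_le.1 hd), zero_mul]; exact hMX0
    · intro T hT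
      rw [GB2_zero, zero_mul]
      by_contra hc
      push Not at hc
      have hU : 0 < L ^ 3 := by positivity
      exact hT (adm_supp hB hL0 (by linarith))
  have hint0 : Integrable (fun T => GB2 X B T * JZ A X T) := by
    have := hint 0 (by simp; positivity)
    simpa using this
  refine ⟨hint0, fun k hk => ⟨hint k hk, ?_⟩⟩
  have hind : Integrable ((Set.Icc (0 : ℝ) X).indicator
      (fun _ : ℝ => Real.exp (-L ^ 2 + L) * MX)) := by
    rw [integrable_indicator_iff measurableSet_Icc]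
    exact integrableOn_const (by simp)
  have hsI : Integrable (fun T : ℝ => GB2 X B (T + k) * JZ A X (T + k)) :=
    hint0.comp_add_right (k : ℝ)
  have hpt : ∀ T : ℝ, GB2 X B T * JZ A X (T + k) ≤
      Real.exp (|(k : ℝ)| / (2 * L)) * (GB2 X B (T + k) * JZ A X (T + k)) +
        (Set.Icc (0 : ℝ) X).indicator (fun _ : ℝ => Real.exp (-L ^ 2 + L) * MX) T := by
    intro T
    have hJ := JZ_nonneg A X (T + k)
    have hi0 : 0 ≤ (Set.Icc (0 : ℝ) X).indicator (fun _ : ℝ => Real.exp (-L ^ 2 + L) * MX) T :=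
      Set.indicator_nonneg (fun _ _ => by positivity) _
    by_cases hd : 2 * L ^ 3 ≤ Metric.infDist T B
    · have h1 := GB2_shift (X := X) (B := B) (T := T + k) (T' := T) hL2 hd (by
        have e : T - (T + k) = -(k : ℝ) := by ring
        rw [e, abs_neg]; exact hk)
      have e : T - (T + k) = -(k : ℝ) := by ring
      rw [e, abs_neg] at h1
      have h2 := hpri _ (hsh k hk T hd)
      have hU : 0 < L ^ 3 := by positivity
      obtain ⟨k1, k2⟩ := adm_supp hB hL0 (T := T) (by linarith)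
      rw [Set.indicator_of_mem (show T ∈ Set.Icc (0 : ℝ) X from ⟨by linarith, k2⟩)]
      calc GB2 X B T * JZ A X (T + k) ≤ (Real.exp (|(k : ℝ)| / (2 * L)) * GB2 X B (T + k) +
            Real.exp (-L ^ 2 + L)) * JZ A X (T + k) := mul_le_mul_of_nonneg_right h1 hJ
        _ = Real.exp (|(k : ℝ)| / (2 * L)) * (GB2 X B (T + k) * JZ A X (T + k)) +
            Real.exp (-L ^ 2 + L) * JZ A X (T + k) := by ring
        _ ≤ _ := by
            have := mul_le_mul_of_nonneg_left h2 (Real.exp_pos (-L ^ 2 + L)).le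
            linarith
    · rw [GB2_zero (not_le.1 hd), zero_mul]
      have := GB2_nonneg X B (T + k)
      positivity
  calc ∫ T : ℝ, GB2 X B T * JZ A X (T + k) ≤
      ∫ T : ℝ, (Real.exp (|(k : ℝ)| / (2 * L)) * (GB2 X B (T + k) * JZ A X (T + k)) +
        (Set.Icc (0 : ℝ) X).indicator (fun _ : ℝ => Real.exp (-L ^ 2 + L) * MX) T) :=
        integral_mono (hint k hk) ((hsI.const_mul _).add hind) hpt
    _ = Real.exp (|(k : ℝ)| / (2 * L)) * (∫ T : ℝ, GB2 X B T * JZ A X T) +
        X * (Real.exp (-L ^ 2 + L) * MX) := by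
        rw [integral_add (hsI.const_mul _) hind, integral_const_mul,
          integral_add_right_eq_self (fun T => GB2 X B T * JZ A X T),
          integral_indicator measurableSet_Icc, setIntegral_const, Measure.real, Real.volume_Icc,
          ENNReal.toReal_ofReal (by linarith), smul_eq_mul, sub_zero]
    _ ≤ _ := by
        have := tail_one hCa hC1.le hX1 hs4
        linarith

lemma int_exp_summable : Summable (fun k : ℤ => Real.exp (-|(k : ℝ)| / 8)) := by
  have hn : Summable (fun n : ℕ => Real.exp (-(n : ℝ) / 8)) := by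
    have h := Real.summable_exp_nat_mul_iff.2 (show (-(1 / 8) : ℝ) < 0 by norm_num)
    refine h.congr fun n => ?_
    congr 1; ring
  apply Summable.of_nat_of_neg
  · refine hn.congr fun n => ?_
    simp
  · refine hn.congr fun n => ?_
    simp

lemma HH_nonneg (A : ℕ) (T : ℝ) : 0 ≤ HH A T :=
  setIntegral_nonneg measurableSet_Iic fun v _ => mul_nonneg (KK_pos v).le (by positivity)

/-- the bootstrap inequality, from the pointwise inequality, the bound for the short Dirichlet
sums, the energy bound and the shift inequality -/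
theorem boot_of (hRH : RiemannHypothesis) (A : ℕ) (hA : 4 ≤ A)
    (hpt : ∃ C X0 : ℝ, 0 < C ∧ 10 ≤ X0 ∧
      ∀ X : ℝ, X0 ≤ X → ∀ φ : ℝ, 0 ≤ φ → φ * Real.log X ≤ 1 → ∀ T : ℝ, Real.sqrt X ≤ T → T ≤ X →
      Spaced X T → Latt φ X T →
      JZ A X T ≤ C * (HH A T + 1 + N2 A X T) +
        C * (φ * Real.log X) ^ 2 * SZ X (fun k => JZ A X (T + k)))
    (hHH : ∃ C : ℝ, 0 < C ∧ ∀ X : ℝ, 1 ≤ X →
      IntegrableOn (HH A) (Set.Ioc 1 X) ∧ ∫ T in Set.Ioc 1 X, HH A T ≤ C * X) :
    ∃ C η X0 : ℝ, 0 < C ∧ 0 < η ∧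
    10 ≤ X0 ∧ ∀ X : ℝ, X0 ≤ X → ∀ φ : ℝ, 0 ≤ φ → φ * Real.log X ≤ η → ∀ B : Set ℝ, Adm φ X B →
    ∫ T : ℝ, GB2 X B T * JZ A X T ≤ C * X := by
  obtain ⟨Cp, Xp, hCp, hXp, hpt⟩ := hpt
  obtain ⟨CH, hCH, hHH⟩ := hHH
  obtain ⟨CE, ηE, XE, hCE, hηE, hXE, hE⟩ := energy_of A hA (pw_energy hRH A hA) (aa_upper hRH)
  obtain ⟨Xs, hXs, hs⟩ := boot_shift hRH A hA
  set K8 := ∑' k : ℤ, Real.exp (-|(k : ℝ)| / 8) with hK8
  have hK80 : 0 ≤ K8 := tsum_nonneg fun k => (Real.exp_pos _).le
  have hlogT : Tendsto Real.log atTop atTop := Real.tendsto_log_atTop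
  obtain ⟨Y, hY⟩ := eventually_atTop.1 (hlogT.eventually_ge_atTop 4)
  set η := min (min 1 ηE) (1 / (2 * (Cp * K8 + 1))) with hη
  have hη0 : 0 < η := lt_min (lt_min one_pos hηE) (by positivity)
  refine ⟨2 * (Cp * (CH + 1) + Cp * CE + 1), η, max (max Xp XE) (max Xs Y), by positivity, hη0,
    hXp.trans ((le_max_left _ _).trans (le_max_left _ _)), ?_⟩
  intro X hX φ hφ hφL B hB
  have hXXp : Xp ≤ X := ((le_max_left _ _).trans (le_max_left _ _)).trans hX
  have hXXE : XE ≤ X := ((le_max_right _ _).trans (le_max_left _ _)).trans hX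
  have hXXs : Xs ≤ X := ((le_max_left _ _).trans (le_max_right _ _)).trans hX
  have hXY : Y ≤ X := ((le_max_right _ _).trans (le_max_right _ _)).trans hX
  have hL4 : 4 ≤ Real.log X := hY X hXY
  have hX1 : 1 ≤ X := by linarith
  have hX0 : 0 < X := by linarith
  obtain ⟨hEi, hE⟩ := hE X hXXE φ hφ (hφL.trans ((min_le_left _ _).trans (min_le_right _ _))) B hB
  obtain ⟨hi0, hs⟩ := hs X hXXs φ hφ B hB
  obtain ⟨hHi, hHH⟩ := hHH X hX1
  have hκ1 : φ * Real.log X ≤ 1 := hφL.trans ((min_le_left _ _).trans (min_le_left _ _))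
  set L := Real.log X with hLd
  have hL0 : 0 < L := by linarith
  have hκ0 : 0 ≤ φ * L := by positivity
  have hκ2 : Cp * (φ * L) ^ 2 * K8 ≤ 1 / 2 := by
    have h1 : (φ * L) ^ 2 ≤ 1 / (2 * (Cp * K8 + 1)) := by
      have : (φ * L) ^ 2 ≤ φ * L := by nlinarith
      exact this.trans (hφL.trans (min_le_right _ _))
    calc Cp * (φ * L) ^ 2 * K8 = (Cp * K8) * (φ * L) ^ 2 := by ring
      _ ≤ (Cp * K8 + 1) * (1 / (2 * (Cp * K8 + 1))) := by
          apply mul_le_mul (by linarith) h1 (by positivity) (by positivity)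
      _ = 1 / 2 := by field_simp
  have hκ3 : Cp * (φ * L) ^ 2 * K8 * 1 ≤ 1 / 2 := by linarith
  set M := ∫ T : ℝ, GB2 X B T * JZ A X T with hM
  have hM0 : 0 ≤ M := integral_nonneg fun T => mul_nonneg (GB2_nonneg X B T) (JZ_nonneg A X T)
  set N := ⌊L ^ 2⌋ with hN
  have hkN : ∀ k ∈ Finset.Icc (-N) N, |(k : ℝ)| ≤ L ^ 2 := by
    intro k hk
    rw [Finset.mem_Icc] at hk
    have h1 : ((N : ℤ) : ℝ) ≤ L ^ 2 := Int.floor_le _
    have h2 : (k : ℝ) ≤ N := by exact_mod_cast hk.2
    have h3 : -(N : ℝ) ≤ k := by exact_mod_cast hk.1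
    rw [abs_le]; constructor <;> linarith
  -- the dominating function
  set R : ℝ → ℝ := (Set.Ioc (1 : ℝ) X).indicator (fun T => Cp * (HH A T + 1)) with hR
  have hRi : Integrable R := by
    rw [hR, integrable_indicator_iff measurableSet_Ioc]
    exact (hHi.add (integrableOn_const (by simp))).const_mul Cp
  have hRI : ∫ T, R T ≤ Cp * (CH + 1) * X := by
    have hci : IntegrableOn (fun _ : ℝ => (1 : ℝ)) (Set.Ioc 1 X) := integrableOn_const (by simp)
    rw [hR, integral_indicator measurableSet_Ioc, integral_const_mul, integral_add hHi hci,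
      setIntegral_const, Measure.real, Real.volume_Ioc, ENNReal.toReal_ofReal (by linarith),
      smul_eq_mul]
    nlinarith
  have hSi : Integrable (fun T => ∑ k ∈ Finset.Icc (-N) N,
      Real.exp (-|(k : ℝ)| / 4) * (GB2 X B T * JZ A X (T + k))) :=
    integrable_finsetSum _ fun k hk => ((hs k (hkN k hk)).1).const_mul _
  have hpw : ∀ T, GB2 X B T * JZ A X T ≤ R T + Cp * (GB X B T * N2 A X T) +
      Cp * (φ * L) ^ 2 * ∑ k ∈ Finset.Icc (-N) N,
        Real.exp (-|(k : ℝ)| / 4) * (GB2 X B T * JZ A X (T + k)) := by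
    intro T
    have hR0 : 0 ≤ R T := by
      rw [hR]
      apply Set.indicator_nonneg
      intro T _
      have := HH_nonneg A T
      positivity
    have hG0 := GB2_nonneg X B T
    have hG1 := GB2_le_one hL0.le B T
    have hG2 := GB2_le_GB hL0 B T
    have hN0 := N2_nonneg A X T
    by_cases hd : 2 * L ^ 3 ≤ Metric.infDist T B
    · have hU : 0 < L ^ 3 := by positivity
      have hd1 : L ^ 3 ≤ Metric.infDist T B := by linarith
      obtain ⟨k1, k2⟩ := adm_supp hB hL0 hd1
      have hs1 : 1 < Real.sqrt X := by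
        rw [Real.lt_sqrt (by norm_num)]; linarith
      have hp := hpt X hXXp φ hφ hκ1 T k1 k2 (hB.sp T hd1) (hB.la T hd1)
      have hRT : R T = Cp * (HH A T + 1) := by
        rw [hR, Set.indicator_of_mem]
        exact ⟨by linarith, k2⟩
      have hSe : GB2 X B T * SZ X (fun k => JZ A X (T + k)) = ∑ k ∈ Finset.Icc (-N) N,
          Real.exp (-|(k : ℝ)| / 4) * (GB2 X B T * JZ A X (T + k)) := by
        unfold SZ
        rw [Finset.mul_sum]
        exact Finset.sum_congr rfl fun k _ => by ring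
      have hH0 := HH_nonneg A T
      have h1 : GB2 X B T * (Cp * (HH A T + 1)) ≤ 1 * (Cp * (HH A T + 1)) :=
        mul_le_mul_of_nonneg_right hG1 (by positivity)
      have h2 : GB2 X B T * (Cp * N2 A X T) ≤ GB X B T * (Cp * N2 A X T) :=
        mul_le_mul_of_nonneg_right hG2 (by positivity)
      calc GB2 X B T * JZ A X T ≤ GB2 X B T * (Cp * (HH A T + 1 + N2 A X T) +
            Cp * (φ * L) ^ 2 * SZ X (fun k => JZ A X (T + k))) :=
            mul_le_mul_of_nonneg_left hp hG0
        _ = GB2 X B T * (Cp * (HH A T + 1)) + GB2 X B T * (Cp * N2 A X T) +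
            Cp * (φ * L) ^ 2 * (GB2 X B T * SZ X (fun k => JZ A X (T + k))) := by ring
        _ ≤ _ := by rw [hSe, hRT]; linarith
    · rw [GB2_zero (not_le.1 hd)]
      have h3 : 0 ≤ GB X B T := GB_nonneg X B T
      have h4 : 0 ≤ GB X B T * N2 A X T := mul_nonneg h3 hN0
      simp only [zero_mul, mul_zero, Finset.sum_const_zero, add_zero]
      positivity
  have hsum : ∑ k ∈ Finset.Icc (-N) N, Real.exp (-|(k : ℝ)| / 4) *
      (∫ T : ℝ, GB2 X B T * JZ A X (T + k)) ≤ K8 * M + K8 := by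
    calc ∑ k ∈ Finset.Icc (-N) N, Real.exp (-|(k : ℝ)| / 4) *
        (∫ T : ℝ, GB2 X B T * JZ A X (T + k)) ≤
        ∑ k ∈ Finset.Icc (-N) N, Real.exp (-|(k : ℝ)| / 8) * (M + 1) := by
          apply Finset.sum_le_sum
          intro k hk
          have h1 := (hs k (hkN k hk)).2
          have h2 : Real.exp (|(k : ℝ)| / (2 * L)) ≤ Real.exp (|(k : ℝ)| / 8) := by
            apply Real.exp_le_exp.2
            exact div_le_div_of_nonneg_left (abs_nonneg _) (by norm_num) (by linarith)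
          have h3 : (1 : ℝ) ≤ Real.exp (|(k : ℝ)| / 8) := Real.one_le_exp (by positivity)
          calc Real.exp (-|(k : ℝ)| / 4) * (∫ T : ℝ, GB2 X B T * JZ A X (T + k)) ≤
              Real.exp (-|(k : ℝ)| / 4) * (Real.exp (|(k : ℝ)| / 8) * M +
                Real.exp (|(k : ℝ)| / 8)) := by
                apply mul_le_mul_of_nonneg_left _ (Real.exp_pos _).le
                have := mul_le_mul_of_nonneg_right h2 hM0
                linarith
            _ = (Real.exp (-|(k : ℝ)| / 4) * Real.exp (|(k : ℝ)| / 8)) * (M + 1) := by ring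
            _ = Real.exp (-|(k : ℝ)| / 8) * (M + 1) := by
                rw [← Real.exp_add]; congr 2; ring
      _ = (∑ k ∈ Finset.Icc (-N) N, Real.exp (-|(k : ℝ)| / 8)) * (M + 1) := by
          rw [Finset.sum_mul]
      _ ≤ K8 * (M + 1) := by
          apply mul_le_mul_of_nonneg_right _ (by linarith)
          exact int_exp_summable.sum_le_tsum _ (fun k _ => (Real.exp_pos _).le)
      _ = K8 * M + K8 := by ring
  have hRE : Integrable (fun T => R T + Cp * (GB X B T * N2 A X T)) := hRi.add (hEi.const_mul Cp)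
  have hfin : M ≤ Cp * (CH + 1) * X + Cp * (CE * X) + Cp * (φ * L) ^ 2 * (K8 * M + K8) := by
    calc M ≤ ∫ T, (R T + Cp * (GB X B T * N2 A X T) +
        Cp * (φ * L) ^ 2 * ∑ k ∈ Finset.Icc (-N) N,
        Real.exp (-|(k : ℝ)| / 4) * (GB2 X B T * JZ A X (T + k))) :=
          integral_mono hi0 (hRE.add (hSi.const_mul _)) hpw
      _ = (∫ T, R T) + Cp * (∫ T, GB X B T * N2 A X T) + Cp * (φ * L) ^ 2 *
          ∑ k ∈ Finset.Icc (-N) N, Real.exp (-|(k : ℝ)| / 4) *
            (∫ T : ℝ, GB2 X B T * JZ A X (T + k)) := by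
          rw [integral_add hRE (hSi.const_mul _),
            integral_add hRi (hEi.const_mul Cp), integral_const_mul, integral_const_mul,
            integral_finsetSum _ fun k hk => ((hs k (hkN k hk)).1).const_mul _]
          congr 2
          apply Finset.sum_congr rfl
          intro k _
          rw [integral_const_mul]
      _ ≤ _ := by gcongr
  have h5 : Cp * (φ * L) ^ 2 * (K8 * M + K8) ≤ 1 / 2 * M + 1 / 2 := by
    calc Cp * (φ * L) ^ 2 * (K8 * M + K8) = (Cp * (φ * L) ^ 2 * K8) * (M + 1) := by ring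
      _ ≤ 1 / 2 * (M + 1) := mul_le_mul_of_nonneg_right hκ2 (by linarith)
      _ = _ := by ring
  nlinarith

end H345
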