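import Pool.Agent.H345R2.MeanVal

/-! Preparations for the final contradiction. -/

open Complex Filter Topology Set MeasureTheory

namespace H345

namespace FA

open MV

lemma ker_false_eq (A : ℕ) {Q : ℝ} (n : ℕ) : ker false A (Q / n) = kap A (n / Q) := by
  unfold ker; simp [inv_div]

lemma base_lt_one {x : ℝ} (hx : x ≠ 1) : x * Real.exp (1 - x) < 1 := by
  have h := Real.add_one_lt_exp (x := x - 1) (by intro h; apply hx; linarith)
  have h1 : x < Real.exp (x - 1) := by linarith
  calc x * Real.exp (1 - x) < Real.exp (x-1) * Real.exp (1-x) := by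
        exact mul_lt_mul_of_pos_right h1 (Real.exp_pos _)
    _ = 1 := by rw [← Real.exp_add]; simp

/-- the sum of the terms with `n ≠ Q` tends to zero -/
lemma tend {Q : ℝ} (hQ : 0 < Q) : Tendsto (fun A : ℕ =>
    ∑' n : ℕ, if (n : ℝ) = Q then (0 : ℝ) else |co false A Q n|) atTop (𝓝 0) := by
  suffices key : Tendsto (fun A : ℕ =>
      ∑' n : ℕ, if (n : ℝ) = Q then (0 : ℝ) else |co false A Q n|) atTop
      (𝓝 (∑' _ : ℕ, (0 : ℝ))) by simpa using key
  have hsum : Summable fun n : ℕ => Real.exp 4 * (Q ^ 4 * (1 / (n : ℝ) ^ 4)) :=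
    ((Real.summable_one_div_nat_pow.mpr (by norm_num)).mul_left _).mul_left _
  refine tendsto_tsum_of_dominated_convergence (bound := fun n : ℕ =>
    Real.exp 4 * (Q ^ 4 * (1 / (n : ℝ) ^ 4))) hsum ?_ ?_
  · intro n
    by_cases hn : (n : ℝ) = Q
    · simp [hn]
    · simp only [hn, if_false]
      have hx : (n : ℝ) / Q ≠ 1 := by
        intro h
        apply hn
        rw [div_eq_one_iff_eq hQ.ne'] at h
        exact h
      have hb := base_lt_one hx
      have hb0 : 0 ≤ (n : ℝ) / Q * Real.exp (1 - n / Q) := by positivity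
      have ht := tendsto_pow_atTop_nhds_zero_of_lt_one hb0 hb
      refine squeeze_zero (fun A => abs_nonneg _) (fun A => ?_) ht
      refine (abs_co false A hQ n).trans ?_
      rw [ker_false_eq]
      unfold kap
      have h3 : 0 ≤ ((n : ℝ) / Q * Real.exp (1 - n / Q)) ^ A := pow_nonneg hb0 A
      have h4 : (Real.sqrt n)⁻¹ ≤ 1 := by
        rcases Nat.eq_zero_or_pos n with h | h
        · subst h; simp
        · apply inv_le_one_of_one_le₀
          rw [Real.one_le_sqrt]
          exact_mod_cast h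
      nlinarith
  · filter_upwards [eventually_ge_atTop 4] with A hA n
    by_cases hn : (n : ℝ) = Q
    · rw [if_pos hn, norm_zero]
      positivity
    · rw [if_neg hn, Real.norm_eq_abs, abs_abs]
      rcases Nat.eq_zero_or_pos n with h | h
      · subst h; rw [co_zero]; simp
      refine (abs_co false A hQ n).trans ?_
      have hn0 : (0 : ℝ) < n := by exact_mod_cast h
      have h4 : (Real.sqrt n)⁻¹ ≤ 1 := by
        apply inv_le_one_of_one_le₀
        rw [Real.one_le_sqrt]
        exact_mod_cast h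
      have h5 := ker_small false hA (x := Q / n) (by positivity)
      have h6 : 0 ≤ ker false A (Q / n) := ker_nonneg _ _ (by positivity)
      calc (Real.sqrt n)⁻¹ * ker false A (Q / n) ≤ 1 * ker false A (Q / n) := by gcongr
        _ ≤ Real.exp 4 * (Q / n) ^ 4 := by rw [one_mul]; exact h5
        _ = Real.exp 4 * (Q ^ 4 * (1 / (n : ℝ) ^ 4)) := by rw [div_pow]; ring

lemma summ (e : Bool) {A : ℕ} (hA : 4 ≤ A) {y : ℝ} (hy : 0 < y) :
    Summable (fun n : ℕ => |co e A y n|) := by
  obtain ⟨N, hN, hyN, -, -⟩ := exists_N hy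
  exact (S3_bound e hA hy hN hyN).1

lemma norm_term (e : Bool) (A : ℕ) (y T : ℝ) (n : ℕ) :
    ‖(co e A y n : ℂ) * tm (Real.log n) T‖ = |co e A y n| := by
  rw [norm_mul, norm_tm, mul_one, Complex.norm_real, Real.norm_eq_abs]

end FA

open MV FA

theorem DD_false_one : ∃ A1 : ℕ, 4 ≤ A1 ∧ ∀ A : ℕ, A1 ≤ A → ∀ T : ℝ,
    9 / 10 ≤ ‖DD false A 1 T‖ := by
  have ht := tend (Q := 1) one_pos
  have hev := ht.eventually (gt_mem_nhds (show (0 : ℝ) < 1 / 10 by norm_num))
  obtain ⟨A1, hA1⟩ := eventually_atTop.mp hev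
  refine ⟨max A1 4, le_max_right _ _, fun A hA T => ?_⟩
  have hA4 : 4 ≤ A := (le_max_right _ _).trans hA
  have hs := hA1 A ((le_max_left _ _).trans hA)
  rw [DD_eq]
  have hsn : Summable fun n : ℕ => (co false A 1 n : ℂ) * tm (Real.log n) T := by
    apply Summable.of_norm
    simp only [norm_term]
    exact summ false hA4 one_pos
  rw [hsn.tsum_eq_add_tsum_ite 1]
  have h1 : (co false A 1 1 : ℂ) * tm (Real.log ((1 : ℕ) : ℝ)) T = 1 := by
    have : co false A 1 1 = 1 := by
      unfold co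
      rw [ker_false_eq]
      simp [kap]
    rw [this]
    simp [tm]
  rw [h1]
  have h2 : ‖∑' n : ℕ, (if n = 1 then (0 : ℂ) else (co false A 1 n : ℂ) * tm (Real.log n) T)‖ ≤
      ∑' n : ℕ, if (n : ℝ) = 1 then (0 : ℝ) else |co false A 1 n| := by
    have e : ∀ n : ℕ, ‖(if n = 1 then (0 : ℂ) else (co false A 1 n : ℂ) * tm (Real.log n) T)‖ =
        if (n : ℝ) = 1 then (0 : ℝ) else |co false A 1 n| := by
      intro n
      by_cases hn : n = 1
      · simp [hn]
      · have : (n : ℝ) ≠ 1 := by exact_mod_cast hn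
        simp only [hn, this, if_false, norm_term]
    have hs2 : Summable fun n : ℕ =>
        ‖(if n = 1 then (0 : ℂ) else (co false A 1 n : ℂ) * tm (Real.log n) T)‖ := by
      refine Summable.of_nonneg_of_le (fun n => norm_nonneg _) (fun n => ?_)
        (summ false hA4 one_pos)
      by_cases hn : n = 1
      · simp only [hn, if_true, norm_zero]; exact abs_nonneg _
      · simp only [hn, if_false, norm_term, le_refl]
    refine (norm_tsum_le_tsum_norm hs2).trans (le_of_eq ?_)
    exact tsum_congr e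
  have h3 := norm_add_le_of_le (le_refl ‖(1 : ℂ) + ∑' n : ℕ, (if n = 1 then (0 : ℂ) else (co false A 1 n : ℂ) * tm (Real.log n) T)‖)
    (norm_neg (∑' n : ℕ, (if n = 1 then (0 : ℂ) else (co false A 1 n : ℂ) * tm (Real.log n) T))).le
  rw [add_neg_cancel_right, norm_one] at h3
  linarith

theorem DD_false_q (δ : ℝ) (hδ : 0 < δ) : ∃ A2 : ℕ, 4 ≤ A2 ∧ ∀ A : ℕ, A2 ≤ A → ∀ T : ℝ,
    ‖DD false A (1 + 4 * Real.pi ^ 2 * Real.exp 2) T‖ ≤ δ := by
  set Q : ℝ := 1 + 4 * Real.pi ^ 2 * Real.exp 2 with hQdef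
  have hQ : 0 < Q := by positivity
  have hexp2 : Real.exp 2 = Real.exp 1 * Real.exp 1 := by rw [← Real.exp_add]; norm_num
  have hlo : (292 : ℝ) < Q := by
    have h1 := Real.pi_gt_d6
    have h2 := Real.exp_one_gt_d9
    have h3 : (3.141592 : ℝ) ^ 2 < Real.pi ^ 2 := by gcongr
    have h4 : (2.7182818283 : ℝ) * 2.7182818283 < Real.exp 1 * Real.exp 1 :=
      mul_lt_mul'' h2 h2 (by norm_num) (by norm_num)
    rw [hQdef, hexp2]
    nlinarith [mul_lt_mul'' h3 h4 (by norm_num) (by norm_num)]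
  have hhi : Q < (293 : ℝ) := by
    have h1 := Real.pi_lt_d6
    have h2 := Real.exp_one_lt_d9
    have hp := Real.pi_pos
    have he := Real.exp_pos 1
    have h3 : Real.pi ^ 2 < (3.141593 : ℝ) ^ 2 := by gcongr
    have h4 : Real.exp 1 * Real.exp 1 < (2.7182818286 : ℝ) * 2.7182818286 :=
      mul_lt_mul'' h2 h2 he.le he.le
    rw [hQdef, hexp2]
    nlinarith [mul_lt_mul'' h3 h4 (by positivity) (by positivity)]
  have hne : ∀ n : ℕ, (n : ℝ) ≠ Q := by
    intro n hn
    rw [← hn] at hlo hhi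
    have h1 : 292 < n := by exact_mod_cast hlo
    have h2 : n < 293 := by exact_mod_cast hhi
    omega
  have ht := tend hQ
  have hev := ht.eventually (gt_mem_nhds hδ)
  obtain ⟨A1, hA1⟩ := eventually_atTop.mp hev
  refine ⟨max A1 4, le_max_right _ _, fun A hA T => ?_⟩
  have hA4 : 4 ≤ A := (le_max_right _ _).trans hA
  have hs := hA1 A ((le_max_left _ _).trans hA)
  simp only [hne, if_false] at hs
  rw [DD_eq]
  have hs2 : Summable fun n : ℕ => ‖(co false A Q n : ℂ) * tm (Real.log n) T‖ := by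
    simp only [norm_term]
    exact summ false hA4 hQ
  refine (norm_tsum_le_tsum_norm hs2).trans ?_
  simp only [norm_term]
  exact hs.le

theorem DD_trivial (e : Bool) (A : ℕ) (hA : 4 ≤ A) : ∃ C : ℝ, 0 < C ∧ ∀ y T : ℝ, 0 < y →
    ‖DD e A y T‖ ≤ C * (1 + y) := by
  refine ⟨6 * Real.exp 4, by positivity, fun y T hy => ?_⟩
  obtain ⟨N, hN, hyN, -, hN2⟩ := exists_N hy
  obtain ⟨s3, b3⟩ := S3_bound e hA hy hN hyN
  rw [DD_eq]
  have hs2 : Summable fun n : ℕ => ‖(co e A y n : ℂ) * tm (Real.log n) T‖ := by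
    simp only [norm_term]
    exact s3
  refine (norm_tsum_le_tsum_norm hs2).trans ?_
  simp only [norm_term]
  refine b3.trans ?_
  have hN' : (1 : ℝ) ≤ N := by exact_mod_cast hN
  have h1 : Real.sqrt N ≤ N := by
    rw [Real.sqrt_le_left (by positivity)]
    nlinarith
  have h2 : (N : ℝ) ≤ 1 + 2 * y := by
    nlinarith
  have h3 : 0 < Real.exp 4 := Real.exp_pos _
  have h4 : Real.sqrt N ≤ 2 * (1 + y) := by linarith
  calc 3 * Real.exp 4 * Real.sqrt N ≤ 3 * Real.exp 4 * (2 * (1 + y)) := by gcongr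
    _ = 6 * Real.exp 4 * (1 + y) := by ring

theorem JJ_eq (A : ℕ) (hA : 4 ≤ A) (c Y : ℝ) (hc : 0 < c) (hY : 0 < Y) :
    IntegrableOn (fun T : ℝ => ‖DD true A (c * T) T‖ ^ 2 * Real.exp (-(c * T) / Y)) (Set.Ioi 0) ∧
    JJ c A Y = c * ∫ T in Set.Ioi (0 : ℝ),
      ‖DD true A (c * T) T‖ ^ 2 * Real.exp (-(c * T) / Y) := by
  constructor
  · obtain ⟨C, hC, hb⟩ := DD_trivial true A hA
    have hcont : ContinuousOn (fun T : ℝ => ‖DD true A (c * T) T‖ ^ 2 *
        Real.exp (-(c * T) / Y)) (Set.Ioi 0) := by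
      have h1 : ContinuousOn (fun T : ℝ => DD true A (c * T) T) (Set.Ioi 0) := by
        have h2 := DD_cont true A hA
        exact h2.comp (f := fun T : ℝ => ((c * T, T) : ℝ × ℝ)) (by fun_prop)
          (fun T hT => ⟨mul_pos hc hT, trivial⟩)
      exact (h1.norm.pow 2).mul (by fun_prop)
    set a : ℝ := 1 / (2 * Y) with ha
    have ha0 : 0 < a := by positivity
    set K : ℝ := 1 + 2 / a + 2 / a ^ 2 with hK
    have hKpos : 0 < K := by positivity
    have hpoly : ∀ u : ℝ, 0 ≤ u → (1 + u) ^ 2 ≤ K * Real.exp (a * u) := by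
      intro u hu
      have h1 := Real.quadratic_le_exp_of_nonneg (x := a * u) (by positivity)
      have h2 : (1 + u) ^ 2 ≤ K * (1 + a * u + (a * u) ^ 2 / 2) := by
        have e1 : K * (1 + a * u + (a * u) ^ 2 / 2) = (1 + u) ^ 2 + (2 / a + 2 / a ^ 2 + a * u +
            2 / a * u + (a * u) ^ 2 / 2 + a * u ^ 2) := by
          rw [hK]; field_simp; ring
        rw [e1]
        have : 0 ≤ 2 / a + 2 / a ^ 2 + a * u + 2 / a * u + (a * u) ^ 2 / 2 + a * u ^ 2 := by
          positivity
        linarith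
      exact h2.trans (by gcongr)
    have hmaj : IntegrableOn (fun T : ℝ => C ^ 2 * K * Real.exp (-(a * c) * T)) (Set.Ioi 0) :=
      (exp_neg_integrableOn_Ioi 0 (by positivity)).const_mul _
    refine hmaj.mono' (hcont.aestronglyMeasurable measurableSet_Ioi) ?_
    rw [ae_restrict_iff' measurableSet_Ioi]
    refine Eventually.of_forall fun T hT => ?_
    have hT' : 0 < T := hT
    have hcT : 0 < c * T := by positivity
    rw [Real.norm_of_nonneg (by positivity)]
    have h1 : ‖DD true A (c * T) T‖ ^ 2 ≤ (C * (1 + c * T)) ^ 2 := by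
      have := hb (c * T) T hcT
      gcongr
    have h2 := hpoly (c * T) hcT.le
    calc ‖DD true A (c * T) T‖ ^ 2 * Real.exp (-(c * T) / Y)
        ≤ (C * (1 + c * T)) ^ 2 * Real.exp (-(c * T) / Y) := by gcongr
      _ = C ^ 2 * (1 + c * T) ^ 2 * Real.exp (-(c * T) / Y) := by ring
      _ ≤ C ^ 2 * (K * Real.exp (a * (c * T))) * Real.exp (-(c * T) / Y) := by gcongr
      _ = C ^ 2 * K * (Real.exp (a * (c * T)) * Real.exp (-(c * T) / Y)) := by ring
      _ = C ^ 2 * K * Real.exp (-(a * c) * T) := by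
          rw [← Real.exp_add]
          congr 2
          rw [ha]
          field_simp
          ring
  · unfold JJ
    have h := MeasureTheory.integral_comp_mul_left_Ioi
      (fun y : ℝ => ‖DD true A y (y / c)‖ ^ 2 * Real.exp (-y / Y)) 0 hc
    rw [mul_zero] at h
    have e : ∀ T : ℝ, c * T / c = T := fun T => by field_simp
    simp only [e] at h
    rw [h, smul_eq_mul, ← mul_assoc, mul_inv_cancel₀ hc.ne', one_mul]

end H345
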