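import Pool.Agent.H345R2.Defs

open Complex Filter Topology Set MeasureTheory

namespace H345

/-- weighted first moment of the coefficients in the window -/
noncomputable def S1 (A : ℕ) (X T : ℝ) : ℝ :=
  ∑ᶠ t ∈ Zw X T, ‖WW A (((t - T : ℝ) : ℂ) * I)‖ * (1 + |t - T|) ^ 2 * ‖aa t‖

/-- diagonal term of the energy -/
noncomputable def D2 (A : ℕ) (X T : ℝ) : ℝ :=
  ∑ᶠ t ∈ Zw X T, ‖WW A (((t - T : ℝ) : ℂ) * I)‖ ^ 2 * ‖aa t‖ ^ 2

/-- the bad set attached to a finite set of exceptional points -/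
def BB (V X : ℝ) (E : Finset ℝ) : Set ℝ := Set.Iio V ∪ Set.Ioi X ∪ (E : Set ℝ)

end H345
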