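import Pool.Agent.H345R2.Res
import Pool.Agent.H345R2.ExpInt
import Pool.Agent.H345R2.Defs2
import Pool.Agent.H345R2.Kernel
import Pool.Agent.H345R2.Chi

set_option autoImplicit false

open Complex Filter Topology Set MeasureTheory

namespace H345


lemma Zw_finite (X T : ℝ) : (Zw X T).Finite := Zo_finite _ _

lemma mem_Zw {X T t : ℝ} : t ∈ Zw X T ↔ t ∈ Zo ∧ |t - T| ≤ (Real.log X) ^ 2 := by
  rw [Zw, mem_inter_iff, mem_Icc, abs_le]
  constructor
  · rintro ⟨h1, h2, h3⟩; exact ⟨h1, by linarith, by linarith⟩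
  · rintro ⟨h1, h2, h3⟩; exact ⟨h1, by linarith, by linarith⟩

lemma norm_WE (e : Bool) (A : ℕ) (τ : ℝ) : ‖WE e A ((τ : ℂ) * I)‖ = ‖WW A ((τ : ℂ) * I)‖ := by
  cases e
  · simp only [WE, Bool.false_eq_true, if_false]
    rw [← WW_conj, RCLike.norm_conj]
  · simp [WE]

lemma norm_cpow_I {y : ℝ} (hy : 0 < y) (τ : ℝ) : ‖(y : ℂ) ^ ((τ : ℂ) * I)‖ = 1 := by
  rw [Complex.norm_cpow_eq_rpow_re_of_pos hy]; simp

lemma cpow_I_eq {y : ℝ} (hy : 0 < y) (τ : ℝ) :
    (y : ℂ) ^ ((τ : ℂ) * I) = cexp (((Real.log y * τ : ℝ) : ℂ) * I) := by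
  rw [Complex.cpow_def_of_ne_zero (by exact_mod_cast hy.ne'), ← Complex.ofReal_log hy.le]
  congr 1
  push_cast
  ring

lemma shift (e : Bool) (A : ℕ) (φ X T : ℝ) (hφ : 0 ≤ φ) (hX : 1 ≤ Real.log X)
    (hL : Latt φ X T) (y : ℝ) (hy : 0 < y) :
    |‖ZZ e A X (y * Real.exp (2 * (Real.log T + 1))) T‖ - ‖ZZ e A X y T‖| ≤
      2 * φ * Real.log X * S1 A X T := by
  have hf := Zw_finite X T
  simp only [ZZ, S1]
  rw [finsum_mem_eq_finite_toFinset_sum _ hf, finsum_mem_eq_finite_toFinset_sum _ hf,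
    finsum_mem_eq_finite_toFinset_sum _ hf]
  set S := hf.toFinset with hS
  rcases S.eq_empty_or_nonempty with h0 | hne
  · rw [h0]; simp
  obtain ⟨t0, ht0, hmin⟩ := S.exists_min_image (fun t => |t - T|) hne
  set P := 2 * (Real.log T + 1) with hP
  set c0 : ℂ := cexp (((P * (t0 - T) : ℝ) : ℂ) * I) with hc0
  have hc0n : ‖c0‖ = 1 := by rw [hc0]; exact Complex.norm_exp_ofReal_mul_I _
  have hterm : ∀ t : ℝ, ((y * Real.exp P : ℝ) : ℂ) ^ (((t - T : ℝ) : ℂ) * I) =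
      (y : ℂ) ^ (((t - T : ℝ) : ℂ) * I) * cexp (((P * (t - T) : ℝ) : ℂ) * I) := by
    intro t
    rw [cpow_I_eq (by positivity), cpow_I_eq hy, ← Complex.exp_add,
      Real.log_mul hy.ne' (Real.exp_pos _).ne', Real.log_exp]
    congr 1
    push_cast
    ring
  have hdiff : (∑ t ∈ S, WE e A (((t - T : ℝ) : ℂ) * I) *
      ((y * Real.exp P : ℝ) : ℂ) ^ (((t - T : ℝ) : ℂ) * I) * aa t) -
      c0 * ∑ t ∈ S, WE e A (((t - T : ℝ) : ℂ) * I) * (y : ℂ) ^ (((t - T : ℝ) : ℂ) * I) * aa t =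
      ∑ t ∈ S, WE e A (((t - T : ℝ) : ℂ) * I) * (y : ℂ) ^ (((t - T : ℝ) : ℂ) * I) * aa t *
        (c0 * (cexp (((P * (t - t0) : ℝ) : ℂ) * I) - 1)) := by
    rw [Finset.mul_sum, ← Finset.sum_sub_distrib]
    apply Finset.sum_congr rfl
    intro t _
    rw [hterm t]
    have : cexp (((P * (t - T) : ℝ) : ℂ) * I) = c0 * cexp (((P * (t - t0) : ℝ) : ℂ) * I) := by
      rw [hc0, ← Complex.exp_add]; congr 1; push_cast; ring
    rw [this]
    ring
  have hbound : ‖(∑ t ∈ S, WE e A (((t - T : ℝ) : ℂ) * I) *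
      ((y * Real.exp P : ℝ) : ℂ) ^ (((t - T : ℝ) : ℂ) * I) * aa t) -
      c0 * ∑ t ∈ S, WE e A (((t - T : ℝ) : ℂ) * I) * (y : ℂ) ^ (((t - T : ℝ) : ℂ) * I) * aa t‖ ≤
      2 * φ * Real.log X *
        ∑ t ∈ S, ‖WW A (((t - T : ℝ) : ℂ) * I)‖ * (1 + |t - T|) ^ 2 * ‖aa t‖ := by
    rw [hdiff, Finset.mul_sum]
    refine (norm_sum_le _ _).trans (Finset.sum_le_sum fun t ht => ?_)
    rw [norm_mul, norm_mul, norm_mul, norm_mul, norm_WE, norm_cpow_I hy, hc0n, mul_one, one_mul]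
    have h1 : t ∈ Zo ∧ |t - T| ≤ (Real.log X) ^ 2 := by
      rw [hS, Set.Finite.mem_toFinset] at ht; exact mem_Zw.1 ht
    have h2 : t0 ∈ Zo ∧ |t0 - T| ≤ (Real.log X) ^ 2 := by
      rw [hS, Set.Finite.mem_toFinset] at ht0; exact mem_Zw.1 ht0
    have h3 := hL t h1.1 t0 h2.1 (by linarith [h1.2]) (by linarith [h2.2])
    rw [← hP] at h3
    have h4 : |t - t0| ≤ 2 * |t - T| := by
      have := hmin t ht
      calc |t - t0| = |(t - T) - (t0 - T)| := by ring_nf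
        _ ≤ |t - T| + |t0 - T| := abs_sub _ _
        _ ≤ 2 * |t - T| := by linarith
    have h5 : ‖cexp (((P * (t - t0) : ℝ) : ℂ) * I) - 1‖ ≤ φ * Real.log X * (2 * |t - T|) :=
      h3.trans (mul_le_mul_of_nonneg_left h4 (by positivity))
    have h6 : |t - T| ≤ (1 + |t - T|) ^ 2 := by nlinarith [abs_nonneg (t - T)]
    calc ‖WW A (((t - T : ℝ) : ℂ) * I)‖ * ‖aa t‖ * ‖cexp (((P * (t - t0) : ℝ) : ℂ) * I) - 1‖ ≤
          ‖WW A (((t - T : ℝ) : ℂ) * I)‖ * ‖aa t‖ * (φ * Real.log X * (2 * (1 + |t - T|) ^ 2)) := by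
          apply mul_le_mul_of_nonneg_left _ (by positivity)
          exact h5.trans (mul_le_mul_of_nonneg_left (by linarith) (by positivity))
      _ = _ := by ring
  have h7 := abs_norm_sub_norm_le (∑ t ∈ S, WE e A (((t - T : ℝ) : ℂ) * I) *
      ((y * Real.exp P : ℝ) : ℂ) ^ (((t - T : ℝ) : ℂ) * I) * aa t)
      (c0 * ∑ t ∈ S, WE e A (((t - T : ℝ) : ℂ) * I) * (y : ℂ) ^ (((t - T : ℝ) : ℂ) * I) * aa t)
  rw [norm_mul c0, hc0n, one_mul] at h7
  exact h7.trans hbound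

theorem reflect (A : ℕ) (hA : 4 ≤ A) : ∃ C X0 : ℝ, 0 < C ∧ 10 ≤ X0 ∧ ∀ X : ℝ, X0 ≤ X →
    ∀ T : ℝ, Real.sqrt X ≤ T → T ≤ X → ∀ y : ℝ, 0 < y →
    |‖ZZ true A X y T‖ - ‖ZZ false A X (2 * Real.pi / (y * T)) T‖| ≤ C / T * S1 A X T := by
  obtain ⟨C, T0, hC, hT0, hloc⟩ := XX_local
  have e1 : ∀ᶠ X : ℝ in atTop, T0 ≤ Real.sqrt X := Real.tendsto_sqrt_atTop.eventually_ge_atTop T0
  have e2 : ∀ᶠ X : ℝ in atTop, (Real.log X) ^ 2 ≤ (1 / 2) * Real.sqrt X := by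
    have h := (isLittleO_log_rpow_atTop (r := 1 / 4) (by norm_num)).def (c := 1 / 2) (by norm_num)
    filter_upwards [h, Real.tendsto_log_atTop.eventually_ge_atTop 10, eventually_ge_atTop 1]
      with X hX h1 h2
    rw [Real.norm_of_nonneg (by linarith), Real.norm_of_nonneg (by positivity)] at hX
    have h3 : (Real.log X) ^ 2 ≤ (1 / 2 * X ^ (1 / 4 : ℝ)) ^ 2 :=
      pow_le_pow_left₀ (by linarith) hX 2
    have h4 : (1 / 2 * X ^ (1 / 4 : ℝ)) ^ 2 = 1 / 4 * Real.sqrt X := by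
      rw [mul_pow, ← Real.rpow_natCast (X ^ (1 / 4 : ℝ)) 2, ← Real.rpow_mul (by linarith),
        Real.sqrt_eq_rpow]
      norm_num
    have h5 := Real.sqrt_nonneg X
    linarith
  obtain ⟨X0, hX0⟩ := eventually_atTop.1 (e1.and e2)
  refine ⟨C, max 10 X0, hC, le_max_left _ _, fun X hX T hT1 hT2 y hy => ?_⟩
  obtain ⟨h1, h2⟩ := hX0 X ((le_max_right _ _).trans hX)
  have hTT : T0 ≤ T := h1.trans hT1
  have hT : 0 < T := by linarith
  have hf := Zw_finite X T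
  simp only [ZZ, S1]
  rw [finsum_mem_eq_finite_toFinset_sum _ hf, finsum_mem_eq_finite_toFinset_sum _ hf,
    finsum_mem_eq_finite_toFinset_sum _ hf]
  set S := hf.toFinset with hS
  set χ := XX (1 / 2 + (T : ℂ) * I) with hχ
  have hχn : ‖χ‖ = 1 := norm_XX_half T
  set u : ℂ := ∑ t ∈ S, WE true A (((t - T : ℝ) : ℂ) * I) *
      ((y : ℝ) : ℂ) ^ (((t - T : ℝ) : ℂ) * I) * aa t with hu
  set v : ℂ := ∑ t ∈ S, WE false A (((t - T : ℝ) : ℂ) * I) *
      ((2 * Real.pi / (y * T) : ℝ) : ℂ) ^ (((t - T : ℝ) : ℂ) * I) * aa t with hv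
  have hnorm : ‖-χ * (starRingEnd ℂ) u‖ = ‖u‖ := by
    rw [norm_mul, norm_neg, hχn, one_mul, RCLike.norm_conj]
  have hkey : -χ * (starRingEnd ℂ) u - v = ∑ t ∈ S, WE false A (((t - T : ℝ) : ℂ) * I) * aa t *
      ((starRingEnd ℂ) ((y : ℂ) ^ (((t - T : ℝ) : ℂ) * I)) *
        ((χ * cexp ((((t - T) * Real.log (T / (2 * Real.pi)) : ℝ) : ℂ) * I) -
          XX (1 / 2 + (t : ℂ) * I)) / (XX (1 / 2 + (t : ℂ) * I) *
            cexp ((((t - T) * Real.log (T / (2 * Real.pi)) : ℝ) : ℂ) * I)))) := by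
    rw [hu, hv, map_sum, Finset.mul_sum, ← Finset.sum_sub_distrib]
    apply Finset.sum_congr rfl
    intro t ht
    rw [hS, Set.Finite.mem_toFinset, mem_Zw] at ht
    have hX1 : XX (1 / 2 + (t : ℂ) * I) ≠ 0 := by
      intro h; have := norm_XX_half t; rw [h] at this; simp at this
    have hE : cexp ((((t - T) * Real.log (T / (2 * Real.pi)) : ℝ) : ℂ) * I) ≠ 0 :=
      Complex.exp_ne_zero _
    rw [map_mul, map_mul, aa_conj t ht.1]
    have hw : (starRingEnd ℂ) (WE true A (((t - T : ℝ) : ℂ) * I)) =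
        WE false A (((t - T : ℝ) : ℂ) * I) := by
      simp only [WE, if_true, Bool.false_eq_true, if_false]
      exact WW_conj A (t - T)
    rw [hw]
    have hy2 : ((2 * Real.pi / (y * T) : ℝ) : ℂ) ^ (((t - T : ℝ) : ℂ) * I) =
        (starRingEnd ℂ) ((y : ℂ) ^ (((t - T : ℝ) : ℂ) * I)) *
          (cexp ((((t - T) * Real.log (T / (2 * Real.pi)) : ℝ) : ℂ) * I))⁻¹ := by
      rw [cpow_I_eq (by positivity), cpow_I_eq hy, ← Complex.exp_conj, ← Complex.exp_neg,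
        ← Complex.exp_add, Real.log_div (by positivity) (by positivity),
        Real.log_div (by positivity) (by positivity),
        Real.log_mul hy.ne' hT.ne']
      congr 1
      simp only [map_mul, Complex.conj_ofReal, Complex.conj_I]
      push_cast
      ring
    rw [hy2]
    clear hy2 hw
    generalize XX (1 / 2 + (t : ℂ) * I) = x at hX1 ⊢
    generalize cexp ((((t - T) * Real.log (T / (2 * Real.pi)) : ℝ) : ℂ) * I) = E at hE ⊢
    generalize (starRingEnd ℂ) ((y : ℂ) ^ (((t - T : ℝ) : ℂ) * I)) = z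
    field_simp
  have hb : ‖-χ * (starRingEnd ℂ) u - v‖ ≤ C / T *
      ∑ t ∈ S, ‖WW A (((t - T : ℝ) : ℂ) * I)‖ * (1 + |t - T|) ^ 2 * ‖aa t‖ := by
    rw [hkey, Finset.mul_sum]
    refine (norm_sum_le _ _).trans (Finset.sum_le_sum fun t ht => ?_)
    rw [hS, Set.Finite.mem_toFinset, mem_Zw] at ht
    have h3 := hloc T hTT (t - T) (by linarith [ht.2])
    have h4 : ((T + (t - T) : ℝ) : ℂ) = (t : ℂ) := by push_cast; ring
    rw [h4, norm_sub_rev] at h3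
    rw [norm_mul, norm_mul, norm_mul, norm_div, norm_mul, norm_WE, RCLike.norm_conj,
      norm_cpow_I hy, norm_XX_half, Complex.norm_exp_ofReal_mul_I, one_mul, mul_one, div_one]
    have h5 : 1 + (t - T) ^ 2 ≤ (1 + |t - T|) ^ 2 := by
      nlinarith [abs_nonneg (t - T), sq_abs (t - T)]
    calc ‖WW A (((t - T : ℝ) : ℂ) * I)‖ * ‖aa t‖ *
          ‖χ * cexp ((((t - T) * Real.log (T / (2 * Real.pi)) : ℝ) : ℂ) * I) -
          XX (1 / 2 + (t : ℂ) * I)‖ ≤ ‖WW A (((t - T : ℝ) : ℂ) * I)‖ * ‖aa t‖ *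
            (C * (1 + |t - T|) ^ 2 / T) := by
          apply mul_le_mul_of_nonneg_left _ (by positivity)
          refine h3.trans ?_
          gcongr
      _ = _ := by ring
  have h7 := abs_norm_sub_norm_le (-χ * (starRingEnd ℂ) u) v
  rw [hnorm] at h7
  exact h7.trans hb

/-- exponential sums over spaced sets -/
lemma sum_spaced (S : Finset ℝ) (δ T : ℝ) (hδ : 0 < δ) (hδ1 : δ ≤ 1)
    (hS : ∀ t ∈ S, ∀ t' ∈ S, t ≠ t' → δ ≤ |t - t'|) :
    ∑ t ∈ S, Real.exp (-|t - T| / 2) ≤ 8 / δ := by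
  have hI := (exp_half_int T).1
  have h1 : ∀ t ∈ S, δ * Real.exp (-|t - T| / 2) ≤
      Real.exp (1 / 4) * ∫ v in Ioo (t - δ / 2) (t + δ / 2), Real.exp (-|v - T| / 2) := by
    intro t _
    rw [← integral_const_mul]
    have h2 : ∫ v in Ioo (t - δ / 2) (t + δ / 2), Real.exp (-|t - T| / 2) =
        δ * Real.exp (-|t - T| / 2) := by
      rw [setIntegral_const]
      simp only [Measure.real, Real.volume_Ioo, smul_eq_mul]
      rw [ENNReal.toReal_ofReal (by linarith)]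
      ring
    rw [← h2]
    apply setIntegral_mono_on
    · exact integrableOn_const (by simp [Real.volume_Ioo]) (by simp)
    · exact (hI.const_mul _).integrableOn
    · exact measurableSet_Ioo
    · intro v hv
      rw [← Real.exp_add]
      apply Real.exp_le_exp.2
      have : |v - T| ≤ |t - T| + δ / 2 := by
        calc |v - T| = |(v - t) + (t - T)| := by ring_nf
          _ ≤ |v - t| + |t - T| := abs_add_le _ _
          _ ≤ |t - T| + δ / 2 := by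
              have : |v - t| ≤ δ / 2 := by rw [abs_le]; constructor <;> linarith [hv.1, hv.2]
              linarith
      linarith
  have h3 : ∑ t ∈ S, ∫ v in Ioo (t - δ / 2) (t + δ / 2), Real.exp (-|v - T| / 2) ≤ 4 := by
    rw [← integral_biUnion_finset]
    · calc _ ≤ ∫ v : ℝ, Real.exp (-|v - T| / 2) :=
          setIntegral_le_integral hI (Eventually.of_forall fun v => by positivity)
        _ = 4 := (exp_half_int T).2
    · intro t _; exact measurableSet_Ioo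
    · intro t ht t' ht' hne
      rw [Function.onFun, Set.disjoint_left]
      intro v hv hv'
      have := hS t ht t' ht' hne
      have h4 : |t - t'| < δ := by
        rw [abs_lt]; constructor <;> linarith [hv.1, hv.2, hv'.1, hv'.2]
      linarith
    · intro t _; exact hI.integrableOn
  rw [le_div_iff₀ hδ, Finset.sum_mul]
  have h5 : Real.exp (1 / 4) ≤ 2 := by
    have := Real.exp_one_lt_d9
    have h6 : Real.exp (1 / 4) ≤ Real.exp 1 := Real.exp_le_exp.2 (by norm_num)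
    have h7 : Real.exp (1 / 4) ^ 4 = Real.exp 1 := by rw [← Real.exp_nat_mul]; norm_num
    by_contra h8
    push Not at h8
    have : (2 : ℝ) ^ 4 < Real.exp (1 / 4) ^ 4 := pow_lt_pow_left₀ h8 (by norm_num) (by norm_num)
    rw [h7] at this
    norm_num at this
    linarith
  calc ∑ t ∈ S, Real.exp (-|t - T| / 2) * δ ≤ ∑ t ∈ S, Real.exp (1 / 4) *
        ∫ v in Ioo (t - δ / 2) (t + δ / 2), Real.exp (-|v - T| / 2) :=
        Finset.sum_le_sum fun t ht => by rw [mul_comm]; exact h1 t ht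
    _ = Real.exp (1 / 4) * ∑ t ∈ S, ∫ v in Ioo (t - δ / 2) (t + δ / 2),
        Real.exp (-|v - T| / 2) := by rw [Finset.mul_sum]
    _ ≤ 2 * 4 := by
        apply mul_le_mul h5 h3 _ (by norm_num)
        exact Finset.sum_nonneg fun t _ => setIntegral_nonneg measurableSet_Ioo fun v _ => by positivity
    _ = 8 := by norm_num

/-- the weights in the window sum to `O(log X)` -/
lemma sum_WW (A : ℕ) (hA : 4 ≤ A) : ∃ C : ℝ, 0 < C ∧ ∀ X T : ℝ, 2 ≤ Real.log X → Spaced X T →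
    ∑ t ∈ (Zw_finite X T).toFinset, ‖WW A (((t - T : ℝ) : ℂ) * I)‖ ≤ C * Real.log X := by
  obtain ⟨C, hC, hW⟩ := WW_bound A hA
  refine ⟨C * 4, by positivity, fun X T hX hSp => ?_⟩
  have h1 := sum_spaced (Zw_finite X T).toFinset (2 / Real.log X) T (by positivity)
    (by rw [div_le_one (by linarith)]; exact hX) (by
      intro t ht t' ht' hne
      rw [Set.Finite.mem_toFinset, mem_Zw] at ht ht'
      exact hSp.2 t ht.1 t' ht'.1 (by linarith [ht.2]) (by linarith [ht'.2]) hne)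
  have h2 : 8 / (2 / Real.log X) = 4 * Real.log X := by field_simp; norm_num
  rw [h2] at h1
  calc ∑ t ∈ (Zw_finite X T).toFinset, ‖WW A (((t - T : ℝ) : ℂ) * I)‖ ≤
        ∑ t ∈ (Zw_finite X T).toFinset, C * Real.exp (-|t - T| / 2) := by
        apply Finset.sum_le_sum
        intro t _
        have := hW (((t - T : ℝ) : ℂ) * I) (by simp)
        simpa using this
    _ = C * ∑ t ∈ (Zw_finite X T).toFinset, Real.exp (-|t - T| / 2) := by rw [Finset.mul_sum]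
    _ ≤ C * (4 * Real.log X) := mul_le_mul_of_nonneg_left h1 hC.le
    _ = C * 4 * Real.log X := by ring

lemma cs_weight (S : Finset ℝ) (w a : ℝ → ℝ) (hw : ∀ t ∈ S, 0 ≤ w t) :
    (∑ t ∈ S, w t * a t) ^ 2 ≤ (∑ t ∈ S, w t) * ∑ t ∈ S, w t * a t ^ 2 := by
  have h := Finset.sum_mul_sq_le_sq_mul_sq S (fun t => Real.sqrt (w t))
    (fun t => Real.sqrt (w t) * a t)
  have h1 : ∑ t ∈ S, Real.sqrt (w t) * (Real.sqrt (w t) * a t) = ∑ t ∈ S, w t * a t :=
    Finset.sum_congr rfl fun t ht => by rw [← mul_assoc, Real.mul_self_sqrt (hw t ht)]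
  have h2 : ∑ t ∈ S, Real.sqrt (w t) ^ 2 = ∑ t ∈ S, w t :=
    Finset.sum_congr rfl fun t ht => by rw [Real.sq_sqrt (hw t ht)]
  have h3 : ∑ t ∈ S, (Real.sqrt (w t) * a t) ^ 2 = ∑ t ∈ S, w t * a t ^ 2 :=
    Finset.sum_congr rfl fun t ht => by rw [mul_pow, Real.sq_sqrt (hw t ht)]
  rw [h1, h2, h3] at h
  exact h

theorem S1_sq (A : ℕ) (hA : 4 ≤ A) : ∃ C X0 : ℝ, 0 < C ∧ 10 ≤ X0 ∧ ∀ X : ℝ, X0 ≤ X →
    ∀ T : ℝ, Spaced X T → (S1 A X T) ^ 2 ≤ C * Real.log X * N2 A X T := by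
  obtain ⟨C, hC, h⟩ := sum_WW A hA
  refine ⟨C, 10, hC, le_rfl, fun X hX T hSp => ?_⟩
  have hL : 2 ≤ Real.log X := by
    rw [Real.le_log_iff_exp_le (by linarith)]
    have h1 := Real.exp_one_lt_d9
    have h2 : Real.exp 2 = Real.exp 1 * Real.exp 1 := by rw [← Real.exp_add]; norm_num
    rw [h2]
    nlinarith [Real.exp_pos 1]
  have hs := h X T hL hSp
  have hf := Zw_finite X T
  simp only [S1, N2]
  rw [finsum_mem_eq_finite_toFinset_sum _ hf, finsum_mem_eq_finite_toFinset_sum _ hf]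
  have h1 := cs_weight hf.toFinset (fun t => ‖WW A (((t - T : ℝ) : ℂ) * I)‖)
    (fun t => (1 + |t - T|) ^ 2 * ‖aa t‖) (fun t _ => norm_nonneg _)
  have h2 : ∑ t ∈ hf.toFinset, ‖WW A (((t - T : ℝ) : ℂ) * I)‖ * ((1 + |t - T|) ^ 2 * ‖aa t‖) =
      ∑ t ∈ hf.toFinset, ‖WW A (((t - T : ℝ) : ℂ) * I)‖ * (1 + |t - T|) ^ 2 * ‖aa t‖ :=
    Finset.sum_congr rfl fun t _ => by ring
  have h3 : ∑ t ∈ hf.toFinset, ‖WW A (((t - T : ℝ) : ℂ) * I)‖ * ((1 + |t - T|) ^ 2 * ‖aa t‖) ^ 2 =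
      ∑ t ∈ hf.toFinset, ‖WW A (((t - T : ℝ) : ℂ) * I)‖ * (1 + |t - T|) ^ 4 * ‖aa t‖ ^ 2 :=
    Finset.sum_congr rfl fun t _ => by ring
  rw [h2, h3] at h1
  refine h1.trans (mul_le_mul_of_nonneg_right hs ?_)
  exact Finset.sum_nonneg fun t _ => by positivity

end H345
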