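import Pool.Agent.H345R2.Pairing
import Pool.Agent.H345R2.Window
import Pool.Agent.H345R2.Lower

set_option autoImplicit false

open Complex Filter Topology Set MeasureTheory

namespace H345

namespace Phase

lemma WW_ne (A : ℕ) (hA : 4 ≤ A) (τ : ℝ) : WW A ((τ : ℂ) * I) ≠ 0 := by
  have hA' : (4:ℝ) ≤ A := by exact_mod_cast hA
  rw [WW]
  apply mul_ne_zero
  · apply mul_ne_zero
    · exact_mod_cast (Real.exp_pos _).ne'
    · rw [Complex.cpow_ne_zero_iff]
      left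
      have : A ≠ 0 := by omega
      exact_mod_cast this
  · apply Complex.Gamma_ne_zero
    intro m hm
    have := congrArg Complex.re hm
    simp at this
    have : (0:ℝ) ≤ m := Nat.cast_nonneg m
    linarith

lemma WW_line_cont (A : ℕ) (hA : 4 ≤ A) : Continuous (fun τ : ℝ => WW A ((τ : ℂ) * I)) := by
  have hA' : (4:ℝ) ≤ A := by exact_mod_cast hA
  rw [continuous_iff_continuousAt]
  intro τ
  have h1 : ContinuousAt (WW A) (((τ:ℝ):ℂ) * I) :=
    (WW_diff A _ (by simp; linarith)).continuousAt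
  have h2 : ContinuousAt (fun τ : ℝ => (τ:ℂ) * I) τ := by fun_prop
  exact ContinuousAt.comp (f := fun τ : ℝ => (τ:ℂ) * I) h1 h2

/-- the kernel and its Lipschitz constant on the line -/
lemma WW_lip (A : ℕ) (hA : 4 ≤ A) : ∃ C : ℝ, 0 < C ∧ ∀ (k : ℤ) (s s' : ℝ), |s| ≤ 1 → |s'| ≤ 1 →
    ‖WW A (((s + k : ℝ) : ℂ) * I)‖ ≤ C * Real.exp (-|(k:ℝ)| / 2) ∧
    ‖WW A (((s + k : ℝ) : ℂ) * I) - WW A (((s' + k : ℝ) : ℂ) * I)‖ ≤
      C * Real.exp (-|(k:ℝ)| / 2) * |s - s'| := by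
  have hA' : (4:ℝ) ≤ A := by exact_mod_cast hA
  obtain ⟨C, hC, hW⟩ := WW_bound A hA
  refine ⟨C * Real.exp 1, by positivity, fun k s s' hs hs' => ⟨?_, ?_⟩⟩
  · have h := hW (((s + k : ℝ) : ℂ) * I) (by simp)
    have him : (((s + k : ℝ) : ℂ) * I).im = s + k := by simp
    rw [him] at h
    refine h.trans ?_
    rw [mul_assoc, ← Real.exp_add]
    gcongr
    have : |(k:ℝ)| ≤ |s + k| + |s| := by
      calc |(k:ℝ)| = |(s + k) - s| := by ring_nf
        _ ≤ |s + k| + |s| := abs_sub _ _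
    linarith
  · have hderiv : ∀ u ∈ Set.Icc ((k:ℝ) - 1) (k + 1), ‖deriv (WW A) ((u : ℂ) * I)‖ ≤
        C * Real.exp 1 * Real.exp (-|(k:ℝ)| / 2) := by
      intro u hu
      have hd : DiffContOnCl ℂ (WW A) (Metric.ball ((u : ℂ) * I) 1) := by
        apply DifferentiableOn.diffContOnCl
        intro w hw
        rw [closure_ball _ (by norm_num), Metric.mem_closedBall, dist_eq_norm] at hw
        apply (WW_diff A w _).differentiableWithinAt
        have h1 := (Complex.abs_re_le_norm _).trans hw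
        rw [abs_le] at h1
        simp at h1
        linarith
      have := Complex.norm_deriv_le_of_forall_mem_sphere_norm_le (f := WW A) (c := (u : ℂ) * I)
        (R := 1) (C := C * Real.exp 1 * Real.exp (-|(k:ℝ)| / 2)) (by norm_num) hd (by
          intro w hw
          rw [mem_sphere_iff_norm] at hw
          have h1 := (Complex.abs_re_le_norm _).trans hw.le
          have h2 := (Complex.abs_im_le_norm _).trans hw.le
          simp at h1 h2
          refine (hW w (by linarith)).trans ?_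
          rw [mul_assoc, ← Real.exp_add]
          gcongr
          have h3 : |(k:ℝ)| ≤ |w.im| + |w.im - u| + |u - k| := by
            calc |(k:ℝ)| = |w.im - (w.im - u) - (u - k)| := by ring_nf
              _ ≤ |w.im - (w.im - u)| + |u - k| := abs_sub _ _
              _ ≤ |w.im| + |w.im - u| + |u - k| := by gcongr; exact abs_sub _ _
          have h4 : |u - k| ≤ 1 := by rw [abs_le]; constructor <;> linarith [hu.1, hu.2]
          linarith)
      simpa using this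
    have hdiff : ∀ u ∈ Set.Icc ((k:ℝ) - 1) (k + 1),
        HasDerivWithinAt (fun u : ℝ => WW A ((u : ℂ) * I)) (deriv (WW A) ((u : ℂ) * I) * I)
          (Set.Icc ((k:ℝ) - 1) (k + 1)) u := by
      intro u _
      have h1 : HasDerivAt (WW A) (deriv (WW A) ((u : ℂ) * I)) ((u : ℂ) * I) :=
        (WW_diff A _ (by simp; linarith)).hasDerivAt
      have h2 : HasDerivAt (fun u : ℂ => u * I) I (u : ℂ) := by
        simpa using (hasDerivAt_id (u : ℂ)).mul_const I
      have h3 := (HasDerivAt.comp (x := (u:ℂ)) (h := fun u : ℂ => u * I) h1 h2).comp_ofReal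
      exact h3.hasDerivWithinAt
    have := Convex.norm_image_sub_le_of_norm_hasDerivWithin_le
      (f := fun u : ℝ => WW A ((u : ℂ) * I)) (C := C * Real.exp 1 * Real.exp (-|(k:ℝ)| / 2))
      (s := Set.Icc ((k:ℝ) - 1) (k + 1)) (x := s' + k) (y := s + k) hdiff
      (fun u hu => by rw [norm_mul, Complex.norm_I, mul_one]; exact hderiv u hu)
      (convex_Icc _ _)
      (by rw [abs_le] at hs'; constructor <;> linarith [hs'.1, hs'.2])
      (by rw [abs_le] at hs; constructor <;> linarith [hs.1, hs.2])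
    rw [Real.norm_eq_abs, show s + (k:ℝ) - (s' + k) = s - s' by ring] at this
    exact this

/-- bounds for the ratio -/
lemma ratio (A : ℕ) (hA : 4 ≤ A) : ∃ C : ℝ, 0 < C ∧ ∀ (k : ℤ) (s s' : ℝ), |s| ≤ 1 → |s'| ≤ 1 →
    ‖WW A (((s + k : ℝ) : ℂ) * I) / WW A ((s : ℂ) * I)‖ ≤ C * Real.exp (-|(k:ℝ)| / 2) ∧
    ‖WW A (((s + k : ℝ) : ℂ) * I) / WW A ((s : ℂ) * I) -
      WW A (((s' + k : ℝ) : ℂ) * I) / WW A ((s' : ℂ) * I)‖ ≤
      C * Real.exp (-|(k:ℝ)| / 2) * |s - s'| := by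
  obtain ⟨C, hC, hW⟩ := WW_lip A hA
  obtain ⟨D, hD⟩ := isCompact_Icc.exists_bound_of_continuousOn
    (f := fun τ : ℝ => (WW A ((τ : ℂ) * I))⁻¹) (s := Set.Icc (-1:ℝ) 1)
    ((WW_line_cont A hA).inv₀ fun τ => WW_ne A hA τ).continuousOn
  have hD' : ∀ s : ℝ, |s| ≤ 1 → ‖(WW A ((s : ℂ) * I))⁻¹‖ ≤ max D 1 := fun s hs =>
    (hD s (abs_le.1 hs)).trans (le_max_left _ _)
  set E := max D 1 with hE
  have hE1 : 1 ≤ E := le_max_right _ _
  refine ⟨C * E + C * E * (C * E), by positivity, fun k s s' hs hs' => ?_⟩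
  obtain ⟨h1, h2⟩ := hW k s s' hs hs'
  obtain ⟨h3, h4⟩ := hW 0 s s' hs hs'
  obtain ⟨h5, -⟩ := hW k s' s hs' hs
  simp only [Int.cast_zero, add_zero, abs_zero, neg_zero, zero_div, Real.exp_zero, mul_one] at h3 h4
  have ha := hD' s hs
  have hb := hD' s' hs'
  have hq : 0 < Real.exp (-|(k:ℝ)| / 2) := Real.exp_pos _
  constructor
  · rw [div_eq_mul_inv, norm_mul]
    calc _ ≤ C * Real.exp (-|(k:ℝ)| / 2) * E := by gcongr
      _ ≤ _ := by
        have : 0 ≤ C * E * (C * E) * Real.exp (-|(k:ℝ)| / 2) := by positivity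
        nlinarith
  · have hs0 := WW_ne A hA s
    have hs0' := WW_ne A hA s'
    have e : WW A (((s + k : ℝ) : ℂ) * I) / WW A ((s : ℂ) * I) -
      WW A (((s' + k : ℝ) : ℂ) * I) / WW A ((s' : ℂ) * I) =
      (WW A (((s + k : ℝ) : ℂ) * I) - WW A (((s' + k : ℝ) : ℂ) * I)) * (WW A ((s : ℂ) * I))⁻¹ -
      WW A (((s' + k : ℝ) : ℂ) * I) * (WW A ((s' : ℂ) * I))⁻¹ *
        ((WW A ((s : ℂ) * I) - WW A ((s' : ℂ) * I)) * (WW A ((s : ℂ) * I))⁻¹) := by
      generalize WW A (((s + k : ℝ) : ℂ) * I) = a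
      generalize WW A (((s' + k : ℝ) : ℂ) * I) = a'
      generalize WW A ((s : ℂ) * I) = b at hs0
      generalize WW A ((s' : ℂ) * I) = b' at hs0'
      field_simp
      ring
    rw [e]
    refine (norm_sub_le _ _).trans ?_
    rw [norm_mul, norm_mul, norm_mul, norm_mul]
    calc _ ≤ (C * Real.exp (-|(k:ℝ)| / 2) * |s - s'|) * E +
        (C * Real.exp (-|(k:ℝ)| / 2)) * E * ((C * |s - s'|) * E) := by gcongr
      _ = _ := by ring

/-- tent function -/
noncomputable def tent (x : ℝ) : ℝ := max 0 (1 - |x|)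

lemma tent_nonneg (x : ℝ) : 0 ≤ tent x := le_max_left _ _

lemma tent_le_one (x : ℝ) : tent x ≤ 1 := by
  rw [tent]; exact max_le (by norm_num) (by linarith [abs_nonneg x])

lemma tent_lip (x y : ℝ) : |tent x - tent y| ≤ |x - y| := by
  rw [tent, tent]
  have h1 := abs_max_sub_max_le_abs (1 - |x|) (1 - |y|) 0
  rw [max_comm, max_comm (1 - |y|)] at h1
  refine h1.trans ?_
  rw [show 1 - |x| - (1 - |y|) = |y| - |x| by ring, abs_sub_comm x y]
  exact abs_abs_sub_abs_le y x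

lemma tent_zero {x : ℝ} (h : 1 ≤ |x|) : tent x = 0 := by
  rw [tent, max_eq_left (by linarith)]

/-- partition of unity -/
noncomputable def pu (N : ℤ) (τ : ℝ) : ℝ := ∑ k ∈ Finset.Icc (-N) N, tent (τ - k)

lemma pu_nonneg (N : ℤ) (τ : ℝ) : 0 ≤ pu N τ := Finset.sum_nonneg fun k _ => tent_nonneg _

lemma tent_zero_of (τ : ℝ) (k : ℤ) (h1 : k ≠ ⌊τ⌋) (h2 : k ≠ ⌊τ⌋ + 1) : tent (τ - k) = 0 := by
  apply tent_zero
  have h3 := Int.floor_le τ
  have h4 := Int.lt_floor_add_one τ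
  rcases lt_or_ge k ⌊τ⌋ with h | h
  · have h5 : (k:ℝ) + 1 ≤ ⌊τ⌋ := by exact_mod_cast h
    rw [abs_of_nonneg (by linarith)]; linarith
  · have h6 : ⌊τ⌋ + 2 ≤ k := by omega
    have h5 : ((⌊τ⌋ : ℤ) : ℝ) + 2 ≤ k := by exact_mod_cast h6
    rw [abs_of_nonpos (by linarith)]; linarith

lemma tent_pair (τ : ℝ) : tent (τ - (⌊τ⌋ : ℤ)) + tent (τ - ((⌊τ⌋ + 1 : ℤ) : ℝ)) = 1 := by
  have h3 := Int.floor_le τ
  have h4 := Int.lt_floor_add_one τ
  push_cast
  rw [tent, tent, abs_of_nonneg (by linarith), abs_of_nonpos (by linarith), max_eq_right (by linarith),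
    max_eq_right (by linarith)]
  ring

lemma pu_le_one (N : ℤ) (τ : ℝ) : pu N τ ≤ 1 := by
  rw [← tent_pair τ]
  have hne : (⌊τ⌋ : ℤ) ≠ ⌊τ⌋ + 1 := by omega
  rw [← Finset.sum_pair (f := fun k : ℤ => tent (τ - k)) hne, pu]
  calc ∑ k ∈ Finset.Icc (-N) N, tent (τ - k) =
        ∑ k ∈ Finset.Icc (-N) N ∩ {⌊τ⌋, ⌊τ⌋ + 1}, tent (τ - k) := by
        symm
        apply Finset.sum_subset Finset.inter_subset_left
        intro k hk hk'
        rw [Finset.mem_inter] at hk'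
        have h : k ∉ ({⌊τ⌋, ⌊τ⌋ + 1} : Finset ℤ) := fun h => hk' ⟨hk, h⟩
        simp only [Finset.mem_insert, Finset.mem_singleton, not_or] at h
        exact tent_zero_of τ k h.1 h.2
    _ ≤ _ := Finset.sum_le_sum_of_subset_of_nonneg Finset.inter_subset_right
        fun k _ _ => tent_nonneg _

lemma pu_eq_one (N : ℤ) (τ : ℝ) (h : |τ| ≤ N) : pu N τ = 1 := by
  rw [← tent_pair τ]
  have hne : (⌊τ⌋ : ℤ) ≠ ⌊τ⌋ + 1 := by omega
  rw [← Finset.sum_pair (f := fun k : ℤ => tent (τ - k)) hne, pu]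
  rw [abs_le] at h
  have h1 : -N ≤ ⌊τ⌋ := Int.le_floor.2 (by push_cast; exact h.1)
  have h3 := Int.floor_le τ
  have h2 : ⌊τ⌋ ≤ N := by
    have : ((⌊τ⌋ : ℤ) : ℝ) ≤ N := h3.trans h.2
    exact_mod_cast this
  have e1 : ∑ k ∈ Finset.Icc (-N) N, tent (τ - k) =
        ∑ k ∈ Finset.Icc (-N) N ∩ {⌊τ⌋, ⌊τ⌋ + 1}, tent (τ - k) := by
    symm
    apply Finset.sum_subset Finset.inter_subset_left
    intro k hk hk'
    rw [Finset.mem_inter] at hk'
    have h : k ∉ ({⌊τ⌋, ⌊τ⌋ + 1} : Finset ℤ) := fun h => hk' ⟨hk, h⟩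
    simp only [Finset.mem_insert, Finset.mem_singleton, not_or] at h
    exact tent_zero_of τ k h.1 h.2
  rw [e1]
  apply Finset.sum_subset Finset.inter_subset_right
  intro k hk hk'
  simp only [Finset.mem_insert, Finset.mem_singleton] at hk
  have hk2 : k ∉ Finset.Icc (-N) N := fun hh => hk' (Finset.mem_inter.2 ⟨hh, by simpa using hk⟩)
  rw [Finset.mem_Icc] at hk2
  have hkN : k = N + 1 := by
    rcases hk with hk | hk <;> omega
  apply tent_zero
  rw [hkN]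
  push_cast
  rw [abs_of_nonpos (by linarith)]
  linarith

/-- sum of the weights -/
lemma sum_wt : ∃ C : ℝ, 0 < C ∧ ∀ N : ℤ, ∑ k ∈ Finset.Icc (-N) N, Real.exp (-|(k:ℝ)| / 4) ≤ C := by
  have hs : Summable (fun k : ℤ => Real.exp (-|(k:ℝ)| / 4)) := by
    have h1 : Summable (fun n : ℕ => Real.exp (-(n:ℝ) / 4)) := by
      have h2 : (fun n : ℕ => Real.exp (-(n:ℝ) / 4)) = fun n : ℕ => (Real.exp (-(1:ℝ) / 4)) ^ n := by
        funext n; rw [← Real.exp_nat_mul]; congr 1; ring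
      rw [h2]
      exact summable_geometric_of_lt_one (Real.exp_pos _).le (by
        rw [Real.exp_lt_one_iff]; norm_num)
    apply Summable.of_nat_of_neg
    · simpa using h1
    · simpa using h1
  refine ⟨(∑' k : ℤ, Real.exp (-|(k:ℝ)| / 4)) + 1, ?_, fun N => ?_⟩
  · have : 0 ≤ ∑' k : ℤ, Real.exp (-|(k:ℝ)| / 4) := tsum_nonneg fun k => (Real.exp_pos _).le
    linarith
  · have := hs.sum_le_tsum (Finset.Icc (-N) N) (fun k _ => (Real.exp_pos _).le)
    linarith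


/-- the error term of one zero -/
noncomputable def ee (A : ℕ) (T y : ℝ) (f : ℝ → ℂ) (t : ℝ) : ℂ :=
  WW A (((t - T : ℝ) : ℂ) * I) * (y : ℂ) ^ (((t - T : ℝ) : ℂ) * I) * aa t * f t

/-- one piece of the partition -/
lemma piece (A : ℕ) (hA : 4 ≤ A) : ∃ C : ℝ, 0 < C ∧ ∀ (X T y κ : ℝ) (f : ℝ → ℂ) (k : ℤ),
    0 < y → 0 ≤ κ → |(k:ℝ)| + 1 ≤ (Real.log X) ^ 2 →
    (∀ t ∈ Zw X T, ‖f t‖ ≤ 2 * κ * |t - T|) →
    (∀ t ∈ Zw X T, ∀ t' ∈ Zw X T, ‖f t - f t'‖ ≤ κ * |t - t'|) →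
    ‖∑ t ∈ (Zw_finite X T).toFinset, (tent (t - T - k) : ℂ) * ee A T y f t‖ ^ 2 ≤
      C * κ ^ 2 * Real.exp (-|(k:ℝ)| / 2) *
        ∫ v : ℝ, KK v * ‖ZZ true A X (y * Real.exp v) (T + k)‖ ^ 2 := by
  obtain ⟨C, hC, hr⟩ := ratio A hA
  refine ⟨10 * (40 * C) ^ 2, by positivity, fun X T y κ f k hy hκ hk hf1 hf2 => ?_⟩
  set S := (Zw_finite X T).toFinset with hS
  set Sk := (Zw_finite X (T + k)).toFinset with hSk
  set Λ := 40 * C * κ * Real.exp (-|(k:ℝ)| / 4) with hΛ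
  have hΛ0 : 0 ≤ Λ := by positivity
  set g : ℝ → ℂ := fun t => (tent (t - T - k) : ℂ) *
    (WW A (((t - T - k + k : ℝ) : ℂ) * I) / WW A (((t - T - k : ℝ) : ℂ) * I)) * f t with hg
  set c : ℝ → ℂ := fun t => WW A (((t - (T + k) : ℝ) : ℂ) * I) *
    (y : ℂ) ^ (((t - (T + k) : ℝ) : ℂ) * I) * aa t with hc
  -- numeric inequality
  have hnum : (|(k:ℝ)| + 1) * Real.exp (-|(k:ℝ)| / 2) ≤ 8 * Real.exp (-|(k:ℝ)| / 4) := by
    have h1 : (|(k:ℝ)| + 1) / 4 + 1 ≤ Real.exp ((|(k:ℝ)| + 1) / 4) := Real.add_one_le_exp _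
    have h2 : Real.exp ((|(k:ℝ)| + 1) / 4) = Real.exp (|(k:ℝ)| / 4) * Real.exp (1 / 4) := by
      rw [← Real.exp_add]; congr 1; ring
    have h3 : Real.exp (1 / 4) ≤ 2 := by
      have := Real.exp_one_lt_d9
      have h7 : Real.exp (1 / 4) ^ 4 = Real.exp 1 := by rw [← Real.exp_nat_mul]; norm_num
      by_contra h8
      push Not at h8
      have : (2 : ℝ) ^ 4 < Real.exp (1 / 4) ^ 4 := pow_lt_pow_left₀ h8 (by norm_num) (by norm_num)
      rw [h7] at this
      norm_num at this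
      linarith
    have h4 : |(k:ℝ)| + 1 ≤ 8 * Real.exp (|(k:ℝ)| / 4) := by
      have : 0 < Real.exp (|(k:ℝ)| / 4) := Real.exp_pos _
      nlinarith
    calc (|(k:ℝ)| + 1) * Real.exp (-|(k:ℝ)| / 2) ≤
          (8 * Real.exp (|(k:ℝ)| / 4)) * Real.exp (-|(k:ℝ)| / 2) := by gcongr
      _ = 8 * Real.exp (-|(k:ℝ)| / 4) := by
          rw [mul_assoc, ← Real.exp_add]; congr 2; ring
  have hin : ∀ t, t ∈ Sk → |t - T - k| < 1 → t ∈ Zw X T := by
    intro t ht h
    rw [hSk, Set.Finite.mem_toFinset, mem_Zw] at ht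
    rw [mem_Zw]
    refine ⟨ht.1, ?_⟩
    calc |t - T| = |(t - T - k) + k| := by ring_nf
      _ ≤ |t - T - k| + |(k:ℝ)| := abs_add_le _ _
      _ ≤ _ := by linarith
  have hin' : ∀ t, t ∈ Zw X T → |t - T - k| < 1 → t ∈ Sk := by
    intro t ht h
    rw [mem_Zw] at ht
    rw [hSk, Set.Finite.mem_toFinset, mem_Zw]
    refine ⟨ht.1, ?_⟩
    rw [show t - (T + k) = t - T - k by ring]
    linarith [abs_nonneg (k:ℝ)]
  have hg0 : ∀ t, 1 ≤ |t - T - k| → g t = 0 := by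
    intro t ht
    simp only [hg, tent_zero ht, Complex.ofReal_zero, zero_mul]
  have hft : ∀ t, t ∈ Sk → |t - T - k| < 1 → ‖f t‖ ≤ 2 * κ * (|(k:ℝ)| + 1) := by
    intro t ht h
    refine (hf1 t (hin t ht h)).trans ?_
    gcongr
    calc |t - T| = |(t - T - k) + k| := by ring_nf
      _ ≤ |t - T - k| + |(k:ℝ)| := abs_add_le _ _
      _ ≤ _ := by linarith
  have h1 : ∀ t ∈ Sk, ‖g t‖ ≤ Λ * max 0 (1 - |t - (T + k)|) := by
    intro t ht
    rw [show t - (T + (k:ℝ)) = t - T - k by ring]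
    by_cases h : 1 ≤ |t - T - k|
    · rw [hg0 t h, norm_zero]
      exact mul_nonneg hΛ0 (le_max_left _ _)
    · push Not at h
      have hr1 := (hr k (t - T - k) (t - T - k) h.le h.le).1
      have hf := hft t ht h
      simp only [hg]
      rw [norm_mul, norm_mul, Complex.norm_real, Real.norm_eq_abs, abs_of_nonneg (tent_nonneg _)]
      rw [show max 0 (1 - |t - T - k|) = tent (t - T - k) from rfl]
      calc _ ≤ tent (t - T - k) * (C * Real.exp (-|(k:ℝ)| / 2)) * (2 * κ * (|(k:ℝ)| + 1)) := by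
            have := tent_nonneg (t - T - k)
            gcongr
        _ = (2 * C * κ) * ((|(k:ℝ)| + 1) * Real.exp (-|(k:ℝ)| / 2)) * tent (t - T - k) := by ring
        _ ≤ (2 * C * κ) * (8 * Real.exp (-|(k:ℝ)| / 4)) * tent (t - T - k) := by
            have := tent_nonneg (t - T - k)
            gcongr
        _ ≤ Λ * tent (t - T - k) := by
            apply mul_le_mul_of_nonneg_right _ (tent_nonneg _)
            rw [hΛ]
            have : 0 ≤ C * κ * Real.exp (-|(k:ℝ)| / 4) := by positivity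
            nlinarith
  have hmix : ∀ t ∈ Sk, ∀ t' ∈ Sk, |t - T - k| < 1 → 1 ≤ |t' - T - k| →
      ‖g t - g t'‖ ≤ Λ * |t - t'| := by
    intro t ht t' ht' h h'
    rw [hg0 t' h', sub_zero]
    refine (h1 t ht).trans ?_
    apply mul_le_mul_of_nonneg_left _ hΛ0
    apply max_le (abs_nonneg _)
    have := abs_sub_abs_le_abs_sub (t' - T - k) (t - T - k)
    rw [show t' - T - k - (t - T - k) = -(t - t') by ring, abs_neg] at this
    rw [show t - (T + (k:ℝ)) = t - T - k by ring]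
    linarith
  have h2 : ∀ t ∈ Sk, ∀ t' ∈ Sk, ‖g t - g t'‖ ≤ Λ * |t - t'| := by
    intro t ht t' ht'
    by_cases h : 1 ≤ |t - T - k|
    · by_cases h' : 1 ≤ |t' - T - k|
      · rw [hg0 t h, hg0 t' h', sub_zero, norm_zero]; positivity
      · rw [norm_sub_rev, abs_sub_comm]
        exact hmix t' ht' t ht (not_le.1 h') h
    · push Not at h
      by_cases h' : 1 ≤ |t' - T - k|
      · exact hmix t ht t' ht' h h'
      · push Not at h'
        obtain ⟨hr1, hr2⟩ := hr k (t - T - k) (t' - T - k) h.le h'.le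
        obtain ⟨hr3, -⟩ := hr k (t' - T - k) (t - T - k) h'.le h.le
        have hf := hft t ht h
        have hf' := hft t' ht' h'
        have hff := hf2 t (hin t ht h) t' (hin t' ht' h')
        have htl := tent_lip (t - T - k) (t' - T - k)
        rw [show t - T - k - (t' - T - k) = t - t' by ring] at htl hr2
        simp only [hg]
        have ht1 := tent_le_one (t' - T - k)
        have ht0 := tent_nonneg (t' - T - k)
        generalize WW A (((t - T - k + k : ℝ) : ℂ) * I) / WW A (((t - T - k : ℝ) : ℂ) * I) = r at *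
        generalize WW A (((t' - T - k + k : ℝ) : ℂ) * I) / WW A (((t' - T - k : ℝ) : ℂ) * I) = r' at *
        have e : (tent (t - T - k) : ℂ) * r * f t - (tent (t' - T - k) : ℂ) * r' * f t' =
            ((tent (t - T - k) - tent (t' - T - k) : ℝ) : ℂ) * r * f t +
            (tent (t' - T - k) : ℂ) * (r - r') * f t + (tent (t' - T - k) : ℂ) * r' * (f t - f t') := by
          push_cast; ring
        rw [e]
        have hq : 0 < Real.exp (-|(k:ℝ)| / 2) := Real.exp_pos _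
        calc ‖((tent (t - T - k) - tent (t' - T - k) : ℝ) : ℂ) * r * f t +
            (tent (t' - T - k) : ℂ) * (r - r') * f t + (tent (t' - T - k) : ℂ) * r' * (f t - f t')‖
            ≤ ‖((tent (t - T - k) - tent (t' - T - k) : ℝ) : ℂ)‖ * ‖r‖ * ‖f t‖ +
              ‖(tent (t' - T - k) : ℂ)‖ * ‖r - r'‖ * ‖f t‖ +
              ‖(tent (t' - T - k) : ℂ)‖ * ‖r'‖ * ‖f t - f t'‖ := by
              refine (norm_add_le _ _).trans ?_
              refine add_le_add ((norm_add_le _ _).trans (add_le_add ?_ ?_)) ?_ <;>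
              rw [norm_mul, norm_mul]
          _ ≤ |t - t'| * (C * Real.exp (-|(k:ℝ)| / 2)) * (2 * κ * (|(k:ℝ)| + 1)) +
              1 * (C * Real.exp (-|(k:ℝ)| / 2) * |t - t'|) * (2 * κ * (|(k:ℝ)| + 1)) +
              1 * (C * Real.exp (-|(k:ℝ)| / 2)) * (κ * |t - t'|) := by
              rw [Complex.norm_real, Complex.norm_real, Real.norm_eq_abs, Real.norm_eq_abs,
                abs_of_nonneg ht0]
              gcongr
          _ ≤ (5 * C * κ) * ((|(k:ℝ)| + 1) * Real.exp (-|(k:ℝ)| / 2)) * |t - t'| := by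
              have : 0 ≤ C * κ * Real.exp (-|(k:ℝ)| / 2) * |t - t'| * |(k:ℝ)| := by positivity
              nlinarith
          _ ≤ (5 * C * κ) * (8 * Real.exp (-|(k:ℝ)| / 4)) * |t - t'| := by gcongr
          _ = Λ * |t - t'| := by rw [hΛ]; ring
  have hp := pairing Sk c g Λ (T + k) hΛ0 h1 h2
  -- left side
  have hL : ∑ t ∈ Sk, g t * c t = (y : ℂ) ^ (((-k : ℝ) : ℂ) * I) *
      ∑ t ∈ S, (tent (t - T - k) : ℂ) * ee A T y f t := by
    rw [Finset.mul_sum]
    have e1 : ∑ t ∈ Sk, g t * c t = ∑ t ∈ Sk.filter (fun t => |t - T - k| < 1), g t * c t := by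
      symm
      apply Finset.sum_subset (Finset.filter_subset _ _)
      intro t ht ht'
      rw [Finset.mem_filter] at ht'
      rw [hg0 t (by by_contra h; exact ht' ⟨ht, not_le.1 h⟩), zero_mul]
    have e2 : ∑ t ∈ S, (y : ℂ) ^ (((-k : ℝ) : ℂ) * I) * ((tent (t - T - k) : ℂ) * ee A T y f t) =
        ∑ t ∈ S.filter (fun t => |t - T - k| < 1),
          (y : ℂ) ^ (((-k : ℝ) : ℂ) * I) * ((tent (t - T - k) : ℂ) * ee A T y f t) := by
      symm
      apply Finset.sum_subset (Finset.filter_subset _ _)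
      intro t ht ht'
      rw [Finset.mem_filter] at ht'
      rw [tent_zero (by by_contra h; exact ht' ⟨ht, not_le.1 h⟩), Complex.ofReal_zero, zero_mul,
        mul_zero]
    have e3 : Sk.filter (fun t => |t - T - k| < 1) = S.filter (fun t => |t - T - k| < 1) := by
      ext t
      rw [Finset.mem_filter, Finset.mem_filter]
      constructor
      · rintro ⟨ha, hb⟩
        exact ⟨by rw [hS, Set.Finite.mem_toFinset]; exact hin t ha hb, hb⟩
      · rintro ⟨ha, hb⟩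
        rw [hS, Set.Finite.mem_toFinset] at ha
        exact ⟨hin' t ha hb, hb⟩
    rw [e1, e2, e3]
    refine Finset.sum_congr rfl fun t _ => ?_
    simp only [hg, hc, ee]
    have hne := WW_ne A hA (t - T - k)
    have hy1 : (y : ℂ) ^ (((t - (T + k) : ℝ) : ℂ) * I) =
        (y : ℂ) ^ (((-k : ℝ) : ℂ) * I) * (y : ℂ) ^ (((t - T : ℝ) : ℂ) * I) := by
      rw [← Complex.cpow_add _ _ (by exact_mod_cast hy.ne')]
      congr 1; push_cast; ring
    rw [hy1, show t - (T + (k:ℝ)) = t - T - k by ring, show t - T - (k:ℝ) + k = t - T by ring]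
    clear hy1
    generalize WW A (((t - T - k : ℝ) : ℂ) * I) = w at hne
    generalize (y : ℂ) ^ (((-k : ℝ) : ℂ) * I) = y1
    generalize (y : ℂ) ^ (((t - T : ℝ) : ℂ) * I) = y2
    field_simp
  have hR : ∀ v : ℝ, ‖∑ t ∈ Sk, c t * cexp (((v * t : ℝ) : ℂ) * I)‖ =
      ‖ZZ true A X (y * Real.exp v) (T + k)‖ := by
    intro v
    have hf := Zw_finite X (T + k)
    simp only [ZZ]
    rw [finsum_mem_eq_finite_toFinset_sum _ hf]
    have e1 : ∑ t ∈ Sk, c t * cexp (((v * t : ℝ) : ℂ) * I) = cexp (((v * (T + k) : ℝ) : ℂ) * I) *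
        ∑ t ∈ hf.toFinset, WE true A (((t - (T + k) : ℝ) : ℂ) * I) *
          ((y * Real.exp v : ℝ) : ℂ) ^ (((t - (T + k) : ℝ) : ℂ) * I) * aa t := by
      rw [Finset.mul_sum]
      refine Finset.sum_congr rfl fun t _ => ?_
      simp only [hc, WE, if_true]
      rw [cpow_I_eq (y := y * Real.exp v) (by positivity), cpow_I_eq (y := y) hy,
        Real.log_mul hy.ne' (Real.exp_pos _).ne', Real.log_exp]
      have : cexp (((v * t : ℝ) : ℂ) * I) * cexp (((Real.log y * (t - (T + k)) : ℝ) : ℂ) * I) =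
          cexp (((v * (T + k) : ℝ) : ℂ) * I) *
          cexp ((((Real.log y + v) * (t - (T + k)) : ℝ) : ℂ) * I) := by
        rw [← Complex.exp_add, ← Complex.exp_add]; congr 1; push_cast; ring
      linear_combination (WW A (((t - (T + k) : ℝ) : ℂ) * I) * aa t) * this
    rw [e1, norm_mul, Complex.norm_exp_ofReal_mul_I, one_mul]
  simp only [hR] at hp
  rw [hL, norm_mul, norm_cpow_I hy, one_mul] at hp
  refine hp.trans (le_of_eq ?_)
  rw [hΛ]
  have : Real.exp (-|(k:ℝ)| / 2) = Real.exp (-|(k:ℝ)| / 4) ^ 2 := by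
    rw [← Real.exp_nat_mul]; congr 1; push_cast; ring
  rw [this]
  ring


/-- zeros outside the central part of the window -/
lemma tail_sum (X T N : ℝ) (hN : 0 ≤ N) (hX : 2 ≤ Real.log X) (hSp : Spaced X T) :
    ∑ t ∈ (Zw_finite X T).toFinset.filter (fun t => N < |t - T|), Real.exp (-|t - T| / 2) ≤
      8 * Real.log X * Real.exp (-N / 2) := by
  set S := (Zw_finite X T).toFinset with hS
  have hsp : ∀ t ∈ S, ∀ t' ∈ S, t ≠ t' → 2 / Real.log X ≤ |t - t'| := by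
    intro t ht t' ht' hne
    rw [hS, Set.Finite.mem_toFinset, mem_Zw] at ht ht'
    exact hSp.2 t ht.1 t' ht'.1 (by linarith [ht.2]) (by linarith [ht'.2]) hne
  have h1 : ∀ T' : ℝ, ∑ t ∈ S, Real.exp (-|t - T'| / 2) ≤ 4 * Real.log X := by
    intro T'
    refine (sum_spaced S (2 / Real.log X) T' (by positivity)
      (by rw [div_le_one (by linarith)]; exact hX) hsp).trans (le_of_eq ?_)
    field_simp; norm_num
  have hterm : ∀ t ∈ S.filter (fun t => N < |t - T|), Real.exp (-|t - T| / 2) ≤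
      Real.exp (-N / 2) * Real.exp (-|t - (T + N)| / 2) +
      Real.exp (-N / 2) * Real.exp (-|t - (T - N)| / 2) := by
    intro t ht
    rw [Finset.mem_filter] at ht
    rw [← Real.exp_add, ← Real.exp_add]
    rcases le_total 0 (t - T) with h | h
    · have h2 := ht.2
      rw [abs_of_nonneg h] at h2 ⊢
      have : Real.exp (-(t - T) / 2) = Real.exp (-N / 2 + -|t - (T + N)| / 2) := by
        rw [abs_of_nonneg (by linarith)]; congr 1; ring
      rw [this]
      have := Real.exp_pos (-N / 2 + -|t - (T - N)| / 2)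
      linarith
    · have h2 := ht.2
      rw [abs_of_nonpos h] at h2 ⊢
      have : Real.exp (- -(t - T) / 2) = Real.exp (-N / 2 + -|t - (T - N)| / 2) := by
        rw [abs_of_nonpos (by linarith)]; congr 1; ring
      rw [this]
      have := Real.exp_pos (-N / 2 + -|t - (T + N)| / 2)
      linarith
  calc _ ≤ ∑ t ∈ S.filter (fun t => N < |t - T|),
        (Real.exp (-N / 2) * Real.exp (-|t - (T + N)| / 2) +
          Real.exp (-N / 2) * Real.exp (-|t - (T - N)| / 2)) := Finset.sum_le_sum hterm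
    _ ≤ ∑ t ∈ S, (Real.exp (-N / 2) * Real.exp (-|t - (T + N)| / 2) +
          Real.exp (-N / 2) * Real.exp (-|t - (T - N)| / 2)) :=
        Finset.sum_le_sum_of_subset_of_nonneg (Finset.filter_subset _ _) fun t _ _ => by positivity
    _ = Real.exp (-N / 2) * (∑ t ∈ S, Real.exp (-|t - (T + N)| / 2)) +
        Real.exp (-N / 2) * ∑ t ∈ S, Real.exp (-|t - (T - N)| / 2) := by
        rw [Finset.sum_add_distrib, Finset.mul_sum, Finset.mul_sum]
    _ ≤ Real.exp (-N / 2) * (4 * Real.log X) + Real.exp (-N / 2) * (4 * Real.log X) := by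
        have := h1 (T + N)
        have := h1 (T - N)
        gcongr
    _ = _ := by ring

lemma asymp (C1 C2 : ℝ) : ∀ᶠ X : ℝ in atTop, 2 ≤ Real.log X ∧
    (Real.log X) ^ 2 ≤ Real.sqrt X / 2 ∧
    C1 * Real.exp (C2 * (Real.log X) ^ (3 / 2 : ℝ)) * (8 * Real.log X *
      Real.exp (-((Real.log X) ^ 2 - 3) / 2)) ≤ X ^ (-(5 : ℝ)) := by
  have e2 : ∀ᶠ X : ℝ in atTop, (Real.log X) ^ 2 ≤ Real.sqrt X / 2 := by
    have h := (isLittleO_log_rpow_atTop (r := 1 / 4) (by norm_num)).def (c := 1 / 2) (by norm_num)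
    filter_upwards [h, Real.tendsto_log_atTop.eventually_ge_atTop 10, eventually_ge_atTop 1]
      with X hX h1 h2
    rw [Real.norm_of_nonneg (by linarith), Real.norm_of_nonneg (by positivity)] at hX
    have h3 : (Real.log X) ^ 2 ≤ (1 / 2 * X ^ (1 / 4 : ℝ)) ^ 2 :=
      pow_le_pow_left₀ (by linarith) hX 2
    have h4 : (1 / 2 * X ^ (1 / 4 : ℝ)) ^ 2 = 1 / 4 * Real.sqrt X := by
      rw [mul_pow, ← Real.rpow_natCast (X ^ (1 / 4 : ℝ)) 2, ← Real.rpow_mul (by linarith),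
        Real.sqrt_eq_rpow]
      norm_num
    have h5 := Real.sqrt_nonneg X
    linarith
  have e3 : ∀ᶠ L : ℝ in atTop, |C1| * 8 * L * Real.exp (|C2| * L ^ (3 / 2 : ℝ) - (L ^ 2 - 3) / 2 + 5 * L)
      ≤ 1 := by
    -- log of the left side: bounded by `L * 8 |C1| + ...`; use `x ≤ exp x`
    have h1 : ∀ᶠ L : ℝ in atTop, |C1| * 8 * L ≤ Real.exp (|C1| * 8 * L) :=
      Eventually.of_forall fun L => by linarith [Real.add_one_le_exp (|C1| * 8 * L)]
    have h2 : ∀ᶠ L : ℝ in atTop, |C1| * 8 * L + (|C2| * L ^ (3 / 2 : ℝ) - (L ^ 2 - 3) / 2 + 5 * L) ≤ 0 := by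
      have h3 : ∀ᶠ L : ℝ in atTop, 4 * (|C2| + 1) ≤ L ^ (1 / 2 : ℝ) :=
        (tendsto_rpow_atTop (by norm_num)).eventually_ge_atTop _
      filter_upwards [h3, eventually_ge_atTop (4 * (|C1| * 8 + 5) + 3)] with L h3 h4
      have hc1 := abs_nonneg C1
      have hL : 0 < L := by linarith
      have h5 : L ^ (3 / 2 : ℝ) * L ^ (1 / 2 : ℝ) = L ^ 2 := by
        rw [← Real.rpow_add hL, ← Real.rpow_natCast L 2]; norm_num
      have h6 : 0 < L ^ (3 / 2 : ℝ) := Real.rpow_pos_of_pos hL _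
      have h7 : |C2| * L ^ (3 / 2 : ℝ) ≤ L ^ 2 / 4 := by
        have : 4 * (|C2| + 1) * L ^ (3 / 2 : ℝ) ≤ L ^ 2 := by
          rw [← h5]; nlinarith
        nlinarith
      nlinarith
    filter_upwards [h1, h2] with L h1 h2
    calc |C1| * 8 * L * Real.exp (|C2| * L ^ (3 / 2 : ℝ) - (L ^ 2 - 3) / 2 + 5 * L) ≤
          Real.exp (|C1| * 8 * L) * Real.exp (|C2| * L ^ (3 / 2 : ℝ) - (L ^ 2 - 3) / 2 + 5 * L) := by
          gcongr
      _ = Real.exp (|C1| * 8 * L + (|C2| * L ^ (3 / 2 : ℝ) - (L ^ 2 - 3) / 2 + 5 * L)) := by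
          rw [← Real.exp_add]
      _ ≤ 1 := Real.exp_le_one_iff.2 h2
  filter_upwards [e2, Real.tendsto_log_atTop.eventually e3,
    Real.tendsto_log_atTop.eventually_ge_atTop 2, eventually_gt_atTop 0] with X h1 h2 h3 h4
  refine ⟨h3, h1, ?_⟩
  set L := Real.log X with hL
  have hX5 : X ^ (-(5:ℝ)) = Real.exp (-5 * L) := by
    rw [Real.rpow_def_of_pos h4, ← hL]; congr 1; ring
  rw [hX5]
  have h5 : C1 * Real.exp (C2 * L ^ (3 / 2 : ℝ)) * (8 * L * Real.exp (-(L ^ 2 - 3) / 2)) ≤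
      |C1| * Real.exp (|C2| * L ^ (3 / 2 : ℝ)) * (8 * L * Real.exp (-(L ^ 2 - 3) / 2)) := by
    have : 0 ≤ L ^ (3 / 2 : ℝ) := by positivity
    have h6 := le_abs_self C1
    have h7 := le_abs_self C2
    gcongr
  refine h5.trans ?_
  have h8 : |C1| * Real.exp (|C2| * L ^ (3 / 2 : ℝ)) * (8 * L * Real.exp (-(L ^ 2 - 3) / 2)) =
      (|C1| * 8 * L * Real.exp (|C2| * L ^ (3 / 2 : ℝ) - (L ^ 2 - 3) / 2 + 5 * L)) *
        Real.exp (-5 * L) := by
    rw [show |C2| * L ^ (3 / 2 : ℝ) - (L ^ 2 - 3) / 2 + 5 * L =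
      |C2| * L ^ (3 / 2 : ℝ) + (-(L ^ 2 - 3) / 2) + 5 * L by ring, Real.exp_add, Real.exp_add]
    have : Real.exp (5 * L) * Real.exp (-5 * L) = 1 := by rw [← Real.exp_add]; simp
    calc _ = |C1| * 8 * L * (Real.exp (|C2| * L ^ (3 / 2 : ℝ)) * Real.exp (-(L ^ 2 - 3) / 2)) * 1 := by ring
      _ = |C1| * 8 * L * (Real.exp (|C2| * L ^ (3 / 2 : ℝ)) * Real.exp (-(L ^ 2 - 3) / 2)) *
          (Real.exp (5 * L) * Real.exp (-5 * L)) := by rw [this]
      _ = _ := by ring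
  rw [h8]
  have := Real.exp_pos (-5 * L)
  nlinarith

end Phase

open Phase in
theorem phase_pt (hRH : RiemannHypothesis) (A : ℕ) (hA : 4 ≤ A) : ∃ C X0 : ℝ, 0 < C ∧ 10 ≤ X0 ∧
    ∀ X : ℝ, X0 ≤ X → ∀ φ : ℝ, 0 ≤ φ → φ * Real.log X ≤ 1 → ∀ T : ℝ, Real.sqrt X ≤ T → T ≤ X →
    Spaced X T → Latt φ X T → ∀ y : ℝ, 0 < y →
    (‖ZZ true A X y T‖ - ‖ZZ true A X (y * Real.exp (-(2 * (Real.log T + 1)))) T‖) ^ 2 ≤
      C * (φ * Real.log X) ^ 2 *
        SZ X (fun k => ∫ v : ℝ, KK v * ‖ZZ true A X (y * Real.exp v) (T + k)‖ ^ 2) +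
      C * X ^ (-(10 : ℝ)) := by
  obtain ⟨Cp, hCp, hpiece⟩ := piece A hA
  obtain ⟨Cw, hCw, hW⟩ := WW_bound A hA
  obtain ⟨Ca, Xa, hCa, hXa, haa⟩ := aa_upper hRH
  obtain ⟨Cs, hCs, hsum⟩ := sum_wt
  obtain ⟨Xb, hXb⟩ := eventually_atTop.1 (asymp (2 * Cw) Ca)
  refine ⟨2 * Cs * Cp + 2, max Xa Xb, by positivity, hXa.trans (le_max_left _ _),
    fun X hX φ hφ hφ1 T hT1 hT2 hSp hLa y hy => ?_⟩
  obtain ⟨hL2, hLs, has⟩ := hXb X ((le_max_right _ _).trans hX)
  have haa' := haa X ((le_max_left _ _).trans hX)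
  have hX10 : 10 ≤ X := hXa.trans ((le_max_left _ _).trans hX)
  have hX0 : 0 < X := by linarith
  have hf := Zw_finite X T
  have hKK : ∀ k : ℤ, 0 ≤ ∫ v : ℝ, KK v * ‖ZZ true A X (y * Real.exp v) (T + k)‖ ^ 2 := fun k =>
    integral_nonneg fun v => mul_nonneg (KK_pos v).le (by positivity)
  have hSZ0 : 0 ≤ SZ X (fun k => ∫ v : ℝ, KK v * ‖ZZ true A X (y * Real.exp v) (T + k)‖ ^ 2) := by
    rw [SZ]
    exact Finset.sum_nonneg fun k _ => mul_nonneg (Real.exp_pos _).le (hKK k)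
  set S := hf.toFinset with hS
  rcases S.eq_empty_or_nonempty with h0 | hne
  · have hz : ∀ y : ℝ, ZZ true A X y T = 0 := by
      intro y
      simp only [ZZ]
      rw [finsum_mem_eq_finite_toFinset_sum _ hf, ← hS, h0, Finset.sum_empty]
    rw [hz, hz]
    simp only [norm_zero, sub_self, ne_eq, OfNat.ofNat_ne_zero, not_false_eq_true, zero_pow]
    positivity
  obtain ⟨t0, ht0, hmin⟩ := S.exists_min_image (fun t => |t - T|) hne
  have ht0' := (mem_Zw.1 (by rw [hS, Set.Finite.mem_toFinset] at ht0; exact ht0) : _)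
  set P := 2 * (Real.log T + 1) with hP
  set κ := φ * Real.log X with hκ
  have hκ0 : 0 ≤ κ := by rw [hκ]; positivity
  set f : ℝ → ℂ := fun t => cexp (((-(P * (t - t0)) : ℝ) : ℂ) * I) - 1 with hf'
  have hneg : ∀ x : ℝ, ‖cexp (((-x : ℝ) : ℂ) * I) - 1‖ = ‖cexp (((x : ℝ) : ℂ) * I) - 1‖ := by
    intro x
    have : cexp (((-x : ℝ) : ℂ) * I) - 1 = -(cexp (((-x : ℝ) : ℂ) * I) * (cexp ((x : ℂ) * I) - 1)) := by
      rw [mul_sub, ← Complex.exp_add]
      have : (((-x : ℝ) : ℂ) * I + (x : ℂ) * I) = 0 := by push_cast; ring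
      rw [this, Complex.exp_zero]; ring
    rw [this, norm_neg, norm_mul, Complex.norm_exp_ofReal_mul_I, one_mul]
  have hlat : ∀ t ∈ Zw X T, ∀ t' ∈ Zw X T, ‖cexp (((P * (t - t') : ℝ) : ℂ) * I) - 1‖ ≤ κ * |t - t'| := by
    intro t ht t' ht'
    rw [mem_Zw] at ht ht'
    exact hLa t ht.1 t' ht'.1 (by linarith [ht.2]) (by linarith [ht'.2])
  have ht0Z : t0 ∈ Zw X T := mem_Zw.2 ht0'
  have hf1 : ∀ t ∈ Zw X T, ‖f t‖ ≤ 2 * κ * |t - T| := by
    intro t ht
    simp only [hf']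
    rw [hneg]
    refine (hlat t ht t0 ht0Z).trans ?_
    have h4 : |t - t0| ≤ 2 * |t - T| := by
      have := hmin t (by rw [hS, Set.Finite.mem_toFinset]; exact ht)
      calc |t - t0| = |(t - T) - (t0 - T)| := by ring_nf
        _ ≤ |t - T| + |t0 - T| := abs_sub _ _
        _ ≤ 2 * |t - T| := by linarith
    calc κ * |t - t0| ≤ κ * (2 * |t - T|) := by gcongr
      _ = _ := by ring
  have hf2 : ∀ t ∈ Zw X T, ∀ t' ∈ Zw X T, ‖f t - f t'‖ ≤ κ * |t - t'| := by
    intro t ht t' ht'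
    simp only [hf']
    have e : cexp (((-(P * (t - t0)) : ℝ) : ℂ) * I) - 1 - (cexp (((-(P * (t' - t0)) : ℝ) : ℂ) * I) - 1) =
        cexp (((-(P * (t' - t0)) : ℝ) : ℂ) * I) * (cexp (((-(P * (t - t')) : ℝ) : ℂ) * I) - 1) := by
      have h1 : cexp (((-(P * (t - t0)) : ℝ) : ℂ) * I) = cexp (((-(P * (t' - t0)) : ℝ) : ℂ) * I) *
          cexp (((-(P * (t - t')) : ℝ) : ℂ) * I) := by
        rw [← Complex.exp_add]; congr 1; push_cast; ring
      rw [h1]; ring
    rw [e, norm_mul, Complex.norm_exp_ofReal_mul_I, one_mul, hneg]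
    exact hlat t ht t' ht'
  have hf3 : ∀ t, ‖f t‖ ≤ 2 := by
    intro t
    simp only [hf']
    refine (norm_sub_le _ _).trans ?_
    rw [Complex.norm_exp_ofReal_mul_I]; norm_num
  set e : ℝ → ℂ := ee A T y f with he
  -- step 1
  have hstep1 : |‖ZZ true A X y T‖ - ‖ZZ true A X (y * Real.exp (-P)) T‖| ≤ ‖∑ t ∈ S, e t‖ := by
    simp only [ZZ]
    rw [finsum_mem_eq_finite_toFinset_sum _ hf, finsum_mem_eq_finite_toFinset_sum _ hf, ← hS]
    set c0 : ℂ := cexp (((-(P * (t0 - T)) : ℝ) : ℂ) * I) with hc0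
    have hc0n : ‖c0‖ = 1 := by rw [hc0]; exact Complex.norm_exp_ofReal_mul_I _
    have hsum1 : ∑ t ∈ S, WE true A (((t - T : ℝ) : ℂ) * I) *
        ((y * Real.exp (-P) : ℝ) : ℂ) ^ (((t - T : ℝ) : ℂ) * I) * aa t =
        c0 * (∑ t ∈ S, WE true A (((t - T : ℝ) : ℂ) * I) * (y : ℂ) ^ (((t - T : ℝ) : ℂ) * I) * aa t +
          ∑ t ∈ S, e t) := by
      rw [← Finset.sum_add_distrib, Finset.mul_sum]
      refine Finset.sum_congr rfl fun t _ => ?_
      simp only [he, ee, WE, if_true, hf']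
      rw [cpow_I_eq (y := y * Real.exp (-P)) (by positivity), cpow_I_eq (y := y) hy,
        Real.log_mul hy.ne' (Real.exp_pos _).ne', Real.log_exp]
      have : cexp ((((Real.log y + -P) * (t - T) : ℝ) : ℂ) * I) =
          c0 * cexp (((Real.log y * (t - T) : ℝ) : ℂ) * I) * cexp (((-(P * (t - t0)) : ℝ) : ℂ) * I) := by
        rw [hc0, ← Complex.exp_add, ← Complex.exp_add]; congr 1; push_cast; ring
      rw [this]; ring
    rw [hsum1, norm_mul, hc0n, one_mul, abs_sub_comm]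
    refine (abs_norm_sub_norm_le _ _).trans (le_of_eq ?_)
    congr 1; ring
  set N : ℤ := ⌊(Real.log X) ^ 2⌋ - 2 with hN
  have hN1 : (Real.log X) ^ 2 - 3 < N := by
    have := Int.lt_floor_add_one ((Real.log X) ^ 2)
    rw [hN]; push_cast; linarith
  have hN2 : (N:ℝ) + 2 ≤ (Real.log X) ^ 2 := by
    have := Int.floor_le ((Real.log X) ^ 2)
    rw [hN]; push_cast; linarith
  have hN0 : (0:ℤ) ≤ N := by
    have : (4:ℤ) ≤ ⌊(Real.log X) ^ 2⌋ := Int.le_floor.2 (by push_cast; nlinarith)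
    rw [hN]; omega
  have hN0' : (0:ℝ) ≤ N := by exact_mod_cast hN0
  -- step 2: decomposition
  have hdec : ∑ t ∈ S, e t = (∑ k ∈ Finset.Icc (-N) N, ∑ t ∈ S, (tent (t - T - k) : ℂ) * e t) +
      ∑ t ∈ S, ((1 - pu N (t - T) : ℝ) : ℂ) * e t := by
    rw [Finset.sum_comm, ← Finset.sum_add_distrib]
    refine Finset.sum_congr rfl fun t _ => ?_
    rw [← Finset.sum_mul, ← add_mul]
    have : (∑ k ∈ Finset.Icc (-N) N, (tent (t - T - k) : ℂ)) = ((pu N (t - T) : ℝ) : ℂ) := by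
      rw [pu]; push_cast; rfl
    rw [this]; push_cast; ring
  -- step 3: the tail
  have htail : ‖∑ t ∈ S, ((1 - pu N (t - T) : ℝ) : ℂ) * e t‖ ≤ X ^ (-(5:ℝ)) := by
    refine le_trans ?_ has
    have e1 : ∑ t ∈ S, ((1 - pu N (t - T) : ℝ) : ℂ) * e t =
        ∑ t ∈ S.filter (fun t => (N:ℝ) < |t - T|), ((1 - pu N (t - T) : ℝ) : ℂ) * e t := by
      symm
      apply Finset.sum_subset (Finset.filter_subset _ _)
      intro t ht ht'
      rw [Finset.mem_filter] at ht'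
      have : |t - T| ≤ N := by by_contra h; exact ht' ⟨ht, not_le.1 h⟩
      rw [pu_eq_one N _ this]; simp
    rw [e1]
    have hb : ∀ t ∈ S.filter (fun t => (N:ℝ) < |t - T|), ‖((1 - pu N (t - T) : ℝ) : ℂ) * e t‖ ≤
        (2 * Cw * Real.exp (Ca * (Real.log X) ^ (3 / 2 : ℝ))) * Real.exp (-|t - T| / 2) := by
      intro t ht
      rw [Finset.mem_filter] at ht
      have htZ : t ∈ Zw X T := by rw [hS, Set.Finite.mem_toFinset] at ht; exact ht.1
      have htZ' := mem_Zw.1 htZ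
      have hab := abs_le.1 htZ'.2
      have ha := haa' t htZ'.1 (by linarith) (by
          have : Real.sqrt X ≤ X := by
            rw [Real.sqrt_le_left (by linarith)]; nlinarith
          linarith) (hSp.1 t htZ'.1 (by linarith [htZ'.2])) (by
        intro t' ht' h15 hne
        have h1 := hSp.2 t' ht' t htZ'.1 (by
          calc |t' - T| = |(t' - t) + (t - T)| := by ring_nf
            _ ≤ |t' - t| + |t - T| := abs_add_le _ _
            _ ≤ _ := by linarith [htZ'.2]) (by linarith [htZ'.2]) hne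
        refine le_trans ?_ h1
        gcongr
        norm_num)
      have hw := hW (((t - T : ℝ) : ℂ) * I) (by simp)
      have him : ((((t - T : ℝ) : ℂ) * I)).im = t - T := by simp
      rw [him] at hw
      simp only [he, ee]
      rw [norm_mul, norm_mul, norm_mul, norm_mul, norm_cpow_I hy, mul_one, Complex.norm_real,
        Real.norm_eq_abs]
      have hp1 : |1 - pu N (t - T)| ≤ 1 := by
        rw [abs_le]; constructor <;> linarith [pu_nonneg N (t - T), pu_le_one N (t - T)]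
      calc _ ≤ 1 * (Cw * Real.exp (-|t - T| / 2) * Real.exp (Ca * (Real.log X) ^ (3 / 2 : ℝ)) * 2) := by
            have := hf3 t
            gcongr
        _ = _ := by ring
    refine (norm_sum_le _ _).trans ((Finset.sum_le_sum hb).trans ?_)
    rw [← Finset.mul_sum]
    have ht := tail_sum X T N hN0' hL2 hSp
    rw [← hS] at ht
    calc _ ≤ (2 * Cw * Real.exp (Ca * (Real.log X) ^ (3 / 2 : ℝ))) *
          (8 * Real.log X * Real.exp (-(N:ℝ) / 2)) := by gcongr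
      _ ≤ _ := by
          gcongr
  -- step 4: main part
  have hmain : ‖∑ k ∈ Finset.Icc (-N) N, ∑ t ∈ S, (tent (t - T - k) : ℂ) * e t‖ ^ 2 ≤
      Cs * Cp * κ ^ 2 *
        SZ X (fun k => ∫ v : ℝ, KK v * ‖ZZ true A X (y * Real.exp v) (T + k)‖ ^ 2) := by
    set J : ℤ → ℝ := fun k => ∫ v : ℝ, KK v * ‖ZZ true A X (y * Real.exp v) (T + k)‖ ^ 2 with hJ
    set a : ℤ → ℝ := fun k => ‖∑ t ∈ S, (tent (t - T - k) : ℂ) * e t‖ with ha
    have hak : ∀ k ∈ Finset.Icc (-N) N, a k ^ 2 ≤ Cp * κ ^ 2 * Real.exp (-|(k:ℝ)| / 2) * J k := by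
      intro k hk
      rw [Finset.mem_Icc] at hk
      have hk1 : |k| ≤ N := abs_le.2 hk
      have hk2 : |(k:ℝ)| ≤ N := by exact_mod_cast hk1
      exact hpiece X T y κ f k hy hκ0 (by linarith) hf1 hf2
    have h1 : ‖∑ k ∈ Finset.Icc (-N) N, ∑ t ∈ S, (tent (t - T - k) : ℂ) * e t‖ ≤
        ∑ k ∈ Finset.Icc (-N) N, a k := norm_sum_le _ _
    have h2 : (∑ k ∈ Finset.Icc (-N) N, a k) ^ 2 ≤
        (∑ k ∈ Finset.Icc (-N) N, Real.exp (-|(k:ℝ)| / 4)) *
          ∑ k ∈ Finset.Icc (-N) N, Real.exp (|(k:ℝ)| / 4) * a k ^ 2 := by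
      have h := Finset.sum_mul_sq_le_sq_mul_sq (Finset.Icc (-N) N)
        (fun k : ℤ => Real.exp (-|(k:ℝ)| / 8)) (fun k : ℤ => Real.exp (|(k:ℝ)| / 8) * a k)
      have q1 : ∑ k ∈ Finset.Icc (-N) N, Real.exp (-|(k:ℝ)| / 8) * (Real.exp (|(k:ℝ)| / 8) * a k) =
          ∑ k ∈ Finset.Icc (-N) N, a k := Finset.sum_congr rfl fun k _ => by
        rw [← mul_assoc, ← Real.exp_add]
        have : -|(k:ℝ)| / 8 + |(k:ℝ)| / 8 = 0 := by ring
        rw [this, Real.exp_zero, one_mul]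
      have q2 : ∑ k ∈ Finset.Icc (-N) N, Real.exp (-|(k:ℝ)| / 8) ^ 2 =
          ∑ k ∈ Finset.Icc (-N) N, Real.exp (-|(k:ℝ)| / 4) := Finset.sum_congr rfl fun k _ => by
        rw [← Real.exp_nat_mul]; congr 1; push_cast; ring
      have q3 : ∑ k ∈ Finset.Icc (-N) N, (Real.exp (|(k:ℝ)| / 8) * a k) ^ 2 =
          ∑ k ∈ Finset.Icc (-N) N, Real.exp (|(k:ℝ)| / 4) * a k ^ 2 :=
        Finset.sum_congr rfl fun k _ => by
        rw [mul_pow, ← Real.exp_nat_mul]; congr 2; push_cast; ring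
      rw [q1, q2, q3] at h
      exact h
    have h3 : ∑ k ∈ Finset.Icc (-N) N, Real.exp (|(k:ℝ)| / 4) * a k ^ 2 ≤ Cp * κ ^ 2 * SZ X J := by
      calc _ ≤ ∑ k ∈ Finset.Icc (-N) N, Real.exp (|(k:ℝ)| / 4) *
            (Cp * κ ^ 2 * Real.exp (-|(k:ℝ)| / 2) * J k) :=
            Finset.sum_le_sum fun k hk => mul_le_mul_of_nonneg_left (hak k hk) (Real.exp_pos _).le
        _ = ∑ k ∈ Finset.Icc (-N) N, Cp * κ ^ 2 * (Real.exp (-|(k:ℝ)| / 4) * J k) := by
            refine Finset.sum_congr rfl fun k _ => ?_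
            have : Real.exp (|(k:ℝ)| / 4) * Real.exp (-|(k:ℝ)| / 2) = Real.exp (-|(k:ℝ)| / 4) := by
              rw [← Real.exp_add]; congr 1; ring
            rw [← this]; ring
        _ = Cp * κ ^ 2 * ∑ k ∈ Finset.Icc (-N) N, Real.exp (-|(k:ℝ)| / 4) * J k := by
            rw [Finset.mul_sum]
        _ ≤ Cp * κ ^ 2 * SZ X J := by
            rw [SZ]
            apply mul_le_mul_of_nonneg_left _ (by positivity)
            apply Finset.sum_le_sum_of_subset_of_nonneg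
            · apply Finset.Icc_subset_Icc <;> rw [hN] <;> omega
            · intro k _ _
              exact mul_nonneg (Real.exp_pos _).le (hKK k)
    have hs := hsum N
    have h4 : 0 ≤ ∑ k ∈ Finset.Icc (-N) N, Real.exp (|(k:ℝ)| / 4) * a k ^ 2 :=
      Finset.sum_nonneg fun k _ => by positivity
    calc _ ≤ (∑ k ∈ Finset.Icc (-N) N, a k) ^ 2 := by gcongr
      _ ≤ _ := h2
      _ ≤ Cs * (Cp * κ ^ 2 * SZ X J) := by
          apply mul_le_mul hs h3 h4 hCs.le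
      _ = _ := by ring
  -- assembly
  have hfin : ‖∑ t ∈ S, e t‖ ^ 2 ≤ 2 * (Cs * Cp * κ ^ 2 *
        SZ X (fun k => ∫ v : ℝ, KK v * ‖ZZ true A X (y * Real.exp v) (T + k)‖ ^ 2)) +
        2 * X ^ (-(10:ℝ)) := by
    rw [hdec]
    set u := ∑ k ∈ Finset.Icc (-N) N, ∑ t ∈ S, (tent (t - T - k) : ℂ) * e t
    set v := ∑ t ∈ S, ((1 - pu N (t - T) : ℝ) : ℂ) * e t
    have h1 := norm_add_le u v
    have h2 : ‖v‖ ^ 2 ≤ X ^ (-(10:ℝ)) := by
      have : (X ^ (-(5:ℝ))) ^ 2 = X ^ (-(10:ℝ)) := by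
        rw [← Real.rpow_natCast (X ^ (-(5:ℝ))) 2, ← Real.rpow_mul hX0.le]; norm_num
      rw [← this]
      exact pow_le_pow_left₀ (norm_nonneg _) htail 2
    have h3 : ‖u + v‖ ^ 2 ≤ (‖u‖ + ‖v‖) ^ 2 := pow_le_pow_left₀ (norm_nonneg _) h1 2
    nlinarith [sq_nonneg (‖u‖ - ‖v‖)]
  have hsq : (‖ZZ true A X y T‖ - ‖ZZ true A X (y * Real.exp (-P)) T‖) ^ 2 ≤ ‖∑ t ∈ S, e t‖ ^ 2 := by
    rw [← sq_abs]
    exact pow_le_pow_left₀ (abs_nonneg _) hstep1 2
  refine hsq.trans (hfin.trans ?_)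
  have hx10 : 0 < X ^ (-(10:ℝ)) := Real.rpow_pos_of_pos hX0 _
  have h1 : 0 ≤ κ ^ 2 * SZ X (fun k => ∫ v : ℝ, KK v * ‖ZZ true A X (y * Real.exp v) (T + k)‖ ^ 2) := by
    positivity
  have h2 : 0 < Cs * Cp := by positivity
  nlinarith

end H345
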