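import Pool.Agent.H345R2.KKfacts
import Pool.Agent.H345R2.EnergyPt
import Pool.Agent.H345R2.FinalA
import Pool.Agent.H345R2.Phase

set_option autoImplicit false

open Complex Filter Topology Set MeasureTheory

namespace H345



/-- uniform bound for the zero sums in a window -/
lemma ZZ_le (e : Bool) (A : ℕ) (X T : ℝ) {y : ℝ} (hy : 0 < y) : ‖ZZ e A X y T‖ ≤ S1 A X T := by
  rw [ZZ, S1, finsum_mem_eq_finite_toFinset_sum _ (Zw_finite X T),
    finsum_mem_eq_finite_toFinset_sum _ (Zw_finite X T)]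
  refine (norm_sum_le _ _).trans (Finset.sum_le_sum fun t _ => ?_)
  rw [norm_mul, norm_mul, norm_WE, norm_cpow_I hy, mul_one]
  have h1 : (1 : ℝ) ≤ (1 + |t - T|) ^ 2 := by nlinarith [abs_nonneg (t - T)]
  have h2 : ‖WW A (((t - T : ℝ) : ℂ) * I)‖ ≤ ‖WW A (((t - T : ℝ) : ℂ) * I)‖ * (1 + |t - T|) ^ 2 :=
    le_mul_of_one_le_right (norm_nonneg _) h1
  exact mul_le_mul_of_nonneg_right h2 (norm_nonneg _)

lemma S1_nonneg (A : ℕ) (X T : ℝ) : 0 ≤ S1 A X T := by
  rw [S1, finsum_mem_eq_finite_toFinset_sum _ (Zw_finite X T)]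
  exact Finset.sum_nonneg fun t _ => by positivity

lemma N2_nonneg'' (A : ℕ) (X T : ℝ) : 0 ≤ N2 A X T := by
  rw [N2, finsum_mem_eq_finite_toFinset_sum _ (Zw_finite X T)]
  exact Finset.sum_nonneg fun t _ => by positivity

/-- continuity in the logarithmic variable -/
lemma ZZ_cont_mul (e : Bool) (A : ℕ) (X T : ℝ) {c : ℝ} (hc : 0 < c) :
    Continuous (fun v : ℝ => ZZ e A X (Real.exp v * c) T) := by
  have h := (ZZ_exp_cont e A X T).comp (by fun_prop : Continuous fun v : ℝ => v + Real.log c)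
  have e1 : (fun v : ℝ => ZZ e A X (Real.exp v * c) T) =
      (fun x : ℝ => ZZ e A X (Real.exp x) T) ∘ fun v : ℝ => v + Real.log c := by
    funext v
    simp only [Function.comp]
    rw [Real.exp_add, Real.exp_log hc]
  rw [e1]; exact h

lemma ZZ_cont_mul' (e : Bool) (A : ℕ) (X T : ℝ) {c : ℝ} (hc : 0 < c) :
    Continuous (fun v : ℝ => ZZ e A X (c * Real.exp v) T) := by
  have := ZZ_cont_mul e A X T hc
  simpa [mul_comm] using this

lemma Zint (A : ℕ) (X T : ℝ) {c : ℝ} (hc : 0 < c) :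
    Integrable (fun v : ℝ => KK v * ‖ZZ true A X (Real.exp v * c) T‖ ^ 2) := by
  refine Integrable.mono' (KK_int.mul_const (S1 A X T ^ 2))
    (KK_cont.mul ((ZZ_cont_mul true A X T hc).norm.pow 2)).aestronglyMeasurable ?_
  refine Eventually.of_forall fun v => ?_
  rw [Real.norm_eq_abs, abs_of_nonneg (mul_nonneg (KK_pos v).le (by positivity))]
  exact mul_le_mul_of_nonneg_left (pow_le_pow_left₀ (norm_nonneg _)
    (ZZ_le true A X T (by positivity)) 2) (KK_pos v).le

/-- the inner integral after convolution and a shift of the base point -/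
lemma conv_step (A : ℕ) (X T T' : ℝ) (hT : 0 < T) (hT' : 0 < T') (hd : |Real.log (T / T')| ≤ 1) :
    Integrable (fun v : ℝ => KK v * ∫ w : ℝ, KK w *
      ‖ZZ true A X (Real.exp v * T * Real.exp w) T'‖ ^ 2) ∧
    ∫ v : ℝ, KK v * ∫ w : ℝ, KK w * ‖ZZ true A X (Real.exp v * T * Real.exp w) T'‖ ^ 2 ≤
      24 * Real.pi * JZ A X T' := by
  set F : ℝ → ℝ := fun u => ‖ZZ true A X (Real.exp u * T) T'‖ ^ 2 with hF
  have hFc : Continuous F := (ZZ_cont_mul true A X T' hT).norm.pow 2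
  have hF0 : ∀ u, 0 ≤ F u := fun u => by positivity
  have hFM : ∀ u, F u ≤ S1 A X T' ^ 2 := fun u =>
    pow_le_pow_left₀ (norm_nonneg _) (ZZ_le true A X T' (by positivity)) 2
  obtain ⟨h1, h2⟩ := conv_KK hFc hF0 hFM
  have e1 : ∀ v w : ℝ, F (v + w) = ‖ZZ true A X (Real.exp v * T * Real.exp w) T'‖ ^ 2 := by
    intro v w
    rw [hF]
    simp only
    rw [Real.exp_add]
    congr 3
    ring
  simp only [e1] at h1 h2
  refine ⟨h1, h2.trans ?_⟩
  -- shift to the base point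
  set G : ℝ → ℝ := fun u => ‖ZZ true A X (Real.exp u * T') T'‖ ^ 2 with hG
  have hGc : Continuous G := (ZZ_cont_mul true A X T' hT').norm.pow 2
  have hG0 : ∀ u, 0 ≤ G u := fun u => by positivity
  have hGM : ∀ u, G u ≤ S1 A X T' ^ 2 := fun u =>
    pow_le_pow_left₀ (norm_nonneg _) (ZZ_le true A X T' (by positivity)) 2
  have e2 : ∀ u, F u = G (u + Real.log (T / T')) := by
    intro u
    rw [hF, hG]
    simp only
    rw [Real.exp_add, Real.exp_log (by positivity)]
    congr 3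
    field_simp
  have h3 := shift_KK hGc hG0 hGM hd
  simp only [← e2] at h3
  have h4 : ∫ u, KK u * G u = JZ A X T' := rfl
  rw [h4] at h3
  have hpi := Real.pi_pos
  calc 8 * Real.pi * ∫ u, KK u * F u ≤ 8 * Real.pi * (3 * JZ A X T') :=
        mul_le_mul_of_nonneg_left h3 (by positivity)
    _ = 24 * Real.pi * JZ A X T' := by ring


lemma KK_tail' {a : ℝ} (ha : 0 < a) : ∫ v in Set.Iic (-a), KK v ≤ 1 / a := by
  have h := integral_comp_neg_Iic (-a) KK
  simp only [KK_neg, neg_neg] at h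
  rw [h]
  exact KK_tail ha

lemma HH_integrable (A : ℕ) (hA : 4 ≤ A) (T : ℝ) (hT : 0 < T) :
    IntegrableOn (fun v : ℝ => KK v * ‖DD true A (Real.exp v * T) T‖ ^ 2) (Set.Iic 0) := by
  obtain ⟨C, hC, h⟩ := DD_trivial true A hA
  have hcont : Continuous (fun v : ℝ => DD true A (Real.exp v * T) T) := by
    have h1 := (DD_exp_cont_pt true A hA T).comp
      (by fun_prop : Continuous fun v : ℝ => v + Real.log T)
    have e1 : (fun v : ℝ => DD true A (Real.exp v * T) T) =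
        (fun x : ℝ => DD true A (Real.exp x) T) ∘ fun v : ℝ => v + Real.log T := by
      funext v
      simp only [Function.comp]
      rw [Real.exp_add, Real.exp_log hT]
    rw [e1]; exact h1
  have hd : IntegrableOn (fun v : ℝ => KK v * (C * (1 + T)) ^ 2) (Set.Iic 0) :=
    (KK_int.mul_const _).integrableOn
  refine Integrable.mono' hd (KK_cont.mul (hcont.norm.pow 2)).aestronglyMeasurable.restrict ?_
  rw [ae_restrict_iff' measurableSet_Iic]
  refine Eventually.of_forall fun v hv => ?_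
  rw [Real.norm_eq_abs, abs_of_nonneg (mul_nonneg (KK_pos v).le (by positivity))]
  apply mul_le_mul_of_nonneg_left _ (KK_pos v).le
  apply pow_le_pow_left₀ (norm_nonneg _)
  refine (h (Real.exp v * T) T (by positivity)).trans ?_
  apply mul_le_mul_of_nonneg_left _ hC.le
  have : Real.exp v ≤ 1 := Real.exp_le_one_iff.2 hv
  nlinarith

lemma int_five {f1 f2 f3 f4 f5 : ℝ → ℝ} (i1 : Integrable f1) (i2 : Integrable f2)
    (i3 : Integrable f3) (i4 : Integrable f4) (i5 : Integrable f5) :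
    ∫ v, (f1 v + f2 v + f3 v + f4 v + f5 v) =
      (∫ v, f1 v) + (∫ v, f2 v) + (∫ v, f3 v) + (∫ v, f4 v) + ∫ v, f5 v := by
  have e1 : Integrable (fun v => f1 v + f2 v) := i1.add i2
  have e2 : Integrable (fun v => f1 v + f2 v + f3 v) := e1.add i3
  have e3 : Integrable (fun v => f1 v + f2 v + f3 v + f4 v) := e2.add i4
  rw [integral_add e3 i5, integral_add e2 i4, integral_add e1 i3, integral_add i1 i2]

lemma c0_bounds : 1 ≤ 2 * Real.pi * Real.exp 2 ∧ 2 * Real.pi * Real.exp 2 ≤ 60 := by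
  have h5 : Real.exp 2 = Real.exp 1 * Real.exp 1 := by rw [← Real.exp_add]; norm_num
  have h6 := Real.exp_one_lt_d9
  have h7 := Real.exp_pos 1
  have h8 := Real.pi_lt_d2
  have h9 : Real.exp 2 ≤ 7.5 := by rw [h5]; nlinarith
  have h10 : 1 ≤ Real.exp 2 := Real.one_le_exp (by norm_num)
  have h11 := Real.pi_gt_three
  constructor <;> nlinarith

lemma bp_arith {Z a b D K1 K2 R X10 SS N' : ℝ} (ha : 0 ≤ Z)
    (h1 : (Z - a) ^ 2 ≤ K2 * R + X10) (h2 : a ≤ b + D) (ha0 : 0 ≤ a) (hb : b ^ 2 ≤ K1)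
    (hD : D ^ 2 ≤ N') (hX : X10 ≤ SS) :
    Z ^ 2 ≤ 4 * K1 + 4 * N' + 2 * (K2 * R) + 2 * SS := by
  have e1 := sq_two ha (show Z ≤ a + |Z - a| by linarith [le_abs_self (Z - a)])
  rw [sq_abs] at e1
  have e2 := sq_two ha0 h2
  linarith

theorem boot_pt (hRH : RiemannHypothesis) (A : ℕ) (hA : 4 ≤ A) : ∃ C X0 : ℝ, 0 < C ∧ 10 ≤ X0 ∧
    ∀ X : ℝ, X0 ≤ X → ∀ φ : ℝ, 0 ≤ φ → φ * Real.log X ≤ 1 → ∀ T : ℝ, Real.sqrt X ≤ T → T ≤ X →
    Spaced X T → Latt φ X T →
    JZ A X T ≤ C * (HH A T + 1 + N2 A X T) +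
      C * (φ * Real.log X) ^ 2 * SZ X (fun k => JZ A X (T + k)) := by
  obtain ⟨C1, X1, hC1, hX1, hEt⟩ := EF hRH true A hA
  obtain ⟨C2, X2, hC2, hX2, hEf⟩ := EF hRH false A hA
  obtain ⟨C3, X3, hC3, hX3, hRf⟩ := reflect A hA
  obtain ⟨C4, X4, hC4, hX4, hS1⟩ := S1_sq A hA
  obtain ⟨C5, X5, hC5, hX5, hph⟩ := phase_pt hRH A hA
  obtain ⟨Cd, hCd, hDt⟩ := DD_trivial false A hA
  have ev1 : ∀ᶠ X : ℝ in atTop, 10 ≤ Real.log X := Real.tendsto_log_atTop.eventually_ge_atTop 10
  have ev2 : ∀ᶠ X : ℝ in atTop, (Real.log X) ^ 2 ≤ (1 / 2) * Real.sqrt X := by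
    have h := (isLittleO_log_rpow_atTop (r := 1 / 4) (by norm_num)).def (c := 1 / 2) (by norm_num)
    filter_upwards [h, ev1, eventually_ge_atTop 1] with X hX h1 h2
    rw [Real.norm_of_nonneg (by linarith), Real.norm_of_nonneg (by positivity)] at hX
    have h3 : (Real.log X) ^ 2 ≤ (1 / 2 * X ^ (1 / 4 : ℝ)) ^ 2 :=
      pow_le_pow_left₀ (by linarith) hX 2
    have h4 : (1 / 2 * X ^ (1 / 4 : ℝ)) ^ 2 = 1 / 4 * Real.sqrt X := by
      rw [mul_pow, ← Real.rpow_natCast (X ^ (1 / 4 : ℝ)) 2, ← Real.rpow_mul (by linarith),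
        Real.sqrt_eq_rpow]
      norm_num
    have h5 := Real.sqrt_nonneg X
    linarith
  obtain ⟨X6, hX6⟩ := eventually_atTop.1 (ev1.and ev2)
  set c0 : ℝ := 2 * Real.pi * Real.exp 2 with hc0
  have hc00 : 0 < c0 := by positivity
  obtain ⟨hc1, hc60⟩ := c0_bounds
  rw [← hc0] at hc1 hc60
  set K1 : ℝ := (Cd * (1 + c0) + C2 * 2) ^ 2 with hK1
  have hK1n : 0 ≤ K1 := by positivity
  have hpi := Real.pi_pos
  set CC : ℝ := 2 + 8 * C1 ^ 2 * Real.pi + (4 * K1 + 2 * C5) * Real.pi + 4 * C3 ^ 2 * C4 * Real.pi +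
    4 * C4 + 48 * C5 * Real.pi with hCC
  refine ⟨CC, max (max (max X1 X2) (max X3 X4)) (max X5 X6), by positivity,
    le_max_of_le_left (le_max_of_le_left (le_max_of_le_left hX1)), ?_⟩
  intro X hX φ hφ hφ1 T hT1 hT2 hSp hLa
  have hXX1 : X1 ≤ X := (le_max_left _ _).trans ((le_max_left _ _).trans ((le_max_left _ _).trans hX))
  have hXX2 : X2 ≤ X := (le_max_right _ _).trans ((le_max_left _ _).trans ((le_max_left _ _).trans hX))
  have hXX3 : X3 ≤ X := (le_max_left _ _).trans ((le_max_right _ _).trans ((le_max_left _ _).trans hX))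
  have hXX4 : X4 ≤ X := (le_max_right _ _).trans ((le_max_right _ _).trans ((le_max_left _ _).trans hX))
  have hXX5 : X5 ≤ X := (le_max_left _ _).trans ((le_max_right _ _).trans hX)
  have hXX6 : X6 ≤ X := (le_max_right _ _).trans ((le_max_right _ _).trans hX)
  obtain ⟨hL10, hLs⟩ := hX6 X hXX6
  have hX10 : 10 ≤ X := hX1.trans hXX1
  have hX0 : 0 < X := by linarith
  set L := Real.log X with hL
  have hsX : 0 < Real.sqrt X := Real.sqrt_pos.2 hX0
  have hsXsq := Real.sq_sqrt hX0.le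
  have hT : 0 < T := by linarith
  have hTX : X ≤ T ^ 2 := by
    rw [← hsXsq]; exact pow_le_pow_left₀ hsX.le hT1 2
  have hX100 : 60 ≤ X ^ 2 := by
    have := pow_le_pow_left₀ (by norm_num : (0:ℝ) ≤ 10) hX10 2
    linarith
  have hLX : L ≤ X := by
    have h1 : L ≤ L ^ 2 := le_self_pow₀ (by linarith) (by norm_num)
    have h2 : Real.sqrt X ≤ X := by
      rw [Real.sqrt_le_left hX0.le]
      exact le_self_pow₀ (by linarith) (by norm_num)
    linarith
  set N := N2 A X T with hN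
  have hN0 : 0 ≤ N := N2_nonneg'' A X T
  have hSN : S1 A X T ^ 2 ≤ C4 * L * N := hS1 X hXX4 T hSp
  have hSS0 : 0 ≤ S1 A X T := S1_nonneg A X T
  set κ := φ * L with hκ
  set R : ℝ → ℝ := fun v => SZ X (fun k => ∫ w : ℝ, KK w *
    ‖ZZ true A X (Real.exp v * T * Real.exp w) (T + k)‖ ^ 2) with hR
  have hX10r : X ^ (-(10 : ℝ)) ≤ 1 := Real.rpow_le_one_of_one_le_of_nonpos (by linarith) (by norm_num)
  -- pointwise bounds
  have hpa : ∀ v : ℝ, ‖ZZ true A X (Real.exp v * T) T‖ ^ 2 ≤ C4 * L * N := fun v =>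
    (pow_le_pow_left₀ (norm_nonneg _) (ZZ_le true A X T (by positivity)) 2).trans hSN
  have hexpL : Real.exp (-(L / 2)) * Real.sqrt X = 1 := by
    have : Real.sqrt X = Real.exp (L / 2) := by
      rw [Real.sqrt_eq_rpow, Real.rpow_def_of_pos hX0]; congr 1; rw [← hL]; ring
    rw [this, ← Real.exp_add]; simp
  have hX12 : X ^ (-(1 / 2) : ℝ) = Real.exp (-(L / 2)) := by
    rw [Real.rpow_def_of_pos hX0]; congr 1; rw [← hL]; ring
  have hX2e : X ^ 2 = Real.exp (2 * L) := by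
    rw [two_mul, Real.exp_add, hL, Real.exp_log hX0]; ring
  have hTe : T ≤ Real.exp L := by rw [hL, Real.exp_log hX0]; exact hT2
  have hpb : ∀ v : ℝ, -(L / 2) ≤ v → v ≤ 0 → ‖ZZ true A X (Real.exp v * T) T‖ ^ 2 ≤
      2 * ‖DD true A (Real.exp v * T) T‖ ^ 2 + 8 * C1 ^ 2 := by
    intro v hv1 hv2
    have hev : Real.exp (-(L / 2)) ≤ Real.exp v := Real.exp_le_exp.2 hv1
    have hyl : 1 ≤ Real.exp v * T := by
      rw [← hexpL]; exact mul_le_mul hev hT1 hsX.le (Real.exp_pos _).le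
    have hev1 : Real.exp v ≤ 1 := Real.exp_le_one_iff.2 hv2
    have hyu : Real.exp v * T ≤ X := (mul_le_of_le_one_left hT.le hev1).trans hT2
    have h1 := hEt X hXX1 T hT1 hT2 hSp (Real.exp v * T)
      ((Real.rpow_le_one_of_one_le_of_nonpos (by linarith) (by norm_num)).trans hyl)
      (hyu.trans (le_self_pow₀ (by linarith) (by norm_num)))
    have hT1' : 1 ≤ T := by
      have : (1 : ℝ) ≤ Real.sqrt X := by rw [Real.one_le_sqrt]; linarith
      linarith
    have h4 : (Real.exp v * T * T) ^ (-(3 / 2) : ℝ) ≤ 1 :=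
      Real.rpow_le_one_of_one_le_of_nonpos (one_le_mul_of_one_le_of_one_le hyl hT1') (by norm_num)
    have h2 : ‖ZZ true A X (Real.exp v * T) T - DD true A (Real.exp v * T) T‖ ≤ C1 * 2 :=
      h1.trans (mul_le_mul_of_nonneg_left (by linarith) hC1.le)
    have h3 : ‖ZZ true A X (Real.exp v * T) T‖ ≤ ‖DD true A (Real.exp v * T) T‖ + C1 * 2 := by
      have := norm_sub_norm_le (ZZ true A X (Real.exp v * T) T) (DD true A (Real.exp v * T) T)
      linarith
    have h5 := sq_two (norm_nonneg _) h3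
    linarith
  have hpc : ∀ v : ℝ, 0 ≤ v → v ≤ L / 2 → ‖ZZ true A X (Real.exp v * T) T‖ ^ 2 ≤
      (4 * K1 + 2 * C5 + 4 * C3 ^ 2 * C4 * N) + 2 * C5 * κ ^ 2 * R v := by
    intro v hv1 hv2
    have hy : 0 < Real.exp v * T := by positivity
    have h1 := hph X hXX5 φ hφ hφ1 T hT1 hT2 hSp hLa (Real.exp v * T) hy
    have hy1 : 0 < Real.exp v * T * Real.exp (-(2 * (Real.log T + 1))) := by positivity
    have h2 := hRf X hXX3 T hT1 hT2 _ hy1
    have ey : 2 * Real.pi / (Real.exp v * T * Real.exp (-(2 * (Real.log T + 1))) * T) =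
        c0 * Real.exp (-v) := by
      have h3 : Real.exp (-(2 * (Real.log T + 1))) = (T ^ 2 * Real.exp 2)⁻¹ := by
        rw [Real.exp_neg, show 2 * (Real.log T + 1) = Real.log T + Real.log T + 2 by ring,
          Real.exp_add, Real.exp_add, Real.exp_log hT]
        congr 1; ring
      rw [h3, hc0, Real.exp_neg]
      have := Real.exp_pos v
      have := Real.exp_pos 2
      field_simp
    rw [ey] at h2
    -- EF at c0 * exp (-v)
    have hev : Real.exp (-(L / 2)) ≤ Real.exp (-v) := Real.exp_le_exp.2 (by linarith)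
    have hev1 : Real.exp (-v) ≤ 1 := Real.exp_le_one_iff.2 (by linarith)
    have hyl : Real.exp (-(L / 2)) ≤ c0 * Real.exp (-v) :=
      hev.trans (le_mul_of_one_le_left (Real.exp_pos _).le hc1)
    have hyu : c0 * Real.exp (-v) ≤ X ^ 2 :=
      (mul_le_of_le_one_right hc00.le hev1).trans (hc60.trans hX100)
    have h3 := hEf X hXX2 T hT1 hT2 hSp (c0 * Real.exp (-v)) (by rw [hX12]; exact hyl) hyu
    have hyT : 1 ≤ c0 * Real.exp (-v) * T := by
      rw [← hexpL]; exact mul_le_mul hyl hT1 hsX.le (by positivity)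
    have h4 : (c0 * Real.exp (-v) * T) ^ (-(3 / 2) : ℝ) ≤ 1 :=
      Real.rpow_le_one_of_one_le_of_nonpos hyT (by norm_num)
    have h5 : ‖ZZ false A X (c0 * Real.exp (-v)) T - DD false A (c0 * Real.exp (-v)) T‖ ≤ C2 * 2 :=
      h3.trans (mul_le_mul_of_nonneg_left (by linarith) hC2.le)
    have h6 : ‖ZZ false A X (c0 * Real.exp (-v)) T‖ ≤ Cd * (1 + c0) + C2 * 2 := by
      have h7 := norm_sub_norm_le (ZZ false A X (c0 * Real.exp (-v)) T)
        (DD false A (c0 * Real.exp (-v)) T)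
      have h8 := hDt (c0 * Real.exp (-v)) T (by positivity)
      have h9 : Cd * (1 + c0 * Real.exp (-v)) ≤ Cd * (1 + c0) := by
        apply mul_le_mul_of_nonneg_left _ hCd.le
        have := mul_le_of_le_one_right hc00.le hev1
        linarith
      linarith
    have h7 : ‖ZZ false A X (c0 * Real.exp (-v)) T‖ ^ 2 ≤ K1 :=
      pow_le_pow_left₀ (norm_nonneg _) h6 2
    have h8 : (C3 / T * S1 A X T) ^ 2 ≤ C3 ^ 2 * C4 * N := by
      rw [mul_pow, div_pow]
      calc C3 ^ 2 / T ^ 2 * S1 A X T ^ 2 ≤ C3 ^ 2 / X * (C4 * L * N) := by gcongr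
        _ = C3 ^ 2 * C4 * N * (L / X) := by ring
        _ ≤ C3 ^ 2 * C4 * N * 1 := by
            apply mul_le_mul_of_nonneg_left _ (by positivity)
            rw [div_le_one hX0]; exact hLX
        _ = _ := by ring
    have h9 : ‖ZZ true A X (Real.exp v * T * Real.exp (-(2 * (Real.log T + 1)))) T‖ ≤
        ‖ZZ false A X (c0 * Real.exp (-v)) T‖ + C3 / T * S1 A X T := by
      have := (abs_le.1 h2).2
      linarith
    have h10 := bp_arith (norm_nonneg (ZZ true A X (Real.exp v * T) T)) h1 h9 (norm_nonneg _) h7 h8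
      (mul_le_of_le_one_right hC5.le hX10r)
    have e : R v = SZ X (fun k => ∫ w : ℝ, KK w *
      ‖ZZ true A X (Real.exp v * T * Real.exp w) (T + k)‖ ^ 2) := rfl
    rw [e]
    refine h10.trans (le_of_eq ?_)
    rw [← hκ]; ring
  -- nonnegativity of R
  have hRn : ∀ v, 0 ≤ R v := by
    intro v
    rw [hR]
    simp only [SZ]
    refine Finset.sum_nonneg fun k _ => mul_nonneg (Real.exp_pos _).le ?_
    exact integral_nonneg fun w => mul_nonneg (KK_pos w).le (by positivity)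
  -- the comparison function
  set f1 : ℝ → ℝ := (Set.Iic (0 : ℝ)).indicator
    (fun v => 2 * (KK v * ‖DD true A (Real.exp v * T) T‖ ^ 2) + 8 * C1 ^ 2 * KK v) with hf1
  set f2 : ℝ → ℝ := fun v => (4 * K1 + 2 * C5 + 4 * C3 ^ 2 * C4 * N) * KK v with hf2
  set f3 : ℝ → ℝ := fun v => 2 * C5 * κ ^ 2 * (KK v * R v) with hf3
  set f4 : ℝ → ℝ := (Set.Iic (-(L / 2))).indicator (fun v => C4 * L * N * KK v) with hf4
  set f5 : ℝ → ℝ := (Set.Ioi (L / 2)).indicator (fun v => C4 * L * N * KK v) with hf5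
  have n1 : ∀ v, 0 ≤ f1 v := fun v => Set.indicator_nonneg (fun v _ => by
    have := (KK_pos v).le; positivity) v
  have n2 : ∀ v, 0 ≤ f2 v := fun v => by
    have := (KK_pos v).le; rw [hf2]; positivity
  have n3 : ∀ v, 0 ≤ f3 v := fun v => by
    have := (KK_pos v).le; have := hRn v; rw [hf3]; positivity
  have n4 : ∀ v, 0 ≤ f4 v := fun v => Set.indicator_nonneg (fun v _ => by
    have := (KK_pos v).le; positivity) v
  have n5 : ∀ v, 0 ≤ f5 v := fun v => Set.indicator_nonneg (fun v _ => by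
    have := (KK_pos v).le; positivity) v
  have hptw : ∀ v, KK v * ‖ZZ true A X (Real.exp v * T) T‖ ^ 2 ≤
      f1 v + f2 v + f3 v + f4 v + f5 v := by
    intro v
    have hk := (KK_pos v).le
    have m1 := n1 v
    have m2 := n2 v
    have m3 := n3 v
    have m4 := n4 v
    have m5 := n5 v
    by_cases c1 : v ≤ -(L / 2)
    · have e : f4 v = C4 * L * N * KK v := by rw [hf4]; exact Set.indicator_of_mem (by exact c1) _
      have h := mul_le_mul_of_nonneg_left (hpa v) hk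
      rw [e]; linarith
    · push Not at c1
      by_cases c2 : v ≤ 0
      · have e : f1 v = 2 * (KK v * ‖DD true A (Real.exp v * T) T‖ ^ 2) + 8 * C1 ^ 2 * KK v := by
          rw [hf1]; exact Set.indicator_of_mem (by exact c2) _
        have h := mul_le_mul_of_nonneg_left (hpb v c1.le c2) hk
        rw [e]; linarith
      · push Not at c2
        by_cases c3 : v ≤ L / 2
        · have h := mul_le_mul_of_nonneg_left (hpc v c2.le c3) hk
          have e2 : f2 v = (4 * K1 + 2 * C5 + 4 * C3 ^ 2 * C4 * N) * KK v := rfl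
          have e3 : f3 v = 2 * C5 * κ ^ 2 * (KK v * R v) := rfl
          rw [e2, e3]; linarith
        · push Not at c3
          have e : f5 v = C4 * L * N * KK v := by rw [hf5]; exact Set.indicator_of_mem (by exact c3) _
          have h := mul_le_mul_of_nonneg_left (hpa v) hk
          rw [e]; linarith
  -- integrals
  have hHi := HH_integrable A hA T hT
  have i1 : Integrable f1 := by
    rw [hf1, integrable_indicator_iff measurableSet_Iic]
    exact (hHi.const_mul 2).add (KK_int.integrableOn.const_mul _)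
  have i2 : Integrable f2 := KK_int.const_mul _
  have hconv : ∀ k ∈ Finset.Icc (-⌊(Real.log X) ^ 2⌋) ⌊(Real.log X) ^ 2⌋,
      Integrable (fun v : ℝ => KK v * ∫ w : ℝ, KK w *
        ‖ZZ true A X (Real.exp v * T * Real.exp w) (T + (k : ℝ))‖ ^ 2) ∧
      ∫ v : ℝ, KK v * ∫ w : ℝ, KK w *
        ‖ZZ true A X (Real.exp v * T * Real.exp w) (T + (k : ℝ))‖ ^ 2 ≤
        24 * Real.pi * JZ A X (T + (k : ℝ)) := by
    intro k hk
    rw [Finset.mem_Icc] at hk
    have hk1 : (k : ℝ) ≤ L ^ 2 := (Int.cast_le.2 hk.2).trans (Int.floor_le _)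
    have hk2 : -(L ^ 2) ≤ (k : ℝ) := by
      have h1 : ((-⌊(Real.log X) ^ 2⌋ : ℤ) : ℝ) ≤ (k : ℝ) := Int.cast_le.2 hk.1
      have h2 := Int.floor_le ((Real.log X) ^ 2)
      push_cast at h1
      linarith
    have hT' : 0 < T + (k : ℝ) := by linarith
    refine conv_step A X T (T + k) hT hT' ?_
    rw [abs_le]
    constructor
    · have h1 := Real.log_le_sub_one_of_pos (show 0 < (T + (k : ℝ)) / T by positivity)
      have h2 : Real.log (T / (T + (k : ℝ))) = -Real.log ((T + (k : ℝ)) / T) := by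
        rw [← Real.log_inv, inv_div]
      rw [h2]
      have h3 : (T + (k : ℝ)) / T ≤ 2 := by
        rw [div_le_iff₀ hT]; linarith
      linarith
    · have h1 := Real.log_le_sub_one_of_pos (show 0 < T / (T + (k : ℝ)) by positivity)
      have h3 : T / (T + (k : ℝ)) ≤ 2 := by
        rw [div_le_iff₀ hT']; linarith
      linarith
  have e3 : f3 = fun v => 2 * C5 * κ ^ 2 *
      ∑ k ∈ Finset.Icc (-⌊(Real.log X) ^ 2⌋) ⌊(Real.log X) ^ 2⌋, Real.exp (-|(k : ℝ)| / 4) *
        (KK v * ∫ w : ℝ, KK w *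
          ‖ZZ true A X (Real.exp v * T * Real.exp w) (T + (k : ℝ))‖ ^ 2) := by
    funext v
    rw [hf3]
    simp only [hR, SZ]
    rw [Finset.mul_sum]
    congr 1
    refine Finset.sum_congr rfl fun k _ => ?_
    ring
  have i3 : Integrable f3 := by
    rw [e3]
    refine Integrable.const_mul ?_ _
    exact integrable_finsetSum _ fun k hk => (hconv k hk).1.const_mul _
  have i4 : Integrable f4 := by
    rw [hf4, integrable_indicator_iff measurableSet_Iic]
    exact (KK_int.integrableOn.const_mul _)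
  have i5 : Integrable f5 := by
    rw [hf5, integrable_indicator_iff measurableSet_Ioi]
    exact (KK_int.integrableOn.const_mul _)
  have v1 : ∫ v, f1 v ≤ 2 * HH A T + 8 * C1 ^ 2 * Real.pi := by
    rw [hf1, integral_indicator measurableSet_Iic, integral_add (hHi.const_mul 2)
      (KK_int.integrableOn.const_mul _), integral_const_mul, integral_const_mul]
    have h1 : ∫ v in Set.Iic (0 : ℝ), KK v ≤ Real.pi := by
      rw [← KK_integral]
      exact setIntegral_le_integral KK_int (Eventually.of_forall fun v => (KK_pos v).le)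
    have h2 : 8 * C1 ^ 2 * ∫ v in Set.Iic (0 : ℝ), KK v ≤ 8 * C1 ^ 2 * Real.pi :=
      mul_le_mul_of_nonneg_left h1 (by positivity)
    have h3 : ∫ v in Set.Iic (0 : ℝ), KK v * ‖DD true A (Real.exp v * T) T‖ ^ 2 = HH A T := rfl
    rw [h3]; linarith
  have v2 : ∫ v, f2 v = (4 * K1 + 2 * C5 + 4 * C3 ^ 2 * C4 * N) * Real.pi := by
    rw [hf2, integral_const_mul, KK_integral]
  have v3 : ∫ v, f3 v ≤ 48 * C5 * Real.pi * κ ^ 2 * SZ X (fun k => JZ A X (T + k)) := by
    rw [e3, integral_const_mul, integral_finsetSum _ fun k hk => (hconv k hk).1.const_mul _]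
    have h1 : ∑ k ∈ Finset.Icc (-⌊(Real.log X) ^ 2⌋) ⌊(Real.log X) ^ 2⌋,
        ∫ v, Real.exp (-|(k : ℝ)| / 4) * (KK v * ∫ w : ℝ, KK w *
          ‖ZZ true A X (Real.exp v * T * Real.exp w) (T + (k : ℝ))‖ ^ 2) ≤
        24 * Real.pi * SZ X (fun k => JZ A X (T + k)) := by
      rw [SZ, Finset.mul_sum]
      refine Finset.sum_le_sum fun k hk => ?_
      rw [integral_const_mul]
      calc Real.exp (-|(k : ℝ)| / 4) * ∫ v, KK v * ∫ w : ℝ, KK w *
            ‖ZZ true A X (Real.exp v * T * Real.exp w) (T + (k : ℝ))‖ ^ 2 ≤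
            Real.exp (-|(k : ℝ)| / 4) * (24 * Real.pi * JZ A X (T + (k : ℝ))) :=
            mul_le_mul_of_nonneg_left (hconv k hk).2 (Real.exp_pos _).le
        _ = _ := by ring
    calc _ ≤ 2 * C5 * κ ^ 2 * (24 * Real.pi * SZ X (fun k => JZ A X (T + k))) :=
          mul_le_mul_of_nonneg_left h1 (by positivity)
      _ = _ := by ring
  have hL2 : 0 < L / 2 := by linarith
  have v4 : ∫ v, f4 v ≤ 2 * C4 * N := by
    rw [hf4, integral_indicator measurableSet_Iic, integral_const_mul]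
    calc C4 * L * N * ∫ v in Set.Iic (-(L / 2)), KK v ≤ C4 * L * N * (1 / (L / 2)) :=
          mul_le_mul_of_nonneg_left (KK_tail' hL2) (by positivity)
      _ = 2 * C4 * N := by field_simp
  have v5 : ∫ v, f5 v ≤ 2 * C4 * N := by
    rw [hf5, integral_indicator measurableSet_Ioi, integral_const_mul]
    calc C4 * L * N * ∫ v in Set.Ioi (L / 2), KK v ≤ C4 * L * N * (1 / (L / 2)) :=
          mul_le_mul_of_nonneg_left (KK_tail hL2) (by positivity)
      _ = 2 * C4 * N := by field_simp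
  have hJ : JZ A X T ≤ ∫ v, (f1 v + f2 v + f3 v + f4 v + f5 v) := by
    rw [JZ]
    exact integral_mono (Zint A X T hT) ((((i1.add i2).add i3).add i4).add i5) hptw
  rw [int_five i1 i2 i3 i4 i5, v2] at hJ
  set SJ := SZ X (fun k => JZ A X (T + k)) with hSJ
  have hSJ0 : 0 ≤ SJ := by
    rw [hSJ, SZ]
    refine Finset.sum_nonneg fun k _ => mul_nonneg (Real.exp_pos _).le ?_
    exact integral_nonneg fun w => mul_nonneg (KK_pos w).le (by positivity)
  have hHH0 : 0 ≤ HH A T := by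
    rw [HH]
    exact setIntegral_nonneg measurableSet_Iic fun w _ => mul_nonneg (KK_pos w).le (by positivity)
  have hfin : JZ A X T ≤ (2 * HH A T + 8 * C1 ^ 2 * Real.pi) +
      (4 * K1 + 2 * C5 + 4 * C3 ^ 2 * C4 * N) * Real.pi +
      48 * C5 * Real.pi * κ ^ 2 * SJ + 2 * C4 * N + 2 * C4 * N := by linarith
  refine hfin.trans ?_
  have q1 : CC * (HH A T + 1 + N) + CC * κ ^ 2 * SJ - ((2 * HH A T + 8 * C1 ^ 2 * Real.pi) +
      (4 * K1 + 2 * C5 + 4 * C3 ^ 2 * C4 * N) * Real.pi +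
      48 * C5 * Real.pi * κ ^ 2 * SJ + 2 * C4 * N + 2 * C4 * N) =
      (8 * C1 ^ 2 * Real.pi + (4 * K1 + 2 * C5) * Real.pi + 4 * C3 ^ 2 * C4 * Real.pi +
        4 * C4 + 48 * C5 * Real.pi) * HH A T +
      (2 + 4 * C3 ^ 2 * C4 * Real.pi + 4 * C4 + 48 * C5 * Real.pi) +
      (2 + 8 * C1 ^ 2 * Real.pi + (4 * K1 + 2 * C5) * Real.pi + 48 * C5 * Real.pi) * N +
      (2 + 8 * C1 ^ 2 * Real.pi + (4 * K1 + 2 * C5) * Real.pi + 4 * C3 ^ 2 * C4 * Real.pi +
        4 * C4) * (κ ^ 2 * SJ) := by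
    rw [hCC]; ring
  have q2 : 0 ≤ (8 * C1 ^ 2 * Real.pi + (4 * K1 + 2 * C5) * Real.pi + 4 * C3 ^ 2 * C4 * Real.pi +
        4 * C4 + 48 * C5 * Real.pi) * HH A T +
      (2 + 4 * C3 ^ 2 * C4 * Real.pi + 4 * C4 + 48 * C5 * Real.pi) +
      (2 + 8 * C1 ^ 2 * Real.pi + (4 * K1 + 2 * C5) * Real.pi + 48 * C5 * Real.pi) * N +
      (2 + 8 * C1 ^ 2 * Real.pi + (4 * K1 + 2 * C5) * Real.pi + 4 * C3 ^ 2 * C4 * Real.pi +
        4 * C4) * (κ ^ 2 * SJ) := by positivity
  linarith

end H345
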