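import Pool.Agent.H345R2.Defs2
import Pool.Agent.H345R2.EF
import Pool.Agent.H345R2.Window

open Complex Filter Topology Set MeasureTheory

namespace H345

lemma S1_nonneg' (A : ℕ) (X T : ℝ) : 0 ≤ S1 A X T := by
  unfold S1
  exact finsum_nonneg fun i => finsum_nonneg fun _ => by positivity

lemma N2_nonneg' (A : ℕ) (X T : ℝ) : 0 ≤ N2 A X T := by
  unfold N2
  exact finsum_nonneg fun i => finsum_nonneg fun _ => by positivity

lemma GB_nonneg' (X : ℝ) (B : Set ℝ) (T : ℝ) : 0 ≤ GB X B T := by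
  unfold GB
  split_ifs
  · exact (Real.exp_pos _).le
  · exact le_rfl

lemma GB_one' (X : ℝ) (B : Set ℝ) (T : ℝ) (hX : 0 < Real.log X)
    (h : 3 * (Real.log X) ^ 3 ≤ Metric.infDist T B) : GB X B T = 1 := by
  unfold GB
  have h3 : 0 < (Real.log X) ^ 3 := by positivity
  rw [if_pos (by linarith), max_eq_left (by linarith)]
  simp

/-- pointwise comparison -/
lemma cmp_pt (hRH : RiemannHypothesis) (A : ℕ) (hA : 4 ≤ A) (c : ℝ) (hc : 0 < c) :
    ∃ C X0 : ℝ, 0 < C ∧ 10 ≤ X0 ∧ ∀ X : ℝ, X0 ≤ X → ∀ φ : ℝ, 0 ≤ φ →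
    ∀ T : ℝ, Real.sqrt X ≤ T → T ≤ X → Spaced X T → Latt φ X T →
    (‖DD true A (c * T) T‖ - ‖DD false A (2 * Real.pi * Real.exp 2 / c) T‖) ^ 2 ≤
      C * X ^ (-(3 / 2) : ℝ) + C * (φ ^ 2 * (Real.log X) ^ 3 + Real.log X / X) * N2 A X T := by
  obtain ⟨C1, X1, hC1, hX1, h1⟩ := EF hRH true A hA
  obtain ⟨C2, X2, hC2, hX2, h2⟩ := EF hRH false A hA
  obtain ⟨C3, X3, hC3, hX3, h3⟩ := reflect A hA
  obtain ⟨C4, X4, hC4, hX4, h4⟩ := S1_sq A hA
  set y2 : ℝ := 2 * Real.pi * Real.exp 2 / c with hy2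
  have hy20 : 0 < y2 := by positivity
  set K : ℝ := C1 * (c ^ (-(3 / 2) : ℝ) + 1) + C2 * (y2 ^ (-(3 / 2) : ℝ) + 1) with hK
  have hK0 : 0 < K := by positivity
  refine ⟨2 * K ^ 2 + 16 * C4 + 4 * C3 ^ 2 * C4, max (max (max X1 X2) (max X3 X4))
    (max (max c (1 / c)) (max y2 (1 / y2 ^ 2))), by positivity,
    hX1.trans ((le_max_left _ _).trans ((le_max_left _ _).trans (le_max_left _ _))), ?_⟩
  intro X hX φ hφ T hT1 hT2 hsp hla
  have hXX1 : X1 ≤ X := ((le_max_left _ _).trans ((le_max_left _ _).trans (le_max_left _ _))).trans hX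
  have hXX2 : X2 ≤ X := ((le_max_right _ _).trans ((le_max_left _ _).trans (le_max_left _ _))).trans hX
  have hXX3 : X3 ≤ X := ((le_max_left _ _).trans ((le_max_right _ _).trans (le_max_left _ _))).trans hX
  have hXX4 : X4 ≤ X := ((le_max_right _ _).trans ((le_max_right _ _).trans (le_max_left _ _))).trans hX
  have hXc : c ≤ X := ((le_max_left _ _).trans ((le_max_left _ _).trans (le_max_right _ _))).trans hX
  have hXc' : 1 / c ≤ X := ((le_max_right _ _).trans ((le_max_left _ _).trans (le_max_right _ _))).trans hX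
  have hXy : y2 ≤ X := ((le_max_left _ _).trans ((le_max_right _ _).trans (le_max_right _ _))).trans hX
  have hXy' : 1 / y2 ^ 2 ≤ X := ((le_max_right _ _).trans ((le_max_right _ _).trans (le_max_right _ _))).trans hX
  have hX10 : 10 ≤ X := hX1.trans hXX1
  have hX0 : 0 < X := by linarith
  have hsX : 0 < Real.sqrt X := Real.sqrt_pos.2 hX0
  have hsX1 : 1 ≤ Real.sqrt X := by
    rw [Real.one_le_sqrt]; linarith
  have hT0 : 0 < T := lt_of_lt_of_le hsX hT1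
  have hT1' : 1 ≤ T := hsX1.trans hT1
  have hlog1 : 1 ≤ Real.log X := by
    rw [Real.le_log_iff_exp_le hX0]
    have := Real.exp_one_lt_d9
    linarith
  have hXm : X ^ (-(1 / 2) : ℝ) = 1 / Real.sqrt X := by
    rw [Real.rpow_neg hX0.le, ← Real.sqrt_eq_rpow, one_div]
  have hsq : Real.sqrt X * Real.sqrt X = X := Real.mul_self_sqrt hX0.le
  -- the two explicit formulas
  have hy1a : X ^ (-(1 / 2) : ℝ) ≤ c * T := by
    rw [hXm, div_le_iff₀ hsX]
    have : 1 ≤ c * X := by rw [div_le_iff₀ hc] at hXc'; linarith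
    calc 1 ≤ c * X := this
      _ = c * (Real.sqrt X * Real.sqrt X) := by rw [hsq]
      _ = c * Real.sqrt X * Real.sqrt X := by ring
      _ ≤ c * T * Real.sqrt X := by gcongr
  have hy1b : c * T ≤ X ^ 2 := by
    rw [sq]; gcongr
  have hy2a : X ^ (-(1 / 2) : ℝ) ≤ y2 := by
    rw [hXm, div_le_iff₀ hsX]
    have h5 : 1 ≤ y2 ^ 2 * X := by
      rw [div_le_iff₀ (by positivity)] at hXy'; linarith
    have h6 : 1 ≤ (y2 * Real.sqrt X) ^ 2 := by
      rw [mul_pow, sq (Real.sqrt X), hsq]; exact h5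
    nlinarith [h6, mul_pos hy20 hsX]
  have hy2b : y2 ≤ X ^ 2 := by nlinarith
  have e1 := h1 X hXX1 T hT1 hT2 hsp (c * T) hy1a hy1b
  have e2 := h2 X hXX2 T hT1 hT2 hsp y2 hy2a hy2b
  -- error sizes
  have hX34 : 0 < X ^ (-(3 / 4) : ℝ) := Real.rpow_pos_of_pos hX0 _
  have hTm : T ^ (-(3 / 2) : ℝ) ≤ X ^ (-(3 / 4) : ℝ) := by
    have : X ^ (-(3 / 4) : ℝ) = (Real.sqrt X) ^ (-(3 / 2) : ℝ) := by
      rw [Real.sqrt_eq_rpow, ← Real.rpow_mul hX0.le]; congr 1; norm_num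
    rw [this]
    exact Real.rpow_le_rpow_of_nonpos hsX hT1 (by norm_num)
  have hX10' : X ^ (-(10 : ℝ)) ≤ X ^ (-(3 / 4) : ℝ) :=
    Real.rpow_le_rpow_of_exponent_le (by linarith) (by norm_num)
  have e1' : |‖ZZ true A X (c * T) T‖ - ‖DD true A (c * T) T‖| ≤
      C1 * (c ^ (-(3 / 2) : ℝ) + 1) * X ^ (-(3 / 4) : ℝ) := by
    refine (abs_norm_sub_norm_le _ _).trans (e1.trans ?_)
    have h5 : (c * T * T) ^ (-(3 / 2) : ℝ) ≤ c ^ (-(3 / 2) : ℝ) * X ^ (-(3 / 4) : ℝ) := by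
      calc (c * T * T) ^ (-(3 / 2) : ℝ) ≤ (c * T) ^ (-(3 / 2) : ℝ) := by
            apply Real.rpow_le_rpow_of_nonpos (by positivity) _ (by norm_num)
            exact le_mul_of_one_le_right (by positivity) hT1'
        _ = c ^ (-(3 / 2) : ℝ) * T ^ (-(3 / 2) : ℝ) := Real.mul_rpow hc.le hT0.le
        _ ≤ _ := by gcongr
    calc C1 * ((c * T * T) ^ (-(3 / 2) : ℝ) + X ^ (-(10 : ℝ)))
        ≤ C1 * (c ^ (-(3 / 2) : ℝ) * X ^ (-(3 / 4) : ℝ) + X ^ (-(3 / 4) : ℝ)) := by gcongr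
      _ = _ := by ring
  have e2' : |‖ZZ false A X y2 T‖ - ‖DD false A y2 T‖| ≤
      C2 * (y2 ^ (-(3 / 2) : ℝ) + 1) * X ^ (-(3 / 4) : ℝ) := by
    refine (abs_norm_sub_norm_le _ _).trans (e2.trans ?_)
    have h5 : (y2 * T) ^ (-(3 / 2) : ℝ) ≤ y2 ^ (-(3 / 2) : ℝ) * X ^ (-(3 / 4) : ℝ) := by
      rw [Real.mul_rpow hy20.le hT0.le]
      gcongr
    calc C2 * ((y2 * T) ^ (-(3 / 2) : ℝ) + X ^ (-(10 : ℝ)))
        ≤ C2 * (y2 ^ (-(3 / 2) : ℝ) * X ^ (-(3 / 4) : ℝ) + X ^ (-(3 / 4) : ℝ)) := by gcongr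
      _ = _ := by ring
  -- reflection and shift
  set y1 : ℝ := c / (Real.exp 2 * T) with hy1
  have hy10 : 0 < y1 := by positivity
  have hexp : y1 * Real.exp (2 * (Real.log T + 1)) = c * T := by
    have : Real.exp (2 * (Real.log T + 1)) = T ^ 2 * Real.exp 2 := by
      rw [mul_add, Real.exp_add, mul_comm 2 (Real.log T), Real.exp_mul, Real.exp_log hT0]
      norm_num
    rw [this, hy1]
    field_simp
  have hrefl : 2 * Real.pi / (y1 * T) = y2 := by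
    rw [hy1, hy2]; field_simp
  have e3 := shift true A φ X T hφ hlog1 hla y1 hy10
  rw [hexp] at e3
  have e4 := h3 X hXX3 T hT1 hT2 y1 hy10
  rw [hrefl] at e4
  have hS0 := S1_nonneg' A X T
  have hN0 := N2_nonneg' A X T
  have e4' : C3 / T * S1 A X T ≤ C3 / Real.sqrt X * S1 A X T := by gcongr
  have hmain : |‖DD true A (c * T) T‖ - ‖DD false A y2 T‖| ≤
      K * X ^ (-(3 / 4) : ℝ) + (2 * φ * Real.log X + C3 / Real.sqrt X) * S1 A X T := by
    have e : ‖DD true A (c * T) T‖ - ‖DD false A y2 T‖ =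
        -(‖ZZ true A X (c * T) T‖ - ‖DD true A (c * T) T‖) +
        (‖ZZ true A X (c * T) T‖ - ‖ZZ true A X y1 T‖) +
        (‖ZZ true A X y1 T‖ - ‖ZZ false A X y2 T‖) +
        (‖ZZ false A X y2 T‖ - ‖DD false A y2 T‖) := by ring
    rw [e]
    refine (abs_add_le _ _).trans ?_
    refine (add_le_add (abs_add_le _ _) le_rfl).trans ?_
    refine (add_le_add (add_le_add (abs_add_le _ _) le_rfl) le_rfl).trans ?_
    rw [abs_neg]
    have : K * X ^ (-(3 / 4) : ℝ) = C1 * (c ^ (-(3 / 2) : ℝ) + 1) * X ^ (-(3 / 4) : ℝ) +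
      C2 * (y2 ^ (-(3 / 2) : ℝ) + 1) * X ^ (-(3 / 4) : ℝ) := by rw [hK]; ring
    rw [this]
    linarith
  have hSs := h4 X hXX4 T hsp
  have hpw : (X ^ (-(3 / 4) : ℝ)) ^ 2 = X ^ (-(3 / 2) : ℝ) := by
    rw [← Real.rpow_natCast, ← Real.rpow_mul hX0.le]; congr 1; norm_num
  have hinv : (1 / Real.sqrt X) ^ 2 = 1 / X := by
    rw [div_pow, one_pow, sq, hsq]
  have hX32 : 0 < X ^ (-(3 / 2) : ℝ) := Real.rpow_pos_of_pos hX0 _
  have hab : ∀ a b : ℝ, (a + b) ^ 2 ≤ 2 * a ^ 2 + 2 * b ^ 2 := fun a b => by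
    nlinarith [sq_nonneg (a - b)]
  have hL0 : 0 ≤ Real.log X := by linarith
  calc (‖DD true A (c * T) T‖ - ‖DD false A y2 T‖) ^ 2
      = |‖DD true A (c * T) T‖ - ‖DD false A y2 T‖| ^ 2 := (sq_abs _).symm
    _ ≤ (K * X ^ (-(3 / 4) : ℝ) + (2 * φ * Real.log X + C3 / Real.sqrt X) * S1 A X T) ^ 2 := by
        gcongr
    _ ≤ 2 * (K * X ^ (-(3 / 4) : ℝ)) ^ 2 +
        2 * ((2 * φ * Real.log X + C3 / Real.sqrt X) * S1 A X T) ^ 2 := hab _ _
    _ = 2 * K ^ 2 * X ^ (-(3 / 2) : ℝ) +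
        2 * (2 * φ * Real.log X + C3 / Real.sqrt X) ^ 2 * (S1 A X T) ^ 2 := by
        rw [mul_pow, mul_pow, hpw]; ring
    _ ≤ 2 * K ^ 2 * X ^ (-(3 / 2) : ℝ) +
        2 * (2 * (2 * φ * Real.log X) ^ 2 + 2 * (C3 / Real.sqrt X) ^ 2) *
          (C4 * Real.log X * N2 A X T) := by
        gcongr
        exact hab _ _
    _ = 2 * K ^ 2 * X ^ (-(3 / 2) : ℝ) +
        (16 * C4 * (φ ^ 2 * (Real.log X) ^ 3) + 4 * C3 ^ 2 * C4 * (Real.log X / X)) *
          N2 A X T := by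
        have : (C3 / Real.sqrt X) ^ 2 = C3 ^ 2 * (1 / X) := by
          rw [← hinv]; ring
        rw [this]; ring
    _ ≤ (2 * K ^ 2 + 16 * C4 + 4 * C3 ^ 2 * C4) * X ^ (-(3 / 2) : ℝ) +
        ((2 * K ^ 2 + 16 * C4 + 4 * C3 ^ 2 * C4) * (φ ^ 2 * (Real.log X) ^ 3) +
          (2 * K ^ 2 + 16 * C4 + 4 * C3 ^ 2 * C4) * (Real.log X / X)) * N2 A X T := by
        have q1 : 0 ≤ 4 * C3 ^ 2 * C4 := by positivity
        have q2 : 0 ≤ 2 * K ^ 2 := by positivity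
        gcongr <;> linarith
    _ = _ := by ring


/-- `compare` from `energy` -/
theorem compare_of_energy (hRH : RiemannHypothesis) (A : ℕ) (hA : 4 ≤ A)
    (hen : ∃ C η X0 : ℝ, 0 < C ∧ 0 < η ∧
    10 ≤ X0 ∧ ∀ X : ℝ, X0 ≤ X → ∀ φ : ℝ, 0 ≤ φ → φ * Real.log X ≤ η → ∀ B : Set ℝ, Adm φ X B →
    Integrable (fun T => GB X B T * N2 A X T) ∧ ∫ T : ℝ, GB X B T * N2 A X T ≤ C * X)
    (c : ℝ) (hc : 0 < c) :
    ∃ C η X0 : ℝ, 0 < C ∧ 0 < η ∧
    10 ≤ X0 ∧ ∀ X : ℝ, X0 ≤ X → ∀ φ : ℝ, 0 ≤ φ → φ * Real.log X ≤ η → ∀ B : Set ℝ, Adm φ X B →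
    ∫ T in {T : ℝ | 3 * (Real.log X) ^ 3 ≤ Metric.infDist T B},
      (‖DD true A (c * T) T‖ - ‖DD false A (2 * Real.pi * Real.exp 2 / c) T‖) ^ 2 ≤
        C * (φ ^ 2 * (Real.log X) ^ 3 + X ^ (-(1 / 8) : ℝ)) * X := by
  obtain ⟨C1, X1, hC1, hX1, h1⟩ := cmp_pt hRH A hA c hc
  obtain ⟨C2, η, X2, hC2, hη, hX2, h2⟩ := hen
  refine ⟨C1 + 3 * C1 * C2, η, max X1 X2, by positivity, hη, hX1.trans (le_max_left _ _), ?_⟩
  intro X hX φ hφ hφη B hB
  have hXX1 : X1 ≤ X := (le_max_left _ _).trans hX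
  have hXX2 : X2 ≤ X := (le_max_right _ _).trans hX
  have hX10 : 10 ≤ X := hX1.trans hXX1
  have hX0 : 0 < X := by linarith
  obtain ⟨hint, hle⟩ := h2 X hXX2 φ hφ hφη B hB
  have hlog1 : 1 ≤ Real.log X := by
    rw [Real.le_log_iff_exp_le hX0]
    have := Real.exp_one_lt_d9
    linarith
  have hlog0 : 0 < Real.log X := by linarith
  set L := Real.log X with hL
  have hL3 : 0 < L ^ 3 := by positivity
  set S : Set ℝ := {T : ℝ | 3 * L ^ 3 ≤ Metric.infDist T B} with hS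
  have hSm : MeasurableSet S :=
    (isClosed_le continuous_const (Metric.continuous_infDist_pt B)).measurableSet
  have hTS : ∀ T ∈ S, Real.sqrt X ≤ T ∧ T ≤ X ∧ L ^ 3 ≤ Metric.infDist T B := by
    intro T hT
    have hT' : 3 * L ^ 3 ≤ Metric.infDist T B := hT
    have hTB : T ∉ B := by
      intro h
      rw [Metric.infDist_zero_of_mem h] at hT'
      linarith
    refine ⟨?_, ?_, by linarith⟩
    · by_contra h
      exact hTB (hB.low T (not_le.1 h))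
    · by_contra h
      exact hTB (hB.high T (not_le.1 h))
  have hSI : S ⊆ Icc (Real.sqrt X) X := fun T hT => ⟨(hTS T hT).1, (hTS T hT).2.1⟩
  have hvol : volume S ≤ ENNReal.ofReal X := by
    refine (measure_mono hSI).trans ?_
    rw [Real.volume_Icc]
    apply ENNReal.ofReal_le_ofReal
    have := Real.sqrt_nonneg X
    linarith
  have hvolR : (volume S).toReal ≤ X := by
    have := ENNReal.toReal_mono (by simp) hvol
    rwa [ENNReal.toReal_ofReal hX0.le] at this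
  have hfin : volume S < ⊤ := lt_of_le_of_lt hvol (by simp)
  set a : ℝ := C1 * X ^ (-(3 / 2) : ℝ) with ha
  set b : ℝ := C1 * (φ ^ 2 * L ^ 3 + L / X) with hb
  have hX32 : 0 < X ^ (-(3 / 2) : ℝ) := Real.rpow_pos_of_pos hX0 _
  have ha0 : 0 ≤ a := by positivity
  have hb0 : 0 ≤ b := by positivity
  have hconst : IntegrableOn (fun _ : ℝ => a) S := by
    rw [integrableOn_const_iff]
    right; exact hfin
  have hgi : Integrable (fun T => a + b * (GB X B T * N2 A X T)) (volume.restrict S) :=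
    Integrable.add hconst (hint.integrableOn.const_mul b)
  have hmono : ∫ T in S,
      (‖DD true A (c * T) T‖ - ‖DD false A (2 * Real.pi * Real.exp 2 / c) T‖) ^ 2 ≤
      ∫ T in S, (a + b * (GB X B T * N2 A X T)) := by
    apply integral_mono_of_nonneg
    · exact Eventually.of_forall fun T => sq_nonneg _
    · exact hgi
    · rw [Filter.EventuallyLE, ae_restrict_iff' hSm]
      refine Eventually.of_forall fun T hT => ?_
      obtain ⟨hT1, hT2, hT3⟩ := hTS T hT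
      have := h1 X hXX1 φ hφ T hT1 hT2 (hB.sp T hT3) (hB.la T hT3)
      rw [GB_one' X B T hlog0 hT, one_mul]
      exact this
  have hI : ∫ T in S, (a + b * (GB X B T * N2 A X T)) ≤ a * X + b * (C2 * X) := by
    rw [integral_add hconst (hint.integrableOn.const_mul b),
      integral_const_mul b (fun T => GB X B T * N2 A X T)]
    apply add_le_add
    · rw [setIntegral_const, smul_eq_mul, mul_comm (volume.real S)]
      exact mul_le_mul_of_nonneg_left hvolR ha0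
    · apply mul_le_mul_of_nonneg_left _ hb0
      refine le_trans ?_ hle
      apply setIntegral_le_integral hint
      exact Eventually.of_forall fun T => mul_nonneg (GB_nonneg' X B T) (N2_nonneg' A X T)
  refine hmono.trans (hI.trans ?_)
  have hX18 : 0 < X ^ (-(1 / 8) : ℝ) := Real.rpow_pos_of_pos hX0 _
  have q1 : X ^ (-(3 / 2) : ℝ) ≤ X ^ (-(1 / 8) : ℝ) :=
    Real.rpow_le_rpow_of_exponent_le (by linarith) (by norm_num)
  have q2 : L / X ≤ 2 * X ^ (-(1 / 8) : ℝ) := by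
    have h5 : L ≤ X ^ (1 / 2 : ℝ) / (1 / 2) := Real.log_le_rpow_div hX0.le (by norm_num)
    have h6 : X ^ (1 / 2 : ℝ) = X ^ (-(1 / 2) : ℝ) * X := by
      rw [← Real.rpow_add_one hX0.ne']; congr 1; norm_num
    have h7 : X ^ (-(1 / 2) : ℝ) ≤ X ^ (-(1 / 8) : ℝ) :=
      Real.rpow_le_rpow_of_exponent_le (by linarith) (by norm_num)
    rw [div_le_iff₀ hX0]
    calc L ≤ 2 * (X ^ (-(1 / 2) : ℝ) * X) := by rw [← h6]; linarith
      _ = 2 * X ^ (-(1 / 2) : ℝ) * X := by ring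
      _ ≤ 2 * X ^ (-(1 / 8) : ℝ) * X := by gcongr
  calc a * X + b * (C2 * X)
      ≤ C1 * X ^ (-(1 / 8) : ℝ) * X + C1 * (φ ^ 2 * L ^ 3 + 2 * X ^ (-(1 / 8) : ℝ)) * (C2 * X) := by
        rw [ha, hb]; gcongr
    _ ≤ (C1 + 3 * C1 * C2) * (φ ^ 2 * L ^ 3 + X ^ (-(1 / 8) : ℝ)) * X := by
        have p1 : 0 ≤ C1 * (φ ^ 2 * L ^ 3) * X := by positivity
        have p2 : 0 ≤ C1 * C2 * (φ ^ 2 * L ^ 3) * X := by positivity
        have p3 : 0 ≤ C1 * C2 * X ^ (-(1 / 8) : ℝ) * X := by positivity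
        nlinarith [p1, p2, p3]

end H345
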