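import Pool.Agent.H345R2.KKfacts
import Pool.Agent.H345R2.Compare

set_option autoImplicit false

open Complex Filter Topology Set MeasureTheory

namespace H345

lemma KK_shift2 (u d : ℝ) : KK (u - d) ≤ (2 + 2 * d ^ 2) * KK u := by
  rw [KK, KK, mul_one_div, div_le_div_iff₀ (by positivity) (by positivity)]
  nlinarith [sq_nonneg (u - 2 * d), sq_nonneg (d * (u - d))]

lemma ZZ_exp_cont2 (A : ℕ) (X T' : ℝ) (hT' : 0 < T') :
    Continuous (fun v : ℝ => ZZ true A X (Real.exp v * T') T') := by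
  have hf := Zw_finite X T'
  have e : (fun v : ℝ => ZZ true A X (Real.exp v * T') T') = fun v : ℝ =>
      ∑ t ∈ hf.toFinset, WE true A (((t - T' : ℝ) : ℂ) * I) *
        cexp ((((v + Real.log T') * (t - T') : ℝ) : ℂ) * I) * aa t := by
    funext v
    rw [ZZ, finsum_mem_eq_finite_toFinset_sum _ hf]
    refine Finset.sum_congr rfl fun t _ => ?_
    rw [cpow_I_eq (by positivity), Real.log_mul (Real.exp_pos v).ne' hT'.ne', Real.log_exp]
  rw [e]
  fun_prop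

lemma ZZ_exp_bdd (A : ℕ) (X T' : ℝ) (hT' : 0 < T') :
    ∃ M : ℝ, ∀ v : ℝ, ‖ZZ true A X (Real.exp v * T') T'‖ ^ 2 ≤ M := by
  have hf := Zw_finite X T'
  refine ⟨(∑ t ∈ hf.toFinset, ‖WE true A (((t - T' : ℝ) : ℂ) * I)‖ * ‖aa t‖) ^ 2, fun v => ?_⟩
  have hv : 0 < Real.exp v * T' := by positivity
  rw [ZZ, finsum_mem_eq_finite_toFinset_sum _ hf]
  gcongr
  refine (norm_sum_le _ _).trans (Finset.sum_le_sum fun t _ => ?_)
  rw [norm_mul, norm_mul, norm_cpow_I hv, mul_one]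

lemma JZ_integrable (A : ℕ) (X T' : ℝ) (hT' : 0 < T') :
    Integrable (fun v => KK v * ‖ZZ true A X (Real.exp v * T') T'‖ ^ 2) := by
  obtain ⟨M, hM⟩ := ZZ_exp_bdd A X T' hT'
  refine Integrable.mono' (KK_int.mul_const M)
    (KK_cont.mul ((ZZ_exp_cont2 A X T' hT').norm.pow 2)).aestronglyMeasurable ?_
  refine Eventually.of_forall fun u => ?_
  rw [Real.norm_eq_abs, abs_of_nonneg (mul_nonneg (KK_pos u).le (by positivity))]
  exact mul_le_mul_of_nonneg_left (hM u) (KK_pos u).le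

lemma JZ_nonneg' (A : ℕ) (X T : ℝ) : 0 ≤ JZ A X T := by
  rw [JZ]
  exact integral_nonneg fun v => mul_nonneg (KK_pos v).le (by positivity)

lemma GB2_nonneg' (X : ℝ) (B : Set ℝ) (T : ℝ) : 0 ≤ GB2 X B T := by
  unfold GB2
  split_ifs
  · exact (Real.exp_pos _).le
  · exact le_rfl

lemma GB2_one' (X : ℝ) (B : Set ℝ) (T : ℝ) (hX : 0 < Real.log X)
    (h : 4 * (Real.log X) ^ 3 ≤ Metric.infDist T B) : GB2 X B T = 1 := by
  unfold GB2
  have h3 : 0 < (Real.log X) ^ 3 := by positivity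
  rw [if_pos (by linarith), max_eq_left (by linarith)]
  simp

lemma JZ_shift2 (A : ℕ) (X T' y : ℝ) (hT' : 0 < T') (hy : 0 < y) :
    ∫ v : ℝ, KK v * ‖ZZ true A X (y * Real.exp v) T'‖ ^ 2 ≤
      (2 + 2 * (Real.log (y / T')) ^ 2) * JZ A X T' := by
  set d := Real.log (y / T') with hd
  have hexp : ∀ v : ℝ, y * Real.exp v = Real.exp (v + d) * T' := by
    intro v
    rw [Real.exp_add, hd, Real.exp_log (by positivity)]
    field_simp
  have e : ∫ v : ℝ, KK v * ‖ZZ true A X (y * Real.exp v) T'‖ ^ 2 =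
      ∫ v : ℝ, KK (v - d) * ‖ZZ true A X (Real.exp v * T') T'‖ ^ 2 := by
    have := integral_add_right_eq_self
      (fun v => KK (v - d) * ‖ZZ true A X (Real.exp v * T') T'‖ ^ 2) d (μ := volume)
    rw [← this]
    congr 1
    funext v
    rw [hexp, add_sub_cancel_right]
  rw [e, JZ, ← integral_const_mul]
  apply integral_mono_of_nonneg
  · exact Eventually.of_forall fun u => mul_nonneg (KK_pos _).le (by positivity)
  · exact (JZ_integrable A X T' hT').const_mul _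
  · refine Eventually.of_forall fun u => ?_
    simp only
    rw [← mul_assoc]
    exact mul_le_mul_of_nonneg_right (KK_shift2 u d) (by positivity)

lemma mem_IccZ {X : ℝ} {k : ℤ}
    (hk : k ∈ Finset.Icc (-⌊(Real.log X) ^ 2⌋) ⌊(Real.log X) ^ 2⌋) :
    |(k : ℝ)| ≤ (Real.log X) ^ 2 := by
  rw [Finset.mem_Icc] at hk
  have h1 : |k| ≤ ⌊(Real.log X) ^ 2⌋ := abs_le.2 hk
  have h2 : (|k| : ℝ) ≤ (⌊(Real.log X) ^ 2⌋ : ℝ) := by exact_mod_cast h1
  exact h2.trans (Int.floor_le _)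

lemma SZ_le_mul {X K : ℝ} {F G : ℤ → ℝ}
    (h : ∀ k : ℤ, |(k : ℝ)| ≤ (Real.log X) ^ 2 → F k ≤ K * G k) : SZ X F ≤ K * SZ X G := by
  unfold SZ
  rw [Finset.mul_sum]
  refine Finset.sum_le_sum fun k hk => ?_
  have := h k (mem_IccZ hk)
  have h2 := Real.exp_pos (-|(k : ℝ)| / 4)
  calc Real.exp (-|(k : ℝ)| / 4) * F k ≤ Real.exp (-|(k : ℝ)| / 4) * (K * G k) := by gcongr
    _ = _ := by ring

lemma summable_exp8 : Summable (fun k : ℤ => Real.exp (-|(k : ℝ)| / 8)) := by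
  have h1 : Summable (fun n : ℕ => Real.exp (-(n : ℝ) / 8)) := by
    have h2 : (fun n : ℕ => Real.exp (-(n : ℝ) / 8)) = fun n : ℕ => (Real.exp (-1 / 8)) ^ n := by
      funext n
      rw [← Real.exp_nat_mul]
      congr 1
      ring
    rw [h2]
    apply summable_geometric_of_lt_one (Real.exp_pos _).le
    rw [Real.exp_lt_one_iff]
    norm_num
  apply Summable.of_nat_of_neg
  · simpa using h1
  · simpa using h1

lemma log_sq_small {X : ℝ} (hX : 128 ^ 4 ≤ X) : (Real.log X) ^ 2 ≤ Real.sqrt X / 2 := by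
  have hX0 : 0 < X := by linarith [show (0 : ℝ) < 128 ^ 4 by norm_num]
  have hX1 : 1 ≤ X := by linarith [show (1 : ℝ) < 128 ^ 4 by norm_num]
  have h1 : Real.log X ≤ X ^ (1 / 8 : ℝ) / (1 / 8) := Real.log_le_rpow_div hX0.le (by norm_num)
  have h2 : 0 ≤ Real.log X := Real.log_nonneg hX1
  have h3 : (X ^ (1 / 8 : ℝ)) ^ 2 = X ^ (1 / 4 : ℝ) := by
    rw [← Real.rpow_natCast, ← Real.rpow_mul hX0.le]; congr 1; norm_num
  have h4 : (X ^ (1 / 4 : ℝ)) ^ 2 = Real.sqrt X := by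
    rw [← Real.rpow_natCast, ← Real.rpow_mul hX0.le, Real.sqrt_eq_rpow]; congr 1; norm_num
  have h5 : 128 ≤ X ^ (1 / 4 : ℝ) := by
    calc (128 : ℝ) = ((128 : ℝ) ^ 4) ^ (1 / 4 : ℝ) := by
          rw [← Real.rpow_natCast, ← Real.rpow_mul (by norm_num)]; norm_num
      _ ≤ X ^ (1 / 4 : ℝ) := Real.rpow_le_rpow (by norm_num) hX (by norm_num)
  have h6 : (Real.log X) ^ 2 ≤ 64 * X ^ (1 / 4 : ℝ) := by
    rw [← h3]
    calc (Real.log X) ^ 2 ≤ (X ^ (1 / 8 : ℝ) / (1 / 8)) ^ 2 := by gcongr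
      _ = _ := by ring
  rw [← h4]
  nlinarith

lemma log_ge_four {X : ℝ} (hX : 128 ^ 4 ≤ X) : 4 ≤ Real.log X := by
  have hX0 : 0 < X := by linarith [show (0 : ℝ) < 128 ^ 4 by norm_num]
  rw [Real.le_log_iff_exp_le hX0]
  have h1 := Real.exp_one_lt_d9
  have h2 : Real.exp 4 = (Real.exp 1) ^ 4 := by rw [← Real.exp_nat_mul]; norm_num
  rw [h2]
  have h3 : (Real.exp 1) ^ 4 ≤ 3 ^ 4 := by gcongr; linarith
  linarith [show (3 : ℝ) ^ 4 < 128 ^ 4 by norm_num]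

lemma abs_log_ratio {X T k : ℝ} (hX : 128 ^ 4 ≤ X) (hT : Real.sqrt X ≤ T)
    (hk : |k| ≤ (Real.log X) ^ 2) : 0 < T + k ∧ |Real.log (T / (T + k))| ≤ 1 := by
  have hX0 : 0 < X := by linarith [show (0 : ℝ) < 128 ^ 4 by norm_num]
  have hsX : 0 < Real.sqrt X := Real.sqrt_pos.2 hX0
  have h1 := log_sq_small hX
  have hT0 : 0 < T := by linarith
  rw [abs_le] at hk
  have hpos : 0 < T + k := by linarith
  refine ⟨hpos, ?_⟩
  have hup : T / (T + k) ≤ 2 := by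
    rw [div_le_iff₀ hpos]; linarith
  have hlo : 1 / 2 ≤ T / (T + k) := by
    rw [div_le_div_iff₀ (by norm_num) hpos]; linarith
  have hl2 : Real.log 2 ≤ 1 := by
    have := Real.log_two_lt_d9; linarith
  rw [abs_le]
  constructor
  · have : Real.log (1 / 2) ≤ Real.log (T / (T + k)) := Real.log_le_log (by norm_num) hlo
    rw [one_div, Real.log_inv] at this
    linarith
  · have : Real.log (T / (T + k)) ≤ Real.log 2 := Real.log_le_log (by positivity) hup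
    linarith

lemma int_shift_bound (A : ℕ) {X T c : ℝ} {k : ℤ} (hc : 0 < c) (hX : 128 ^ 4 ≤ X)
    (hT : Real.sqrt X ≤ T) (hk : |(k : ℝ)| ≤ (Real.log X) ^ 2) :
    ∫ v : ℝ, KK v * ‖ZZ true A X (c * T * Real.exp v) (T + k)‖ ^ 2 ≤
      (2 + 2 * (|Real.log c| + 1) ^ 2) * JZ A X (T + k) := by
  obtain ⟨hpos, hlog⟩ := abs_log_ratio hX hT hk
  have hX0 : 0 < X := by linarith [show (0 : ℝ) < 128 ^ 4 by norm_num]
  have hsX : 0 < Real.sqrt X := Real.sqrt_pos.2 hX0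
  have hT0 : 0 < T := by linarith
  refine (JZ_shift2 A X (T + k) (c * T) hpos (by positivity)).trans ?_
  apply mul_le_mul_of_nonneg_right _ (JZ_nonneg' A X _)
  have h1 : Real.log (c * T / (T + k)) = Real.log c + Real.log (T / (T + k)) := by
    rw [mul_div_assoc, Real.log_mul hc.ne' (by positivity)]
  have h2 : |Real.log (c * T / (T + k))| ≤ |Real.log c| + 1 := by
    rw [h1]
    exact (abs_add_le _ _).trans (by linarith)
  have h3 : (Real.log (c * T / (T + k))) ^ 2 ≤ (|Real.log c| + 1) ^ 2 := by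
    rw [← sq_abs (Real.log (c * T / (T + k)))]
    gcongr
  linarith

lemma four_sq (a b c d : ℝ) : (a + b + c + d) ^ 2 ≤ 4 * (a ^ 2 + b ^ 2 + c ^ 2 + d ^ 2) := by
  nlinarith [sq_nonneg (a - b), sq_nonneg (a - c), sq_nonneg (a - d), sq_nonneg (b - c),
    sq_nonneg (b - d), sq_nonneg (c - d)]

/-- pointwise comparison -/
lemma cmp_pt2 (hRH : RiemannHypothesis) (A : ℕ) (hA : 4 ≤ A)
    (hph : ∃ C X0 : ℝ, 0 < C ∧ 10 ≤ X0 ∧
      ∀ X : ℝ, X0 ≤ X → ∀ φ : ℝ, 0 ≤ φ → φ * Real.log X ≤ 1 → ∀ T : ℝ, Real.sqrt X ≤ T → T ≤ X →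
      Spaced X T → Latt φ X T → ∀ y : ℝ, 0 < y →
      (‖ZZ true A X y T‖ - ‖ZZ true A X (y * Real.exp (-(2 * (Real.log T + 1)))) T‖) ^ 2 ≤
        C * (φ * Real.log X) ^ 2 *
          SZ X (fun k => ∫ v : ℝ, KK v * ‖ZZ true A X (y * Real.exp v) (T + k)‖ ^ 2) +
        C * X ^ (-(10 : ℝ)))
    (c : ℝ) (hc : 0 < c) :
    ∃ C X0 : ℝ, 0 < C ∧ 10 ≤ X0 ∧ ∀ X : ℝ, X0 ≤ X → ∀ φ : ℝ, 0 ≤ φ → φ * Real.log X ≤ 1 →
    ∀ T : ℝ, Real.sqrt X ≤ T → T ≤ X → Spaced X T → Latt φ X T →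
    (‖DD true A (c * T) T‖ - ‖DD false A (2 * Real.pi * Real.exp 2 / c) T‖) ^ 2 ≤
      C * X ^ (-(3 / 2) : ℝ) + C * (φ * Real.log X) ^ 2 * SZ X (fun k => JZ A X (T + k)) +
        C * (Real.log X / X) * N2 A X T := by
  obtain ⟨C1, X1, hC1, hX1, h1⟩ := EF hRH true A hA
  obtain ⟨C2, X2, hC2, hX2, h2⟩ := EF hRH false A hA
  obtain ⟨C3, X3, hC3, hX3, h3⟩ := reflect A hA
  obtain ⟨C4, X4, hC4, hX4, h4⟩ := S1_sq A hA
  obtain ⟨C5, X5, hC5, hX5, h5⟩ := hph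
  set y2 : ℝ := 2 * Real.pi * Real.exp 2 / c with hy2
  have hy20 : 0 < y2 := by positivity
  set K1 : ℝ := C1 * (c ^ (-(3 / 2) : ℝ) + 1) with hK1
  set K2 : ℝ := C2 * (y2 ^ (-(3 / 2) : ℝ) + 1) with hK2
  have hK10 : 0 < K1 := by positivity
  have hK20 : 0 < K2 := by positivity
  set Kc : ℝ := 2 + 2 * (|Real.log c| + 1) ^ 2 with hKc
  have hKc0 : 0 < Kc := by positivity
  refine ⟨4 * (K1 ^ 2 + K2 ^ 2 + C5 + C5 * Kc + C3 ^ 2 * C4),
    max (max (max (max X1 X2) (max X3 X4))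
    (max (max c (1 / c)) (max y2 (1 / y2 ^ 2)))) (max X5 (128 ^ 4)), by positivity,
    hX1.trans ((le_max_left _ _).trans ((le_max_left _ _).trans ((le_max_left _ _).trans
      (le_max_left _ _)))), ?_⟩
  intro X hX φ hφ hφL T hT1 hT2 hsp hla
  have hXa := (le_max_left _ _).trans hX
  have hXX5 : X5 ≤ X := ((le_max_left _ _).trans (le_max_right _ _)).trans hX
  have hX128 : 128 ^ 4 ≤ X := ((le_max_right _ _).trans (le_max_right _ _)).trans hX
  have hXX1 : X1 ≤ X := ((le_max_left _ _).trans ((le_max_left _ _).trans (le_max_left _ _))).trans hXa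
  have hXX2 : X2 ≤ X := ((le_max_right _ _).trans ((le_max_left _ _).trans (le_max_left _ _))).trans hXa
  have hXX3 : X3 ≤ X := ((le_max_left _ _).trans ((le_max_right _ _).trans (le_max_left _ _))).trans hXa
  have hXX4 : X4 ≤ X := ((le_max_right _ _).trans ((le_max_right _ _).trans (le_max_left _ _))).trans hXa
  have hXc : c ≤ X := ((le_max_left _ _).trans ((le_max_left _ _).trans (le_max_right _ _))).trans hXa
  have hXc' : 1 / c ≤ X := ((le_max_right _ _).trans ((le_max_left _ _).trans (le_max_right _ _))).trans hXa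
  have hXy : y2 ≤ X := ((le_max_left _ _).trans ((le_max_right _ _).trans (le_max_right _ _))).trans hXa
  have hXy' : 1 / y2 ^ 2 ≤ X := ((le_max_right _ _).trans ((le_max_right _ _).trans (le_max_right _ _))).trans hXa
  have hX10 : 10 ≤ X := hX1.trans hXX1
  have hX0 : 0 < X := by linarith
  have hsX : 0 < Real.sqrt X := Real.sqrt_pos.2 hX0
  have hsX1 : 1 ≤ Real.sqrt X := by
    rw [Real.one_le_sqrt]; linarith
  have hT0 : 0 < T := lt_of_lt_of_le hsX hT1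
  have hT1' : 1 ≤ T := hsX1.trans hT1
  have hlog1 : 1 ≤ Real.log X := by linarith [log_ge_four hX128]
  have hXm : X ^ (-(1 / 2) : ℝ) = 1 / Real.sqrt X := by
    rw [Real.rpow_neg hX0.le, ← Real.sqrt_eq_rpow, one_div]
  have hsq : Real.sqrt X * Real.sqrt X = X := Real.mul_self_sqrt hX0.le
  -- the two explicit formulas
  have hy1a : X ^ (-(1 / 2) : ℝ) ≤ c * T := by
    rw [hXm, div_le_iff₀ hsX]
    have : 1 ≤ c * X := by rw [div_le_iff₀ hc] at hXc'; linarith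
    calc 1 ≤ c * X := this
      _ = c * (Real.sqrt X * Real.sqrt X) := by rw [hsq]
      _ = c * Real.sqrt X * Real.sqrt X := by ring
      _ ≤ c * T * Real.sqrt X := by gcongr
  have hy1b : c * T ≤ X ^ 2 := by
    rw [sq]; gcongr
  have hy2a : X ^ (-(1 / 2) : ℝ) ≤ y2 := by
    rw [hXm, div_le_iff₀ hsX]
    have h5 : 1 ≤ y2 ^ 2 * X := by
      rw [div_le_iff₀ (by positivity)] at hXy'; linarith
    have h6 : 1 ≤ (y2 * Real.sqrt X) ^ 2 := by
      rw [mul_pow, sq (Real.sqrt X), hsq]; exact h5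
    nlinarith [h6, mul_pos hy20 hsX]
  have hy2b : y2 ≤ X ^ 2 := by nlinarith
  have e1 := h1 X hXX1 T hT1 hT2 hsp (c * T) hy1a hy1b
  have e2 := h2 X hXX2 T hT1 hT2 hsp y2 hy2a hy2b
  -- error sizes
  have hX34 : 0 < X ^ (-(3 / 4) : ℝ) := Real.rpow_pos_of_pos hX0 _
  have hTm : T ^ (-(3 / 2) : ℝ) ≤ X ^ (-(3 / 4) : ℝ) := by
    have : X ^ (-(3 / 4) : ℝ) = (Real.sqrt X) ^ (-(3 / 2) : ℝ) := by
      rw [Real.sqrt_eq_rpow, ← Real.rpow_mul hX0.le]; congr 1; norm_num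
    rw [this]
    exact Real.rpow_le_rpow_of_nonpos hsX hT1 (by norm_num)
  have hX10' : X ^ (-(10 : ℝ)) ≤ X ^ (-(3 / 4) : ℝ) :=
    Real.rpow_le_rpow_of_exponent_le (by linarith) (by norm_num)
  have hX10'' : X ^ (-(10 : ℝ)) ≤ X ^ (-(3 / 2) : ℝ) :=
    Real.rpow_le_rpow_of_exponent_le (by linarith) (by norm_num)
  have e1' : |‖ZZ true A X (c * T) T‖ - ‖DD true A (c * T) T‖| ≤
      K1 * X ^ (-(3 / 4) : ℝ) := by
    refine (abs_norm_sub_norm_le _ _).trans (e1.trans ?_)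
    have h5 : (c * T * T) ^ (-(3 / 2) : ℝ) ≤ c ^ (-(3 / 2) : ℝ) * X ^ (-(3 / 4) : ℝ) := by
      calc (c * T * T) ^ (-(3 / 2) : ℝ) ≤ (c * T) ^ (-(3 / 2) : ℝ) := by
            apply Real.rpow_le_rpow_of_nonpos (by positivity) _ (by norm_num)
            exact le_mul_of_one_le_right (by positivity) hT1'
        _ = c ^ (-(3 / 2) : ℝ) * T ^ (-(3 / 2) : ℝ) := Real.mul_rpow hc.le hT0.le
        _ ≤ _ := by gcongr
    calc C1 * ((c * T * T) ^ (-(3 / 2) : ℝ) + X ^ (-(10 : ℝ)))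
        ≤ C1 * (c ^ (-(3 / 2) : ℝ) * X ^ (-(3 / 4) : ℝ) + X ^ (-(3 / 4) : ℝ)) := by gcongr
      _ = _ := by rw [hK1]; ring
  have e2' : |‖ZZ false A X y2 T‖ - ‖DD false A y2 T‖| ≤
      K2 * X ^ (-(3 / 4) : ℝ) := by
    refine (abs_norm_sub_norm_le _ _).trans (e2.trans ?_)
    have h5 : (y2 * T) ^ (-(3 / 2) : ℝ) ≤ y2 ^ (-(3 / 2) : ℝ) * X ^ (-(3 / 4) : ℝ) := by
      rw [Real.mul_rpow hy20.le hT0.le]
      gcongr
    calc C2 * ((y2 * T) ^ (-(3 / 2) : ℝ) + X ^ (-(10 : ℝ)))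
        ≤ C2 * (y2 ^ (-(3 / 2) : ℝ) * X ^ (-(3 / 4) : ℝ) + X ^ (-(3 / 4) : ℝ)) := by gcongr
      _ = _ := by rw [hK2]; ring
  -- reflection and phase
  set y1 : ℝ := c / (Real.exp 2 * T) with hy1
  have hy10 : 0 < y1 := by positivity
  have hexp : c * T * Real.exp (-(2 * (Real.log T + 1))) = y1 := by
    have : Real.exp (2 * (Real.log T + 1)) = T ^ 2 * Real.exp 2 := by
      rw [mul_add, Real.exp_add, mul_comm 2 (Real.log T), Real.exp_mul, Real.exp_log hT0]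
      norm_num
    rw [Real.exp_neg, this, hy1]
    field_simp
  have hrefl : 2 * Real.pi / (y1 * T) = y2 := by
    rw [hy1, hy2]; field_simp
  have e3 := h5 X hXX5 φ hφ hφL T hT1 hT2 hsp hla (c * T) (by positivity)
  rw [hexp] at e3
  have e3' : SZ X (fun k => ∫ v : ℝ, KK v * ‖ZZ true A X (c * T * Real.exp v) (T + k)‖ ^ 2) ≤
      Kc * SZ X (fun k => JZ A X (T + k)) :=
    SZ_le_mul fun k hk => int_shift_bound A hc hX128 hT1 hk
  have e4 := h3 X hXX3 T hT1 hT2 y1 hy10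
  rw [hrefl] at e4
  have hS0 := S1_nonneg' A X T
  have hN0 := N2_nonneg' A X T
  have e4' : C3 / T * S1 A X T ≤ C3 / Real.sqrt X * S1 A X T := by gcongr
  have hSs := h4 X hXX4 T hsp
  have hpw : (X ^ (-(3 / 4) : ℝ)) ^ 2 = X ^ (-(3 / 2) : ℝ) := by
    rw [← Real.rpow_natCast, ← Real.rpow_mul hX0.le]; congr 1; norm_num
  have hinv : (1 / Real.sqrt X) ^ 2 = 1 / X := by
    rw [div_pow, one_pow, sq, hsq]
  have hX32 : 0 < X ^ (-(3 / 2) : ℝ) := Real.rpow_pos_of_pos hX0 _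
  have hL0 : 0 ≤ Real.log X := by linarith
  have hSZ0 : 0 ≤ SZ X (fun k => JZ A X (T + k)) := by
    unfold SZ
    exact Finset.sum_nonneg fun k _ => mul_nonneg (Real.exp_pos _).le (JZ_nonneg' A X _)
  -- the squares of the four differences
  have s1 : (-(‖ZZ true A X (c * T) T‖ - ‖DD true A (c * T) T‖)) ^ 2 ≤
      K1 ^ 2 * X ^ (-(3 / 2) : ℝ) := by
    rw [neg_sq, ← sq_abs, ← hpw, ← mul_pow]
    gcongr
  have s2 : (‖ZZ true A X (c * T) T‖ - ‖ZZ true A X y1 T‖) ^ 2 ≤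
      C5 * Kc * ((φ * Real.log X) ^ 2 * SZ X (fun k => JZ A X (T + k))) +
        C5 * X ^ (-(3 / 2) : ℝ) := by
    refine e3.trans ?_
    have : C5 * (φ * Real.log X) ^ 2 *
          SZ X (fun k => ∫ v : ℝ, KK v * ‖ZZ true A X (c * T * Real.exp v) (T + k)‖ ^ 2) ≤
        C5 * (φ * Real.log X) ^ 2 * (Kc * SZ X (fun k => JZ A X (T + k))) := by
      gcongr
    have h7 : C5 * X ^ (-(10 : ℝ)) ≤ C5 * X ^ (-(3 / 2) : ℝ) := by gcongr
    linarith
  have s3 : (‖ZZ true A X y1 T‖ - ‖ZZ false A X y2 T‖) ^ 2 ≤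
      C3 ^ 2 * C4 * (Real.log X / X * N2 A X T) := by
    rw [← sq_abs]
    have h8 : |‖ZZ true A X y1 T‖ - ‖ZZ false A X y2 T‖| ≤ C3 / Real.sqrt X * S1 A X T :=
      e4.trans e4'
    calc |‖ZZ true A X y1 T‖ - ‖ZZ false A X y2 T‖| ^ 2 ≤ (C3 / Real.sqrt X * S1 A X T) ^ 2 := by
          gcongr
      _ = C3 ^ 2 * (1 / X) * (S1 A X T) ^ 2 := by rw [← hinv]; ring
      _ ≤ C3 ^ 2 * (1 / X) * (C4 * Real.log X * N2 A X T) := by gcongr
      _ = _ := by ring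
  have s4 : (‖ZZ false A X y2 T‖ - ‖DD false A y2 T‖) ^ 2 ≤ K2 ^ 2 * X ^ (-(3 / 2) : ℝ) := by
    rw [← sq_abs, ← hpw, ← mul_pow]
    gcongr
  have e : ‖DD true A (c * T) T‖ - ‖DD false A y2 T‖ =
        -(‖ZZ true A X (c * T) T‖ - ‖DD true A (c * T) T‖) +
        (‖ZZ true A X (c * T) T‖ - ‖ZZ true A X y1 T‖) +
        (‖ZZ true A X y1 T‖ - ‖ZZ false A X y2 T‖) +
        (‖ZZ false A X y2 T‖ - ‖DD false A y2 T‖) := by ring
  rw [e]
  refine (four_sq _ _ _ _).trans ?_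
  set P : ℝ := (φ * Real.log X) ^ 2 * SZ X (fun k => JZ A X (T + k)) with hP
  have hP0 : 0 ≤ P := by positivity
  set Q : ℝ := Real.log X / X * N2 A X T with hQ
  have hQ0 : 0 ≤ Q := by positivity
  set R : ℝ := X ^ (-(3 / 2) : ℝ) with hR
  have g1 : 0 ≤ C5 * R := by positivity
  have g2 : 0 ≤ C5 * Kc * R := by positivity
  have g3 : 0 ≤ C3 ^ 2 * C4 * R := by positivity
  have g4 : 0 ≤ K1 ^ 2 * P := by positivity
  have g5 : 0 ≤ K2 ^ 2 * P := by positivity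
  have g6 : 0 ≤ C5 * P := by positivity
  have g7 : 0 ≤ C3 ^ 2 * C4 * P := by positivity
  have g8 : 0 ≤ K1 ^ 2 * Q := by positivity
  have g9 : 0 ≤ K2 ^ 2 * Q := by positivity
  have g10 : 0 ≤ C5 * Q := by positivity
  have g11 : 0 ≤ C5 * Kc * Q := by positivity
  have hgoal : 4 * (K1 ^ 2 + K2 ^ 2 + C5 + C5 * Kc + C3 ^ 2 * C4) * R +
      4 * (K1 ^ 2 + K2 ^ 2 + C5 + C5 * Kc + C3 ^ 2 * C4) * (φ * Real.log X) ^ 2 *
        SZ X (fun k => JZ A X (T + k)) +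
      4 * (K1 ^ 2 + K2 ^ 2 + C5 + C5 * Kc + C3 ^ 2 * C4) * (Real.log X / X) * N2 A X T =
      4 * (K1 ^ 2 + K2 ^ 2 + C5 + C5 * Kc + C3 ^ 2 * C4) * (R + P + Q) := by
    rw [hP, hQ]; ring
  rw [hgoal]
  linarith

/-- `compare2` from the pointwise phase estimate, the bootstrap and the energy bound -/
theorem compare2_of (hRH : RiemannHypothesis) (A : ℕ) (hA : 4 ≤ A)
    (hph : ∃ C X0 : ℝ, 0 < C ∧ 10 ≤ X0 ∧
      ∀ X : ℝ, X0 ≤ X → ∀ φ : ℝ, 0 ≤ φ → φ * Real.log X ≤ 1 → ∀ T : ℝ, Real.sqrt X ≤ T → T ≤ X →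
      Spaced X T → Latt φ X T → ∀ y : ℝ, 0 < y →
      (‖ZZ true A X y T‖ - ‖ZZ true A X (y * Real.exp (-(2 * (Real.log T + 1)))) T‖) ^ 2 ≤
        C * (φ * Real.log X) ^ 2 *
          SZ X (fun k => ∫ v : ℝ, KK v * ‖ZZ true A X (y * Real.exp v) (T + k)‖ ^ 2) +
        C * X ^ (-(10 : ℝ)))
    (hsh : ∃ X0 : ℝ, 10 ≤ X0 ∧
      ∀ X : ℝ, X0 ≤ X → ∀ φ : ℝ, 0 ≤ φ → ∀ B : Set ℝ, Adm φ X B →
      Integrable (fun T => GB2 X B T * JZ A X T) ∧
      ∀ k : ℤ, |(k : ℝ)| ≤ (Real.log X) ^ 2 →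
        Integrable (fun T => GB2 X B T * JZ A X (T + k)) ∧
        ∫ T : ℝ, GB2 X B T * JZ A X (T + k) ≤
          Real.exp (|(k : ℝ)| / (2 * Real.log X)) * (∫ T : ℝ, GB2 X B T * JZ A X T) + 1)
    (hbo : ∃ C η X0 : ℝ, 0 < C ∧ 0 < η ∧
      10 ≤ X0 ∧ ∀ X : ℝ, X0 ≤ X → ∀ φ : ℝ, 0 ≤ φ → φ * Real.log X ≤ η → ∀ B : Set ℝ, Adm φ X B →
      ∫ T : ℝ, GB2 X B T * JZ A X T ≤ C * X)
    (hen : ∃ C η X0 : ℝ, 0 < C ∧ 0 < η ∧
      10 ≤ X0 ∧ ∀ X : ℝ, X0 ≤ X → ∀ φ : ℝ, 0 ≤ φ → φ * Real.log X ≤ η → ∀ B : Set ℝ, Adm φ X B →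
      Integrable (fun T => GB X B T * N2 A X T) ∧ ∫ T : ℝ, GB X B T * N2 A X T ≤ C * X)
    (c : ℝ) (hc : 0 < c) :
    ∃ C η X0 : ℝ, 0 < C ∧ 0 < η ∧
    10 ≤ X0 ∧ ∀ X : ℝ, X0 ≤ X → ∀ φ : ℝ, 0 ≤ φ → φ * Real.log X ≤ η → ∀ B : Set ℝ, Adm φ X B →
    ∫ T in {T : ℝ | 4 * (Real.log X) ^ 3 ≤ Metric.infDist T B},
      (‖DD true A (c * T) T‖ - ‖DD false A (2 * Real.pi * Real.exp 2 / c) T‖) ^ 2 ≤
        C * ((φ * Real.log X) ^ 2 + X ^ (-(1 / 8) : ℝ)) * X := by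
  obtain ⟨C1, X1, hC1, hX1, h1⟩ := cmp_pt2 hRH A hA hph c hc
  obtain ⟨C2, η2, X2, hC2, hη2, hX2, h2⟩ := hen
  obtain ⟨X3, hX3, h3⟩ := hsh
  obtain ⟨C4, η4, X4, hC4, hη4, hX4, h4⟩ := hbo
  set K0 : ℝ := ∑' k : ℤ, Real.exp (-|(k : ℝ)| / 8) with hK0
  have hK00 : 0 ≤ K0 := tsum_nonneg fun k => (Real.exp_pos _).le
  refine ⟨C1 + C1 * K0 * (C4 + 1) + 2 * C1 * C2, min (min η2 η4) 1,
    max (max X1 X2) (max (max X3 X4) (128 ^ 4)), by positivity, by positivity,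
    hX1.trans ((le_max_left _ _).trans (le_max_left _ _)), ?_⟩
  intro X hX φ hφ hφη B hB
  have hXX1 : X1 ≤ X := ((le_max_left _ _).trans (le_max_left _ _)).trans hX
  have hXX2 : X2 ≤ X := ((le_max_right _ _).trans (le_max_left _ _)).trans hX
  have hXX3 : X3 ≤ X := ((le_max_left _ _).trans ((le_max_left _ _).trans (le_max_right _ _))).trans hX
  have hXX4 : X4 ≤ X := ((le_max_right _ _).trans ((le_max_left _ _).trans (le_max_right _ _))).trans hX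
  have hX128 : 128 ^ 4 ≤ X := ((le_max_right _ _).trans (le_max_right _ _)).trans hX
  have hη2' : φ * Real.log X ≤ η2 := hφη.trans ((min_le_left _ _).trans (min_le_left _ _))
  have hη4' : φ * Real.log X ≤ η4 := hφη.trans ((min_le_left _ _).trans (min_le_right _ _))
  have hη1' : φ * Real.log X ≤ 1 := hφη.trans (min_le_right _ _)
  have hX10 : 10 ≤ X := hX1.trans hXX1
  have hX0 : 0 < X := by linarith
  obtain ⟨hint, hle⟩ := h2 X hXX2 φ hφ hη2' B hB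
  obtain ⟨hJint, hJk⟩ := h3 X hXX3 φ hφ B hB
  have hJle := h4 X hXX4 φ hφ hη4' B hB
  have hlog4 : 4 ≤ Real.log X := log_ge_four hX128
  have hlog0 : 0 < Real.log X := by linarith
  set L := Real.log X with hL
  have hL3 : 0 < L ^ 3 := by positivity
  set S : Set ℝ := {T : ℝ | 4 * L ^ 3 ≤ Metric.infDist T B} with hS
  have hSm : MeasurableSet S :=
    (isClosed_le continuous_const (Metric.continuous_infDist_pt B)).measurableSet
  have hTS : ∀ T ∈ S, Real.sqrt X ≤ T ∧ T ≤ X ∧ L ^ 3 ≤ Metric.infDist T B := by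
    intro T hT
    have hT' : 4 * L ^ 3 ≤ Metric.infDist T B := hT
    have hTB : T ∉ B := by
      intro h
      rw [Metric.infDist_zero_of_mem h] at hT'
      linarith
    refine ⟨?_, ?_, by linarith⟩
    · by_contra h
      exact hTB (hB.low T (not_le.1 h))
    · by_contra h
      exact hTB (hB.high T (not_le.1 h))
  have hSI : S ⊆ Icc (Real.sqrt X) X := fun T hT => ⟨(hTS T hT).1, (hTS T hT).2.1⟩
  have hvol : volume S ≤ ENNReal.ofReal X := by
    refine (measure_mono hSI).trans ?_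
    rw [Real.volume_Icc]
    apply ENNReal.ofReal_le_ofReal
    have := Real.sqrt_nonneg X
    linarith
  have hvolR : (volume S).toReal ≤ X := by
    have := ENNReal.toReal_mono (by simp) hvol
    rwa [ENNReal.toReal_ofReal hX0.le] at this
  have hfin : volume S < ⊤ := lt_of_le_of_lt hvol (by simp)
  set a : ℝ := C1 * X ^ (-(3 / 2) : ℝ) with ha
  set b : ℝ := C1 * (φ * L) ^ 2 with hb
  set b' : ℝ := C1 * (L / X) with hb'
  have hX32 : 0 < X ^ (-(3 / 2) : ℝ) := Real.rpow_pos_of_pos hX0 _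
  have ha0 : 0 ≤ a := by positivity
  have hb0 : 0 ≤ b := by positivity
  have hb'0 : 0 ≤ b' := by positivity
  set Z : Finset ℤ := Finset.Icc (-⌊L ^ 2⌋) ⌊L ^ 2⌋ with hZ
  set W : ℝ → ℝ := fun T => ∑ k ∈ Z, Real.exp (-|(k : ℝ)| / 4) * (GB2 X B T * JZ A X (T + k))
    with hW
  have hWint : Integrable W := by
    rw [hW]
    apply integrable_finsetSum
    intro k hk
    exact ((hJk k (mem_IccZ hk)).1).const_mul _
  have hWnn : ∀ T, 0 ≤ W T := fun T => Finset.sum_nonneg fun k _ =>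
    mul_nonneg (Real.exp_pos _).le (mul_nonneg (GB2_nonneg' X B T) (JZ_nonneg' A X _))
  have hWle : ∫ T : ℝ, W T ≤ K0 * (C4 + 1) * X := by
    rw [hW, integral_finsetSum _ (fun k hk => ((hJk k (mem_IccZ hk)).1).const_mul _)]
    have hterm : ∀ k ∈ Z, ∫ T : ℝ, Real.exp (-|(k : ℝ)| / 4) * (GB2 X B T * JZ A X (T + k)) ≤
        Real.exp (-|(k : ℝ)| / 8) * ((C4 + 1) * X) := by
      intro k hk
      rw [integral_const_mul]
      have h5 := (hJk k (mem_IccZ hk)).2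
      have h6 : Real.exp (|(k : ℝ)| / (2 * L)) ≤ Real.exp (|(k : ℝ)| / 8) := by
        apply Real.exp_le_exp.2
        apply div_le_div_of_nonneg_left (abs_nonneg _) (by norm_num) (by linarith)
      have h7 : 0 ≤ ∫ T : ℝ, GB2 X B T * JZ A X T :=
        integral_nonneg fun T => mul_nonneg (GB2_nonneg' X B T) (JZ_nonneg' A X _)
      have h8 : 1 ≤ Real.exp (|(k : ℝ)| / 8) := Real.one_le_exp (by positivity)
      have h9 : ∫ T : ℝ, GB2 X B T * JZ A X (T + k) ≤ Real.exp (|(k : ℝ)| / 8) * ((C4 + 1) * X) := by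
        calc ∫ T : ℝ, GB2 X B T * JZ A X (T + k)
            ≤ Real.exp (|(k : ℝ)| / (2 * L)) * (∫ T : ℝ, GB2 X B T * JZ A X T) + 1 := h5
          _ ≤ Real.exp (|(k : ℝ)| / 8) * (C4 * X) + Real.exp (|(k : ℝ)| / 8) * X := by
              have h10 : Real.exp (|(k : ℝ)| / (2 * L)) * (∫ T : ℝ, GB2 X B T * JZ A X T) ≤
                Real.exp (|(k : ℝ)| / 8) * (C4 * X) := by gcongr
              have h11 : 1 ≤ Real.exp (|(k : ℝ)| / 8) * X := by nlinarith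
              linarith
          _ = _ := by ring
      calc Real.exp (-|(k : ℝ)| / 4) * ∫ T : ℝ, GB2 X B T * JZ A X (T + k)
          ≤ Real.exp (-|(k : ℝ)| / 4) * (Real.exp (|(k : ℝ)| / 8) * ((C4 + 1) * X)) := by gcongr
        _ = Real.exp (-|(k : ℝ)| / 8) * ((C4 + 1) * X) := by
            rw [← mul_assoc, ← Real.exp_add]
            congr 2
            ring
    refine (Finset.sum_le_sum hterm).trans ?_
    rw [← Finset.sum_mul]
    have h12 : ∑ k ∈ Z, Real.exp (-|(k : ℝ)| / 8) ≤ K0 :=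
      summable_exp8.sum_le_tsum Z fun k _ => (Real.exp_pos _).le
    calc (∑ k ∈ Z, Real.exp (-|(k : ℝ)| / 8)) * ((C4 + 1) * X) ≤ K0 * ((C4 + 1) * X) := by gcongr
      _ = _ := by ring
  have hconst : IntegrableOn (fun _ : ℝ => a) S := by
    rw [integrableOn_const_iff]
    right; exact hfin
  have hgi1 : Integrable (fun T => b * W T) (volume.restrict S) :=
    hWint.integrableOn.const_mul b
  have hgi2 : Integrable (fun T => b' * (GB X B T * N2 A X T)) (volume.restrict S) :=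
    hint.integrableOn.const_mul b'
  have hab : Integrable (fun T => a + b * W T) (volume.restrict S) := Integrable.add hconst hgi1
  have hgi : Integrable (fun T => a + b * W T + b' * (GB X B T * N2 A X T))
      (volume.restrict S) := hab.add hgi2
  have hmono : ∫ T in S,
      (‖DD true A (c * T) T‖ - ‖DD false A (2 * Real.pi * Real.exp 2 / c) T‖) ^ 2 ≤
      ∫ T in S, (a + b * W T + b' * (GB X B T * N2 A X T)) := by
    apply integral_mono_of_nonneg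
    · exact Eventually.of_forall fun T => sq_nonneg _
    · exact hgi
    · rw [Filter.EventuallyLE, ae_restrict_iff' hSm]
      refine Eventually.of_forall fun T hT => ?_
      obtain ⟨hT1, hT2, hT3⟩ := hTS T hT
      have h13 := h1 X hXX1 φ hφ hη1' T hT1 hT2 (hB.sp T hT3) (hB.la T hT3)
      have hT' : 4 * L ^ 3 ≤ Metric.infDist T B := hT
      have h14 : GB X B T = 1 := GB_one' X B T hlog0 (by rw [← hL]; linarith)
      have h15 : GB2 X B T = 1 := GB2_one' X B T hlog0 hT'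
      have h16 : W T = SZ X (fun k => JZ A X (T + k)) := by
        rw [hW]
        simp only [h15, one_mul]
        rfl
      rw [h14, one_mul, h16]
      exact h13
  have hI : ∫ T in S, (a + b * W T + b' * (GB X B T * N2 A X T)) ≤
      a * X + b * (K0 * (C4 + 1) * X) + b' * (C2 * X) := by
    rw [integral_add hab hgi2, integral_add hconst hgi1,
      integral_const_mul b (fun T => W T),
      integral_const_mul b' (fun T => GB X B T * N2 A X T)]
    apply add_le_add (add_le_add _ _)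
    · apply mul_le_mul_of_nonneg_left _ hb'0
      refine le_trans ?_ hle
      apply setIntegral_le_integral hint
      exact Eventually.of_forall fun T => mul_nonneg (GB_nonneg' X B T) (N2_nonneg' A X T)
    · rw [setIntegral_const, smul_eq_mul, mul_comm (volume.real S)]
      exact mul_le_mul_of_nonneg_left hvolR ha0
    · apply mul_le_mul_of_nonneg_left _ hb0
      refine le_trans ?_ hWle
      apply setIntegral_le_integral hWint
      exact Eventually.of_forall hWnn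
  refine hmono.trans (hI.trans ?_)
  have hX18 : 0 < X ^ (-(1 / 8) : ℝ) := Real.rpow_pos_of_pos hX0 _
  have q1 : X ^ (-(3 / 2) : ℝ) ≤ X ^ (-(1 / 8) : ℝ) :=
    Real.rpow_le_rpow_of_exponent_le (by linarith) (by norm_num)
  have q2 : L / X ≤ 2 * X ^ (-(1 / 8) : ℝ) := by
    have h5 : L ≤ X ^ (1 / 2 : ℝ) / (1 / 2) := Real.log_le_rpow_div hX0.le (by norm_num)
    have h6 : X ^ (1 / 2 : ℝ) = X ^ (-(1 / 2) : ℝ) * X := by
      rw [← Real.rpow_add_one hX0.ne']; congr 1; norm_num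
    have h7 : X ^ (-(1 / 2) : ℝ) ≤ X ^ (-(1 / 8) : ℝ) :=
      Real.rpow_le_rpow_of_exponent_le (by linarith) (by norm_num)
    rw [div_le_iff₀ hX0]
    calc L ≤ 2 * (X ^ (-(1 / 2) : ℝ) * X) := by rw [← h6]; linarith
      _ = 2 * X ^ (-(1 / 2) : ℝ) * X := by ring
      _ ≤ 2 * X ^ (-(1 / 8) : ℝ) * X := by gcongr
  set E := X ^ (-(1 / 8) : ℝ) with hE
  calc a * X + b * (K0 * (C4 + 1) * X) + b' * (C2 * X)
      ≤ C1 * E * X + C1 * (φ * L) ^ 2 * (K0 * (C4 + 1) * X) + C1 * (2 * E) * (C2 * X) := by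
        rw [ha, hb, hb']; gcongr
    _ ≤ (C1 + C1 * K0 * (C4 + 1) + 2 * C1 * C2) * ((φ * L) ^ 2 + E) * X := by
        have p1 : 0 ≤ C1 * (φ * L) ^ 2 * X := by positivity
        have p2 : 0 ≤ C1 * K0 * (C4 + 1) * E * X := by positivity
        have p3 : 0 ≤ 2 * C1 * C2 * (φ * L) ^ 2 * X := by positivity
        nlinarith [p1, p2, p3]

end H345
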