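import Pool.Agent.H345R2.Defs3
import Pool.Agent.H345R2.FinalA

/-! Quadratic mean of the Dirichlet sums around the curve `y = T`. -/

open Complex Filter Topology Set MeasureTheory

namespace H345

namespace CV

lemma KK_nonneg (v : ℝ) : 0 ≤ KK v := by unfold KK; positivity

lemma KK_integrable : Integrable KK := by
  have : KK = fun x : ℝ => (1 + x ^ 2)⁻¹ := by
    funext x; unfold KK; rw [one_div]
  rw [this]
  exact integrable_inv_one_add_sq

lemma KK_integral : ∫ v : ℝ, KK v = Real.pi := by
  have : KK = fun x : ℝ => (1 + x ^ 2)⁻¹ := by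
    funext x; unfold KK; rw [one_div]
  rw [this]
  exact integral_univ_inv_one_add_sq

lemma KK_cont : Continuous KK := by
  unfold KK
  refine continuous_const.div (by fun_prop) (fun x => by positivity)

lemma KK_shift (a d : ℝ) (hd : |d| ≤ 1) : KK (a - d) ≤ 3 * KK a := by
  unfold KK
  rw [← mul_div_assoc, mul_one, div_le_div_iff₀ (by positivity) (by positivity)]
  have : d ^ 2 ≤ 1 := by
    rw [← sq_abs]; nlinarith [abs_nonneg d]
  nlinarith [sq_nonneg (a - 2 * d), sq_nonneg (a-d)]

/-- the square of the Dirichlet sum in the logarithmic variable -/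
noncomputable def gg (A : ℕ) (T x : ℝ) : ℝ := ‖DD true A (Real.exp x) T‖ ^ 2

lemma gg_cont (A : ℕ) (hA : 4 ≤ A) : Continuous (fun p : ℝ × ℝ => gg A p.1 p.2) := by
  have h := DD_cont true A hA
  have h1 : Continuous (fun p : ℝ × ℝ => DD true A (Real.exp p.2) p.1) := by
    rw [← continuousOn_univ]
    exact h.comp (f := fun p : ℝ × ℝ => ((Real.exp p.2, p.1) : ℝ × ℝ)) (by fun_prop)
      (fun p _ => ⟨Real.exp_pos _, trivial⟩)
  unfold gg
  exact h1.norm.pow 2

lemma gg_nonneg (A : ℕ) (T x : ℝ) : 0 ≤ gg A T x := by unfold gg; positivity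

lemma gg_cont_right (A : ℕ) (hA : 4 ≤ A) (T : ℝ) : Continuous (fun x : ℝ => gg A T x) := by
  have h := (gg_cont A hA).comp (f := fun x : ℝ => ((T, x) : ℝ × ℝ)) (by fun_prop)
  exact h

lemma gg_cont_left (A : ℕ) (hA : 4 ≤ A) (x : ℝ) : Continuous (fun T : ℝ => gg A T x) := by
  have h := (gg_cont A hA).comp (f := fun T : ℝ => ((T, x) : ℝ × ℝ)) (by fun_prop)
  exact h

lemma meas_shift (A : ℕ) (hA : 4 ≤ A) :
    Measurable (fun p : ℝ × ℝ => KK p.2 * gg A p.1 (p.2 + Real.log p.1)) := by
  have h1 : Measurable (fun p : ℝ × ℝ => gg A p.1 p.2) := (gg_cont A hA).measurable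
  have h2 : Measurable (fun p : ℝ × ℝ => ((p.1, p.2 + Real.log p.1) : ℝ × ℝ)) :=
    measurable_fst.prodMk (measurable_snd.add (Real.measurable_log.comp measurable_fst))
  have h3 := h1.comp h2
  have h4 : Measurable (fun p : ℝ × ℝ => KK p.2) := KK_cont.measurable.comp measurable_snd
  exact h4.mul h3

lemma HH_eq (A : ℕ) {T : ℝ} (hT : 0 < T) :
    HH A T = ∫ x in Set.Iic (Real.log T), KK (x - Real.log T) * gg A T x := by
  unfold HH
  rw [← integral_indicator measurableSet_Iic, ← integral_indicator measurableSet_Iic]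
  rw [← integral_add_right_eq_self
    ((Set.Iic (Real.log T)).indicator fun x => KK (x - Real.log T) * gg A T x) (Real.log T)]
  congr 1
  funext v
  by_cases hv : v ≤ 0
  · rw [Set.indicator_of_mem (show v ∈ Set.Iic (0:ℝ) from hv),
      Set.indicator_of_mem (show v + Real.log T ∈ Set.Iic (Real.log T) by
        simp only [Set.mem_Iic]; linarith)]
    unfold gg
    rw [Real.exp_add, Real.exp_log hT, add_sub_cancel_right]
  · rw [Set.indicator_of_notMem (show v ∉ Set.Iic (0:ℝ) from hv),
      Set.indicator_of_notMem (show v + Real.log T ∉ Set.Iic (Real.log T) by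
        simp only [Set.mem_Iic]; linarith)]

lemma HH_eq' (A : ℕ) {T : ℝ} (hT : 0 < T) :
    HH A T = ∫ v in Set.Iic (0:ℝ), KK v * gg A T (v + Real.log T) := by
  unfold HH gg
  congr 1
  funext v
  rw [Real.exp_add, Real.exp_log hT]

lemma HH_nonneg (A : ℕ) (T : ℝ) : 0 ≤ HH A T := by
  unfold HH
  exact integral_nonneg (fun v => mul_nonneg (KK_nonneg v) (by positivity))

lemma gg_bound (A : ℕ) (hA : 4 ≤ A) : ∃ C : ℝ, 0 < C ∧ ∀ T x : ℝ,
    gg A T x ≤ C * (1 + Real.exp x) ^ 2 := by
  obtain ⟨C, hC, h⟩ := DD_trivial true A hA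
  refine ⟨C ^ 2, by positivity, fun T x => ?_⟩
  unfold gg
  rw [← mul_pow]
  have := h (Real.exp x) T (Real.exp_pos x)
  gcongr

lemma HH_int (A : ℕ) (hA : 4 ≤ A) (a b : ℝ) (ha : 0 ≤ a) : IntegrableOn (HH A) (Set.Ioc a b) := by
  obtain ⟨C, hC, hb⟩ := gg_bound A hA
  have hsm : StronglyMeasurable (fun T : ℝ => ∫ v in Set.Iic (0:ℝ), KK v * gg A T (v + Real.log T)) := by
    apply StronglyMeasurable.integral_prod_right (f := fun (T v : ℝ) => KK v * gg A T (v + Real.log T))
    exact (meas_shift A hA).stronglyMeasurable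
  have hEq : Set.EqOn (HH A) (fun T : ℝ => ∫ v in Set.Iic (0:ℝ), KK v * gg A T (v + Real.log T)) (Set.Ioc a b) :=
    fun T hT => HH_eq' A (lt_of_le_of_lt ha hT.1)
  rw [integrableOn_congr_fun hEq measurableSet_Ioc]
  have hconst : IntegrableOn (fun _ : ℝ => Real.pi * (C * (1 + b) ^ 2)) (Set.Ioc a b) := by
    exact (continuous_const : Continuous fun _ : ℝ => Real.pi * (C * (1 + b) ^ 2)).integrableOn_Ioc
  refine hconst.mono' hsm.aestronglyMeasurable ?_
  rw [ae_restrict_iff' measurableSet_Ioc]
  refine Eventually.of_forall fun T hT => ?_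
  have hT0 : 0 < T := lt_of_le_of_lt ha hT.1
  rw [Real.norm_of_nonneg (integral_nonneg (fun v => mul_nonneg (KK_nonneg v) (gg_nonneg _ _ _)))]
  have hK : IntegrableOn (fun v => KK v * (C * (1 + b) ^ 2)) (Set.Iic (0:ℝ)) :=
    (KK_integrable.mul_const _).integrableOn
  calc ∫ v in Set.Iic (0:ℝ), KK v * gg A T (v + Real.log T)
      ≤ ∫ v in Set.Iic (0:ℝ), KK v * (C * (1 + b) ^ 2) := by
        apply integral_mono_of_nonneg
        · exact Eventually.of_forall (fun v => mul_nonneg (KK_nonneg v) (gg_nonneg _ _ _))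
        · exact hK
        · rw [EventuallyLE, ae_restrict_iff' measurableSet_Iic]
          refine Eventually.of_forall fun v hv => ?_
          have h1 := hb T (v + Real.log T)
          have h2 : Real.exp (v + Real.log T) ≤ b := by
            rw [Real.exp_add, Real.exp_log hT0]
            have : Real.exp v ≤ 1 := Real.exp_le_one_iff.mpr hv
            nlinarith [hT.2]
          have h3 := Real.exp_pos (v + Real.log T)
          exact mul_le_mul_of_nonneg_left (h1.trans (by gcongr)) (KK_nonneg v)
    _ ≤ ∫ v : ℝ, KK v * (C * (1 + b) ^ 2) := by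
        apply setIntegral_le_integral (KK_integrable.mul_const _)
        exact Eventually.of_forall (fun v => mul_nonneg (KK_nonneg v) (by positivity))
    _ = Real.pi * (C * (1 + b) ^ 2) := by
        rw [integral_mul_const, KK_integral]

/-- one dyadic block -/
lemma block (A : ℕ) (hA : 4 ≤ A) (C : ℝ) (hC : 0 < C)
    (hS : ∀ X y : ℝ, 1 ≤ X → 0 < y → ∫ T in (0 : ℝ)..X, ‖DD true A y T‖ ^ 2 ≤ C * (X + y))
    (Y : ℝ) (hY : 1 ≤ Y) :
    ∫ T in Set.Ioc Y (2 * Y), HH A T ≤ 12 * Real.pi * C * Y := by
  obtain ⟨C', hC', hb⟩ := gg_bound A hA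
  have hY0 : 0 < Y := by linarith
  set L := Real.log (2 * Y) with hL
  set l := Real.log Y with hl
  -- integrability on the product
  have hprod : Integrable (Function.uncurry fun (T x : ℝ) => 3 * KK (x - l) * gg A T x)
      ((volume.restrict (Set.Ioc Y (2 * Y))).prod (volume.restrict (Set.Iic L))) := by
    have hK : Integrable (fun x : ℝ => 3 * KK (x - l) * (C' * (1 + 2 * Y) ^ 2)) (volume.restrict (Set.Iic L)) := by
      apply Integrable.integrableOn
      apply Integrable.mul_const
      apply Integrable.const_mul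
      exact KK_integrable.comp_sub_right l
    have h1 : Integrable (fun _ : ℝ => (1:ℝ)) (volume.restrict (Set.Ioc Y (2 * Y))) :=
      integrable_const 1
    have h2 := h1.mul_prod hK
    refine h2.mono' ?_ ?_
    · apply Continuous.aestronglyMeasurable
      apply Continuous.mul
      · exact continuous_const.mul (KK_cont.comp (by fun_prop))
      · exact gg_cont A hA
    · rw [Measure.prod_restrict, ae_restrict_iff' (measurableSet_Ioc.prod measurableSet_Iic)]
      refine Eventually.of_forall ?_
      rintro ⟨T, x⟩ ⟨hT, hx⟩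
      simp only [Set.mem_Iic] at hx
      have h3 : 0 ≤ 3 * KK (x - l) := mul_nonneg (by norm_num) (KK_nonneg _)
      simp only [Function.uncurry]
      rw [Real.norm_of_nonneg (mul_nonneg h3 (gg_nonneg _ _ _)), one_mul]
      apply mul_le_mul_of_nonneg_left _ h3
      refine (hb T x).trans ?_
      have h4 : Real.exp x ≤ 2 * Y := by
        calc Real.exp x ≤ Real.exp L := Real.exp_le_exp.mpr hx
          _ = 2 * Y := by rw [hL, Real.exp_log (by positivity)]
      have h5 := Real.exp_pos x
      gcongr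
  have hlog2 : L = Real.log 2 + l := by rw [hL, hl, Real.log_mul (by norm_num) hY0.ne']
  have hl2 : Real.log 2 ≤ 1 := by
    have := Real.log_two_lt_d9; linarith
  -- pointwise
  have hpt : ∀ T ∈ Set.Ioc Y (2 * Y), HH A T ≤ ∫ x in Set.Iic L, 3 * KK (x - l) * gg A T x := by
    intro T hT
    have hT0 : 0 < T := by linarith [hT.1]
    have hlT : l ≤ Real.log T := Real.log_le_log hY0 hT.1.le
    have hTL : Real.log T ≤ L := Real.log_le_log hT0 hT.2
    rw [HH_eq A hT0]
    have hi : IntegrableOn (fun x => 3 * KK (x - l) * gg A T x) (Set.Iic L) := by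
      have hK : Integrable (fun x : ℝ => 3 * KK (x - l) * (C' * (1 + 2 * Y) ^ 2)) (volume.restrict (Set.Iic L)) := by
        apply Integrable.integrableOn
        apply Integrable.mul_const
        apply Integrable.const_mul
        exact KK_integrable.comp_sub_right l
      refine hK.mono' ?_ ?_
      · apply Continuous.aestronglyMeasurable
        apply Continuous.mul
        · exact continuous_const.mul (KK_cont.comp (by fun_prop))
        · exact gg_cont_right A hA T
      · rw [ae_restrict_iff' measurableSet_Iic]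
        refine Eventually.of_forall fun x hx => ?_
        simp only [Set.mem_Iic] at hx
        have h3 : 0 ≤ 3 * KK (x - l) := mul_nonneg (by norm_num) (KK_nonneg _)
        rw [Real.norm_of_nonneg (mul_nonneg h3 (gg_nonneg _ _ _))]
        apply mul_le_mul_of_nonneg_left _ h3
        refine (hb T x).trans ?_
        have h4 : Real.exp x ≤ 2 * Y := by
          calc Real.exp x ≤ Real.exp L := Real.exp_le_exp.mpr hx
            _ = 2 * Y := by rw [hL, Real.exp_log (by positivity)]
        have h5 := Real.exp_pos x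
        gcongr
    calc ∫ x in Set.Iic (Real.log T), KK (x - Real.log T) * gg A T x
        ≤ ∫ x in Set.Iic (Real.log T), 3 * KK (x - l) * gg A T x := by
          apply integral_mono_of_nonneg
          · exact Eventually.of_forall (fun v => mul_nonneg (KK_nonneg _) (gg_nonneg _ _ _))
          · exact hi.mono_set (Set.Iic_subset_Iic.mpr hTL)
          · refine Eventually.of_forall fun x => ?_
            apply mul_le_mul_of_nonneg_right _ (gg_nonneg _ _ _)
            have := KK_shift (x - l) (Real.log T - l) (by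
              rw [abs_of_nonneg (by linarith)]; linarith)
            rwa [sub_sub_sub_cancel_right] at this
      _ ≤ ∫ x in Set.Iic L, 3 * KK (x - l) * gg A T x := by
          apply setIntegral_mono_set hi
          · exact Eventually.of_forall (fun v => mul_nonneg (mul_nonneg (by norm_num) (KK_nonneg _)) (gg_nonneg _ _ _))
          · exact (Set.Iic_subset_Iic.mpr hTL).eventuallyLE
  calc ∫ T in Set.Ioc Y (2 * Y), HH A T
      ≤ ∫ T in Set.Ioc Y (2 * Y), ∫ x in Set.Iic L, 3 * KK (x - l) * gg A T x := by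
        apply setIntegral_mono_on (HH_int A hA _ _ hY0.le) hprod.integral_prod_left measurableSet_Ioc hpt
    _ = ∫ x in Set.Iic L, ∫ T in Set.Ioc Y (2 * Y), 3 * KK (x - l) * gg A T x :=
        integral_integral_swap hprod
    _ ≤ ∫ x in Set.Iic L, KK (x - l) * (12 * C * Y) := by
        apply setIntegral_mono_on hprod.integral_prod_right _ measurableSet_Iic
        · intro x hx
          simp only [Set.mem_Iic] at hx
          have h4 : Real.exp x ≤ 2 * Y := by
            calc Real.exp x ≤ Real.exp L := Real.exp_le_exp.mpr hx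
              _ = 2 * Y := by rw [hL, Real.exp_log (by positivity)]
          show ∫ T in Set.Ioc Y (2 * Y), 3 * KK (x - l) * gg A T x ≤ KK (x - l) * (12 * C * Y)
          rw [integral_const_mul]
          have h5 : ∫ T in Set.Ioc Y (2 * Y), gg A T x ≤ C * (2 * Y + Real.exp x) := by
            refine le_trans ?_ (hS (2 * Y) (Real.exp x) (by linarith) (Real.exp_pos x))
            rw [intervalIntegral.integral_of_le (by linarith)]
            apply setIntegral_mono_set
            · exact (gg_cont_left A hA x).integrableOn_Ioc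
            · exact Eventually.of_forall (fun v => gg_nonneg A v x)
            · exact (Set.Ioc_subset_Ioc_left hY0.le).eventuallyLE
          have h6 : 0 ≤ KK (x - l) := KK_nonneg _
          calc 3 * KK (x - l) * ∫ T in Set.Ioc Y (2 * Y), gg A T x
              ≤ 3 * KK (x - l) * (C * (2 * Y + 2 * Y)) := by
                apply mul_le_mul_of_nonneg_left _ (by positivity)
                refine h5.trans (by gcongr)
            _ = KK (x - l) * (12 * C * Y) := by ring
        · apply Integrable.integrableOn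
          exact (KK_integrable.comp_sub_right l).mul_const _
    _ ≤ ∫ x : ℝ, KK (x - l) * (12 * C * Y) := by
        apply setIntegral_le_integral ((KK_integrable.comp_sub_right l).mul_const _)
        exact Eventually.of_forall (fun v => mul_nonneg (KK_nonneg _) (by positivity))
    _ = 12 * Real.pi * C * Y := by
        rw [integral_mul_const, integral_sub_right_eq_self KK l, KK_integral]; ring

lemma dyadic (A : ℕ) (hA : 4 ≤ A) (C : ℝ) (hC : 0 < C)
    (hS : ∀ X y : ℝ, 1 ≤ X → 0 < y → ∫ T in (0 : ℝ)..X, ‖DD true A y T‖ ^ 2 ≤ C * (X + y)) (J : ℕ) :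
    ∫ T in Set.Ioc 1 ((2:ℝ) ^ J), HH A T ≤ 12 * Real.pi * C * (2 ^ J - 1) := by
  induction J with
  | zero => simp
  | succ J ih =>
    have h1 : (1:ℝ) ≤ 2 ^ J := one_le_pow₀ (by norm_num)
    have hu : Set.Ioc (1:ℝ) (2 ^ (J+1)) = Set.Ioc 1 (2 ^ J) ∪ Set.Ioc (2 ^ J) (2 * 2 ^ J) := by
      rw [Set.Ioc_union_Ioc_eq_Ioc h1 (by linarith), pow_succ, mul_comm]
    rw [hu, setIntegral_union (by
      rw [Set.disjoint_left]; intro x hx hx'; exact absurd hx.2 (not_le.mpr hx'.1)) measurableSet_Ioc
      (HH_int A hA _ _ (by norm_num)) (HH_int A hA _ _ (by linarith))]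
    have := block A hA C hC hS (2 ^ J) h1
    calc _ ≤ 12 * Real.pi * C * (2 ^ J - 1) + 12 * Real.pi * C * 2 ^ J := add_le_add ih this
      _ = _ := by ring

end CV

open CV in
theorem HH_bound_of_sharp (A : ℕ) (hA : 4 ≤ A)
    (hS : ∃ C : ℝ, 0 < C ∧ ∀ X y : ℝ, 1 ≤ X → 0 < y →
      ∫ T in (0 : ℝ)..X, ‖DD true A y T‖ ^ 2 ≤ C * (X + y)) :
    ∃ C : ℝ, 0 < C ∧ ∀ X : ℝ, 1 ≤ X →
    IntegrableOn (HH A) (Set.Ioc 1 X) ∧ ∫ T in Set.Ioc 1 X, HH A T ≤ C * X := by
  obtain ⟨C, hC, hS⟩ := hS
  have hpi := Real.pi_pos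
  refine ⟨24 * Real.pi * C, by positivity, fun X hX => ⟨HH_int A hA _ _ (by norm_num), ?_⟩⟩
  obtain ⟨J, hJ⟩ := exists_nat_pow_near hX (by norm_num : (1:ℝ) < 2)
  have h1 := dyadic A hA C hC hS (J + 1)
  calc ∫ T in Set.Ioc 1 X, HH A T ≤ ∫ T in Set.Ioc 1 ((2:ℝ) ^ (J+1)), HH A T := by
        apply setIntegral_mono_set (HH_int A hA _ _ (by norm_num))
        · exact Eventually.of_forall (fun T => HH_nonneg A T)
        · exact (Set.Ioc_subset_Ioc_right hJ.2.le).eventuallyLE
    _ ≤ 12 * Real.pi * C * (2 ^ (J+1) - 1) := h1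
    _ ≤ 12 * Real.pi * C * (2 * X) := by
        gcongr
        rw [pow_succ]
        linarith [hJ.1]
    _ = 24 * Real.pi * C * X := by ring

end H345
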