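import Pool.Agent.H345R2.Sharp
import Pool.Agent.H345R2.Curve
import Pool.Agent.H345R2.BootPt
import Pool.Agent.H345R2.Boot
import Pool.Agent.H345R2.Compare2

set_option autoImplicit false

open Complex Filter Topology Set MeasureTheory

namespace H345

theorem HH_bound (A : ℕ) (hA : 4 ≤ A) : ∃ C : ℝ, 0 < C ∧ ∀ X : ℝ, 1 ≤ X →
    IntegrableOn (HH A) (Set.Ioc 1 X) ∧ ∫ T in Set.Ioc 1 X, HH A T ≤ C * X :=
  HH_bound_of_sharp A hA (DD_sharp true A hA)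

theorem boot (hRH : RiemannHypothesis) (A : ℕ) (hA : 4 ≤ A) : ∃ C η X0 : ℝ, 0 < C ∧ 0 < η ∧
    10 ≤ X0 ∧ ∀ X : ℝ, X0 ≤ X → ∀ φ : ℝ, 0 ≤ φ → φ * Real.log X ≤ η → ∀ B : Set ℝ, Adm φ X B →
    ∫ T : ℝ, GB2 X B T * JZ A X T ≤ C * X :=
  boot_of hRH A hA (boot_pt hRH A hA) (HH_bound A hA)

theorem compare2 (hRH : RiemannHypothesis) (A : ℕ) (hA : 4 ≤ A) (c : ℝ) (hc : 0 < c) :
    ∃ C η X0 : ℝ, 0 < C ∧ 0 < η ∧
    10 ≤ X0 ∧ ∀ X : ℝ, X0 ≤ X → ∀ φ : ℝ, 0 ≤ φ → φ * Real.log X ≤ η → ∀ B : Set ℝ, Adm φ X B →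
    ∫ T in {T : ℝ | 4 * (Real.log X) ^ 3 ≤ Metric.infDist T B},
      (‖DD true A (c * T) T‖ - ‖DD false A (2 * Real.pi * Real.exp 2 / c) T‖) ^ 2 ≤
        C * ((φ * Real.log X) ^ 2 + X ^ (-(1 / 8) : ℝ)) * X :=
  compare2_of hRH A hA (phase_pt hRH A hA) (boot_shift hRH A hA) (boot hRH A hA)
    (energy_of A hA (pw_energy hRH A hA) (aa_upper hRH)) c hc

end H345
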