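import Pool.Agent.H345R2.Defs

open Complex Filter Topology Set MeasureTheory

namespace H345.Blueprint

/-! M1 Kernel -/
theorem WW_bound (A : ℕ) (hA : 4 ≤ A) : ∃ C : ℝ, 0 < C ∧ ∀ w : ℂ, |w.re| ≤ 2 →
    ‖WW A w‖ ≤ C * Real.exp (-|w.im| / 2) := sorry
theorem WW_diff (A : ℕ) (w : ℂ) (hw : w.re < A) : DifferentiableAt ℂ (WW A) w := sorry
theorem WW_conj (A : ℕ) (τ : ℝ) :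
    (starRingEnd ℂ) (WW A ((τ : ℂ) * I)) = WW A (-((τ : ℂ) * I)) := sorry
theorem WW_low (A : ℕ) (hA : 4 ≤ A) : ∃ c τ0 : ℝ, 0 < c ∧ 0 < τ0 ∧ τ0 ≤ 1 ∧
    ∀ τ : ℝ, |τ| ≤ τ0 → c ≤ ‖WW A ((τ : ℂ) * I)‖ := sorry
theorem WE_inv (e : Bool) (A : ℕ) (hA : 4 ≤ A) (x : ℝ) (hx : 0 < x) (σ : ℝ) (hσ : |σ| ≤ 2) :
    Integrable (fun τ : ℝ => WE e A ((σ : ℂ) + (τ : ℂ) * I) * (x : ℂ) ^ ((σ : ℂ) + (τ : ℂ) * I)) ∧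
    ∫ τ : ℝ, WE e A ((σ : ℂ) + (τ : ℂ) * I) * (x : ℂ) ^ ((σ : ℂ) + (τ : ℂ) * I) =
      2 * Real.pi * (ker e A x : ℂ) := sorry

/-! M2 Chi -/
theorem zeta_fe (s : ℂ) (hs : ∀ n : ℕ, s ≠ -n) (hs' : s ≠ 1) :
    riemannZeta (1 - s) = XX s * riemannZeta s := sorry
theorem norm_XX_half (t : ℝ) : ‖XX (1 / 2 + (t : ℂ) * I)‖ = 1 := sorry
theorem XX_local : ∃ C T0 : ℝ, 0 < C ∧ 2 ≤ T0 ∧ ∀ T : ℝ, T0 ≤ T → ∀ τ : ℝ, |τ| ≤ T / 2 →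
    ‖XX (1 / 2 + ((T + τ : ℝ) : ℂ) * I) -
      XX (1 / 2 + (T : ℂ) * I) * cexp (((τ * Real.log (T / (2 * Real.pi)) : ℝ) : ℂ) * I)‖
      ≤ C * (1 + τ ^ 2) / T := sorry
theorem inv_zeta_left : ∃ C : ℝ, 0 < C ∧ ∀ t : ℝ, 1 ≤ t →
    ‖(riemannZeta (-1 + (t : ℂ) * I))⁻¹‖ ≤ C * t ^ (-(3 / 2 : ℝ)) := sorry
theorem aa_conj (t : ℝ) (ht : t ∈ Zo) :
    (starRingEnd ℂ) (aa t) = - aa t / XX (1 / 2 + (t : ℂ) * I) := sorry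

/-! M3 Lower bounds -/
theorem zeta_lower (hRH : RiemannHypothesis) : ∃ C X0 : ℝ, 0 < C ∧ 10 ≤ X0 ∧
    ∀ X : ℝ, X0 ≤ X → ∀ s : ℂ, -1 ≤ s.re → s.re ≤ 2 → Real.sqrt X / 2 ≤ s.im → s.im ≤ 2 * X →
    (∀ t ∈ Zo, |t - s.im| ≤ 10 → 1 / (4 * Real.log X) ≤ ‖s - (1 / 2 + (t : ℂ) * I)‖) →
    Real.exp (-C * (Real.log X) ^ (3 / 2 : ℝ)) ≤ ‖riemannZeta s‖ := sorry
theorem aa_upper (hRH : RiemannHypothesis) : ∃ C X0 : ℝ, 0 < C ∧ 10 ≤ X0 ∧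
    ∀ X : ℝ, X0 ≤ X → ∀ t ∈ Zo, Real.sqrt X / 2 ≤ t → t ≤ 2 * X →
    deriv riemannZeta (1 / 2 + (t : ℂ) * I) ≠ 0 →
    (∀ t' ∈ Zo, |t' - t| ≤ 15 → t' ≠ t → 1 / Real.log X ≤ |t' - t|) →
    ‖aa t‖ ≤ Real.exp (C * (Real.log X) ^ (3 / 2 : ℝ)) := sorry

/-! M4 explicit formula -/
theorem EF (hRH : RiemannHypothesis) (e : Bool) (A : ℕ) (hA : 4 ≤ A) : ∃ C X0 : ℝ, 0 < C ∧ 10 ≤ X0 ∧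
    ∀ X : ℝ, X0 ≤ X → ∀ T : ℝ, Real.sqrt X ≤ T → T ≤ X → Spaced X T →
    ∀ y : ℝ, X ^ (-(1 / 2) : ℝ) ≤ y → y ≤ X ^ 2 →
    ‖ZZ e A X y T - DD e A y T‖ ≤ C * ((y * T) ^ (-(3 / 2) : ℝ) + X ^ (-(10 : ℝ))) := sorry

/-! M7 mean value -/
theorem DD_cont (e : Bool) (A : ℕ) (hA : 4 ≤ A) :
    ContinuousOn (fun p : ℝ × ℝ => DD e A p.1 p.2) (Set.Ioi 0 ×ˢ Set.univ) := sorry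
theorem DD_mean (e : Bool) (A : ℕ) (hA : 4 ≤ A) : ∃ C : ℝ, 0 < C ∧ ∀ X y : ℝ, 1 ≤ X → 0 < y →
    ∫ T in (0 : ℝ)..X, ‖DD e A y T‖ ^ 2 ≤ C * (X + y ^ 2) := sorry

/-! M9 Gram -/
theorem gram_compare (c : ℝ) (hc : 0 < c) (δ : ℝ) (hδ : 0 < δ) : ∃ A0 : ℕ, ∀ A : ℕ, A0 ≤ A →
    ∃ A' : ℕ, A ≤ A' ∧ ∃ Y0 : ℝ, ∀ Y : ℝ, Y0 ≤ Y →
    JJ c A Y ≤ 2 * (1 + 2 * Real.pi * c) * JJ (c / (1 + 2 * Real.pi * c)) A' Y + δ * Y := sorry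
theorem gram_trivial (c : ℝ) (hc : 0 < c) : ∃ K : ℝ, 0 < K ∧ ∃ A0 : ℕ, ∀ A : ℕ, A0 ≤ A →
    ∃ Y0 : ℝ, ∀ Y : ℝ, Y0 ≤ Y → JJ c A Y ≤ K * Y := sorry

/-! M11 pointwise bound -/
theorem DD_pointwise (hRH : RiemannHypothesis) (A : ℕ) (hA : 4 ≤ A) (c ε : ℝ) (hc : 0 < c)
    (hε : 0 < ε) : ∃ T0 : ℝ, ∀ T : ℝ, T0 ≤ T → ‖DD true A (c * T) T‖ ≤ T ^ ε := sorry

/-! M12 lattice -/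
theorem good_of_list (γ : ℕ → ℝ) (hγ : IsZeroList γ) : ∃ C X0 : ℝ, 0 < C ∧ 10 ≤ X0 ∧
    ∀ X : ℝ, X0 ≤ X → ∀ T : ℝ, Real.sqrt X ≤ T → T ≤ X → ∀ φ : ℝ, X ^ (-(1 / 4) : ℝ) ≤ φ →
    φ ≤ 1 / 10 → (∀ j : ℕ, |γ j - T| ≤ (Real.log X) ^ 2 + 40 →
      Metric.infDist (gap γ j) Half ≤ φ) →
    Spaced X T ∧ Latt (C * φ) X T := sorry

/-! M6 energy -/
theorem energy (hRH : RiemannHypothesis) (A : ℕ) (hA : 4 ≤ A) : ∃ C η X0 : ℝ, 0 < C ∧ 0 < η ∧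
    10 ≤ X0 ∧ ∀ X : ℝ, X0 ≤ X → ∀ φ : ℝ, 0 ≤ φ → φ * Real.log X ≤ η → ∀ B : Set ℝ, Adm φ X B →
    Integrable (fun T => GB X B T * N2 A X T) ∧ ∫ T : ℝ, GB X B T * N2 A X T ≤ C * X := sorry

/-! M8 comparison -/
theorem compare (hRH : RiemannHypothesis) (A : ℕ) (hA : 4 ≤ A) (c : ℝ) (hc : 0 < c) :
    ∃ C η X0 : ℝ, 0 < C ∧ 0 < η ∧
    10 ≤ X0 ∧ ∀ X : ℝ, X0 ≤ X → ∀ φ : ℝ, 0 ≤ φ → φ * Real.log X ≤ η → ∀ B : Set ℝ, Adm φ X B →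
    ∫ T in {T : ℝ | 3 * (Real.log X) ^ 3 ≤ Metric.infDist T B},
      (‖DD true A (c * T) T‖ - ‖DD false A (2 * Real.pi * Real.exp 2 / c) T‖) ^ 2 ≤
        C * (φ ^ 2 * (Real.log X) ^ 3 + X ^ (-(1 / 8) : ℝ)) * X := sorry

/-! final -/
theorem main (hRH : RiemannHypothesis) : ∃ η : ℝ, 0 < η ∧ ∀ γ : ℕ → ℝ, IsZeroList γ →
    ∀ ε : ℝ, 0 < ε → ∃ X0 : ℝ, ∀ X : ℝ, X0 ≤ X → ∃ S : Finset ℕ, X ^ (1 - ε) ≤ S.card ∧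
      ∀ j ∈ S, γ j ≤ X ∧
        η * (Real.log (γ j)) ^ (-(3 / 2) : ℝ) ≤ Metric.infDist (gap γ j) Half := sorry

end H345.Blueprint
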