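import Pool.Agent.H345R2.Blueprint
import Pool.Agent.H345R2.Defs2

open Complex Filter Topology Set MeasureTheory

namespace H345.Blueprint

/-! Window.lean (helper345) -/
theorem reflect (A : ℕ) (hA : 4 ≤ A) : ∃ C X0 : ℝ, 0 < C ∧ 10 ≤ X0 ∧ ∀ X : ℝ, X0 ≤ X →
    ∀ T : ℝ, Real.sqrt X ≤ T → T ≤ X → ∀ y : ℝ, 0 < y →
    |‖ZZ true A X y T‖ - ‖ZZ false A X (2 * Real.pi / (y * T)) T‖| ≤ C / T * S1 A X T := sorry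
theorem shift (e : Bool) (A : ℕ) (φ X T : ℝ) (hφ : 0 ≤ φ) (hX : 1 ≤ Real.log X)
    (hL : Latt φ X T) (y : ℝ) (hy : 0 < y) :
    |‖ZZ e A X (y * Real.exp (2 * (Real.log T + 1))) T‖ - ‖ZZ e A X y T‖| ≤
      2 * φ * Real.log X * S1 A X T := sorry
theorem S1_sq (A : ℕ) (hA : 4 ≤ A) : ∃ C X0 : ℝ, 0 < C ∧ 10 ≤ X0 ∧ ∀ X : ℝ, X0 ≤ X →
    ∀ T : ℝ, Spaced X T → (S1 A X T) ^ 2 ≤ C * Real.log X * N2 A X T := sorry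

/-! EnergyPt.lean (helper345) -/
theorem pw_energy (hRH : RiemannHypothesis) (A : ℕ) (hA : 4 ≤ A) : ∃ C X0 : ℝ, 0 < C ∧ 10 ≤ X0 ∧
    ∀ X : ℝ, X0 ≤ X → ∀ φ : ℝ, 0 ≤ φ → ∀ T : ℝ, Real.sqrt X ≤ T → T ≤ X →
    Spaced X T → Latt φ X T →
    Real.log X * D2 A X T ≤ C * (φ * (Real.log X) ^ 2 + (Real.log X) ^ 2 / X) * N2 A X T +
      C * Real.log X +
      C * ∫ x in (-Real.log X)..(Real.log X / 2 + 2),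
        (‖DD true A (Real.exp x) T‖ ^ 2 + ‖DD false A (Real.exp x) T‖ ^ 2) := sorry

/-! FinalA.lean -/
theorem DD_false_one : ∃ A1 : ℕ, 4 ≤ A1 ∧ ∀ A : ℕ, A1 ≤ A → ∀ T : ℝ, 9 / 10 ≤ ‖DD false A 1 T‖ :=
  sorry
theorem DD_false_q (δ : ℝ) (hδ : 0 < δ) : ∃ A2 : ℕ, 4 ≤ A2 ∧ ∀ A : ℕ, A2 ≤ A → ∀ T : ℝ,
    ‖DD false A (1 + 4 * Real.pi ^ 2 * Real.exp 2) T‖ ≤ δ := sorry
theorem DD_trivial (e : Bool) (A : ℕ) (hA : 4 ≤ A) : ∃ C : ℝ, 0 < C ∧ ∀ y T : ℝ, 0 < y →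
    ‖DD e A y T‖ ≤ C * (1 + y) := sorry
theorem JJ_eq (A : ℕ) (hA : 4 ≤ A) (c Y : ℝ) (hc : 0 < c) (hY : 0 < Y) :
    IntegrableOn (fun T : ℝ => ‖DD true A (c * T) T‖ ^ 2 * Real.exp (-(c * T) / Y)) (Set.Ioi 0) ∧
    JJ c A Y = c * ∫ T in Set.Ioi (0 : ℝ),
      ‖DD true A (c * T) T‖ ^ 2 * Real.exp (-(c * T) / Y) := sorry
theorem bad_measure (V X U : ℝ) (hV : 0 ≤ V) (hVX : V ≤ X) (hU : 0 < U) (E : Finset ℝ) :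
    volume ({T : ℝ | 0 ≤ T ∧ T ≤ X ∧ Metric.infDist T (BB V X E) < 3 * U}) ≤
      ENNReal.ofReal (V + 6 * U * (E.card + 2)) := sorry

end H345.Blueprint
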