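import Pool.Agent.H345R2.Defs3

open Complex Filter Topology Set MeasureTheory

namespace H345.Blueprint

/-! 21 Sharp.lean -/
theorem DD_sharp (e : Bool) (A : ℕ) (hA : 4 ≤ A) : ∃ C : ℝ, 0 < C ∧ ∀ X y : ℝ, 1 ≤ X → 0 < y →
    ∫ T in (0 : ℝ)..X, ‖DD e A y T‖ ^ 2 ≤ C * (X + y) := sorry

/-! 22 Curve.lean (uses DD_sharp) -/
theorem HH_bound (A : ℕ) (hA : 4 ≤ A) : ∃ C : ℝ, 0 < C ∧ ∀ X : ℝ, 1 ≤ X →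
    IntegrableOn (HH A) (Set.Ioc 1 X) ∧ ∫ T in Set.Ioc 1 X, HH A T ≤ C * X := sorry

/-! 23 Pairing.lean -/
theorem pairing (S : Finset ℝ) (c g : ℝ → ℂ) (Λ a : ℝ) (hΛ : 0 ≤ Λ)
    (h1 : ∀ t ∈ S, ‖g t‖ ≤ Λ * max 0 (1 - |t - a|))
    (h2 : ∀ t ∈ S, ∀ t' ∈ S, ‖g t - g t'‖ ≤ Λ * |t - t'|) :
    ‖∑ t ∈ S, g t * c t‖ ^ 2 ≤
      10 * Λ ^ 2 * ∫ v : ℝ, KK v * ‖∑ t ∈ S, c t * cexp (((v * t : ℝ) : ℂ) * I)‖ ^ 2 := sorry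

/-! 24 Phase.lean (uses pairing, aa_upper, WW_bound) -/
theorem phase_pt (hRH : RiemannHypothesis) (A : ℕ) (hA : 4 ≤ A) : ∃ C X0 : ℝ, 0 < C ∧ 10 ≤ X0 ∧
    ∀ X : ℝ, X0 ≤ X → ∀ φ : ℝ, 0 ≤ φ → φ * Real.log X ≤ 1 → ∀ T : ℝ, Real.sqrt X ≤ T → T ≤ X →
    Spaced X T → Latt φ X T → ∀ y : ℝ, 0 < y →
    (‖ZZ true A X y T‖ - ‖ZZ true A X (y * Real.exp (-(2 * (Real.log T + 1)))) T‖) ^ 2 ≤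
      C * (φ * Real.log X) ^ 2 *
        SZ X (fun k => ∫ v : ℝ, KK v * ‖ZZ true A X (y * Real.exp v) (T + k)‖ ^ 2) +
      C * X ^ (-(10 : ℝ)) := sorry

/-! 25 BootPt.lean (uses phase_pt, EF, reflect, S1_sq, DD_trivial) -/
theorem boot_pt (hRH : RiemannHypothesis) (A : ℕ) (hA : 4 ≤ A) : ∃ C X0 : ℝ, 0 < C ∧ 10 ≤ X0 ∧
    ∀ X : ℝ, X0 ≤ X → ∀ φ : ℝ, 0 ≤ φ → φ * Real.log X ≤ 1 → ∀ T : ℝ, Real.sqrt X ≤ T → T ≤ X →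
    Spaced X T → Latt φ X T →
    JZ A X T ≤ C * (HH A T + 1 + N2 A X T) +
      C * (φ * Real.log X) ^ 2 * SZ X (fun k => JZ A X (T + k)) := sorry

/-! 26 Boot.lean (uses boot_pt, HH_bound, energy, aa_upper) -/
theorem boot_shift (hRH : RiemannHypothesis) (A : ℕ) (hA : 4 ≤ A) : ∃ X0 : ℝ, 10 ≤ X0 ∧
    ∀ X : ℝ, X0 ≤ X → ∀ φ : ℝ, 0 ≤ φ → ∀ B : Set ℝ, Adm φ X B →
    Integrable (fun T => GB2 X B T * JZ A X T) ∧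
    ∀ k : ℤ, |(k : ℝ)| ≤ (Real.log X) ^ 2 →
      Integrable (fun T => GB2 X B T * JZ A X (T + k)) ∧
      ∫ T : ℝ, GB2 X B T * JZ A X (T + k) ≤
        Real.exp (|(k : ℝ)| / (2 * Real.log X)) * (∫ T : ℝ, GB2 X B T * JZ A X T) + 1 := sorry
theorem boot (hRH : RiemannHypothesis) (A : ℕ) (hA : 4 ≤ A) : ∃ C η X0 : ℝ, 0 < C ∧ 0 < η ∧
    10 ≤ X0 ∧ ∀ X : ℝ, X0 ≤ X → ∀ φ : ℝ, 0 ≤ φ → φ * Real.log X ≤ η → ∀ B : Set ℝ, Adm φ X B →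
    ∫ T : ℝ, GB2 X B T * JZ A X T ≤ C * X := sorry

/-! 27 Compare2.lean (uses phase_pt, boot_shift, boot, EF, reflect, S1_sq, energy) -/
theorem compare2 (hRH : RiemannHypothesis) (A : ℕ) (hA : 4 ≤ A) (c : ℝ) (hc : 0 < c) :
    ∃ C η X0 : ℝ, 0 < C ∧ 0 < η ∧
    10 ≤ X0 ∧ ∀ X : ℝ, X0 ≤ X → ∀ φ : ℝ, 0 ≤ φ → φ * Real.log X ≤ η → ∀ B : Set ℝ, Adm φ X B →
    ∫ T in {T : ℝ | 4 * (Real.log X) ^ 3 ≤ Metric.infDist T B},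
      (‖DD true A (c * T) T‖ - ‖DD false A (2 * Real.pi * Real.exp 2 / c) T‖) ^ 2 ≤
        C * ((φ * Real.log X) ^ 2 + X ^ (-(1 / 8) : ℝ)) * X := sorry

/-! 28 Final2.lean -/
theorem main2 (hRH : RiemannHypothesis) (γ : ℕ → ℝ) (hγ : IsZeroList γ) : ∃ η : ℝ, 0 < η ∧
    ∀ ε : ℝ, 0 < ε → ∃ X0 : ℝ, ∀ X : ℝ, X0 ≤ X → ∃ S : Finset ℕ, X ^ (1 - ε) ≤ S.card ∧
      ∀ j ∈ S, γ j ≤ X ∧
        η / Real.log (γ j) ≤ Metric.infDist (gap γ j) Half := sorry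

end H345.Blueprint
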