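import Pool.Agent.H345R2.EnergyA

set_option autoImplicit false
set_option maxHeartbeats 1000000

open Complex Filter Topology Set MeasureTheory

namespace H345

/-! ### one zero -/

noncomputable def ff (A : ℕ) (X : ℝ) (B : Set ℝ) (t T : ℝ) : ℝ :=
  GB X B T * (if |t - T| ≤ (Real.log X) ^ 2 then
    ‖WW A (((t - T : ℝ) : ℂ) * I)‖ * (1 + |t - T|) ^ 4 else 0)

noncomputable def gg (A : ℕ) (X : ℝ) (B : Set ℝ) (t T : ℝ) : ℝ :=
  GB X B T * (if |t - T| ≤ (Real.log X) ^ 2 then ‖WW A (((t - T : ℝ) : ℂ) * I)‖ ^ 2 else 0)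

noncomputable def Jt (τ0 X : ℝ) (B : Set ℝ) (t : ℝ) : ℝ :=
  ∫ T in Set.Icc (t - τ0) (t + τ0), GB X B T

open Classical in
noncomputable def chi (X : ℝ) (B : Set ℝ) (t : ℝ) : ℝ :=
  if ∃ T, |t - T| ≤ (Real.log X) ^ 2 ∧ (Real.log X) ^ 3 ≤ Metric.infDist T B then 1 else 0

lemma chi_nonneg (X : ℝ) (B : Set ℝ) (t : ℝ) : 0 ≤ chi X B t := by
  unfold chi; split_ifs <;> norm_num

lemma Jt_nonneg (τ0 X : ℝ) (B : Set ℝ) (t : ℝ) : 0 ≤ Jt τ0 X B t :=
  setIntegral_nonneg measurableSet_Icc fun T _ => GB_nonneg X B T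

lemma adm_supp {φ X : ℝ} {B : Set ℝ} (h : Adm φ X B) (hL : 0 < Real.log X) {T : ℝ}
    (hT : (Real.log X) ^ 3 ≤ Metric.infDist T B) : Real.sqrt X ≤ T ∧ T ≤ X := by
  have hU : 0 < (Real.log X) ^ 3 := by positivity
  constructor
  · by_contra hc
    rw [Metric.infDist_zero_of_mem (h.low T (not_le.1 hc))] at hT
    linarith
  · by_contra hc
    rw [Metric.infDist_zero_of_mem (h.high T (not_le.1 hc))] at hT
    linarith

lemma GB_supp {φ X : ℝ} {B : Set ℝ} (h : Adm φ X B) (hL : 0 < Real.log X) {T : ℝ}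
    (hT : T ∉ Set.Icc (Real.sqrt X) X) : GB X B T = 0 := by
  apply GB_zero
  by_contra hc
  exact hT (adm_supp h hL (not_lt.1 hc))

lemma GB_int {φ X : ℝ} {B : Set ℝ} (h : Adm φ X B) (hL : 0 < Real.log X) :
    Integrable (GB X B) :=
  int_aux (GB_meas X B) (K := 1) (fun T => by
    rw [abs_of_nonneg (GB_nonneg X B T)]; exact GB_le_one hL.le B T)
    (fun T hT => GB_supp h hL hT)

section one
variable {A : ℕ} {CW : ℝ}

lemma ff_nonneg (X : ℝ) (B : Set ℝ) (t T : ℝ) : 0 ≤ ff A X B t T := by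
  unfold ff
  apply mul_nonneg (GB_nonneg X B T)
  split_ifs
  · positivity
  · exact le_rfl

lemma gg_nonneg (X : ℝ) (B : Set ℝ) (t T : ℝ) : 0 ≤ gg A X B t T := by
  unfold gg
  apply mul_nonneg (GB_nonneg X B T)
  split_ifs
  · positivity
  · exact le_rfl

lemma cond_meas (X t : ℝ) : MeasurableSet {T : ℝ | |t - T| ≤ (Real.log X) ^ 2} :=
  (isClosed_le (by fun_prop : Continuous fun T : ℝ => |t - T|) continuous_const).measurableSet

lemma Wt_cont (hA : 4 ≤ A) (t : ℝ) : Continuous (fun T : ℝ => ‖WW A (((t - T : ℝ) : ℂ) * I)‖) := by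
  have h1 : Continuous (fun T : ℝ => t - T) := by fun_prop
  have := (W_cont A hA).comp h1
  exact this

lemma ff_int (hA : 4 ≤ A) (hC : 0 < CW)
    (hW : ∀ w : ℂ, |w.re| ≤ 2 → ‖WW A w‖ ≤ CW * Real.exp (-|w.im| / 2))
    {φ X : ℝ} {B : Set ℝ} (h : Adm φ X B) (hL : 0 < Real.log X) (t : ℝ) :
    Integrable (ff A X B t) := by
  refine int_aux (K := 98304 * Real.exp 1 * CW) (a := Real.sqrt X) (b := X) ?_ ?_ ?_
  · unfold ff
    apply (GB_meas X B).mul
    apply Measurable.ite (cond_meas X t)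
    · have := Wt_cont hA t
      exact (this.mul (by fun_prop)).measurable
    · exact measurable_const
  · intro T
    rw [abs_of_nonneg (ff_nonneg X B t T)]
    unfold ff
    have h1 : (if |t - T| ≤ (Real.log X) ^ 2 then
        ‖WW A (((t - T : ℝ) : ℂ) * I)‖ * (1 + |t - T|) ^ 4 else 0) ≤ 98304 * Real.exp 1 * CW := by
      split_ifs
      · refine (W_major' hC hW (t - T)).trans ?_
        unfold VV
        have h2 : Real.exp (-|(t - T) / 4| / 2) ≤ 1 := by
          apply Real.exp_le_one_iff.2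
          have := abs_nonneg ((t - T) / 4)
          linarith
        have h3 : 0 ≤ 98304 * Real.exp 1 * CW := by positivity
        nlinarith
      · positivity
    have h2 := GB_le_one hL.le B T
    have h3 := GB_nonneg X B T
    have h4 : 0 ≤ 98304 * Real.exp 1 * CW := by positivity
    calc _ ≤ 1 * (98304 * Real.exp 1 * CW) := by
          apply mul_le_mul h2 h1 _ zero_le_one
          split_ifs
          · positivity
          · exact le_rfl
      _ = _ := one_mul _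
  · intro T hT
    unfold ff
    rw [GB_supp h hL hT, zero_mul]

lemma gg_int (hA : 4 ≤ A) (hC : 0 < CW)
    (hW : ∀ w : ℂ, |w.re| ≤ 2 → ‖WW A w‖ ≤ CW * Real.exp (-|w.im| / 2))
    {φ X : ℝ} {B : Set ℝ} (h : Adm φ X B) (hL : 0 < Real.log X) (t : ℝ) :
    Integrable (gg A X B t) := by
  refine int_aux (K := CW ^ 2) (a := Real.sqrt X) (b := X) ?_ ?_ ?_
  · unfold gg
    apply (GB_meas X B).mul
    apply Measurable.ite (cond_meas X t)
    · have := Wt_cont hA t
      exact (this.pow 2).measurable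
    · exact measurable_const
  · intro T
    rw [abs_of_nonneg (gg_nonneg X B t T)]
    unfold gg
    have h1 : (if |t - T| ≤ (Real.log X) ^ 2 then
        ‖WW A (((t - T : ℝ) : ℂ) * I)‖ ^ 2 else 0) ≤ CW ^ 2 := by
      split_ifs
      · apply pow_le_pow_left₀ (norm_nonneg _)
        refine (hW _ (by simp)).trans ?_
        have h2 : Real.exp (-|(((t - T : ℝ) : ℂ) * I).im| / 2) ≤ 1 := by
          apply Real.exp_le_one_iff.2
          have := abs_nonneg (((t - T : ℝ) : ℂ) * I).im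
          linarith
        nlinarith
      · positivity
    have h2 := GB_le_one hL.le B T
    have h3 := GB_nonneg X B T
    calc _ ≤ 1 * (CW ^ 2) := by
          apply mul_le_mul h2 h1 _ zero_le_one
          split_ifs
          · positivity
          · exact le_rfl
      _ = _ := one_mul _
  · intro T hT
    unfold gg
    rw [GB_supp h hL hT, zero_mul]

lemma GB_avg {φ X : ℝ} {B : Set ℝ} (h : Adm φ X B) (hL : 2 ≤ Real.log X) {τ0 : ℝ} (h0 : 0 < τ0)
    (h1 : τ0 ≤ 1) {t T' : ℝ} (ht : |t - T'| ≤ (Real.log X) ^ 2)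
    (hd : (Real.log X) ^ 3 ≤ Metric.infDist T' B) :
    GB X B T' ≤ Real.exp ((|t - T'| + 1) / (2 * Real.log X)) * (Jt τ0 X B t / (2 * τ0)) +
      Real.exp (-(Real.log X) ^ 2 + Real.log X) := by
  have hGi := GB_int h (by linarith)
  have hvol : (volume : Measure ℝ).real (Set.Icc (t - τ0) (t + τ0)) = 2 * τ0 := by
    rw [Measure.real, Real.volume_Icc, ENNReal.toReal_ofReal (by linarith)]
    ring
  have e1 : ∫ _T in Set.Icc (t - τ0) (t + τ0), GB X B T' = 2 * τ0 * GB X B T' := by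
    rw [setIntegral_const, smul_eq_mul, hvol]
  have e2 : ∫ T in Set.Icc (t - τ0) (t + τ0),
      (Real.exp ((|t - T'| + 1) / (2 * Real.log X)) * GB X B T +
        Real.exp (-(Real.log X) ^ 2 + Real.log X)) =
      Real.exp ((|t - T'| + 1) / (2 * Real.log X)) * Jt τ0 X B t +
        2 * τ0 * Real.exp (-(Real.log X) ^ 2 + Real.log X) := by
    rw [integral_add (hGi.integrableOn.const_mul _) (integrableOn_const (by simp)),
      integral_const_mul, setIntegral_const, smul_eq_mul, hvol]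
    rfl
  have h2 : ∫ _T in Set.Icc (t - τ0) (t + τ0), GB X B T' ≤ ∫ T in Set.Icc (t - τ0) (t + τ0),
      (Real.exp ((|t - T'| + 1) / (2 * Real.log X)) * GB X B T +
        Real.exp (-(Real.log X) ^ 2 + Real.log X)) := by
    apply setIntegral_mono_on (integrableOn_const (by simp)) _ measurableSet_Icc
    · intro T hT
      have h3 : |t - T| ≤ τ0 := by
        rw [abs_le]; constructor <;> linarith [hT.1, hT.2]
      have h4 : |T' - T| ≤ |t - T'| + 1 := by
        have : T' - T = (t - T) - (t - T') := by ring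
        rw [this]
        refine (abs_sub _ _).trans ?_
        linarith
      refine (GB_shift hL hd (h4.trans (by linarith))).trans ?_
      have h5 : Real.exp (|T' - T| / (2 * Real.log X)) ≤
          Real.exp ((|t - T'| + 1) / (2 * Real.log X)) := by
        apply Real.exp_le_exp.2
        apply div_le_div_of_nonneg_right h4 (by linarith)
      have h6 := mul_le_mul_of_nonneg_right h5 (GB_nonneg X B T)
      linarith
    · exact (hGi.integrableOn.const_mul _).add (integrableOn_const (by simp))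
  rw [e1, e2] at h2
  have h7 : Real.exp ((|t - T'| + 1) / (2 * Real.log X)) * (Jt τ0 X B t / (2 * τ0)) +
      Real.exp (-(Real.log X) ^ 2 + Real.log X) =
      (Real.exp ((|t - T'| + 1) / (2 * Real.log X)) * Jt τ0 X B t +
        2 * τ0 * Real.exp (-(Real.log X) ^ 2 + Real.log X)) / (2 * τ0) := by
    field_simp
  rw [h7, le_div_iff₀ (by positivity)]
  linarith

lemma ff_le (hC : 0 < CW)
    (hW : ∀ w : ℂ, |w.re| ≤ 2 → ‖WW A w‖ ≤ CW * Real.exp (-|w.im| / 2))
    {φ X : ℝ} {B : Set ℝ} (h : Adm φ X B) (hL : 2 ≤ Real.log X) {τ0 : ℝ} (h0 : 0 < τ0)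
    (h1 : τ0 ≤ 1) (t T' : ℝ) :
    ff A X B t T' ≤ (Jt τ0 X B t / (2 * τ0) + Real.exp (-(Real.log X) ^ 2 + Real.log X) *
      chi X B t) * VV (98304 * Real.exp 1 * CW) (t - T') := by
  have hJ := Jt_nonneg τ0 X B t
  have hV : 0 ≤ VV (98304 * Real.exp 1 * CW) (t - T') := by unfold VV; positivity
  have hchi := chi_nonneg X B t
  have hrhs : 0 ≤ (Jt τ0 X B t / (2 * τ0) + Real.exp (-(Real.log X) ^ 2 + Real.log X) *
      chi X B t) * VV (98304 * Real.exp 1 * CW) (t - T') := by positivity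
  by_cases hh : |t - T'| ≤ (Real.log X) ^ 2
  swap
  · unfold ff
    rw [if_neg hh, mul_zero]
    exact hrhs
  by_cases hd : (Real.log X) ^ 3 ≤ Metric.infDist T' B
  swap
  · unfold ff
    rw [GB_zero (not_le.1 hd), zero_mul]
    exact hrhs
  have hc1 : chi X B t = 1 := by
    unfold chi; rw [if_pos ⟨T', hh, hd⟩]
  have hG := GB_avg h hL h0 h1 hh hd
  unfold ff
  rw [if_pos hh, hc1, mul_one]
  have hw0 : 0 ≤ ‖WW A (((t - T' : ℝ) : ℂ) * I)‖ * (1 + |t - T'|) ^ 4 := by positivity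
  have m1 := W_major hC hW hL (t - T')
  have m2 := W_major' hC hW (t - T')
  set w := ‖WW A (((t - T' : ℝ) : ℂ) * I)‖ * (1 + |t - T'|) ^ 4 with hw
  set V := VV (98304 * Real.exp 1 * CW) (t - T') with hVd
  calc GB X B T' * w ≤ (Real.exp ((|t - T'| + 1) / (2 * Real.log X)) * (Jt τ0 X B t / (2 * τ0)) +
      Real.exp (-(Real.log X) ^ 2 + Real.log X)) * w := mul_le_mul_of_nonneg_right hG hw0
    _ = (Jt τ0 X B t / (2 * τ0)) * (Real.exp ((|t - T'| + 1) / (2 * Real.log X)) * w) +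
      Real.exp (-(Real.log X) ^ 2 + Real.log X) * w := by ring
    _ ≤ (Jt τ0 X B t / (2 * τ0)) * V + Real.exp (-(Real.log X) ^ 2 + Real.log X) * V := by
        gcongr
    _ = _ := by ring

lemma ff_integral_le (hA : 4 ≤ A) (hC : 0 < CW)
    (hW : ∀ w : ℂ, |w.re| ≤ 2 → ‖WW A w‖ ≤ CW * Real.exp (-|w.im| / 2))
    {φ X : ℝ} {B : Set ℝ} (h : Adm φ X B) (hL : 2 ≤ Real.log X) {τ0 : ℝ} (h0 : 0 < τ0)
    (h1 : τ0 ≤ 1) (t : ℝ) :
    ∫ T, ff A X B t T ≤ (Jt τ0 X B t / (2 * τ0) + Real.exp (-(Real.log X) ^ 2 + Real.log X) *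
      chi X B t) * ∫ τ, VV (98304 * Real.exp 1 * CW) τ := by
  have hVi := VV_int (98304 * Real.exp 1 * CW)
  have hVi2 : Integrable (fun T' => VV (98304 * Real.exp 1 * CW) (t - T')) := hVi.comp_sub_left t
  calc ∫ T, ff A X B t T ≤ ∫ T', (Jt τ0 X B t / (2 * τ0) +
        Real.exp (-(Real.log X) ^ 2 + Real.log X) * chi X B t) *
          VV (98304 * Real.exp 1 * CW) (t - T') := by
        apply integral_mono (ff_int hA hC hW h (by linarith) t) (hVi2.const_mul _)
        intro T'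
        exact ff_le hC hW h hL h0 h1 t T'
    _ = _ := by
        rw [integral_const_mul, integral_sub_left_eq_self]

lemma gg_lower (hA : 4 ≤ A) (hC : 0 < CW)
    (hW : ∀ w : ℂ, |w.re| ≤ 2 → ‖WW A w‖ ≤ CW * Real.exp (-|w.im| / 2))
    {c τ0 : ℝ} (hc : 0 < c) (h1 : τ0 ≤ 1)
    (hlow : ∀ τ : ℝ, |τ| ≤ τ0 → c ≤ ‖WW A ((τ : ℂ) * I)‖)
    {φ X : ℝ} {B : Set ℝ} (h : Adm φ X B) (hL : 2 ≤ Real.log X) (t : ℝ) :
    c ^ 2 * Jt τ0 X B t ≤ ∫ T, gg A X B t T := by
  have hgi := gg_int hA hC hW h (by linarith) t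
  have hGi := GB_int h (by linarith)
  calc c ^ 2 * Jt τ0 X B t = ∫ T in Set.Icc (t - τ0) (t + τ0), c ^ 2 * GB X B T := by
        rw [integral_const_mul]; rfl
    _ ≤ ∫ T in Set.Icc (t - τ0) (t + τ0), gg A X B t T := by
        apply setIntegral_mono_on (hGi.integrableOn.const_mul _) hgi.integrableOn measurableSet_Icc
        intro T hT
        have h3 : |t - T| ≤ τ0 := by
          rw [abs_le]; constructor <;> linarith [hT.1, hT.2]
        have h4 : |t - T| ≤ (Real.log X) ^ 2 := by nlinarith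
        unfold gg
        rw [if_pos h4, mul_comm]
        apply mul_le_mul_of_nonneg_left _ (GB_nonneg X B T)
        exact pow_le_pow_left₀ hc.le (hlow _ h3) 2
    _ ≤ ∫ T, gg A X B t T := by
        apply setIntegral_le_integral hgi
        exact Eventually.of_forall fun T => gg_nonneg X B t T

end one

/-! ### sums over the zeros -/

noncomputable def Z0 (X : ℝ) : Finset ℝ := (Zo_finite 0 (2 * X)).toFinset

lemma mem_Z0 (X t : ℝ) : t ∈ Z0 X ↔ t ∈ Zo ∧ 0 ≤ t ∧ t ≤ 2 * X := by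
  unfold Z0
  rw [Set.Finite.mem_toFinset]
  exact Iff.rfl

lemma finsum_Zw {X T : ℝ} (h1 : Real.sqrt X ≤ T) (h2 : T ≤ X) (h3 : (Real.log X) ^ 2 ≤ Real.sqrt X)
    (k : ℝ → ℝ) : ∑ᶠ t ∈ Zw X T, k t =
      ∑ t ∈ Z0 X, if |t - T| ≤ (Real.log X) ^ 2 then k t else 0 := by
  have hset : Zw X T = ((Z0 X).filter (fun t => |t - T| ≤ (Real.log X) ^ 2) : Finset ℝ) := by
    ext t
    rw [Finset.mem_coe, Finset.mem_filter, mem_Z0]
    unfold Zw
    rw [mem_inter_iff, mem_Icc, abs_le]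
    have h0 := Real.sqrt_nonneg X
    constructor
    · rintro ⟨h, h4, h5⟩
      exact ⟨⟨h, by linarith, by linarith⟩, by linarith, by linarith⟩
    · rintro ⟨⟨h, _, _⟩, h4, h5⟩
      exact ⟨h, by linarith, by linarith⟩
  rw [hset, finsum_mem_coe_finset, Finset.sum_filter]

lemma N2_eq {A : ℕ} {φ X : ℝ} {B : Set ℝ} (h : Adm φ X B) (hL : 0 < Real.log X)
    (h3 : (Real.log X) ^ 2 ≤ Real.sqrt X) (T : ℝ) :
    GB X B T * N2 A X T = ∑ t ∈ Z0 X, ‖aa t‖ ^ 2 * ff A X B t T := by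
  by_cases hd : (Real.log X) ^ 3 ≤ Metric.infDist T B
  · obtain ⟨h1, h2⟩ := adm_supp h hL hd
    unfold N2
    rw [finsum_Zw h1 h2 h3, Finset.mul_sum]
    apply Finset.sum_congr rfl
    intro t _
    unfold ff
    split_ifs <;> ring
  · rw [GB_zero (not_le.1 hd), zero_mul]
    symm
    apply Finset.sum_eq_zero
    intro t _
    unfold ff
    rw [GB_zero (not_le.1 hd), zero_mul, mul_zero]

lemma D2_eq {A : ℕ} {φ X : ℝ} {B : Set ℝ} (h : Adm φ X B) (hL : 0 < Real.log X)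
    (h3 : (Real.log X) ^ 2 ≤ Real.sqrt X) (T : ℝ) :
    GB X B T * D2 A X T = ∑ t ∈ Z0 X, ‖aa t‖ ^ 2 * gg A X B t T := by
  by_cases hd : (Real.log X) ^ 3 ≤ Metric.infDist T B
  · obtain ⟨h1, h2⟩ := adm_supp h hL hd
    unfold D2
    rw [finsum_Zw h1 h2 h3, Finset.mul_sum]
    apply Finset.sum_congr rfl
    intro t _
    unfold gg
    split_ifs <;> ring
  · rw [GB_zero (not_le.1 hd), zero_mul]
    symm
    apply Finset.sum_eq_zero
    intro t _
    unfold gg
    rw [GB_zero (not_le.1 hd), zero_mul, mul_zero]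

/-- the contribution of the zeros with a good point nearby -/
lemma chi_sum {φ X : ℝ} {B : Set ℝ} (h : Adm φ X B) (hL : 2 ≤ Real.log X)
    (h3 : (Real.log X) ^ 2 ≤ Real.sqrt X / 2) (hX : 1 ≤ X) {M : ℝ}
    (haa : ∀ t ∈ Zo, Real.sqrt X / 2 ≤ t → t ≤ 2 * X →
      deriv riemannZeta (1 / 2 + (t : ℂ) * I) ≠ 0 →
      (∀ t' ∈ Zo, |t' - t| ≤ 15 → t' ≠ t → 1 / Real.log X ≤ |t' - t|) → ‖aa t‖ ≤ M) :
    ∑ t ∈ Z0 X, ‖aa t‖ ^ 2 * chi X B t ≤ (X * Real.log X + 1) * M ^ 2 := by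
  classical
  set S := (Z0 X).filter (fun t => ∃ T, |t - T| ≤ (Real.log X) ^ 2 ∧
    (Real.log X) ^ 3 ≤ Metric.infDist T B) with hS
  have hL0 : 0 < Real.log X := by linarith
  have e1 : ∑ t ∈ Z0 X, ‖aa t‖ ^ 2 * chi X B t = ∑ t ∈ S, ‖aa t‖ ^ 2 := by
    rw [hS, Finset.sum_filter]
    apply Finset.sum_congr rfl
    intro t _
    unfold chi
    split_ifs <;> simp
  have hsp : ∀ t ∈ S, ∀ t' ∈ Zo, |t' - t| ≤ 15 → t' ≠ t → 2 / Real.log X ≤ |t' - t| := by
    intro t ht t' ht' hd hne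
    rw [hS, Finset.mem_filter, mem_Z0] at ht
    obtain ⟨⟨htZ, _⟩, T, hT1, hT2⟩ := ht
    have hs := (h.sp T hT2).2 t' ht' t htZ (by
      have : t' - T = (t' - t) + (t - T) := by ring
      rw [this]
      refine (abs_add_le _ _).trans ?_
      linarith) (by linarith) hne
    exact hs
  have hcard : (S.card : ℝ) ≤ X * Real.log X + 1 := by
    have := sep_card S (2 / Real.log X) (2 * X) (by positivity) (by linarith)
      (fun t ht => by
        rw [hS, Finset.mem_filter, mem_Z0] at ht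
        exact ht.1.2)
      (fun t ht t' ht' hne => by
        by_contra hc
        push Not at hc
        have h15 : |t - t'| ≤ 15 := by
          refine hc.le.trans ?_
          rw [div_le_iff₀ hL0]
          linarith
        have htZ : t ∈ Zo := by
          rw [hS, Finset.mem_filter, mem_Z0] at ht
          exact ht.1.1
        have := hsp t' ht' t htZ h15 hne
        linarith)
    refine this.trans (le_of_eq ?_)
    field_simp
  have hb : ∀ t ∈ S, ‖aa t‖ ^ 2 ≤ M ^ 2 := by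
    intro t ht
    have hsp' := hsp t ht
    rw [hS, Finset.mem_filter, mem_Z0] at ht
    obtain ⟨⟨htZ, h0, h2X⟩, T, hT1, hT2⟩ := ht
    obtain ⟨k1, k2⟩ := adm_supp h hL0 hT2
    apply pow_le_pow_left₀ (norm_nonneg _)
    have hT1' := abs_le.1 hT1
    apply haa t htZ (by linarith) h2X ((h.sp T hT2).1 t htZ (by linarith))
    intro t' ht' hd hne
    refine le_trans ?_ (hsp' t' ht' hd hne)
    apply div_le_div_of_nonneg_right (by norm_num) hL0.le
  rw [e1]
  calc ∑ t ∈ S, ‖aa t‖ ^ 2 ≤ ∑ _t ∈ S, M ^ 2 := Finset.sum_le_sum hb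
    _ = S.card * M ^ 2 := by rw [Finset.sum_const, nsmul_eq_mul]
    _ ≤ _ := mul_le_mul_of_nonneg_right hcard (by positivity)

lemma tail_small {Ca K1 X : ℝ} (hCa : 0 < Ca) (hK1 : 0 ≤ K1) (hX : 1 ≤ X)
    (hr : 2 * Ca + 3 + K1 ≤ Real.sqrt (Real.log X)) :
    (X * Real.log X + 1) * (Real.exp (Ca * (Real.log X) ^ (3 / 2 : ℝ))) ^ 2 *
      Real.exp (-(Real.log X) ^ 2 + Real.log X) * K1 ≤ X := by
  set L := Real.log X with hLd
  have hL0 : 0 ≤ L := Real.log_nonneg hX
  set r := Real.sqrt L with hrd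
  have hr2 : r ^ 2 = L := Real.sq_sqrt hL0
  have hr3 : 3 ≤ r := by linarith
  have hL32 : L ^ (3 / 2 : ℝ) = r ^ 3 := by
    rw [hrd, Real.sqrt_eq_rpow, ← Real.rpow_natCast, ← Real.rpow_mul hL0]
    norm_num
  have h1 : X * L + 1 ≤ X * Real.exp L := by
    have := Real.add_one_le_exp L
    nlinarith
  have h2 : K1 ≤ Real.exp K1 := by linarith [Real.add_one_le_exp K1]
  have hexp : L + 2 * (Ca * r ^ 3) + (-L ^ 2 + L) + K1 ≤ 0 := by
    have h4 : L ^ 2 = r * r ^ 3 := by rw [← hr2]; ring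
    have h5 : (2 * Ca + 3 + K1) * r ^ 3 ≤ r * r ^ 3 :=
      mul_le_mul_of_nonneg_right hr (by positivity)
    have h6 : L ≤ r ^ 3 := by rw [← hr2]; nlinarith
    have h7 : 1 ≤ r ^ 3 := by
      have : (1 : ℝ) ≤ r := by linarith
      exact one_le_pow₀ this
    have h8 : K1 ≤ K1 * r ^ 3 := by nlinarith
    nlinarith
  calc (X * L + 1) * (Real.exp (Ca * L ^ (3 / 2 : ℝ))) ^ 2 * Real.exp (-L ^ 2 + L) * K1
      ≤ (X * Real.exp L) * (Real.exp (Ca * L ^ (3 / 2 : ℝ))) ^ 2 * Real.exp (-L ^ 2 + L) *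
          Real.exp K1 := by gcongr
    _ = X * Real.exp (L + 2 * (Ca * r ^ 3) + (-L ^ 2 + L) + K1) := by
        have e : Real.exp (Ca * r ^ 3) ^ 2 = Real.exp (2 * (Ca * r ^ 3)) := by
          rw [← Real.exp_nat_mul]; norm_num
        rw [hL32, e, Real.exp_add (L + 2 * (Ca * r ^ 3) + (-L ^ 2 + L)) K1,
          Real.exp_add (L + 2 * (Ca * r ^ 3)) (-L ^ 2 + L), Real.exp_add L (2 * (Ca * r ^ 3))]
        ring
    _ ≤ X * 1 := by
        apply mul_le_mul_of_nonneg_left _ (by linarith)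
        exact Real.exp_le_one_iff.2 hexp
    _ = X := mul_one X

lemma N2_nonneg (A : ℕ) (X T : ℝ) : 0 ≤ N2 A X T := by
  unfold N2
  apply finsum_nonneg
  intro t
  apply finsum_nonneg
  intro _
  positivity

/-- integrated form of the pointwise energy inequality -/
lemma D2_upper {A : ℕ} (hA : 4 ≤ A) {CW : ℝ} (hC : 0 < CW)
    (hW : ∀ w : ℂ, |w.re| ≤ 2 → ‖WW A w‖ ≤ CW * Real.exp (-|w.im| / 2))
    {Cp CF : ℝ} (hCp : 0 < Cp) {φ X : ℝ} (hφ : 0 ≤ φ) (hX : 1 ≤ X) {B : Set ℝ} (h : Adm φ X B)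
    (hL : 2 ≤ Real.log X) (h3 : (Real.log X) ^ 2 ≤ Real.sqrt X)
    (hpw : ∀ T : ℝ, Real.sqrt X ≤ T → T ≤ X → Spaced X T → Latt φ X T →
      Real.log X * D2 A X T ≤ Cp * (φ * (Real.log X) ^ 2 + (Real.log X) ^ 2 / X) * N2 A X T +
      Cp * Real.log X + Cp * ∫ x in (-Real.log X)..(Real.log X / 2 + 2), hDD A T x)
    (hF1 : IntegrableOn (fun T : ℝ => ∫ x in (-Real.log X)..(Real.log X / 2 + 2), hDD A T x)
      (Set.Ioc 0 X))
    (hF2 : ∫ T in Set.Ioc 0 X, (∫ x in (-Real.log X)..(Real.log X / 2 + 2), hDD A T x) ≤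
      CF * X * Real.log X) :
    Real.log X * ∫ T, GB X B T * D2 A X T ≤
      Cp * (φ * (Real.log X) ^ 2 + (Real.log X) ^ 2 / X) * (∫ T, GB X B T * N2 A X T) +
      Cp * (1 + CF) * X * Real.log X := by
  have hL0 : 0 < Real.log X := by linarith
  have hsX : 0 < Real.sqrt X := Real.sqrt_pos.2 (by linarith)
  set H : ℝ → ℝ := fun T => ∫ x in (-Real.log X)..(Real.log X / 2 + 2), hDD A T x with hH
  have hH0 : ∀ T, 0 ≤ H T := by
    intro T
    apply intervalIntegral.integral_nonneg (by linarith)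
    intro x _
    unfold hDD; positivity
  have hN2i : Integrable (fun T => GB X B T * N2 A X T) := by
    simp_rw [N2_eq h hL0 h3]
    exact integrable_finsetSum _ fun t _ => (ff_int hA hC hW h hL0 t).const_mul _
  have hD2i : Integrable (fun T => GB X B T * D2 A X T) := by
    simp_rw [D2_eq h hL0 h3]
    exact integrable_finsetSum _ fun t _ => (gg_int hA hC hW h hL0 t).const_mul _
  set R : ℝ → ℝ := (Set.Ioc 0 X).indicator (fun T => Cp * Real.log X + Cp * H T) with hR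
  have hRi : Integrable R := by
    rw [hR, integrable_indicator_iff measurableSet_Ioc]
    exact (integrableOn_const (by simp)).add (hF1.const_mul Cp)
  have hci : IntegrableOn (fun _ : ℝ => Cp * Real.log X) (Set.Ioc 0 X) :=
    integrableOn_const (by simp)
  have hRI : ∫ T, R T ≤ Cp * (1 + CF) * X * Real.log X := by
    rw [hR, integral_indicator measurableSet_Ioc,
      integral_add hci (hF1.const_mul Cp), setIntegral_const,
      integral_const_mul, smul_eq_mul, Measure.real, Real.volume_Ioc,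
      ENNReal.toReal_ofReal (by linarith)]
    have := mul_le_mul_of_nonneg_left hF2 hCp.le
    nlinarith
  have hpt : ∀ T, Real.log X * (GB X B T * D2 A X T) ≤
      Cp * (φ * (Real.log X) ^ 2 + (Real.log X) ^ 2 / X) * (GB X B T * N2 A X T) + R T := by
    intro T
    have hN0 := N2_nonneg A X T
    have hG0 := GB_nonneg X B T
    have hG1 := GB_le_one hL0.le B T
    have hR0 : 0 ≤ R T := by
      rw [hR]
      apply Set.indicator_nonneg
      intro T _
      have := hH0 T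
      positivity
    by_cases hd : (Real.log X) ^ 3 ≤ Metric.infDist T B
    · obtain ⟨k1, k2⟩ := adm_supp h hL0 hd
      have hp := hpw T k1 k2 (h.sp T hd) (h.la T hd)
      have hRT : R T = Cp * Real.log X + Cp * H T := by
        rw [hR, Set.indicator_of_mem]
        exact ⟨by linarith, k2⟩
      have hp2 := mul_le_mul_of_nonneg_left hp hG0
      have hHT : ∫ x in (-Real.log X)..(Real.log X / 2 + 2), hDD A T x = H T := rfl
      rw [hHT] at hp2
      have h5 : GB X B T * (Cp * Real.log X + Cp * H T) ≤ 1 * (Cp * Real.log X + Cp * H T) := by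
        apply mul_le_mul_of_nonneg_right hG1
        have := hH0 T
        positivity
      rw [hRT]
      nlinarith
    · rw [GB_zero (not_le.1 hd)]
      simp only [zero_mul, mul_zero, zero_add]
      exact hR0
  calc Real.log X * ∫ T, GB X B T * D2 A X T = ∫ T, Real.log X * (GB X B T * D2 A X T) := by
        rw [integral_const_mul]
    _ ≤ ∫ T, (Cp * (φ * (Real.log X) ^ 2 + (Real.log X) ^ 2 / X) * (GB X B T * N2 A X T) + R T) :=
        integral_mono (hD2i.const_mul _) ((hN2i.const_mul _).add hRi) hpt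
    _ = Cp * (φ * (Real.log X) ^ 2 + (Real.log X) ^ 2 / X) * (∫ T, GB X B T * N2 A X T) +
          ∫ T, R T := by
        rw [integral_add (hN2i.const_mul _) hRi, integral_const_mul]
    _ ≤ _ := by linarith

/-- the energy bound, from the pointwise inequality and the bound for the coefficients -/
theorem energy_of (A : ℕ) (hA : 4 ≤ A)
    (hpw : ∃ C X0 : ℝ, 0 < C ∧ 10 ≤ X0 ∧
      ∀ X : ℝ, X0 ≤ X → ∀ φ : ℝ, 0 ≤ φ → ∀ T : ℝ, Real.sqrt X ≤ T → T ≤ X →
      Spaced X T → Latt φ X T →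
      Real.log X * D2 A X T ≤ C * (φ * (Real.log X) ^ 2 + (Real.log X) ^ 2 / X) * N2 A X T +
        C * Real.log X +
        C * ∫ x in (-Real.log X)..(Real.log X / 2 + 2),
          (‖DD true A (Real.exp x) T‖ ^ 2 + ‖DD false A (Real.exp x) T‖ ^ 2))
    (haa : ∃ C X0 : ℝ, 0 < C ∧ 10 ≤ X0 ∧
      ∀ X : ℝ, X0 ≤ X → ∀ t ∈ Zo, Real.sqrt X / 2 ≤ t → t ≤ 2 * X →
      deriv riemannZeta (1 / 2 + (t : ℂ) * I) ≠ 0 →
      (∀ t' ∈ Zo, |t' - t| ≤ 15 → t' ≠ t → 1 / Real.log X ≤ |t' - t|) →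
      ‖aa t‖ ≤ Real.exp (C * (Real.log X) ^ (3 / 2 : ℝ))) :
    ∃ C η X0 : ℝ, 0 < C ∧ 0 < η ∧
    10 ≤ X0 ∧ ∀ X : ℝ, X0 ≤ X → ∀ φ : ℝ, 0 ≤ φ → φ * Real.log X ≤ η → ∀ B : Set ℝ, Adm φ X B →
    Integrable (fun T => GB X B T * N2 A X T) ∧ ∫ T : ℝ, GB X B T * N2 A X T ≤ C * X := by
  obtain ⟨CW, hCW, hW⟩ := WW_bound A hA
  obtain ⟨c, τ0, hc, hτ0, hτ1, hlow⟩ := WW_low A hA
  obtain ⟨Cp, Xp, hCp, hXp, hpw⟩ := hpw
  obtain ⟨Ca, Xa, hCa, hXa, haa⟩ := haa
  obtain ⟨CF, hCF, hF⟩ := fubini_DD A hA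
  set K1 := ∫ τ, VV (98304 * Real.exp 1 * CW) τ with hK1
  have hK10 : 0 ≤ K1 := by
    apply integral_nonneg
    intro τ
    unfold VV
    positivity
  set K2 := K1 / (2 * τ0 * c ^ 2) with hK2
  have hK20 : 0 ≤ K2 := by positivity
  -- large X
  have hlogT : Tendsto Real.log atTop atTop := Real.tendsto_log_atTop
  have ev1 : ∀ᶠ X in atTop, (2 : ℝ) ≤ Real.log X := hlogT.eventually_ge_atTop 2
  have ev2 : ∀ᶠ X in atTop, (Real.log X) ^ 2 ≤ Real.sqrt X / 2 := by
    have h1 : (fun x : ℝ => Real.log x ^ 2) =o[atTop] fun x => x ^ (1 / 2 : ℝ) := by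
      have := isLittleO_log_rpow_rpow_atTop (s := 1 / 2) 2 (by norm_num)
      refine this.congr_left fun x => ?_
      norm_num
    have h2 := h1.def (show (0 : ℝ) < 1 / 2 by norm_num)
    filter_upwards [h2, eventually_ge_atTop 1] with x hx hx1
    rw [Real.norm_eq_abs, Real.norm_eq_abs, abs_of_nonneg (by positivity),
      abs_of_nonneg (by positivity), ← Real.sqrt_eq_rpow] at hx
    linarith
  have ev3 : ∀ᶠ X in atTop, K2 * Cp * (Real.log X / X) ≤ 1 / 4 := by
    have h1 := Real.isLittleO_log_id_atTop.def (show (0 : ℝ) < 1 / (4 * (K2 * Cp + 1)) by positivity)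
    filter_upwards [h1, eventually_ge_atTop 1] with x hx hx1
    have hx0 : 0 < x := by linarith
    rw [Real.norm_eq_abs, Real.norm_eq_abs, abs_of_nonneg (Real.log_nonneg hx1), id,
      abs_of_nonneg hx0.le] at hx
    have h2 : Real.log x / x ≤ 1 / (4 * (K2 * Cp + 1)) := by
      rw [div_le_iff₀ hx0]; exact hx
    calc K2 * Cp * (Real.log x / x) ≤ (K2 * Cp + 1) * (1 / (4 * (K2 * Cp + 1))) := by
          apply mul_le_mul (by linarith) h2 _ (by positivity)
          have := Real.log_nonneg hx1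
          positivity
      _ = 1 / 4 := by field_simp
  have ev4 : ∀ᶠ X in atTop, 2 * Ca + 3 + K1 ≤ Real.sqrt (Real.log X) :=
    (Real.tendsto_sqrt_atTop.comp hlogT).eventually_ge_atTop _
  obtain ⟨Y, hY⟩ := eventually_atTop.1 (ev1.and (ev2.and (ev3.and ev4)))
  refine ⟨2 * (K2 * Cp * (1 + CF) + 1), 1 / (4 * (K2 * Cp + 1)), max Y (max Xp Xa), by positivity,
    by positivity, ?_, ?_⟩
  · exact hXp.trans ((le_max_left _ _).trans (le_max_right _ _))
  intro X hX φ hφ hφL B hB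
  have hXY : Y ≤ X := (le_max_left _ _).trans hX
  have hXXp : Xp ≤ X := ((le_max_left _ _).trans (le_max_right _ _)).trans hX
  have hXXa : Xa ≤ X := ((le_max_right _ _).trans (le_max_right _ _)).trans hX
  obtain ⟨hL2, hsq, hs3, hs4⟩ := hY X hXY
  have hX1 : 1 ≤ X := by linarith
  have hX0 : 0 < X := by linarith
  have hL0 : 0 < Real.log X := by linarith
  have hsq' : (Real.log X) ^ 2 ≤ Real.sqrt X := by
    have := Real.sqrt_nonneg X
    linarith
  have hN2i : Integrable (fun T => GB X B T * N2 A X T) := by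
    simp_rw [N2_eq hB hL0 hsq']
    exact integrable_finsetSum _ fun t _ => (ff_int hA hCW hW hB hL0 t).const_mul _
  refine ⟨hN2i, ?_⟩
  set IN := ∫ T, GB X B T * N2 A X T with hIN
  set ID := ∫ T, GB X B T * D2 A X T with hID
  have hIN0 : 0 ≤ IN := integral_nonneg fun T => mul_nonneg (GB_nonneg X B T) (N2_nonneg A X T)
  have hINs : IN = ∑ t ∈ Z0 X, ‖aa t‖ ^ 2 * ∫ T, ff A X B t T := by
    rw [hIN]
    simp_rw [N2_eq hB hL0 hsq']
    rw [integral_finsetSum _ fun t _ => (ff_int hA hCW hW hB hL0 t).const_mul _]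
    apply Finset.sum_congr rfl
    intro t _
    rw [integral_const_mul]
  have hIDs : ID = ∑ t ∈ Z0 X, ‖aa t‖ ^ 2 * ∫ T, gg A X B t T := by
    rw [hID]
    simp_rw [D2_eq hB hL0 hsq']
    rw [integral_finsetSum _ fun t _ => (gg_int hA hCW hW hB hL0 t).const_mul _]
    apply Finset.sum_congr rfl
    intro t _
    rw [integral_const_mul]
  have hlowD : c ^ 2 * ∑ t ∈ Z0 X, ‖aa t‖ ^ 2 * Jt τ0 X B t ≤ ID := by
    rw [hIDs, Finset.mul_sum]
    apply Finset.sum_le_sum
    intro t _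
    have := gg_lower hA hCW hW hc hτ1 hlow hB hL2 t
    have h2 := mul_le_mul_of_nonneg_left this (sq_nonneg ‖aa t‖)
    linarith
  have hcs := chi_sum hB hL2 hsq hX1 (M := Real.exp (Ca * (Real.log X) ^ (3 / 2 : ℝ)))
    (fun t ht h1 h2 h3 h4 => haa X hXXa t ht h1 h2 h3 h4)
  have hupN : IN ≤ K2 * ID + X := by
    have h1 : IN ≤ ∑ t ∈ Z0 X, ‖aa t‖ ^ 2 * ((Jt τ0 X B t / (2 * τ0) +
        Real.exp (-(Real.log X) ^ 2 + Real.log X) * chi X B t) * K1) := by
      rw [hINs]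
      apply Finset.sum_le_sum
      intro t _
      exact mul_le_mul_of_nonneg_left (ff_integral_le hA hCW hW hB hL2 hτ0 hτ1 t) (sq_nonneg _)
    have h2 : ∑ t ∈ Z0 X, ‖aa t‖ ^ 2 * ((Jt τ0 X B t / (2 * τ0) +
        Real.exp (-(Real.log X) ^ 2 + Real.log X) * chi X B t) * K1) =
        K1 / (2 * τ0) * (∑ t ∈ Z0 X, ‖aa t‖ ^ 2 * Jt τ0 X B t) +
        Real.exp (-(Real.log X) ^ 2 + Real.log X) * K1 *
          ∑ t ∈ Z0 X, ‖aa t‖ ^ 2 * chi X B t := by
      rw [Finset.mul_sum, Finset.mul_sum, ← Finset.sum_add_distrib]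
      apply Finset.sum_congr rfl
      intro t _
      ring
    have h3 : K1 / (2 * τ0) * (∑ t ∈ Z0 X, ‖aa t‖ ^ 2 * Jt τ0 X B t) ≤ K2 * ID := by
      have e : K1 / (2 * τ0) * (∑ t ∈ Z0 X, ‖aa t‖ ^ 2 * Jt τ0 X B t) =
          K2 * (c ^ 2 * ∑ t ∈ Z0 X, ‖aa t‖ ^ 2 * Jt τ0 X B t) := by
        rw [hK2]; field_simp
      rw [e]
      exact mul_le_mul_of_nonneg_left hlowD hK20
    have h4 : Real.exp (-(Real.log X) ^ 2 + Real.log X) * K1 *
          ∑ t ∈ Z0 X, ‖aa t‖ ^ 2 * chi X B t ≤ X := by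
      calc _ ≤ Real.exp (-(Real.log X) ^ 2 + Real.log X) * K1 *
            ((X * Real.log X + 1) * (Real.exp (Ca * (Real.log X) ^ (3 / 2 : ℝ))) ^ 2) := by
            gcongr
        _ = (X * Real.log X + 1) * (Real.exp (Ca * (Real.log X) ^ (3 / 2 : ℝ))) ^ 2 *
      Real.exp (-(Real.log X) ^ 2 + Real.log X) * K1 := by ring
        _ ≤ X := tail_small hCa hK10 hX1 hs4
    linarith
  have hD := D2_upper hA hCW hW hCp hφ hX1 hB hL2 hsq'
    (fun T h1 h2 h3 h4 => hpw X hXXp φ hφ T h1 h2 h3 h4) (hF X hX1 (by linarith)).1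
    (hF X hX1 (by linarith)).2
  -- divide by log X
  have hD' : ID ≤ Cp * (φ * Real.log X + Real.log X / X) * IN + Cp * (1 + CF) * X := by
    have e : Cp * (φ * (Real.log X) ^ 2 + (Real.log X) ^ 2 / X) * IN +
      Cp * (1 + CF) * X * Real.log X = Real.log X *
        (Cp * (φ * Real.log X + Real.log X / X) * IN + Cp * (1 + CF) * X) := by
      field_simp
    rw [← hID, ← hIN, e] at hD
    exact le_of_mul_le_mul_left hD hL0
  have hη : K2 * Cp * (φ * Real.log X) ≤ 1 / 4 := by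
    calc K2 * Cp * (φ * Real.log X) ≤ (K2 * Cp + 1) * (1 / (4 * (K2 * Cp + 1))) := by
          apply mul_le_mul (by linarith) hφL (by positivity) (by positivity)
      _ = 1 / 4 := by field_simp
  have hfin : IN ≤ 1 / 2 * IN + (K2 * Cp * (1 + CF) + 1) * X := by
    calc IN ≤ K2 * ID + X := hupN
      _ ≤ K2 * (Cp * (φ * Real.log X + Real.log X / X) * IN + Cp * (1 + CF) * X) + X := by
          gcongr
      _ = (K2 * Cp * (φ * Real.log X) + K2 * Cp * (Real.log X / X)) * IN +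
            (K2 * Cp * (1 + CF) + 1) * X := by ring
      _ ≤ (1 / 4 + 1 / 4) * IN + (K2 * Cp * (1 + CF) + 1) * X := by gcongr
      _ = _ := by ring
  linarith

end H345
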