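import Pool.Agent.H345R2.Defs3

set_option autoImplicit false

open Complex Filter Topology Set MeasureTheory

namespace H345

lemma KK_eq (v : ℝ) : KK v = (1 + v ^ 2)⁻¹ := by rw [KK, one_div]

lemma KK_pos (v : ℝ) : 0 < KK v := by rw [KK]; positivity

lemma KK_le_one (v : ℝ) : KK v ≤ 1 := by
  rw [KK, div_le_one (by positivity)]
  nlinarith [sq_nonneg v]

lemma KK_cont : Continuous KK := by
  have : KK = fun v => (1 + v ^ 2)⁻¹ := funext KK_eq
  rw [this]
  exact Continuous.inv₀ (by fun_prop) fun v => by positivity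

lemma KK_int : Integrable KK := by
  have : KK = fun v => (1 + v ^ 2)⁻¹ := funext KK_eq
  rw [this]
  exact integrable_inv_one_add_sq

lemma KK_integral : ∫ v, KK v = Real.pi := by
  have : KK = fun v => (1 + v ^ 2)⁻¹ := funext KK_eq
  rw [this]
  exact integral_univ_inv_one_add_sq

lemma KK_neg (v : ℝ) : KK (-v) = KK v := by rw [KK, KK, neg_sq]

lemma KK_shift {u d : ℝ} (hd : |d| ≤ 1) : KK (u - d) ≤ 3 * KK u := by
  rw [KK, KK, mul_one_div, div_le_div_iff₀ (by positivity) (by positivity)]
  have h : d ^ 2 ≤ 1 := by rw [← sq_abs]; nlinarith [abs_nonneg d]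
  nlinarith [sq_nonneg (u - 2 * d)]

lemma KK_tail {a : ℝ} (ha : 0 < a) : ∫ v in Set.Ioi a, KK v ≤ 1 / a := by
  have : KK = fun v => (1 + v ^ 2)⁻¹ := funext KK_eq
  rw [this]
  rw [integral_Ioi_inv_one_add_sq]
  have h1 := Real.arctan_inv_of_pos ha
  have h2 : Real.arctan a⁻¹ ≤ a⁻¹ := by
    have h3 := Real.le_tan (x := Real.arctan a⁻¹) (Real.arctan_nonneg.2 (by positivity))
      (Real.arctan_lt_pi_div_two _)
    rwa [Real.tan_arctan] at h3
  rw [one_div]; linarith

lemma KK_conv (u v : ℝ) : KK v * KK (u - v) ≤ 4 * KK u * (KK v + KK (u - v)) := by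
  have hpv := KK_pos v
  have hpu := KK_pos (u - v)
  have hp := KK_pos u
  rcases le_total (|u| / 2) |v| with h | h
  · have h1 : KK v ≤ 4 * KK u := by
      rw [KK, KK, mul_one_div, div_le_div_iff₀ (by positivity) (by positivity)]
      have : u ^ 2 ≤ 4 * v ^ 2 := by
        rw [← sq_abs u, ← sq_abs v]; nlinarith [abs_nonneg u, abs_nonneg v]
      linarith
    nlinarith [mul_le_mul_of_nonneg_right h1 hpu.le]
  · have h1 : KK (u - v) ≤ 4 * KK u := by
      rw [KK, KK, mul_one_div, div_le_div_iff₀ (by positivity) (by positivity)]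
      have h2 : |u| / 2 ≤ |u - v| := by
        have := abs_sub_abs_le_abs_sub u v
        linarith
      have : u ^ 2 ≤ 4 * (u - v) ^ 2 := by
        rw [← sq_abs u, ← sq_abs (u - v)]; nlinarith [abs_nonneg u, abs_nonneg (u - v)]
      linarith
    nlinarith [mul_le_mul_of_nonneg_left h1 hpv.le]

lemma KK_conv_int (u : ℝ) : ∫ v, KK v * KK (u - v) ≤ 8 * Real.pi * KK u := by
  have hi1 : Integrable (fun v => KK (u - v)) := KK_int.comp_sub_left u
  have hi : Integrable (fun v => 4 * KK u * (KK v + KK (u - v))) := (KK_int.add hi1).const_mul _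
  calc ∫ v, KK v * KK (u - v) ≤ ∫ v, 4 * KK u * (KK v + KK (u - v)) := by
        apply integral_mono_of_nonneg
        · exact Eventually.of_forall fun v => (mul_pos (KK_pos v) (KK_pos _)).le
        · exact hi
        · exact Eventually.of_forall fun v => KK_conv u v
    _ = 8 * Real.pi * KK u := by
        rw [integral_const_mul, integral_add KK_int hi1, integral_sub_left_eq_self (fun v => KK v),
          KK_integral]
        ring

/-- shift of the Cauchy kernel -/
lemma shift_KK {F : ℝ → ℝ} (hF : Continuous F) (h0 : ∀ u, 0 ≤ F u) {M : ℝ} (hM : ∀ u, F u ≤ M)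
    {d : ℝ} (hd : |d| ≤ 1) : ∫ u, KK u * F (u + d) ≤ 3 * ∫ u, KK u * F u := by
  have e : ∫ u, KK u * F (u + d) = ∫ u, KK (u - d) * F u := by
    have := integral_sub_right_eq_self (fun u => KK u * F (u + d)) d (μ := volume)
    rw [← this]
    simp
  have hi : Integrable (fun u => KK u * F u) := by
    refine Integrable.mono' (KK_int.mul_const M) (KK_cont.mul hF).aestronglyMeasurable ?_
    refine Eventually.of_forall fun u => ?_
    rw [Real.norm_eq_abs, abs_of_nonneg (mul_nonneg (KK_pos u).le (h0 u))]
    exact mul_le_mul_of_nonneg_left (hM u) (KK_pos u).le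
  rw [e, ← integral_const_mul]
  apply integral_mono_of_nonneg
  · exact Eventually.of_forall fun u => mul_nonneg (KK_pos _).le (h0 u)
  · exact hi.const_mul 3
  · refine Eventually.of_forall fun u => ?_
    simp only
    rw [← mul_assoc]
    exact mul_le_mul_of_nonneg_right (KK_shift hd) (h0 u)

/-- convolution of the Cauchy kernel with itself -/
lemma conv_KK {F : ℝ → ℝ} (hF : Continuous F) (h0 : ∀ u, 0 ≤ F u) {M : ℝ} (hM : ∀ u, F u ≤ M) :
    Integrable (fun v => KK v * ∫ w, KK w * F (v + w)) ∧
    ∫ v, KK v * ∫ w, KK w * F (v + w) ≤ 8 * Real.pi * ∫ u, KK u * F u := by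
  have hM0 : 0 ≤ M := (h0 0).trans (hM 0)
  have hi : Integrable (fun u => KK u * F u) := by
    refine Integrable.mono' (KK_int.mul_const M) (KK_cont.mul hF).aestronglyMeasurable ?_
    refine Eventually.of_forall fun u => ?_
    rw [Real.norm_eq_abs, abs_of_nonneg (mul_nonneg (KK_pos u).le (h0 u))]
    exact mul_le_mul_of_nonneg_left (hM u) (KK_pos u).le
  -- joint integrability of KK v * KK (u - v) * F u
  have hjoint : Integrable (fun p : ℝ × ℝ => KK p.1 * KK (p.2 - p.1) * F p.2)
      (volume.prod volume) := by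
    have hbase : Integrable (fun p : ℝ × ℝ => KK p.1 * (KK p.2 * M)) (volume.prod volume) :=
      KK_int.mul_prod (KK_int.mul_const M)
    have hshear : Integrable (fun p : ℝ × ℝ => KK p.1 * (KK (p.2 - p.1) * M))
        (volume.prod volume) := by
      have hmp := measurePreserving_prod_sub (volume : Measure ℝ) (volume : Measure ℝ)
      have := hmp.integrable_comp_of_integrable hbase
      exact this
    refine Integrable.mono' hshear ?_ ?_
    · apply Continuous.aestronglyMeasurable
      exact ((KK_cont.comp continuous_fst).mul (KK_cont.comp (continuous_snd.sub continuous_fst))).mul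
        (hF.comp continuous_snd)
    · refine Eventually.of_forall fun p => ?_
      have p1 := (KK_pos p.1).le
      have p2 := (KK_pos (p.2 - p.1)).le
      rw [Real.norm_eq_abs, abs_of_nonneg (mul_nonneg (mul_nonneg p1 p2) (h0 _)), mul_assoc]
      exact mul_le_mul_of_nonneg_left (mul_le_mul_of_nonneg_left (hM _) p2) p1
  have e1 : ∀ v, KK v * ∫ w, KK w * F (v + w) = ∫ u, KK v * KK (u - v) * F u := by
    intro v
    rw [← integral_const_mul]
    have := integral_sub_right_eq_self (fun w => KK v * (KK w * F (v + w))) v (μ := volume)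
    rw [← this]
    congr 1
    funext u
    rw [add_sub_cancel, mul_assoc]
  have e2 : (fun v => KK v * ∫ w, KK w * F (v + w)) = fun v => ∫ u, KK v * KK (u - v) * F u :=
    funext e1
  rw [e2]
  refine ⟨hjoint.integral_prod_left, ?_⟩
  rw [integral_integral_swap (f := fun v u => KK v * KK (u - v) * F u) hjoint]
  have hright := hjoint.integral_prod_right
  calc ∫ u, ∫ v, KK v * KK (u - v) * F u ≤ ∫ u, 8 * Real.pi * (KK u * F u) := by
        apply integral_mono hright (hi.const_mul _)
        intro u
        simp only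
        rw [integral_mul_const, ← mul_assoc]
        exact mul_le_mul_of_nonneg_right (KK_conv_int u) (h0 u)
    _ = 8 * Real.pi * ∫ u, KK u * F u := by rw [integral_const_mul]

end H345
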