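import Pool.Agent.H345R2.Defs3
import Pool.Agent.H345R2.KKfacts
import Pool.Agent.H345R2.Energy
import Pool.Agent.H345R2.Window

set_option autoImplicit false
set_option maxHeartbeats 1000000

open Complex Filter Topology Set MeasureTheory

namespace H345

/-! ### the weight `GB2` -/

lemma GB2_nonneg (X : ℝ) (B : Set ℝ) (T : ℝ) : 0 ≤ GB2 X B T := by
  unfold GB2; split_ifs
  · exact (Real.exp_pos _).le
  · exact le_rfl

lemma GB2_le_one {X : ℝ} (hX : 0 ≤ Real.log X) (B : Set ℝ) (T : ℝ) : GB2 X B T ≤ 1 := by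
  unfold GB2; split_ifs
  · apply Real.exp_le_one_iff.2
    apply div_nonpos_of_nonpos_of_nonneg
    · have := le_max_left 0 (4 * (Real.log X) ^ 3 - Metric.infDist T B)
      linarith
    · linarith
  · exact zero_le_one

lemma GB2_zero {X : ℝ} {B : Set ℝ} {T : ℝ} (h : Metric.infDist T B < 2 * (Real.log X) ^ 3) :
    GB2 X B T = 0 := by
  unfold GB2; rw [if_neg (not_le.2 h)]

lemma GB2_meas (X : ℝ) (B : Set ℝ) : Measurable (GB2 X B) := by
  unfold GB2
  have hc : Continuous (fun T : ℝ => Metric.infDist T B) := Metric.continuous_infDist_pt B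
  apply Measurable.ite
  · exact measurableSet_le measurable_const hc.measurable
  · apply Continuous.measurable
    exact Real.continuous_exp.comp (by fun_prop)
  · exact measurable_const

lemma GB2_le_GB {X : ℝ} (hX : 0 < Real.log X) (B : Set ℝ) (T : ℝ) : GB2 X B T ≤ GB X B T := by
  unfold GB2; split_ifs with h
  · unfold GB
    have hU : 0 < (Real.log X) ^ 3 := by positivity
    rw [if_pos (by linarith)]
    apply Real.exp_le_exp.2
    apply div_le_div_of_nonneg_right _ (by linarith)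
    apply neg_le_neg
    exact max_le_max le_rfl (by linarith)
  · exact GB_nonneg X B T

lemma GB2_shift {X : ℝ} {B : Set ℝ} {T T' : ℝ} (hL : 2 ≤ Real.log X)
    (hT' : 2 * (Real.log X) ^ 3 ≤ Metric.infDist T' B) (h : |T' - T| ≤ (Real.log X) ^ 2) :
    GB2 X B T' ≤ Real.exp (|T' - T| / (2 * Real.log X)) * GB2 X B T +
      Real.exp (-(Real.log X) ^ 2 + Real.log X) := by
  set L := Real.log X with hLdef
  have hd1 : Metric.infDist T' B ≤ Metric.infDist T B + |T' - T| := by
    have := Metric.infDist_le_infDist_add_dist (s := B) (x := T') (y := T)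
    rwa [Real.dist_eq] at this
  have hd2 : Metric.infDist T B ≤ Metric.infDist T' B + |T' - T| := by
    have := Metric.infDist_le_infDist_add_dist (s := B) (x := T) (y := T')
    rwa [Real.dist_eq, abs_sub_comm] at this
  have hL0 : 0 < 2 * L := by linarith
  rcases le_or_gt (2 * L ^ 3) (Metric.infDist T B) with hc | hc
  · have h1 : GB2 X B T' ≤ Real.exp (|T' - T| / (2 * L)) * GB2 X B T := by
      unfold GB2
      rw [← hLdef, if_pos hT', if_pos hc, ← Real.exp_add]
      apply Real.exp_le_exp.2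
      rw [← add_div]
      apply div_le_div_of_nonneg_right _ hL0.le
      have : max 0 (4 * L ^ 3 - Metric.infDist T B) ≤
          max 0 (4 * L ^ 3 - Metric.infDist T' B) + |T' - T| := by
        apply max_le
        · have := le_max_left 0 (4 * L ^ 3 - Metric.infDist T' B)
          have := abs_nonneg (T' - T)
          linarith
        · have := le_max_right 0 (4 * L ^ 3 - Metric.infDist T' B)
          linarith
      linarith
    have := Real.exp_pos (-L ^ 2 + L)
    linarith
  · have h1 : GB2 X B T' ≤ Real.exp (-L ^ 2 + L) := by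
      unfold GB2
      rw [← hLdef, if_pos hT']
      apply Real.exp_le_exp.2
      rw [div_le_iff₀ hL0]
      have h2 := le_max_right 0 (4 * L ^ 3 - Metric.infDist T' B)
      nlinarith
    have := GB2_nonneg X B T
    have h3 : 0 ≤ Real.exp (|T' - T| / (2 * L)) * GB2 X B T := by positivity
    linarith

/-! ### the local energy as an integral of an explicit measurable function -/

lemma finsum_Zw' {X T : ℝ} (h1 : Real.sqrt X ≤ T) (h2 : T ≤ X) (h3 : (Real.log X) ^ 2 ≤ Real.sqrt X)
    (k : ℝ → ℂ) : ∑ᶠ t ∈ Zw X T, k t =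
      ∑ t ∈ Z0 X, if |t - T| ≤ (Real.log X) ^ 2 then k t else 0 := by
  have hset : Zw X T = ((Z0 X).filter (fun t => |t - T| ≤ (Real.log X) ^ 2) : Finset ℝ) := by
    ext t
    rw [Finset.mem_coe, Finset.mem_filter, mem_Z0]
    unfold Zw
    rw [mem_inter_iff, mem_Icc, abs_le]
    have h0 := Real.sqrt_nonneg X
    constructor
    · rintro ⟨h, h4, h5⟩
      exact ⟨⟨h, by linarith, by linarith⟩, by linarith, by linarith⟩
    · rintro ⟨⟨h, _, _⟩, h4, h5⟩
      exact ⟨h, by linarith, by linarith⟩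
  rw [hset, finsum_mem_coe_finset, Finset.sum_filter]

noncomputable def FZ (A : ℕ) (X s v : ℝ) : ℝ :=
  KK v * ‖∑ t ∈ Z0 X, if |t - s| ≤ (Real.log X) ^ 2 then
    WW A (((t - s : ℝ) : ℂ) * I) * cexp ((((v + Real.log s) * (t - s) : ℝ) : ℂ) * I) * aa t
      else 0‖ ^ 2

noncomputable def JF (A : ℕ) (X s : ℝ) : ℝ := ∫ v, FZ A X s v

lemma WW_cont (A : ℕ) (hA : 4 ≤ A) : Continuous (fun τ : ℝ => WW A ((τ : ℂ) * I)) := by
  apply continuous_iff_continuousAt.2
  intro τ
  have h1 : ContinuousAt (WW A) ((τ : ℂ) * I) := by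
    apply (WW_diff A _ _).continuousAt
    simp
    omega
  exact ContinuousAt.comp (f := fun τ : ℝ => (τ : ℂ) * I) h1 (by fun_prop)

lemma FZ_meas (A : ℕ) (hA : 4 ≤ A) (X : ℝ) : Measurable (fun p : ℝ × ℝ => FZ A X p.1 p.2) := by
  unfold FZ
  apply Measurable.mul (KK_cont.measurable.comp measurable_snd)
  apply Measurable.pow_const
  apply Measurable.norm
  apply Finset.measurable_fun_sum
  intro t _
  apply Measurable.ite
  · exact (isClosed_le (by fun_prop : Continuous fun p : ℝ × ℝ => |t - p.1|)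
      continuous_const).measurableSet
  · apply Measurable.mul _ measurable_const
    apply Measurable.mul
    · have h1 : Continuous (fun p : ℝ × ℝ => t - p.1) := by fun_prop
      exact ((WW_cont A hA).comp h1).measurable
    · apply Complex.measurable_exp.comp
      apply Measurable.mul _ measurable_const
      apply Complex.measurable_ofReal.comp
      exact (measurable_snd.add (Real.measurable_log.comp measurable_fst)).mul
        (measurable_const.sub measurable_fst)
  · exact measurable_const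

lemma JF_meas (A : ℕ) (hA : 4 ≤ A) (X : ℝ) : Measurable (JF A X) := by
  have h : StronglyMeasurable (Function.uncurry (FZ A X)) := (FZ_meas A hA X).stronglyMeasurable
  exact (h.integral_prod_right).measurable

lemma JZ_eq {A : ℕ} {X s : ℝ} (hs0 : 0 < s) (h1 : Real.sqrt X ≤ s) (h2 : s ≤ X)
    (h3 : (Real.log X) ^ 2 ≤ Real.sqrt X) : JZ A X s = JF A X s := by
  unfold JZ JF FZ
  congr 1
  funext v
  congr 3
  unfold ZZ
  rw [finsum_Zw' h1 h2 h3]
  apply Finset.sum_congr rfl
  intro t _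
  have hy : 0 < Real.exp v * s := mul_pos (Real.exp_pos v) hs0
  rw [cpow_I_eq hy, Real.log_mul (Real.exp_pos v).ne' hs0.ne', Real.log_exp]
  simp only [WE, if_true]

lemma JZ_nonneg (A : ℕ) (X s : ℝ) : 0 ≤ JZ A X s :=
  integral_nonneg fun v => mul_nonneg (KK_pos v).le (by positivity)

lemma JZ_le {A : ℕ} {X s M C1 : ℝ} (hs : 0 < s) (hM0 : 0 ≤ M)
    (hsum : ∑ t ∈ (Zw_finite X s).toFinset, ‖WW A (((t - s : ℝ) : ℂ) * I)‖ ≤ C1)
    (hM : ∀ t ∈ Zw X s, ‖aa t‖ ≤ M) : JZ A X s ≤ Real.pi * (C1 * M) ^ 2 := by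
  have hz : ∀ v : ℝ, ‖ZZ true A X (Real.exp v * s) s‖ ≤ C1 * M := by
    intro v
    unfold ZZ
    rw [finsum_mem_eq_finite_toFinset_sum _ (Zw_finite X s)]
    have hy : 0 < Real.exp v * s := mul_pos (Real.exp_pos v) hs
    calc _ ≤ ∑ t ∈ (Zw_finite X s).toFinset, ‖WW A (((t - s : ℝ) : ℂ) * I)‖ * M := by
          apply norm_sum_le_of_le
          intro t ht
          rw [norm_mul, norm_mul, norm_cpow_I hy, mul_one, norm_WE]
          exact mul_le_mul_of_nonneg_left (hM t ((Set.Finite.mem_toFinset _).1 ht)) (norm_nonneg _)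
      _ = (∑ t ∈ (Zw_finite X s).toFinset, ‖WW A (((t - s : ℝ) : ℂ) * I)‖) * M := by
          rw [Finset.sum_mul]
      _ ≤ C1 * M := mul_le_mul_of_nonneg_right hsum hM0
  unfold JZ
  calc ∫ v : ℝ, KK v * ‖ZZ true A X (Real.exp v * s) s‖ ^ 2 ≤ ∫ v : ℝ, KK v * (C1 * M) ^ 2 := by
        apply integral_mono_of_nonneg
        · exact Eventually.of_forall fun v => mul_nonneg (KK_pos v).le (by positivity)
        · exact KK_int.mul_const _
        · refine Eventually.of_forall fun v => ?_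
          exact mul_le_mul_of_nonneg_left (pow_le_pow_left₀ (norm_nonneg _) (hz v) 2) (KK_pos v).le
    _ = Real.pi * (C1 * M) ^ 2 := by rw [integral_mul_const, KK_integral]

/-- the a priori bound times the small weight is at most one -/
lemma tail_one {Ca C1 X : ℝ} (hCa : 0 < Ca) (hC1 : 0 ≤ C1) (hX : 1 ≤ X)
    (hr : 2 * Ca + 4 + Real.pi * C1 ^ 2 ≤ Real.sqrt (Real.log X)) :
    X * (Real.exp (-(Real.log X) ^ 2 + Real.log X) *
      (Real.pi * ((C1 * Real.log X) * Real.exp (Ca * (Real.log X) ^ (3 / 2 : ℝ))) ^ 2)) ≤ 1 := by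
  set L := Real.log X with hLd
  have hL0 : 0 ≤ L := Real.log_nonneg hX
  set r := Real.sqrt L with hrd
  set K1 := Real.pi * C1 ^ 2 with hK1
  have hK10 : 0 ≤ K1 := by positivity
  have hr2 : r ^ 2 = L := Real.sq_sqrt hL0
  have hr3 : 4 ≤ r := by linarith
  have hL32 : L ^ (3 / 2 : ℝ) = r ^ 3 := by
    rw [hrd, Real.sqrt_eq_rpow, ← Real.rpow_natCast, ← Real.rpow_mul hL0]
    norm_num
  have hXe : X = Real.exp L := by rw [hLd, Real.exp_log (by linarith)]
  have h1 : L ^ 2 ≤ Real.exp (2 * L) := by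
    have h := Real.add_one_le_exp L
    calc L ^ 2 ≤ (Real.exp L) ^ 2 := pow_le_pow_left₀ hL0 (by linarith) 2
      _ = Real.exp (2 * L) := by rw [← Real.exp_nat_mul]; norm_num
  have h2 : K1 ≤ Real.exp K1 := by linarith [Real.add_one_le_exp K1]
  have hexp : L + (-L ^ 2 + L) + K1 + 2 * L + 2 * (Ca * r ^ 3) ≤ 0 := by
    have h4 : L ^ 2 = r * r ^ 3 := by rw [← hr2]; ring
    have h5 : (2 * Ca + 4 + K1) * r ^ 3 ≤ r * r ^ 3 :=
      mul_le_mul_of_nonneg_right hr (by positivity)
    have h6 : L ≤ r ^ 3 := by rw [← hr2]; nlinarith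
    have h7 : 1 ≤ r ^ 3 := by
      have : (1 : ℝ) ≤ r := by linarith
      exact one_le_pow₀ this
    have h8 : K1 ≤ K1 * r ^ 3 := by nlinarith
    nlinarith
  have e : Real.exp (Ca * r ^ 3) ^ 2 = Real.exp (2 * (Ca * r ^ 3)) := by
    rw [← Real.exp_nat_mul]; norm_num
  calc X * (Real.exp (-L ^ 2 + L) *
      (Real.pi * ((C1 * L) * Real.exp (Ca * L ^ (3 / 2 : ℝ))) ^ 2))
      = Real.exp L * Real.exp (-L ^ 2 + L) * (K1 * L ^ 2 * Real.exp (2 * (Ca * r ^ 3))) := by
        rw [hL32, mul_pow, e, hK1, ← hXe]; ring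
    _ ≤ Real.exp L * Real.exp (-L ^ 2 + L) *
        (Real.exp K1 * Real.exp (2 * L) * Real.exp (2 * (Ca * r ^ 3))) := by gcongr
    _ = Real.exp (L + (-L ^ 2 + L) + K1 + 2 * L + 2 * (Ca * r ^ 3)) := by
        rw [Real.exp_add (L + (-L ^ 2 + L) + K1 + 2 * L), Real.exp_add (L + (-L ^ 2 + L) + K1),
          Real.exp_add (L + (-L ^ 2 + L)), Real.exp_add L (-L ^ 2 + L)]
        ring
    _ ≤ 1 := Real.exp_le_one_iff.2 hexp

end H345
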