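import Pool.Agent.H345R2.Defs2

open Complex Filter Topology Set MeasureTheory

namespace H345

/-- Cauchy kernel -/
noncomputable def KK (v : ℝ) : ℝ := 1 / (1 + v ^ 2)

/-- local energy of the zero sums around the curve `y = T` -/
noncomputable def JZ (A : ℕ) (X T : ℝ) : ℝ :=
  ∫ v : ℝ, KK v * ‖ZZ true A X (Real.exp v * T) T‖ ^ 2

/-- the corresponding quantity for Dirichlet sums of length at most `T` -/
noncomputable def HH (A : ℕ) (T : ℝ) : ℝ :=
  ∫ v in Set.Iic (0 : ℝ), KK v * ‖DD true A (Real.exp v * T) T‖ ^ 2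

/-- a smaller weight than `GB` -/
noncomputable def GB2 (X : ℝ) (B : Set ℝ) (T : ℝ) : ℝ :=
  if 2 * (Real.log X) ^ 3 ≤ Metric.infDist T B then
    Real.exp (-(max 0 (4 * (Real.log X) ^ 3 - Metric.infDist T B)) / (2 * Real.log X)) else 0

/-- sum over integer translates -/
noncomputable def SZ (X : ℝ) (F : ℤ → ℝ) : ℝ :=
  ∑ k ∈ Finset.Icc (-⌊(Real.log X) ^ 2⌋) ⌊(Real.log X) ^ 2⌋, Real.exp (-|(k : ℝ)| / 4) * F k

end H345
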