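import Pool.Agent.H370R2.Rect
import Pool.Agent.H345R2.Defs

set_option autoImplicit false

open Complex Filter Topology Set MeasureTheory

namespace H345

open H370 (RI Bd Bd_sub Bd_not_Ioo RI_add RI_congr RI_const_mul RI_zero RI_inv mk_eq)

/-- the residue theorem for a quotient with simple poles -/
lemma residue_simple {U : Set ℂ} (hU : IsOpen U) {a b c d : ℝ} (hab : a < b) (hcd : c < d)
    (hKU : Set.Icc a b ×ℂ Set.Icc c d ⊆ U) (n : ℕ) : ∀ (F G : ℂ → ℂ) (Z : Finset ℂ), Z.card = n →
      DifferentiableOn ℂ F U → DifferentiableOn ℂ G U →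
      (∀ s ∈ Set.Icc a b ×ℂ Set.Icc c d, F s = 0 ↔ s ∈ Z) →
      (∀ s ∈ Z, s ∈ Set.Ioo a b ×ℂ Set.Ioo c d ∧ deriv F s ≠ 0) →
      RI a b c d (fun s => G s / F s) = 2 * Real.pi * I * ∑ s ∈ Z, G s / deriv F s := by
  induction n with
  | zero =>
    intro F G Z hZ hF hG hz _
    rw [Finset.card_eq_zero] at hZ
    subst hZ
    simp only [Finset.sum_empty, mul_zero]
    apply RI_zero hab.le hcd.le
    apply (hG.mono hKU).div (hF.mono hKU)
    intro s hs h0
    simpa using (hz s hs).1 h0
  | succ n ih =>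
    intro F G Z hZ hF hG hz hz2
    obtain ⟨ρ, hρ⟩ : Z.Nonempty := Finset.card_pos.1 (by omega)
    obtain ⟨hρI, hρd⟩ := hz2 ρ hρ
    have hρK : ρ ∈ Set.Icc a b ×ℂ Set.Icc c d :=
      ⟨Ioo_subset_Icc_self hρI.1, Ioo_subset_Icc_self hρI.2⟩
    have hρU : U ∈ 𝓝 ρ := hU.mem_nhds (hKU hρK)
    have hFρ : F ρ = 0 := (hz ρ hρK).2 hρ
    set F1 := dslope F ρ with hF1
    have hF1d : DifferentiableOn ℂ F1 U := (Complex.differentiableOn_dslope hρU).2 hF
    have hF1ρ : F1 ρ = deriv F ρ := dslope_same _ _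
    have hFF1 : ∀ s, F s = (s - ρ) * F1 s := by
      intro s
      have := sub_smul_dslope F ρ s
      rw [smul_eq_mul, hFρ, sub_zero] at this
      exact this.symm
    set κ := G ρ / F1 ρ with hκ
    have hF1ρ0 : F1 ρ ≠ 0 := by rw [hF1ρ]; exact hρd
    set G2 := dslope (fun s => G s - κ * F1 s) ρ with hG2
    have hG2d : DifferentiableOn ℂ G2 U :=
      (Complex.differentiableOn_dslope hρU).2 (hG.sub (hF1d.const_mul κ))
    have hG2e : ∀ s, G s - κ * F1 s = (s - ρ) * G2 s := by
      intro s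
      have := sub_smul_dslope (fun s => G s - κ * F1 s) ρ s
      rw [smul_eq_mul] at this
      have h0 : G ρ - κ * F1 ρ = 0 := by rw [hκ, div_mul_cancel₀ _ hF1ρ0, sub_self]
      simp only [h0, sub_zero] at this
      exact this.symm
    have hZ' : (Z.erase ρ).card = n := by rw [Finset.card_erase_of_mem hρ, hZ]; rfl
    have hz' : ∀ s ∈ Set.Icc a b ×ℂ Set.Icc c d, F1 s = 0 ↔ s ∈ Z.erase ρ := by
      intro s hs
      rw [Finset.mem_erase]
      by_cases hsρ : s = ρ
      · subst hsρ; simp [hF1ρ0]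
      · have := hz s hs
        rw [hFF1 s, mul_eq_zero, sub_eq_zero] at this
        simp only [hsρ, false_or] at this
        simp [hsρ, this]
    have hdF : ∀ s ∈ Z.erase ρ, deriv F s = (s - ρ) * deriv F1 s ∧ s - ρ ≠ 0 ∧ F1 s = 0 := by
      intro s hs
      have hs' := hs
      rw [Finset.mem_erase] at hs
      obtain ⟨h1, h2⟩ := hz2 s hs.2
      have hsK : s ∈ Set.Icc a b ×ℂ Set.Icc c d :=
        ⟨Ioo_subset_Icc_self h1.1, Ioo_subset_Icc_self h1.2⟩
      have h0 : F1 s = 0 := (hz' s hsK).2 hs'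
      have hd1 : DifferentiableAt ℂ F1 s := hF1d.differentiableAt (hU.mem_nhds (hKU hsK))
      refine ⟨?_, sub_ne_zero.2 hs.1, h0⟩
      have : F = fun s => (s - ρ) * F1 s := funext hFF1
      have h3 : HasDerivAt (fun s : ℂ => (s - ρ) * F1 s) (1 * F1 s + (s - ρ) * deriv F1 s) s :=
        ((hasDerivAt_id s).sub_const ρ).mul hd1.hasDerivAt
      rw [this, h3.deriv, h0]
      ring
    have hz2' : ∀ s ∈ Z.erase ρ, s ∈ Set.Ioo a b ×ℂ Set.Ioo c d ∧ deriv F1 s ≠ 0 := by
      intro s hs
      obtain ⟨h1, h2, h3⟩ := hdF s hs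
      rw [Finset.mem_erase] at hs
      obtain ⟨h4, h5⟩ := hz2 s hs.2
      refine ⟨h4, fun h0 => h5 ?_⟩
      rw [h1, h0, mul_zero]
    have IH := ih F1 G2 (Z.erase ρ) hZ' hF1d hG2d hz' hz2'
    have hBK := Bd_sub hab.le hcd.le
    have hBρ : ∀ s ∈ Bd a b c d, s ≠ ρ := fun s hs he => Bd_not_Ioo hs (he ▸ hρI)
    have hB1 : ∀ s ∈ Bd a b c d, F1 s ≠ 0 := by
      intro s hs h0
      have := (hz' s (hBK hs)).1 h0
      exact Bd_not_Ioo hs (hz2' s this).1
    have hsplit : RI a b c d (fun s => G s / F s) =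
        RI a b c d (fun s => G2 s / F1 s + κ * (s - ρ)⁻¹) := by
      apply RI_congr hab.le hcd.le
      intro s hs
      have h1 := sub_ne_zero.2 (hBρ s hs)
      have h2 := hB1 s hs
      have h3 : G s = κ * F1 s + (s - ρ) * G2 s := by rw [← hG2e s]; ring
      rw [hFF1 s, h3]
      field_simp
      ring
    have hcont1 : ContinuousOn (fun s => G2 s / F1 s) (Bd a b c d) :=
      (hG2d.continuousOn.mono (hBK.trans hKU)).div (hF1d.continuousOn.mono (hBK.trans hKU)) hB1
    have hcont2 : ContinuousOn (fun s => κ * (s - ρ)⁻¹) (Bd a b c d) := by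
      apply ContinuousOn.mul continuousOn_const
      apply ContinuousOn.inv₀ (by fun_prop)
      intro s hs
      exact sub_ne_zero.2 (hBρ s hs)
    rw [hsplit, RI_add hab.le hcd.le hcont1 hcont2, IH, RI_const_mul, RI_inv hρI,
      ← Finset.add_sum_erase Z _ hρ]
    have e : ∑ s ∈ Z.erase ρ, G2 s / deriv F1 s = ∑ s ∈ Z.erase ρ, G s / deriv F s := by
      apply Finset.sum_congr rfl
      intro s hs
      obtain ⟨h1, h2, h3⟩ := hdF s hs
      have h4 := hG2e s
      rw [h3, mul_zero, sub_zero] at h4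
      rw [h1, h4, mul_div_mul_left _ _ h2]
    rw [e, hκ, hF1ρ]
    ring

/-- a cut point near `v` which stays away from a spaced set and does not change the lower part -/
lemma cut_point (S : Set ℝ) (δ v : ℝ) (hδ : 0 < δ) (hδ1 : δ ≤ 1 / 10)
    (hS : ∀ t ∈ S, ∀ t' ∈ S, |t - v| ≤ 1 → |t' - v| ≤ 1 → t ≠ t' → 8 * δ ≤ |t - t'|) :
    ∃ u : ℝ, |u - v| ≤ δ ∧ (∀ t ∈ S, δ ≤ |t - u|) ∧ (∀ t ∈ S, (t ≤ v ↔ t < u)) := by
  by_cases h : ∃ t ∈ S, |t - v| < δ
  · obtain ⟨t1, ht1, h1⟩ := h
    rw [abs_lt] at h1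
    by_cases hv : t1 ≤ v
    · refine ⟨t1 + δ, by rw [abs_le]; constructor <;> linarith, ?_, ?_⟩
      · intro t ht
        by_cases hc : |t - v| ≤ 1
        · by_cases he : t = t1
          · subst he; simp [abs_of_pos hδ]
          · have := hS t ht t1 ht1 hc (by rw [abs_le]; constructor <;> linarith) he
            rcases abs_cases (t - t1) with h3 | h3 <;> rcases abs_cases (t - (t1 + δ)) with h4 | h4 <;>
              linarith
        · rcases abs_cases (t - v) with h3 | h3 <;> rcases abs_cases (t - (t1 + δ)) with h4 | h4 <;>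
              linarith
      · intro t ht
        constructor
        · intro h; linarith
        · intro h2
          by_contra h3
          push Not at h3
          have hc : |t - v| ≤ 1 := by rw [abs_le]; constructor <;> linarith
          have he : t ≠ t1 := by rintro rfl; linarith
          have := hS t ht t1 ht1 hc (by rw [abs_le]; constructor <;> linarith) he
          rcases abs_cases (t - t1) with h3 | h3 <;> linarith
    · push Not at hv
      refine ⟨t1 - δ, by rw [abs_le]; constructor <;> linarith, ?_, ?_⟩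
      · intro t ht
        by_cases hc : |t - v| ≤ 1
        · by_cases he : t = t1
          · subst he; simp [abs_of_pos hδ]
          · have := hS t ht t1 ht1 hc (by rw [abs_le]; constructor <;> linarith) he
            rcases abs_cases (t - t1) with h3 | h3 <;> rcases abs_cases (t - (t1 - δ)) with h4 | h4 <;>
              linarith
        · rcases abs_cases (t - v) with h3 | h3 <;> rcases abs_cases (t - (t1 - δ)) with h4 | h4 <;>
              linarith
      · intro t ht
        constructor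
        · intro h2
          by_contra h3
          push Not at h3
          have hc : |t - v| ≤ 1 := by rw [abs_le]; constructor <;> linarith
          have he : t ≠ t1 := by rintro rfl; linarith
          have := hS t ht t1 ht1 hc (by rw [abs_le]; constructor <;> linarith) he
          rcases abs_cases (t - t1) with h3 | h3 <;> linarith
        · intro h2; linarith
  · push Not at h
    refine ⟨v, by simp [hδ.le], fun t ht => h t ht, ?_⟩
    intro t ht
    constructor
    · intro h2
      refine lt_of_le_of_ne h2 ?_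
      rintro rfl
      have := h _ ht
      simp at this
      linarith
    · intro h2; exact h2.le

/-- zeros of zeta in a compact set are finite in number -/
lemma zeros_finite {K : Set ℂ} (hK : IsCompact K) (h1 : (1 : ℂ) ∉ K) :
    Set.Finite {s | s ∈ K ∧ riemannZeta s = 0} := by
  have han : AnalyticOnNhd ℂ riemannZeta ({1}ᶜ : Set ℂ) := by
    apply DifferentiableOn.analyticOnNhd _ isOpen_compl_singleton
    intro s hs
    exact (differentiableAt_riemannZeta hs).differentiableWithinAt
  have hpre : IsPreconnected ({1}ᶜ : Set ℂ) :=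
    (isConnected_compl_singleton_of_one_lt_rank (by simp) 1).isPreconnected
  have hnt : ∀ s ∈ K, ∀ᶠ z in 𝓝[≠] s, riemannZeta z ≠ 0 := by
    intro s hs
    have hs1 : s ≠ 1 := by rintro rfl; exact h1 hs
    rcases (han s hs1).eventually_eq_zero_or_eventually_ne_zero with h2 | h2
    · exfalso
      have h2' := han.eqOn_zero_of_preconnected_of_eventuallyEq_zero hpre hs1 h2
      have h3 : riemannZeta 2 = 0 := h2' (show (2 : ℂ) ∈ ({1}ᶜ : Set ℂ) by simp)
      exact riemannZeta_ne_zero_of_one_le_re (by simp) h3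
    · exact h2
  by_contra hinf
  obtain ⟨z, hz, hacc⟩ := Set.Infinite.exists_accPt_of_subset_isCompact hinf hK
    (fun s hs => hs.1)
  rw [accPt_iff_frequently_nhdsNE] at hacc
  have := hacc.and_eventually (hnt z hz)
  obtain ⟨w, hw⟩ := this.exists
  exact hw.2 hw.1.2

lemma Zo_finite (a b : ℝ) : (Zo ∩ Set.Icc a b).Finite := by
  have h := zeros_finite (K := ({1 / 2} : Set ℝ) ×ℂ Set.Icc a b)
    (isCompact_singleton.reProdIm isCompact_Icc) (by
      rintro ⟨h1, -⟩
      simp at h1)
  have himg : (fun s : ℂ => s.im) '' {s | s ∈ ({1 / 2} : Set ℝ) ×ℂ Set.Icc a b ∧ riemannZeta s = 0} =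
      Zo ∩ Set.Icc a b := by
    ext t
    constructor
    · rintro ⟨s, ⟨⟨h1, h2⟩, h3⟩, rfl⟩
      refine ⟨?_, h2⟩
      rw [Zo, mem_ofPred_eq]
      have h1' : s.re = 1 / 2 := h1
      have : s = 1 / 2 + (s.im : ℂ) * I := by
        apply Complex.ext <;> simp [h1']
      rw [← this]; exact h3
    · rintro ⟨h1, h2⟩
      refine ⟨1 / 2 + (t : ℂ) * I, ⟨⟨by simp, by simpa using h2⟩, h1⟩, by simp⟩
  rw [← himg]
  exact h.image _

end H345
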