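import Pool.Agent.H345R2.Defs2
import Pool.Agent.H345R2.Kernel
import Pool.Agent.H345R2.MeanVal
import Pool.Agent.H345R2.Res

set_option autoImplicit false
set_option maxHeartbeats 1000000

open Complex Filter Topology Set MeasureTheory

namespace H345

/-! ### the weight -/

lemma GB_nonneg (X : ℝ) (B : Set ℝ) (T : ℝ) : 0 ≤ GB X B T := by
  unfold GB; split_ifs
  · exact (Real.exp_pos _).le
  · exact le_rfl

lemma GB_le_one {X : ℝ} (hX : 0 ≤ Real.log X) (B : Set ℝ) (T : ℝ) : GB X B T ≤ 1 := by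
  unfold GB; split_ifs
  · apply Real.exp_le_one_iff.2
    apply div_nonpos_of_nonpos_of_nonneg
    · have := le_max_left 0 (3 * (Real.log X) ^ 3 - Metric.infDist T B)
      linarith
    · linarith
  · exact zero_le_one

lemma GB_zero {X : ℝ} {B : Set ℝ} {T : ℝ} (h : Metric.infDist T B < (Real.log X) ^ 3) :
    GB X B T = 0 := by
  unfold GB; rw [if_neg (not_le.2 h)]

lemma GB_meas (X : ℝ) (B : Set ℝ) : Measurable (GB X B) := by
  unfold GB
  have hc : Continuous (fun T : ℝ => Metric.infDist T B) := Metric.continuous_infDist_pt B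
  apply Measurable.ite
  · exact measurableSet_le measurable_const hc.measurable
  · apply Continuous.measurable
    exact Real.continuous_exp.comp (by fun_prop)
  · exact measurable_const

lemma GB_shift {X : ℝ} {B : Set ℝ} {T T' : ℝ} (hL : 2 ≤ Real.log X)
    (hT' : (Real.log X) ^ 3 ≤ Metric.infDist T' B) (h : |T' - T| ≤ (Real.log X) ^ 2 + 1) :
    GB X B T' ≤ Real.exp (|T' - T| / (2 * Real.log X)) * GB X B T +
      Real.exp (-(Real.log X) ^ 2 + Real.log X) := by
  set L := Real.log X with hLdef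
  have hd1 : Metric.infDist T' B ≤ Metric.infDist T B + |T' - T| := by
    have := Metric.infDist_le_infDist_add_dist (s := B) (x := T') (y := T)
    rwa [Real.dist_eq] at this
  have hd2 : Metric.infDist T B ≤ Metric.infDist T' B + |T' - T| := by
    have := Metric.infDist_le_infDist_add_dist (s := B) (x := T) (y := T')
    rwa [Real.dist_eq, abs_sub_comm] at this
  have hL0 : 0 < 2 * L := by linarith
  rcases le_or_gt (L ^ 3) (Metric.infDist T B) with hc | hc
  · have h1 : GB X B T' ≤ Real.exp (|T' - T| / (2 * L)) * GB X B T := by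
      unfold GB
      rw [← hLdef, if_pos hT', if_pos hc, ← Real.exp_add]
      apply Real.exp_le_exp.2
      rw [← add_div]
      apply div_le_div_of_nonneg_right _ hL0.le
      have : max 0 (3 * L ^ 3 - Metric.infDist T B) ≤
          max 0 (3 * L ^ 3 - Metric.infDist T' B) + |T' - T| := by
        apply max_le
        · have := le_max_left 0 (3 * L ^ 3 - Metric.infDist T' B)
          have := abs_nonneg (T' - T)
          linarith
        · have := le_max_right 0 (3 * L ^ 3 - Metric.infDist T' B)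
          linarith
      linarith
    have := Real.exp_pos (-L ^ 2 + L)
    linarith
  · have h1 : GB X B T' ≤ Real.exp (-L ^ 2 + L) := by
      unfold GB
      rw [← hLdef, if_pos hT']
      apply Real.exp_le_exp.2
      rw [div_le_iff₀ hL0]
      have h2 := le_max_right 0 (3 * L ^ 3 - Metric.infDist T' B)
      nlinarith
    have := GB_nonneg X B T
    have h3 : 0 ≤ Real.exp (|T' - T| / (2 * L)) * GB X B T := by positivity
    linarith

/-! ### separated sets -/

lemma sep_card (S : Finset ℝ) (δ R : ℝ) (hδ : 0 < δ) (hR : 0 ≤ R)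
    (h : ∀ x ∈ S, 0 ≤ x ∧ x ≤ R) (hs : ∀ x ∈ S, ∀ y ∈ S, x ≠ y → δ ≤ |x - y|) :
    (S.card : ℝ) ≤ R / δ + 1 := by
  have hcard : S.card ≤ (Finset.range (⌊R / δ⌋₊ + 1)).card := by
    apply Finset.card_le_card_of_injOn (fun x => ⌊x / δ⌋₊)
    · intro x hx
      have hx' := h x hx
      simp only [Finset.coe_range, mem_Iio]
      have : ⌊x / δ⌋₊ ≤ ⌊R / δ⌋₊ := Nat.floor_le_floor (by gcongr; exact hx'.2)
      omega
    · intro x hx y hy hxy
      by_contra hne
      have h1 := hs x hx y hy hne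
      have hx0 : 0 ≤ x / δ := div_nonneg (h x hx).1 hδ.le
      have hy0 : 0 ≤ y / δ := div_nonneg (h y hy).1 hδ.le
      have a1 := Nat.floor_le hx0
      have a2 := Nat.lt_floor_add_one (x / δ)
      have b1 := Nat.floor_le hy0
      have b2 := Nat.lt_floor_add_one (y / δ)
      simp only at hxy
      rw [hxy] at a1 a2
      have h2 : |x / δ - y / δ| < 1 := by rw [abs_lt]; constructor <;> linarith
      have h3 : |x / δ - y / δ| = |x - y| / δ := by
        rw [← sub_div, abs_div, abs_of_pos hδ]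
      rw [h3, div_lt_one hδ] at h2
      linarith
  rw [Finset.card_range] at hcard
  have h1 : ((⌊R / δ⌋₊ : ℕ) : ℝ) ≤ R / δ := Nat.floor_le (by positivity)
  have h2 : (S.card : ℝ) ≤ ((⌊R / δ⌋₊ + 1 : ℕ) : ℝ) := by exact_mod_cast hcard
  push_cast at h2
  linarith

/-! ### the kernel on the imaginary axis -/

lemma W_cont (A : ℕ) (hA : 4 ≤ A) : Continuous (fun τ : ℝ => ‖WW A ((τ : ℂ) * I)‖) := by
  apply Continuous.norm
  apply continuous_iff_continuousAt.2
  intro τ
  have h1 : ContinuousAt (WW A) ((τ : ℂ) * I) := by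
    apply (WW_diff A _ _).continuousAt
    simp
    omega
  exact ContinuousAt.comp (f := fun τ : ℝ => (τ : ℂ) * I) h1 (by fun_prop)

lemma pow_four_le (x : ℝ) (hx : 0 ≤ x) : (1 + x) ^ 4 ≤ 98304 * Real.exp ((1 + x) / 8) := by
  have h := Real.pow_div_factorial_le_exp ((1 + x) / 8) (by positivity) 4
  have h2 : ((4 : ℕ).factorial : ℝ) = 24 := by norm_num [Nat.factorial]
  rw [h2, div_le_iff₀ (by norm_num)] at h
  have h3 : (1 + x) ^ 4 = 4096 * ((1 + x) / 8) ^ 4 := by ring
  rw [h3]
  linarith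

/-- the integrable majorant -/
noncomputable def VV (K τ : ℝ) : ℝ := K * Real.exp (-|τ / 4| / 2)

lemma VV_int (K : ℝ) : Integrable (VV K) := by
  have := (integrable_exp_abs.comp_div (show (4 : ℝ) ≠ 0 by norm_num)).const_mul K
  exact this

lemma W_major {A : ℕ} {CW : ℝ} (hC : 0 < CW)
    (hW : ∀ w : ℂ, |w.re| ≤ 2 → ‖WW A w‖ ≤ CW * Real.exp (-|w.im| / 2)) {L : ℝ} (hL : 2 ≤ L) (τ : ℝ) :
    Real.exp ((|τ| + 1) / (2 * L)) * (‖WW A ((τ : ℂ) * I)‖ * (1 + |τ|) ^ 4) ≤
      VV (98304 * Real.exp 1 * CW) τ := by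
  have h1 : ‖WW A ((τ : ℂ) * I)‖ ≤ CW * Real.exp (-|τ| / 2) := by
    have := hW ((τ : ℂ) * I) (by simp)
    simpa using this
  have h2 := pow_four_le |τ| (abs_nonneg τ)
  have h3 : Real.exp ((|τ| + 1) / (2 * L)) ≤ Real.exp ((|τ| + 1) / 4) := by
    apply Real.exp_le_exp.2
    apply div_le_div_of_nonneg_left (by positivity) (by norm_num) (by linarith)
  unfold VV
  calc Real.exp ((|τ| + 1) / (2 * L)) * (‖WW A ((τ : ℂ) * I)‖ * (1 + |τ|) ^ 4)
      ≤ Real.exp ((|τ| + 1) / 4) * ((CW * Real.exp (-|τ| / 2)) *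
          (98304 * Real.exp ((1 + |τ|) / 8))) := by gcongr
    _ = 98304 * CW * (Real.exp ((|τ| + 1) / 4) * Real.exp (-|τ| / 2) *
          Real.exp ((1 + |τ|) / 8)) := by ring
    _ = 98304 * CW * Real.exp ((|τ| + 1) / 4 + -|τ| / 2 + (1 + |τ|) / 8) := by
        rw [Real.exp_add, Real.exp_add]
    _ ≤ 98304 * CW * Real.exp (1 + -|τ / 4| / 2) := by
        apply mul_le_mul_of_nonneg_left _ (by positivity)
        apply Real.exp_le_exp.2
        rw [abs_div, abs_of_pos (by norm_num : (0 : ℝ) < 4)]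
        linarith
    _ = 98304 * Real.exp 1 * CW * Real.exp (-|τ / 4| / 2) := by
        rw [Real.exp_add]; ring

lemma W_major' {A : ℕ} {CW : ℝ} (hC : 0 < CW)
    (hW : ∀ w : ℂ, |w.re| ≤ 2 → ‖WW A w‖ ≤ CW * Real.exp (-|w.im| / 2)) (τ : ℝ) :
    ‖WW A ((τ : ℂ) * I)‖ * (1 + |τ|) ^ 4 ≤ VV (98304 * Real.exp 1 * CW) τ := by
  refine le_trans ?_ (W_major hC hW le_rfl τ)
  have h1 : 1 ≤ Real.exp ((|τ| + 1) / (2 * 2)) := Real.one_le_exp (by positivity)
  have h2 : 0 ≤ ‖WW A ((τ : ℂ) * I)‖ * (1 + |τ|) ^ 4 := by positivity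
  nlinarith

/-! ### integrability of bounded functions with bounded support -/

lemma int_aux {h : ℝ → ℝ} (hm : Measurable h) {K a b : ℝ} (hb : ∀ T, |h T| ≤ K)
    (hs : ∀ T, T ∉ Set.Icc a b → h T = 0) : Integrable h := by
  have h1 : IntegrableOn h (Set.Icc a b) := by
    apply Measure.integrableOn_of_bounded (M := K)
    · exact isCompact_Icc.measure_lt_top.ne
    · exact hm.aestronglyMeasurable
    · exact Eventually.of_forall fun T => by rw [Real.norm_eq_abs]; exact hb T
  rwa [integrableOn_iff_integrable_of_support_subset] at h1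
  intro T hT
  by_contra hc
  exact hT (hs T hc)

/-! ### Fubini and the mean value theorem -/

lemma DD_exp_cont (e : Bool) (A : ℕ) (hA : 4 ≤ A) :
    Continuous (fun p : ℝ × ℝ => DD e A (Real.exp p.2) p.1) := by
  have h := DD_cont e A hA
  rw [← continuousOn_univ]
  have : (fun p : ℝ × ℝ => DD e A (Real.exp p.2) p.1) =
      (fun p : ℝ × ℝ => DD e A p.1 p.2) ∘ (fun p : ℝ × ℝ => (Real.exp p.2, p.1)) := rfl
  rw [this]
  apply h.comp (by fun_prop)
  intro p _
  exact ⟨Real.exp_pos _, mem_univ _⟩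

/-- the energy density -/
noncomputable def hDD (A : ℕ) (T x : ℝ) : ℝ :=
  ‖DD true A (Real.exp x) T‖ ^ 2 + ‖DD false A (Real.exp x) T‖ ^ 2

lemma hDD_cont (A : ℕ) (hA : 4 ≤ A) : Continuous (Function.uncurry (hDD A)) :=
  ((DD_exp_cont true A hA).norm.pow 2).add ((DD_exp_cont false A hA).norm.pow 2)

lemma hDD_int (A : ℕ) (hA : 4 ≤ A) (X a b : ℝ) : Integrable (Function.uncurry (hDD A))
      ((volume.restrict (Set.Ioc 0 X)).prod (volume.restrict (Set.Ioc a b))) := by
  rw [Measure.prod_restrict]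
  have h1 : IntegrableOn (Function.uncurry (hDD A)) (Set.Icc 0 X ×ˢ Set.Icc a b)
      ((volume : Measure ℝ).prod volume) := by
    rw [← Measure.volume_eq_prod]
    exact (hDD_cont A hA).continuousOn.integrableOn_compact (isCompact_Icc.prod isCompact_Icc)
  exact h1.mono_set (Set.prod_mono Ioc_subset_Icc_self Ioc_subset_Icc_self)

lemma hDD_T (A : ℕ) (hA : 4 ≤ A) : ∃ CF : ℝ, 0 < CF ∧ ∀ X x : ℝ, 1 ≤ X →
    x ≤ Real.log X / 2 + 2 → ∫ T in Set.Ioc 0 X, hDD A T x ≤ CF * X := by
  obtain ⟨Ct, hCt, hmt⟩ := DD_mean true A hA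
  obtain ⟨Cf, hCf, hmf⟩ := DD_mean false A hA
  refine ⟨(Ct + Cf) * (1 + Real.exp 4), by positivity, ?_⟩
  intro X x hX hx
  have hTx : Continuous fun T : ℝ => (T, x) := by fun_prop
  have c1 : Continuous (fun T => DD true A (Real.exp x) T) := by
    have := (DD_exp_cont true A hA).comp hTx
    exact this
  have c2 : Continuous (fun T => DD false A (Real.exp x) T) := by
    have := (DD_exp_cont false A hA).comp hTx
    exact this
  have i1 : IntegrableOn (fun T => ‖DD true A (Real.exp x) T‖ ^ 2) (Set.Ioc 0 X) :=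
    (c1.norm.pow 2).integrableOn_Ioc
  have i2 : IntegrableOn (fun T => ‖DD false A (Real.exp x) T‖ ^ 2) (Set.Ioc 0 X) :=
    (c2.norm.pow 2).integrableOn_Ioc
  have e1 : ∫ T in Set.Ioc 0 X, hDD A T x = (∫ T in Set.Ioc 0 X, ‖DD true A (Real.exp x) T‖ ^ 2) +
      ∫ T in Set.Ioc 0 X, ‖DD false A (Real.exp x) T‖ ^ 2 := by
    simp only [hDD]
    exact integral_add i1 i2
  have h1 := hmt X (Real.exp x) hX (Real.exp_pos _)
  have h2 := hmf X (Real.exp x) hX (Real.exp_pos _)
  rw [intervalIntegral.integral_of_le (by linarith)] at h1 h2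
  have h3 : Real.exp x ^ 2 ≤ Real.exp 4 * X := by
    rw [← Real.exp_nat_mul]
    have hX' : X = Real.exp (Real.log X) := by rw [Real.exp_log (by linarith)]
    calc Real.exp ((2 : ℕ) * x) ≤ Real.exp (4 + Real.log X) := by
          apply Real.exp_le_exp.2
          push_cast
          linarith
      _ = Real.exp 4 * X := by rw [Real.exp_add, ← hX']
  rw [e1]
  calc _ ≤ Ct * (X + Real.exp x ^ 2) + Cf * (X + Real.exp x ^ 2) := add_le_add h1 h2
    _ = (Ct + Cf) * (X + Real.exp x ^ 2) := by ring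
    _ ≤ (Ct + Cf) * (X + Real.exp 4 * X) := by gcongr
    _ = _ := by ring

lemma fubini_DD (A : ℕ) (hA : 4 ≤ A) : ∃ CF : ℝ, 0 < CF ∧ ∀ X : ℝ, 1 ≤ X → 1 ≤ Real.log X →
    IntegrableOn (fun T : ℝ => ∫ x in (-Real.log X)..(Real.log X / 2 + 2), hDD A T x)
      (Set.Ioc 0 X) ∧
    ∫ T in Set.Ioc 0 X, (∫ x in (-Real.log X)..(Real.log X / 2 + 2), hDD A T x) ≤
      CF * X * Real.log X := by
  obtain ⟨C1, hC1, hT⟩ := hDD_T A hA
  refine ⟨C1 * 4, by positivity, ?_⟩
  intro X hX hL
  have hab : -Real.log X ≤ Real.log X / 2 + 2 := by linarith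
  have hprod := hDD_int A hA X (-Real.log X) (Real.log X / 2 + 2)
  have hrw : ∀ T, ∫ x in (-Real.log X)..(Real.log X / 2 + 2), hDD A T x =
      ∫ x in Set.Ioc (-Real.log X) (Real.log X / 2 + 2), hDD A T x :=
    fun T => intervalIntegral.integral_of_le hab
  have hint := hprod.integral_prod_left
  have hint2 := hprod.integral_prod_right
  simp_rw [hrw]
  refine ⟨hint, ?_⟩
  rw [integral_integral_swap hprod]
  calc ∫ x in Set.Ioc (-Real.log X) (Real.log X / 2 + 2), ∫ T in Set.Ioc 0 X, hDD A T x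
      ≤ ∫ x in Set.Ioc (-Real.log X) (Real.log X / 2 + 2), C1 * X := by
        apply setIntegral_mono_on hint2 _ measurableSet_Ioc
        · intro x hx
          exact hT X x hX hx.2
        · exact integrableOn_const (by simp)
    _ = (3 / 2 * Real.log X + 2) * (C1 * X) := by
        rw [setIntegral_const, smul_eq_mul]
        congr 1
        rw [Measure.real, Real.volume_Ioc, ENNReal.toReal_ofReal (by linarith)]
        ring
    _ ≤ (4 * Real.log X) * (C1 * X) := by
        apply mul_le_mul_of_nonneg_right _ (by positivity)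
        linarith
    _ = _ := by ring

end H345
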