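import Pool.Agent.H345R2.Defs

open Complex Filter Topology Set MeasureTheory

namespace H345

lemma la_upper {a b : ℝ} (ha : 0 < a) (hab : a ≤ b) :
    b * Real.log b - a * Real.log a ≤ (Real.log b + 1) * (b - a) := by
  have hb : 0 < b := by linarith
  have h := Real.log_le_sub_one_of_pos (div_pos hb ha)
  rw [Real.log_div hb.ne' ha.ne'] at h
  have h2 : a * (Real.log b - Real.log a) ≤ a * (b / a - 1) := by gcongr
  have h3 : a * (b / a - 1) = b - a := by field_simp
  nlinarith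

lemma la_lower {a b : ℝ} (ha : 0 < a) (hab : a ≤ b) :
    (Real.log a + 1) * (b - a) ≤ b * Real.log b - a * Real.log a := by
  have hb : 0 < b := by linarith
  have h := Real.log_le_sub_one_of_pos (div_pos ha hb)
  rw [Real.log_div ha.ne' hb.ne'] at h
  have h2 : b * (Real.log a - Real.log b) ≤ b * (a / b - 1) := by gcongr
  have h3 : b * (a / b - 1) = a - b := by field_simp
  nlinarith

lemma la_gt (x : ℝ) : 2 * Real.pi * gt x = x * Real.log x := by
  unfold gt
  have := Real.pi_pos.ne'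
  field_simp

lemma half_ne : Half.Nonempty := ⟨1 / 2, 1, le_rfl, by norm_num⟩

lemma half_gap {g φ : ℝ} (h : Metric.infDist g Half ≤ φ) : 1 / 2 - φ ≤ g := by
  by_contra hc
  push Not at hc
  have h1 : 1 / 2 - g ≤ Metric.infDist g Half := by
    rw [Metric.le_infDist half_ne]
    rintro y ⟨k, hk, rfl⟩
    have hk' : (1:ℝ) ≤ k := by exact_mod_cast hk
    rw [Real.dist_eq]
    have := neg_abs_le (g - (k:ℝ) / 2)
    linarith
  linarith

lemma half_near {g φ : ℝ} (hφ : 0 < φ) (h : Metric.infDist g Half ≤ φ) :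
    ∃ k : ℕ, |2 * g - k| ≤ 4 * φ := by
  obtain ⟨y, ⟨k, hk, rfl⟩, hy⟩ := (Metric.infDist_lt_iff half_ne).1
    (show Metric.infDist g Half < 2 * φ by linarith)
  refine ⟨k, ?_⟩
  rw [Real.dist_eq] at hy
  have : 2 * g - k = 2 * (g - (k:ℝ) / 2) := by ring
  rw [this, abs_mul, abs_of_pos (by norm_num : (0:ℝ) < 2)]
  linarith

lemma gap_sum (γ : ℕ → ℝ) {φ : ℝ} (i j : ℕ) (hij : i ≤ j)
    (h1 : ∀ k, i ≤ k → k < j → 2 / 5 ≤ gap γ k)
    (h2 : ∀ k, i ≤ k → k < j → ∃ m : ℕ, |2 * gap γ k - m| ≤ 4 * φ) :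
    (∃ M : ℕ, |2 * (gt (γ j) - gt (γ i)) - M| ≤ 4 * φ * ((j:ℝ) - i)) ∧
    2 / 5 * ((j:ℝ) - i) ≤ gt (γ j) - gt (γ i) := by
  induction j, hij using Nat.le_induction with
  | base => exact ⟨⟨0, by simp⟩, by simp⟩
  | succ j hij ih =>
    obtain ⟨⟨M, hM⟩, hl⟩ := ih (fun k hk1 hk2 => h1 k hk1 (by omega))
      (fun k hk1 hk2 => h2 k hk1 (by omega))
    obtain ⟨m, hm⟩ := h2 j hij (by omega)
    have h1' := h1 j hij (by omega)
    have hg : gap γ j = gt (γ (j + 1)) - gt (γ j) := rfl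
    refine ⟨⟨M + m, ?_⟩, ?_⟩
    · have : 2 * (gt (γ (j + 1)) - gt (γ i)) - ((M + m : ℕ) : ℝ) =
          (2 * (gt (γ j) - gt (γ i)) - M) + (2 * gap γ j - m) := by
        rw [hg]; push_cast; ring
      rw [this]
      refine (abs_add_le _ _).trans ?_
      push_cast
      linarith
    · push_cast
      rw [hg] at h1'
      linarith

/-- conditions on the scale -/
structure Big (X : ℝ) : Prop where
  ten : 10 ≤ X
  L20 : 20 ≤ Real.log X
  win : 2 * ((Real.log X) ^ 2 + 40) ≤ Real.sqrt X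
  fine : 4 * ((Real.log X) ^ 2 + 20) ≤ Real.log X * X ^ (1 / 4 : ℝ)

lemma exists_big : ∃ X0 : ℝ, 10 ≤ X0 ∧ ∀ X : ℝ, X0 ≤ X → Big X := by
  have h1 : Tendsto Real.log atTop atTop := Real.tendsto_log_atTop
  have h2 := (isLittleO_log_rpow_rpow_atTop (s := 1 / 4) 2 (by norm_num)).def
    (show (0:ℝ) < 1 / 100 by norm_num)
  have h3 := (isLittleO_log_rpow_rpow_atTop (s := 1 / 2) 2 (by norm_num)).def
    (show (0:ℝ) < 1 / 100 by norm_num)
  have h4 : ∀ᶠ X : ℝ in atTop, Big X := by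
    filter_upwards [h1.eventually_ge_atTop 20, h2, h3, eventually_ge_atTop (10:ℝ)] with X a1 a2 a3 a4
    have hX : 0 < X := by linarith
    have hL2 : Real.log X ^ (2:ℝ) = (Real.log X) ^ 2 := by
      exact_mod_cast Real.rpow_natCast (Real.log X) 2
    rw [hL2, Real.norm_of_nonneg (by positivity), Real.norm_of_nonneg (by positivity)] at a2 a3
    have e1 : Real.sqrt X = X ^ (1 / 2 : ℝ) := Real.sqrt_eq_rpow X
    refine ⟨a4, a1, ?_, ?_⟩
    · rw [e1]
      nlinarith
    · have : 1 * X ^ (1 / 4 : ℝ) ≤ Real.log X * X ^ (1 / 4 : ℝ) := by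
        gcongr
        linarith
      nlinarith
  obtain ⟨X0, hX0⟩ := h4.exists_forall_of_atTop
  exact ⟨max 10 X0, le_max_left _ _, fun X hX => hX0 X ((le_max_right _ _).trans hX)⟩

lemma log_near {u T W : ℝ} (hT : 0 < T) (hW : W ≤ T / 2) (hu : |u - T| ≤ W) :
    |Real.log u - Real.log T| ≤ 2 * W / T := by
  have h0 := abs_le.1 hu
  have hu0 : 0 < u := by linarith
  have hW0 : 0 ≤ W := (abs_nonneg _).trans hu
  rw [abs_le]
  have h1 := Real.log_le_sub_one_of_pos (div_pos hu0 hT)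
  rw [Real.log_div hu0.ne' hT.ne'] at h1
  have h2 := Real.log_le_sub_one_of_pos (div_pos hT hu0)
  rw [Real.log_div hT.ne' hu0.ne'] at h2
  constructor
  · have h3 : T / u - 1 ≤ 2 * W / T := by
      rw [div_sub_one hu0.ne', div_le_div_iff₀ hu0 hT]
      nlinarith
    linarith
  · have h3 : u / T - 1 ≤ 2 * W / T := by
      rw [div_sub_one hT.ne', div_le_div_iff_of_pos_right hT]
      linarith
    linarith

lemma norm_exp_int {x e : ℝ} {M : ℤ} (h : x = 2 * Real.pi * M + e) :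
    ‖cexp ((x : ℂ) * I) - 1‖ ≤ |e| := by
  have h1 : cexp ((x : ℂ) * I) = cexp ((e : ℂ) * I) := by
    rw [h]
    push_cast
    rw [add_mul, Complex.exp_add]
    have : (2 * (Real.pi : ℂ) * (M : ℂ) * I) = (M : ℂ) * (2 * Real.pi * I) := by ring
    rw [this, Complex.exp_int_mul_two_pi_mul_I, one_mul]
  rw [h1]
  have := Real.norm_exp_I_mul_ofReal_sub_one_le (x := e)
  rw [mul_comm, Real.norm_eq_abs] at this
  exact this

lemma zo_index (γ : ℕ → ℝ) (hγ : IsZeroList γ) {t : ℝ} (ht : t ∈ Zo) (ht0 : 0 < t) :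
    ∃ j, γ j = t := by
  have h1 := hγ.mult t ht0
  have hne : (1 / 2 + (t : ℂ) * I) ≠ 1 := by
    intro h
    have := congrArg Complex.re h
    norm_num at this
  have han : AnalyticAt ℂ riemannZeta (1 / 2 + (t : ℂ) * I) := by
    have : AnalyticOnNhd ℂ riemannZeta {s | s ≠ 1} :=
      DifferentiableOn.analyticOnNhd (fun s hs => (differentiableAt_riemannZeta hs).differentiableWithinAt)
        isOpen_ne
    exact this _ hne
  have h2 : analyticOrderAt riemannZeta (1 / 2 + (t : ℂ) * I) ≠ 0 :=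
    han.analyticOrderAt_ne_zero.2 ht
  rw [← h1] at h2
  obtain ⟨j, hj⟩ := Set.encard_ne_zero.1 h2
  exact ⟨j, hj⟩

lemma zo_simple (γ : ℕ → ℝ) (hγ : IsZeroList γ) {t : ℝ} (ht : t ∈ Zo) (ht0 : 0 < t)
    (hu : ∀ i j, γ i = t → γ j = t → i = j) : deriv riemannZeta (1 / 2 + (t : ℂ) * I) ≠ 0 := by
  have h1 := hγ.mult t ht0
  have hne : (1 / 2 + (t : ℂ) * I) ≠ 1 := by
    intro h
    have := congrArg Complex.re h
    norm_num at this
  have han : AnalyticAt ℂ riemannZeta (1 / 2 + (t : ℂ) * I) := by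
    have : AnalyticOnNhd ℂ riemannZeta {s | s ≠ 1} :=
      DifferentiableOn.analyticOnNhd (fun s hs => (differentiableAt_riemannZeta hs).differentiableWithinAt)
        isOpen_ne
    exact this _ hne
  have h2 : {j : ℕ | γ j = t}.encard ≤ 1 := by
    rw [Set.encard_le_one_iff]
    intro a b ha hb
    exact hu a b ha hb
  have h3 : analyticOrderAt (deriv riemannZeta) (1 / 2 + (t : ℂ) * I) + 1 ≤ 1 := by
    rw [han.analyticOrderAt_deriv_add_one]
    have : (fun z => riemannZeta z - riemannZeta (1 / 2 + (t : ℂ) * I)) = riemannZeta := by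
      funext z
      have h : riemannZeta (1 / 2 + (t : ℂ) * I) = 0 := ht
      rw [h, sub_zero]
    rw [this, ← h1]
    exact h2
  have h4 : analyticOrderAt (deriv riemannZeta) (1 / 2 + (t : ℂ) * I) = 0 := by
    have h5 : analyticOrderAt (deriv riemannZeta) (1 / 2 + (t : ℂ) * I) ≠ ⊤ := by
      intro h
      rw [h] at h3
      simp at h3
    obtain ⟨n, hn⟩ := ENat.ne_top_iff_exists.1 h5
    rw [← hn] at h3 ⊢
    have : n + 1 ≤ 1 := by exact_mod_cast h3
    have : n = 0 := by omega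
    simp [this]
  exact han.deriv.analyticOrderAt_eq_zero.1 h4

/-- the main computation for a pair `t < t'` of ordinates in the window -/
lemma la_pair (γ : ℕ → ℝ) (hγ : IsZeroList γ) {X T φ : ℝ} (hX : Big X) (hT1 : Real.sqrt X ≤ T)
    (hT2 : T ≤ X) (hφ1 : X ^ (-(1 / 4) : ℝ) ≤ φ) (hφ2 : φ ≤ 1 / 10)
    (hgap : ∀ j : ℕ, |γ j - T| ≤ (Real.log X) ^ 2 + 40 → Metric.infDist (gap γ j) Half ≤ φ)
    {t t' : ℝ} (ht : t ∈ Zo) (ht' : t' ∈ Zo) (hw : |t - T| ≤ (Real.log X) ^ 2 + 20)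
    (hw' : |t' - T| ≤ (Real.log X) ^ 2 + 20) (hlt : t < t') :
    2 / Real.log X ≤ t' - t ∧
    ‖cexp (((2 * (Real.log T + 1) * (t' - t) : ℝ) : ℂ) * I) - 1‖ ≤
      (30 * φ) * Real.log X * (t' - t) := by
  obtain ⟨h10, hL20, hwin, hfine⟩ := hX
  set L := Real.log X with hL
  have hX0 : 0 < X := by linarith
  have hTW : 2 * (L ^ 2 + 40) ≤ T := hwin.trans hT1
  have hT0 : 0 < T := by nlinarith [sq_nonneg L]
  have hφ0 : 0 < φ := lt_of_lt_of_le (Real.rpow_pos_of_pos hX0 _) hφ1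
  have hwa := abs_le.1 hw
  have hwb := abs_le.1 hw'
  have ht0 : 0 < t := by nlinarith [sq_nonneg L]
  have ht'0 : 0 < t' := by linarith
  obtain ⟨i, hi⟩ := zo_index γ hγ ht ht0
  obtain ⟨j, hj⟩ := zo_index γ hγ ht' ht'0
  have hij : i < j := by
    by_contra h
    have := hγ.mono (not_lt.1 h)
    rw [hi, hj] at this
    linarith
  -- all intermediate ordinates are in the window
  have hmid : ∀ k, i ≤ k → k ≤ j → |γ k - T| ≤ L ^ 2 + 40 := by
    intro k hk1 hk2
    have h1 := hγ.mono hk1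
    have h2 := hγ.mono hk2
    rw [hi] at h1
    rw [hj] at h2
    rw [abs_le]
    constructor <;> linarith
  have hg1 : ∀ k, i ≤ k → k < j → 2 / 5 ≤ gap γ k := by
    intro k hk1 hk2
    have := half_gap (hgap k (hmid k hk1 hk2.le))
    linarith
  have hg2 : ∀ k, i ≤ k → k < j → ∃ m : ℕ, |2 * gap γ k - m| ≤ 4 * φ :=
    fun k hk1 hk2 => half_near hφ0 (hgap k (hmid k hk1 hk2.le))
  obtain ⟨⟨M, hM⟩, hsum⟩ := gap_sum γ i j hij.le hg1 hg2
  rw [hi, hj] at hM hsum
  have hji : (1:ℝ) ≤ (j:ℝ) - i := by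
    have : i + 1 ≤ j := hij
    have : ((i + 1 : ℕ) : ℝ) ≤ j := by exact_mod_cast this
    push_cast at this
    linarith
  -- bounds for logs
  have hpi := Real.pi_gt_d2
  have hpi4 := Real.pi_lt_d2
  have hlogt' : Real.log t' ≤ L + 1 := by
    have h1 : t' ≤ Real.exp 1 * X := by
      have := Real.add_one_le_exp (1:ℝ)
      nlinarith
    calc Real.log t' ≤ Real.log (Real.exp 1 * X) := Real.log_le_log ht'0 h1
      _ = L + 1 := by rw [Real.log_mul (Real.exp_pos _).ne' hX0.ne', Real.log_exp]; ring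
  have hu := la_upper ht0 hlt.le
  have hlo := la_lower ht0 hlt.le
  have hgt : 2 * Real.pi * (gt t' - gt t) = t' * Real.log t' - t * Real.log t := by
    rw [mul_sub, la_gt, la_gt]
  set D := t' - t with hD
  have hD0 : 0 < D := by linarith
  have hcount : 2 * Real.pi * (2 / 5 * ((j:ℝ) - i)) ≤ (L + 2) * D := by
    have h1 : 2 * Real.pi * (2 / 5 * ((j:ℝ) - i)) ≤ 2 * Real.pi * (gt t' - gt t) := by
      gcongr
    rw [hgt] at h1
    have h2 : (Real.log t' + 1) * D ≤ (L + 2) * D :=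
      mul_le_mul_of_nonneg_right (by linarith) hD0.le
    linarith
  have hDL : 0 ≤ D * (L - 20) := mul_nonneg hD0.le (by linarith)
  have hcnt2 : (j:ℝ) - i ≤ L * D := by
    have h1 : 0 ≤ (4 / 5 * Real.pi - 5 / 2) * ((j:ℝ) - i) :=
      mul_nonneg (by linarith) (by linarith)
    linarith
  have hsp : 2 / L ≤ D := by
    have hL0 : 0 < L := by linarith
    rw [div_le_iff₀ hL0]
    have h1 : 0 ≤ Real.pi * (((j:ℝ) - i) - 1) := mul_nonneg Real.pi_pos.le (by linarith)
    linarith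
  refine ⟨hsp, ?_⟩
  -- the phase
  set x := 2 * (Real.log T + 1) * D with hx
  set e1 := x - 2 * (2 * Real.pi * (gt t' - gt t)) with he1
  have hW2 : L ^ 2 + 20 ≤ T / 2 := by linarith
  have hb1 := log_near hT0 hW2 hw
  have hb2 := log_near hT0 hW2 hw'
  have hq : 2 * (L ^ 2 + 20) / T ≤ φ * L / 2 := by
    rw [div_le_iff₀ hT0]
    have h1 : X ^ (1 / 4 : ℝ) ≤ φ * T := by
      calc X ^ (1 / 4 : ℝ) = X ^ (-(1 / 4) : ℝ) * X ^ (1 / 2 : ℝ) := by
            rw [← Real.rpow_add hX0]; norm_num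
        _ ≤ φ * Real.sqrt X := by rw [Real.sqrt_eq_rpow]; gcongr
        _ ≤ φ * T := by gcongr
    have h2 : L * X ^ (1 / 4 : ℝ) ≤ L * (φ * T) := by gcongr
    linarith
  have he1b : |e1| ≤ φ * L * D := by
    rw [he1, hgt, hx, abs_le]
    have a1 := abs_le.1 hb1
    have a2 := abs_le.1 hb2
    have b1 : (Real.log T - φ * L / 2) * D ≤ Real.log t * D :=
      mul_le_mul_of_nonneg_right (by linarith) hD0.le
    have b2 : Real.log t' * D ≤ (Real.log T + φ * L / 2) * D :=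
      mul_le_mul_of_nonneg_right (by linarith) hD0.le
    constructor
    · linarith
    · linarith
  have hdec : x = 2 * Real.pi * ((M : ℤ) : ℝ) +
      (e1 + 2 * Real.pi * (2 * (gt t' - gt t) - M)) := by
    rw [he1]; push_cast; ring
  refine (norm_exp_int hdec).trans ?_
  have h5 : |2 * Real.pi * (2 * (gt t' - gt t) - M)| ≤ 2 * Real.pi * (4 * φ * (L * D)) := by
    rw [abs_mul, abs_of_pos (by positivity : (0:ℝ) < 2 * Real.pi)]
    gcongr
    refine hM.trans ?_
    gcongr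
  refine (abs_add_le _ _).trans ?_
  have h6 : 0 ≤ φ * L * D := by positivity
  have h7 : Real.pi * (φ * L * D) ≤ 3.15 * (φ * L * D) := by gcongr
  linarith

theorem good_of_list (γ : ℕ → ℝ) (hγ : IsZeroList γ) : ∃ C X0 : ℝ, 0 < C ∧ 10 ≤ X0 ∧
    ∀ X : ℝ, X0 ≤ X → ∀ T : ℝ, Real.sqrt X ≤ T → T ≤ X → ∀ φ : ℝ, X ^ (-(1 / 4) : ℝ) ≤ φ →
    φ ≤ 1 / 10 → (∀ j : ℕ, |γ j - T| ≤ (Real.log X) ^ 2 + 40 →
      Metric.infDist (gap γ j) Half ≤ φ) →
    Spaced X T ∧ Latt (C * φ) X T := by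
  obtain ⟨X0, hX0, hbig⟩ := exists_big
  refine ⟨30, X0, by norm_num, hX0, fun X hX T hT1 hT2 φ hφ1 hφ2 hgap => ?_⟩
  have hB := hbig X hX
  have hpair := @la_pair γ hγ X T φ hB hT1 hT2 hφ1 hφ2 hgap
  have hXp : 0 < X := by linarith
  have hpos : ∀ t : ℝ, |t - T| ≤ (Real.log X) ^ 2 + 20 → 0 < t := by
    intro t ht
    have := abs_le.1 ht
    have := hB.win
    nlinarith [sq_nonneg (Real.log X)]
  have hφ0 : 0 < φ := lt_of_lt_of_le (Real.rpow_pos_of_pos hXp _) hφ1
  refine ⟨⟨fun t ht hw => ?_, fun t ht t' ht' hw hw' hne => ?_⟩, fun t ht t' ht' hw hw' => ?_⟩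
  · have ht0 := hpos t hw
    apply zo_simple γ hγ ht ht0
    have key : ∀ i j, i < j → γ i = t → γ j = t → False := by
      intro i j hij hi hj
      have h1 : γ (i + 1) = t := by
        have a1 := hγ.mono (Nat.le_succ i)
        have a2 := hγ.mono (Nat.succ_le_of_lt hij)
        rw [hi] at a1
        rw [hj] at a2
        exact le_antisymm a2 a1
      have h2 : gap γ i = 0 := by
        unfold gap
        rw [h1, hi, sub_self]
      have h3 := half_gap (hgap i (by rw [hi]; linarith))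
      rw [h2] at h3
      linarith
    intro i j hi hj
    rcases lt_trichotomy i j with h | h | h
    · exact (key i j h hi hj).elim
    · exact h
    · exact (key j i h hj hi).elim
  · rcases lt_or_gt_of_ne hne with h | h
    · rw [abs_sub_comm, abs_of_pos (sub_pos.2 h)]
      exact (hpair ht ht' hw hw' h).1
    · rw [abs_of_pos (sub_pos.2 h)]
      exact (hpair ht' ht hw' hw h).1
  · rcases lt_trichotomy t t' with h | h | h
    · have h1 := (hpair ht ht' hw hw' h).2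
      rw [abs_sub_comm, abs_of_pos (sub_pos.2 h)]
      have h2 : ‖cexp (((2 * (Real.log T + 1) * (t - t') : ℝ) : ℂ) * I) - 1‖ =
          ‖cexp (((2 * (Real.log T + 1) * (t' - t) : ℝ) : ℂ) * I) - 1‖ := by
        have h3 : cexp (((2 * (Real.log T + 1) * (t - t') : ℝ) : ℂ) * I) - 1 =
            (starRingEnd ℂ) (cexp (((2 * (Real.log T + 1) * (t' - t) : ℝ) : ℂ) * I) - 1) := by
          rw [map_sub, map_one, ← Complex.exp_conj, map_mul, Complex.conj_ofReal, Complex.conj_I]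
          congr 2
          push_cast
          ring
        rw [h3, Complex.norm_conj]
      rw [h2]
      exact h1
    · subst h
      simp
    · rw [abs_of_pos (sub_pos.2 h)]
      exact (hpair ht' ht hw' hw h).2

end H345
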