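import Pool.Agent.H345R2.FinalC
import Pool.Agent.H345R2.Lattice

set_option autoImplicit false

open Complex Filter Topology Set MeasureTheory

namespace H345

lemma zeta_an {s : ℂ} (hs : s ≠ 1) : AnalyticAt ℂ riemannZeta s := by
  have : AnalyticOnNhd ℂ riemannZeta {s | s ≠ 1} :=
    DifferentiableOn.analyticOnNhd
      (fun s hs => (differentiableAt_riemannZeta hs).differentiableWithinAt) isOpen_ne
  exact this _ hs

lemma zeta_order_ne_top {s : ℂ} (hs : s ≠ 1) : analyticOrderAt riemannZeta s ≠ ⊤ := by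
  intro h
  have han : AnalyticOnNhd ℂ riemannZeta ({1}ᶜ : Set ℂ) := fun z hz => zeta_an hz
  have hpre : IsPreconnected ({1}ᶜ : Set ℂ) :=
    (isConnected_compl_singleton_of_one_lt_rank (by simp) 1).isPreconnected
  have h2 := analyticOrderAt_eq_top.1 h
  have h2' := han.eqOn_zero_of_preconnected_of_eventuallyEq_zero hpre hs h2
  have h3 : riemannZeta 2 = 0 := h2' (show (2 : ℂ) ∈ ({1}ᶜ : Set ℂ) by simp)
  exact riemannZeta_ne_zero_of_one_le_re (by simp) h3

lemma half_ne_one (t : ℝ) : (1 / 2 + (t : ℂ) * I) ≠ 1 := by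
  intro h
  have := congrArg Complex.re h
  norm_num at this

lemma gamma_mem_Zo {γ : ℕ → ℝ} (hγ : IsZeroList γ) (j : ℕ) : γ j ∈ Zo := by
  have h1 := hγ.mult (γ j) (hγ.pos j)
  have h2 : {i : ℕ | γ i = γ j}.encard ≠ 0 := Set.encard_ne_zero.2 ⟨j, rfl⟩
  rw [h1] at h2
  exact (zeta_an (half_ne_one _)).analyticOrderAt_ne_zero.1 h2

lemma list_finite {γ : ℕ → ℝ} (hγ : IsZeroList γ) (X : ℝ) : {j : ℕ | γ j ≤ X}.Finite := by
  have hsub : {j : ℕ | γ j ≤ X} ⊆ ⋃ t ∈ Zo ∩ Set.Icc 0 X, {j : ℕ | γ j = t} := by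
    intro j hj
    rw [Set.mem_iUnion₂]
    exact ⟨γ j, ⟨gamma_mem_Zo hγ j, (hγ.pos j).le, hj⟩, rfl⟩
  refine Set.Finite.subset ?_ hsub
  refine Set.Finite.biUnion (Zo_finite 0 X) fun t ht => ?_
  rcases lt_or_eq_of_le ht.2.1 with h | h
  · rw [← Set.encard_ne_top_iff, hγ.mult t h]
    exact zeta_order_ne_top (half_ne_one t)
  · have : {j : ℕ | γ j = t} = ∅ := by
      ext j
      rw [Set.mem_ofPred_eq, ← h]
      simp [(hγ.pos j).ne']
    rw [this]
    exact Set.finite_empty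

theorem main (hRH : RiemannHypothesis) (γ : ℕ → ℝ) (hγ : IsZeroList γ) : ∃ η : ℝ, 0 < η ∧
    ∀ ε : ℝ, 0 < ε → ∃ X0 : ℝ, ∀ X : ℝ, X0 ≤ X → ∃ S : Finset ℕ, X ^ (1 - ε) ≤ S.card ∧
      ∀ j ∈ S, γ j ≤ X ∧
        η * (Real.log (γ j)) ^ (-(3 / 2) : ℝ) ≤ Metric.infDist (gap γ j) Half := by
  classical
  obtain ⟨Cg, Xg, hCg, hXg, hgood⟩ := good_of_list γ hγ
  obtain ⟨η, hη, hη1, hcore⟩ := core hRH Cg hCg
  refine ⟨η, hη, fun ε0 hε0 => ?_⟩
  obtain ⟨ε, hε⟩ : ∃ ε : ℝ, ε = min ε0 1 := ⟨_, rfl⟩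
  have hεpos : 0 < ε := by rw [hε]; exact lt_min hε0 one_pos
  have hε1 : ε ≤ 1 := by rw [hε]; exact min_le_right _ _
  have hεε : ε ≤ ε0 := by rw [hε]; exact min_le_left _ _
  obtain ⟨Xc, hXc⟩ := hcore ε hεpos hε1
  have ev1 : ∀ᶠ X : ℝ in atTop, 10 ≤ Real.log X := Real.tendsto_log_atTop.eventually_ge_atTop 10
  have ev2 : ∀ᶠ X : ℝ in atTop, Real.log X ^ (3 / 2 : ℝ) ≤ 2 * η * X ^ (1 / 4 : ℝ) := by
    have h := (isLittleO_log_rpow_rpow_atTop (r := 3 / 2) (s := 1 / 4)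
      (by norm_num)).def (c := 2 * η) (by positivity)
    filter_upwards [h, ev1, eventually_ge_atTop 1] with X hX h1 h2
    rw [Real.norm_of_nonneg (by positivity), Real.norm_of_nonneg (by positivity)] at hX
    exact hX
  have ev3 : ∀ᶠ X : ℝ in atTop, max 10 (max Xg Xc) ≤ X := eventually_ge_atTop _
  obtain ⟨X0, hX0⟩ := eventually_atTop.1 (ev1.and (ev2.and ev3))
  refine ⟨X0, fun X hX => ?_⟩
  obtain ⟨hL10, hX2, hX3⟩ := hX0 X hX
  have hX10 : 10 ≤ X := (le_max_left _ _).trans hX3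
  have hXXg : Xg ≤ X := (le_max_left _ _).trans ((le_max_right _ _).trans hX3)
  have hXXc : Xc ≤ X := (le_max_right _ _).trans ((le_max_right _ _).trans hX3)
  have hXpos : 0 < X := by linarith
  set L := Real.log X with hL
  have hL0 : 0 < L := by linarith
  set V : ℝ := X ^ (1 - ε / 4) with hV
  have hVpos : 0 < V := by positivity
  have hsV : Real.sqrt X ≤ V := by
    rw [Real.sqrt_eq_rpow]
    exact Real.rpow_le_rpow_of_exponent_le (by linarith) (by linarith)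
  have hlV : Real.log V = (1 - ε / 4) * L := by rw [hV, Real.log_rpow hXpos]
  have hlV2 : 3 / 4 * L ≤ Real.log V := by rw [hlV]; nlinarith
  set Exc : Finset ℕ := (list_finite hγ X).toFinset.filter (fun j => V ≤ γ j ∧
    η * (Real.log (γ j)) ^ (-(3 / 2) : ℝ) ≤ Metric.infDist (gap γ j) Half) with hExc
  refine ⟨Exc, ?_, ?_⟩
  swap
  · intro j hj
    rw [hExc, Finset.mem_filter, Set.Finite.mem_toFinset] at hj
    exact ⟨hj.1, hj.2.2⟩
  have hmono : X ^ (1 - ε0) ≤ X ^ (1 - ε) :=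
    Real.rpow_le_rpow_of_exponent_le (by linarith) (by linarith)
  refine hmono.trans ?_
  by_contra hcon
  push Not at hcon
  have hcard : ((Exc.image γ).card : ℝ) ≤ X ^ (1 - ε) := by
    refine le_trans ?_ hcon.le
    exact_mod_cast Finset.card_image_le
  refine hXc X hXXc (Exc.image γ) hcard ?_
  -- the threshold
  set φ0 : ℝ := 2 * η * L ^ (-(3 / 2) : ℝ) with hφ0
  have hL32 : 0 < L ^ (3 / 2 : ℝ) := by positivity
  have hL32' : L ^ (-(3 / 2) : ℝ) = (L ^ (3 / 2 : ℝ))⁻¹ := by rw [← Real.rpow_neg hL0.le]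
  have hφ1 : X ^ (-(1 / 4) : ℝ) ≤ φ0 := by
    rw [hφ0, hL32', Real.rpow_neg hXpos.le, ← div_eq_mul_inv, le_div_iff₀ hL32,
      inv_mul_le_iff₀ (by positivity)]
    linarith
  have hφ2 : φ0 ≤ 1 / 10 := by
    have h1 : (20 : ℝ) ≤ L ^ (3 / 2 : ℝ) := by
      calc (20 : ℝ) ≤ L * (L ^ (1 / 2 : ℝ)) := by
            have h2 : (2 : ℝ) ≤ L ^ (1 / 2 : ℝ) := by
              rw [← Real.sqrt_eq_rpow]
              exact Real.le_sqrt_of_sq_le (by linarith)
            nlinarith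
        _ = L ^ (3 / 2 : ℝ) := by
            nth_rewrite 1 [← Real.rpow_one L]
            rw [← Real.rpow_add hL0]; norm_num
    rw [hφ0, hL32', ← div_eq_mul_inv, div_le_iff₀ hL32]
    linarith
  -- the gaps near a good height
  have hmain : ∀ T : ℝ, L ^ 3 ≤ Metric.infDist T (BB V X (Exc.image γ)) →
      Spaced X T ∧ Latt (Cg * φ0) X T := by
    intro T hT
    have hpos : 0 < Metric.infDist T (BB V X (Exc.image γ)) := lt_of_lt_of_le (by positivity) hT
    have hTB : T ∉ BB V X (Exc.image γ) := fun h => by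
      rw [Metric.infDist_zero_of_mem h] at hpos; exact lt_irrefl _ hpos
    have hTV : V ≤ T := by
      by_contra h
      exact hTB (Or.inl (Or.inl (Set.mem_Iio.2 (not_le.1 h))))
    have hTX : T ≤ X := by
      by_contra h
      exact hTB (Or.inl (Or.inr (Set.mem_Ioi.2 (not_le.1 h))))
    refine hgood X hXXg T (hsV.trans hTV) hTX φ0 hφ1 hφ2 fun j hj => ?_
    have hjB : γ j ∉ BB V X (Exc.image γ) := by
      intro h
      have h1 := Metric.infDist_le_dist_of_mem (x := T) h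
      rw [Real.dist_eq, abs_sub_comm] at h1
      have h2 : L ^ 2 + 40 < L ^ 3 := by
        have e : L ^ 3 = L * L ^ 2 := by ring
        rw [e]
        nlinarith [mul_le_mul_of_nonneg_right hL10 (sq_nonneg L)]
      linarith
    have hjV : V ≤ γ j := by
      by_contra h
      exact hjB (Or.inl (Or.inl (Set.mem_Iio.2 (not_le.1 h))))
    have hjX : γ j ≤ X := by
      by_contra h
      exact hjB (Or.inl (Or.inr (Set.mem_Ioi.2 (not_le.1 h))))
    have hjE : j ∉ Exc := by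
      intro h
      apply hjB
      right
      rw [Finset.mem_coe]
      exact Finset.mem_image_of_mem γ h
    have hlt : Metric.infDist (gap γ j) Half < η * (Real.log (γ j)) ^ (-(3 / 2) : ℝ) := by
      by_contra h
      apply hjE
      rw [hExc, Finset.mem_filter, Set.Finite.mem_toFinset]
      exact ⟨hjX, hjV, not_lt.1 h⟩
    refine hlt.le.trans ?_
    have h1 : 3 / 4 * L ≤ Real.log (γ j) := hlV2.trans (Real.log_le_log hVpos hjV)
    have h2 : (Real.log (γ j)) ^ (-(3 / 2) : ℝ) ≤ (3 / 4 * L) ^ (-(3 / 2) : ℝ) :=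
      Real.rpow_le_rpow_of_nonpos (by positivity) h1 (by norm_num)
    have h3 : (3 / 4 * L) ^ (-(3 / 2) : ℝ) ≤ 2 * L ^ (-(3 / 2) : ℝ) := by
      rw [Real.mul_rpow (by norm_num) hL0.le]
      apply mul_le_mul_of_nonneg_right _ (by positivity)
      calc (3 / 4 : ℝ) ^ (-(3 / 2) : ℝ) = (4 / 3 : ℝ) ^ (3 / 2 : ℝ) := by
            rw [Real.rpow_neg (by norm_num), ← Real.inv_rpow (by norm_num)]; norm_num
        _ ≤ (4 / 3 : ℝ) ^ (2 : ℝ) := Real.rpow_le_rpow_of_exponent_le (by norm_num) (by norm_num)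
        _ ≤ 2 := by norm_num
    calc η * (Real.log (γ j)) ^ (-(3 / 2) : ℝ) ≤ η * (2 * L ^ (-(3 / 2) : ℝ)) :=
          mul_le_mul_of_nonneg_left (h2.trans h3) hη.le
      _ = φ0 := by rw [hφ0]; ring
  refine ⟨?_, ?_, fun T hT => (hmain T hT).1, fun T hT => (hmain T hT).2⟩
  · intro T hT
    exact Or.inl (Or.inl (Set.mem_Iio.2 (hT.trans_le hsV)))
  · intro T hT
    exact Or.inl (Or.inr (Set.mem_Ioi.2 hT))

end H345
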