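import Pool.Agent.H345R2.FinalC
import Pool.Agent.H345R2.Assemble
import Pool.Agent.H345R2.Lattice
import Pool.Agent.H345R2.Final

set_option autoImplicit false

open Complex Filter Topology Set MeasureTheory

namespace H345



/-- the measure of the bad set times a small power is `o(X)` -/
lemma bad_small2 {X ε s : ℝ} (hX : 1 ≤ X) (hε : 0 < ε) (hε1 : ε ≤ 1)
    (h1 : X ^ (-(ε / 8)) ≤ s / 25) (h2 : (Real.log X) ^ 3 ≤ X ^ (ε / 8)) {N : ℝ}
    (hN : N ≤ X ^ (1 - ε)) :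
    (X ^ (1 - ε / 4) + 6 * (4 / 3 * (Real.log X) ^ 3) * (N + 2)) * (X ^ (ε / 16)) ^ 2 ≤ s * X := by
  have hX0 : 0 < X := by linarith
  have e1 : (X ^ (ε / 16)) ^ 2 = X ^ (ε / 8) := by
    rw [← Real.rpow_natCast (X ^ (ε / 16)) 2, ← Real.rpow_mul hX0.le]
    congr 1
    push_cast
    ring
  rw [e1]
  have e2 : (1 : ℝ) ≤ X ^ (1 - ε) := Real.one_le_rpow hX (by linarith)
  have e3 : N + 2 ≤ 3 * X ^ (1 - ε) := by linarith
  have hl : 0 ≤ (Real.log X) ^ 3 := pow_nonneg (Real.log_nonneg hX) 3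
  have e4 : 6 * (4 / 3 * (Real.log X) ^ 3) * (N + 2) ≤ 8 * X ^ (ε / 8) * (3 * X ^ (1 - ε)) := by
    calc 6 * (4 / 3 * (Real.log X) ^ 3) * (N + 2) ≤
          6 * (4 / 3 * (Real.log X) ^ 3) * (3 * X ^ (1 - ε)) :=
          mul_le_mul_of_nonneg_left e3 (by positivity)
      _ ≤ 8 * X ^ (ε / 8) * (3 * X ^ (1 - ε)) := by
          apply mul_le_mul_of_nonneg_right _ (by positivity)
          linarith
  have e5 : 8 * X ^ (ε / 8) * (3 * X ^ (1 - ε)) = 24 * X ^ (1 - 7 * ε / 8) := by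
    have : X ^ (1 - 7 * ε / 8) = X ^ (ε / 8) * X ^ (1 - ε) := by
      rw [← Real.rpow_add hX0]; congr 1; ring
    rw [this]; ring
  have e6 : X ^ (1 - 7 * ε / 8) ≤ X ^ (1 - ε / 4) :=
    Real.rpow_le_rpow_of_exponent_le hX (by linarith)
  have e7 : X ^ (1 - ε / 4) * X ^ (ε / 8) = X * X ^ (-(ε / 8)) := by
    nth_rewrite 3 [← Real.rpow_one X]
    rw [← Real.rpow_add hX0, ← Real.rpow_add hX0]
    congr 1
    ring
  have h8 : 0 ≤ X ^ (ε / 8) := by positivity
  calc (X ^ (1 - ε / 4) + 6 * (4 / 3 * (Real.log X) ^ 3) * (N + 2)) * X ^ (ε / 8) ≤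
        (25 * X ^ (1 - ε / 4)) * X ^ (ε / 8) := by
        apply mul_le_mul_of_nonneg_right _ h8
        linarith
    _ = 25 * (X * X ^ (-(ε / 8))) := by rw [← e7]; ring
    _ ≤ 25 * (X * (s / 25)) := by
        apply mul_le_mul_of_nonneg_left _ (by norm_num)
        exact mul_le_mul_of_nonneg_left h1 hX0.le
    _ = s * X := by ring

theorem core2 (hRH : RiemannHypothesis) (Cg : ℝ) (hCg : 0 < Cg) : ∃ η : ℝ, 0 < η ∧ η ≤ 1 ∧
    ∀ ε : ℝ, 0 < ε → ε ≤ 1 → ∃ X0 : ℝ, ∀ X : ℝ, X0 ≤ X → ∀ E : Finset ℝ,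
      (E.card : ℝ) ≤ X ^ (1 - ε) →
      ¬ Adm (Cg * (2 * η / Real.log X)) X (BB (X ^ (1 - ε / 4)) X E) := by
  set c0 : ℝ := 2 * Real.pi * Real.exp 2 with hc0
  have hc00 : 0 < c0 := by positivity
  set q : ℝ := 1 + 2 * Real.pi * c0 with hq
  have hq0 : 1 < q := by
    have : 0 < 2 * Real.pi * c0 := by positivity
    linarith
  set c' : ℝ := c0 / q with hc'
  have hc'0 : 0 < c' := by positivity
  have hc'q : c' * q = c0 := by rw [hc']; field_simp
  have hy1 : 2 * Real.pi * Real.exp 2 / c0 = 1 := by rw [← hc0]; field_simp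
  have hy2 : 2 * Real.pi * Real.exp 2 / c' = 1 + 4 * Real.pi ^ 2 * Real.exp 2 := by
    rw [← hc0, hc']
    have : c0 / (c0 / q) = q := by field_simp
    rw [this, hq, hc0]; ring
  have hQ0 : 0 < 1 + 4 * Real.pi ^ 2 * Real.exp 2 := by positivity
  -- choice of the parameters
  obtain ⟨A0, hgram⟩ := gram_compare c0 hc00 (1 / 100) (by norm_num)
  obtain ⟨K, hK, A1, htriv⟩ := gram_trivial c' hc'0
  obtain ⟨A2, hA2, hone⟩ := DD_false_one
  set δ : ℝ := 1 / (20 * q) with hδ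
  have hδ0 : 0 < δ := by positivity
  have hδ1 : 4 * q * δ ^ 2 ≤ 1 / 100 := by
    rw [hδ]
    have : 4 * q * (1 / (20 * q)) ^ 2 = 1 / (100 * q) := by field_simp; norm_num
    rw [this]
    apply one_div_le_one_div_of_le (by norm_num)
    linarith
  obtain ⟨A3, hA3, hqq⟩ := DD_false_q δ hδ0
  obtain ⟨A, hA⟩ : ∃ A : ℕ, A = max (max A0 A1) (max A2 A3) := ⟨_, rfl⟩
  have hAA0 : A0 ≤ A := by rw [hA]; exact (le_max_left _ _).trans (le_max_left _ _)
  have hAA1 : A1 ≤ A := by rw [hA]; exact (le_max_right _ _).trans (le_max_left _ _)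
  have hAA2 : A2 ≤ A := by rw [hA]; exact (le_max_left _ _).trans (le_max_right _ _)
  have hAA3 : A3 ≤ A := by rw [hA]; exact (le_max_right _ _).trans (le_max_right _ _)
  have hA4 : 4 ≤ A := hA2.trans hAA2
  obtain ⟨A', hAA', Y0, hgr⟩ := hgram A hAA0
  have hA'4 : 4 ≤ A' := hA4.trans hAA'
  obtain ⟨Y1, htr⟩ := htriv A' (hAA1.trans hAA')
  have hone' := hone A hAA2
  have hqq' := hqq A' (hAA3.trans hAA')
  -- δ2
  obtain ⟨δ2, hδ2⟩ : ∃ δ2 : ℝ, δ2 = min (c0 / 100) (c' / (800 * q * K)) := ⟨_, rfl⟩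
  have hδ20 : 0 < δ2 := by rw [hδ2]; exact lt_min (by positivity) (by positivity)
  have hδ21 : δ2 ≤ c0 / 100 := by rw [hδ2]; exact min_le_left _ _
  have hδ22 : δ2 ≤ c' / (800 * q * K) := by rw [hδ2]; exact min_le_right _ _
  have hexp1 : Real.exp (-(c0 / δ2)) ≤ 1 / 100 := by
    refine (exp_neg_le_inv (by positivity)).trans ?_
    rw [one_div_div, div_le_div_iff₀ hc00 (by norm_num)]
    linarith
  have hexp2 : 4 * q * K * Real.exp (-(c' / (2 * δ2))) ≤ 1 / 100 := by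
    have h1 := exp_neg_le_inv (show 0 < c' / (2 * δ2) by positivity)
    rw [one_div_div] at h1
    calc 4 * q * K * Real.exp (-(c' / (2 * δ2))) ≤ 4 * q * K * (2 * δ2 / c') :=
          mul_le_mul_of_nonneg_left h1 (by positivity)
      _ = 8 * q * K / c' * δ2 := by ring
      _ ≤ 8 * q * K / c' * (c' / (800 * q * K)) :=
          mul_le_mul_of_nonneg_left hδ22 (by positivity)
      _ = 1 / 100 := by field_simp; norm_num
  -- comparison constants
  obtain ⟨CA, ηA, XA, hCA, hηA, hXA, hcA⟩ := compare2 hRH A hA4 c0 hc00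
  obtain ⟨CB, ηB, XB, hCB, hηB, hXB, hcB⟩ := compare2 hRH A' hA'4 c' hc'0
  rw [hy1] at hcA
  rw [hy2] at hcB
  -- η
  obtain ⟨m, hm⟩ : ∃ m : ℝ, m = δ2 / (100 * (4 * Cg ^ 2) * (c0 * CA + 4 * c0 * CB)) := ⟨_, rfl⟩
  have hm0 : 0 < m := by rw [hm]; positivity
  have hηAB : 0 < min ηA ηB := lt_min hηA hηB
  obtain ⟨η, hη⟩ : ∃ η : ℝ, η = min (min 1 m) (min ηA ηB / (2 * Cg)) := ⟨_, rfl⟩
  have hη0 : 0 < η := by rw [hη]; exact lt_min (lt_min one_pos hm0) (by positivity)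
  have hη1 : η ≤ 1 := by rw [hη]; exact (min_le_left _ _).trans (min_le_left _ _)
  have hηm : η ≤ m := by rw [hη]; exact (min_le_left _ _).trans (min_le_right _ _)
  have hηAB' : 2 * Cg * η ≤ min ηA ηB := by
    have : η ≤ min ηA ηB / (2 * Cg) := by rw [hη]; exact min_le_right _ _
    rw [le_div_iff₀ (by positivity)] at this
    linarith
  have hηsq : 4 * Cg ^ 2 * η ^ 2 * (c0 * CA + 4 * c0 * CB) ≤ δ2 / 100 := by
    have h1 : η ^ 2 ≤ m := by nlinarith
    calc 4 * Cg ^ 2 * η ^ 2 * (c0 * CA + 4 * c0 * CB) ≤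
          4 * Cg ^ 2 * m * (c0 * CA + 4 * c0 * CB) := by
          apply mul_le_mul_of_nonneg_right _ (by positivity)
          exact mul_le_mul_of_nonneg_left h1 (by positivity)
      _ = δ2 / 100 := by rw [hm]; field_simp
  refine ⟨η, hη0, hη1, fun ε hε hε1 => ?_⟩
  -- pointwise bound
  obtain ⟨T0, hT0⟩ := DD_pointwise hRH A' hA'4 c' (ε / 16) hc'0 (by positivity)
  obtain ⟨Ct, hCt, hDt⟩ := DD_trivial true A' hA'4
  set s : ℝ := δ2 / (200 * c0) with hs
  have hs0 : 0 < s := by positivity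
  have hs1 : 2 * c0 * s ≤ δ2 / 100 := by
    rw [hs]; apply le_of_eq; field_simp; norm_num
  set s1 : ℝ := δ2 / (100 * (c0 * CA + 4 * c0 * CB)) with hs1d
  have hs10 : 0 < s1 := by positivity
  -- eventual conditions
  have ev1 : ∀ᶠ X : ℝ in atTop, 10 ≤ Real.log X := Real.tendsto_log_atTop.eventually_ge_atTop 10
  have ev2 : ∀ᶠ X : ℝ in atTop, X ^ (-(1 / 8) : ℝ) ≤ s1 :=
    (tendsto_rpow_neg_atTop (by norm_num : (0 : ℝ) < 1 / 8)).eventually_le_const hs10
  have ev3 : ∀ᶠ X : ℝ in atTop, X ^ (-(ε / 8)) ≤ s / 25 :=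
    (tendsto_rpow_neg_atTop (by positivity : (0 : ℝ) < ε / 8)).eventually_le_const (by positivity)
  have ev4 := ev_logcube ε hε
  have ev5 : ∀ᶠ X : ℝ in atTop, Ct * (1 + c' * |T0|) ≤ X ^ (ε / 16) :=
    (tendsto_rpow_atTop (by positivity : (0 : ℝ) < ε / 16)).eventually_ge_atTop _
  have ev7 : ∀ᶠ X : ℝ in atTop, max (max 10 (max XA XB)) (max (Y0 / δ2) (Y1 / δ2)) ≤ X :=
    eventually_ge_atTop _
  obtain ⟨X0, hX0⟩ := eventually_atTop.1 (ev1.and (ev2.and (ev3.and (ev4.and (ev5.and ev7)))))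
  refine ⟨X0, fun X hX E hE hAdm => ?_⟩
  obtain ⟨hL10, hX2, hX3, hX4, hX5, hX7⟩ := hX0 X hX
  have hX10 : 10 ≤ X := (le_max_left _ _).trans ((le_max_left _ _).trans hX7)
  have hXXA : XA ≤ X := (le_max_left _ _).trans ((le_max_right _ _).trans
    ((le_max_left _ _).trans hX7))
  have hXXB : XB ≤ X := (le_max_right _ _).trans ((le_max_right _ _).trans
    ((le_max_left _ _).trans hX7))
  have hXY0 : Y0 ≤ δ2 * X := by
    have : Y0 / δ2 ≤ X := (le_max_left _ _).trans ((le_max_right _ _).trans hX7)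
    rw [div_le_iff₀ hδ20] at this; linarith
  have hXpos : 0 < X := by linarith
  have hXY1 : Y1 ≤ 2 * (δ2 * X) := by
    have : Y1 / δ2 ≤ X := (le_max_right _ _).trans ((le_max_right _ _).trans hX7)
    rw [div_le_iff₀ hδ20] at this
    have h2 : 0 < δ2 * X := by positivity
    linarith
  set L := Real.log X with hL
  have hL0 : 0 < L := by linarith
  set φ : ℝ := Cg * (2 * η / L) with hφ
  have hφ0 : 0 ≤ φ := by positivity
  have hφL : φ * L = 2 * Cg * η := by rw [hφ]; field_simp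
  have hφL1 : φ * L ≤ min ηA ηB := by rw [hφL]; exact hηAB'
  have hφ2 : (φ * L) ^ 2 = 4 * Cg ^ 2 * η ^ 2 := by rw [hφL]; ring
  set B := BB (X ^ (1 - ε / 4)) X E with hB
  have hcmpA := hcA X hXXA φ hφ0 (hφL1.trans (min_le_left _ _)) B hAdm
  have hcmpB := hcB X hXXB φ hφ0 (hφL1.trans (min_le_right _ _)) B hAdm
  rw [← hL, hφ2] at hcmpA hcmpB
  -- the good set
  set G : Set ℝ := {T : ℝ | 4 * L ^ 3 ≤ Metric.infDist T B} with hG
  have hGm : MeasurableSet G :=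
    measurableSet_le measurable_const (Metric.continuous_infDist_pt B).measurable
  have hGsub : G ⊆ Set.Ioc 0 X := by
    intro T hT
    have hT' : 4 * L ^ 3 ≤ Metric.infDist T B := hT
    have hpos : 0 < Metric.infDist T B := lt_of_lt_of_le (by positivity) hT'
    have hTB : T ∉ B := fun h => by rw [Metric.infDist_zero_of_mem h] at hpos; exact lt_irrefl _ hpos
    have h1 : Real.sqrt X ≤ T := by
      by_contra h
      exact hTB (hAdm.low T (not_le.1 h))
    have h2 : T ≤ X := by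
      by_contra h
      exact hTB (hAdm.high T (not_le.1 h))
    exact ⟨lt_of_lt_of_le (Real.sqrt_pos.2 hXpos) h1, h2⟩
  set b : ℝ := X ^ (1 - ε / 4) + 6 * (4 / 3 * L ^ 3) * ((E.card : ℝ) + 2) with hb
  have hb0 : 0 ≤ b := by positivity
  have hbad : volume (Set.Ioc 0 X \ G) ≤ ENNReal.ofReal b := by
    refine (measure_mono ?_).trans (bad_measure (X ^ (1 - ε / 4)) X (4 / 3 * L ^ 3) (by positivity) ?_
      (by positivity) E)
    · rintro T ⟨⟨h1, h2⟩, h3⟩
      refine ⟨h1.le, h2, ?_⟩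
      have h4 : Metric.infDist T B < 4 * L ^ 3 := not_le.1 h3
      linarith
    · calc X ^ (1 - ε / 4) ≤ X ^ (1 : ℝ) :=
          Real.rpow_le_rpow_of_exponent_le (by linarith) (by linarith)
        _ = X := Real.rpow_one X
  have hbs := bad_small2 (s := s) (N := (E.card : ℝ)) (by linarith : (1:ℝ) ≤ X) hε hε1 hX3 hX4 hE
  have hM : ∀ T ∈ Set.Ioc 0 X, ‖DD true A' (c' * T) T‖ ≤ X ^ (ε / 16) := by
    intro T hT
    rcases le_or_gt T0 T with h | h
    · refine (hT0 T h).trans ?_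
      exact Real.rpow_le_rpow hT.1.le hT.2 (by positivity)
    · refine (hDt (c' * T) T (mul_pos hc'0 hT.1)).trans (le_trans ?_ hX5)
      apply mul_le_mul_of_nonneg_left _ hCt.le
      have : T ≤ |T0| := h.le.trans (le_abs_self _)
      have := mul_le_mul_of_nonneg_left this hc'0.le
      linarith
  set Y : ℝ := δ2 * X with hY
  have hY0 : 0 < Y := by positivity
  have hlow := JJ_low A hA4 c0 1 X Y b _ hc00 one_pos hXpos hY0 hb0 G hGm hGsub hbad hone' hcmpA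
  have hup := JJ_up A' hA'4 c' _ X Y b _ δ (X ^ (ε / 16)) hc'0 hQ0 hXpos hY0 hb0 (by positivity)
    G hGm hGsub hbad hqq' hM hcmpB
  have he1 : Real.exp (-(c0 * X) / Y) ≤ 1 / 100 := by
    have : -(c0 * X) / Y = -(c0 / δ2) := by rw [hY]; field_simp
    rw [this]; exact hexp1
  have he2 : 4 * q * K * Real.exp (-(c' * X) / (2 * Y)) ≤ 1 / 100 := by
    have : -(c' * X) / (2 * Y) = -(c' / (2 * δ2)) := by rw [hY]; field_simp
    rw [this]; exact hexp2
  have hJ2 := htr (2 * Y) hXY1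
  have hgr' := hgr Y hXY0
  have hM2 : 1 ≤ (X ^ (ε / 16)) ^ 2 := by
    have : 1 ≤ X ^ (ε / 16) := Real.one_le_rpow (by linarith) (by positivity)
    nlinarith
  have hs1' : (c0 * CA + 4 * c0 * CB) * s1 = δ2 / 100 := by rw [hs1d]; field_simp
  have hX2' : (c0 * CA + 4 * c0 * CB) * X ^ (-(1 / 8) : ℝ) ≤ δ2 / 100 := by
    rw [← hs1']; exact mul_le_mul_of_nonneg_left hX2 (by positivity)
  have hx8 : 0 ≤ X ^ (-(1 / 8) : ℝ) := by positivity
  have hp1 : 0 ≤ c0 * CA * (4 * Cg ^ 2 * η ^ 2) := by positivity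
  have hp2 : 0 ≤ 4 * c0 * CB * (4 * Cg ^ 2 * η ^ 2) := by positivity
  have hp3 : 0 ≤ c0 * CA * X ^ (-(1 / 8) : ℝ) := by positivity
  have hp4 : 0 ≤ 4 * c0 * CB * X ^ (-(1 / 8) : ℝ) := by positivity
  exact contra_arith (Y := Y) (X := X) (c0 := c0) (q := q) (c' := c')
    (a1 := c0 * (CA * (4 * Cg ^ 2 * η ^ 2 + X ^ (-(1 / 8) : ℝ))))
    (a2 := 4 * c0 * (CB * (4 * Cg ^ 2 * η ^ 2 + X ^ (-(1 / 8) : ℝ))))
    (M2 := (X ^ (ε / 16)) ^ 2) (K := K) (δ := δ) (s := s) (δ2 := δ2)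
    hY hY0 hXpos hc00 (by linarith) hc'q hb0 hM2 hK hlow hup hJ2 he1 (Real.exp_pos _).le he2 hδ1
    (le_of_eq (by ring)) (by linarith) (le_of_eq (by ring)) (by linarith) hbs hs1 hgr'



theorem main2 (hRH : RiemannHypothesis) (γ : ℕ → ℝ) (hγ : IsZeroList γ) : ∃ η : ℝ, 0 < η ∧
    ∀ ε : ℝ, 0 < ε → ∃ X0 : ℝ, ∀ X : ℝ, X0 ≤ X → ∃ S : Finset ℕ, X ^ (1 - ε) ≤ S.card ∧
      ∀ j ∈ S, γ j ≤ X ∧
        η / Real.log (γ j) ≤ Metric.infDist (gap γ j) Half := by
  classical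
  obtain ⟨Cg, Xg, hCg, hXg, hgood⟩ := good_of_list γ hγ
  obtain ⟨η, hη, hη1, hcore⟩ := core2 hRH Cg hCg
  refine ⟨η, hη, fun ε0 hε0 => ?_⟩
  obtain ⟨ε, hε⟩ : ∃ ε : ℝ, ε = min ε0 1 := ⟨_, rfl⟩
  have hεpos : 0 < ε := by rw [hε]; exact lt_min hε0 one_pos
  have hε1 : ε ≤ 1 := by rw [hε]; exact min_le_right _ _
  have hεε : ε ≤ ε0 := by rw [hε]; exact min_le_left _ _
  obtain ⟨Xc, hXc⟩ := hcore ε hεpos hε1
  have ev1 : ∀ᶠ X : ℝ in atTop, 10 ≤ Real.log X := Real.tendsto_log_atTop.eventually_ge_atTop 10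
  have ev2 : ∀ᶠ X : ℝ in atTop, Real.log X ≤ 2 * η * X ^ (1 / 4 : ℝ) := by
    have h := (isLittleO_log_rpow_atTop (r := 1 / 4)
      (by norm_num)).def (c := 2 * η) (by positivity)
    filter_upwards [h, ev1, eventually_ge_atTop 1] with X hX h1 h2
    rw [Real.norm_of_nonneg (by linarith), Real.norm_of_nonneg (by positivity)] at hX
    exact hX
  have ev4 : ∀ᶠ X : ℝ in atTop, 20 ≤ Real.log X := Real.tendsto_log_atTop.eventually_ge_atTop 20
  have ev3 : ∀ᶠ X : ℝ in atTop, max 10 (max Xg Xc) ≤ X := eventually_ge_atTop _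
  obtain ⟨X0, hX0⟩ := eventually_atTop.1 (ev1.and (ev2.and (ev3.and ev4)))
  refine ⟨X0, fun X hX => ?_⟩
  obtain ⟨hL10, hX2, hX3, hL20⟩ := hX0 X hX
  have hX10 : 10 ≤ X := (le_max_left _ _).trans hX3
  have hXXg : Xg ≤ X := (le_max_left _ _).trans ((le_max_right _ _).trans hX3)
  have hXXc : Xc ≤ X := (le_max_right _ _).trans ((le_max_right _ _).trans hX3)
  have hXpos : 0 < X := by linarith
  set L := Real.log X with hL
  have hL0 : 0 < L := by linarith
  set V : ℝ := X ^ (1 - ε / 4) with hV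
  have hVpos : 0 < V := by positivity
  have hsV : Real.sqrt X ≤ V := by
    rw [Real.sqrt_eq_rpow]
    exact Real.rpow_le_rpow_of_exponent_le (by linarith) (by linarith)
  have hlV : Real.log V = (1 - ε / 4) * L := by rw [hV, Real.log_rpow hXpos]
  have hlV2 : 3 / 4 * L ≤ Real.log V := by rw [hlV]; nlinarith
  set Exc : Finset ℕ := (list_finite hγ X).toFinset.filter (fun j => V ≤ γ j ∧
    η / Real.log (γ j) ≤ Metric.infDist (gap γ j) Half) with hExc
  refine ⟨Exc, ?_, ?_⟩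
  swap
  · intro j hj
    rw [hExc, Finset.mem_filter, Set.Finite.mem_toFinset] at hj
    exact ⟨hj.1, hj.2.2⟩
  have hmono : X ^ (1 - ε0) ≤ X ^ (1 - ε) :=
    Real.rpow_le_rpow_of_exponent_le (by linarith) (by linarith)
  refine hmono.trans ?_
  by_contra hcon
  push Not at hcon
  have hcard : ((Exc.image γ).card : ℝ) ≤ X ^ (1 - ε) := by
    refine le_trans ?_ hcon.le
    exact_mod_cast Finset.card_image_le
  refine hXc X hXXc (Exc.image γ) hcard ?_
  -- the threshold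
  set φ0 : ℝ := 2 * η / L with hφ0
  have hφ1 : X ^ (-(1 / 4) : ℝ) ≤ φ0 := by
    rw [hφ0, Real.rpow_neg hXpos.le, le_div_iff₀ hL0, inv_mul_le_iff₀ (by positivity)]
    linarith
  have hφ2 : φ0 ≤ 1 / 10 := by
    rw [hφ0, div_le_iff₀ hL0]
    linarith
  -- the gaps near a good height
  have hmain : ∀ T : ℝ, L ^ 3 ≤ Metric.infDist T (BB V X (Exc.image γ)) →
      Spaced X T ∧ Latt (Cg * φ0) X T := by
    intro T hT
    have hpos : 0 < Metric.infDist T (BB V X (Exc.image γ)) := lt_of_lt_of_le (by positivity) hT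
    have hTB : T ∉ BB V X (Exc.image γ) := fun h => by
      rw [Metric.infDist_zero_of_mem h] at hpos; exact lt_irrefl _ hpos
    have hTV : V ≤ T := by
      by_contra h
      exact hTB (Or.inl (Or.inl (Set.mem_Iio.2 (not_le.1 h))))
    have hTX : T ≤ X := by
      by_contra h
      exact hTB (Or.inl (Or.inr (Set.mem_Ioi.2 (not_le.1 h))))
    refine hgood X hXXg T (hsV.trans hTV) hTX φ0 hφ1 hφ2 fun j hj => ?_
    have hjB : γ j ∉ BB V X (Exc.image γ) := by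
      intro h
      have h1 := Metric.infDist_le_dist_of_mem (x := T) h
      rw [Real.dist_eq, abs_sub_comm] at h1
      have h2 : L ^ 2 + 40 < L ^ 3 := by
        have e : L ^ 3 = L * L ^ 2 := by ring
        rw [e]
        nlinarith [mul_le_mul_of_nonneg_right hL10 (sq_nonneg L)]
      linarith
    have hjV : V ≤ γ j := by
      by_contra h
      exact hjB (Or.inl (Or.inl (Set.mem_Iio.2 (not_le.1 h))))
    have hjX : γ j ≤ X := by
      by_contra h
      exact hjB (Or.inl (Or.inr (Set.mem_Ioi.2 (not_le.1 h))))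
    have hjE : j ∉ Exc := by
      intro h
      apply hjB
      right
      rw [Finset.mem_coe]
      exact Finset.mem_image_of_mem γ h
    have hlt : Metric.infDist (gap γ j) Half < η / Real.log (γ j) := by
      by_contra h
      apply hjE
      rw [hExc, Finset.mem_filter, Set.Finite.mem_toFinset]
      exact ⟨hjX, hjV, not_lt.1 h⟩
    refine hlt.le.trans ?_
    have h1 : 3 / 4 * L ≤ Real.log (γ j) := hlV2.trans (Real.log_le_log hVpos hjV)
    have h2 : 0 < Real.log (γ j) := by linarith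
    rw [hφ0, div_le_div_iff₀ h2 hL0]
    nlinarith
  refine ⟨?_, ?_, fun T hT => (hmain T hT).1, fun T hT => (hmain T hT).2⟩
  · intro T hT
    exact Or.inl (Or.inl (Set.mem_Iio.2 (hT.trans_le hsV)))
  · intro T hT
    exact Or.inl (Or.inr (Set.mem_Ioi.2 hT))

end H345
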