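import Pool.Agent.H345R2.Defs2

/-! The measure of the neighbourhood of the bad set. -/

open Complex Filter Topology Set MeasureTheory

namespace H345

theorem bad_measure (V X U : ℝ) (hV : 0 ≤ V) (hVX : V ≤ X) (hU : 0 < U) (E : Finset ℝ) :
    volume ({T : ℝ | 0 ≤ T ∧ T ≤ X ∧ Metric.infDist T (BB V X E) < 3 * U}) ≤
      ENNReal.ofReal (V + 6 * U * (E.card + 2)) := by
  have hne : (BB V X E).Nonempty := ⟨V - 1, Or.inl (Or.inl (by simp [Set.mem_Iio]))⟩
  have hsub : {T : ℝ | 0 ≤ T ∧ T ≤ X ∧ Metric.infDist T (BB V X E) < 3 * U} ⊆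
      (Set.Icc 0 (V + 3 * U) ∪ Set.Icc (X - 3 * U) X) ∪
        ⋃ e ∈ E, Set.Icc (e - 3 * U) (e + 3 * U) := by
    rintro T ⟨h0, hX, hd⟩
    obtain ⟨b, hb, hbT⟩ := (Metric.infDist_lt_iff hne).mp hd
    rw [Real.dist_eq, abs_lt] at hbT
    rcases hb with (hb | hb) | hb
    · left; left
      rw [Set.mem_Iio] at hb
      exact ⟨h0, by linarith⟩
    · left; right
      rw [Set.mem_Ioi] at hb
      exact ⟨by linarith, hX⟩
    · right
      rw [Set.mem_iUnion₂]
      exact ⟨b, hb, ⟨by linarith, by linarith⟩⟩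
  refine (measure_mono hsub).trans ?_
  refine (measure_union_le _ _).trans ?_
  have h1 : volume (Set.Icc (0 : ℝ) (V + 3 * U) ∪ Set.Icc (X - 3 * U) X) ≤
      ENNReal.ofReal (V + 6 * U) := by
    refine (measure_union_le _ _).trans ?_
    rw [Real.volume_Icc, Real.volume_Icc, ← ENNReal.ofReal_add (by linarith) (by linarith)]
    apply ENNReal.ofReal_le_ofReal
    linarith
  have h2 : volume (⋃ e ∈ E, Set.Icc (e - 3 * U) (e + 3 * U)) ≤
      ENNReal.ofReal (6 * U * E.card) := by
    refine (measure_biUnion_finset_le E _).trans ?_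
    have h3 : ∀ e ∈ E, volume (Set.Icc (e - 3 * U) (e + 3 * U)) = ENNReal.ofReal (6 * U) := by
      intro e _
      rw [Real.volume_Icc]
      congr 1
      ring
    rw [Finset.sum_congr rfl h3, Finset.sum_const, nsmul_eq_mul]
    have h4 : ENNReal.ofReal (6 * U * (E.card : ℝ)) = (E.card : ENNReal) * ENNReal.ofReal (6 * U) := by
      rw [mul_comm, ENNReal.ofReal_mul (by positivity), ENNReal.ofReal_natCast]
    rw [h4]
  refine (add_le_add h1 h2).trans ?_
  rw [← ENNReal.ofReal_add (by positivity) (by positivity)]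
  apply ENNReal.ofReal_le_ofReal
  nlinarith

end H345
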