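import Pool.Agent.H345R2.FinalA
import Pool.Agent.H345R2.Measure

set_option autoImplicit false

open Complex Filter Topology Set MeasureTheory

namespace H345

lemma F_cont (A : ℕ) (hA : 4 ≤ A) (c : ℝ) (hc : 0 < c) :
    ContinuousOn (fun T : ℝ => ‖DD true A (c * T) T‖) (Set.Ioi 0) := by
  have h := DD_cont true A hA
  have h2 : ContinuousOn (fun T : ℝ => ((c * T, T) : ℝ × ℝ)) (Set.Ioi 0) := by fun_prop
  have h3 : Set.MapsTo (fun T : ℝ => ((c * T, T) : ℝ × ℝ)) (Set.Ioi 0)
      (Set.Ioi (0:ℝ) ×ˢ (Set.univ : Set ℝ)) := by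
    intro T hT
    exact Set.mk_mem_prod (Set.mem_Ioi.2 (mul_pos hc (Set.mem_Ioi.1 hT))) (mem_univ T)
  have h4 := (h.comp h2 h3).norm
  simpa [Function.comp_def] using h4

lemma g_cont (e : Bool) (A : ℕ) (hA : 4 ≤ A) (y : ℝ) (hy : 0 < y) :
    Continuous (fun T : ℝ => ‖DD e A y T‖) := by
  have h := DD_cont e A hA
  have h2 : Continuous (fun T : ℝ => ((y, T) : ℝ × ℝ)) := by fun_prop
  have h3 : ∀ T : ℝ, ((y, T) : ℝ × ℝ) ∈ Set.Ioi (0:ℝ) ×ˢ (Set.univ : Set ℝ) :=
    fun T => Set.mk_mem_prod (Set.mem_Ioi.2 hy) (mem_univ T)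
  have h4 := (h.comp_continuous h2 h3).norm
  simpa [Function.comp_def] using h4

/-- integrability of the squared difference on bounded sets -/
lemma diff_int (A : ℕ) (hA : 4 ≤ A) (c y X : ℝ) (hc : 0 < c) (hy : 0 < y) (_hX : 0 < X) :
    IntegrableOn (fun T : ℝ => (‖DD true A (c * T) T‖ - ‖DD false A y T‖) ^ 2) (Set.Ioc 0 X) := by
  obtain ⟨C1, hC1, h1⟩ := DD_trivial true A hA
  obtain ⟨C2, hC2, h2⟩ := DD_trivial false A hA
  have hcont : ContinuousOn (fun T : ℝ => (‖DD true A (c * T) T‖ - ‖DD false A y T‖) ^ 2)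
      (Set.Ioi 0) :=
    ((F_cont A hA c hc).sub (g_cont false A hA y hy).continuousOn).pow 2
  have hms : AEStronglyMeasurable (fun T : ℝ => (‖DD true A (c * T) T‖ - ‖DD false A y T‖) ^ 2)
      (volume.restrict (Set.Ioc 0 X)) :=
    (hcont.mono Set.Ioc_subset_Ioi_self).aestronglyMeasurable measurableSet_Ioc
  have hconst : IntegrableOn (fun _ : ℝ => (C1 * (1 + c * X) + C2 * (1 + y)) ^ 2) (Set.Ioc 0 X) :=
    integrableOn_const (by simp [Real.volume_Ioc]) (by simp)
  refine Integrable.mono' hconst hms ?_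
  rw [ae_restrict_iff' measurableSet_Ioc]
  refine Eventually.of_forall fun T hT => ?_
  have hT0 : 0 < T := hT.1
  have k1 := h1 (c * T) T (by positivity)
  have k2 := h2 y T hy
  rw [Real.norm_eq_abs, abs_of_nonneg (sq_nonneg _)]
  have k3 : C1 * (1 + c * T) ≤ C1 * (1 + c * X) := by
    apply mul_le_mul_of_nonneg_left _ hC1.le
    have := mul_le_mul_of_nonneg_left hT.2 hc.le
    linarith
  have n1 := norm_nonneg (DD true A (c * T) T)
  have n2 := norm_nonneg (DD false A y T)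
  rw [← sq_abs (‖DD true A (c * T) T‖ - ‖DD false A y T‖)]
  apply pow_le_pow_left₀ (abs_nonneg _)
  rw [abs_le]
  constructor <;> nlinarith

lemma int_w (c Y X : ℝ) (hc : 0 < c) (hY : 0 < Y) (hX : 0 < X) :
    ∫ T in Set.Ioc 0 X, Real.exp (-(c * T) / Y) = Y / c * (1 - Real.exp (-(c * X) / Y)) := by
  rw [← intervalIntegral.integral_of_le hX.le]
  have h : ∀ T : ℝ, HasDerivAt (fun T : ℝ => -(Y / c) * Real.exp (-(c * T) / Y))
      (Real.exp (-(c * T) / Y)) T := by
    intro T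
    have h1 : HasDerivAt (fun T : ℝ => -(c * T) / Y) (-(c * 1) / Y) T :=
      (((hasDerivAt_id T).const_mul c).neg).div_const Y
    have h2 := (h1.exp).const_mul (-(Y / c))
    convert! h2 using 1
    field_simp
  rw [intervalIntegral.integral_eq_sub_of_hasDerivAt (fun T _ => h T)
    (by fun_prop : Continuous fun T : ℝ => Real.exp (-(c * T) / Y)).continuousOn.intervalIntegrable]
  simp
  ring

lemma int_w_Ioi (c Y : ℝ) (hc : 0 < c) (hY : 0 < Y) :
    IntegrableOn (fun T => Real.exp (-(c * T) / Y)) (Set.Ioi 0) ∧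
    ∫ T in Set.Ioi 0, Real.exp (-(c * T) / Y) = Y / c := by
  have e : (fun T : ℝ => Real.exp (-(c * T) / Y)) = fun T => Real.exp ((-(c / Y)) * T) := by
    funext T; congr 1; ring
  rw [e]
  have hneg : -(c / Y) < 0 := by have : 0 < c / Y := by positivity
                                 linarith
  refine ⟨integrableOn_exp_mul_Ioi hneg 0, ?_⟩
  rw [integral_exp_mul_Ioi hneg]
  simp

theorem JJ_low (A : ℕ) (hA : 4 ≤ A) (c y X Y b κ : ℝ) (hc : 0 < c) (hy : 0 < y) (hX : 0 < X)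
    (hY : 0 < Y) (hb0 : 0 ≤ b) (G : Set ℝ) (hGm : MeasurableSet G) (hG : G ⊆ Set.Ioc 0 X)
    (hb : volume (Set.Ioc 0 X \ G) ≤ ENNReal.ofReal b)
    (hg : ∀ T : ℝ, 9 / 10 ≤ ‖DD false A y T‖)
    (hκ : ∫ T in G, (‖DD true A (c * T) T‖ - ‖DD false A y T‖) ^ 2 ≤ κ) :
    2 / 5 * Y * (1 - Real.exp (-(c * X) / Y)) - c * b - c * κ ≤ JJ c A Y := by
  obtain ⟨hI, hJ⟩ := JJ_eq A hA c Y hc hY
  rw [hJ]
  have hwI : IntegrableOn (fun T : ℝ => Real.exp (-(c * T) / Y)) (Set.Ioc 0 X) :=
    (int_w_Ioi c Y hc hY).1.mono_set Set.Ioc_subset_Ioi_self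
  have hdI := (diff_int A hA c y X hc hy hX).mono_set hG
  have h1 : ∫ T in G, ‖DD true A (c * T) T‖ ^ 2 * Real.exp (-(c * T) / Y) ≤
      ∫ T in Set.Ioi (0 : ℝ), ‖DD true A (c * T) T‖ ^ 2 * Real.exp (-(c * T) / Y) := by
    apply setIntegral_mono_set hI
    · exact Eventually.of_forall fun T => by positivity
    · exact (hG.trans Set.Ioc_subset_Ioi_self).eventuallyLE
  have h2 : ∫ T in G, (2 / 5 * Real.exp (-(c * T) / Y) -
      (‖DD true A (c * T) T‖ - ‖DD false A y T‖) ^ 2) ≤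
      ∫ T in G, ‖DD true A (c * T) T‖ ^ 2 * Real.exp (-(c * T) / Y) := by
    apply setIntegral_mono_on _ _ hGm
    · intro T hT
      have hT0 : 0 < T := (hG hT).1
      have hw1 : Real.exp (-(c * T) / Y) ≤ 1 := by
        rw [Real.exp_le_one_iff]
        have : 0 ≤ c * T / Y := by positivity
        have h : -(c * T) / Y = -(c * T / Y) := by ring
        rw [h]; linarith
      have hw0 : 0 ≤ Real.exp (-(c * T) / Y) := (Real.exp_pos _).le
      have hgT := hg T
      set a := ‖DD true A (c * T) T‖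
      set g := ‖DD false A y T‖
      have e1 : g ^ 2 ≤ 2 * a ^ 2 + 2 * (a - g) ^ 2 := by nlinarith [sq_nonneg (2 * a - g)]
      have e2 : 81 / 100 ≤ g ^ 2 := by nlinarith
      have e3 : 2 / 5 ≤ a ^ 2 + (a - g) ^ 2 := by linarith
      have e4 : (a - g) ^ 2 * Real.exp (-(c * T) / Y) ≤ (a - g) ^ 2 := by
        nlinarith [sq_nonneg (a - g)]
      nlinarith
    · exact (hwI.mono_set hG).const_mul _ |>.sub hdI
    · exact hI.mono_set (hG.trans Set.Ioc_subset_Ioi_self)
  have h3 : ∫ T in G, (2 / 5 * Real.exp (-(c * T) / Y) -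
      (‖DD true A (c * T) T‖ - ‖DD false A y T‖) ^ 2) =
      2 / 5 * (∫ T in G, Real.exp (-(c * T) / Y)) -
        ∫ T in G, (‖DD true A (c * T) T‖ - ‖DD false A y T‖) ^ 2 := by
    rw [integral_sub ((hwI.mono_set hG).const_mul _) hdI, integral_const_mul]
  have h4 : Y / c * (1 - Real.exp (-(c * X) / Y)) - b ≤ ∫ T in G, Real.exp (-(c * T) / Y) := by
    rw [← int_w c Y X hc hY hX]
    have e1 : ∫ T in Set.Ioc 0 X, Real.exp (-(c * T) / Y) =
        (∫ T in G, Real.exp (-(c * T) / Y)) + ∫ T in Set.Ioc 0 X \ G, Real.exp (-(c * T) / Y) := by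
      rw [← setIntegral_union disjoint_sdiff_right (measurableSet_Ioc.diff hGm)
        (hwI.mono_set hG) (hwI.mono_set sdiff_subset), Set.union_sdiff_cancel hG]
    have e2 : ∫ T in Set.Ioc 0 X \ G, Real.exp (-(c * T) / Y) ≤ b := by
      have hfin : volume (Set.Ioc 0 X \ G) ≠ ⊤ := ne_top_of_le_ne_top ENNReal.ofReal_ne_top hb
      calc ∫ T in Set.Ioc 0 X \ G, Real.exp (-(c * T) / Y) ≤ ∫ T in Set.Ioc 0 X \ G, (1 : ℝ) := by
            apply setIntegral_mono_on (hwI.mono_set sdiff_subset) _ (measurableSet_Ioc.diff hGm)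
            · intro T hT
              have hT0 : 0 < T := hT.1.1
              rw [Real.exp_le_one_iff]
              have : 0 ≤ c * T / Y := by positivity
              have h : -(c * T) / Y = -(c * T / Y) := by ring
              rw [h]; linarith
            · exact integrableOn_const hfin (by simp)
        _ = (volume (Set.Ioc 0 X \ G)).toReal := by simp [Measure.real]
        _ ≤ b := ENNReal.toReal_le_of_le_ofReal hb0 hb
    linarith
  have h5 : c * (2 / 5 * (Y / c * (1 - Real.exp (-(c * X) / Y)) - b) - κ) ≤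
      c * ∫ T in Set.Ioi (0 : ℝ), ‖DD true A (c * T) T‖ ^ 2 * Real.exp (-(c * T) / Y) := by
    apply mul_le_mul_of_nonneg_left _ hc.le
    linarith
  refine le_trans ?_ h5
  have h6 : c * (2 / 5 * (Y / c * (1 - Real.exp (-(c * X) / Y)) - b) - κ) =
      2 / 5 * Y * (1 - Real.exp (-(c * X) / Y)) - 2 / 5 * (c * b) - c * κ := by
    field_simp
  rw [h6]
  have : 0 ≤ c * b := by positivity
  linarith

theorem JJ_up (A : ℕ) (hA : 4 ≤ A) (c y X Y b κ δ M : ℝ) (hc : 0 < c) (hy : 0 < y) (hX : 0 < X)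
    (hY : 0 < Y) (hb0 : 0 ≤ b) (_hM0 : 0 ≤ M) (G : Set ℝ) (hGm : MeasurableSet G)
    (hG : G ⊆ Set.Ioc 0 X)
    (hb : volume (Set.Ioc 0 X \ G) ≤ ENNReal.ofReal b)
    (hg : ∀ T : ℝ, ‖DD false A y T‖ ≤ δ)
    (hM : ∀ T ∈ Set.Ioc 0 X, ‖DD true A (c * T) T‖ ≤ M)
    (hκ : ∫ T in G, (‖DD true A (c * T) T‖ - ‖DD false A y T‖) ^ 2 ≤ κ) :
    JJ c A Y ≤ 2 * δ ^ 2 * Y + 2 * c * κ + c * b * M ^ 2 +
      Real.exp (-(c * X) / (2 * Y)) * JJ c A (2 * Y) := by
  obtain ⟨hI, hJ⟩ := JJ_eq A hA c Y hc hY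
  obtain ⟨hI2, hJ2⟩ := JJ_eq A hA c (2 * Y) hc (by linarith)
  rw [hJ, hJ2]
  obtain ⟨hwI0, hwV⟩ := int_w_Ioi c Y hc hY
  have hwI : IntegrableOn (fun T : ℝ => Real.exp (-(c * T) / Y)) (Set.Ioc 0 X) :=
    hwI0.mono_set Set.Ioc_subset_Ioi_self
  have hdI := (diff_int A hA c y X hc hy hX).mono_set hG
  have hw1 : ∀ T : ℝ, 0 < T → Real.exp (-(c * T) / Y) ≤ 1 := by
    intro T hT0
    rw [Real.exp_le_one_iff]
    have : 0 ≤ c * T / Y := by positivity
    have h : -(c * T) / Y = -(c * T / Y) := by ring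
    rw [h]; linarith
  -- decomposition
  have e0 : ∫ T in Set.Ioi (0 : ℝ), ‖DD true A (c * T) T‖ ^ 2 * Real.exp (-(c * T) / Y) =
      ((∫ T in G, ‖DD true A (c * T) T‖ ^ 2 * Real.exp (-(c * T) / Y)) +
      ∫ T in Set.Ioc 0 X \ G, ‖DD true A (c * T) T‖ ^ 2 * Real.exp (-(c * T) / Y)) +
      ∫ T in Set.Ioi X, ‖DD true A (c * T) T‖ ^ 2 * Real.exp (-(c * T) / Y) := by
    rw [← setIntegral_union disjoint_sdiff_right (measurableSet_Ioc.diff hGm)
        (hI.mono_set (hG.trans Set.Ioc_subset_Ioi_self))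
        (hI.mono_set (sdiff_subset.trans Set.Ioc_subset_Ioi_self)), Set.union_sdiff_cancel hG,
      ← setIntegral_union (Set.Ioc_disjoint_Ioi le_rfl) measurableSet_Ioi
        (hI.mono_set Set.Ioc_subset_Ioi_self) (hI.mono_set (Set.Ioi_subset_Ioi hX.le)),
      Set.Ioc_union_Ioi_eq_Ioi hX.le]
  have h1 : ∫ T in G, ‖DD true A (c * T) T‖ ^ 2 * Real.exp (-(c * T) / Y) ≤
      2 * δ ^ 2 * (Y / c) + 2 * κ := by
    calc ∫ T in G, ‖DD true A (c * T) T‖ ^ 2 * Real.exp (-(c * T) / Y) ≤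
          ∫ T in G, (2 * δ ^ 2 * Real.exp (-(c * T) / Y) +
            2 * (‖DD true A (c * T) T‖ - ‖DD false A y T‖) ^ 2) := by
          apply setIntegral_mono_on (hI.mono_set (hG.trans Set.Ioc_subset_Ioi_self)) _ hGm
          · intro T hT
            have hT0 : 0 < T := (hG hT).1
            have k1 := hw1 T hT0
            have k0 : 0 ≤ Real.exp (-(c * T) / Y) := (Real.exp_pos _).le
            have k2 := hg T
            have k3 := norm_nonneg (DD false A y T)
            set a := ‖DD true A (c * T) T‖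
            set g := ‖DD false A y T‖
            have e1 : a ^ 2 ≤ 2 * g ^ 2 + 2 * (a - g) ^ 2 := by nlinarith [sq_nonneg (a - 2 * g)]
            have e2 : g ^ 2 ≤ δ ^ 2 := pow_le_pow_left₀ k3 k2 2
            have e3 : a ^ 2 ≤ 2 * δ ^ 2 + 2 * (a - g) ^ 2 := by linarith
            calc a ^ 2 * Real.exp (-(c * T) / Y) ≤ (2 * δ ^ 2 + 2 * (a - g) ^ 2) *
                  Real.exp (-(c * T) / Y) := mul_le_mul_of_nonneg_right e3 k0
              _ ≤ 2 * δ ^ 2 * Real.exp (-(c * T) / Y) + 2 * (a - g) ^ 2 := by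
                  nlinarith [sq_nonneg (a - g)]
          · exact ((hwI.mono_set hG).const_mul _).add (hdI.const_mul _)
      _ = 2 * δ ^ 2 * (∫ T in G, Real.exp (-(c * T) / Y)) +
            2 * ∫ T in G, (‖DD true A (c * T) T‖ - ‖DD false A y T‖) ^ 2 := by
          rw [integral_add ((hwI.mono_set hG).const_mul _) (hdI.const_mul _), integral_const_mul,
            integral_const_mul]
      _ ≤ 2 * δ ^ 2 * (Y / c) + 2 * κ := by
          have k1 : ∫ T in G, Real.exp (-(c * T) / Y) ≤ Y / c := by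
            rw [← hwV]
            apply setIntegral_mono_set hwI0
            · exact Eventually.of_forall fun T => by positivity
            · exact (hG.trans Set.Ioc_subset_Ioi_self).eventuallyLE
          have := mul_le_mul_of_nonneg_left k1 (show 0 ≤ 2 * δ ^ 2 by positivity)
          linarith
  have h2 : ∫ T in Set.Ioc 0 X \ G, ‖DD true A (c * T) T‖ ^ 2 * Real.exp (-(c * T) / Y) ≤
      b * M ^ 2 := by
    have hfin : volume (Set.Ioc 0 X \ G) ≠ ⊤ := ne_top_of_le_ne_top ENNReal.ofReal_ne_top hb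
    calc ∫ T in Set.Ioc 0 X \ G, ‖DD true A (c * T) T‖ ^ 2 * Real.exp (-(c * T) / Y) ≤
          ∫ T in Set.Ioc 0 X \ G, M ^ 2 := by
          apply setIntegral_mono_on (hI.mono_set (sdiff_subset.trans Set.Ioc_subset_Ioi_self)) _
            (measurableSet_Ioc.diff hGm)
          · intro T hT
            have k1 := hw1 T hT.1.1
            have k2 := pow_le_pow_left₀ (norm_nonneg _) (hM T hT.1) 2
            have k3 : 0 ≤ ‖DD true A (c * T) T‖ ^ 2 := by positivity
            calc ‖DD true A (c * T) T‖ ^ 2 * Real.exp (-(c * T) / Y) ≤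
                  ‖DD true A (c * T) T‖ ^ 2 * 1 := mul_le_mul_of_nonneg_left k1 k3
              _ ≤ M ^ 2 := by linarith
          · exact integrableOn_const hfin (by simp)
      _ = (volume (Set.Ioc 0 X \ G)).toReal * M ^ 2 := by simp [Measure.real]
      _ ≤ b * M ^ 2 := by
          apply mul_le_mul_of_nonneg_right (ENNReal.toReal_le_of_le_ofReal hb0 hb) (by positivity)
  have h3 : ∫ T in Set.Ioi X, ‖DD true A (c * T) T‖ ^ 2 * Real.exp (-(c * T) / Y) ≤
      Real.exp (-(c * X) / (2 * Y)) * ∫ T in Set.Ioi (0 : ℝ),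
        ‖DD true A (c * T) T‖ ^ 2 * Real.exp (-(c * T) / (2 * Y)) := by
    calc ∫ T in Set.Ioi X, ‖DD true A (c * T) T‖ ^ 2 * Real.exp (-(c * T) / Y) ≤
          ∫ T in Set.Ioi X, Real.exp (-(c * X) / (2 * Y)) *
            (‖DD true A (c * T) T‖ ^ 2 * Real.exp (-(c * T) / (2 * Y))) := by
          apply setIntegral_mono_on (hI.mono_set (Set.Ioi_subset_Ioi hX.le)) _ measurableSet_Ioi
          · intro T hT
            have hT' : X < T := hT
            have k1 : Real.exp (-(c * T) / Y) ≤ Real.exp (-(c * X) / (2 * Y)) *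
                Real.exp (-(c * T) / (2 * Y)) := by
              rw [← Real.exp_add]
              apply Real.exp_le_exp.2
              rw [← sub_nonneg]
              have : -(c * X) / (2 * Y) + -(c * T) / (2 * Y) - -(c * T) / Y =
                c * (T - X) / (2 * Y) := by field_simp; ring
              rw [this]
              have : 0 ≤ T - X := by linarith
              positivity
            calc ‖DD true A (c * T) T‖ ^ 2 * Real.exp (-(c * T) / Y) ≤
                  ‖DD true A (c * T) T‖ ^ 2 * (Real.exp (-(c * X) / (2 * Y)) *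
                Real.exp (-(c * T) / (2 * Y))) := mul_le_mul_of_nonneg_left k1 (by positivity)
              _ = _ := by ring
          · exact (hI2.mono_set (Set.Ioi_subset_Ioi hX.le)).const_mul _
      _ = Real.exp (-(c * X) / (2 * Y)) * ∫ T in Set.Ioi X,
            (‖DD true A (c * T) T‖ ^ 2 * Real.exp (-(c * T) / (2 * Y))) := by
          rw [integral_const_mul]
      _ ≤ _ := by
          apply mul_le_mul_of_nonneg_left _ (Real.exp_pos _).le
          apply setIntegral_mono_set hI2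
          · exact Eventually.of_forall fun T => by positivity
          · exact (Set.Ioi_subset_Ioi hX.le).eventuallyLE
  rw [e0]
  have h4 : c * (((∫ T in G, ‖DD true A (c * T) T‖ ^ 2 * Real.exp (-(c * T) / Y)) +
      ∫ T in Set.Ioc 0 X \ G, ‖DD true A (c * T) T‖ ^ 2 * Real.exp (-(c * T) / Y)) +
      ∫ T in Set.Ioi X, ‖DD true A (c * T) T‖ ^ 2 * Real.exp (-(c * T) / Y)) ≤
      c * ((2 * δ ^ 2 * (Y / c) + 2 * κ + b * M ^ 2) + Real.exp (-(c * X) / (2 * Y)) *
        ∫ T in Set.Ioi (0 : ℝ), ‖DD true A (c * T) T‖ ^ 2 * Real.exp (-(c * T) / (2 * Y))) := by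
    apply mul_le_mul_of_nonneg_left _ hc.le
    linarith
  refine h4.trans (le_of_eq ?_)
  have : c * (2 * δ ^ 2 * (Y / c)) = 2 * δ ^ 2 * Y := by field_simp
  linear_combination this

end H345
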