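import Pool.Agent.H732R2.GramF

/-! TEAM AH, module Gram (task 9): `H345.gram_compare`, `H345.gram_trivial` are proved in
`Pool.Agent.H732R2.GramF` (parts A-F: closed form, key exponential approximation, kernel bounds,
assembly). -/
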