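import Pool.Agent.H345R2.Kernel
import Pool.Agent.H332R2.FL.Littlewood

open Complex Filter Topology Set MeasureTheory

namespace H345

lemma pt_int_exp {k : ℝ} (hk : 0 < k) : Integrable (fun τ : ℝ => Real.exp (-k * |τ|)) := by
  have h1 : IntegrableOn (fun τ : ℝ => Real.exp (-k * |τ|)) (Ioi 0) := by
    refine (integrableOn_exp_mul_Ioi (a := -k) (by linarith) 0).congr_fun (fun x hx => ?_)
      measurableSet_Ioi
    simp only [mem_Ioi] at hx
    simp [abs_of_pos hx]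
  have h2 : IntegrableOn (fun τ : ℝ => Real.exp (-k * |τ|)) (Iic 0) := by
    refine (integrableOn_exp_mul_Iic (a := k) hk 0).congr_fun (fun x hx => ?_)
      measurableSet_Iic
    simp only [mem_Iic] at hx
    simp [abs_of_nonpos hx]
  have h3 := h2.union h1
  rwa [Iic_union_Ioi, integrableOn_univ] at h3

/-- contour shift between two vertical lines -/
lemma pt_vshift (f : ℂ → ℂ) (a b : ℝ) (hab : a ≤ b) (C k : ℝ) (hk : 0 < k)
    (hd : ∀ w : ℂ, a ≤ w.re → w.re ≤ b → DifferentiableAt ℂ f w)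
    (hb : ∀ w : ℂ, a ≤ w.re → w.re ≤ b → ‖f w‖ ≤ C * Real.exp (-k * |w.im|)) :
    (Integrable fun τ : ℝ => f ((a:ℂ) + (τ:ℂ) * I)) ∧
    (Integrable fun τ : ℝ => f ((b:ℂ) + (τ:ℂ) * I)) ∧
    ∫ τ : ℝ, f ((a:ℂ) + (τ:ℂ) * I) = ∫ τ : ℝ, f ((b:ℂ) + (τ:ℂ) * I) := by
  have hint : ∀ x : ℝ, a ≤ x → x ≤ b → Integrable fun τ : ℝ => f ((x:ℂ) + (τ:ℂ) * I) := by
    intro x hx1 hx2
    have hc : Continuous fun τ : ℝ => f ((x:ℂ) + (τ:ℂ) * I) := by
      rw [continuous_iff_continuousAt]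
      intro τ
      have h1 : ContinuousAt f ((x:ℂ) + (τ:ℂ) * I) :=
        (hd _ (by simpa using hx1) (by simpa using hx2)).continuousAt
      exact ContinuousAt.comp (f := fun τ : ℝ => (x:ℂ) + (τ:ℂ) * I) h1 (by fun_prop)
    refine Integrable.mono' ((pt_int_exp hk).const_mul C) hc.aestronglyMeasurable ?_
    refine Filter.Eventually.of_forall fun τ => ?_
    have := hb ((x:ℂ) + (τ:ℂ) * I) (by simpa using hx1) (by simpa using hx2)
    simpa using this
  have hia := hint a le_rfl hab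
  have hib := hint b hab le_rfl
  refine ⟨hia, hib, ?_⟩
  have hVa := intervalIntegral_tendsto_integral (μ := volume) hia tendsto_neg_atTop_atBot tendsto_id
  have hVb := intervalIntegral_tendsto_integral (μ := volume) hib tendsto_neg_atTop_atBot tendsto_id
  -- horizontal pieces
  have hH : ∀ R : ℝ, 0 ≤ R → ‖(∫ τ in (-R)..R, f ((b:ℂ) + (τ:ℂ) * I)) -
      ∫ τ in (-R)..R, f ((a:ℂ) + (τ:ℂ) * I)‖ ≤ 2 * (C * Real.exp (-k * R) * (b - a)) := by
    intro R hR
    have h0 := Complex.integral_boundary_rect_eq_zero_of_differentiableOn f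
      ((a:ℂ) + ((-R : ℝ):ℂ) * I) ((b:ℂ) + ((R : ℝ):ℂ) * I) (by
        intro w hw
        rw [Complex.mem_reProdIm] at hw
        simp only [add_re, ofReal_re, mul_re, I_re, mul_zero, ofReal_im, I_im, mul_one, sub_self,
          add_zero, uIcc_of_le hab] at hw
        exact (hd w hw.1.1 hw.1.2).differentiableWithinAt)
    simp only [add_re, ofReal_re, mul_re, I_re, mul_zero, ofReal_im, I_im, mul_one, sub_self,
      add_zero, add_im, mul_im, zero_add] at h0
    have hbd : ∀ y : ℝ, |y| = R → ‖∫ x : ℝ in a..b, f ((x:ℂ) + (y:ℂ) * I)‖ ≤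
        C * Real.exp (-k * R) * (b - a) := by
      intro y hy
      have := intervalIntegral.norm_integral_le_of_norm_le_const (a := a) (b := b)
        (C := C * Real.exp (-k * R)) (f := fun x : ℝ => f ((x:ℂ) + (y:ℂ) * I)) (by
          intro x hx
          rw [uIoc_of_le hab] at hx
          have := hb ((x:ℂ) + (y:ℂ) * I) (by simpa using hx.1.le) (by simpa using hx.2)
          simpa [hy] using this)
      rwa [abs_of_nonneg (sub_nonneg.2 hab)] at this
    have h1 := hbd (-R) (by rw [abs_neg, abs_of_nonneg hR])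
    have h2 := hbd R (abs_of_nonneg hR)
    have h3 : I • ((∫ τ in (-R)..R, f ((b:ℂ) + (τ:ℂ) * I)) -
      ∫ τ in (-R)..R, f ((a:ℂ) + (τ:ℂ) * I)) = (∫ x : ℝ in a..b, f ((x:ℂ) + ((R:ℝ):ℂ) * I)) -
        ∫ x : ℝ in a..b, f ((x:ℂ) + ((-R:ℝ):ℂ) * I) := by
      rw [smul_sub]
      linear_combination h0
    have h4 : ‖(∫ τ in (-R)..R, f ((b:ℂ) + (τ:ℂ) * I)) -
      ∫ τ in (-R)..R, f ((a:ℂ) + (τ:ℂ) * I)‖ = ‖I • ((∫ τ in (-R)..R, f ((b:ℂ) + (τ:ℂ) * I)) -
      ∫ τ in (-R)..R, f ((a:ℂ) + (τ:ℂ) * I))‖ := by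
      rw [norm_smul, norm_I, one_mul]
    rw [h4, h3]
    refine (norm_sub_le _ _).trans ?_
    linarith
  have hlim : Tendsto (fun R : ℝ => 2 * (C * Real.exp (-k * R) * (b - a))) atTop (𝓝 0) := by
    have h1 : Tendsto (fun R : ℝ => Real.exp (-k * R)) atTop (𝓝 0) := by
      refine Real.tendsto_exp_atBot.comp ?_
      have := tendsto_neg_atTop_atBot.comp (tendsto_id.const_mul_atTop hk)
      refine this.congr fun x => by simp
    have := ((h1.const_mul C).mul_const (b - a)).const_mul 2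
    simpa using this
  have h5 : Tendsto (fun R : ℝ => (∫ τ in (-R)..R, f ((b:ℂ) + (τ:ℂ) * I)) -
      ∫ τ in (-R)..R, f ((a:ℂ) + (τ:ℂ) * I)) atTop (𝓝 0) := by
    refine squeeze_zero_norm' ?_ hlim
    filter_upwards [eventually_ge_atTop (0:ℝ)] with R hR using hH R hR
  have h6 := hVb.sub hVa
  have h7 := tendsto_nhds_unique h6 h5
  exact (sub_eq_zero.1 h7).symm

/-- `1/ζ` as a holomorphic function near `1` too -/
noncomputable def QQ (s : ℂ) : ℂ := (s - 1) / riemannZeta₁ s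

lemma QQ_eq {s : ℂ} (hs : s ≠ 1) : QQ s = (riemannZeta s)⁻¹ := by
  unfold QQ
  rw [Pool.Agent.H437R2.z1_of_ne hs, div_mul_eq_div_div, div_self (sub_ne_zero.2 hs), one_div]

lemma pt_z1_ne (hRH : RiemannHypothesis) {s : ℂ} (hs : 1 / 2 < s.re) : riemannZeta₁ s ≠ 0 := by
  intro h
  have h1 := Pool.Agent.H437R2.z1_zero_zeta h
  have h2 := Pool.Agent.H437R2.z1_zero_re h
  have h3 := hRH s h1 (by
    rintro ⟨n, hn⟩
    have := congrArg Complex.re hn
    simp at this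
    have hn0 : (0:ℝ) ≤ n := n.cast_nonneg
    linarith) (by
    intro h4
    rw [h4] at h2
    simp at h2)
  linarith

lemma QQ_bound (hRH : RiemannHypothesis) (δ ε : ℝ) (hδ : 0 < δ) (hε : 0 < ε) :
    ∃ C : ℝ, 0 < C ∧ ∀ s : ℂ, 1 / 2 + δ ≤ s.re → ‖QQ s‖ ≤ C * (|s.im| + 3) ^ ε := by
  obtain ⟨C, hC, hb⟩ := H332.FL.littlewood (1 / 2) (1 / 2 + δ) le_rfl (by norm_num) (by linarith)
    (fun s hs => pt_z1_ne hRH hs) ε hε
  refine ⟨C, hC, fun s hs => ?_⟩
  have h1 := (hb s hs).2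
  have h2 : QQ s = (s - 1) / (s + 1) * (riemannZeta₁ s / (s + 1))⁻¹ := by
    have hs1 : s + 1 ≠ 0 := by
      intro h
      have := congrArg Complex.re h
      simp at this
      linarith
    unfold QQ
    field_simp
  have h3 : ‖(s - 1) / (s + 1)‖ ≤ 1 := by
    rw [norm_div]
    apply div_le_one_of_le₀ _ (norm_nonneg _)
    rw [← sq_le_sq₀ (norm_nonneg _) (norm_nonneg _), ← Complex.normSq_eq_norm_sq,
      ← Complex.normSq_eq_norm_sq, Complex.normSq_apply, Complex.normSq_apply]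
    simp
    nlinarith
  rw [h2, norm_mul]
  calc _ ≤ 1 * ‖(riemannZeta₁ s / (s + 1))⁻¹‖ := by gcongr
    _ ≤ _ := by rw [one_mul]; exact h1

lemma pt_cpow_div {y n : ℝ} (hy : 0 < y) (hn : 0 < n) (w : ℂ) :
    ((y / n : ℝ) : ℂ) ^ w = (y : ℂ) ^ w * (n : ℂ) ^ (-w) := by
  have h1 : ((y / n : ℝ) : ℂ) ≠ 0 := by
    exact_mod_cast (div_pos hy hn).ne'
  have h2 : (y : ℂ) ≠ 0 := by exact_mod_cast hy.ne'
  have h3 : (n : ℂ) ≠ 0 := by exact_mod_cast hn.ne'
  rw [Complex.cpow_def_of_ne_zero h1, Complex.cpow_def_of_ne_zero h2,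
    Complex.cpow_def_of_ne_zero h3, ← Complex.exp_add, ← Complex.ofReal_log (div_pos hy hn).le,
    ← Complex.ofReal_log hy.le, ← Complex.ofReal_log hn.le, Real.log_div hy.ne' hn.ne']
  congr 1
  push_cast
  ring

/-- the integrand -/
noncomputable def ptF (A : ℕ) (y T : ℝ) (w : ℂ) : ℂ :=
  WW A w * (y : ℂ) ^ w * QQ (1 / 2 + w + (T : ℂ) * I)

lemma pt_repr (A : ℕ) (hA : 4 ≤ A) (y T : ℝ) (hy : 0 < y) :
    ∫ τ : ℝ, ptF A y T (((3 / 2 : ℝ) : ℂ) + (τ : ℂ) * I) = 2 * Real.pi * DD true A y T := by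
  obtain ⟨C, hC, hWb⟩ := WW_bound A hA
  set F : ℕ → ℝ → ℂ := fun n τ => ((ArithmeticFunction.moebius n : ℂ) *
    (n : ℂ) ^ (-(1 / 2 : ℂ) - (T : ℂ) * I)) * (WE true A (((3 / 2 : ℝ) : ℂ) + (τ : ℂ) * I) *
      ((y / n : ℝ) : ℂ) ^ (((3 / 2 : ℝ) : ℂ) + (τ : ℂ) * I)) with hF
  have hint : ∀ n, Integrable (F n) := by
    intro n
    rcases Nat.eq_zero_or_pos n with rfl | hn
    · simp [hF]
    · exact (WE_inv true A hA (y / n) (by positivity) (3 / 2) (by norm_num [abs_of_pos])).1.const_mul _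
  have hval : ∀ n, ∫ τ, F n τ = 2 * Real.pi * ((ArithmeticFunction.moebius n : ℂ) *
      (n : ℂ) ^ (-(1 / 2 : ℂ) - (T : ℂ) * I) * (ker true A (y / n) : ℂ)) := by
    intro n
    rcases Nat.eq_zero_or_pos n with rfl | hn
    · simp [hF]
    · rw [hF]
      simp only
      rw [integral_const_mul, (WE_inv true A hA (y / n) (by positivity) (3 / 2)
        (by norm_num [abs_of_pos])).2]
      ring
  have hnorm : ∀ n τ, ‖F n τ‖ ≤ (C * y ^ (3 / 2 : ℝ) * Real.exp (-(1 / 2) * |τ|)) *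
      (1 / (n : ℝ) ^ (2 : ℝ)) := by
    intro n τ
    rcases Nat.eq_zero_or_pos n with rfl | hn
    · simp [hF]
    · have hn' : (0:ℝ) < n := by exact_mod_cast hn
      have h1 : ‖((ArithmeticFunction.moebius n : ℤ) : ℂ)‖ ≤ 1 := by
        have := ArithmeticFunction.abs_moebius_le_one (n := n)
        rw [Complex.norm_intCast]
        exact_mod_cast this
      have h2 : ‖(n : ℂ) ^ (-(1 / 2 : ℂ) - (T : ℂ) * I)‖ = (n : ℝ) ^ (-(1 / 2) : ℝ) := by
        rw [Complex.norm_natCast_cpow_of_pos hn]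
        simp
      have h3 : ‖((y / n : ℝ) : ℂ) ^ (((3 / 2 : ℝ) : ℂ) + (τ : ℂ) * I)‖ = (y / n) ^ (3 / 2 : ℝ) := by
        rw [Complex.norm_cpow_eq_rpow_re_of_pos (by positivity)]
        simp
      have h4 : ‖WE true A (((3 / 2 : ℝ) : ℂ) + (τ : ℂ) * I)‖ ≤ C * Real.exp (-(1 / 2) * |τ|) := by
        have := hWb (((3 / 2 : ℝ) : ℂ) + (τ : ℂ) * I) (by
          simp only [add_re, ofReal_re, mul_re, I_re, mul_zero, ofReal_im, I_im, mul_one, sub_self,
            add_zero]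
          norm_num [abs_of_pos])
        simp only [WE, if_true]
        refine this.trans (le_of_eq ?_)
        simp only [add_im, ofReal_im, mul_im, ofReal_re, I_im, mul_one, I_re, mul_zero, add_zero,
          zero_add]
        congr 2
        ring
      have h5 : (n : ℝ) ^ (-(1 / 2) : ℝ) * (y / n) ^ (3 / 2 : ℝ) =
          y ^ (3 / 2 : ℝ) * (1 / (n : ℝ) ^ (2 : ℝ)) := by
        have e1 : (y / n) ^ (3 / 2 : ℝ) = y ^ (3 / 2 : ℝ) * (n : ℝ) ^ (-(3 / 2) : ℝ) := by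
          rw [Real.div_rpow hy.le hn'.le, Real.rpow_neg hn'.le, div_eq_mul_inv]
        have e2 : (n : ℝ) ^ (-(1 / 2) : ℝ) * (n : ℝ) ^ (-(3 / 2) : ℝ) = 1 / (n : ℝ) ^ (2 : ℝ) := by
          rw [← Real.rpow_add hn', show (-(1 / 2) : ℝ) + -(3 / 2) = -2 by norm_num,
            Real.rpow_neg hn'.le, one_div]
        rw [e1, mul_left_comm, e2]
      rw [hF]
      simp only [norm_mul]
      rw [h2, h3]
      calc ‖((ArithmeticFunction.moebius n : ℤ) : ℂ)‖ * (n : ℝ) ^ (-(1 / 2) : ℝ) *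
            (‖WE true A (((3 / 2 : ℝ) : ℂ) + (τ : ℂ) * I)‖ * (y / n) ^ (3 / 2 : ℝ))
          ≤ 1 * (n : ℝ) ^ (-(1 / 2) : ℝ) *
            (C * Real.exp (-(1 / 2) * |τ|) * (y / n) ^ (3 / 2 : ℝ)) := by gcongr
        _ = (C * Real.exp (-(1 / 2) * |τ|)) * ((n : ℝ) ^ (-(1 / 2) : ℝ) * (y / n) ^ (3 / 2 : ℝ)) := by
            ring
        _ = _ := by rw [h5]; ring
  have hsum2 : Summable fun n : ℕ => 1 / (n : ℝ) ^ (2 : ℝ) :=
    Real.summable_one_div_nat_rpow.2 (by norm_num)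
  have hE := pt_int_exp (k := 1 / 2) (by norm_num)
  have hsum : Summable fun n => ∫ τ, ‖F n τ‖ := by
    refine Summable.of_nonneg_of_le (fun n => integral_nonneg fun _ => norm_nonneg _) (fun n => ?_)
      (hsum2.mul_left (∫ τ : ℝ, C * y ^ (3 / 2 : ℝ) * Real.exp (-(1 / 2) * |τ|)))
    rw [← integral_mul_const]
    refine integral_mono (hint n).norm ((hE.const_mul _).mul_const _) fun τ => hnorm n τ
  have hS := hasSum_integral_of_summable_integral_norm hint hsum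
  have h1 : ∀ τ : ℝ, ptF A y T (((3 / 2 : ℝ) : ℂ) + (τ : ℂ) * I) = ∑' n, F n τ := by
    intro τ
    set w : ℂ := ((3 / 2 : ℝ) : ℂ) + (τ : ℂ) * I with hw
    have hwre : w.re = 3 / 2 := by simp [hw]
    have hs : (1:ℝ) < (1 / 2 + w + (T : ℂ) * I).re := by
      simp [hwre]
      norm_num
    have hs1 : (1 / 2 + w + (T : ℂ) * I) ≠ 1 := by
      intro h
      rw [h] at hs
      simp at hs
    have h2 : ∀ n, F n τ = (WW A w * (y : ℂ) ^ w) *
        LSeries.term (fun n => (ArithmeticFunction.moebius n : ℂ)) (1 / 2 + w + (T : ℂ) * I) n := by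
      intro n
      rcases Nat.eq_zero_or_pos n with rfl | hn
      · simp [hF]
      · have hn' : (0:ℝ) < n := by exact_mod_cast hn
        have hnc : (n : ℂ) ≠ 0 := by exact_mod_cast hn.ne'
        rw [hF, LSeries.term_of_ne_zero hn.ne']
        simp only [← hw]
        have h6 : (ArithmeticFunction.moebius n : ℂ) / (n : ℂ) ^ (1 / 2 + w + (T : ℂ) * I) =
            (ArithmeticFunction.moebius n : ℂ) *
              ((n : ℂ) ^ (-(1 / 2 : ℂ) - (T : ℂ) * I) * (n : ℂ) ^ (-w)) := by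
          rw [← Complex.cpow_add _ _ hnc, div_eq_mul_inv, ← Complex.cpow_neg]
          congr 2
          ring
        rw [h6, pt_cpow_div hy hn' w, ofReal_natCast]
        simp only [WE, if_true]
        ring
    simp_rw [h2]
    rw [tsum_mul_left]
    unfold ptF
    congr 1
    rw [QQ_eq hs1]
    have h3 := ArithmeticFunction.LSeries_zeta_mul_Lseries_moebius hs
    rw [ArithmeticFunction.LSeries_zeta_eq_riemannZeta hs] at h3
    rw [inv_eq_of_mul_eq_one_right h3]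
    rfl
  simp_rw [h1]
  rw [← hS.tsum_eq]
  simp_rw [hval]
  rw [tsum_mul_left]
  rfl

theorem DD_pointwise (hRH : RiemannHypothesis) (A : ℕ) (hA : 4 ≤ A) (c ε : ℝ) (hc : 0 < c)
    (hε : 0 < ε) : ∃ T0 : ℝ, ∀ T : ℝ, T0 ≤ T → ‖DD true A (c * T) T‖ ≤ T ^ ε := by
  set e : ℝ := min (ε / 4) (1 / 4) with he
  have he0 : 0 < e := lt_min (by linarith) (by norm_num)
  have he1 : e ≤ ε / 4 := min_le_left _ _
  have he2 : e ≤ 1 / 4 := min_le_right _ _
  obtain ⟨CQ, hCQ, hQ⟩ := QQ_bound hRH e e he0 he0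
  obtain ⟨CW, hCW, hW⟩ := WW_bound A hA
  -- bound of the integrand
  have hbd : ∀ y T : ℝ, 0 < y → ∀ w : ℂ, e ≤ w.re → w.re ≤ 3 / 2 →
      ‖ptF A y T w‖ ≤ (CW * CQ * (|T| + 3) ^ e * y ^ w.re) * Real.exp (-(1 / 4) * |w.im|) := by
    intro y T hy w hw1 hw2
    have h1 := hW w (by rw [abs_of_nonneg (by linarith)]; linarith)
    have h2 := hQ (1 / 2 + w + (T : ℂ) * I) (by simp; linarith)
    have h3 : (1 / 2 + w + (T : ℂ) * I).im = w.im + T := by simp
    rw [h3] at h2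
    have h4 : (|w.im + T| + 3) ^ e ≤ (|T| + 3) ^ e * Real.exp ((1 / 4) * |w.im|) := by
      have h5 : |w.im + T| + 3 ≤ (|T| + 3) * (1 + |w.im|) := by
        have := abs_add_le w.im T
        nlinarith [abs_nonneg T, abs_nonneg w.im]
      have h6 : (1 + |w.im|) ^ e ≤ Real.exp ((1 / 4) * |w.im|) := by
        have h7 : 1 + |w.im| ≤ Real.exp |w.im| := by
          have := Real.add_one_le_exp |w.im|
          linarith
        calc (1 + |w.im|) ^ e ≤ (Real.exp |w.im|) ^ e :=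
              Real.rpow_le_rpow (by positivity) h7 he0.le
          _ = Real.exp (e * |w.im|) := by rw [← Real.exp_mul, mul_comm]
          _ ≤ _ := Real.exp_le_exp.2 (by gcongr)
      calc (|w.im + T| + 3) ^ e ≤ ((|T| + 3) * (1 + |w.im|)) ^ e :=
            Real.rpow_le_rpow (by positivity) h5 he0.le
        _ = (|T| + 3) ^ e * (1 + |w.im|) ^ e := Real.mul_rpow (by positivity) (by positivity)
        _ ≤ _ := by gcongr
    have h8 : ‖(y : ℂ) ^ w‖ = y ^ w.re := Complex.norm_cpow_eq_rpow_re_of_pos hy w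
    have h9 : Real.exp (-|w.im| / 2) * Real.exp ((1 / 4) * |w.im|) =
        Real.exp (-(1 / 4) * |w.im|) := by
      rw [← Real.exp_add]
      congr 1
      ring
    unfold ptF
    rw [norm_mul, norm_mul, h8]
    calc ‖WW A w‖ * y ^ w.re * ‖QQ (1 / 2 + w + (T : ℂ) * I)‖
        ≤ (CW * Real.exp (-|w.im| / 2)) * y ^ w.re *
          (CQ * ((|T| + 3) ^ e * Real.exp ((1 / 4) * |w.im|))) := by gcongr; exact h2.trans (by gcongr)
      _ = (CW * CQ * (|T| + 3) ^ e * y ^ w.re) *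
          (Real.exp (-|w.im| / 2) * Real.exp ((1 / 4) * |w.im|)) := by ring
      _ = _ := by rw [h9]
  have hdf : ∀ y T : ℝ, 0 < y → ∀ w : ℂ, e ≤ w.re → w.re ≤ 3 / 2 →
      DifferentiableAt ℂ (ptF A y T) w := by
    intro y T hy w hw1 hw2
    have hA' : (4:ℝ) ≤ A := by exact_mod_cast hA
    have h1 : DifferentiableAt ℂ (WW A) w := WW_diff A w (by linarith)
    have h2 : DifferentiableAt ℂ (fun w : ℂ => (y : ℂ) ^ w) w :=
      differentiableAt_id.const_cpow (Or.inl (by exact_mod_cast hy.ne'))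
    have h3 : riemannZeta₁ (1 / 2 + w + (T : ℂ) * I) ≠ 0 := pt_z1_ne hRH (by simp; linarith)
    have h4 : DifferentiableAt ℂ (fun w : ℂ => QQ (1 / 2 + w + (T : ℂ) * I)) w := by
      have h5 : DifferentiableAt ℂ (fun w : ℂ => 1 / 2 + w + (T : ℂ) * I) w := by fun_prop
      have h6 : DifferentiableAt ℂ (fun w : ℂ => riemannZeta₁ (1 / 2 + w + (T : ℂ) * I)) w :=
        (differentiable_riemannZeta₁ _).comp w h5
      unfold QQ
      exact (h5.sub_const 1).fun_div h6 h3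
    exact (h1.mul h2).mul h4
  set K : ℝ := ∫ τ : ℝ, Real.exp (-(1 / 4) * |τ|) with hK
  have hK0 : 0 ≤ K := integral_nonneg fun _ => (Real.exp_pos _).le
  have hmain : ∀ y T : ℝ, 1 ≤ y → ‖DD true A y T‖ ≤ (CW * CQ * K) * (|T| + 3) ^ e * y ^ e := by
    intro y T hy
    have hy0 : 0 < y := by linarith
    have hsh := pt_vshift (ptF A y T) e (3 / 2) (by linarith)
      (CW * CQ * (|T| + 3) ^ e * y ^ (3 / 2 : ℝ)) (1 / 4) (by norm_num) (hdf y T hy0) (by
        intro w hw1 hw2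
        refine (hbd y T hy0 w hw1 hw2).trans ?_
        gcongr)
    have h1 := pt_repr A hA y T hy0
    rw [← hsh.2.2] at h1
    have h2 : ‖∫ τ : ℝ, ptF A y T ((e : ℂ) + (τ : ℂ) * I)‖ ≤
        (CW * CQ * (|T| + 3) ^ e * y ^ e) * K := by
      rw [hK, ← integral_const_mul]
      refine norm_integral_le_of_norm_le ((pt_int_exp (by norm_num)).const_mul _) ?_
      refine Filter.Eventually.of_forall fun τ => ?_
      have := hbd y T hy0 ((e : ℂ) + (τ : ℂ) * I) (by simp) (by simp; linarith)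
      simpa using this
    rw [h1, norm_mul, norm_mul] at h2
    have h3 : (1:ℝ) ≤ ‖(2:ℂ)‖ * ‖(Real.pi : ℂ)‖ := by
      rw [Complex.norm_real, Complex.norm_ofNat, Real.norm_eq_abs, abs_of_pos Real.pi_pos]
      linarith [Real.pi_gt_three]
    have h4 : ‖DD true A y T‖ ≤ ‖(2:ℂ)‖ * ‖(Real.pi : ℂ)‖ * ‖DD true A y T‖ :=
      le_mul_of_one_le_left (norm_nonneg _) h3
    refine h4.trans (h2.trans (le_of_eq ?_))
    ring
  -- final asymptotics
  have hlim : Tendsto (fun T : ℝ => T ^ (ε / 2)) atTop atTop := tendsto_rpow_atTop (by linarith)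
  obtain ⟨T1, hT1⟩ := (hlim.eventually_ge_atTop ((CW * CQ * K) * (2 * c) ^ (ε / 4))).exists_forall_of_atTop
  refine ⟨max (max 3 (1 / c)) T1, fun T hT => ?_⟩
  have hT3 : 3 ≤ T := (le_max_left _ _).trans ((le_max_left _ _).trans hT)
  have hTc : 1 / c ≤ T := (le_max_right _ _).trans ((le_max_left _ _).trans hT)
  have hTT1 : T1 ≤ T := (le_max_right _ _).trans hT
  have hcT : 1 ≤ c * T := by
    rw [div_le_iff₀ hc] at hTc
    linarith
  have hT0 : 0 < T := by linarith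
  have h1 := hmain (c * T) T hcT
  have h2 : (|T| + 3) ^ e ≤ (2 * T) ^ (ε / 4) := by
    rw [abs_of_pos hT0]
    calc (T + 3) ^ e ≤ (2 * T) ^ e := Real.rpow_le_rpow (by linarith) (by linarith) he0.le
      _ ≤ _ := Real.rpow_le_rpow_of_exponent_le (by linarith) he1
  have h3 : (c * T) ^ e ≤ (c * T) ^ (ε / 4) := Real.rpow_le_rpow_of_exponent_le hcT he1
  have hcc : 0 ≤ CW * CQ * K := by positivity
  calc ‖DD true A (c * T) T‖ ≤ (CW * CQ * K) * (|T| + 3) ^ e * (c * T) ^ e := h1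
    _ ≤ (CW * CQ * K) * (2 * T) ^ (ε / 4) * (c * T) ^ (ε / 4) := by gcongr
    _ = ((CW * CQ * K) * (2 * c) ^ (ε / 4)) * T ^ (ε / 2) := by
        rw [Real.mul_rpow (by norm_num) hT0.le, Real.mul_rpow hc.le hT0.le,
          Real.mul_rpow (by norm_num) hc.le, show ε / 2 = ε / 4 + ε / 4 by ring,
          Real.rpow_add hT0]
        ring
    _ ≤ T ^ (ε / 2) * T ^ (ε / 2) := by
        gcongr
        exact hT1 T hTT1
    _ = T ^ ε := by
        rw [← Real.rpow_add hT0]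
        congr 1
        ring

end H345
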