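import Pool.Agent.H345R2.Defs3
import Pool.Agent.H345R2.KKfacts

set_option autoImplicit false

open Complex Filter Topology Set MeasureTheory
open scoped FourierTransform NNReal

namespace H345

namespace Pair

lemma ofC {f : ℝ → ℝ} (hf : Integrable f) : Integrable (fun u => ((f u : ℝ) : ℂ)) :=
  hf.ofReal (𝕜 := ℂ)

/-- the function `e^{-|s|}` -/
noncomputable def ea (s : ℝ) : ℂ := ((Real.exp (-|s|) : ℝ) : ℂ)

lemma ea_cont : Continuous ea := by unfold ea; fun_prop

lemma ea_Ioi {s : ℝ} (hs : s ∈ Ioi (0:ℝ)) : ea s = cexp ((-1 : ℂ) * s) := by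
  rw [ea, abs_of_pos hs]; push_cast; ring_nf

lemma ea_Iic {s : ℝ} (hs : s ∈ Iic (0:ℝ)) : ea s = cexp ((1 : ℂ) * s) := by
  rw [ea, abs_of_nonpos hs]; push_cast; ring_nf

lemma ea_int : Integrable ea := by
  rw [← integrableOn_univ, ← Iic_union_Ioi (a := (0:ℝ)), integrableOn_union]
  constructor
  · exact (integrableOn_exp_mul_complex_Iic (a := 1) (by simp) 0).congr_fun
      (fun s hs => (ea_Iic hs).symm) measurableSet_Iic
  · exact (integrableOn_exp_mul_complex_Ioi (a := -1) (by simp) 0).congr_fun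
      (fun s hs => (ea_Ioi hs).symm) measurableSet_Ioi

lemma fourier_ea (w : ℝ) : 𝓕 ea w = 2 * (KK (2 * Real.pi * w) : ℂ) := by
  rw [Real.fourier_real_eq_integral_exp_smul]
  set z : ℂ := ((2 * Real.pi * w : ℝ) : ℂ) * I with hz
  have hzre : z.re = 0 := by rw [hz]; simp
  have h1 : ∀ s ∈ Iic (0:ℝ), cexp (↑(-2 * Real.pi * s * w) * I) • ea s = cexp ((1 - z) * s) := by
    intro s hs
    rw [ea_Iic hs, smul_eq_mul, ← Complex.exp_add, hz]
    congr 1; push_cast; ring
  have h2 : ∀ s ∈ Ioi (0:ℝ), cexp (↑(-2 * Real.pi * s * w) * I) • ea s = cexp ((-1 - z) * s) := by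
    intro s hs
    rw [ea_Ioi hs, smul_eq_mul, ← Complex.exp_add, hz]
    congr 1; push_cast; ring
  have hr1 : 0 < (1 - z).re := by rw [Complex.sub_re, hzre]; simp
  have hr2 : (-1 - z).re < 0 := by rw [Complex.sub_re, hzre]; simp
  have i1 := integrableOn_exp_mul_complex_Iic hr1 0
  have i2 := integrableOn_exp_mul_complex_Ioi hr2 0
  have i1' : IntegrableOn (fun s : ℝ => cexp (↑(-2 * Real.pi * s * w) * I) • ea s) (Iic 0) :=
    i1.congr_fun (fun s hs => (h1 s hs).symm) measurableSet_Iic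
  have i2' : IntegrableOn (fun s : ℝ => cexp (↑(-2 * Real.pi * s * w) * I) • ea s) (Ioi 0) :=
    i2.congr_fun (fun s hs => (h2 s hs).symm) measurableSet_Ioi
  have hsplit : (∫ s : ℝ, cexp (↑(-2 * Real.pi * s * w) * I) • ea s) =
      (∫ s in Iic (0:ℝ), cexp (↑(-2 * Real.pi * s * w) * I) • ea s) +
      ∫ s in Ioi (0:ℝ), cexp (↑(-2 * Real.pi * s * w) * I) • ea s := by
    rw [← setIntegral_univ, ← Iic_union_Ioi (a := (0:ℝ)),
      setIntegral_union (Iic_disjoint_Ioi le_rfl) measurableSet_Ioi i1' i2']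
  rw [hsplit, setIntegral_congr_fun measurableSet_Iic h1, setIntegral_congr_fun measurableSet_Ioi h2,
    integral_exp_mul_complex_Iic hr1, integral_exp_mul_complex_Ioi hr2]
  have hn1 : (1 - z) ≠ 0 := fun h => by rw [h] at hr1; simp at hr1
  have hn2 : (-1 - z) ≠ 0 := fun h => by rw [h] at hr2; simp at hr2
  have hn3 : (1 + z) ≠ 0 := fun h => hn2 (by linear_combination -h)
  have hn4 : (1 + (2 * (Real.pi:ℂ) * w) ^ 2) ≠ 0 := by
    have : (1 + (2 * (Real.pi:ℂ) * w) ^ 2) = (1 - z) * (1 + z) := by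
      rw [hz]; push_cast; ring_nf; rw [Complex.I_sq]; ring
    rw [this]; exact mul_ne_zero hn1 hn3
  rw [KK]
  push_cast
  simp only [mul_zero, Complex.exp_zero]
  have e1 : (-1 - z) = -(1 + z) := by ring
  rw [e1, neg_div_neg_eq]
  have e2 : (1 + (2 * (Real.pi:ℂ) * w) ^ 2) = (1 - z) * (1 + z) := by
    rw [hz]; push_cast; ring_nf; rw [Complex.I_sq]; ring
  rw [e2]
  field_simp
  ring

lemma KK_exp_integrable (s : ℝ) : Integrable (fun v : ℝ => (KK v : ℂ) * cexp (((v * s : ℝ) : ℂ) * I)) := by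
  have h := ofC KK_int
  refine h.mul_bdd (c := 1) (by fun_prop) ?_
  refine Eventually.of_forall fun v => ?_
  rw [Complex.norm_exp_ofReal_mul_I]

lemma KK_fourier (s : ℝ) :
    ∫ v : ℝ, (KK v : ℂ) * cexp (((v * s : ℝ) : ℂ) * I) = Real.pi * (Real.exp (-|s|) : ℂ) := by
  have hpi := Real.pi_pos
  have hKint : Integrable (fun w : ℝ => KK (2 * Real.pi * w)) :=
    KK_int.comp_mul_left' (by positivity)
  have hF : Integrable (𝓕 ea) := by
    have : 𝓕 ea = fun w => 2 * (KK (2 * Real.pi * w) : ℂ) := funext fourier_ea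
    rw [this]
    exact (ofC hKint).const_mul 2
  have h := congrFun (ea_cont.fourierInv_fourier_eq ea_int hF) s
  rw [Real.fourierInv_eq'] at h
  simp only [fourier_ea, smul_eq_mul] at h
  have h3 : ∀ v : ℝ, cexp (↑(2 * Real.pi * inner ℝ v s) * I) * (2 * (KK (2 * Real.pi * v) : ℂ)) =
      (fun u : ℝ => 2 * ((KK u : ℂ) * cexp (((u * s : ℝ) : ℂ) * I))) ((2 * Real.pi) * v) := by
    intro v
    simp only [RCLike.inner_apply, conj_trivial]
    rw [show 2 * Real.pi * (s * v) = 2 * Real.pi * v * s by ring]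
    ring
  rw [integral_congr_ae (Eventually.of_forall h3),
    Measure.integral_comp_mul_left (fun u : ℝ => 2 * ((KK u : ℂ) * cexp (((u * s : ℝ) : ℂ) * I)))
      (2 * Real.pi), integral_const_mul] at h
  rw [ea] at h
  rw [← h, abs_of_pos (by positivity), Complex.real_smul]
  generalize (∫ v : ℝ, (KK v : ℂ) * cexp (((v * s : ℝ) : ℂ) * I)) = J
  push_cast
  field_simp


/-- the damped sum -/
noncomputable def et (t u : ℝ) : ℝ := if t ≤ u then Real.exp (-(u - t)) else 0

lemma et_eq (t : ℝ) : et t = Set.indicator (Set.Ici t) (fun u => Real.exp (-(u - t))) := by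
  funext u
  rw [et, Set.indicator_apply]
  rfl

lemma et_nonneg (t u : ℝ) : 0 ≤ et t u := by rw [et]; split_ifs <;> positivity

lemma et_le_one (t u : ℝ) : et t u ≤ 1 := by
  rw [et]; split_ifs with h
  · exact Real.exp_le_one_iff.2 (by linarith)
  · norm_num

lemma et_meas (t : ℝ) : Measurable (et t) := by
  rw [et_eq]
  exact (by fun_prop : Measurable (fun u => Real.exp (-(u - t)))).indicator measurableSet_Ici

lemma et_mul (t t' : ℝ) : (fun u => et t u * et t' u) =
    Set.indicator (Set.Ici (max t t')) (fun u => Real.exp (t + t') * Real.exp ((-2) * u)) := by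
  funext u
  rw [et, et, Set.indicator_apply]
  by_cases h : t ≤ u
  · by_cases h' : t' ≤ u
    · rw [if_pos h, if_pos h', if_pos (show u ∈ Set.Ici (max t t') from max_le h h'), ← Real.exp_add,
        ← Real.exp_add]
      congr 1; ring
    · rw [if_neg h', if_neg (fun hh : u ∈ Set.Ici (max t t') => h' (le_trans (le_max_right _ _) hh)), mul_zero]
  · rw [if_neg h, if_neg (fun hh : u ∈ Set.Ici (max t t') => h (le_trans (le_max_left _ _) hh)), zero_mul]

lemma et_mul_int (t t' : ℝ) : Integrable (fun u => et t u * et t' u) := by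
  rw [et_mul, integrable_indicator_iff measurableSet_Ici, integrableOn_Ici_iff_integrableOn_Ioi]
  exact (integrableOn_exp_mul_Ioi (by norm_num) _).const_mul _

lemma et_mul_integral (t t' : ℝ) : ∫ u, et t u * et t' u = Real.exp (-|t - t'|) / 2 := by
  rw [et_mul, integral_indicator measurableSet_Ici, integral_Ici_eq_integral_Ioi, integral_const_mul,
    integral_exp_mul_Ioi (by norm_num)]
  rw [neg_div_neg_eq, ← mul_div_assoc, ← Real.exp_add]
  congr 2
  rcases le_total t t' with h | h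
  · rw [max_eq_right h, abs_of_nonpos (by linarith)]; ring
  · rw [max_eq_left h, abs_of_nonneg (by linarith)]; ring

variable (S : Finset ℝ) (c : ℝ → ℂ)

/-- damped sum -/
noncomputable def BB (u : ℝ) : ℂ := ∑ t ∈ S, (et t u : ℂ) * c t

/-- exponential sum -/
noncomputable def ES (v : ℝ) : ℂ := ∑ t ∈ S, c t * cexp (((v * t : ℝ) : ℂ) * I)

lemma BB_meas : Measurable (BB S c) := by
  unfold BB
  refine Finset.measurable_sum _ fun t _ => ?_
  exact ((et_meas t).complex_ofReal).mul_const _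

lemma ES_cont : Continuous (ES S c) := by unfold ES; fun_prop

lemma sq_norm_sum (f : ℝ → ℂ) : ((‖∑ t ∈ S, f t‖ ^ 2 : ℝ) : ℂ) =
    ∑ t ∈ S, ∑ t' ∈ S, f t * (starRingEnd ℂ) (f t') := by
  rw [← Complex.normSq_eq_norm_sq, Complex.normSq_eq_conj_mul_self, mul_comm, map_sum,
    Finset.sum_mul_sum]

lemma BB_sq (u : ℝ) : ((‖BB S c u‖ ^ 2 : ℝ) : ℂ) =
    ∑ t ∈ S, ∑ t' ∈ S, (c t * (starRingEnd ℂ) (c t')) * ((et t u * et t' u : ℝ) : ℂ) := by
  rw [BB, sq_norm_sum]
  refine Finset.sum_congr rfl fun t _ => Finset.sum_congr rfl fun t' _ => ?_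
  rw [map_mul, Complex.conj_ofReal]; push_cast; ring

lemma ES_sq (v : ℝ) : ((KK v * ‖ES S c v‖ ^ 2 : ℝ) : ℂ) =
    ∑ t ∈ S, ∑ t' ∈ S, (c t * (starRingEnd ℂ) (c t')) *
      ((KK v : ℂ) * cexp (((v * (t - t') : ℝ) : ℂ) * I)) := by
  rw [Complex.ofReal_mul, ES, sq_norm_sum, Finset.mul_sum]
  refine Finset.sum_congr rfl fun t _ => ?_
  rw [Finset.mul_sum]
  refine Finset.sum_congr rfl fun t' _ => ?_
  rw [map_mul, ← Complex.exp_conj, map_mul, Complex.conj_ofReal, Complex.conj_I]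
  have : cexp (((v * (t - t') : ℝ) : ℂ) * I) = cexp (((v * t : ℝ) : ℂ) * I) *
      cexp (((v * t' : ℝ) : ℂ) * -I) := by
    rw [← Complex.exp_add]; congr 1; push_cast; ring
  rw [this]; ring

lemma BB_int : Integrable (fun u => ‖BB S c u‖ ^ 2) := by
  have : Integrable (fun u => ((‖BB S c u‖ ^ 2 : ℝ) : ℂ)) := by
    simp_rw [BB_sq]
    refine integrable_finsetSum _ fun t _ => integrable_finsetSum _ fun t' _ => ?_
    exact (ofC (et_mul_int t t')).const_mul _
  exact this.re

lemma ES_int : Integrable (fun v => KK v * ‖ES S c v‖ ^ 2) := by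
  have : Integrable (fun v => ((KK v * ‖ES S c v‖ ^ 2 : ℝ) : ℂ)) := by
    simp_rw [ES_sq]
    refine integrable_finsetSum _ fun t _ => integrable_finsetSum _ fun t' _ => ?_
    exact (KK_exp_integrable (t - t')).const_mul _
  exact this.re

lemma plancherel : 2 * Real.pi * ∫ u, ‖BB S c u‖ ^ 2 = ∫ v, KK v * ‖ES S c v‖ ^ 2 := by
  have h1 : ((∫ u, ‖BB S c u‖ ^ 2 : ℝ) : ℂ) =
      ∑ t ∈ S, ∑ t' ∈ S, (c t * (starRingEnd ℂ) (c t')) * ((Real.exp (-|t - t'|) / 2 : ℝ) : ℂ) := by
    rw [← integral_complex_ofReal]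
    simp_rw [BB_sq]
    rw [integral_finsetSum S fun t _ => integrable_finsetSum S fun t' _ =>
      (ofC (et_mul_int t t')).const_mul (c t * (starRingEnd ℂ) (c t'))]
    refine Finset.sum_congr rfl fun t _ => ?_
    rw [integral_finsetSum S fun t' _ => (ofC (et_mul_int t t')).const_mul
      (c t * (starRingEnd ℂ) (c t'))]
    refine Finset.sum_congr rfl fun t' _ => ?_
    rw [integral_const_mul]
    congr 1
    rw [← et_mul_integral, ← integral_complex_ofReal]
  have h2 : ((∫ v, KK v * ‖ES S c v‖ ^ 2 : ℝ) : ℂ) =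
      ∑ t ∈ S, ∑ t' ∈ S, (c t * (starRingEnd ℂ) (c t')) * (Real.pi * (Real.exp (-|t - t'|) : ℂ)) := by
    rw [← integral_complex_ofReal]
    simp_rw [ES_sq]
    rw [integral_finsetSum _ fun t _ => integrable_finsetSum _ fun t' _ =>
      (KK_exp_integrable (t - t')).const_mul _]
    refine Finset.sum_congr rfl fun t _ => ?_
    rw [integral_finsetSum _ fun t' _ => (KK_exp_integrable (t - t')).const_mul _]
    refine Finset.sum_congr rfl fun t' _ => ?_
    rw [integral_const_mul, KK_fourier]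
  have : ((2 * Real.pi * ∫ u, ‖BB S c u‖ ^ 2 : ℝ) : ℂ) = ((∫ v, KK v * ‖ES S c v‖ ^ 2 : ℝ) : ℂ) := by
    rw [Complex.ofReal_mul, h1, h2, Finset.mul_sum]
    refine Finset.sum_congr rfl fun t _ => ?_
    rw [Finset.mul_sum]
    refine Finset.sum_congr rfl fun t' _ => ?_
    push_cast; ring
  exact_mod_cast this

/-- representation of a Lipschitz function -/
lemma repr_G (G : ℝ → ℝ) (Λ : ℝ≥0) (a : ℝ) (hG : LipschitzWith Λ G)
    (h0 : ∀ t, 1 ≤ |t - a| → G t = 0) (t : ℝ) :
    G t = ∫ u, et t u * (G u - deriv G u) := by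
  have hD0 : ∀ u, a + 1 < u → G u - deriv G u = 0 := by
    intro u hu
    have hev : G =ᶠ[𝓝 u] fun _ => 0 := by
      filter_upwards [lt_mem_nhds hu] with x hx
      exact h0 x (by rw [abs_of_pos (by linarith)]; linarith)
    rw [hev.deriv_eq, hev.eq_of_nhds]; simp
  by_cases ht : a + 1 < t
  · rw [h0 t (by rw [abs_of_pos (by linarith)]; linarith)]
    symm
    apply integral_eq_zero_of_ae
    refine Eventually.of_forall fun u => ?_
    simp only [Pi.zero_apply]
    rw [et]
    split_ifs with h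
    · rw [hD0 u (lt_of_lt_of_le ht h), mul_zero]
    · rw [zero_mul]
  · push Not at ht
    have e1 : (fun u => et t u * (G u - deriv G u)) =
        Set.indicator (Set.Icc t (a + 1)) (fun u => Real.exp (-(u - t)) * (G u - deriv G u)) := by
      funext u
      rw [Set.indicator_apply, et]
      by_cases h : t ≤ u
      · by_cases h' : u ≤ a + 1
        · rw [if_pos h, if_pos ⟨h, h'⟩]
        · rw [hD0 u (not_le.1 h'), mul_zero, if_neg (fun hh => h' hh.2)]
      · rw [if_neg h, if_neg (fun hh => h hh.1), zero_mul]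
    rw [e1, integral_indicator measurableSet_Icc, integral_Icc_eq_integral_Ioc,
      ← intervalIntegral.integral_of_le ht]
    have hac : AbsolutelyContinuousOnInterval G t (a + 1) :=
      (hG.lipschitzOnWith (s := uIcc t (a + 1))).absolutelyContinuousOnInterval
    have hac' : AbsolutelyContinuousOnInterval (fun u => Real.exp (-(u - t))) t (a + 1) := by
      apply ContDiffOn.absolutelyContinuousOnInterval
      exact (by fun_prop : ContDiff ℝ 1 (fun u => Real.exp (-(u - t)))).contDiffOn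
    have hibp := hac'.integral_deriv_mul_eq_sub hac
    have hder : ∀ u : ℝ, deriv (fun u => Real.exp (-(u - t))) u = -Real.exp (-(u - t)) := by
      intro u
      have : HasDerivAt (fun u : ℝ => Real.exp (-(u - t))) (Real.exp (-(u - t)) * (-1)) u := by
        have h1 : HasDerivAt (fun u : ℝ => -(u - t)) (-1) u := by
          exact ((hasDerivAt_id u).sub_const t).neg
        exact h1.exp
      rw [this.deriv]; ring
    have hG0 : G (a + 1) = 0 := h0 _ (by simp)
    rw [hG0] at hibp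
    simp only [sub_self, neg_zero, Real.exp_zero, one_mul, mul_zero, zero_sub] at hibp
    have e2 : (∫ u in t..(a + 1), Real.exp (-(u - t)) * (G u - deriv G u)) =
        -∫ u in t..(a + 1), (deriv (fun u => Real.exp (-(u - t))) u * G u +
          Real.exp (-(u - t)) * deriv G u) := by
      rw [← intervalIntegral.integral_neg]
      apply intervalIntegral.integral_congr
      intro u _
      simp only [hder]
      ring
    rw [e2, hibp, neg_neg]


lemma cs {f : ℝ → ℂ} {g : ℝ → ℝ} (hfm : AEStronglyMeasurable f) (hgm : AEStronglyMeasurable g)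
    (hf : Integrable (fun u => ‖f u‖ ^ 2)) (hg : Integrable (fun u => g u ^ 2)) :
    Integrable (fun u => f u * (g u : ℂ)) ∧
    ‖∫ u, f u * (g u : ℂ)‖ ^ 2 ≤ (∫ u, ‖f u‖ ^ 2) * ∫ u, g u ^ 2 := by
  have hm : AEStronglyMeasurable (fun u => f u * (g u : ℂ)) :=
    hfm.mul (Complex.continuous_ofReal.comp_aestronglyMeasurable hgm)
  have hint : Integrable (fun u => f u * (g u : ℂ)) := by
    refine Integrable.mono' (hf.add hg) hm (Eventually.of_forall fun u => ?_)
    rw [norm_mul, Complex.norm_real, Real.norm_eq_abs]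
    simp only [Pi.add_apply]
    nlinarith [sq_nonneg (‖f u‖ - |g u|), sq_abs (g u), sq_nonneg (‖f u‖), sq_nonneg (g u)]
  refine ⟨hint, ?_⟩
  have hint' : Integrable (fun u => ‖f u‖ * |g u|) := by
    have := hint.norm
    refine this.congr (Eventually.of_forall fun u => ?_)
    simp only [norm_mul, Complex.norm_real, Real.norm_eq_abs]
  set R := ∫ u, ‖f u‖ * |g u| with hR
  set P := ∫ u, ‖f u‖ ^ 2 with hP
  set Q := ∫ u, g u ^ 2 with hQ
  have h1 : ‖∫ u, f u * (g u : ℂ)‖ ≤ R := by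
    refine (norm_integral_le_integral_norm _).trans (le_of_eq ?_)
    rw [hR]
    congr 1; funext u
    rw [norm_mul, Complex.norm_real, Real.norm_eq_abs]
  have h2 : ∀ x : ℝ, 0 ≤ P * (x * x) + (-2 * R) * x + Q := by
    intro x
    have : P * (x * x) + (-2 * R) * x + Q = ∫ u, (x * ‖f u‖ - |g u|) ^ 2 := by
      have e : (fun u => (x * ‖f u‖ - |g u|) ^ 2) =
          fun u => (x * x) * ‖f u‖ ^ 2 + (-2 * x) * (‖f u‖ * |g u|) + g u ^ 2 := by
        funext u; rw [← sq_abs (g u)]; ring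
      have i1 : Integrable (fun u => (x * x) * ‖f u‖ ^ 2) := hf.const_mul _
      have i2 : Integrable (fun u => (-2 * x) * (‖f u‖ * |g u|)) := hint'.const_mul _
      have i3 : Integrable (fun u => (x * x) * ‖f u‖ ^ 2 + (-2 * x) * (‖f u‖ * |g u|)) := i1.add i2
      rw [e, integral_add i3 hg, integral_add i1 i2, integral_const_mul, integral_const_mul]
      ring
    rw [this]
    exact integral_nonneg fun u => sq_nonneg _
  have h3 := discrim_le_zero h2
  rw [discrim] at h3
  have h0 := norm_nonneg (∫ u, f u * (g u : ℂ))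
  nlinarith

lemma real_pairing (G : ℝ → ℝ) (Λ : ℝ≥0) (a : ℝ) (hG : LipschitzWith Λ G)
    (h0 : ∀ t, 1 ≤ |t - a| → G t = 0) :
    ‖∑ t ∈ S, (G t : ℂ) * c t‖ ^ 2 ≤ 4 / Real.pi * (Λ : ℝ) ^ 2 * ∫ v, KK v * ‖ES S c v‖ ^ 2 := by
  have hpi := Real.pi_pos
  have hΛ : (0:ℝ) ≤ Λ := Λ.2
  set D : ℝ → ℝ := fun u => G u - deriv G u with hD
  have hDm : Measurable D := hG.continuous.measurable.sub (measurable_deriv G)
  have hGb : ∀ u, |G u| ≤ Λ := by
    intro u
    by_cases h : 1 ≤ |u - a|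
    · rw [h0 u h, abs_zero]; exact hΛ
    · push Not at h
      rw [abs_lt] at h
      have e1 := hG.dist_le_mul u (a + 1)
      have e2 := hG.dist_le_mul u (a - 1)
      rw [h0 (a + 1) (by simp), Real.dist_eq, Real.dist_eq, sub_zero] at e1
      rw [h0 (a - 1) (by simp), Real.dist_eq, Real.dist_eq, sub_zero] at e2
      rw [abs_of_nonpos (by linarith : u - (a + 1) ≤ 0)] at e1
      rw [abs_of_nonneg (by linarith : 0 ≤ u - (a - 1))] at e2
      rcases le_total u a with hu | hu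
      · nlinarith
      · nlinarith
  have hdb : ∀ u, |deriv G u| ≤ Λ := fun u => by
    have := norm_deriv_le_of_lipschitz (x₀ := u) hG
    rwa [Real.norm_eq_abs] at this
  have hDb : ∀ u, |D u| ≤ 2 * Λ := fun u => by
    have := abs_sub (G u) (deriv G u)
    rw [hD]; simp only
    linarith [hGb u, hdb u]
  have hD0 : ∀ u, u ∉ Set.Icc (a - 1) (a + 1) → D u = 0 := by
    intro u hu
    have hev : G =ᶠ[𝓝 u] fun _ => 0 := by
      filter_upwards [isClosed_Icc.isOpen_compl.mem_nhds hu] with x hx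
      apply h0 x
      by_contra hc
      push Not at hc
      rw [abs_lt] at hc
      exact hx ⟨by linarith [hc.1], by linarith [hc.2]⟩
    rw [hD]; simp only
    rw [hev.deriv_eq, hev.eq_of_nhds]; simp
  have hDsq : ∀ u, D u ^ 2 ≤ Set.indicator (Set.Icc (a - 1) (a + 1)) (fun _ => 4 * (Λ:ℝ) ^ 2) u := by
    intro u
    by_cases hu : u ∈ Set.Icc (a - 1) (a + 1)
    · rw [Set.indicator_of_mem hu, ← sq_abs]
      nlinarith [hDb u, abs_nonneg (D u)]
    · rw [Set.indicator_of_notMem hu, hD0 u hu]; norm_num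
  have hind : Integrable (Set.indicator (Set.Icc (a - 1) (a + 1)) (fun _ => 4 * (Λ:ℝ) ^ 2)) := by
    rw [integrable_indicator_iff measurableSet_Icc]
    exact integrableOn_const (by simp)
  have hDi : Integrable (fun u => D u ^ 2) := by
    refine hind.mono' (hDm.pow_const 2).aestronglyMeasurable (Eventually.of_forall fun u => ?_)
    rw [Real.norm_eq_abs, abs_of_nonneg (sq_nonneg _)]
    exact hDsq u
  have hDint : ∫ u, D u ^ 2 ≤ 8 * (Λ:ℝ) ^ 2 := by
    calc ∫ u, D u ^ 2 ≤ ∫ u, Set.indicator (Set.Icc (a - 1) (a + 1)) (fun _ => 4 * (Λ:ℝ) ^ 2) u :=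
          integral_mono hDi hind hDsq
      _ = 8 * (Λ:ℝ) ^ 2 := by
          rw [integral_indicator measurableSet_Icc, setIntegral_const]
          simp
          ring
  obtain ⟨hi, hcs⟩ := cs (f := BB S c) (g := D) (BB_meas S c).aestronglyMeasurable
    hDm.aestronglyMeasurable (BB_int S c) hDi
  have hDi1 : Integrable D := by
    have hind' : Integrable (Set.indicator (Set.Icc (a - 1) (a + 1)) (fun _ => 2 * (Λ:ℝ))) := by
      rw [integrable_indicator_iff measurableSet_Icc]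
      exact integrableOn_const (by simp)
    refine hind'.mono' hDm.aestronglyMeasurable (Eventually.of_forall fun u => ?_)
    by_cases hu : u ∈ Set.Icc (a - 1) (a + 1)
    · rw [Set.indicator_of_mem hu, Real.norm_eq_abs]; exact hDb u
    · rw [Set.indicator_of_notMem hu, hD0 u hu]; simp
  have hetD : ∀ t, Integrable (fun u => et t u * D u) := fun t => by
    have := hDi1.bdd_mul (c := 1) (et_meas t).aestronglyMeasurable
      (Eventually.of_forall fun u => by
        rw [Real.norm_eq_abs, abs_of_nonneg (et_nonneg t u)]; exact et_le_one t u)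
    exact this
  have hrep : ∑ t ∈ S, (G t : ℂ) * c t = ∫ u, BB S c u * (D u : ℂ) := by
    have e1 : (fun u => BB S c u * (D u : ℂ)) = fun u => ∑ t ∈ S, ((et t u * D u : ℝ) : ℂ) * c t := by
      funext u
      rw [BB, Finset.sum_mul]
      refine Finset.sum_congr rfl fun t _ => ?_
      push_cast; ring
    rw [e1, integral_finsetSum S fun t _ => (ofC (hetD t)).mul_const (c t)]
    refine Finset.sum_congr rfl fun t _ => ?_
    rw [integral_mul_const]
    congr 1
    rw [repr_G G Λ a hG h0 t, ← integral_complex_ofReal]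
  rw [hrep]
  refine hcs.trans ?_
  rw [← plancherel S c]
  have hB0 : 0 ≤ ∫ u, ‖BB S c u‖ ^ 2 := integral_nonneg fun u => by positivity
  calc (∫ u, ‖BB S c u‖ ^ 2) * ∫ u, D u ^ 2 ≤ (∫ u, ‖BB S c u‖ ^ 2) * (8 * (Λ:ℝ) ^ 2) := by gcongr
    _ = 4 / Real.pi * (Λ : ℝ) ^ 2 * (2 * Real.pi * ∫ u, ‖BB S c u‖ ^ 2) := by
        field_simp; ring

end Pair

open Pair in
theorem pairing (S : Finset ℝ) (c g : ℝ → ℂ) (Λ a : ℝ) (hΛ : 0 ≤ Λ)
    (h1 : ∀ t ∈ S, ‖g t‖ ≤ Λ * max 0 (1 - |t - a|))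
    (h2 : ∀ t ∈ S, ∀ t' ∈ S, ‖g t - g t'‖ ≤ Λ * |t - t'|) :
    ‖∑ t ∈ S, g t * c t‖ ^ 2 ≤
      10 * Λ ^ 2 * ∫ v : ℝ, KK v * ‖∑ t ∈ S, c t * cexp (((v * t : ℝ) : ℂ) * I)‖ ^ 2 := by
  have hpi := Real.pi_pos
  have hpi3 := Real.pi_gt_three
  -- extension lemma
  have key : ∀ h : ℝ → ℝ, (∀ t ∈ S, |h t| ≤ Λ * max 0 (1 - |t - a|)) →
      (∀ t ∈ S, ∀ t' ∈ S, |h t - h t'| ≤ Λ * |t - t'|) →
      ‖∑ t ∈ S, (h t : ℂ) * c t‖ ^ 2 ≤ 4 / Real.pi * Λ ^ 2 * ∫ v, KK v * ‖ES S c v‖ ^ 2 := by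
    intro h hb hl
    set h' : ℝ → ℝ := fun t => if 1 ≤ |t - a| then 0 else h t with hh'
    have hzero : ∀ t ∈ S, 1 ≤ |t - a| → h t = 0 := by
      intro t ht h1
      have := hb t ht
      rw [max_eq_left (by linarith), mul_zero] at this
      exact abs_nonpos_iff.1 this
    have heq : ∀ t ∈ S, h' t = h t := by
      intro t ht
      rw [hh']; simp only
      split_ifs with h1
      · exact (hzero t ht h1).symm
      · rfl
    have hlip : LipschitzOnWith (⟨Λ, hΛ⟩ : ℝ≥0) h' (↑S ∪ {t | 1 ≤ |t - a|}) := by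
      have hmix : ∀ x ∈ S, ∀ y, 1 ≤ |y - a| → |h' x - h' y| ≤ Λ * |x - y| := by
        intro x hx y hy
        rw [heq x hx]
        have hy0 : h' y = 0 := by rw [hh']; simp only; rw [if_pos hy]
        rw [hy0, sub_zero]
        refine (hb x hx).trans ?_
        apply mul_le_mul_of_nonneg_left _ hΛ
        apply max_le (abs_nonneg _)
        have := abs_sub_abs_le_abs_sub (y - a) (x - a)
        rw [show y - a - (x - a) = -(x - y) by ring, abs_neg] at this
        linarith
      apply LipschitzOnWith.of_dist_le_mul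
      intro x hx y hy
      rw [Real.dist_eq, Real.dist_eq]
      show |h' x - h' y| ≤ Λ * |x - y|
      rcases hx with hx | hx
      · rcases hy with hy | hy
        · rw [heq x hx, heq y hy]; exact hl x hx y hy
        · exact hmix x hx y hy
      · rcases hy with hy | hy
        · rw [abs_sub_comm, abs_sub_comm x y]; exact hmix y hy x hx
        · have hx0 : h' x = 0 := if_pos (show 1 ≤ |x - a| from hx)
          have hy0 : h' y = 0 := if_pos (show 1 ≤ |y - a| from hy)
          rw [hx0, hy0]; simp; positivity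
    obtain ⟨G, hG, hGe⟩ := hlip.extend_real
    have hG0 : ∀ t, 1 ≤ |t - a| → G t = 0 := by
      intro t ht
      rw [← hGe (Or.inr ht)]
      rw [hh']; simp only; rw [if_pos ht]
    have hsum : ∑ t ∈ S, (h t : ℂ) * c t = ∑ t ∈ S, (G t : ℂ) * c t := by
      refine Finset.sum_congr rfl fun t ht => ?_
      rw [← heq t ht, hGe (Or.inl ht)]
    rw [hsum]
    exact real_pairing S c G ⟨Λ, hΛ⟩ a hG hG0
  have hre := key (fun t => (g t).re) (fun t ht => (Complex.abs_re_le_norm _).trans (h1 t ht))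
    (fun t ht t' ht' => by
      rw [← Complex.sub_re]; exact (Complex.abs_re_le_norm _).trans (h2 t ht t' ht'))
  have him := key (fun t => (g t).im) (fun t ht => (Complex.abs_im_le_norm _).trans (h1 t ht))
    (fun t ht t' ht' => by
      rw [← Complex.sub_im]; exact (Complex.abs_im_le_norm _).trans (h2 t ht t' ht'))
  have hsplit : ∑ t ∈ S, g t * c t = (∑ t ∈ S, (((g t).re : ℝ) : ℂ) * c t) +
      I * ∑ t ∈ S, (((g t).im : ℝ) : ℂ) * c t := by
    rw [Finset.mul_sum, ← Finset.sum_add_distrib]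
    refine Finset.sum_congr rfl fun t _ => ?_
    conv_lhs => rw [← Complex.re_add_im (g t)]
    ring
  have hJ0 : 0 ≤ ∫ v, KK v * ‖ES S c v‖ ^ 2 :=
    integral_nonneg fun v => mul_nonneg (KK_pos v).le (by positivity)
  have hn : ‖∑ t ∈ S, g t * c t‖ ≤ ‖∑ t ∈ S, (((g t).re : ℝ) : ℂ) * c t‖ +
      ‖∑ t ∈ S, (((g t).im : ℝ) : ℂ) * c t‖ := by
    rw [hsplit]
    refine (norm_add_le _ _).trans ?_
    rw [norm_mul, Complex.norm_I, one_mul]
  have h4 : 4 / Real.pi ≤ 2 := by rw [div_le_iff₀ hpi]; linarith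
  have h5 : 4 / Real.pi * Λ ^ 2 * (∫ v, KK v * ‖ES S c v‖ ^ 2) ≤
      2 * Λ ^ 2 * (∫ v, KK v * ‖ES S c v‖ ^ 2) := by gcongr
  have h6 := norm_nonneg (∑ t ∈ S, g t * c t)
  have h7 := norm_nonneg (∑ t ∈ S, (((g t).re : ℝ) : ℂ) * c t)
  have h8 := norm_nonneg (∑ t ∈ S, (((g t).im : ℝ) : ℂ) * c t)
  have h9 : 0 ≤ Λ ^ 2 * (∫ v, KK v * ‖ES S c v‖ ^ 2) := by positivity
  change _ ≤ 10 * Λ ^ 2 * ∫ v, KK v * ‖ES S c v‖ ^ 2
  nlinarith [sq_nonneg (‖∑ t ∈ S, (((g t).re : ℝ) : ℂ) * c t‖ - ‖∑ t ∈ S, (((g t).im : ℝ) : ℂ) * c t‖)]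

end H345
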