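import Pool.Agent.H306R2.SM.Defs
import Pool.Agent.H306R2.EPLim

set_option autoImplicit false

/-! Sixth moment project, tasks T10 and T11: local factors. -/

namespace Pool.Agent.H345.SMLoc

open Finset Filter Topology
open Pool.Agent.H306R2 Pool.Agent.H306R2.SM

noncomputable section

/-- local factor of `psi` -/
def pl (p a : ℕ) : ℝ := 1 + (a : ℝ) * (1 - 1 / (p : ℝ))

lemma pl_zero (p : ℕ) : pl p 0 = 1 := by simp [pl]

lemma inv_le_one (p : ℕ) : 0 ≤ 1 - 1 / (p : ℝ) := by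
  rcases Nat.eq_zero_or_pos p with h | h
  · subst h; simp
  · have h1 : (1:ℝ) ≤ p := by exact_mod_cast h
    have : 1 / (p:ℝ) ≤ 1 := by rw [div_le_one (by positivity)]; exact h1
    linarith

lemma pl_ge_one (p a : ℕ) : 1 ≤ pl p a := by
  unfold pl
  have := inv_le_one p
  have : 0 ≤ (a:ℝ) * (1 - 1 / (p : ℝ)) := by positivity
  linarith

lemma pl_le (p a : ℕ) : pl p a ≤ 1 + a := by
  unfold pl
  have h : 1 - 1 / (p:ℝ) ≤ 1 := by
    have : 0 ≤ 1 / (p:ℝ) := by positivity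
    linarith
  have h2 : (a:ℝ) * (1 - 1 / (p : ℝ)) ≤ a * 1 := by gcongr
  linarith

lemma psi_eq (h : ℕ) : psi h = h.factorization.prod pl := rfl

lemma psi_one : psi 1 = 1 := by simp [psi]

lemma psi_pow {p : ℕ} (hp : p.Prime) (a : ℕ) : psi (p ^ a) = pl p a := by
  rw [psi_eq, hp.factorization_pow]
  exact Finsupp.prod_single_index (pl_zero p)

lemma psi_mul {m n : ℕ} (h : Nat.Coprime m n) : psi (m * n) = psi m * psi n := by
  rw [psi_eq, psi_eq, psi_eq, Nat.factorization_mul_of_coprime h]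
  exact Finsupp.prod_add_index_of_disjoint h.disjoint_primeFactors _

lemma psi_ge_one (h : ℕ) : 1 ≤ psi h := by
  rw [psi_eq]
  unfold Finsupp.prod
  calc (1:ℝ) = ∏ p ∈ h.factorization.support, 1 := by simp
    _ ≤ _ := prod_le_prod (fun _ _ => zero_le_one) fun p _ => pl_ge_one p _

lemma lc_two (m : ℕ) : lc 2 m = m + 1 := by
  induction m with
  | zero => simp [lc_zero]
  | succ m ih =>
    rw [lc_succ, ih]
    have : (m:ℝ) + 1 ≠ 0 := by positivity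
    field_simp
    push_cast
    ring

lemma psi_le_dv {h : ℕ} (hh : h ≠ 0) : psi h ≤ dv 2 h := by
  rw [psi_eq]
  unfold dv Finsupp.prod
  rw [if_neg hh]
  refine prod_le_prod (fun p _ => (zero_le_one.trans (pl_ge_one p _))) fun p _ => ?_
  show pl p (h.factorization p) ≤ lc 2 (h.factorization p)
  rw [lc_two]
  have := pl_le p (h.factorization p)
  linarith

/-- `∏_{p | h} (1 - p^{-1-v})` -/
def cop (v : ℝ) (h : ℕ) : ℝ := ∏ p ∈ h.primeFactors, (1 - (p : ℝ) ^ (-1 - v))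

lemma rp {p : ℕ} (hp : p.Prime) {v : ℝ} (hv : 0 ≤ v) :
    0 < (p:ℝ) ^ (-1 - v) ∧ (p:ℝ) ^ (-1 - v) ≤ 1 / (p:ℝ) ∧ (p:ℝ) ^ (-1 - v) ≤ 1 / 2 := by
  have h := rpow_term hp hv
  exact ⟨h.1, h.2.1, h.2.1.trans (inv_prime hp).2⟩

lemma cop_nonneg {v : ℝ} (hv : 0 ≤ v) (h : ℕ) : 0 ≤ cop v h := by
  unfold cop
  refine prod_nonneg fun p hp => ?_
  have := (rp (Nat.prime_of_mem_primeFactors hp) hv).2.2
  linarith

lemma cop_le_one {v : ℝ} (hv : 0 ≤ v) (h : ℕ) : cop v h ≤ 1 := by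
  unfold cop
  refine prod_le_one (fun p hp => ?_) fun p hp => ?_
  · have := (rp (Nat.prime_of_mem_primeFactors hp) hv).2.2
    linarith
  · have := (rp (Nat.prime_of_mem_primeFactors hp) hv).1
    linarith

lemma cop_mul (v : ℝ) {m n : ℕ} (h : Nat.Coprime m n) : cop v (m * n) = cop v m * cop v n := by
  unfold cop
  rw [h.primeFactors_mul, prod_union h.disjoint_primeFactors]

lemma cop_one (v : ℝ) : cop v 1 = 1 := by simp [cop]

lemma cop_pow (v : ℝ) {p : ℕ} (hp : p.Prime) (a : ℕ) :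
    cop v (p ^ (a + 1)) = 1 - (p:ℝ) ^ (-1 - v) := by
  unfold cop
  rw [Nat.primeFactors_prime_pow (by omega) hp]
  simp

/-- the function of `h` -/
def F (u v : ℝ) (h : ℕ) : ℝ := psi h ^ 2 * (h : ℝ) ^ (-1 - u) * cop v h

lemma F_zero {u : ℝ} (hu : 0 ≤ u) (v : ℝ) : F u v 0 = 0 := by
  unfold F
  rw [Nat.cast_zero, Real.zero_rpow (by linarith)]
  ring

lemma F_one (u v : ℝ) : F u v 1 = 1 := by
  unfold F
  rw [psi_one, cop_one]
  simp

lemma F_mul (u v : ℝ) {m n : ℕ} (h : Nat.Coprime m n) : F u v (m * n) = F u v m * F u v n := by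
  unfold F
  rw [psi_mul h, cop_mul v h]
  push_cast
  rw [Real.mul_rpow (by positivity) (by positivity)]
  ring

lemma F_nonneg (u : ℝ) {v : ℝ} (hv : 0 ≤ v) (h : ℕ) : 0 ≤ F u v h := by
  unfold F
  have := cop_nonneg hv h
  positivity

lemma F_le {u v : ℝ} (hu : 0 ≤ u) (hv : 0 ≤ v) (h : ℕ) : F u v h ≤ dv 4 h * (h:ℝ) ^ (-1 - u) := by
  rcases Nat.eq_zero_or_pos h with h0 | h0
  · subst h0
    rw [F_zero hu]
    simp [dv]
  · unfold F
    have h1 := cop_le_one hv h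
    have h2 := cop_nonneg hv h
    have h3 := psi_le_dv h0.ne'
    have h4 := psi_ge_one h
    have h5 := dv_sq_le (κ := 2) (by norm_num) h
    have h6 : psi h ^ 2 ≤ dv 4 h := by
      refine (pow_le_pow_left₀ (by linarith) h3 2).trans (h5.trans (le_of_eq ?_))
      norm_num
    calc psi h ^ 2 * (h:ℝ) ^ (-1 - u) * cop v h ≤ psi h ^ 2 * (h:ℝ) ^ (-1 - u) * 1 := by gcongr
      _ = psi h ^ 2 * (h:ℝ) ^ (-1 - u) := by ring
      _ ≤ _ := by gcongr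

lemma F_summable {u v : ℝ} (hu : 0 < u) (hv : 0 ≤ v) : Summable (F u v) := by
  refine Summable.of_nonneg_of_le (F_nonneg u hv) (F_le hu.le hv) ?_
  have := dvJ_summable 4 hu
  simpa using this

/-- the local series without the coprimality factor -/
def A0 (p : ℕ) (y : ℝ) : ℝ := ∑' a : ℕ, pl p (a + 1) ^ 2 * y ^ (a + 1)

/-- the local factor -/
def E (u v : ℝ) (p : ℕ) : ℝ := 1 + (1 - (p:ℝ) ^ (-1 - v)) * A0 p ((p:ℝ) ^ (-1 - u))

/-- summable majorant -/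
lemma maj_summable : Summable (fun a : ℕ => ((a:ℝ) + 3) ^ 2 * (1 / 2 : ℝ) ^ a) := by
  have h0 : ‖(1/2:ℝ)‖ < 1 := by norm_num
  have h1 := summable_pow_mul_geometric_of_norm_lt_one (R := ℝ) 2 h0
  have h2 := summable_pow_mul_geometric_of_norm_lt_one (R := ℝ) 1 h0
  have h3 := summable_pow_mul_geometric_of_norm_lt_one (R := ℝ) 0 h0
  refine ((h1.add (h2.mul_left 6)).add (h3.mul_left 9)).congr fun a => ?_
  ring

def Cm : ℝ := ∑' a : ℕ, ((a:ℝ) + 3) ^ 2 * (1 / 2 : ℝ) ^ a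

lemma Cm_nonneg : 0 ≤ Cm := tsum_nonneg fun a => by positivity

lemma term_le {p : ℕ} {y : ℝ} (hy : 0 ≤ y) (hy2 : y ≤ 1 / 2) (a : ℕ) :
    pl p (a + 2) ^ 2 * y ^ (a + 2) ≤ y ^ 2 * (((a:ℝ) + 3) ^ 2 * (1 / 2 : ℝ) ^ a) := by
  have h1 := pl_le p (a + 2)
  have h2 := pl_ge_one p (a + 2)
  have h3 : pl p (a + 2) ^ 2 ≤ ((a:ℝ) + 3) ^ 2 := by
    refine pow_le_pow_left₀ (by linarith) ?_ 2
    push_cast at h1
    linarith
  have h4 : y ^ a ≤ (1 / 2) ^ a := pow_le_pow_left₀ hy hy2 a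
  calc pl p (a + 2) ^ 2 * y ^ (a + 2) = pl p (a + 2) ^ 2 * (y ^ a * y ^ 2) := by rw [pow_add]
    _ ≤ ((a:ℝ) + 3) ^ 2 * ((1/2) ^ a * y ^ 2) := by gcongr
    _ = _ := by ring

lemma A0_summable (p : ℕ) {y : ℝ} (hy : 0 ≤ y) (hy2 : y ≤ 1 / 2) :
    Summable (fun a : ℕ => pl p (a + 1) ^ 2 * y ^ (a + 1)) := by
  have h : Summable (fun a : ℕ => pl p (a + 2) ^ 2 * y ^ (a + 2)) :=
    Summable.of_nonneg_of_le (fun a => by positivity) (fun a => term_le hy hy2 a)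
      (maj_summable.mul_left _)
  have := (summable_nat_add_iff (f := fun a : ℕ => pl p (a + 1) ^ 2 * y ^ (a + 1)) 1).mp
  exact this h

lemma A0_expand {p : ℕ} (hp : p.Prime) {y : ℝ} (hy : 0 ≤ y) (hy1 : y ≤ 1 / (p:ℝ)) :
    0 ≤ A0 p y ∧ |A0 p y - 4 * y| ≤ (5 + Cm) * (1 / (p:ℝ)) ^ 2 := by
  have hp' := inv_prime hp
  have hy2 := hy1.trans hp'.2
  refine ⟨tsum_nonneg fun a => by positivity, ?_⟩
  have hs := A0_summable p hy hy2
  have e1 : A0 p y = pl p 1 ^ 2 * y + ∑' a : ℕ, pl p (a + 2) ^ 2 * y ^ (a + 2) := by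
    unfold A0
    rw [hs.tsum_eq_zero_add]
    simp
  have h1 : 0 ≤ ∑' a : ℕ, pl p (a + 2) ^ 2 * y ^ (a + 2) := tsum_nonneg fun a => by positivity
  have h2 : ∑' a : ℕ, pl p (a + 2) ^ 2 * y ^ (a + 2) ≤ Cm * (1 / (p:ℝ)) ^ 2 := by
    have h3 : ∑' a : ℕ, pl p (a + 2) ^ 2 * y ^ (a + 2) ≤ y ^ 2 * Cm := by
      unfold Cm
      rw [← tsum_mul_left]
      refine Summable.tsum_le_tsum (fun a => term_le hy hy2 a) ?_ (maj_summable.mul_left _)
      exact (summable_nat_add_iff (f := fun a : ℕ => pl p (a + 1) ^ 2 * y ^ (a + 1)) 1).mpr hs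
    refine h3.trans ?_
    rw [mul_comm]
    have := Cm_nonneg
    gcongr
  have h4 : pl p 1 = 2 - 1 / (p:ℝ) := by unfold pl; push_cast; ring
  rw [e1, h4]
  set x := 1 / (p:ℝ) with hx
  have h5 : (2 - x) ^ 2 * y - 4 * y = - (4 * x * y) + x ^ 2 * y := by ring
  rw [show (2 - x) ^ 2 * y + ∑' a : ℕ, pl p (a + 2) ^ 2 * y ^ (a + 2) - 4 * y =
    (- (4 * x * y) + x ^ 2 * y) + ∑' a : ℕ, pl p (a + 2) ^ 2 * y ^ (a + 2) by rw [← h5]; ring]
  have h6 : x * y ≤ x ^ 2 := by rw [pow_two]; exact mul_le_mul_of_nonneg_left hy1 hp'.1.le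
  have h7 : 0 ≤ x * y := mul_nonneg hp'.1.le hy
  have h8 : x ^ 2 * y ≤ x ^ 2 := mul_le_of_le_one_right (by positivity) (by linarith)
  have h9 : 0 ≤ x ^ 2 * y := by positivity
  rw [abs_le]
  constructor
  · nlinarith [Cm_nonneg]
  · nlinarith [Cm_nonneg]

lemma F_pow {p : ℕ} (hp : p.Prime) (u v : ℝ) (a : ℕ) :
    F u v (p ^ (a + 1)) = (1 - (p:ℝ) ^ (-1 - v)) * (pl p (a + 1) ^ 2 * ((p:ℝ) ^ (-1 - u)) ^ (a + 1)) := by
  unfold F
  rw [psi_pow hp, cop_pow v hp, Real.rpow_pow_comm (by positivity)]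
  push_cast
  ring

lemma E_hasSum {p : ℕ} (hp : p.Prime) {u : ℝ} (hu : 0 ≤ u) (v : ℝ) :
    HasSum (fun a : ℕ => F u v (p ^ a)) (E u v p) := by
  have h := rp hp hu
  have hs := A0_summable p h.1.le h.2.2
  rw [← hasSum_nat_add_iff' 1]
  simp only [sum_range_one, pow_zero, F_one]
  have e : E u v p - 1 = (1 - (p:ℝ) ^ (-1 - v)) * A0 p ((p:ℝ) ^ (-1 - u)) := by unfold E; ring
  rw [e]
  simp only [F_pow hp]
  exact hs.hasSum.mul_left _

lemma E_expand {p : ℕ} (hp : p.Prime) {u v : ℝ} (hu : 0 ≤ u) (hv : 0 ≤ v) :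
    1 ≤ E u v p ∧ |E u v p - 1 - 4 * (p:ℝ) ^ (-1 - u)| ≤ (11 + 2 * Cm) * (1 / (p:ℝ)) ^ 2 := by
  have hy := rp hp hu
  have hz := rp hp hv
  have hp' := inv_prime hp
  obtain ⟨h1, h2⟩ := A0_expand hp hy.1.le hy.2.1
  have hC := Cm_nonneg
  unfold E
  set x := 1 / (p:ℝ) with hx
  set y := (p:ℝ) ^ (-1 - u) with hydef
  set z := (p:ℝ) ^ (-1 - v) with hzdef
  set A := A0 p y with hA
  constructor
  · have : 0 ≤ (1 - z) * A := mul_nonneg (by linarith) h1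
    linarith
  · rw [abs_le] at h2 ⊢
    have hA1 : A ≤ 4 * x + (5 + Cm) * x ^ 2 := by linarith [h2.2, hy.2.1]
    have hx2 : x ^ 2 ≤ x / 2 := by nlinarith [hp'.1, hp'.2]
    have hA2 : A ≤ (6 + Cm + 1) * x := by nlinarith [hp'.1]
    have hzA : z * A ≤ x * ((7 + Cm) * x) := by
      refine mul_le_mul hz.2.1 (by linarith) h1 hp'.1.le
    have hzA0 : 0 ≤ z * A := mul_nonneg hz.1.le h1
    constructor
    · nlinarith [h2.1]
    · nlinarith [h2.2]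

/-- logarithm of the corrected local factor -/
def up4 (u v : ℝ) (p : ℕ) : ℝ := Real.log (E u v p) + 4 * Real.log (1 - (p:ℝ) ^ (-1 - u))

def C4 : ℝ := (15 + 2 * Cm) ^ 2 + (11 + 2 * Cm) + 8

lemma E_upper {p : ℕ} (hp : p.Prime) {u v : ℝ} (hu : 0 ≤ u) (hv : 0 ≤ v) :
    E u v p - 1 ≤ (15 + 2 * Cm) * (1 / (p:ℝ)) := by
  obtain ⟨-, h2⟩ := E_expand hp hu hv
  have hy := rp hp hu
  have hp' := inv_prime hp
  have hC := Cm_nonneg
  rw [abs_le] at h2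
  have : (1 / (p:ℝ)) ^ 2 ≤ 1 / (p:ℝ) := by nlinarith [hp'.1, hp'.2]
  have h3 : (11 + 2 * Cm) * (1 / (p:ℝ)) ^ 2 ≤ (11 + 2 * Cm) * (1 / (p:ℝ)) := by gcongr
  linarith [h2.2, hy.2.1]

lemma up4_bound {p : ℕ} (hp : p.Prime) {u v : ℝ} (hu : 0 ≤ u) (hv : 0 ≤ v) :
    |up4 u v p| ≤ C4 * (1 / (p:ℝ)) ^ 2 := by
  obtain ⟨h1, h2⟩ := E_expand hp hu hv
  have h3 := E_upper hp hu hv
  have hy := rp hp hu
  have hp' := inv_prime hp
  have hC := Cm_nonneg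
  have h4 := log_bd (x := E u v p - 1) (by linarith)
  rw [show 1 + (E u v p - 1) = E u v p by ring] at h4
  have h5 := log_bd' hy.1.le hy.2.2
  have e : up4 u v p = (Real.log (E u v p) - (E u v p - 1)) +
      (E u v p - 1 - 4 * (p:ℝ) ^ (-1 - u)) +
      4 * (Real.log (1 - (p:ℝ) ^ (-1 - u)) + (p:ℝ) ^ (-1 - u)) := by unfold up4; ring
  rw [e]
  have h6 : (E u v p - 1) ^ 2 ≤ (15 + 2 * Cm) ^ 2 * (1 / (p:ℝ)) ^ 2 := by
    rw [← mul_pow]
    exact pow_le_pow_left₀ (by linarith) h3 2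
  have h7 : ((p:ℝ) ^ (-1 - u)) ^ 2 ≤ (1 / (p:ℝ)) ^ 2 := pow_le_pow_left₀ hy.1.le hy.2.1 2
  calc _ ≤ |Real.log (E u v p) - (E u v p - 1)| + |E u v p - 1 - 4 * (p:ℝ) ^ (-1 - u)| +
      |4 * (Real.log (1 - (p:ℝ) ^ (-1 - u)) + (p:ℝ) ^ (-1 - u))| := abs_add_three _ _ _
    _ ≤ (15 + 2 * Cm) ^ 2 * (1 / (p:ℝ)) ^ 2 + (11 + 2 * Cm) * (1 / (p:ℝ)) ^ 2 +
        8 * (1 / (p:ℝ)) ^ 2 := by
        rw [abs_mul, abs_of_pos (by norm_num : (0:ℝ) < 4)]
        linarith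
    _ = _ := by unfold C4; ring

lemma exp_up4 {p : ℕ} (hp : p.Prime) {u v : ℝ} (hu : 0 ≤ u) (hv : 0 ≤ v) :
    Real.exp (up4 u v p) = E u v p * (1 - (p:ℝ) ^ (-1 - u)) ^ 4 := by
  have h1 := (E_expand hp hu hv).1
  have hy := rp hp hu
  unfold up4
  rw [Real.exp_add, Real.exp_log (by linarith)]
  congr 1
  have h3 : 0 < 1 - (p:ℝ) ^ (-1 - u) := by linarith [hy.2.2]
  rw [show (4:ℝ) * Real.log (1 - (p:ℝ) ^ (-1 - u)) = ((4:ℕ):ℝ) * Real.log (1 - (p:ℝ) ^ (-1 - u)) by norm_num,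
    Real.exp_nat_mul, Real.exp_log h3]

lemma up4_summable {u v : ℝ} (hu : 0 ≤ u) (hv : 0 ≤ v) :
    Summable (fun p : Nat.Primes => up4 u v p) := by
  refine Summable.of_norm_bounded (primes_summable.mul_left C4) fun p => ?_
  exact up4_bound p.2 hu hv

lemma up4_hasProd {u v : ℝ} (hu : 0 ≤ u) (hv : 0 ≤ v) :
    HasProd (fun p : Nat.Primes => E u v p * (1 - ((p:ℕ):ℝ) ^ (-1 - u)) ^ 4)
      (Real.exp (∑' p : Nat.Primes, up4 u v p)) := by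
  refine Real.hasProd_of_hasSum_log (fun p => ?_) ?_
  · rw [← exp_up4 p.2 hu hv]; positivity
  · have : ∀ p : Nat.Primes, Real.log (E u v p * (1 - ((p:ℕ):ℝ) ^ (-1 - u)) ^ 4) = up4 u v p := by
      intro p
      rw [← exp_up4 p.2 hu hv, Real.log_exp]
    simp only [this]
    exact (up4_summable hu hv).hasSum

lemma E_hasProd {u v : ℝ} (hu : 0 < u) (hv : 0 ≤ v) :
    HasProd (fun p : Nat.Primes => E u v p) (∑' h, F u v h) := by
  have h1 : HasProd (fun p : Nat.Primes => ∑' a : ℕ, F u v ((p:ℕ) ^ a)) (∑' n, F u v n) :=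
    EulerProduct.eulerProduct_hasProd (F_one u v) (fun {m n} h => F_mul u v h)
      (F_summable hu hv).norm (F_zero hu.le v)
  refine h1.congr_fun fun p => ?_
  exact ((E_hasSum p.2 hu.le v).tsum_eq).symm

lemma F_tsum {u v : ℝ} (hu : 0 < u) (hv : 0 ≤ v) :
    ∑' h, F u v h = Real.exp (∑' p : Nat.Primes, up4 u v p) * Zr u ^ 4 := by
  have h1 := E_hasProd hu hv
  have h2 := up4_hasProd hu.le hv
  have h3 : HasProd (fun p : Nat.Primes => ((1 - ((p:ℕ):ℝ) ^ (-1 - u))⁻¹) ^ 4) (Zr u ^ 4) := by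
    exact (Zr_hasProd hu).pow 4
  refine HasProd.unique h1 ((h2.mul h3).congr_fun fun p => ?_)
  have hy := rp p.2 hu.le
  have : (1 - ((p:ℕ):ℝ) ^ (-1 - u)) ≠ 0 := by linarith [hy.2.2]
  field_simp

end

end Pool.Agent.H345.SMLoc
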