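import Pool.Agent.H345R2.MeanVal

/-! # Task 21 (helper143): the sharp mean value theorem for the smoothed Dirichlet sums -/

open Complex Filter Topology Set MeasureTheory

namespace H345

namespace Sharp

open MV

/-- Gaussian weight -/
noncomputable def GG (X T : ℝ) : ℝ := Real.exp (-(T / X) ^ 2)

lemma GG_nonneg (X T : ℝ) : 0 ≤ GG X T := (Real.exp_pos _).le

lemma one_le_GG {X T : ℝ} (hX : 0 < X) (h0 : 0 ≤ T) (h1 : T ≤ X) : 1 ≤ Real.exp 1 * GG X T := by
  unfold GG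
  rw [← Real.exp_add]
  apply Real.one_le_exp
  have h2 : T / X ≤ 1 := (div_le_one hX).2 h1
  have h3 : 0 ≤ T / X := by positivity
  nlinarith

lemma gauss_int {X : ℝ} (hX : 0 < X) (l : ℝ) :
    ∫ T : ℝ, (GG X T : ℂ) * tm l T =
      ((Real.sqrt Real.pi * X * Real.exp (-(X ^ 2 * l ^ 2 / 4)) : ℝ) : ℂ) := by
  have hb : 0 < (((X ^ 2)⁻¹ : ℝ) : ℂ).re := by
    rw [ofReal_re]
    positivity
  have hX' : (X : ℂ) ≠ 0 := by exact_mod_cast hX.ne'
  have h := fourierIntegral_gaussian hb (-(l : ℂ))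
  have e1 : ∀ T : ℝ, (GG X T : ℂ) * tm l T =
      cexp (I * (-(l : ℂ)) * T) * cexp (-(((X ^ 2)⁻¹ : ℝ) : ℂ) * T ^ 2) := by
    intro T
    unfold GG tm
    rw [Complex.ofReal_exp, mul_comm]
    congr 1
    · congr 1
      push_cast
      ring
    · congr 1
      push_cast
      field_simp
  simp only [e1]
  rw [h]
  have e2 : ((Real.pi : ℂ) / (((X ^ 2)⁻¹ : ℝ) : ℂ)) ^ (1 / 2 : ℂ) =
      ((Real.sqrt Real.pi * X : ℝ) : ℂ) := by
    have h1 : (Real.pi : ℂ) / (((X ^ 2)⁻¹ : ℝ) : ℂ) = ((Real.pi * X ^ 2 : ℝ) : ℂ) := by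
      push_cast
      field_simp
    have hpi := Real.pi_pos
    rw [h1, show (1 / 2 : ℂ) = ((1 / 2 : ℝ) : ℂ) by push_cast; ring,
      ← Complex.ofReal_cpow (by positivity), ← Real.sqrt_eq_rpow, Real.sqrt_mul (by positivity),
      Real.sqrt_sq hX.le]
  have e3 : cexp (-(-(l : ℂ)) ^ 2 / (4 * (((X ^ 2)⁻¹ : ℝ) : ℂ))) =
      ((Real.exp (-(X ^ 2 * l ^ 2 / 4)) : ℝ) : ℂ) := by
    rw [Complex.ofReal_exp]
    congr 1
    push_cast
    field_simp
  rw [e2, e3, ← Complex.ofReal_mul]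

lemma integrable_GG {X : ℝ} (hX : 0 < X) : Integrable (GG X) := by
  have h := integrable_exp_neg_mul_sq (b := (X ^ 2)⁻¹) (by positivity)
  refine h.congr (Filter.Eventually.of_forall fun T => ?_)
  unfold GG
  field_simp

/-! ## Elementary sums -/

lemma half_sum {c : ℝ} (hc : 0 < c) (M : ℕ) :
    ∑ k ∈ Finset.range M, Real.exp (-(c * (k + 1)) ^ 2) ≤ 3 / 2 / c := by
  set r := Real.exp (-(2 * c)) with hr
  have hr0 : 0 < r := Real.exp_pos _
  have key : ∑ k ∈ Finset.range M, Real.exp (-(c * (k + 1)) ^ 2) ≤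
      Real.exp 1 * (1 - r ^ M) / (2 * c) := by
    induction M with
    | zero => simp
    | succ M ih =>
      rw [Finset.sum_range_succ]
      have h1 : Real.exp (-(c * (M + 1)) ^ 2) ≤ Real.exp 1 * r ^ (M + 1) := by
        rw [hr, ← Real.exp_nat_mul, ← Real.exp_add]
        apply Real.exp_le_exp.2
        push_cast
        nlinarith [sq_nonneg (c * (M + 1) - 1)]
      have h2 : r * (1 + 2 * c) ≤ 1 := by
        have h3 := Real.add_one_le_exp (2 * c)
        have h4 : r * Real.exp (2 * c) = 1 := by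
          rw [hr, ← Real.exp_add]
          simp
        calc r * (1 + 2 * c) ≤ r * Real.exp (2 * c) := by gcongr; linarith
          _ = 1 := h4
      have h5 : r ^ (M + 1) ≤ (r ^ M - r ^ (M + 1)) / (2 * c) := by
        rw [le_div_iff₀ (by positivity)]
        have h6 : 0 < r ^ M := by positivity
        have h7 : r ^ M * (r * (1 + 2 * c)) ≤ r ^ M * 1 := by gcongr
        rw [pow_succ]
        nlinarith
      have he : 0 < Real.exp 1 := Real.exp_pos _
      calc _ ≤ Real.exp 1 * (1 - r ^ M) / (2 * c) + Real.exp 1 * ((r ^ M - r ^ (M + 1)) / (2 * c)) := by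
            refine add_le_add ih (h1.trans ?_)
            gcongr
        _ = _ := by ring
  refine key.trans ?_
  have he : Real.exp 1 < 3 := by
    have := Real.exp_one_lt_d9
    linarith
  have h1 : Real.exp 1 * (1 - r ^ M) ≤ 3 := by
    have : 0 < r ^ M := by positivity
    have h0 : 0 < Real.exp 1 := Real.exp_pos _
    nlinarith
  calc Real.exp 1 * (1 - r ^ M) / (2 * c) ≤ 3 / (2 * c) := by gcongr
    _ = _ := by ring

lemma inner_sum {c : ℝ} (hc : 0 < c) (n M : ℕ) :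
    ∑ m ∈ Finset.range M, Real.exp (-(c * ((m : ℝ) - n)) ^ 2) ≤ 1 + 3 / c := by
  set f : ℕ → ℝ := fun m => Real.exp (-(c * ((m : ℝ) - n)) ^ 2) with hf
  have hf0 : ∀ m, 0 ≤ f m := fun m => (Real.exp_pos _).le
  have h1 : ∑ m ∈ Finset.range M, f m ≤ ∑ m ∈ Finset.range (n + 1 + M), f m :=
    Finset.sum_le_sum_of_subset_of_nonneg (fun m => by simp; omega) (fun m _ _ => hf0 m)
  have h2 : ∑ m ∈ Finset.range (n + 1 + M), f m =
      ∑ m ∈ Finset.range (n + 1), f m + ∑ k ∈ Finset.range M, f (n + 1 + k) :=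
    Finset.sum_range_add f (n + 1) M
  have h3 : ∑ m ∈ Finset.range (n + 1), f m = ∑ k ∈ Finset.range (n + 1), f (n - k) := by
    rw [← Finset.sum_range_reflect]
    simp
  have h4 : ∑ k ∈ Finset.range (n + 1), f (n - k) =
      ∑ k ∈ Finset.range n, f (n - (k + 1)) + f (n - 0) := Finset.sum_range_succ' _ _
  have h5 : ∑ k ∈ Finset.range n, f (n - (k + 1)) ≤ 3 / 2 / c := by
    refine le_trans (Finset.sum_le_sum fun k hk => ?_) (half_sum hc n)
    have hk' : k + 1 ≤ n := by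
      have := Finset.mem_range.1 hk
      omega
    apply le_of_eq
    simp only [hf]
    rw [Nat.cast_sub hk']
    push_cast
    congr 1
    ring
  have h6 : ∑ k ∈ Finset.range M, f (n + 1 + k) ≤ 3 / 2 / c := by
    refine le_trans (Finset.sum_le_sum fun k _ => ?_) (half_sum hc M)
    apply le_of_eq
    simp only [hf]
    push_cast
    congr 1
    ring
  have h7 : f (n - 0) = 1 := by simp [hf]
  have h8 : 3 / c = 3 / 2 / c + 3 / 2 / c := by ring
  rw [h8]
  linarith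

/-- lower bound for the difference of logarithms -/
lemma log_diff {m n : ℕ} (hm : 1 ≤ m) (hn : 1 ≤ n) (h : m ≤ 2 * n) :
    (((m : ℝ) - n) / (2 * n)) ^ 2 ≤ (Real.log m - Real.log n) ^ 2 := by
  have hm' : (0 : ℝ) < m := by exact_mod_cast hm
  have hn' : (0 : ℝ) < n := by exact_mod_cast hn
  have h' : (m : ℝ) ≤ 2 * n := by exact_mod_cast h
  rcases le_total n m with hnm | hnm
  · have hnm' : (n : ℝ) ≤ m := by exact_mod_cast hnm
    have h1 := Real.one_sub_inv_le_log_of_pos (x := (m : ℝ) / n) (by positivity)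
    rw [inv_div, Real.log_div hm'.ne' hn'.ne'] at h1
    apply pow_le_pow_left₀
    · exact div_nonneg (by linarith) (by linarith)
    · refine le_trans ?_ h1
      have h2 : 1 - (n : ℝ) / m = (m - n) / m := by field_simp
      rw [h2]
      exact div_le_div_of_nonneg_left (by linarith) hm' h'
  · have hnm' : (m : ℝ) ≤ n := by exact_mod_cast hnm
    have h1 := Real.one_sub_inv_le_log_of_pos (x := (n : ℝ) / m) (by positivity)
    rw [inv_div, Real.log_div hn'.ne' hm'.ne'] at h1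
    have e1 : (((m : ℝ) - n) / (2 * n)) ^ 2 = (((n : ℝ) - m) / (2 * n)) ^ 2 := by ring
    have e2 : (Real.log m - Real.log n) ^ 2 = (Real.log n - Real.log m) ^ 2 := by ring
    rw [e1, e2]
    apply pow_le_pow_left₀
    · exact div_nonneg (by linarith) (by linarith)
    · refine le_trans ?_ h1
      have h2 : 1 - (m : ℝ) / n = (n - m) / n := by field_simp
      rw [h2]
      exact div_le_div_of_nonneg_left (by linarith) hn' (by linarith)

lemma log_far {m n : ℕ} (hm : 1 ≤ m) (hn : 1 ≤ n) (h : 2 * n ≤ m) :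
    (Real.log 2) ^ 2 ≤ (Real.log m - Real.log n) ^ 2 := by
  have hm' : (0 : ℝ) < m := by exact_mod_cast hm
  have hn' : (0 : ℝ) < n := by exact_mod_cast hn
  have h' : 2 * (n : ℝ) ≤ m := by exact_mod_cast h
  apply pow_le_pow_left₀ (Real.log_nonneg (by norm_num))
  rw [← Real.log_div hm'.ne' hn'.ne']
  apply Real.log_le_log (by norm_num)
  rw [le_div_iff₀ hn']
  exact h'

/-! ## The quadratic form -/

/-- one-sided kernel -/
noncomputable def kk (X : ℝ) (n m : ℕ) : ℝ :=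
  if 1 ≤ n ∧ 1 ≤ m ∧ m ≤ 2 * n then Real.exp (-(X / (4 * n) * ((m : ℝ) - n)) ^ 2) else 0

lemma kk_nonneg (X : ℝ) (n m : ℕ) : 0 ≤ kk X n m := by
  unfold kk
  split_ifs
  · exact (Real.exp_pos _).le
  · exact le_rfl

lemma kk_sum {X : ℝ} (hX : 0 < X) (n M : ℕ) :
    ∑ m ∈ Finset.range M, kk X n m ≤ 1 + 12 * n / X := by
  rcases Nat.eq_zero_or_pos n with rfl | hn
  · have : ∀ m, kk X 0 m = 0 := fun m => by simp [kk]
    simp [this]
  · have hn' : (0 : ℝ) < n := by exact_mod_cast hn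
    have h1 := inner_sum (c := X / (4 * n)) (by positivity) n M
    refine le_trans (Finset.sum_le_sum fun m _ => ?_) (h1.trans (le_of_eq ?_))
    · unfold kk
      split_ifs
      · exact le_rfl
      · exact (Real.exp_pos _).le
    · field_simp
      ring

lemma kk_summable {X : ℝ} (hX : 0 < X) (n : ℕ) : Summable (kk X n) :=
  summable_of_sum_range_le (kk_nonneg X n) (kk_sum hX n)

lemma kk_tsum {X : ℝ} (hX : 0 < X) (n : ℕ) : ∑' m, kk X n m ≤ 1 + 12 * n / X :=
  Real.tsum_le_of_sum_range_le (kk_nonneg X n) (kk_sum hX n)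

/-- Gaussian factor of a pair -/
noncomputable def ee (X : ℝ) (m n : ℕ) : ℝ :=
  Real.exp (-(X ^ 2 * (Real.log m - Real.log n) ^ 2 / 4))

lemma ee_nonneg (X : ℝ) (m n : ℕ) : 0 ≤ ee X m n := (Real.exp_pos _).le

lemma ee_le_one (X : ℝ) (m n : ℕ) : ee X m n ≤ 1 := by
  unfold ee
  rw [Real.exp_le_one_iff]
  have : 0 ≤ X ^ 2 * (Real.log m - Real.log n) ^ 2 / 4 := by positivity
  linarith

lemma ee_symm (X : ℝ) (m n : ℕ) : ee X m n = ee X n m := by
  unfold ee
  congr 1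
  ring

lemma ee_le_kk (X : ℝ) {m n : ℕ} (hm : 1 ≤ m) (hn : 1 ≤ n) (h : m ≤ 2 * n) :
    ee X m n ≤ kk X n m := by
  have hn' : (0 : ℝ) < n := by exact_mod_cast hn
  unfold ee kk
  rw [if_pos ⟨hn, hm, h⟩]
  apply Real.exp_le_exp.2
  have h1 := log_diff hm hn h
  have h2 : (X / (4 * n) * ((m : ℝ) - n)) ^ 2 = X ^ 2 * (((m : ℝ) - n) / (2 * n)) ^ 2 / 4 := by
    field_simp
    ring
  rw [h2]
  have h3 : X ^ 2 * (((m : ℝ) - n) / (2 * n)) ^ 2 ≤ X ^ 2 * (Real.log m - Real.log n) ^ 2 := by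
    gcongr
  linarith

/-- far factor -/
noncomputable def EE (X : ℝ) : ℝ := Real.exp (-(X ^ 2 * (Real.log 2) ^ 2 / 4))

lemma ee_far (X : ℝ) {m n : ℕ} (hm : 1 ≤ m) (hn : 1 ≤ n) (h : 2 * n ≤ m) :
    ee X m n ≤ EE X := by
  unfold ee EE
  apply Real.exp_le_exp.2
  have h1 := log_far hm hn h
  have h3 : X ^ 2 * (Real.log 2) ^ 2 ≤ X ^ 2 * (Real.log m - Real.log n) ^ 2 := by
    gcongr
  linarith

lemma X_EE {X : ℝ} (hX : 0 < X) : X * EE X ≤ 2 := by
  have h1 := Real.add_one_le_exp (X ^ 2 * (Real.log 2) ^ 2 / 4)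
  have h2 : EE X * Real.exp (X ^ 2 * (Real.log 2) ^ 2 / 4) = 1 := by
    unfold EE
    rw [← Real.exp_add]
    simp
  have hl := Real.log_two_gt_d9
  have h3 : 0.48 ≤ (Real.log 2) ^ 2 := by nlinarith
  have h4 : 0 < EE X := Real.exp_pos _
  have h5 : X ≤ 2 * Real.exp (X ^ 2 * (Real.log 2) ^ 2 / 4) := by
    have h6 : X ^ 2 * 0.48 ≤ X ^ 2 * (Real.log 2) ^ 2 := by gcongr
    nlinarith [sq_nonneg (X - 2)]
  calc X * EE X ≤ (2 * Real.exp (X ^ 2 * (Real.log 2) ^ 2 / 4)) * EE X := by gcongr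
    _ = 2 * (EE X * Real.exp (X ^ 2 * (Real.log 2) ^ 2 / 4)) := by ring
    _ = 2 := by rw [h2]; ring

lemma pair_le (a : ℕ → ℝ) (ha0 : a 0 = 0) (X : ℝ) (m n : ℕ) :
    |a m| * |a n| * ee X m n ≤ (1 / 2 * ((a m) ^ 2 * kk X m n) + 1 / 2 * ((a n) ^ 2 * kk X n m)) +
      EE X * (|a m| * |a n|) := by
  have hE : 0 ≤ EE X := (Real.exp_pos _).le
  have k1 := kk_nonneg X m n
  have k2 := kk_nonneg X n m
  rcases Nat.eq_zero_or_pos m with rfl | hm
  · rw [ha0]
    simp
    positivity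
  rcases Nat.eq_zero_or_pos n with rfl | hn
  · rw [ha0]
    simp
    positivity
  by_cases h1 : m ≤ 2 * n
  · by_cases h2 : n ≤ 2 * m
    · have e1 := ee_le_kk X hm hn h1
      have e2 := ee_le_kk X hn hm h2
      rw [ee_symm] at e2
      have e0 := ee_nonneg X m n
      have h3 : |a m| * |a n| * ee X m n ≤ 1 / 2 * ((a m) ^ 2 * ee X m n) +
          1 / 2 * ((a n) ^ 2 * ee X m n) := by
        have h4 : |a m| * |a n| ≤ 1 / 2 * (a m) ^ 2 + 1 / 2 * (a n) ^ 2 := by
          have := sq_nonneg (|a m| - |a n|)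
          rw [← sq_abs (a m), ← sq_abs (a n)]
          nlinarith
        calc |a m| * |a n| * ee X m n ≤ (1 / 2 * (a m) ^ 2 + 1 / 2 * (a n) ^ 2) * ee X m n := by
              gcongr
          _ = _ := by ring
      have h5 : (a m) ^ 2 * ee X m n ≤ (a m) ^ 2 * kk X m n := by gcongr
      have h6 : (a n) ^ 2 * ee X m n ≤ (a n) ^ 2 * kk X n m := by gcongr
      have h7 : 0 ≤ EE X * (|a m| * |a n|) := by positivity
      linarith
    · have e1 : ee X m n ≤ EE X := by
        rw [ee_symm]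
        exact ee_far X hn hm (by omega)
      have h3 : |a m| * |a n| * ee X m n ≤ |a m| * |a n| * EE X := by gcongr
      have h4 : 0 ≤ 1 / 2 * ((a m) ^ 2 * kk X m n) + 1 / 2 * ((a n) ^ 2 * kk X n m) := by positivity
      linarith
  · have e1 : ee X m n ≤ EE X := ee_far X hm hn (by omega)
    have h3 : |a m| * |a n| * ee X m n ≤ |a m| * |a n| * EE X := by gcongr
    have h4 : 0 ≤ 1 / 2 * ((a m) ^ 2 * kk X m n) + 1 / 2 * ((a n) ^ 2 * kk X n m) := by positivity
    linarith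

theorem quad (a : ℕ → ℝ) (ha0 : a 0 = 0) (h0 : Summable fun n : ℕ => |a n|)
    (h2 : Summable fun n : ℕ => (a n) ^ 2) (h1 : Summable fun n : ℕ => (n : ℝ) * (a n) ^ 2)
    {X : ℝ} (hX : 0 < X) :
    Summable (fun p : ℕ × ℕ => |a p.1| * |a p.2| * ee X p.1 p.2) ∧
    ∑' p : ℕ × ℕ, |a p.1| * |a p.2| * ee X p.1 p.2 ≤
      (∑' n, (a n) ^ 2 + 12 / X * ∑' n : ℕ, (n : ℝ) * (a n) ^ 2) + EE X * (∑' n, |a n|) ^ 2 := by
  -- the near part
  let F : ℕ × ℕ → ℝ := fun p => (a p.1) ^ 2 * kk X p.1 p.2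
  have hF0 : 0 ≤ F := fun p => mul_nonneg (sq_nonneg _) (kk_nonneg _ _ _)
  have hB : Summable fun n : ℕ => (a n) ^ 2 * (1 + 12 * n / X) := by
    have : (fun n : ℕ => (a n) ^ 2 * (1 + 12 * n / X)) =
        fun n : ℕ => (a n) ^ 2 + 12 / X * ((n : ℝ) * (a n) ^ 2) := by
      funext n
      ring
    rw [this]
    exact h2.add (h1.mul_left _)
  have hin : ∀ n, ∑' m, F (n, m) = (a n) ^ 2 * ∑' m, kk X n m := fun n => by
    simp only [F]
    exact tsum_mul_left
  have hFs : Summable F := by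
    rw [summable_prod_of_nonneg hF0]
    refine ⟨fun n => ?_, ?_⟩
    · have h3 : Summable fun m => (a n) ^ 2 * kk X n m := (kk_summable hX n).mul_left ((a n) ^ 2)
      exact h3
    refine Summable.of_nonneg_of_le (fun n => tsum_nonneg fun m => hF0 (n, m)) (fun n => ?_) hB
    rw [hin]
    have := kk_tsum hX n
    gcongr
  have hFt : ∑' p, F p ≤ ∑' n, (a n) ^ 2 + 12 / X * ∑' n : ℕ, (n : ℝ) * (a n) ^ 2 := by
    rw [hFs.tsum_prod]
    have e1 : ∑' n, (a n) ^ 2 + 12 / X * ∑' n : ℕ, (n : ℝ) * (a n) ^ 2 =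
        ∑' n : ℕ, (a n) ^ 2 * (1 + 12 * n / X) := by
      rw [← tsum_mul_left, ← h2.tsum_add (h1.mul_left _)]
      exact tsum_congr fun n => by ring
    rw [e1]
    refine Summable.tsum_le_tsum (fun n => ?_) ?_ hB
    · rw [hin]
      have := kk_tsum hX n
      gcongr
    · exact hFs.prod
  let F' : ℕ × ℕ → ℝ := fun p => (a p.2) ^ 2 * kk X p.2 p.1
  have hF's : Summable F' := ((Equiv.prodComm ℕ ℕ).summable_iff (f := F)).2 hFs
  have hF't : ∑' p, F' p = ∑' p, F p := (Equiv.prodComm ℕ ℕ).tsum_eq F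
  let H : ℕ × ℕ → ℝ := fun p => |a p.1| * |a p.2|
  have hH : Summable H := h0.mul_of_nonneg h0 (fun n => abs_nonneg _) (fun n => abs_nonneg _)
  have hHt : ∑' p, H p = (∑' n, |a n|) ^ 2 := by
    rw [sq, h0.tsum_mul_tsum h0 hH]
  have hb : ∀ p : ℕ × ℕ, |a p.1| * |a p.2| * ee X p.1 p.2 ≤
      (1 / 2 * F p + 1 / 2 * F' p) + EE X * H p := fun p => pair_le a ha0 X p.1 p.2
  have g1 : Summable fun p : ℕ × ℕ => 1 / 2 * F p := hFs.mul_left (1 / 2)
  have g2 : Summable fun p : ℕ × ℕ => 1 / 2 * F' p := hF's.mul_left (1 / 2)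
  have g3 : Summable fun p : ℕ × ℕ => EE X * H p := hH.mul_left (EE X)
  have g4 : Summable fun p : ℕ × ℕ => 1 / 2 * F p + 1 / 2 * F' p := g1.add g2
  have hS : Summable fun p : ℕ × ℕ => (1 / 2 * F p + 1 / 2 * F' p) + EE X * H p := g4.add g3
  have hs : Summable (fun p : ℕ × ℕ => |a p.1| * |a p.2| * ee X p.1 p.2) :=
    Summable.of_nonneg_of_le (fun p => mul_nonneg (by positivity) (ee_nonneg _ _ _)) hb hS
  refine ⟨hs, (hs.tsum_le_tsum hb hS).trans ?_⟩
  have t1 : ∑' p, ((1 / 2 * F p + 1 / 2 * F' p) + EE X * H p) =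
      (1 / 2 * ∑' p, F p + 1 / 2 * ∑' p, F' p) + EE X * ∑' p, H p := by
    rw [g4.tsum_add g3, g1.tsum_add g2, tsum_mul_left, tsum_mul_left, tsum_mul_left]
  rw [t1, hHt, hF't]
  linarith

/-! ## The mean value -/

theorem mv_gauss (a : ℕ → ℝ) (ha0 : a 0 = 0) (h0 : Summable fun n : ℕ => |a n|)
    (h2 : Summable fun n : ℕ => (a n) ^ 2) (h1 : Summable fun n : ℕ => (n : ℝ) * (a n) ^ 2)
    {X : ℝ} (hX : 0 < X) :
    ∫ T : ℝ, GG X T * ‖∑' n : ℕ, (a n : ℂ) * tm (Real.log n) T‖ ^ 2 ≤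
      Real.sqrt Real.pi * X * ((∑' n, (a n) ^ 2 + 12 / X * ∑' n : ℕ, (n : ℝ) * (a n) ^ 2) +
        EE X * (∑' n, |a n|) ^ 2) := by
  have hnorm : ∀ n T, ‖(a n : ℂ) * tm (Real.log n) T‖ = |a n| := by
    intro n T
    rw [norm_mul, norm_tm]
    simp
  let F : ℕ × ℕ → ℝ → ℂ := fun p T =>
    ((a p.1 * a p.2 : ℝ) : ℂ) * ((GG X T : ℂ) * tm (Real.log p.1 - Real.log p.2) T)
  have hGc : Continuous (GG X) := by
    unfold GG
    fun_prop
  have htmc : ∀ l, Continuous fun T => tm l T := by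
    intro l
    unfold tm
    fun_prop
  have hFn : ∀ p T, ‖F p T‖ = |a p.1| * |a p.2| * GG X T := by
    intro p T
    simp only [F]
    rw [norm_mul, norm_mul, norm_tm, Complex.norm_real, Complex.norm_real, mul_one,
      Real.norm_eq_abs, Real.norm_eq_abs, abs_mul, abs_of_nonneg (GG_nonneg X T)]
  have hFi : ∀ p, Integrable (F p) := by
    intro p
    refine Integrable.mono' ((integrable_GG hX).const_mul (|a p.1| * |a p.2|)) ?_ ?_
    · apply Continuous.aestronglyMeasurable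
      simp only [F]
      exact continuous_const.mul ((Complex.continuous_ofReal.comp hGc).mul (htmc _))
    · exact Filter.Eventually.of_forall fun T => (hFn p T).le
  have hsum2 : Summable fun p : ℕ × ℕ => |a p.1| * |a p.2| :=
    h0.mul_of_nonneg h0 (fun n => abs_nonneg _) (fun n => abs_nonneg _)
  have hFs : Summable fun p => ∫ T, ‖F p T‖ := by
    have : (fun p => ∫ T, ‖F p T‖) = fun p : ℕ × ℕ => |a p.1| * |a p.2| * ∫ T, GG X T := by
      funext p
      simp only [hFn]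
      exact integral_const_mul _ _
    rw [this]
    exact hsum2.mul_right _
  have hsq : ∀ T, ((GG X T * ‖∑' n : ℕ, (a n : ℂ) * tm (Real.log n) T‖ ^ 2 : ℝ) : ℂ) =
      ∑' p : ℕ × ℕ, F p T := by
    intro T
    have e1 : ((‖∑' n : ℕ, (a n : ℂ) * tm (Real.log n) T‖ ^ 2 : ℝ) : ℂ) =
        (∑' n : ℕ, (a n : ℂ) * tm (Real.log n) T) *
          (starRingEnd ℂ) (∑' n : ℕ, (a n : ℂ) * tm (Real.log n) T) := by
      rw [Complex.mul_conj, Complex.normSq_eq_norm_sq]
    rw [Complex.ofReal_mul, e1, Complex.conj_tsum, tsum_mul_tsum_of_summable_norm,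
      ← tsum_mul_left]
    · apply tsum_congr
      intro p
      simp only [F]
      rw [map_mul, Complex.conj_ofReal]
      have : (starRingEnd ℂ) (tm (Real.log p.2) T) = cexp (((T * Real.log p.2 : ℝ) : ℂ) * I) := by
        unfold tm
        rw [← Complex.exp_conj]
        congr 1
        rw [map_mul, Complex.conj_I, Complex.conj_ofReal]
        push_cast
        ring
      rw [this]
      unfold tm
      rw [show (((-(T * (Real.log p.1 - Real.log p.2)) : ℝ) : ℂ) * I) =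
        (((-(T * Real.log p.1) : ℝ) : ℂ) * I) + (((T * Real.log p.2 : ℝ) : ℂ) * I) by
          push_cast; ring, Complex.exp_add]
      push_cast
      ring
    · simp only [hnorm]
      exact h0
    · simp only [RCLike.norm_conj, hnorm]
      exact h0
  have hint : ((∫ T : ℝ, GG X T * ‖∑' n : ℕ, (a n : ℂ) * tm (Real.log n) T‖ ^ 2 : ℝ) : ℂ) =
      ∑' p : ℕ × ℕ, ∫ T, F p T := by
    rw [MeasureTheory.integral_tsum_of_summable_integral_norm hFi hFs, ← integral_complex_ofReal]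
    exact integral_congr_ae (Filter.Eventually.of_forall fun T => hsq T)
  have hFint : ∀ p : ℕ × ℕ, ‖∫ T, F p T‖ =
      Real.sqrt Real.pi * X * (|a p.1| * |a p.2| * ee X p.1 p.2) := by
    intro p
    have : ∫ T, F p T = ((a p.1 * a p.2 : ℝ) : ℂ) *
        ((Real.sqrt Real.pi * X * ee X p.1 p.2 : ℝ) : ℂ) := by
      simp only [F]
      rw [integral_const_mul, gauss_int hX]
      rfl
    rw [this, norm_mul, Complex.norm_real, Complex.norm_real, Real.norm_eq_abs, Real.norm_eq_abs,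
      abs_mul, abs_of_nonneg (mul_nonneg (by positivity) (ee_nonneg X p.1 p.2))]
    ring
  obtain ⟨hs, hq⟩ := quad a ha0 h0 h2 h1 hX
  have hnn : 0 ≤ ∫ T : ℝ, GG X T * ‖∑' n : ℕ, (a n : ℂ) * tm (Real.log n) T‖ ^ 2 :=
    integral_nonneg fun T => mul_nonneg (GG_nonneg X T) (by positivity)
  calc ∫ T : ℝ, GG X T * ‖∑' n : ℕ, (a n : ℂ) * tm (Real.log n) T‖ ^ 2
      = ‖((∫ T : ℝ, GG X T * ‖∑' n : ℕ, (a n : ℂ) * tm (Real.log n) T‖ ^ 2 : ℝ) : ℂ)‖ := by
        rw [Complex.norm_real, Real.norm_eq_abs, abs_of_nonneg hnn]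
    _ = ‖∑' p : ℕ × ℕ, ∫ T, F p T‖ := by rw [hint]
    _ ≤ ∑' p : ℕ × ℕ, ‖∫ T, F p T‖ := by
        apply norm_tsum_le_tsum_norm
        simp only [hFint]
        exact hs.mul_left _
    _ = Real.sqrt Real.pi * X * ∑' p : ℕ × ℕ, |a p.1| * |a p.2| * ee X p.1 p.2 := by
        simp only [hFint]
        rw [tsum_mul_left]
    _ ≤ _ := by gcongr

lemma S4_bound (e : Bool) {A : ℕ} (hA : 4 ≤ A) {y : ℝ} (hy : 0 < y) {N : ℕ} (hN : 1 ≤ N)
    (hyN : y ≤ N) :
    Summable (fun n : ℕ => (n : ℝ) * (co e A y n) ^ 2) ∧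
    ∑' n : ℕ, (n : ℝ) * (co e A y n) ^ 2 ≤ 3 * Real.exp 4 * N := by
  have hN' : (1 : ℝ) ≤ N := by exact_mod_cast hN
  have hK : (1 : ℝ) ≤ Real.exp 4 := Real.one_le_exp (by norm_num)
  have hco : ∀ n : ℕ, (n : ℝ) * (co e A y n) ^ 2 ≤ ker e A (y / n) := by
    intro n
    have h3 : 0 ≤ ker e A (y / n) := ker_nonneg e A (by positivity)
    have h4 : ker e A (y / n) ≤ 1 := ker_le_one e A (by positivity)
    rcases Nat.eq_zero_or_pos n with rfl | hn
    · simpa using h3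
    · have hn0 : (0 : ℝ) < n := by exact_mod_cast hn
      have h1 := abs_co e A hy n
      rw [← sq_abs]
      calc (n : ℝ) * |co e A y n| ^ 2 ≤ n * ((Real.sqrt n)⁻¹ * ker e A (y / n)) ^ 2 := by gcongr
        _ = (ker e A (y / n)) ^ 2 := by
            rw [mul_pow, inv_pow, Real.sq_sqrt hn0.le]
            field_simp
        _ ≤ ker e A (y / n) := by nlinarith
  have h := sum_bound (fun n : ℕ => (n : ℝ) * (co e A y n) ^ 2) N hN (2 * N)
    (Real.exp 4) (by positivity) (fun n => by positivity) ?_ ?_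
  · refine ⟨h.1, h.2.trans ?_⟩
    nlinarith
  · calc ∑ n ∈ Finset.range (N + 1), (n : ℝ) * (co e A y n) ^ 2 ≤
          ∑ n ∈ Finset.range (N + 1), (1 : ℝ) :=
          Finset.sum_le_sum fun n _ => (hco n).trans (ker_le_one e A (by positivity))
      _ = (N : ℝ) + 1 := by simp
      _ ≤ 2 * N := by linarith
  · intro n hn
    exact (hco n).trans (ker_tail e hA hy hyN hn)

end Sharp

open MV Sharp in
theorem DD_sharp (e : Bool) (A : ℕ) (hA : 4 ≤ A) : ∃ C : ℝ, 0 < C ∧ ∀ X y : ℝ, 1 ≤ X → 0 < y →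
    ∫ T in (0 : ℝ)..X, ‖DD e A y T‖ ^ 2 ≤ C * (X + y) := by
  set K := Real.exp 4 with hKdef
  have hK1 : (1 : ℝ) ≤ K := Real.one_le_exp (by norm_num)
  refine ⟨Real.exp 1 * Real.sqrt Real.pi * (105 * K + 36 * K ^ 2), by
    have := Real.pi_pos
    positivity, ?_⟩
  intro X y hX hy
  have hX0 : 0 < X := by linarith
  obtain ⟨N, hN, hyN, hNy, -⟩ := exists_N hy
  obtain ⟨s1, b1⟩ := S1_bound e hA hy hN hyN hNy
  obtain ⟨s3, b3⟩ := S3_bound e hA hy hN hyN
  obtain ⟨s4, b4⟩ := S4_bound e hA hy hN hyN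
  have hN' : (1 : ℝ) ≤ N := by exact_mod_cast hN
  have hNy' : (N : ℝ) ≤ 1 + 2 * y := by
    rcases hNy with h | h
    · rw [h]
      push_cast
      linarith
    · linarith
  have h := mv_gauss (co e A y) (co_zero e A y) s3 s1 s4 hX0
  have hnorm : ∀ T, ‖DD e A y T‖ ≤ ∑' n, |co e A y n| := by
    intro T
    rw [DD_eq]
    have e1 : ∀ n, ‖(co e A y n : ℂ) * tm (Real.log n) T‖ = |co e A y n| := by
      intro n
      rw [norm_mul, norm_tm]
      simp
    refine (norm_tsum_le_tsum_norm (by simp only [e1]; exact s3)).trans ?_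
    simp only [e1]
    exact le_rfl
  have hcont : Continuous fun T => DD e A y T := by
    have h1 := DD_cont e A hA
    rw [← continuousOn_univ]
    exact h1.comp (f := fun T : ℝ => (y, T)) (by fun_prop) fun T _ => ⟨hy, Set.mem_univ _⟩
  have hint : Integrable fun T => GG X T * ‖DD e A y T‖ ^ 2 := by
    refine Integrable.mono' ((integrable_GG hX0).mul_const ((∑' n, |co e A y n|) ^ 2)) ?_ ?_
    · apply Continuous.aestronglyMeasurable
      have : Continuous (GG X) := by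
        unfold GG
        fun_prop
      exact this.mul (hcont.norm.pow 2)
    · refine Filter.Eventually.of_forall fun T => ?_
      rw [Real.norm_eq_abs, abs_of_nonneg (mul_nonneg (GG_nonneg X T) (by positivity))]
      have := GG_nonneg X T
      have := hnorm T
      gcongr
  have h5 : ∫ T in (0 : ℝ)..X, ‖DD e A y T‖ ^ 2 ≤
      Real.exp 1 * ∫ T : ℝ, GG X T * ‖DD e A y T‖ ^ 2 := by
    rw [intervalIntegral.integral_of_le hX0.le, ← integral_const_mul]
    calc ∫ T in Set.Ioc 0 X, ‖DD e A y T‖ ^ 2 ≤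
          ∫ T in Set.Ioc 0 X, Real.exp 1 * (GG X T * ‖DD e A y T‖ ^ 2) := by
          apply setIntegral_mono_on
          · exact ((hcont.norm.pow 2).integrableOn_Icc).mono_set Set.Ioc_subset_Icc_self
          · exact (hint.const_mul _).integrableOn
          · exact measurableSet_Ioc
          · intro T hT
            have h6 := one_le_GG hX0 hT.1.le hT.2
            have h7 : 0 ≤ ‖DD e A y T‖ ^ 2 := by positivity
            calc ‖DD e A y T‖ ^ 2 = 1 * ‖DD e A y T‖ ^ 2 := (one_mul _).symm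
              _ ≤ (Real.exp 1 * GG X T) * ‖DD e A y T‖ ^ 2 := by gcongr
              _ = _ := by ring
      _ ≤ ∫ T, Real.exp 1 * (GG X T * ‖DD e A y T‖ ^ 2) := by
          apply setIntegral_le_integral (hint.const_mul _)
          exact Filter.Eventually.of_forall fun T =>
            mul_nonneg (Real.exp_pos _).le (mul_nonneg (GG_nonneg X T) (by positivity))
  have h6 : ∫ T : ℝ, GG X T * ‖DD e A y T‖ ^ 2 ≤
      Real.sqrt Real.pi * ((105 * K + 36 * K ^ 2) * (X + y)) := by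
    simp only [DD_eq]
    refine h.trans ?_
    rw [mul_assoc]
    apply mul_le_mul_of_nonneg_left _ (Real.sqrt_nonneg _)
    have e0 : 0 ≤ ∑' n, |co e A y n| := tsum_nonneg fun n => abs_nonneg _
    have e1 : (∑' n, |co e A y n|) ^ 2 ≤ 9 * K ^ 2 * N := by
      calc (∑' n, |co e A y n|) ^ 2 ≤ (3 * K * Real.sqrt N) ^ 2 := by gcongr
        _ = 9 * K ^ 2 * N := by
            rw [mul_pow, Real.sq_sqrt (by positivity)]
            ring
    have e2 := X_EE hX0
    have e3 : 0 ≤ EE X := (Real.exp_pos _).le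
    have e4 : X * (∑' n, (co e A y n) ^ 2 + 12 / X * ∑' n : ℕ, (n : ℝ) * (co e A y n) ^ 2 +
        EE X * (∑' n, |co e A y n|) ^ 2) = X * (∑' n, (co e A y n) ^ 2) +
          12 * ∑' n : ℕ, (n : ℝ) * (co e A y n) ^ 2 +
            (X * EE X) * (∑' n, |co e A y n|) ^ 2 := by
      field_simp
    rw [e4]
    have e5 : X * (∑' n, (co e A y n) ^ 2) ≤ X * (33 * K) := by gcongr
    have e6 : (X * EE X) * (∑' n, |co e A y n|) ^ 2 ≤ 2 * (9 * K ^ 2 * N) := by gcongr
    have e7 : (N : ℝ) ≤ 2 * (X + y) := by linarith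
    have hK0 : 0 ≤ K := by linarith
    calc X * (∑' n, (co e A y n) ^ 2) + 12 * ∑' n : ℕ, (n : ℝ) * (co e A y n) ^ 2 +
            (X * EE X) * (∑' n, |co e A y n|) ^ 2
        ≤ X * (33 * K) + 12 * (3 * K * N) + 2 * (9 * K ^ 2 * N) := by linarith
      _ ≤ (X + y) * (33 * K) + 12 * (3 * K * (2 * (X + y))) + 2 * (9 * K ^ 2 * (2 * (X + y))) := by
          gcongr
          linarith
      _ = (105 * K + 36 * K ^ 2) * (X + y) := by ring
  calc ∫ T in (0 : ℝ)..X, ‖DD e A y T‖ ^ 2 ≤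
        Real.exp 1 * ∫ T : ℝ, GG X T * ‖DD e A y T‖ ^ 2 := h5
    _ ≤ Real.exp 1 * (Real.sqrt Real.pi * ((105 * K + 36 * K ^ 2) * (X + y))) := by
        have := Real.exp_pos 1
        gcongr
    _ = _ := by ring

end H345
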